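import Pool.Agent.P.MP_9344a7_nt.Ac.BaseA

/-! Unique factorisation of effective divisors, read in the group of classes. -/

namespace Pool.Agent.P.MP_9344a7_nt.Ac

open Polynomial Finset
open Pool.Agent.P.MP_9344a7_nt.R
open Pool.Agent.P.MP_9344a7_nt.Hy
open Pool.Agent.P.MP_9344a7_nt.Od (GD Kp Fe)
open scoped Classical

set_option linter.unusedSectionVars false

variable {q n : ℕ} {A : Type} [AddCommGroup A] [Fintype A] {Λ Λ' : LD q n A}
  {c M u a m j : ℕ} {P : ZA A} {x b s p r : A} {f : ℕ → ZA A}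

lemma w0_eq (Λ : LD q n A) (b : A) : (Λ.W 0).coeff b = if b = 0 then 1 else 0 := by
  rw [Λ.w0]
  simp [AddMonoidAlgebra.one_def, Finsupp.single_apply, eq_comm]

lemma w0_ne : (Λ.W 0).coeff b ≠ 0 ↔ b = 0 := by simp [w0_eq]

lemma w1_ne : (Λ.W 1).coeff b ≠ 0 ↔ b ∈ Λ.S := by simp [Λ.w1, coeff_ind]

lemma w1_one (h : b ∈ Λ.S) : (Λ.W 1).coeff b = 1 := by simp [Λ.w1, coeff_ind, h]

lemma w_pos (h : (Λ.W j).coeff b ≠ 0) : 1 ≤ (Λ.W j).coeff b := lt_of_le_of_ne (Λ.nn _ _) h.symm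

lemma phi_coeff (Λ : LD q n A) (f : ℕ → ZA A) (y : A) : (Phi Λ f).coeff y =
    ∑ k ∈ Ioo 0 n, ∑ b, (Λ.W (n - k)).coeff b * (f k).coeff (y - b) := by
  rw [Phi, AddMonoidAlgebra.coeff_sum, Finsupp.finsetSum_apply]
  exact sum_congr rfl fun k _ => Hy.coeff_mul _ _ _

lemma phi_ne {y : A} (h : (Phi Λ f).coeff y ≠ 0) : ∃ k, 0 < k ∧ k < n ∧ ∃ b,
    (Λ.W (n - k)).coeff b ≠ 0 ∧ (f k).coeff (y - b) ≠ 0 := by
  rw [phi_coeff] at h
  obtain ⟨k, hk, h⟩ := exists_ne_zero_of_sum_ne_zero h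
  obtain ⟨b, -, h⟩ := exists_ne_zero_of_sum_ne_zero h
  exact ⟨k, (mem_Ioo.1 hk).1, (mem_Ioo.1 hk).2, b, left_ne_zero_of_mul h, right_ne_zero_of_mul h⟩

/-! ### Sums of points -/

lemma ED.le_ms (h : ED Λ c) (m : ℕ) (x : A) (V : Multiset A) (hV : ∀ p ∈ V, p ∈ Λ.S) :
    (Λ.W m).coeff x ≤ (Λ.W (m + V.card)).coeff (x + V.sum) := by
  induction V using Multiset.induction_on with
  | empty => simp
  | cons p V ih =>
    rw [Multiset.card_cons, Multiset.sum_cons, add_comm p, ← add_assoc, ← add_assoc]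
    exact (ih fun s hs => hV s (Multiset.mem_cons_of_mem hs)).trans
      (h.mono _ _ p (hV p (Multiset.mem_cons_self _ _)))

lemma ED.ms_ne (h : ED Λ c) {V : Multiset A} (hV : ∀ p ∈ V, p ∈ Λ.S) :
    (Λ.W V.card).coeff V.sum ≠ 0 := by
  have := h.le_ms 0 0 V hV
  rw [w0_eq, if_pos rfl, zero_add, zero_add] at this
  omega

lemma ED.sum_ne (h : ED Λ c) {ι : Type} {J : Finset ι} {T : ι → A} (hT : ∀ i ∈ J, T i ∈ Λ.S) :
    (Λ.W #J).coeff (∑ i ∈ J, T i) ≠ 0 := by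
  have := h.ms_ne (V := J.val.map T) fun p hp => by
    obtain ⟨i, hi, rfl⟩ := Multiset.mem_map.1 hp
    exact hT i hi
  rwa [Multiset.card_map] at this

lemma ED.sub_one (h : ED Λ c) (hx : (Λ.W (m + 1)).coeff x = 1) (hs : s ∈ Λ.S)
    (h0 : (Λ.W m).coeff (x - s) ≠ 0) : (Λ.W m).coeff (x - s) = 1 := by
  have h1 := h.mono m (x - s) s hs
  have h2 := w_pos h0
  rw [sub_add_cancel, hx] at h1
  omega

/-- A part of a unique divisor is unique in its class. -/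
lemma ED.part_one (h : ED Λ c) {ι : Type} {I J : Finset ι} {T : ι → A} (hI : I ⊆ J)
    (hT : ∀ i ∈ J, T i ∈ Λ.S) (h1 : (Λ.W #J).coeff (∑ i ∈ J, T i) = 1) :
    (Λ.W #I).coeff (∑ i ∈ I, T i) = 1 := by
  have h2 := h.le_ms #I (∑ i ∈ I, T i) ((J \ I).val.map T) fun p hp => by
    obtain ⟨i, hi, rfl⟩ := Multiset.mem_map.1 hp
    exact hT i (mem_sdiff.1 hi).1
  have h3 := w_pos (h.sum_ne fun i hi => hT i (hI hi))
  rw [Multiset.card_map, card_val, add_comm #I, card_sdiff_add_card_eq_card hI,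
    ← sum_eq_multiset_sum, add_comm, sum_sdiff hI, h1] at h2
  omega

lemma ED.res_one (h : ED Λ c) (hx : Pm Λ n (Λ.ω - x)) : (Λ.W n).coeff x = 1 := h.sym x ▸ hx.1

lemma Eg.res (e : Eg Λ p r) : Pm Λ n (Λ.ω - (p + r)) := sub_sub Λ.ω p r ▸ e.2.2.2

lemma Eg.one (e : Eg Λ p r) (h : ED Λ c) : (Λ.W n).coeff (p + r) = 1 := h.res_one e.res

/-- The parts of the divisor of an edge. -/
lemma Eg.uf (e : Eg Λ p r) (h : ED Λ c) (h0 : 0 < j) (hj : j < n) (hb : Sb Λ n j (p + r) b) :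
    (j = 1 ∧ b = p) ∨ (j = n - 1 ∧ b = r) := by
  have h1 := e.one h
  obtain ⟨hp, ⟨r1, r2⟩, -⟩ := e
  obtain ⟨m, rfl⟩ : ∃ m, n = m + 1 := ⟨n - 1, by omega⟩
  rw [Nat.add_sub_cancel] at r1 r2 ⊢
  have := h.uf m j _ b h1 hj.le hb p hp (by rw [add_sub_cancel_left, r1]; exact one_ne_zero)
  rw [add_sub_cancel_left] at this
  rcases this with ⟨-, h2⟩ | ⟨h2, h3⟩
  · obtain rfl : j = 1 := by
      by_contra e
      exact r2 _ (by omega) (by omega) _ h2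
    exact .inl ⟨rfl, sub_eq_zero.1 (w0_ne.1 h2.1)⟩
  · obtain rfl : j = m := by
      by_contra e
      exact r2 _ h0 (by omega) _ h3
    have h4 := h3.2
    rw [Nat.sub_self] at h4
    exact .inr ⟨rfl, (sub_eq_zero.1 (w0_ne.1 h4)).symm⟩

/-- The parts of a unique divisor that is a sum of points. -/
lemma ED.uf3 (h : ED Λ c) (V : Multiset A) : ∀ j b, (∀ p ∈ V, p ∈ Λ.S) →
    (Λ.W V.card).coeff V.sum = 1 → j ≤ V.card → Sb Λ V.card j V.sum b →
    ∃ V' ≤ V, V'.card = j ∧ V'.sum = b := by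
  induction V using Multiset.induction_on with
  | empty =>
    intro j b _ _ hj hb
    obtain rfl : j = 0 := by simpa using hj
    exact ⟨0, le_rfl, rfl, (w0_ne.1 hb.1).symm⟩
  | cons p V ih =>
    intro j b hV h1 hj hb
    have hp := hV p (Multiset.mem_cons_self _ _)
    have hV' := fun s hs => hV s (Multiset.mem_cons_of_mem hs)
    rw [Multiset.card_cons, Multiset.sum_cons] at h1 hb
    have e : p + V.sum - p = V.sum := add_sub_cancel_left _ _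
    have h0 : (Λ.W V.card).coeff (p + V.sum - p) ≠ 0 := e.symm ▸ h.ms_ne hV'
    have h2 := h.sub_one h1 hp h0
    have := h.uf _ j _ b h1 (by simpa using hj) hb p hp h0
    rw [e] at this h2
    rcases this with ⟨j0, h3⟩ | ⟨j0, h3⟩
    · obtain ⟨V', a1, a2, a3⟩ := ih _ _ hV' h2 (by rw [Multiset.card_cons] at hj; omega) h3
      exact ⟨p ::ₘ V', Multiset.cons_le_cons _ a1, by rw [Multiset.card_cons]; omega,
        by rw [Multiset.sum_cons, a3, add_sub_cancel]⟩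
    · obtain ⟨V', a1, a2, a3⟩ := ih _ _ hV' h2 j0 h3
      exact ⟨V', a1.trans (Multiset.le_cons_self _ _), a2, a3⟩

/-- The points of a unique divisor that is a sum of points. -/
lemma ED.uf31 (h : ED Λ c) {ι : Type} {J : Finset ι} {T : ι → A} (hT : ∀ i ∈ J, T i ∈ Λ.S)
    (h1 : (Λ.W #J).coeff (∑ i ∈ J, T i) = 1) (h0 : 0 < #J) (hp : p ∈ Λ.S)
    (h2 : (Λ.W (#J - 1)).coeff (∑ i ∈ J, T i - p) ≠ 0) : ∃ i ∈ J, T i = p := by
  obtain ⟨V, a1, a2, a3⟩ := h.uf3 (J.val.map T) 1 p (fun p hp => by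
    obtain ⟨i, hi, rfl⟩ := Multiset.mem_map.1 hp
    exact hT i hi) (by rwa [Multiset.card_map]) (by rwa [Multiset.card_map])
    ⟨w1_ne.2 hp, by rwa [Multiset.card_map]⟩
  obtain ⟨y, rfl⟩ := Multiset.card_eq_one.1 a2
  rw [Multiset.sum_singleton] at a3
  exact Multiset.mem_map.1 (a3 ▸ Multiset.singleton_le.1 a1)

lemma ED.pts (h : ED Λ c) (m : ℕ) : ∀ x, (Λ.W (m + 1)).coeff x = 1 →
    #{p ∈ Λ.S | (Λ.W m).coeff (x - p) ≠ 0} ≤ m + 1 := by
  induction m with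
  | zero =>
    exact fun x _ => card_le_one.2 fun p hp r hr => (sub_eq_zero.1 (w0_ne.1
      (mem_filter.1 hp).2)).symm.trans (sub_eq_zero.1 (w0_ne.1 (mem_filter.1 hr).2))
  | succ m ih =>
    intro x hx
    rcases ({p ∈ Λ.S | (Λ.W (m + 1)).coeff (x - p) ≠ 0} : Finset A).eq_empty_or_nonempty with
      e | ⟨s, hs⟩
    · simp [e]
    obtain ⟨s1, s2⟩ := mem_filter.1 hs
    refine (card_le_card (t := insert s {p ∈ Λ.S | (Λ.W m).coeff (x - s - p) ≠ 0})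
      fun p hp => ?_).trans ((card_insert_le _ _).trans
        (Nat.succ_le_succ (ih _ (h.sub_one hx s1 s2))))
    obtain ⟨p1, p2⟩ := mem_filter.1 hp
    rcases h.uf _ 1 x p hx (by omega) ⟨w1_ne.2 p1, p2⟩ s s1 s2 with ⟨-, a, -⟩ | ⟨-, -, a⟩
    · exact mem_insert.2 (.inl (sub_eq_zero.1 (w0_ne.1 a)))
    · exact mem_insert_of_mem (mem_filter.2 ⟨p1, a⟩)

/-- A class with a unique divisor is the sum of at most `n` pairs. -/
lemma ED.prs (h : ED Λ c) (h0 : 0 < n) {E : Finset (A × A)} {Z : Finset A}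
    (hE : ∀ e ∈ E, e.1 ∈ Λ.S ∧ (Λ.W (n - 1)).coeff e.2 ≠ 0 ∧ (Λ.W n).coeff (e.1 + e.2) = 1 ∧
      e.1 + e.2 ∈ Z) : #E ≤ n * #Z := by
  refine card_le_mul_card_image_of_maps_to (f := fun e => e.1 + e.2) (fun e he => (hE e he).2.2.2)
    n fun x _ => ?_
  rcases ({e ∈ E | e.1 + e.2 = x} : Finset _).eq_empty_or_nonempty with e | ⟨e, he⟩
  · simp [e]
  obtain ⟨m, rfl⟩ : ∃ m, n = m + 1 := ⟨n - 1, by omega⟩
  refine le_trans (card_le_card_of_injOn Prod.fst (fun e he => ?_) fun e he e' he' h1 => ?_)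
    (h.pts m x ((mem_filter.1 he).2 ▸ (hE e (mem_filter.1 he).1).2.2.1))
  · obtain ⟨a1, rfl⟩ := mem_filter.1 he
    exact mem_filter.2 ⟨(hE e a1).1, by simpa using (hE e a1).2.1⟩
  · exact Prod.ext h1 (add_left_cancel (a := e.1)
      ((mem_filter.1 he).2.trans (h1 ▸ (mem_filter.1 he').2.symm)))

/-! ### Counting -/

lemma ED.pow_le (h : ED Λ c) (m : ℕ) : ∀ x, (Λ.W 1 ^ m).coeff x ≤ 2 ^ m ^ 2 * (Λ.W m).coeff x := by
  induction m with
  | zero => intro x; simp [Λ.w0]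
  | succ m ih =>
    intro x
    have h1 := h.mul m 1 x
    have h2 : (2 : ℤ) ^ m ^ 2 * 2 ^ (m + 1) ≤ 2 ^ (m + 1) ^ 2 := by
      rw [← pow_add]
      exact pow_le_pow_right₀ one_le_two (by nlinarith)
    rw [pow_succ, Hy.coeff_mul]
    rw [Hy.coeff_mul] at h1
    calc _ ≤ ∑ y, 2 ^ m ^ 2 * ((Λ.W m).coeff y * (Λ.W 1).coeff (x - y)) :=
          sum_le_sum fun y _ => by
            rw [← mul_assoc]
            exact mul_le_mul_of_nonneg_right (ih y) (Λ.nn _ _)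
      _ ≤ 2 ^ m ^ 2 * (2 ^ (m + 1) * (Λ.W (m + 1)).coeff x) := by
          rw [← mul_sum]
          exact mul_le_mul_of_nonneg_left h1 (by positivity)
      _ ≤ _ := by
          rw [← mul_assoc]
          exact mul_le_mul_of_nonneg_right h2 (Λ.nn _ _)

/-- The number of tuples of points with a given sum. -/
lemma ED.tup (h : ED Λ c) {ι : Type} [Fintype ι] {E : Finset (ι → A)}
    (hE : ∀ T ∈ E, (∀ i, T i ∈ Λ.S) ∧ ∑ i, T i = x) :
    (#E : ℤ) ≤ 2 ^ Fintype.card ι ^ 2 * (Λ.W (Fintype.card ι)).coeff x := by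
  refine le_trans ?_ (h.pow_le _ x)
  have e : ∀ T : ι → A, ∏ i, (AddMonoidAlgebra.single (T i) 1 : ZA A) = .single (∑ i, T i) 1 :=
    fun T => by simp
  rw [← card_univ, ← prod_const, Λ.w1, ind, prod_univ_sum, AddMonoidAlgebra.coeff_sum,
    Finsupp.finsetSum_apply]
  simp only [e, AddMonoidAlgebra.coeff_single, Finsupp.single_apply, sum_boole]
  exact_mod_cast card_le_card fun T hT => by simpa using hE T hT

/-- The number of tuples with given sums on `J` and on its complement. -/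
lemma ED.two (h : ED Λ c) {ι : Type} [Fintype ι] [DecidableEq ι] (J : Finset ι) {y : A}
    {E : Finset (ι → A)}
    (hE : ∀ T ∈ E, (∀ i, T i ∈ Λ.S) ∧ ∑ i ∈ J, T i = x ∧ ∑ i ∈ Jᶜ, T i = y) :
    (#E : ℤ) ≤ 2 ^ #J ^ 2 * (Λ.W #J).coeff x * (2 ^ #Jᶜ ^ 2 * (Λ.W #Jᶜ).coeff y) := by
  have h1 := h.tup (E := E.image fun T (i : J) => T i) (x := x) fun T hT => by
    obtain ⟨T, a, rfl⟩ := mem_image.1 hT
    exact ⟨fun i => (hE T a).1 i, (sum_coe_sort J T).trans (hE T a).2.1⟩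
  have h2 := h.tup (E := E.image fun T (i : (Jᶜ : Finset ι)) => T i) (x := y) fun T hT => by
    obtain ⟨T, a, rfl⟩ := mem_image.1 hT
    exact ⟨fun i => (hE T a).1 i, (sum_coe_sort Jᶜ T).trans (hE T a).2.2⟩
  rw [Fintype.card_coe] at h1 h2
  refine le_trans ?_ (mul_le_mul h1 h2 (Nat.cast_nonneg _) ((Nat.cast_nonneg _).trans h1))
  rw [← Nat.cast_mul, Nat.cast_le, ← card_product]
  refine card_le_card_of_injOn (fun T => (fun i => T i, fun i => T i)) (fun T hT =>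
    mem_product.2 ⟨mem_image_of_mem _ hT, mem_image_of_mem _ hT⟩) fun T _ T' _ e =>
      funext fun i => ?_
  by_cases hi : i ∈ J
  · exact congrFun (congrArg Prod.fst e) ⟨i, hi⟩
  · exact congrFun (congrArg Prod.snd e) ⟨i, mem_compl.2 hi⟩

/-- A canonical tuple is almost determined by the sum of `n` of its entries. -/
lemma ED.tuc (h : ED Λ c) {J : Finset (Fin (2 * n))} (hJ : #J = n) {E : Finset (Fin (2 * n) → A)}
    {X : Finset A} (hE : ∀ T ∈ E, (∀ i, T i ∈ Λ.S) ∧ ∑ i, T i = Λ.ω ∧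
      (Λ.W n).coeff (∑ i ∈ J, T i) = 1 ∧ ∑ i ∈ J, T i ∈ X) : #E ≤ 4 ^ n ^ 2 * #X := by
  refine card_le_mul_card_image_of_maps_to (f := fun T => ∑ i ∈ J, T i)
    (fun T hT => (hE T hT).2.2.2) _ fun x _ => ?_
  rcases ({T ∈ E | ∑ i ∈ J, T i = x} : Finset _).eq_empty_or_nonempty with e | ⟨T, hT⟩
  · simp [e]
  have h1 : (Λ.W n).coeff x = 1 := (mem_filter.1 hT).2 ▸ (hE T (mem_filter.1 hT).1).2.2.1
  have h2 := h.two J (x := x) (y := Λ.ω - x) (E := {T ∈ E | ∑ i ∈ J, T i = x}) fun T hT => by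
    obtain ⟨a1, rfl⟩ := mem_filter.1 hT
    exact ⟨(hE T a1).1, rfl, by
      rw [← (hE T a1).2.1, ← sum_add_sum_compl J T, add_sub_cancel_left]⟩
  rw [card_compl, Fintype.card_fin, hJ, show 2 * n - n = n by omega, h.sym, h1, mul_one,
    ← mul_pow] at h2
  exact_mod_cast h2

lemma gd_supp (h : GD Λ c) (hj : j ≤ n) : #{b | (Λ.W j).coeff b ≠ 0} ≤ c * q ^ j := by
  have := (Od.cnt_pair (Λ.nn j) 0).trans (by simpa [sq] using h.e0 j hj)
  simp only [add_zero, and_self] at this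
  exact_mod_cast this

lemma gd_sz (h : GD Λ c) (hj : j ≤ n) : sz (Λ.W j) ≤ c * q ^ j := by
  refine le_trans (card_le_card fun b => ?_) (gd_supp h hj)
  simp

lemma ED.big (h : ED Λ c) (hj : j ≤ n) :
    q * ∑ b with 2 ≤ (Λ.W j).coeff b, (Λ.W j).coeff b ≤ c * q ^ j := by
  refine le_trans ?_ (h.gd.e0 j hj)
  rw [mul_sum]
  refine (sum_le_sum fun b hb => ?_).trans
    (sum_le_sum_of_subset_of_nonneg (subset_univ _) fun _ _ _ => sq_nonneg _)
  have h1 := (mem_filter.1 hb).2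
  rw [sq]
  exact mul_le_mul_of_nonneg_right ((h.pw j b).resolve_left (by omega)) (Λ.nn _ _)

lemma ED.big' (h : ED Λ c) (hj : j ≤ n) :
    q * #{b | (Λ.W j).coeff b ≠ 0 ∧ (Λ.W j).coeff b ≠ 1} ≤ c * q ^ j := by
  have h1 : (#{b | (Λ.W j).coeff b ≠ 0 ∧ (Λ.W j).coeff b ≠ 1} : ℤ) ≤
      ∑ b with 2 ≤ (Λ.W j).coeff b, (Λ.W j).coeff b := by
    rw [card_eq_sum_ones, Nat.cast_sum, filter_congr (q := fun b => 2 ≤ (Λ.W j).coeff b)
      fun b _ => by have := Λ.nn j b; omega]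
    exact sum_le_sum fun b hb => by have := (mem_filter.1 hb).2; push_cast; omega
  exact_mod_cast (mul_le_mul_of_nonneg_left h1 (Nat.cast_nonneg q)).trans (h.big hj)

/-- Few tuples have a sum whose divisor is not unique. -/
lemma ED.tup2 (h : ED Λ c) {ι : Type} [Fintype ι] (hj : Fintype.card ι = j) (hn : j ≤ n)
    {E : Finset (ι → A)} (hE : ∀ T ∈ E, (∀ i, T i ∈ Λ.S) ∧ (Λ.W j).coeff (∑ i, T i) ≠ 1) :
    q * #E ≤ 2 ^ j ^ 2 * c * q ^ j := by
  subst hj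
  have h1 : (#E : ℤ) ≤ 2 ^ Fintype.card ι ^ 2 * ∑ b with 2 ≤ (Λ.W (Fintype.card ι)).coeff b,
      (Λ.W (Fintype.card ι)).coeff b := by
    rw [card_eq_sum_card_fiberwise (f := fun T => ∑ i, T i)
      (t := {b | 2 ≤ (Λ.W (Fintype.card ι)).coeff b}) fun T hT => ?_, Nat.cast_sum, mul_sum]
    · exact sum_le_sum fun b _ => h.tup fun T hT =>
        ⟨(hE T (mem_filter.1 hT).1).1, (mem_filter.1 hT).2⟩
    · obtain ⟨a1, a2⟩ := hE T hT
      have := w_pos (h.sum_ne (J := univ) fun i _ => a1 i)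
      rw [card_univ] at this
      exact mem_filter.2 ⟨mem_univ _, lt_of_le_of_ne this a2.symm⟩
  have h2 := mul_le_mul_of_nonneg_left (h.big hn)
    (show (0 : ℤ) ≤ 2 ^ Fintype.card ι ^ 2 by positivity)
  have h3 := (mul_le_mul_of_nonneg_left h1 (Nat.cast_nonneg q)).trans
    ((mul_left_comm _ _ _).trans_le h2)
  rw [mul_assoc]
  exact_mod_cast h3

lemma ED.clf' (h : ED Λ c) (h0 : 0 < j) (hj : j < n) (s : A) :
    q * #{b | (Λ.W j).coeff b ≠ 0 ∧ (Λ.W j).coeff (s - b) ≠ 0} ≤ c * q ^ j := by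
  have h1 : (#{b | (Λ.W j).coeff b ≠ 0 ∧ (Λ.W j).coeff (s - b) ≠ 0} : ℤ) ≤
      ∑ b, (Λ.W j).coeff b * (Λ.W j).coeff (s - b) := by
    rw [card_filter, Nat.cast_sum]
    refine sum_le_sum fun b _ => ?_
    split_ifs with e
    · exact one_le_mul_of_one_le_of_one_le (w_pos e.1) (w_pos e.2)
    · exact mul_nonneg (Λ.nn _ _) (Λ.nn _ _)
  exact_mod_cast (mul_le_mul_of_nonneg_left h1 (Nat.cast_nonneg q)).trans (h.clf j h0 hj s)

/-- Sums of an element of a small set and an element of `W k`. -/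
lemma gd_add (h : GD Λ c) {k y : ℕ} (hk : k ≤ n) {B X : Finset A} (hB : q * #B ≤ y)
    (g : A → A) (hX : ∀ x ∈ X, ∃ b ∈ B, (Λ.W k).coeff (x - g b) ≠ 0) :
    q * #X ≤ y * (c * q ^ k) := by
  refine le_trans (Nat.mul_le_mul_left _ ((card_le_card
    (t := (B ×ˢ ({b | (Λ.W k).coeff b ≠ 0} : Finset A)).image fun z => g z.1 + z.2) fun x hx => ?_).trans
      (card_image_le.trans_eq (card_product _ _)))) ?_
  · obtain ⟨b, h1, h2⟩ := hX x hx
    exact mem_image.2 ⟨(b, x - g b), mem_product.2 ⟨h1, mem_filter.2 ⟨mem_univ _, h2⟩⟩, by simp⟩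
  · rw [← mul_assoc]
    exact Nat.mul_le_mul hB (gd_supp h hk)

/-- The values of `P * W n` near a class with a unique divisor. -/
lemma gd_pwt (h : GD Λ c) (hP : Kp P) (t : A) :
    q * #{x | (Λ.W n).coeff x = 1 ∧ (P * Λ.W n).coeff (x + t) ≠ P.coeff t} ≤
      om A * (c * q ^ n) := by
  refine le_trans (Nat.mul_le_mul_left _ (card_le_card fun x hx => ?_)) (mul_card_biUnion
    (I := P.coeff.support.erase t) (Z := fun b =>
      {x | (Λ.W n).coeff x ≠ 0 ∧ (Λ.W n).coeff (x + (t - b)) ≠ 0}) (card_erase_le.trans hP.sz)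
    fun b hb => h.pair le_rfl (sub_ne_zero.2 (ne_of_mem_erase hb).symm))
  obtain ⟨a1, a2⟩ := (mem_filter.1 hx).2
  by_contra e
  refine a2 ?_
  rw [Hy.coeff_mul, sum_eq_single t (fun b _ hb => ?_) (by simp), add_sub_cancel_right, a1, mul_one]
  by_contra e'
  exact e (mem_biUnion.2 ⟨b, mem_erase.2 ⟨hb, Finsupp.mem_support_iff.2 (left_ne_zero_of_mul e')⟩,
    mem_filter.2 ⟨mem_univ _, a1 ▸ one_ne_zero, add_sub_assoc x t b ▸ right_ne_zero_of_mul e'⟩⟩)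

/-- The mixed terms are symmetric modulo two. -/
lemma SD.sym (h : SD Λ P s f u) (e : ED Λ c) (hP : Pk P s) : ∃ X : Finset A,
    u * #X ≤ 2 * q ^ n ∧ ∀ y ∉ X,
      Even ((Phi Λ f).coeff y + (Phi Λ f).coeff (Λ.ω + s - y)) := by
  obtain ⟨X, a1, a2⟩ := h.par
  obtain ⟨ε, b1, b2⟩ := hP.sym
  refine ⟨X ∪ X.image (Λ.ω + s - ·), two_mul (q ^ n) ▸ mul_card_union a1
    ((Nat.mul_le_mul_left _ card_image_le).trans a1), fun y hy => ?_⟩
  have c1 := a2 y fun e => hy (mem_union_left _ e)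
  have c2 := a2 (Λ.ω + s - y) fun e => hy (mem_union_right _ (mem_image.2 ⟨_, e, by simp⟩))
  have c3 : (P * Λ.W n).coeff (Λ.ω + s - y) = ε * (P * Λ.W n).coeff y := by
    rw [Hy.coeff_mul, Hy.coeff_mul, mul_sum, ← (Equiv.subLeft s).sum_comp]
    refine sum_congr rfl fun b _ => ?_
    rw [Equiv.subLeft_apply, b2, ← e.sym (y - b), mul_assoc]
    congr 3
    abel
  rw [c3, sub_sub_cancel] at c2
  obtain ⟨k, hk⟩ := c1
  obtain ⟨k', hk'⟩ := c2
  rw [Int.even_iff]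
  rcases b1 with rfl | rfl <;> omega

/-- The lower half of the mixing property. -/
lemma CD.mx (h : CD Λ c M) {U V : Finset A} (hU : U ⊆ Λ.S)
    (hV : ∀ r ∈ V, (Λ.W (n - 1)).coeff r = 1) {E : Finset (A × A)}
    (hE : ∀ p ∈ U, ∀ r ∈ V, Pm Λ n (Λ.ω - p - r) → (p, r) ∈ E) :
    M * (#U * #V) ≤ M * (n * #E) + q ^ n := by
  have h1 := h.mxp U hU V hV
  have h2 : #{p ∈ U ×ˢ V | Pm Λ n (Λ.ω - p.1 - p.2)} ≤ #E := card_le_card fun p hp => by
    obtain ⟨a1, a2⟩ := mem_filter.1 hp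
    exact hE _ (mem_product.1 a1).1 _ (mem_product.1 a1).2 a2
  have h3 := mul_le_mul_of_nonneg_left (neg_le_abs _) (Nat.cast_nonneg (α := ℤ) M) |>.trans h1
  have h4 : (M : ℤ) * (n * #{p ∈ U ×ˢ V | Pm Λ n (Λ.ω - p.1 - p.2)}) ≤ M * (n * #E) := by gcongr
  zify
  linarith

/-! ### Labels -/

variable {U : Finset A} {t : A → A} {τ : A} {ε : ℤ}

lemma Ms.cons (h : Ms U t m x τ) (hp : p ∈ U) : Ms U t (m + 1) (p + x) (t p + τ) := by
  obtain ⟨V, rfl, a, rfl, rfl⟩ := h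
  exact ⟨p ::ₘ V, by simp, by simpa [hp] using a, by simp, by simp⟩

lemma ms_few (U : Finset A) (t : A → A) (m : ℕ) :
    ∃ Y : Finset A, #Y ≤ #(U.image t) ^ m ∧ ∀ x τ, Ms U t m x τ → τ ∈ Y := by
  induction m with
  | zero =>
    refine ⟨{0}, by simp, ?_⟩
    rintro x τ ⟨V, a, -, -, rfl⟩
    simp [Multiset.card_eq_zero.1 a]
  | succ m ih =>
    obtain ⟨Y, a1, a2⟩ := ih
    refine ⟨image₂ (· + ·) Y (U.image t), (card_image₂_le _ _ _).trans
      ((Nat.mul_le_mul_right _ a1).trans_eq (pow_succ _ m).symm), ?_⟩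
    rintro x τ ⟨V, a, b, -, rfl⟩
    obtain ⟨p, hp⟩ := Multiset.card_pos_iff_exists_mem.1 (m.succ_pos.trans_eq a.symm)
    obtain ⟨V, rfl⟩ := Multiset.exists_cons_of_mem hp
    rw [Multiset.map_cons, Multiset.sum_cons, add_comm]
    exact mem_image₂_of_mem (a2 _ _ ⟨V, by simpa using a,
      fun s hs => b s (Multiset.mem_cons_of_mem hs), rfl, rfl⟩) (mem_image_of_mem _ (b p hp))

/-- A sum of labelled points, moved by its labels, is a sum of points of the second curve. -/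
lemma Lab.ms (h : Lab Λ Λ' U ε t u a) (e : ED Λ' c) (hx : Ms U t m x τ) :
    (Λ'.W m).coeff (ε • (x - τ)) ≠ 0 := by
  obtain ⟨V, rfl, b, rfl, rfl⟩ := hx
  have := e.ms_ne (V := V.map fun p => ε • (p - t p)) fun p hp => by
    obtain ⟨r, hr, rfl⟩ := Multiset.mem_map.1 hp
    exact h.mem r (b r hr)
  rw [Multiset.card_map] at this
  convert this using 2
  rcases h.sg with rfl | rfl <;> simp [Multiset.sum_map_sub]

end Pool.Agent.P.MP_9344a7_nt.Ac
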