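import Pool.Agent.P.MP_9344a7_nt.Ac.IfaceA
import Pool.Agent.P.MP_9344a7_nt.Ac.BaseB

/-! Steps MSF, SPL, RL1, EDG, FT, SUB2, RDG. -/

set_option linter.unusedVariables false
set_option linter.unusedSectionVars false

namespace Pool.Agent.P.MP_9344a7_nt.Ac

section

open Polynomial Finset
open Pool.Agent.P.MP_9344a7_nt.R
open Pool.Agent.P.MP_9344a7_nt.Hy
open Pool.Agent.P.MP_9344a7_nt.Od (GD Kp Fe)
open scoped Classical ComplexConjugate

lemma amsf_sg {q μ : ℕ} {G : ℂ[X]} (hq : 0 < q) (h : Fe q μ G) : Sg q G := by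
  intro α hα
  have hw : (q : ℂ) ≠ 0 := Nat.cast_ne_zero.2 hq.ne'
  have a0 : α ≠ 0 := fun e => by
    rw [e, ← coeff_zero_eq_eval_zero, h.c0] at hα
    exact one_ne_zero hα
  have b0 : (q : ℂ) * conj α ≠ 0 := mul_ne_zero hw ((_root_.map_ne_zero _).2 a0)
  have key : (q * conj α) ^ μ * G.eval (q * conj α)⁻¹ = G.coeff μ * conj (G.eval α) := by
    rw [eval_eq_sum_range, eval_eq_sum_range, h.deg, map_sum, mul_sum, mul_sum,
      ← sum_range_reflect]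
    refine sum_congr rfl fun j hj => ?_
    obtain ⟨i, rfl⟩ := Nat.exists_eq_add_of_le (Nat.lt_succ_iff.1 (mem_range.1 hj))
    rw [show j + i + 1 - 1 - j = i by omega, map_mul, map_pow, ← mul_assoc (G.coeff _),
      ← h.eq i j (add_comm i j), pow_add, inv_pow, mul_assoc, mul_left_comm _ (G.coeff i),
      mul_inv_cancel₀ (pow_ne_zero _ b0)]
    ring
  rw [hα, map_zero, mul_zero] at key
  exact (mul_eq_zero.1 key).resolve_left (pow_ne_zero _ b0)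

theorem p_MSF :
    S_MSF := by
  refine ⟨fun q μ G hq h => amsf_sg hq h, ?_⟩
  intro q D A _ _ Λ hq hD hdg χ hχ L L' α hZ hF hdv hZ' hS' hα hα'
  have hS := amsf_sg hq hF
  have h0 := hF.c0
  have hd := hF.deg
  have hw : (q : ℂ) ≠ 0 := Nat.cast_ne_zero.2 hq.ne'
  have nz (β : ℂ) (h : L.eval β = 0) : β ≠ 0 := fun e => by
    rw [e, ← coeff_zero_eq_eval_zero, h0] at h
    exact one_ne_zero h
  have mn (r : ℂ) (h : L.eval r⁻¹ = 0) (h' : L'.eval r⁻¹ = 0) : ∃ ρ : Multiset ℂ, r ∈ ρ ∧ ρ.Nodup ∧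
      (∀ t ∈ ρ, t ≠ 0) ∧ Prim χ (ofR ρ) ∧ ofR ρ ∣ L ∧ ofR ρ ∣ L' := by
    have r0 : r ≠ 0 := fun e => nz _ h (by rw [e, inv_zero])
    have c : (reflect D L).coeff D = 1 := by simpa using h0
    have d := natDegree_eq_of_le_of_coeff_ne_zero (p := reflect D L)
      (natDegree_le_iff_coeff_eq_zero.2 fun j hj => by
        rw [coeff_reflect, revAt_eq_self_of_lt hj, coeff_eq_zero_of_natDegree_lt (by omega)])
      (c ▸ one_ne_zero)
    obtain ⟨ρ, a1, a2, a3, a4⟩ := Hy.a_MIN A χ hχ r r0 (.of_aeval_monic_of_isIntegral_coeff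
      (p := reflect D L) (by rw [Monic, leadingCoeff, d, c]) (by omega)
      (by rw [(str_rev hd.le r0).2 h]; exact isIntegral_zero) fun i => by
        obtain ⟨y, hy⟩ := zc_iff.1 hZ (revAt D i)
        rw [coeff_reflect, ← hy]
        exact str_int y)
    have a5 := (str_eval a3 r⁻¹).2 (by rwa [inv_inv])
    exact ⟨ρ, a1, a2, a3, a4, a4.dvd L hZ _ a5 h, a4.dvd L' hZ' _ a5 h'⟩
  have iv (t : ℂ) : q / conj (q / conj t) = t := by
    rw [map_div₀, Complex.conj_natCast, Complex.conj_conj, div_div_cancel₀ hw]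
  have eβ : (q : ℂ) / conj α⁻¹ = q * conj α := by rw [map_inv₀, div_inv_eq_mul]
  obtain ⟨ρ, a1, a2, a3, a4, a5, a6⟩ := mn α⁻¹ (by rwa [inv_inv]) (by rwa [inv_inv])
  obtain ⟨ρ', b1, b2, b3, b4, b5, b6⟩ := mn (q / conj α⁻¹) (eβ ▸ hS α hα) (eβ ▸ hS' α hα')
  have h2 := Od.oeql_swap hw b3 a3 b4.zc a4 a1 b1
  have h1 := Od.oeql_swap hw a3 b3 a4.zc b4 b1 (by rwa [iv])
  have inj : Function.Injective fun r : ℂ => q / conj r :=
    Function.LeftInverse.injective (g := fun r : ℂ => q / conj r) iv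
  have mp {σ σ' : Multiset ℂ} (n1 : σ.Nodup) (n2 : σ'.Nodup) (k1 : ∀ t ∈ σ, q / conj t ∈ σ')
      (k2 : ∀ t ∈ σ', q / conj t ∈ σ) : σ.map (fun r : ℂ => q / conj r) = σ' :=
    (Multiset.Nodup.ext (n1.map inj) n2).2 fun t => by
      rw [Multiset.mem_map]
      exact ⟨fun ⟨a, ha, e⟩ => e ▸ k1 a ha, fun ht => ⟨_, k2 t ht, iv t⟩⟩
  have m1 := mp a2 b2 h2 h1
  have m2 := mp b2 a2 h1 h2
  have fin (τ : Multiset ℂ) (c1 : α⁻¹ ∈ τ) (c3 : ∀ t ∈ τ, t ≠ 0) (c4 : Zc χ (ofR τ))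
      (c5 : ofR τ ∣ L) (c6 : ofR τ ∣ L') (m : τ.map (fun r : ℂ => q / conj r) = τ) : L ∣ L' := by
    have f := Od.a_FER q τ hq c3 m
    have k := hdg χ hχ _ _ c4 (c5.trans hdv) f
    have k0 := Multiset.card_pos_iff_exists_mem.2 ⟨_, c1⟩
    have k1 := natDegree_le_of_dvd c5 fun e => by simp [e] at h0
    rw [f.deg, hd] at k1
    exact eq_of_dvd c5 f.c0 h0 (by rw [f.deg, hd]; omega) ▸ c6
  by_cases hm : ∃ t ∈ ρ, t ∈ ρ'
  · obtain ⟨t, t1, t2⟩ := hm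
    have e : ρ = ρ' := Multiset.eq_of_le_of_card_le ((Multiset.le_iff_subset a2).2 fun s hs => by
      simpa using (str_eval b3 s⁻¹).1 (eval_eq_zero_of_dvd_of_eval_eq_zero (a4.dvd _ b4.zc t⁻¹
        ((str_eval a3 _).2 (by rwa [inv_inv])) ((str_eval b3 _).2 (by rwa [inv_inv])))
        ((str_eval a3 _).2 (by rwa [inv_inv])))) (by rw [← m1, Multiset.card_map])
    exact fin ρ a1 a3 a4.zc a5 a6 (m1.trans e.symm)
  have cp : IsCoprime (ofR ρ) (ofR ρ') :=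
    (isCoprime_iff_aeval_ne_zero_of_isAlgClosed ℂ ℂ _ _).2 fun a => by
      rw [coe_aeval_eq_eval, Ne, Ne, str_eval a3, str_eval b3, ← not_and_or]
      exact fun h => hm ⟨_, h⟩
  exact fin (ρ + ρ') (Multiset.mem_add.2 (.inl a1))
    (fun t ht => (Multiset.mem_add.1 ht).elim (a3 t) (b3 t)) (str_add ρ ρ' ▸ a4.zc.mul b4.zc)
    (str_add ρ ρ' ▸ cp.mul_dvd a5 b5) (str_add ρ ρ' ▸ cp.mul_dvd a6 b6)
    (by rw [Multiset.map_add, m1, m2, add_comm])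

end

section

open Polynomial Finset
open Pool.Agent.P.MP_9344a7_nt.R
open Pool.Agent.P.MP_9344a7_nt.Hy
open Pool.Agent.P.MP_9344a7_nt.Od (GD Kp Fe)
open scoped Classical

section

variable {A : Type} [AddCommGroup A] [Fintype A]

lemma aspl_sq (x : ZA A) : (x * pu (-AddMonoidHom.id A) x).coeff 0 = ∑ a, x.coeff a ^ 2 := by
  simp only [Hy.coeff_mul, coeff_bar, zero_sub, neg_neg, sq]

lemma aspl_refl {P : ZA A} {s : A} {ε : ℤ} (h : ∀ b, P.coeff (s - b) = ε * P.coeff b) (G : ZA A)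
    (ω y : A) : (P * G).coeff (ω + s - y) =
      ε * (P * (.single ω 1 * pu (-AddMonoidHom.id A) G)).coeff y := by
  rw [Hy.coeff_mul, Hy.coeff_mul, mul_sum, ← Equiv.sum_comp (Equiv.subLeft s)]
  refine sum_congr rfl fun a _ => ?_
  rw [Equiv.subLeft_apply, h, Hy.coeff_single_mul, coeff_bar, one_mul, mul_assoc]
  congr 3
  abel

lemma aspl_P {P : ZA A} {s : A} (h : Pk P s) : ∑ a, P.coeff a ^ 2 = om A := by
  rw [← h.card, sz, card_eq_sum_ones, Nat.cast_sum, ← sum_subset (subset_univ P.coeff.support)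
    fun a _ ha => by rw [Finsupp.notMem_support_iff.1 ha]; simp]
  refine sum_congr rfl fun a ha => ?_
  rcases h.val a with e | e | e
  · exact absurd e (Finsupp.mem_support_iff.1 ha)
  · simp [e]
  · simp [e]

lemma aspl_odd (x : ZA A) : (#{y | Odd (x.coeff y)} : ℤ) ≤ ∑ a, x.coeff a ^ 2 := by
  rw [card_filter, Nat.cast_sum]
  refine sum_le_sum fun a _ => ?_
  split_ifs with e
  · have : x.coeff a ≠ 0 := fun h => by rw [h] at e; exact absurd e (by decide)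
    exact sq_pos_of_ne_zero this
  · exact sq_nonneg _

end

theorem p_SPL (hPAR2 : S_PAR2) :
    S_SPL := by
  intro c n K0 hn
  obtain ⟨K1, h1⟩ := lf_ex c n
  refine ⟨n * (K0 + K1) ^ 2 + K0 + 3, ?_⟩
  intro q u A _ _ Λ P s F G hB hS hG hP χ hχ hF ⟨B, hL⟩ hf
  have q0 : 0 < q := hS.leq (by omega) (by omega)
  have := hB.nt
  obtain ⟨f1, f2⟩ := Od.a_FEB.1 q n A Λ q0 χ (Fa_ne hχ)
  rw [hL] at f1 f2
  obtain ⟨-, f3, f4⟩ := Od.a_FEB.2 q (2 * n) n F B q0 f1 hF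
  rw [show 2 * n - n = n by omega] at f3 f4
  have f5 := hF.eq 0 n (zero_add n)
  rw [hF.c0, mul_one] at f5
  have q1 : (q : ℂ) ^ n ≠ 0 := pow_ne_zero _ (by exact_mod_cast q0.ne')
  have f6 : B.coeff n = χ Λ.ω * (starRingEnd ℂ) (F.coeff n) :=
    mul_left_cancel₀ (left_ne_zero_of_mul (f5 ▸ q1)) (by rw [← f4, f2, f5]; ring)
  obtain ⟨G', hf'⟩ := h1 q A Λ hB
    (by simpa using (hS.om1 (x := 1) (by omega) (by omega)).trans (hS.uq (by omega))) hG χ hχ B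
    (hf.zc.of_mul hF.c0 ⟨Λ.LZ, hL⟩) f3.c0 ⟨F, hL.trans (mul_comm _ _)⟩
  obtain ⟨X, x1, x2⟩ := hPAR2 q n (K0 + K1) A Λ P F B G G' q0 hn hP.kp χ hχ hL
    ⟨hf.c0, hf.ev, fun j => (hf.sz j).trans (by gcongr; omega)⟩
    ⟨hf'.c0, hf'.ev, fun j => (hf'.sz j).trans (by gcongr; omega)⟩
  have e1 : P * G' n = P * (.single Λ.ω 1 * pu (-AddMonoidHom.id A) (G n)) := kp_eq hP.kp hχ (by
    rw [map_mul, ← conj_ev, hf.ev, hf'.ev, f6, ev_single]; simp)
  have e2 : P * (G n * pu (-AddMonoidHom.id A) (G n)) = P * ((q ^ n : ℕ) : ZA A) :=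
    kp_eq hP.kp hχ (by rw [map_mul, ← conj_ev, hf.ev, ← f5, map_natCast]; simp)
  refine ⟨fun k => (sz_mul _ _).trans ?_, ⟨X, hS.tiny (e := 1) (by omega) (x1.trans ?_),
    fun y hy => ?_⟩, ?_⟩
  · calc _ ≤ om A * (K0 * om A * q ^ k) := Nat.mul_le_mul hP.kp.sz (hf.sz k)
      _ = K0 * om A ^ 2 * q ^ k := by ring
      _ ≤ _ := Nat.mul_le_mul_right _ (hS.om (by omega) (by omega))
  · rw [pow_one]
    exact Nat.mul_le_mul_right _ (hS.om (by omega) (by omega))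
  · obtain ⟨ε, hε, hs⟩ := hP.sym
    obtain ⟨m, hm⟩ := x2 y hy
    rw [aspl_refl hs, ← e1]
    rcases hε with rfl | rfl
    · exact ⟨m, by linarith⟩
    · exact ⟨m - (P * G' n).coeff y, by linarith⟩
  · have e3 := aspl_odd (P * G n)
    rw [← aspl_sq, map_mul, mul_mul_mul_comm, mul_right_comm, e2, mul_comm P (Nat.cast _),
      mul_assoc, ← nsmul_eq_mul, AddMonoidAlgebra.coeff_smul, Finsupp.smul_apply, aspl_sq, aspl_P hP,
      nsmul_eq_mul, mul_comm _ (om A : ℤ)] at e3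
    exact_mod_cast e3

end

section

open Polynomial Finset
open Pool.Agent.P.MP_9344a7_nt.R
open Pool.Agent.P.MP_9344a7_nt.Hy
open Pool.Agent.P.MP_9344a7_nt.Od (GD Kp Fe)
open scoped Classical

theorem p_RL1 (hZERO : S_ZERO) :
    S_RL1 := by
  intro c n a
  obtain ⟨K, hK⟩ := hZERO c n a
  refine ⟨K + c + 4, fun q u A _ _ Λ P s f t hS hE hT hP hD => ?_⟩
  obtain ⟨X, a1, a2⟩ := hD.sym hE hP
  obtain ⟨X', b1, b2⟩ := hD.par
  have c1 := hK q u A Λ f (Λ.ω + s - t) (hS.down (by omega)) hE hT hD.sz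
  have d1 := hS.tiny (e := 1) (z := q ^ n) (by omega) ((gd_pwt hE.gd hP.kp t).trans (by
    rw [← mul_assoc, mul_comm (om A), pow_one]
    exact Nat.mul_le_mul_right _ (hS.om1 (by omega) (by omega))))
  have i : ∀ {Y : Finset A} {y : ℕ}, u * #Y ≤ y → u * #(Y.image (· - t)) ≤ y := fun h =>
    (Nat.mul_le_mul_left _ card_image_le).trans h
  refine ⟨_, (mul_card_union (mul_card_union (i a1) (i b1)) (mul_card_union c1 d1)).trans
    (by nlinarith [Nat.zero_le (q ^ n)]), fun x hx hp => ?_⟩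
  simp only [mem_union, not_or, mem_filter, mem_univ, true_and, not_and, not_not] at hx
  obtain ⟨⟨x1, x2⟩, x3, x4⟩ := hx
  have e1 := a2 (x + t) fun h => x1 (mem_image.2 ⟨_, h, add_sub_cancel_right _ _⟩)
  have e2 := b2 (x + t) fun h => x2 (mem_image.2 ⟨_, h, add_sub_cancel_right _ _⟩)
  rw [show Λ.ω + s - (x + t) = Λ.ω + s - t - x by abel, x3 hp, add_zero] at e1
  rw [x4 (hE.res_one hp)] at e2
  refine ⟨e1, ?_⟩
  rw [Int.even_iff] at e1 e2 ⊢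
  omega

end

section

open Polynomial Finset
open Pool.Agent.P.MP_9344a7_nt.R
open Pool.Agent.P.MP_9344a7_nt.Hy
open Pool.Agent.P.MP_9344a7_nt.Od (GD Kp Fe)
open scoped Classical

lemma aedg_tiny {q n c m : ℕ} {A : Type} [AddCommGroup A] [Fintype A] {Λ : LD q n A}
    (h : GD Λ c) {L : Finset A} (hL : #L ≤ m) : ∃ Z : Finset A,
    q * #Z ≤ n * (m * (c * c * q ^ n)) ∧ ∀ x ∉ Z, ∀ k, 0 < k → k < n → ∀ b, ∀ t ∈ L,
      (Λ.W (n - k)).coeff b ≠ 0 → Sb Λ n k x (x - (b - t)) → t = 0 := by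
  refine ⟨(Ioo 0 n).biUnion fun k => (L.erase 0).biUnion fun t => {x | ∃ b ∈
    ({b | (Λ.W (n - k)).coeff b ≠ 0 ∧ (Λ.W (n - k)).coeff (b + t) ≠ 0} : Finset A),
      (Λ.W k).coeff (x - id b) ≠ 0}, mul_card_biUnion (by simp) fun k hk => mul_card_biUnion
        (card_erase_le.trans hL) fun t ht => ?_, fun x hx k h0 hk b t ht hb hs => ?_⟩
  · have hk := (mem_Ioo.1 hk).2
    refine (gd_add h hk.le (h.pair (Nat.sub_le n k) (ne_of_mem_erase ht)) id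
      fun x hx => (mem_filter.1 hx).2).trans_eq ?_
    rw [mul_mul_mul_comm, ← pow_add, Nat.sub_add_cancel hk.le]
  · by_contra e
    refine hx (mem_biUnion.2 ⟨k, mem_Ioo.2 ⟨h0, hk⟩, mem_biUnion.2 ⟨t, mem_erase.2 ⟨e, ht⟩,
      mem_filter.2 ⟨mem_univ _, b - t, mem_filter.2 ⟨mem_univ _, ?_, ?_⟩, hs.1⟩⟩⟩)
    · simpa using hs.2
    · rwa [sub_add_cancel]

lemma aedg_phi {q n c : ℕ} {A : Type} [AddCommGroup A] [Fintype A] {Λ : LD q n A}
    {f : ℕ → ZA A} {p r t : A} (hn : 2 ≤ n) (h : ED Λ c) (e : Eg Λ p r)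
    (hs : ∀ k, 0 < k → k < n → ∀ b, (Λ.W (n - k)).coeff b ≠ 0 →
      (f k).coeff (p + r + t - b) ≠ 0 → Sb Λ n k (p + r) (p + r - b)) :
    (Phi Λ f).coeff (p + r + t) = (f 1).coeff (p + t) + (f (n - 1)).coeff (r + t) := by
  rw [phi_coeff, ← sum_product', sum_eq_add_of_mem (1, r) (n - 1, p) (by simp; omega)
    (by simp; omega) (fun h => e.2.2.1 (congrArg Prod.snd h).symm) fun z hz h1 => ?_]
  · simp only [show n - (n - 1) = 1 by omega, e.2.1.1, w1_one e.1, one_mul]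
    congr 2 <;> abel
  · by_contra e'
    obtain ⟨k0, kn⟩ := mem_Ioo.1 (mem_product.1 hz).1
    rcases e.uf h k0 kn (hs _ k0 kn _ (left_ne_zero_of_mul e') (right_ne_zero_of_mul e')) with
      ⟨a1, a2⟩ | ⟨a1, a2⟩
    · exact h1.1 (Prod.ext a1 (add_left_cancel (sub_eq_iff_eq_add.1 a2)).symm)
    · exact h1.2 (Prod.ext a1 (add_right_cancel (sub_eq_iff_eq_add'.1 a2)).symm)

theorem p_EDG (hTDP : S_TDP) (hRL1 : S_RL1) :
    S_EDG := by
  intro c n a hn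
  obtain ⟨K, hK⟩ := hRL1 c n a
  refine ⟨K + n + 1 + (n * n * (c * c) + c + a + 1), fun q u A _ _ Λ P s f t sc ed td pk sd => ?_⟩
  obtain ⟨Z1, a1, a2⟩ := hK q u A Λ P s f t (sc.down (by omega)) ed td pk sd
  obtain ⟨Z2, L, b1, b2, b3⟩ := hTDP q n c u a A Λ Λ f t 1 (sc.le (by omega)) ed td ed.gd sd.sz
    (.inl rfl)
  obtain ⟨Z3, c1, c2⟩ := aedg_tiny ed.gd b2
  have c3 : u * #Z3 ≤ q ^ n := sc.tiny (e := a + 1) (by omega) (c1.trans (by
    calc _ = u ^ a * (n * n * (c * c)) * q ^ n := by ring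
      _ ≤ u ^ a * u * q ^ n := by gcongr; exact sc.le (by omega)
      _ = _ := by rw [pow_succ]))
  refine ⟨Z1 ∪ Z2 ∪ Z3, (mul_card_union (mul_card_union a1 b1) c3).trans ?_, fun p r e hx => ?_⟩
  · calc _ = (K + n + 1) * q ^ n := by ring
      _ ≤ _ := Nat.mul_le_mul_right _ (by omega)
  · simp only [mem_union, not_or] at hx
    rw [← aedg_phi hn ed e fun k k0 kn b hb hf => ?_]
    · exact (a2 _ hx.1.1 e.res).1
    obtain ⟨t', d1, d2⟩ := b3 _ hx.1.2 e.res k k0 kn b hb (by rwa [one_smul, add_comm t])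
    rw [one_smul] at d2
    obtain rfl := c2 _ hx.2 k k0 kn b t' d1 hb d2
    rwa [sub_zero] at d2

end

section

open Polynomial Finset
open Pool.Agent.P.MP_9344a7_nt.R
open Pool.Agent.P.MP_9344a7_nt.Hy
open Pool.Agent.P.MP_9344a7_nt.Od (GD Kp Fe)
open scoped Classical

lemma aft_cnt {A : Type} (W V : Finset A) (R : A → A → Prop) :
    #{e ∈ W ×ˢ V | R e.1 e.2} = ∑ p ∈ W, #{r ∈ V | R p r} := by
  simp only [card_filter, sum_product]

lemma aft_mx {q n c M : ℕ} {A : Type} [AddCommGroup A] [Fintype A] {Λ : LD q n A} (h : CD Λ c M)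
    {U V : Finset A} (hU : U ⊆ Λ.S) (hV : ∀ r ∈ V, Pm Λ (n - 1) r) {B : Finset (A × A)}
    (hB : ∀ p ∈ U, ∀ r ∈ V, Eg Λ p r → (p, r) ∈ B) :
    M * (#U * #V) ≤ M * (n * #B) + M * (n * #(U ∩ V)) + q ^ n := by
  have h1 := h.mx hU (fun r hr => (hV r hr).1) (E := B ∪ (U ∩ V).image fun p => (p, p))
    fun p hp r hr e => by
      by_cases e' : p = r
      · exact mem_union_right _ (mem_image.2 ⟨p, mem_inter.2 ⟨hp, e' ▸ hr⟩, by rw [e']⟩)
      · exact mem_union_left _ (hB p hp r hr ⟨hU hp, hV r hr, e', e⟩)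
  refine h1.trans (Nat.add_le_add_right ?_ _)
  rw [← mul_add, ← mul_add]
  exact Nat.mul_le_mul_left _ (Nat.mul_le_mul_left _
    ((card_union_le _ _).trans (Nat.add_le_add_left card_image_le _)))

lemma aft_a1 {M x N n b d q Q c E : ℕ} (h : M * (x * N) ≤ M * (n * b) + M * (n * d) + q * Q)
    (hb : 2 * n * b ≤ x * N) (hd : d ≤ x) (hN : 4 * n ≤ N) (h0 : 0 < n) (hc : 0 < c)
    (hQ : Q ≤ c * N) (hM : 4 * c * E ≤ M) : E * x ≤ q := by
  have a1 : M * (2 * n * b) ≤ M * (x * N) := Nat.mul_le_mul_left _ hb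
  have a2 : M * (d * (4 * n)) ≤ M * (x * N) := Nat.mul_le_mul_left _ (Nat.mul_le_mul hd hN)
  have a3 : q * Q ≤ q * (c * N) := Nat.mul_le_mul_left _ hQ
  have a4 : 4 * c * E * (x * N) ≤ M * (x * N) := Nat.mul_le_mul_right _ hM
  refine Nat.le_of_mul_le_mul_left (c := 4 * c * N) ?_ (Nat.mul_pos (by omega) (by omega))
  nlinarith

lemma aft_a2 {M x y n b d Y : ℕ} (h : M * (x * y) ≤ M * (n * b) + M * (n * d) + Y)
    (hb : M * n * b ≤ Y) (hd : 2 * n * d ≤ x * y) : M * (x * y) ≤ 4 * Y := by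
  have a1 : M * (2 * n * d) ≤ M * (x * y) := Nat.mul_le_mul_left _ hd
  nlinarith

theorem p_FT (hEDG : S_EDG) :
    S_FT := by
  intro c n a E hn
  obtain ⟨K1, h1⟩ := hEDG c n a hn
  obtain ⟨M, eM⟩ : ∃ M, M = 4 * c * E + 32 * n * c := ⟨_, rfl⟩
  refine ⟨M, K1 + 4 * n * c + 4 * n + M * n * (n * K1) + 4 * n * n * c * K1, ?_⟩
  intro q u A _ _ Λ P s f hS hA hP hD
  obtain ⟨V0, eV⟩ : ∃ V0 : Finset A, V0 = univ.filter (Pm Λ (n - 1)) := ⟨_, rfl⟩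
  have hV : ∀ r ∈ V0, Pm Λ (n - 1) r := fun r hr => (mem_filter.1 (eV ▸ hr)).2
  have hq : 4 * n ≤ q := hS.leq (by omega) (by omega)
  have hq' : 4 * n * c ≤ q := hS.leq (by omega) (by omega)
  obtain ⟨Q, eQ⟩ : ∃ Q, Q = q ^ (n - 1) := ⟨_, rfl⟩
  have hQ : Q ≤ c * #V0 := eV ▸ eQ ▸ hA.ed.rp
  have e1 : q ^ n = q * Q := by rw [eQ, ← pow_succ', Nat.sub_add_cancel (by omega)]
  have hqQ : q ≤ Q := eQ ▸ Nat.le_self_pow (by omega) q
  have hc : 0 < c := Nat.pos_of_ne_zero fun e => by rw [e, zero_mul] at hQ; omega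
  have hN : 4 * n ≤ #V0 := Nat.le_of_mul_le_mul_left (by linarith) hc
  refine ⟨{p ∈ Λ.S | #V0 ≤ 2 * n * #{r ∈ V0 | Eg Λ p r}}, filter_subset _ _, ?_, fun t => ?_⟩
  · obtain ⟨U, eU⟩ : ∃ U, U = Λ.S \ {p ∈ Λ.S | #V0 ≤ 2 * n * #{r ∈ V0 | Eg Λ p r}} := ⟨_, rfl⟩
    rw [← eU]
    have h2 := aft_mx hA.cd (U := U) (eU ▸ sdiff_subset) hV (B := {e ∈ U ×ˢ V0 | Eg Λ e.1 e.2})
      fun p hp r hr e => mem_filter.2 ⟨mem_product.2 ⟨hp, hr⟩, e⟩
    refine aft_a1 (e1 ▸ h2) ?_ (card_le_card inter_subset_left) hN (by omega) hc hQ (by omega)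
    rw [aft_cnt U V0 (Eg Λ), mul_sum]
    refine sum_le_card_nsmul _ _ _ fun p hp => ?_
    obtain ⟨b1, b2⟩ := mem_sdiff.1 (eU ▸ hp)
    exact (not_le.1 fun e => b2 (mem_filter.2 ⟨b1, e⟩)).le
  obtain ⟨Z, hZ, hE⟩ := h1 q u A Λ P s f t (hS.down (by omega)) hA.ed hA.td hP hD
  obtain ⟨B, eB⟩ : ∃ B, B = {e ∈ Λ.S ×ˢ V0 | Eg Λ e.1 e.2 ∧ e.1 + e.2 ∈ Z} := ⟨_, rfl⟩
  have hB : #B ≤ n * #Z := hA.ed.prs (by omega) fun e he => by
    obtain ⟨-, b1, b2⟩ := mem_filter.1 (eB ▸ he)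
    exact ⟨b1.1, b1.2.1.1 ▸ one_ne_zero, b1.one hA.ed, b2⟩
  have hB1 : u * #B ≤ n * K1 * (q * Q) := by
    calc u * #B ≤ u * (n * #Z) := Nat.mul_le_mul_left _ hB
      _ = n * (u * #Z) := by ring
      _ ≤ n * (K1 * q ^ n) := Nat.mul_le_mul_left _ hZ
      _ = _ := by rw [e1]; ring
  have hB2 : M * n * #B ≤ q * Q := small_le (hS.pos (by omega)) hB1 (hS.le (by omega))
  obtain ⟨e, he⟩ : ∃ e : ℤ, #{r ∈ V0 | ¬ Even ((f (n - 1)).coeff (r + t) + e)} ≤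
      #{r ∈ V0 | Even ((f (n - 1)).coeff (r + t) + e)} := by
    rcases le_total #{r ∈ V0 | ¬ Even ((f (n - 1)).coeff (r + t) + 0)}
      #{r ∈ V0 | Even ((f (n - 1)).coeff (r + t) + 0)} with e | e
    · exact ⟨0, e⟩
    · exact ⟨1, by simpa only [Int.even_add_one, not_not, add_zero] using e⟩
  have s1 := card_filter_add_card_filter_not (s := V0)
    fun r => Even ((f (n - 1)).coeff (r + t) + e)
  have s2 := card_filter_add_card_filter_not (s := Λ.S) fun p => Even ((f 1).coeff (p + t) + e)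
  have hb : ∀ p ∈ Λ.S, ∀ r ∈ V0, Eg Λ p r → ¬ (Even ((f 1).coeff (p + t) + e) ↔
      Even ((f (n - 1)).coeff (r + t) + e)) → (p, r) ∈ B := fun p hp r hr b1 b2 =>
    eB ▸ mem_filter.2 ⟨mem_product.2 ⟨hp, hr⟩, b1, by_contra fun b3 => b2 (by
      have := hE p r b1 b3
      simp only [Int.even_iff] at this ⊢
      omega)⟩
  generalize eV1 : ({r ∈ V0 | Even ((f (n - 1)).coeff (r + t) + e)} : Finset A) = V1 at he s1
  generalize eV2 : ({r ∈ V0 | ¬ Even ((f (n - 1)).coeff (r + t) + e)} : Finset A) = V2 at he s1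
  generalize eU1 : ({p ∈ Λ.S | Even ((f 1).coeff (p + t) + e)} : Finset A) = U1 at s2
  generalize eU2 : ({p ∈ Λ.S | ¬ Even ((f 1).coeff (p + t) + e)} : Finset A) = U2 at s2
  have g1 : ∀ p ∈ U2, ∀ r ∈ V1, Eg Λ p r → (p, r) ∈ B := fun p hp r hr b => by
    obtain ⟨p1, p2⟩ := mem_filter.1 (eU2 ▸ hp)
    obtain ⟨r1, r2⟩ := mem_filter.1 (eV1 ▸ hr)
    exact hb p p1 r r1 b fun b => p2 (b.2 r2)
  have g2 : ∀ p ∈ U1, ∀ r ∈ V2, Eg Λ p r → (p, r) ∈ B := fun p hp r hr b => by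
    obtain ⟨p1, p2⟩ := mem_filter.1 (eU1 ▸ hp)
    obtain ⟨r1, r2⟩ := mem_filter.1 (eV2 ▸ hr)
    exact hb p p1 r r1 b fun b => r2 (b.1 p2)
  have m1 := aft_a2 (e1 ▸ aft_mx hA.cd (eU2 ▸ filter_subset _ _)
    (fun r hr => hV r (mem_filter.1 (eV1.ge hr)).1) g1) hB2
    ((mul_comm _ _).trans_le (Nat.mul_le_mul (card_le_card inter_subset_left) (by omega)))
  have hM : 32 * n * c ≤ M := by omega
  have m2 : 4 * #U2 ≤ q := by
    have b1 : q * Q ≤ q * (c * (2 * #V1)) :=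
      Nat.mul_le_mul_left _ (hQ.trans (Nat.mul_le_mul_left _ (by omega)))
    have b2 : 32 * 1 * c * (#U2 * #V1) ≤ M * (#U2 * #V1) :=
      Nat.mul_le_mul_right _ (le_trans (by gcongr; omega) hM)
    refine Nat.le_of_mul_le_mul_left (c := 8 * c * #V1) ?_ (Nat.mul_pos (by omega) (by omega))
    linarith
  have m3 : q ≤ 2 * #U1 := by have := Λ.lo; omega
  have m4 := aft_a2 (e1 ▸ aft_mx hA.cd (eU1 ▸ filter_subset _ _)
    (fun r hr => hV r (mem_filter.1 (eV2.ge hr)).1) g2) hB2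
    (Nat.mul_le_mul (by omega) (card_le_card inter_subset_right))
  have m5 : 4 * n * #V2 ≤ #V0 := by
    have b1 : q * Q ≤ 2 * #U1 * (c * #V0) := Nat.mul_le_mul m3 hQ
    have b2 : 32 * n * c * (#U1 * #V2) ≤ M * (#U1 * #V2) := Nat.mul_le_mul_right _ hM
    refine Nat.le_of_mul_le_mul_left (c := 8 * c * #U1) ?_ (Nat.mul_pos (by omega) (by omega))
    linarith
  refine ⟨e, ?_⟩
  generalize eW : ({p ∈ ({p ∈ Λ.S | #V0 ≤ 2 * n * #{r ∈ V0 | Eg Λ p r}} : Finset A) |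
    Odd ((f 1).coeff (p + t) + e)} : Finset A) = W
  have hW : ∀ p ∈ W, p ∈ U2 ∧ #V0 ≤ 4 * n * #{r ∈ V1 | Eg Λ p r} := fun p hp => by
    obtain ⟨p1, p2⟩ := mem_filter.1 (eW ▸ hp)
    obtain ⟨p3, p4⟩ := mem_filter.1 p1
    refine ⟨eU2 ▸ mem_filter.2 ⟨p3, Int.not_even_iff_odd.2 p2⟩, ?_⟩
    have b1 : #{r ∈ V0 | Eg Λ p r} ≤ #{r ∈ V1 | Eg Λ p r} + #V2 :=
      (card_le_card fun r hr => by
        obtain ⟨r1, r2⟩ := mem_filter.1 hr
        by_cases b : Even ((f (n - 1)).coeff (r + t) + e)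
        · exact mem_union_left _ (mem_filter.2 ⟨eV1 ▸ mem_filter.2 ⟨r1, b⟩, r2⟩)
        · exact mem_union_right _ (eV2 ▸ mem_filter.2 ⟨r1, b⟩)).trans (card_union_le _ _)
    have b2 := Nat.mul_le_mul_left (4 * n) b1
    linarith
  have m6 : #W * #V0 ≤ 4 * n * #B := by
    refine le_trans ?_ (Nat.mul_le_mul_left _ (card_le_card
      (s := {e ∈ W ×ˢ V1 | Eg Λ e.1 e.2}) fun z hz => ?_))
    · rw [aft_cnt W V1 (Eg Λ), mul_sum]
      exact card_nsmul_le_sum _ _ _ fun p hp => (hW p hp).2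
    · obtain ⟨z1, z2⟩ := mem_filter.1 hz
      exact g1 _ (hW _ (mem_product.1 z1).1).1 _ (mem_product.1 z1).2 z2
  refine le_trans (Nat.le_of_mul_le_mul_left (c := #V0) ?_ (by omega))
    (Nat.mul_le_mul_right q (Nat.le_add_left (4 * n * n * c * K1) _))
  calc #V0 * (u * #W) = u * (#W * #V0) := by ring
    _ ≤ u * (4 * n * #B) := Nat.mul_le_mul_left _ m6
    _ = 4 * n * (u * #B) := by ring
    _ ≤ 4 * n * (n * K1 * (q * (c * #V0))) :=
        Nat.mul_le_mul_left _ (hB1.trans (by gcongr))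
    _ = _ := by ring

end

section

open Polynomial Finset
open Pool.Agent.P.MP_9344a7_nt.R
open Pool.Agent.P.MP_9344a7_nt.Hy
open Pool.Agent.P.MP_9344a7_nt.Od (GD Kp Fe)
open scoped Classical

theorem p_SUB2 :
    S_SUB2 := by
  intro c n E
  refine ⟨E ^ (2 * (n + 1)) * (2 ^ (n + 1) ^ 2 * c) ^ 2, fun q A _ _ Λ l z hB h hl hd => ?_⟩
  set T : Finset A := {p ∈ Λ.S | ∃ a, p = z + l • a}
  let Y : Finset A := ({s : A | ∃ a : A, s = l • a} : Finset A).image ((n + 1) • z + ·)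
  have y1 : l * #Y ≤ c * q ^ (n + 1) :=
    ((Nat.mul_le_mul_left l card_image_le).trans (sub_range hl hd)).trans hB.le
  have h1 : ((#T : ℤ)) ^ (n + 1) ≤ 2 ^ (n + 1) ^ 2 * ∑ x ∈ Y, (Λ.W (n + 1)).coeff x := by
    rw [← Nat.cast_pow, ← Fintype.card_piFinset_const, card_eq_sum_card_fiberwise
      (f := fun V => ∑ i, V i) (t := Y) fun V hV => ?_, Nat.cast_sum, mul_sum]
    · refine sum_le_sum fun b _ => ?_
      have := h.tup (ι := Fin (n + 1)) (x := b)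
        (E := {V ∈ Fintype.piFinset fun _ => T | ∑ i, V i = b}) fun V hV =>
        ⟨fun i => (mem_filter.1 (Fintype.mem_piFinset.1 (mem_filter.1 hV).1 i)).1,
          (mem_filter.1 hV).2⟩
      rwa [Fintype.card_fin] at this
    · choose g hg using fun i => (mem_filter.1 (Fintype.mem_piFinset.1 (mem_coe.1 hV) i)).2
      refine mem_coe.2 (mem_image.2 ⟨l • ∑ i, g i, mem_filter.2 ⟨mem_univ _, _, rfl⟩, ?_⟩)
      simp [hg, sum_add_distrib, smul_sum]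
  have h2 : (∑ x ∈ Y, (Λ.W (n + 1)).coeff x) ^ 2 ≤ #Y * (c * q ^ (n + 1) : ℤ) :=
    sq_sum_le_card_mul_sum_sq.trans (mul_le_mul_of_nonneg_left
      ((sum_le_univ_sum_of_nonneg fun _ => sq_nonneg _).trans h.eg) (Nat.cast_nonneg _))
  have h3 : (#T ^ (n + 1)) ^ 2 ≤ (2 ^ (n + 1) ^ 2) ^ 2 * (#Y * (c * q ^ (n + 1))) := by
    have := (pow_le_pow_left₀ (by positivity) h1 2).trans ((mul_pow _ _ _).trans_le
      (mul_le_mul_of_nonneg_left h2 (by positivity)))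
    exact_mod_cast this
  refine (Nat.pow_le_pow_iff_left (n := 2 * (n + 1)) (by omega)).1
    (Nat.le_of_mul_le_mul_left ?_ hl.pos)
  calc l * (E * #T) ^ (2 * (n + 1)) = E ^ (2 * (n + 1)) * (l * (#T ^ (n + 1)) ^ 2) := by ring
    _ ≤ E ^ (2 * (n + 1)) * (l * ((2 ^ (n + 1) ^ 2) ^ 2 * (#Y * (c * q ^ (n + 1))))) := by gcongr
    _ = E ^ (2 * (n + 1)) * ((2 ^ (n + 1) ^ 2) ^ 2 * (l * #Y * (c * q ^ (n + 1)))) := by ring
    _ ≤ E ^ (2 * (n + 1)) * ((2 ^ (n + 1) ^ 2) ^ 2 * (c * q ^ (n + 1) * (c * q ^ (n + 1)))) := by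
      gcongr
    _ = E ^ (2 * (n + 1)) * (2 ^ (n + 1) ^ 2 * c) ^ 2 * q ^ (2 * (n + 1)) := by ring
    _ ≤ _ := Nat.mul_le_mul_right _ (hB.pr l hl hd).le

end

section

open Polynomial Finset
open Pool.Agent.P.MP_9344a7_nt.R
open Pool.Agent.P.MP_9344a7_nt.Hy
open Pool.Agent.P.MP_9344a7_nt.Od (GD Kp Fe)
open scoped Classical

theorem p_RDG (hMSF : S_MSF) :
    S_RDG := by
  intro q n l A _ _ Λ F G H hA hq hn hD l1 l2 χ hχ hF hL hG hH H0 Hd hFH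
  obtain ⟨Γ, c1, c2, c3, c4⟩ := Hy.a_GAM A l hA l1 l2
  obtain ⟨f1, f2, -⟩ := Hy.a_FAC q n A Λ χ hχ
  have zF : Zc χ F := zc_iff.2 fun i => ⟨G i, hG i⟩
  obtain ⟨P, p0, rfl⟩ := f1 F zF hF.c0
  have fe : ∀ ψ ∈ Fa A, Fe q n (P.map (ev ψ)) := fun ψ hψ => by
    refine ⟨by rw [coeff_map, p0, map_one], natDegree_eq_of_le_of_coeff_ne_zero
      (natDegree_le_iff_coeff_eq_zero.2 fun k hk => ?_) fun e => ?_, fun i j hij => ?_⟩
    · have := coeff_eq_zero_of_natDegree_lt (hF.deg.trans_lt hk)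
      rw [coeff_map] at this ⊢
      exact (fa_tr hχ hψ (this.trans (map_zero _).symm)).trans (map_zero _)
    · rw [coeff_map] at e
      have := (fa_tr hψ hχ (e.trans (map_zero _).symm)).trans (map_zero _)
      rw [← coeff_map, ← hF.deg, coeff_natDegree, leadingCoeff_eq_zero] at this
      simpa [this] using hF.c0
    · have := hF.eq i j hij
      simp only [coeff_map, conj_ev] at this ⊢
      simpa using fa_tr hχ hψ (y := (q : ZA A) ^ j * P.coeff i)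
        (z := P.coeff n * pu (-AddMonoidHom.id A) (P.coeff j)) (by simpa using this)
  have dv : ∀ R : (ZA A)[X], P.map (ev χ) ∣ R.map (ev χ) → ∀ ψ ∈ Fa A,
      P.map (ev ψ) ∣ R.map (ev ψ) := fun R ⟨B, hB⟩ ψ hψ => by
    obtain ⟨B, rfl⟩ := zF.of_mul hF.c0 ⟨R, hB⟩
    rw [f2 R (P * B) (hB.trans (Polynomial.map_mul _).symm) ψ hψ, Polynomial.map_mul]
    exact dvd_mul_right _ _
  have co : ∀ ψ ∈ Fa A, ∀ ψ' ∈ Fa A, P.map (ev ψ) ≠ P.map (ev ψ') →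
      IsCoprime (P.map (ev ψ)) (P.map (ev ψ')) := fun ψ hψ ψ' hψ' hne => by
    rw [isCoprime_iff_aeval_ne_zero_of_isAlgClosed ℂ ℂ]
    intro α
    by_contra! e
    simp only [coe_aeval_eq_eval] at e
    obtain ⟨γ, hγ⟩ := ((Hy.a_KER A ψ hψ).1 ψ' hψ').2
    refine hne (eq_of_dvd (hMSF.2 q n A Λ hq hn hD ψ hψ _ _ α ⟨P, rfl⟩ (fe ψ hψ)
      (dv Λ.LZ hL ψ hψ) ⟨P.map (pu (γ : A →+ A)), ?_⟩ (hMSF.1 q n _ hq (fe ψ' hψ')) e.1 e.2)
      (fe ψ hψ).c0 (fe ψ' hψ').c0 ((fe ψ' hψ').deg.trans (fe ψ hψ).deg.symm).le)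
    ext i
    simp only [coeff_map, ev_pu, hγ]
  let ch : (A ≃+ A) → AddChar A ℂ := fun γ => χ.compAddMonoidHom (γ : A →+ A)
  have hch : ∀ γ, ch γ ∈ Fa A := fun γ => mem_Fa.2 ((mem_Fa.1 hχ).comp γ.injective)
  let f : (A ≃+ A) → ℂ[X] := fun γ => P.map (ev (ch γ))
  have dH : ∀ γ ∈ Γ, f γ ∣ H.map (ev χ) := fun γ hγ => by
    convert dv H hFH _ (hch γ) using 1
    ext i
    rw [coeff_map, coeff_map, ev_eq, ev_eq]
    refine sum_congr rfl fun b _ => ?_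
    by_cases e : (H.coeff i).coeff b = 0
    · simp [e]
    · obtain ⟨a, rfl⟩ := hH i b e
      simp [ch, c2 γ hγ, -map_nsmul]
  have two : #(Γ.image f) ≤ 2 := not_lt.1 fun h => by
    obtain ⟨_, _, _, a1, a2, a3, b1, b2, b3⟩ := two_lt_card_iff.1 h
    obtain ⟨x, hx, rfl⟩ := mem_image.1 a1
    obtain ⟨y, hy, rfl⟩ := mem_image.1 a2
    obtain ⟨z, hz, rfl⟩ := mem_image.1 a3
    have ne : ∀ γ, f γ ≠ 0 := fun γ e => by simpa [show P.map _ = 0 from e] using (fe _ (hch γ)).c0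
    have := natDegree_le_of_dvd (((co _ (hch x) _ (hch z) b2).mul_left
      (co _ (hch y) _ (hch z) b3)).mul_dvd ((co _ (hch x) _ (hch y) b1).mul_dvd (dH x hx) (dH y hy))
      (dH z hz)) H0
    rw [natDegree_mul (mul_ne_zero (ne x) (ne y)) (ne z), natDegree_mul (ne x) (ne y),
      (fe _ (hch x)).deg, (fe _ (hch y)).deg, (fe _ (hch z)).deg] at this
    omega
  obtain ⟨g, hg, hm⟩ := exists_max_image Γ (fun g => #{γ ∈ Γ | f γ = f g})
    (card_pos.1 (by have := l1.two_le; omega))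
  have a1 := card_le_mul_card_image Γ _ (forall_mem_image.2 hm)
  have a2 := Nat.mul_le_mul_left #{γ ∈ Γ | f γ = f g} two
  refine ⟨c3, {γ ∈ Γ | f γ = f g}.image fun γ => γ.trans g.symm, ?_,
    mem_image.2 ⟨g, mem_filter.2 ⟨hg, rfl⟩, g.self_trans_symm⟩,
    forall_mem_image.2 fun γ hγ a => ?_, forall_mem_image.2 fun γ hγ => forall_mem_image.2
      fun γ' hγ' y hy e => ?_, forall_mem_image.2 fun γ hγ => fa_tr (hch g) hχ ?_⟩
  · rw [card_image_of_injective _ fun x y e => AddEquiv.ext fun a =>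
      g.symm.injective (DFunLike.congr_fun e a)]
    omega
  · rw [AddEquiv.trans_apply, c2 γ (mem_filter.1 hγ).1, g.symm_apply_eq, c2 g hg]
  · rw [c4 γ (mem_filter.1 hγ).1 γ' (mem_filter.1 hγ').1 y hy (g.symm.injective e)]
  · have e : ∀ δ, ev (ch δ) (G 1) = (f δ).coeff 1 := fun δ => by
      rw [coeff_map]
      exact fa_tr hχ (hch δ) ((hG 1).trans (coeff_map _ _))
    rw [ev_pu, e g, ← (mem_filter.1 hγ).2, ← e γ]
    congr 2
    ext a
    simp [ch]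

end

end Pool.Agent.P.MP_9344a7_nt.Ac
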