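import Pool.Agent.P.MP_9344a7_nt.Ac.BaseG

/-! The main steps of the theorem for all curves. -/

namespace Pool.Agent.P.MP_9344a7_nt.Ac

open Polynomial Finset Module
open Pool.Agent.P.MP_6f117a_ag (Place FF)
open Pool.Agent.P.MP_ab3ecb_nt.Inv (Dv deg SA LS ev ord dv)
open Pool.Agent.P.MP_9344a7_nt.R
open Pool.Agent.P.MP_9344a7_nt.Hy hiding pt
open Pool.Agent.P.MP_9344a7_nt.Od (GD Kp Fe)
open Pool.Agent.P.MP_9344a7_nt.Gt (pt lS Pr Can Bd Ch G12 Cv Kb)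
open scoped Classical IntermediateField ComplexConjugate

/-! ### The additive part -/

-- deps:
def S_ADD1 : Prop := ∀ c n a C0 : ℕ, 2 ≤ n → ∃ M N K : ℕ, ∀ (q u : ℕ) (A A' : Type)
  [AddCommGroup A] [Fintype A] [AddCommGroup A'] [Fintype A'] (Λ : LD q n A) (Λ' : LD q n A'),
  Big A c q n N → Sc A q u K → AD Λ c M u a → GD Λ' c → #Λ.S = #Λ'.S →
  ∏ χ ∈ univ.erase 0, Λ.L χ = ∏ χ ∈ univ.erase 0, Λ'.L χ →
    (∃ θ : A ≃+ A', C0 * #{s ∈ Λ.S | θ s ∉ Λ'.S} ≤ q) ∨ ∃ θ : A' ≃+ A, ∃ χ ∈ Fa A, ∃ G : ℂ[X],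
      Zc χ G ∧ Fe q n G ∧ G ∣ Λ.L χ ∧ G ∣ Λ'.L (χ.compAddMonoidHom (θ : A' →+ A))

-- deps:
def S_ADD2 : Prop := ∀ c n a C0 : ℕ, 2 ≤ n → ∃ M N K : ℕ, ∀ (q u : ℕ) (A : Type)
  [AddCommGroup A] [Fintype A] (Λ Λ' : LD q n A), Big A c q n N → Sc A q u K → AD Λ c M u a →
  AD Λ' c M u a → ∀ χ ∈ Fa A, ∀ G : ℂ[X], Zc χ G → Fe q n G → G ∣ Λ.L χ → G ∣ Λ'.L χ →
    ∃ (θ : A ≃+ A) (t : A), C0 * #{s ∈ Λ.S | θ s + t ∉ Λ'.S} ≤ q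

-- deps:
def S_TPA : Prop := ∀ (q n c M u a : ℕ) (A A' : Type) [AddCommGroup A] [Fintype A]
  [AddCommGroup A'] [Fintype A'] (Λ : LD q n A) (Λ' : LD q n A') (θ : A ≃+ A'), Λ.Tp θ Λ' →
  AD Λ c M u a → AD Λ' c M u a

/-! ### The data of a curve -/

-- deps:
def S_NHG : Prop := ∀ (k E : Type) [Field k] [Field E] [Algebra k E] [IsAlgClosed k] [FF k E]
  (K e : Pic k E) (n : ℕ) (σ : SA k E) (Q : ℕ) (Λ : LD Q n (J σ)), GB K (n + 1) → 0 < n →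
  FB σ Q → IsL σ K e Λ → (Λ.NH ∧ ¬ G12 k E) ∨ ∃ H : Pic k E, ph σ H = H ∧ dg H = 2 ∧ ll H = 2

-- deps:
def S_ED : Prop := ∀ n : ℕ, 2 ≤ n → ∃ c p0 : ℕ, ∀ (F E : Type) [Field F] [Fintype F] [Field E]
  [Algebra (AlgebraicClosure F) E] [FF (AlgebraicClosure F) E] (K e : Pic (AlgebraicClosure F) E)
  (σ : SA (AlgebraicClosure F) E) (Λ : LD (Fintype.card F) n (J σ)) [Fintype (J σ)],
  p0 < ringChar F → GB K (n + 1) → FB σ (Fintype.card F) → IsL σ K e Λ →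
  ¬ G12 (AlgebraicClosure F) E → ED Λ c

-- deps: GEN GEN0
def S_CD : Prop := ∀ n : ℕ, 2 ≤ n → ∃ c : ℕ, ∀ M : ℕ, ∃ p0 : ℕ, ∀ (F E : Type) [Field F]
  [Fintype F] [Field E] [Algebra (AlgebraicClosure F) E] [FF (AlgebraicClosure F) E]
  (K e : Pic (AlgebraicClosure F) E) (σ : SA (AlgebraicClosure F) E)
  (Λ : LD (Fintype.card F) n (J σ)) [Fintype (J σ)], p0 < ringChar F → GB K (n + 1) →
  FB σ (Fintype.card F) → IsL σ K e Λ → ¬ G12 (AlgebraicClosure F) E → CD Λ c M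

-- deps:
def S_TD : Prop := ∀ n : ℕ, 2 ≤ n → ∃ a b u0 p0 : ℕ, ∀ (F E : Type) [Field F]
  [Fintype F] [Field E] [Algebra (AlgebraicClosure F) E] [FF (AlgebraicClosure F) E]
  (K e : Pic (AlgebraicClosure F) E) (σ : SA (AlgebraicClosure F) E)
  (Λ : LD (Fintype.card F) n (J σ)) [Fintype (J σ)] (u : ℕ), p0 < ringChar F → GB K (n + 1) →
  FB σ (Fintype.card F) → IsL σ K e Λ → ¬ G12 (AlgebraicClosure F) E → u0 ≤ u →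
  u ^ b ≤ Fintype.card F → TD Λ u a

/-! ### Generic pencils -/

-- deps:
def S_GEN : Prop := ∀ n M : ℕ, 2 ≤ n → ∃ p0 : ℕ, ∀ (F : Type) [Field F] [Fintype F]
  (C : Cv F (n + 1)) (P0 : C.Pl), p0 < ringChar F → FB C.σ (Fintype.card F) → 0 ≤ C.W →
  ¬ G12 (Kb F) C.E → M * #{R ∈ ef C.σ (n - 1) | ¬ Gr n C.W R P0} ≤ Fintype.card F ^ (n - 1)

-- deps:
def S_GEN0 : Prop := ∀ n M : ℕ, 2 ≤ n → ∃ p0 : ℕ, ∀ (F : Type) [Field F] [Fintype F]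
  (C : Cv F (n + 1)) (e : Fin (n + 1) → C.E), p0 < ringChar F → 0 ≤ C.W → ¬ G12 (Kb F) C.E →
  (∀ i, e i ∈ C.E0 ∧ e i ∈ LS C.W) → LinearIndependent (Kb F) e →
    M * #{x : (Fin (n + 1) → F) × (Fin (n + 1) → F) |
      ¬ Gp n C.W (∑ i, C.c (x.1 i) * e i) (∑ i, C.c (x.2 i) * e i)} ≤
        Fintype.card F ^ (2 * (n + 1))

/-! ### Valuations and Galois groups -/

-- deps:
def S_CHV : Prop := ∀ (Ω : Type) [Field Ω] [IsAlgClosed Ω] (R : Subring Ω) (φ : R →+* Ω),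
  ∃ V : Sv Ω, ∀ c : R, c.1 ∈ V.O ∧ V.r c = φ c

-- deps: CHV
def S_COL : Prop := ∀ (L F Ω : Type) [Field L] [IsAlgClosed L] [Field F] [Algebra L F] [FF L F]
  [Field Ω] [IsAlgClosed Ω] [Algebra L Ω] (t : F) (d : ℕ), Transcendental L t →
  finrank L⟮t⟯ F = d → Ch L d → SBr L t d → ∀ φ ψ : F →ₐ[L] Ω, φ t = ψ t → φ ≠ ψ →
    ∃ V : Sv Ω, (∀ c : L, algebraMap L Ω c ∈ V.O ∧ V.r (algebraMap L Ω c) = algebraMap L Ω c) ∧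
      ∃ P : Place L F, ∀ w, P.v w ≤ 1 → (φ w ∈ V.O ∧ V.r (φ w) = algebraMap L Ω (ev P w)) ∧
        ψ w ∈ V.O ∧ V.r (ψ w) = algebraMap L Ω (ev P w)

-- deps:
def S_SWP : Prop := ∀ (L F Ω : Type) [Field L] [IsAlgClosed L] [Field F] [Algebra L F] [FF L F]
  [Field Ω] [IsAlgClosed Ω] [Algebra L Ω] (t : F) (φ ψ : F →ₐ[L] Ω) (O : ValuationSubring Ω)
  (P : Place L F) (Y : Finset Ω), Transcendental L t → φ t = ψ t → (∀ c, algebraMap L Ω c ∈ O) →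
  (∀ w, φ w ∈ O ↔ P.v w ≤ 1) → (∀ w, ψ w ∈ O ↔ P.v w ≤ 1) →
  (∀ w, IsSeparable L⟮φ t⟯ (φ w)) → (∀ y ∈ Y, IsSeparable L⟮φ t⟯ y) →
    ∃ τ : Ω ≃ₐ[L] Ω, (∀ w, τ (φ w) = ψ w) ∧
      ∀ x ∈ IntermediateField.adjoin L (insert (φ t) (Y : Set Ω)),
        (τ x ∈ O ↔ x ∈ O) ∧ (x ∈ O → O.valuation (τ x - x) < 1)

/-! ### The theorem -/

-- deps: ADD1 ADD2 TPA NHG ED CD TD
def S_ALL : Prop := ∀ g : ℕ, 3 ≤ g → ∃ N p0 : ℕ, ∀ (F E E' : Type) [Field F] [Fintype F] [Field E]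
  [Algebra (AlgebraicClosure F) E] [Field E'] [Algebra (AlgebraicClosure F) E'] (C : Curve F E)
  (D : Curve F E'), p0 < ringChar F → Genus (AlgebraicClosure F) E g →
  Genus (AlgebraicClosure F) E' g → C.CyclicJ → (∀ l, l.Prime → l ∣ C.h → N < l) →
  (∀ m, 0 < m → C.pts m = D.pts m) → C.SameH D → C.Conj D

end Pool.Agent.P.MP_9344a7_nt.Ac
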