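import Pool.Agent.P.MP_9344a7_nt.Ac.IfaceA
import Pool.Agent.P.MP_9344a7_nt.Ac.Iface

/-! Steps RDI, RDL, RDS, RED2, ADD1. -/

set_option linter.unusedVariables false
set_option linter.unusedSectionVars false

namespace Pool.Agent.P.MP_9344a7_nt.Ac

section

open Polynomial Finset
open Pool.Agent.P.MP_9344a7_nt.R
open Pool.Agent.P.MP_9344a7_nt.Hy
open Pool.Agent.P.MP_9344a7_nt.Od (GD Kp Fe)
open scoped Classical

lemma ardi_mul {A : Type} [AddCommGroup A] [Fintype A] {l : ℕ} {g : A} (hg : addOrderOf g = l)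
    (hc : #{a : A | l • a = 0} = l) {a : A} (ha : l • a = 0) : ∃ k : ℕ, k • g = a := by
  have h : (range l).image (fun k : ℕ => k • g) = ({a : A | l • a = 0} : Finset A) := by
    refine eq_of_subset_of_card_le (fun b hb => ?_) ?_
    · obtain ⟨k, -, rfl⟩ := mem_image.1 hb
      rw [mem_filter_univ, smul_comm, ← hg, addOrderOf_nsmul_eq_zero, smul_zero]
    · rw [hc, card_image_of_injOn, card_range]
      rw [coe_range, ← hg]
      exact nsmul_injOn_Iio_addOrderOf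
  obtain ⟨k, -, e⟩ := mem_image.1 (h.ge ((mem_filter_univ a).2 ha))
  exact ⟨k, e⟩

theorem p_RDI :
    S_RDI := by
  intro A _ _ l g P' x δ hg hc hδ hP he
  have h1 : pu (δ : A →+ A) P' = P' := by
    conv_lhs => rw [← sum_single P', map_sum]
    conv_rhs => rw [← sum_single P']
    refine sum_congr rfl fun a _ => ?_
    rw [pu_single]
    by_cases h : P'.coeff a = 0
    · simp [h]
    · obtain ⟨b, rfl⟩ := hP a h
      exact congrArg (fun t => AddMonoidAlgebra.single t _) (hδ b)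
  set f := P' * x with hf
  have h2 : (1 - .single g 1) * (pu (δ : A →+ A) f - f) = 0 := by
    rw [hf, map_mul, h1, mul_sub, ← mul_assoc, ← mul_assoc, he, sub_self]
  set D := pu (δ : A →+ A) f - f with hD
  have h3 : ∀ y, D.coeff (y + g) = D.coeff y := fun y => by
    have : D = AddMonoidAlgebra.single g 1 * D := by
      rwa [sub_mul, one_mul, sub_eq_zero] at h2
    rw [this, coeff_single_mul, one_mul, add_sub_cancel_right, ← this]
  have h4 : ∀ (k : ℕ) y, D.coeff (y + k • g) = D.coeff y := fun k y => by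
    induction k with
    | zero => rw [zero_smul, add_zero]
    | succ k ih => rw [succ_nsmul, ← add_assoc, h3, ih]
  have h5 : ∀ y, D.coeff y = (pu (δ : A →+ A) f).coeff y - f.coeff y := fun y => by
    simp [hD]
  have h6 : ∀ y, D.coeff y = 0 := fun y => by
    have a : ∑ z with l • z = l • y, D.coeff z = #{z : A | l • z = l • y} • D.coeff y := by
      refine sum_eq_card_nsmul fun z hz => ?_
      obtain ⟨k, hk⟩ := ardi_mul hg hc (a := z - y)
        (by rw [smul_sub, (mem_filter_univ z).1 hz, sub_self])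
      rw [← h4 k y, hk, add_sub_cancel]
    have b : ∑ z with l • z = l • y, f.coeff z =
        ∑ z with l • z = l • y, (pu (δ : A →+ A) f).coeff z :=
      sum_equiv δ.toEquiv (fun z => by
        rw [mem_filter_univ, mem_filter_univ]
        change _ ↔ l • δ z = _
        rw [← map_nsmul, hδ]) fun z _ => (coeff_pu δ f z).symm
    simp only [h5] at a
    rw [sum_sub_distrib, ← b, sub_self, ← h5, eq_comm, smul_eq_zero] at a
    exact a.resolve_left (card_ne_zero_of_mem ((mem_filter_univ y).2 rfl))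
  intro y
  have := h6 (δ y)
  rw [h5, coeff_pu, sub_eq_zero] at this
  exact this.symm

end

section

open Polynomial Finset
open Pool.Agent.P.MP_9344a7_nt.R
open Pool.Agent.P.MP_9344a7_nt.Hy
open Pool.Agent.P.MP_9344a7_nt.Od (GD Kp Fe)
open scoped Classical

lemma ardl_fib {A : Type} [AddCommGroup A] [Fintype A] {l : ℕ} {S : Finset A} (hS : Sid S)
    (hl : #{a : A | l • a = 0} = l) (z : A) :
    #{p ∈ S | l • (z - p) = 0} ≤ Nat.sqrt (3 * l) := by
  set U := S.filter fun p => l • (z - p) = 0 with hU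
  have h1 : #U ≤ l := by
    refine le_of_le_of_eq (card_le_card_of_injOn (fun p => z - p) (fun p hp => ?_) ?_) hl
    · simpa using (mem_filter.1 hp).2
    · intro p _ p' _ h
      simpa using h
  have h2 : #U.offDiag ≤ 2 * l := by
    have hc := Red.count hS ({a : A | l • a = 0} : Finset A)
    rw [hl] at hc
    refine (card_le_card_of_injOn (fun x => ⟨x.2 - x.1, x.1⟩) (fun x hx => ?_) ?_).trans hc
    · obtain ⟨a1, a2, a3⟩ := mem_offDiag.1 hx
      obtain ⟨b1, b2⟩ := mem_filter.1 a1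
      obtain ⟨c1, c2⟩ := mem_filter.1 a2
      simp only [coe_sigma, Set.mem_sigma_iff, mem_coe, mem_erase, mem_filter, mem_univ, true_and]
      refine ⟨⟨sub_ne_zero.2 a3.symm, ?_⟩, b1, by simpa using c1⟩
      have : x.2 - x.1 = (z - x.1) - (z - x.2) := by abel
      rw [this, smul_sub, b2, c2, sub_zero]
    · intro x _ x' _ h
      have e1 : x.1 = x'.1 := congrArg (fun w : (Σ _ : A, A) => w.2) h
      have e2 : x.2 - x.1 = x'.2 - x'.1 := congrArg (fun w : (Σ _ : A, A) => w.1) h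
      rw [e1] at e2
      exact Prod.ext e1 (by simpa using e2)
  rw [offDiag_card] at h2
  rw [Nat.le_sqrt]
  omega

theorem p_RDL :
    S_RDL := by
  intro A _ _ l S T Δ F hS h2 hl hΔ hfix hfree hF hT hy
  choose! y y1 y2 y3 using hy
  have key : #(T ×ˢ Δ) ≤ Nat.sqrt (3 * l) * #F.coeff.support := by
    refine card_le_mul_card_image_of_maps_to (f := fun x : A × (A ≃+ A) => x.2 (y x.1))
      (fun x hx => ?_) _ fun z _ => ?_
    · obtain ⟨a1, a2⟩ := mem_product.1 hx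
      rw [Finsupp.mem_support_iff, hF _ a2]
      exact y3 _ a1
    · refine (card_le_card_of_injOn (fun x => x.1) (fun x hx => ?_) ?_).trans (ardl_fib hS hl z)
      · obtain ⟨a, a3⟩ := mem_filter.1 hx
        obtain ⟨a1, a2⟩ := mem_product.1 a
        refine mem_filter.2 ⟨hT a1, ?_⟩
        have := y1 _ a1
        rw [← a3, smul_sub, ← map_nsmul, hfix _ a2, ← smul_sub, this]
      · intro x hx x' hx' h
        obtain ⟨a, a3⟩ := mem_filter.1 hx
        obtain ⟨a1, a2⟩ := mem_product.1 a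
        obtain ⟨b, b3⟩ := mem_filter.1 hx'
        obtain ⟨b1, b2⟩ := mem_product.1 b
        have e1 : x.1 = x'.1 := h
        refine Prod.ext e1 (hfree _ a2 _ b2 (y x.1) (y2 _ a1) ?_)
        rw [a3, e1, b3]
  rw [card_product] at key
  have hm := Nat.sqrt_le (3 * l)
  have h3 : l ≤ 3 * #Δ := by omega
  refine Nat.le_of_mul_le_mul_left ?_ (show 0 < l by omega)
  unfold sz
  generalize Nat.sqrt (3 * l) = m at key hm
  generalize #F.coeff.support = s at key
  calc l * (l * #T ^ 2) = (l * #T) ^ 2 := by ring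
    _ ≤ (3 * #Δ * #T) ^ 2 := by gcongr
    _ = 9 * (#T * #Δ) ^ 2 := by ring
    _ ≤ 9 * (m * s) ^ 2 := by gcongr
    _ = 9 * (m * m) * s ^ 2 := by ring
    _ ≤ 9 * (3 * l) * s ^ 2 := by gcongr
    _ = l * (27 * s ^ 2) := by ring

end

section

open Polynomial Finset
open Pool.Agent.P.MP_9344a7_nt.R
open Pool.Agent.P.MP_9344a7_nt.Hy
open Pool.Agent.P.MP_9344a7_nt.Od (GD Kp Fe)
open scoped Classical

lemma ards_gen {A : Type} [AddCommGroup A] [Fintype A] {l : ℕ} {x : A}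
    (hc : #{a : A | l • a = 0} = l) (hx : addOrderOf x = l) {t : A} (ht : l • t = 0) :
    ∃ k : ℕ, t = k • x := by
  have h1 : (range l).image (fun k : ℕ => k • x) = univ.filter fun a : A => l • a = 0 := by
    refine eq_of_subset_of_card_le (fun y hy => ?_) ?_
    · obtain ⟨k, -, rfl⟩ := mem_image.1 hy
      simp only [mem_filter, mem_univ, true_and]
      rw [smul_comm, ← hx, addOrderOf_nsmul_eq_zero, smul_zero]
    · rw [hc, card_image_of_injOn, card_range]
      rw [coe_range, ← hx]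
      exact nsmul_injOn_Iio_addOrderOf
  have : t ∈ (range l).image (fun k : ℕ => k • x) := by
    rw [h1]; simpa using ht
  obtain ⟨k, -, rfl⟩ := mem_image.1 this
  exact ⟨k, rfl⟩

lemma ards_per {A : Type} [AddCommGroup A] {l : ℕ} {x : A} (D : A → ℤ) (hx : l • x = 0)
    (h : ∀ t, l • t = 0 → Even (D (t + x) - D t)) (k : ℕ) : Even (D (k • x) - D 0) := by
  induction k with
  | zero => simp
  | succ k ih =>
    have := (h (k • x) (by rw [smul_comm, hx, smul_zero])).add ih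
    rwa [sub_add_sub_cancel, ← succ_nsmul] at this

theorem p_RDS :
    S_RDS := by
  intro A _ _ l g p p' δ F e hl hg hc hδ hF he h1 h2
  have hg0 : l • g = 0 := by rw [← hg, addOrderOf_nsmul_eq_zero]
  have hD : ∀ t, l • t = 0 → Even (F (p + t) - F (p' + t) - (F p - F p')) := by
    intro t ht
    obtain ⟨k, rfl⟩ := ards_gen hc hg ht
    have := ards_per (fun t => F (p + t) - F (p' + t)) hg0 (fun t ht => by
      have ht' : l • (t + g) = 0 := by rw [smul_add, ht, hg0, add_zero]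
      have a := h1 _ ht'
      have b := h2 _ ht'
      rw [← add_assoc, add_sub_cancel_right, add_assoc] at a b
      simp only [Int.even_iff] at a b ⊢
      omega) k
    simpa using this
  have he1 : ∀ y, l • (δ y - y) = 0 := fun y => by rw [smul_sub, ← map_nsmul, hδ, sub_self]
  by_contra hne
  have hd0 : δ p - p - (δ p' - p') ≠ 0 := fun h => hne (by
    rw [map_sub, ← sub_eq_zero, ← h]; abel)
  have hdl : l • (δ p - p - (δ p' - p')) = 0 := by rw [smul_sub, he1, he1, sub_self]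
  have := Fact.mk hl
  obtain ⟨k, hk⟩ := ards_gen hc (addOrderOf_eq_prime hdl hd0) (t := -g)
    (by rw [smul_neg, hg0, neg_zero])
  have := ards_per (fun t => F (p + t)) hdl (fun y hy => by
    obtain ⟨t, ht⟩ := δ.surjective (y - (δ p' - p'))
    have hlt : l • t = 0 := δ.injective (by
      rw [map_nsmul, ht, smul_sub, hy, he1, map_zero, sub_self])
    have a := hD t hlt
    have b := hD y hy
    have c1 : F (p + (y + (δ p - p - (δ p' - p')))) = F (p + t) := by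
      rw [← hF (p + t), map_add, ht]; congr 1; abel
    have c2 : F (p' + y) = F (p' + t) := by
      rw [← hF (p' + t), map_add, ht]; congr 1; abel
    simp only [c1]
    rw [c2] at b
    simp only [Int.even_iff] at a b ⊢
    omega) k
  have a := h1 0 (smul_zero _)
  simp only [← hk, add_zero, ← sub_eq_add_neg] at this a
  rw [Int.odd_iff] at he
  simp only [Int.even_iff] at a this
  omega

end

section

open Polynomial Finset
open Pool.Agent.P.MP_9344a7_nt.R
open Pool.Agent.P.MP_9344a7_nt.Hy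
open Pool.Agent.P.MP_9344a7_nt.Od (GD Kp Fe)
open scoped Classical

theorem p_RED2 (hDEG : S_DEG) (hSPL : S_SPL) (hFT : S_FT) (hSUB2 : S_SUB2) (hRDG : S_RDG) (hRDI : S_RDI) (hRDL : S_RDL) (hRDS : S_RDS) :
    S_RED2 := by
  intro c n a K0 hn
  obtain ⟨N1, K1, hD⟩ := hDEG c n a hn
  obtain ⟨K2, hS⟩ := hSPL c n K0 (by omega)
  obtain ⟨M, K3, hF⟩ := hFT c n a 16 hn
  obtain ⟨N2, hU⟩ := hSUB2 c n 16
  refine ⟨M, N1 + N2 + 4, K1 + K2 + K3 + 16 * (1728 * K0 ^ 2 * K3) + 4, ?_⟩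
  intro q u l A _ _ Λ P s F G H hB hSc hAD hP hl hlA χ hχ hFe hdv hLf hodd h1 h2 h3 hFH
  have hq : 4 ≤ q := hSc.leq (by omega) (by omega)
  have hl5 : 4 < l := lt_of_le_of_lt (by omega) (hB.pr l hl hlA)
  have hDg := hD q u M A Λ (big_down hB (by omega)) (hSc.down (by omega)) hAD
  have hSD := hS q u A Λ P s F G (big_down hB (by omega)) (hSc.down (by omega)) hAD.ed.gd hP χ hχ
    hFe hdv hLf
  have hsub := fun z => hU q A Λ l z (big_down hB (by omega)) hAD.ed hl hlA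
  obtain ⟨hc, Δ, hΔ, hr, hfix, hfree, hev⟩ := hRDG q n l A Λ F G H hB.cyc (by omega) (by omega) hDg
    hl hlA χ hχ hFe hdv hLf.ev h1 h2 h3 hFH
  obtain ⟨g, P', hg, hPP, hsz, hsp⟩ := hP.fac l hl hlA
  have inv : ∀ δ ∈ Δ, ∀ y, (P' * G 1).coeff (δ y) = (P' * G 1).coeff y := fun δ hδ =>
    hRDI A l g P' (G 1) δ hg hc (hfix δ hδ) hsp (hPP ▸ kp_eq hP.kp hχ (hev δ hδ))
  have f1 : ∀ y, (P * G 1).coeff y = (P' * G 1).coeff y - (P' * G 1).coeff (y - g) := fun y => by
    rw [hPP, mul_assoc, sub_mul, one_mul, AddMonoidAlgebra.coeff_sub, Finsupp.sub_apply,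
      coeff_single_mul, one_mul]
  have hlg : l • g = 0 := hg ▸ addOrderOf_nsmul_eq_zero g
  rcases lt_or_ge (1728 * K0 ^ 2 * om A ^ 4) l with hb | hb
  · set T := {p ∈ Λ.S | Odd ((P * G 1).coeff p) ∧ (¬ ∃ a, p = 0 + l • a) ∧ ¬ ∃ a, p = g + l • a}
    have c1 : #{p ∈ Λ.S | Odd ((P * G 1).coeff p)} ≤ #T + (#{p ∈ Λ.S | ∃ a, p = 0 + l • a} +
        #{p ∈ Λ.S | ∃ a, p = g + l • a}) := by
      refine le_trans (card_le_card fun p hp => ?_) ((card_union_le _ _).trans
        (Nat.add_le_add_left (card_union_le _ _) _))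
      simp only [T, mem_union, mem_filter] at hp ⊢
      tauto
    have c2 : q ≤ 8 * #T := by
      have := hsub 0
      have := hsub g
      omega
    have c3 := hRDL A l Λ.S T Δ (P' * G 1) Λ.sid (by omega) hc hΔ hfix hfree inv
      (filter_subset _ _) fun p hp => by
        obtain ⟨-, o, n1, n2⟩ := mem_filter.1 hp
        by_cases e : (P' * G 1).coeff p = 0
        · refine ⟨p - g, by rw [sub_sub_cancel_left, smul_neg, hlg, neg_zero],
            fun ⟨a, h⟩ => n2 ⟨a, by rw [← h, add_sub_cancel]⟩, fun e' => ?_⟩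
          rw [f1, e, e'] at o
          simp at o
        · exact ⟨p, by simp, fun ⟨a, h⟩ => n1 ⟨a, by rw [← h, zero_add]⟩, e⟩
    have c4 : sz (P' * G 1) ≤ om A * (K0 * om A * q ^ 1) :=
      (sz_mul _ _).trans (Nat.mul_le_mul hsz (hLf.sz 1))
    have c5 : l * q ^ 2 ≤ 1728 * K0 ^ 2 * om A ^ 4 * q ^ 2 :=
      calc l * q ^ 2 ≤ l * (8 * #T) ^ 2 := by gcongr
        _ = 64 * (l * #T ^ 2) := by ring
        _ ≤ 64 * (27 * (om A * (K0 * om A * q ^ 1)) ^ 2) :=
          Nat.mul_le_mul_left _ (c3.trans (by gcongr))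
        _ = _ := by ring
    exact absurd (Nat.le_of_mul_le_mul_right c5 (by positivity)) (not_le.2 hb)
  · obtain ⟨S0, s0, s1, he⟩ := hF q u A Λ P s _ (hSc.down (by omega)) hAD hP hSD
    choose e he using he
    set Z : A → Finset A := fun t => {p ∈ S0 | Odd ((P * G 1).coeff (p + t) + e t)}
    set B := ({a : A | l • a = 0} : Finset A).biUnion Z
    have c1 : 16 * #B ≤ q := by
      refine small_le (x := 1728 * K0 ^ 2 * om A ^ 4 * K3) (hSc.pos (by omega))
        ((mul_card_biUnion (hc.trans_le hb) fun t _ => he t).trans_eq (by ring)) ?_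
      exact le_trans (le_of_eq (by ring))
        (hSc.om (x := 16 * (1728 * K0 ^ 2 * K3)) (e := 4) (by omega) (by omega))
    have mB : ∀ p ∈ S0, ∀ t, l • t = 0 → Odd ((P * G 1).coeff (p + t) + e t) → p ∈ B :=
      fun p hp t ht o => mem_biUnion.2 ⟨t, by simpa using ht, mem_filter.2 ⟨hp, o⟩⟩
    have o0 : Odd (e 0) := by
      by_contra h
      have : #{p ∈ Λ.S | Odd ((P * G 1).coeff p)} ≤ #(Λ.S \ S0) + #B := by
        refine le_trans (card_le_card fun p hp => ?_) (card_union_le _ _)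
        obtain ⟨p1, p2⟩ := mem_filter.1 hp
        by_cases p0 : p ∈ S0
        · exact mem_union_right _ (mB p p0 0 (smul_zero _) (by
            rw [add_zero]; exact p2.add_even (Int.not_odd_iff_even.1 h)))
        · exact mem_union_left _ (mem_sdiff.2 ⟨p1, p0⟩)
      omega
    have c2 : #Λ.S ≤ #(Λ.S \ S0) + (#B + #(S0 \ B)) := by
      have := le_card_sdiff S0 Λ.S
      have := le_card_sdiff B S0
      omega
    have c3 := Λ.lo
    obtain ⟨p', hp'⟩ : (S0 \ B).Nonempty := card_pos.1 (by omega)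
    obtain ⟨δ, hδ, d0⟩ := exists_mem_ne (s := Δ) (by omega) (AddEquiv.refl A)
    have ev : ∀ p ∈ S0 \ B, ∀ t, l • t = 0 →
        Even ((P' * G 1).coeff (p + t) - (P' * G 1).coeff (p + t - g) + e t) := fun p hp t ht =>
      Int.not_odd_iff_even.1 fun o =>
        (mem_sdiff.1 hp).2 (mB p (mem_sdiff.1 hp).1 t ht (by rwa [f1]))
    have c4 : #(S0 \ B) ≤ #{p ∈ Λ.S | ∃ a, p = p' + l • a} := by
      refine card_le_card fun p hp => mem_filter.2 ⟨s0 (mem_sdiff.1 hp).1, ?_⟩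
      by_contra h
      exact d0 (hfree δ hδ _ hr (p - p') (fun ⟨a, h'⟩ => h ⟨a, by rw [← h', add_sub_cancel]⟩)
        (hRDS A l g p p' δ (fun y => (P' * G 1).coeff y) e hl hg hc (hfix δ hδ) (inv δ hδ) o0
          (ev p hp) (ev p' hp')))
    have := hsub p'
    omega

end

section

open Polynomial Finset Module
open Pool.Agent.P.MP_6f117a_ag (Place FF)
open Pool.Agent.P.MP_ab3ecb_nt.Inv (Dv deg SA LS ev ord dv)
open Pool.Agent.P.MP_9344a7_nt.R
open Pool.Agent.P.MP_9344a7_nt.Hy hiding pt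
open Pool.Agent.P.MP_9344a7_nt.Od (GD Kp Fe)
open Pool.Agent.P.MP_9344a7_nt.Gt (pt lS Pr Can Bd Ch G12 Cv Kb)
open scoped Classical IntermediateField ComplexConjugate

section

variable {q n : ℕ} {A A' : Type} [AddCommGroup A] [Fintype A] [AddCommGroup A'] [Fintype A']

lemma aadd1_root {Λ : LD q n A} {Λ' : LD q n A'} (hc : Nat.card A' = Nat.card A)
    (eP : ∏ χ ∈ univ.erase 0, Λ.L χ = ∏ χ ∈ univ.erase 0, Λ'.L χ) {χ : AddChar A ℂ}
    (hχ : χ ∈ Fa A) (x0 : χ ≠ 0) {α : ℂ} (hα : (Λ.L χ).eval α = 0) :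
    ∃ j : A' →+ A, χ.compAddMonoidHom j ≠ 0 ∧ (Λ'.L (χ.compAddMonoidHom j)).eval α = 0 := by
  have h0 : (∏ χ ∈ univ.erase 0, Λ'.L χ).eval α = 0 := by
    rw [← eP, eval_prod]
    exact prod_eq_zero (mem_erase.2 ⟨x0, mem_univ _⟩) hα
  rw [eval_prod, prod_eq_zero_iff] at h0
  obtain ⟨χ', x1, hα'⟩ := h0
  obtain ⟨j, rfl⟩ := (Hy.a_KER A χ hχ).2 A' χ' fun a => by
    rw [← AddChar.map_nsmul_eq_pow, ← hc, card_nsmul_eq_zero', AddChar.map_zero_eq_one]
  exact ⟨j, ne_of_mem_erase x1, hα'⟩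

lemma aadd1_map (Λ' : LD q n A') (χ : AddChar A ℂ) (j : A' →+ A) :
    (Λ'.LZ.map (pu j)).map (Hy.ev χ) = Λ'.L (χ.compAddMonoidHom j) := by
  rw [Polynomial.map_map]
  exact congrArg Λ'.LZ.map (RingHom.ext (ev_pu χ j))

lemma aadd1_odd (Λ : LD q n A) {P x y : ZA A} (hP : Kp P) (e : P * (x + y) = P * Λ.W 1)
    (hq : 8 * om A ≤ q) : q ≤ 4 * #{p ∈ Λ.S | Odd ((P * x).coeff p)} ∨
      q ≤ 4 * #{p ∈ Λ.S | Odd ((P * y).coeff p)} := by
  have h1 : #((P.coeff.support.erase 0).biUnion fun b => {p ∈ Λ.S | p - b ∈ Λ.S}) ≤ om A * 2 := by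
    refine (card_biUnion_le_card_mul _ _ 2 fun b hb => ?_).trans
      (Nat.mul_le_mul_right _ (card_erase_le.trans hP.sz))
    exact CoreC.sid_two Λ.sid (ne_of_mem_erase hb).symm fun z hz => by simpa using hz
  have h2 : Λ.S ⊆ ((P.coeff.support.erase 0).biUnion fun b => {p ∈ Λ.S | p - b ∈ Λ.S}) ∪
      ({p ∈ Λ.S | Odd ((P * x).coeff p)} ∪ {p ∈ Λ.S | Odd ((P * y).coeff p)}) := by
    intro p hp
    by_contra h
    simp only [mem_union, mem_biUnion, mem_filter, hp, true_and, not_or, not_exists, not_and,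
      mem_erase, Finsupp.mem_support_iff, Int.not_odd_iff_even] at h
    have h3 : (P * x).coeff p + (P * y).coeff p = 1 := by
      rw [← Finsupp.add_apply, ← AddMonoidAlgebra.coeff_add, ← mul_add, e, Hy.coeff_mul, Λ.w1,
        sum_eq_single 0 (fun b _ hb => ?_) (by simp), hP.c0, coeff_ind, sub_zero, if_pos hp,
        one_mul]
      by_cases h4 : P.coeff b = 0
      · rw [h4, zero_mul]
      · rw [coeff_ind, if_neg (h.1 b ⟨hb, h4⟩), mul_zero]
    exact Int.not_even_one (h3 ▸ h.2.1.add h.2.2)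
  have h3 := (card_le_card h2).trans ((card_union_le _ _).trans (add_le_add h1 (card_union_le _ _)))
  have := Λ.lo
  omega

end

theorem p_ADD1 (hPK3 : S_PK3) (hDEG : S_DEG) (hMSF : S_MSF) (hRED2 : S_RED2) :
    S_ADD1 := by
  intro c n a C0 hn
  obtain ⟨q1, H1⟩ := Nh.a_MT2 c n C0
  obtain ⟨q3, H3⟩ := Od.a_RED c n hn
  obtain ⟨K0, H0⟩ := lf_ex c n
  obtain ⟨N4, H4⟩ := hPK3 0
  obtain ⟨N5, K5, H5⟩ := hDEG c n a hn
  obtain ⟨M, N6, K6, H6⟩ := hRED2 c n a K0 hn
  refine ⟨M, N4 + N5 + N6, q1 + q3 + K5 + K6 + 8,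
    fun q u A A' _ _ _ _ Λ Λ' B sc D G' hS eP => ?_⟩
  have hq : q1 + q3 + 8 ≤ q := sc.leq (by omega) (by omega)
  have ho : 8 * om A ≤ q := (sc.om1 (by omega) (by omega)).trans (sc.uq (by omega))
  have q0 : 0 < q := by omega
  have G := D.ed.gd
  have B0 := big_down B (Nat.zero_le _)
  have hc : Nat.card A' = Nat.card A := by
    have a := Od.oadd_deg Hy.a_LB Λ q0
    rw [eP, Od.oadd_deg Hy.a_LB Λ' q0] at a
    have a1 := Nat.eq_of_mul_eq_mul_right (by omega) a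
    have := Nat.card_pos (α := A)
    have := Nat.card_pos (α := A')
    omega
  obtain ⟨χ, hχ⟩ := (Hy.a_AV A B.cyc).1
  have := B.nt
  have x0 := Fa_ne hχ
  have l0 := Hy.a_LB q n A Λ q0 χ x0
  by_cases hA : ∀ (F : ℂ[X]) (μ : ℕ), Zc χ F → F ∣ Λ.L χ → Fe q μ F → μ = 0 ∨ μ = 2 * n
  · obtain ⟨α, hα⟩ := IsAlgClosed.exists_root (Λ.L χ)
      (natDegree_pos_iff_degree_pos.1 (by rw [l0.2.1]; omega)).ne'
    obtain ⟨j, x1, hα'⟩ := aadd1_root hc eP hχ x0 hα
    have l1 := Hy.a_LB q n A' Λ' q0 _ x1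
    have eq := Od.a_EQL A χ hχ q (2 * n) (Λ.L χ) _ q0 ⟨Λ.LZ, rfl⟩ ⟨_, aadd1_map Λ' χ j⟩ l0.1 l1.1
      l0.2.1 l1.2.1 l0.2.2.1 l1.2.2.1 hA α hα hα'
    have ec : ∀ i ≤ 2 * n, Hy.ev χ (Λ.W i) = Hy.ev χ (pu j (Λ'.W i)) := fun i hi => by
      rw [ev_pu, ← Λ.coeff_L χ hi, eq, Λ'.coeff_L _ hi]
    let Θ : A' ≃+ A := .ofBijective j (H3 q A A' Λ Λ' j (by omega) B0 G G' hc
      fun ψ hψ i hi => fa_tr hχ hψ (ec i (by omega)))
    obtain ⟨Λ1, t1, -, t3, -⟩ := Hy.a_TP q n A' A Λ' Θ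
    have e1 : Hy.ev χ (ind Λ.S) = Hy.ev χ (ind Λ1.S) := by
      rw [← Λ.w1, ← Λ1.w1, t1.W]
      exact ec 1 (by omega)
    refine Or.inl ⟨Θ.symm, (H1 q A Λ.S Λ1.S (by omega) B0 Λ.sid Λ1.sid (hS.trans t3.symm)
      (card_S Λ (by omega)) χ hχ e1).trans_eq' ?_⟩
    congr 2
    ext s
    rw [mem_sdiff, mem_filter, t1.S, mem_image]
    exact and_congr_right' (not_congr ⟨fun ⟨a, a1, a2⟩ => by rwa [← a2, Θ.symm_apply_apply],
      fun a => ⟨_, a, Θ.apply_symm_apply s⟩⟩)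
  push Not at hA
  obtain ⟨F, μ, zF, ⟨F', eF⟩, fF, m0, m2⟩ := hA
  have dg := H5 q u M A Λ (big_down B (by omega)) (sc.down (by omega)) D
  obtain rfl : n = μ := by
    have := dg χ hχ F μ zF ⟨F', eF⟩ fF
    omega
  have fF' : Fe q n F' := by
    have := (Od.a_FEB.2 q (2 * n) n F F' q0 (eF ▸ (Od.a_FEB.1 q n A Λ q0 χ x0).1) fF).2.1
    rwa [show 2 * n - n = n by omega] at this
  have zF' : Zc χ F' := zF.of_mul fF.c0 (eF ▸ ⟨Λ.LZ, rfl⟩)
  obtain ⟨P, s, pk, -⟩ := H4 A B.cyc (big_down (N' := N4) B (by omega)).pr 0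
  have key : ∀ (F : ℂ[X]) (T : ℕ → ZA A), Fe q n F → F ∣ Λ.L χ → Lf χ F T q K0 →
      q ≤ 4 * #{p ∈ Λ.S | Odd ((P * T 1).coeff p)} → ∃ θ : A' ≃+ A, ∃ χ ∈ Fa A, ∃ G : ℂ[X],
      Zc χ G ∧ Fe q n G ∧ G ∣ Λ.L χ ∧ G ∣ Λ'.L (χ.compAddMonoidHom (θ : A' →+ A)) := by
    intro F T fF dF lf od
    obtain ⟨α, hα⟩ := IsAlgClosed.exists_root F
      (natDegree_pos_iff_degree_pos.1 (by rw [fF.deg]; omega)).ne'
    obtain ⟨j, x1, hα'⟩ := aadd1_root hc eP hχ x0 (eval_eq_zero_of_dvd_of_eval_eq_zero dF hα)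
    have l1 := Hy.a_LB q n A' Λ' q0 _ x1
    have dv := hMSF.2 q n A Λ q0 (by omega) dg χ hχ F _ α lf.zc fF dF ⟨_, aadd1_map Λ' χ j⟩
      l1.2.2.1 hα hα'
    have sj : j.range.index = 1 := by
      by_contra h1
      obtain ⟨l, hp, hl⟩ := Nat.exists_prime_and_dvd h1
      have hr := j.range.card_mul_index
      refine H6 q u l A Λ P s F T (Λ'.LZ.map (pu j)) (big_down B (by omega)) (sc.down (by omega))
        D pk hp (hr ▸ hl.mul_left _) χ hχ fF dF lf od (fun i b hb => ?_) ?_ ?_ ?_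
      · rw [coeff_map] at hb
        obtain ⟨v, -, hv⟩ := mem_image.1 (Finsupp.mapDomain_support (Finsupp.mem_support_iff.2 hb))
        exact Od.ored_mul B.cyc j.range hr hl ⟨v, hv⟩
      all_goals rw [aadd1_map]
      exacts [fun e => by simpa [e] using l1.1, l1.2.1.le, dv]
    exact ⟨.ofBijective j ((Nat.bijective_iff_surjective_and_card j).2
      ⟨AddMonoidHom.range_eq_top.1 (AddSubgroup.index_eq_one.1 sj), hc⟩), χ, hχ, F, lf.zc, fF, dF,
      dv⟩
  have dF' : F' ∣ Λ.L χ := eF ▸ dvd_mul_left F' F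
  obtain ⟨T, lf⟩ := H0 q A Λ B0 (by omega) G χ hχ F zF fF.c0 ⟨F', eF⟩
  obtain ⟨T', lf'⟩ := H0 q A Λ B0 (by omega) G χ hχ F' zF' fF'.c0 dF'
  refine Or.inr ((aadd1_odd Λ pk.kp (kp_eq pk.kp hχ ?_) ho).elim (key F T fF ⟨F', eF⟩ lf)
    (key F' T' fF' dF' lf'))
  rw [map_add, lf.ev, lf'.ev, ← Λ.coeff_L χ (by omega), eF, mul_coeff_one, fF.c0, fF'.c0, one_mul,
    mul_one, add_comm]

end

end Pool.Agent.P.MP_9344a7_nt.Ac
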