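import Pool.Agent.P.MP_9344a7_nt.Ac.IfaceA
import Pool.Agent.P.MP_9344a7_nt.Ac.BaseB

/-! Steps JMP, LB2, LB3, LAB, TU1, TUW. -/

set_option linter.unusedVariables false
set_option linter.unusedSectionVars false

namespace Pool.Agent.P.MP_9344a7_nt.Ac

section

open Polynomial Finset
open Pool.Agent.P.MP_9344a7_nt.R
open Pool.Agent.P.MP_9344a7_nt.Hy
open Pool.Agent.P.MP_9344a7_nt.Od (GD Kp Fe)
open scoped Classical

lemma ajmp_run (o : ℤ → ℤ) (C : ℕ) (h : ∀ k : ℤ, -C ≤ k → k ≤ C → k ≠ 0 → Even (o (k - 1) + o k))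
    (h0 : Odd (o (0 - 1) + o 0)) :
    C + 1 ≤ #{k ∈ Icc (-(C + 1 : ℕ) : ℤ) (C + 1 : ℕ) | Odd (o k)} := by
  by_cases e : Odd (o 0)
  · have a : ∀ j : ℕ, j ≤ C → Odd (o j) := fun j => by
      induction j with
      | zero => exact fun _ => e
      | succ j ih =>
        intro hj
        have h1 := h (j + 1 : ℕ) (by omega) (by omega) (by omega)
        have h2 := ih (by omega)
        rw [Nat.cast_succ, add_sub_cancel_right] at h1
        rw [Nat.cast_succ]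
        grind
    refine le_trans (by simp) (card_le_card (s := Icc (0 : ℤ) C) fun k hk => ?_)
    rw [mem_Icc] at hk
    obtain ⟨j, rfl⟩ := Int.eq_ofNat_of_zero_le hk.1
    exact mem_filter.2 ⟨mem_Icc.2 (by omega), a j (by omega)⟩
  · have a : ∀ j : ℕ, j ≤ C → Odd (o (-j - 1)) := fun j => by
      induction j with
      | zero =>
        intro _
        rw [Nat.cast_zero, neg_zero]
        grind
      | succ j ih =>
        intro hj
        have h1 := h (-(j + 1 : ℕ)) (by omega) (by omega) (by omega)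
        have h2 := ih (by omega)
        rw [show (-j - 1 : ℤ) = -(j + 1 : ℕ) by omega] at h2
        grind
    refine le_trans (by simp) (card_le_card (s := Icc (-C - 1 : ℤ) (-1)) fun k hk => ?_)
    rw [mem_Icc] at hk
    obtain ⟨j, hj⟩ := Int.eq_ofNat_of_zero_le (show 0 ≤ -k - 1 by omega)
    obtain rfl : k = -j - 1 := by omega
    exact mem_filter.2 ⟨mem_Icc.2 (by omega), a j (by omega)⟩

lemma ajmp_half {A : Type} [AddCommGroup A] [Fintype A] {P : ZA A} {s θ : A} {C : ℕ} {Q : A → ℤ}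
    (hP : Pk P s) (hG : Gap P θ (2 * C + 2))
    (hQ : Q = 0 ∨ ∃ τ, ¬ Nr θ (C + 1) τ ∧ ∀ t, Q t = P.coeff (t + τ)) :
    om A ≤ 2 * #{b ∈ P.coeff.support | ∀ k : ℤ, |k| ≤ (C + 1 : ℕ) → Q (b + k • θ) = 0} := by
  have h1 := card_filter_add_card_filter_not (s := P.coeff.support)
    fun b => ∀ k : ℤ, |k| ≤ (C + 1 : ℕ) → Q (b + k • θ) = 0
  have h2 : #P.coeff.support = om A := hP.card
  rcases eq_empty_or_nonempty {b ∈ P.coeff.support |
    ¬ ∀ k : ℤ, |k| ≤ (C + 1 : ℕ) → Q (b + k • θ) = 0} with e | ⟨b, hb⟩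
  · rw [e, card_empty] at h1
    omega
  simp only [mem_filter, Finsupp.mem_support_iff, not_forall] at hb
  obtain ⟨b1, k, hk, b2⟩ := hb
  rcases hQ with rfl | ⟨τ, t1, t2⟩
  · exact absurd rfl b2
  have h3 := hP.half (k • θ + τ) fun e => t1 ⟨-k, by rwa [abs_neg], by
    rw [neg_zsmul, eq_neg_iff_add_eq_zero, add_comm, e]⟩
  have h4 : #{b ∈ P.coeff.support | ¬ ∀ k : ℤ, |k| ≤ (C + 1 : ℕ) → Q (b + k • θ) = 0} ≤
      #{b | P.coeff b ≠ 0 ∧ P.coeff (b + (k • θ + τ)) ≠ 0} := by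
    refine card_le_card fun b' hb' => ?_
    simp only [mem_filter, Finsupp.mem_support_iff, not_forall] at hb'
    obtain ⟨c1, k', hk', c2⟩ := hb'
    rw [t2] at b2 c2
    refine mem_filter.2 ⟨mem_univ _, c1, ?_⟩
    rcases hG with rfl | hG
    · simpa using c2
    by_cases e : k - k' = 0
    · rwa [sub_eq_zero.1 e, ← add_assoc]
    refine absurd ?_ (hG _ e (by rw [abs_le] at *; omega) _ _ _ _ b2 b1 c1 c2)
    rw [sub_zsmul]
    abel
  omega

theorem p_JMP :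
    S_JMP := by
  intro c n C K0
  refine ⟨(C + 1) * (2 * C + 3) ^ 2 * (c + K0 + 2), fun q u A _ _ Λ P s θ w z Z X hS hD hP hG hz hZ
    hX => ?_⟩
  set K := (C + 1) * (2 * C + 3) ^ 2 * (c + K0 + 2) with hK
  have k2 : 2 ≤ K := le_trans (by omega) (Nat.le_mul_of_pos_left _ (by positivity))
  have k0 : 0 < K := by omega
  have hR := card_Rg hP.kp θ (C + 1)
  set T := Rg P θ (C + 1) with hT
  set D := ((T ×ˢ T).image fun x => x.1 - x.2).erase 0 with hD'
  set Y := D.biUnion fun d => ({x | (Λ.W n).coeff x ≠ 0 ∧ (Λ.W n).coeff (x + d) ≠ 0} : Finset A)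
    with hY
  have a1 : C * #(T.biUnion Z) ≤ q ^ n := by
    refine small_le (x := (2 * (C + 1) + 1) * K0 * om A ^ 2) (hS.pos k0)
      ((mul_card_biUnion hR fun t _ => hZ t).trans_eq (by ring)) ?_
    rw [← mul_assoc]
    refine hS.om ?_ k2
    rw [← mul_assoc, hK]
    gcongr <;> nlinarith
  have a2 : C * #Y ≤ q ^ n := by
    have : #D ≤ ((2 * (C + 1) + 1) * om A) ^ 2 := by
      refine (card_erase_le.trans card_image_le).trans ?_
      rw [card_product, sq]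
      gcongr
    refine small_le (x := (2 * (C + 1) + 1) ^ 2 * c * om A ^ 2) (hS.leq k0 k0)
      ((mul_card_biUnion this fun d hd => hD.pair le_rfl (ne_of_mem_erase hd)).trans_eq (by ring))
      (le_trans ?_ (hS.uq k0))
    rw [← mul_assoc]
    refine hS.om ?_ k2
    rw [← mul_assoc, hK]
    exact Nat.mul_le_mul (Nat.mul_le_mul C.le_succ le_rfl) (by omega)
  set X' := X \ (T.biUnion Z ∪ Y) with hX'
  have a3 : #X ≤ #X' + (#(T.biUnion Z) + #Y) :=
    card_le_card_sdiff_add_card.trans (Nat.add_le_add_left (card_union_le _ _) _)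
  suffices h : C * #X' ≤ 2 * q ^ n by nlinarith
  have p0 : P.coeff 0 ≠ 0 := hP.kp.c0 ▸ one_ne_zero
  have key : ∀ x ∈ X', ∃ B ⊆ P.coeff.support, om A ≤ 2 * #B ∧ ∀ b ∈ B, ∀ k : ℤ, -C ≤ k → k ≤ C →
      Even (z (x + (b + (k - 1) • θ)) + z (x + (b + k • θ)) + P.coeff (b + k • θ)) := by
    intro x hx
    obtain ⟨x1, x2⟩ := mem_sdiff.1 hx
    obtain ⟨-, Q, q1, q2⟩ := hX x x1
    refine ⟨_, filter_subset _ _, ajmp_half hP hG q1, fun b hb k k1 k2 => ?_⟩
    obtain ⟨b1, b2⟩ := mem_filter.1 hb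
    have m : ∀ j : ℤ, |j| ≤ (C + 1 : ℕ) → _ := fun j hj =>
      have : b + j • θ ∈ T := mem_Rg.2 ⟨b, Finsupp.mem_support_iff.1 b1, j, hj, rfl⟩
      q2 _ this fun e => x2 (mem_union_left _ (mem_biUnion.2 ⟨_, this, e⟩))
    have r : |k - 1| ≤ (C + 1 : ℕ) := by rw [abs_le]; omega
    have m1 := (m k (by rw [abs_le]; omega)).1
    have m2 := (m _ r).2
    rw [b2 _ r, show w - θ - (x + (b + (k - 1) • θ)) = w - (x + (b + k • θ)) by
      rw [sub_zsmul, one_zsmul]; abel] at m2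
    grind
  have od : ∀ b ∈ P.coeff.support, Odd (P.coeff b) := fun b hb => by
    rcases hP.val b with e | e | e
    · exact absurd e (Finsupp.mem_support_iff.1 hb)
    all_goals simp [e]
  have o1 : 1 ≤ om A := one_le_om
  rcases hG with rfl | hG
  · rcases X'.eq_empty_or_nonempty with e | ⟨x, hx⟩
    · simp [e]
    obtain ⟨B, b1, b2, b3⟩ := key x hx
    obtain ⟨b, hb⟩ := card_pos.1 (show 0 < #B by omega)
    have := b3 b hb 0 (by omega) (by omega)
    have := od b (b1 hb)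
    simp only [smul_zero, add_zero] at *
    grind
  set I := Icc (-(C + 1 : ℕ) : ℤ) (C + 1 : ℕ) with hI
  have a4 : #{y ∈ X' ×ˢ P.coeff.support ×ˢ I | Odd (z (y.1 + (y.2.1 + y.2.2 • θ)))} ≤
      om A * q ^ n := by
    refine le_trans (card_le_card_of_injOn (fun y => y.1 + (y.2.1 + y.2.2 • θ))
      (fun y hy => by simpa using (mem_filter.1 hy).2) ?_) hz
    rintro ⟨x, b, k⟩ h ⟨x', b', k'⟩ h' e
    simp only [coe_filter, mem_product, Set.mem_ofPred_eq, hI, mem_Icc, ← abs_le,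
      Finsupp.mem_support_iff] at h h' e
    obtain ⟨⟨x1, b1, k1⟩, -⟩ := h
    obtain ⟨⟨x2, b2, k2⟩, -⟩ := h'
    have e1 : x' = x + (b + k • θ - (b' + k' • θ)) := by rw [← add_sub_assoc, e]; abel
    have e2 : b + k • θ - (b' + k' • θ) = 0 := by
      by_contra e2
      refine (mem_sdiff.1 x1).2 (mem_union_right _ (mem_biUnion.2 ⟨_, mem_erase.2 ⟨e2,
        mem_image.2 ⟨(_, _), mem_product.2 ⟨mem_Rg.2 ⟨b, b1, k, k1, rfl⟩,
          mem_Rg.2 ⟨b', b2, k', k2, rfl⟩⟩, rfl⟩⟩, mem_filter.2 ⟨mem_univ _,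
        (hX x (mem_sdiff.1 x1).1).1, e1 ▸ (hX x' (mem_sdiff.1 x2).1).1⟩⟩))
    obtain rfl : k = k' := by
      by_contra e3
      refine hG _ (sub_ne_zero.2 e3) (by rw [abs_le] at *; omega) _ _ _ _ b2 b1 p0 p0 ?_
      rw [sub_zsmul, ← sub_eq_zero, ← e2]
      abel
    rw [e1, e2, add_zero, show b = b' by simpa [sub_eq_zero] using e2]
  have a5 : ∀ x ∈ X', (C + 1) * om A ≤
      2 * ∑ b ∈ P.coeff.support, #{k ∈ I | Odd (z (x + (b + k • θ)))} := by
    intro x hx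
    obtain ⟨B, b1, b2, b3⟩ := key x hx
    refine (Nat.mul_le_mul_left _ b2).trans ?_
    rw [mul_left_comm, mul_comm _ #B]
    refine Nat.mul_le_mul_left _ (le_trans (card_nsmul_le_sum B _ (C + 1) fun b hb => ?_)
      (sum_le_sum_of_subset b1))
    have f := Finsupp.mem_support_iff.1 (b1 hb)
    refine ajmp_run (fun k => z (x + (b + k • θ))) C (fun k k1 k2 k3 => ?_) ?_
    · have := b3 b hb k k1 k2
      rwa [show P.coeff (b + k • θ) = 0 by
        by_contra e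
        exact hG k k3 (by rw [abs_le]; omega) _ _ _ _ e f p0 p0 (by abel), add_zero] at this
    · have h1 := b3 b hb 0 (by omega) (by omega)
      have h2 := od b (b1 hb)
      simp only [zero_zsmul, add_zero] at h1 ⊢
      grind
  simp only [card_filter, sum_product] at a4 a5
  have a6 := card_nsmul_le_sum _ _ _ a5
  rw [← mul_sum, smul_eq_mul] at a6
  refine Nat.le_of_mul_le_mul_left ?_ o1
  nlinarith [Nat.zero_le (#X' * om A)]

end

section

open Polynomial Finset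
open Pool.Agent.P.MP_9344a7_nt.R
open Pool.Agent.P.MP_9344a7_nt.Hy
open Pool.Agent.P.MP_9344a7_nt.Od (GD Kp Fe)
open scoped Classical

theorem p_LB2 :
    S_LB2 := by
  intro q n c u a A _ _ Λ Λ' P t hn hq hu hc hG hT hP
  have h1 : ∀ b : A, ∃ Z L : Finset A, u * #Z ≤ q ^ n ∧ #L ≤ u ^ a ∧
      ∀ x ∈ ({r | (Λ.W (n - 1)).coeff r ≠ 0} : Finset A).image (· + (t - b)), ∀ y ∈ Λ.S,
        x + y ∉ Z → (Λ'.W n).coeff (x + y) ≠ 0 →
          ∃ s ∈ L, Sb Λ' n 1 (x + y) (y - s) ∨ Sb Λ' n 1 (Λ'.ω - (x + y)) (s - y) := fun b =>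
    hT 1 one_pos (by omega) _ _ (card_image_le.trans ((gd_supp hG (Nat.sub_le _ _)).trans
      (Nat.mul_le_mul_right _ hc))) ((card_S Λ hq).trans (by
        rw [pow_one]
        exact Nat.mul_le_mul_right _ hu))
  choose Z L hZ hL h using h1
  refine ⟨P.coeff.support.biUnion fun b => (Z b).image (· - (t - b)), P.coeff.support.biUnion L,
    mul_card_biUnion hP.sz fun b _ => (Nat.mul_le_mul_left _ card_image_le).trans (hZ b),
    card_biUnion_le.trans ((sum_le_card_nsmul _ _ _ fun b _ => hL b).trans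
      (Nat.mul_le_mul_right _ hP.sz)), fun p r e hz hl => ?_⟩
  by_contra h0
  obtain ⟨b, b1, b2⟩ := Od.mul_ne h0
  have hb := Finsupp.mem_support_iff.2 b1
  have e1 : p + r + t - b = r + (t - b) + p := by abel
  obtain ⟨s, s1, s2⟩ := h b (r + (t - b)) (mem_image_of_mem _ (mem_filter.2 ⟨mem_univ _, by
    rw [e.2.1.1]
    exact one_ne_zero⟩)) p e.1 (fun z => hz (mem_biUnion.2 ⟨b, hb, mem_image.2 ⟨_, z, by
      abel⟩⟩)) (e1 ▸ b2)
  have s3 := hl s (mem_biUnion.2 ⟨b, hb, s1⟩)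
  rcases s2 with s2 | s2
  · exact s3.1 (w1_ne.1 s2.1)
  · exact s3.2 (w1_ne.1 s2.1)

end

section

open Polynomial Finset
open Pool.Agent.P.MP_9344a7_nt.R
open Pool.Agent.P.MP_9344a7_nt.Hy
open Pool.Agent.P.MP_9344a7_nt.Od (GD Kp Fe)
open scoped Classical

theorem p_LB3 (hTDP : S_TDP) :
    S_LB3 := by
  intro c n a hn
  refine ⟨2 * a + 2 * n + c + n * n * (c * c) + 3, fun q u M A _ _ Λ Λ' P s f t sc h => ?_⟩
  have e := h.ad.ed
  have e' := h.ad'.ed
  have cu : c ≤ u := sc.le (by omega)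
  obtain ⟨X, x1, x2⟩ := h.sd'.sym e' h.pk
  obtain ⟨Z1, L1, a1, a2, a3⟩ := hTDP q n c u a A Λ Λ' f t 1 cu e h.ad.td e'.gd h.sd.sz (.inl rfl)
  obtain ⟨Z2, L2, b1, b2, b3⟩ :=
    hTDP q n c u a A Λ Λ' f (Λ'.ω + s - t) (-1) cu e h.ad.td e'.gd h.sd.sz (.inr rfl)
  let Y : A × A → Finset A := fun z => {x | ∃ b ∈ ({b | (Λ'.W (n - 1)).coeff b ≠ 0 ∧
    (Λ'.W (n - 1)).coeff (z.1 + z.2 - b) ≠ 0} : Finset A), (Λ.W 1).coeff (x - (b - z.1)) ≠ 0}
  have c1 : u * #((L1 ×ˢ L2).biUnion Y) ≤ q ^ n := by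
    refine sc.tiny (e := 2 * a + 1) (by omega) ((mul_card_biUnion
      ((card_product _ _).trans_le (Nat.mul_le_mul a2 b2)) fun z _ => gd_add e.gd (k := 1)
        (by omega) (e'.clf' (by omega) (by omega) (z.1 + z.2)) (· - z.1)
        fun x hx => (mem_filter.1 hx).2).trans ?_)
    obtain ⟨m, rfl⟩ : ∃ m, n = m + 1 := ⟨n - 1, by omega⟩
    calc _ = (m + 1) * (m + 1) * (c * c) * (u ^ (2 * a) * q ^ (m + 1)) := by
          rw [Nat.add_sub_cancel]; ring
      _ ≤ u * (u ^ (2 * a) * q ^ (m + 1)) := Nat.mul_le_mul_right _ (sc.le (by omega))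
      _ = _ := by ring
  refine ⟨X.image (· - t) ∪ Z1 ∪ Z2 ∪ (L1 ×ˢ L2).biUnion Y, L1.image (-·) ∪ L2, ?_, ?_,
    fun p r g hZ hL => ?_⟩
  · refine (mul_card_union (mul_card_union (mul_card_union
      ((Nat.mul_le_mul_left _ card_image_le).trans x1) a1) b1) c1).trans ?_
    calc _ = (2 * n + 3) * q ^ n := by ring
      _ ≤ _ := Nat.mul_le_mul_right _ (by omega)
  · refine (card_union_le _ _).trans ((add_le_add (card_image_le.trans a2) b2).trans ?_)
    rw [← add_mul]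
    exact Nat.mul_le_mul_right _ (by omega)
  simp only [mem_union, not_or] at hZ
  obtain ⟨⟨⟨z0, z1⟩, z2⟩, z3⟩ := hZ
  by_contra o
  have d0 := x2 (p + r + t) fun hx => z0 (mem_image.2 ⟨_, hx, add_sub_cancel_right _ _⟩)
  obtain ⟨k, k0, k1, b, d1, d2⟩ := phi_ne (Λ := Λ') (f := f) (y := p + r + t) fun e => o (by simp [e])
  obtain ⟨j, j0, j1, d, d3, d4⟩ := phi_ne (Λ := Λ') (f := f) (y := Λ'.ω + s - (p + r + t)) fun e =>
    o (by simpa [e] using d0)
  obtain ⟨t1, t2, t3⟩ := a3 _ z1 g.res k k0 k1 b d1 (by rwa [one_smul, add_comm t])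
  obtain ⟨s1, s2, s3⟩ := b3 _ z2 g.res j j0 j1 d d3 (by convert d4 using 2; simp; abel)
  rw [one_smul] at t3
  rw [neg_one_smul, sub_neg_eq_add] at s3
  rcases g.uf e k0 k1 t3 with ⟨rfl, u1⟩ | ⟨rfl, u1⟩
  swap
  · rw [Nat.sub_sub_self (by omega), w1_ne, show b = p - -t1 by
      rw [← sub_eq_zero, ← neg_eq_zero, ← sub_eq_zero.2 u1]; abel] at d1
    exact (hL _ (mem_union_left _ (mem_image_of_mem _ t2))).1 d1
  rcases g.uf e j0 j1 s3 with ⟨rfl, u2⟩ | ⟨rfl, u2⟩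
  swap
  · rw [Nat.sub_sub_self (by omega), w1_ne, show d = s1 - p by
      rw [← sub_eq_zero, ← sub_eq_zero.2 u2]; abel] at d3
    exact (hL _ (mem_union_right _ s2)).2 d3
  refine z3 (mem_biUnion.2 ⟨(t1, s1), mem_product.2 ⟨t2, s2⟩, mem_filter.2 ⟨mem_univ _, b,
    mem_filter.2 ⟨mem_univ _, d1, ?_⟩, u1.symm ▸ w1_ne.2 g.1⟩⟩)
  rwa [show t1 + s1 - b = d by
    rw [← sub_eq_zero, ← sub_eq_zero.2 (u1.trans u2.symm)]; abel]

end

section

open Polynomial Finset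
open Pool.Agent.P.MP_9344a7_nt.R
open Pool.Agent.P.MP_9344a7_nt.Hy
open Pool.Agent.P.MP_9344a7_nt.Od (GD Kp Fe)
open scoped Classical

lemma alab_arith {c n E M q U V X D y : ℕ} (hy : 0 < y) (hM : M = 3 * c * E + 1) (h1 : y ≤ c * V)
    (h2 : M * (U * V) ≤ M * (n * D) + q * y) (h3 : D ≤ n * X + 2 * q)
    (h4 : 12 * n ^ 2 * c * E * X ≤ 4 * (q * y)) (h5 : 6 * c * E * n ≤ y) : E * U ≤ q := by
  refine Nat.le_of_mul_le_mul_right (c := 3 * M * y) ?_ (by subst hM; positivity)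
  have a1 : 3 * c * E * (n * (n * X)) ≤ q * y := by nlinarith
  have a2 : 3 * c * E * (n * (2 * q)) ≤ q * y := by nlinarith
  calc E * U * (3 * M * y) ≤ E * U * (3 * M * (c * V)) := by gcongr
    _ = 3 * c * E * (M * (U * V)) := by ring
    _ ≤ 3 * c * E * (M * (n * (n * X + 2 * q)) + q * y) := by
      exact Nat.mul_le_mul_left _ (h2.trans (by gcongr))
    _ = M * (3 * c * E * (n * (n * X))) + M * (3 * c * E * (n * (2 * q))) +
      3 * c * E * (q * y) := by ring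
    _ ≤ M * (q * y) + M * (q * y) + M * (q * y) := by gcongr; omega
    _ = _ := by ring

theorem p_LAB (hRL1 : S_RL1) (hJMP : S_JMP) (hLB2 : S_LB2) (hLB3 : S_LB3) :
    S_LAB := by
  intro c n a E hn
  obtain ⟨K1, h1⟩ := hRL1 c n a
  obtain ⟨K3, h3⟩ := hLB3 c n a hn
  obtain ⟨C, hC⟩ : ∃ C, C = 12 * n ^ 2 * c * E := ⟨_, rfl⟩
  obtain ⟨KJ, hJ⟩ := hJMP c n C (K1 + 1 + K3 + 1)
  obtain ⟨K4, h4⟩ : ∃ K4, K4 = (2 * (C + 1) + 1) * (1 + K3) := ⟨_, rfl⟩
  obtain ⟨K5, h5⟩ : ∃ K5, K5 = 6 * c * E * n := ⟨_, rfl⟩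
  refine ⟨2 * C + 2, 3 * c * E + 1, K1 + K3 + KJ + K4 + K5 + c + 4,
    fun q u A _ _ Λ Λ' P s f hS hD hG => ?_⟩
  have ed := hD.ad.ed
  have q4 : 4 ≤ q := hS.leq (by omega) (by omega)
  have om1 : 1 ≤ om A := one_le_om
  choose Z1 a1 b1 using fun t => h1 q u A Λ P s f t (hS.down (by omega)) ed hD.ad.td hD.pk hD.sd
  choose Z2 L2 a2 c2 b2 using fun t => hLB2 q n c u a A Λ Λ' P t hn q4 (hS.le (by omega))
    (hS.le (by omega)) ed.gd hD.ad'.td hD.pk.kp
  choose Z3 L3 a3 c3 b3 using fun t => h3 q u _ A Λ Λ' P s f t (hS.down (by omega)) hD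
  obtain ⟨X', a4, b4⟩ := hD.sd'.par
  set L := (Rg P (Λ.ω - Λ'.ω) (C + 1)).biUnion fun t => L2 t ∪ L3 t with hL
  set Ed : Finset (A × A) := {e | Eg Λ e.1 e.2 ∧ Ul Λ' L e.1} with hE
  have mE : ∀ e ∈ Ed, Eg Λ e.1 e.2 ∧ Ul Λ' L e.1 := fun e he => (mem_filter.1 he).2
  have hX := hJ q u A Λ P s _ (Λ.ω + s) (f n).coeff
    (fun t => Z1 t ∪ Z2 t ∪ Z3 t ∪ X'.image (· - t)) (Ed.image fun e => e.1 + e.2)
    (hS.down (by omega)) ed.gd hD.pk hG hD.sd.odd (fun t => (mul_card_union (mul_card_union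
      (mul_card_union (a1 t) (a2 t)) (a3 t)) ((Nat.mul_le_mul_left _ card_image_le).trans a4)).trans
        (by
          have : K1 + om A + K3 + 1 ≤ (K1 + 1 + K3 + 1) * om A := by nlinarith
          nlinarith [Nat.mul_le_mul_right (q ^ n) this]))
    (forall_mem_image.2 fun e he => by
      obtain ⟨e1, e2⟩ := mE e he
      refine ⟨by rw [e1.one ed]; exact one_ne_zero, 0, .inl rfl, fun t ht hZ => ?_⟩
      simp only [mem_union, not_or] at hZ
      refine ⟨(b1 t _ hZ.1.1.1 e1.res).2, ?_⟩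
      have k2 := b2 t _ _ e1 hZ.1.1.2 fun v hv =>
        e2 v (mem_biUnion.2 ⟨t, ht, mem_union_left _ hv⟩)
      have k3 := b3 t _ _ e1 hZ.1.2 fun v hv =>
        e2 v (mem_biUnion.2 ⟨t, ht, mem_union_right _ hv⟩)
      have k4 := b4 (e.1 + e.2 + t) fun h => hZ.2 (mem_image.2 ⟨_, h, add_sub_cancel_right _ _⟩)
      rw [k2, zero_add, Int.even_add, iff_true_right k3] at k4
      rwa [Pi.zero_apply, add_zero, show Λ.ω + s - (Λ.ω - Λ'.ω) = Λ'.ω + s by abel])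
  refine ⟨L, ?_, ?_⟩
  · have k1 := mul_card_biUnion (u := 1) (card_Rg hD.pk.kp (Λ.ω - Λ'.ω) (C + 1))
      (Z := fun t => L2 t ∪ L3 t) (y := (1 + K3) * om A * u ^ a) fun t _ => by
        have := card_union_le (L2 t) (L3 t)
        nlinarith [c2 t, c3 t, Nat.mul_le_mul_left (K3 * u ^ a) om1]
    have k2 : K4 * om A ^ 2 ≤ u := hS.om (by omega) (by omega)
    rw [one_mul] at k1
    refine k1.trans (le_trans (le_of_eq ?_) ((Nat.mul_le_mul_left (u ^ a) k2)))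
    rw [h4]
    ring
  obtain ⟨m, rfl⟩ : ∃ m, n = m + 1 := ⟨n - 1, by omega⟩
  have k1 := hD.ad.cd.mx (U := {p ∈ Λ.S | Ul Λ' L p}) (V := {r | Pm Λ (m + 1 - 1) r})
    (filter_subset _ _) (fun r hr => (mem_filter.1 hr).2.1) (E := Ed ∪ Λ.S.diag)
    fun p hp r hr h => by
      obtain ⟨p1, p2⟩ := mem_filter.1 hp
      rcases eq_or_ne p r with e | e
      · exact mem_union_right _ (mem_diag.2 ⟨p1, e⟩)
      · exact mem_union_left _ (mem_filter.2 ⟨mem_univ _, ⟨p1, (mem_filter.1 hr).2, e, h⟩, p2⟩)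
  have k2 := ed.prs m.succ_pos (E := Ed) (Z := Ed.image fun e => e.1 + e.2) fun e he =>
    ⟨(mE e he).1.1, by rw [(mE e he).1.2.1.1]; exact one_ne_zero, (mE e he).1.one ed,
      mem_image_of_mem _ he⟩
  rw [pow_succ'] at k1 hX
  refine alab_arith (by positivity) rfl ed.rp k1 ((card_union_le _ _).trans (add_le_add k2 ?_))
    (hC ▸ hX) (h5 ▸ (hS.leq (by omega) (by omega)).trans (Nat.le_self_pow (by omega) q))
  rw [diag_card]
  exact card_S Λ q4

end

section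

open Polynomial Finset
open Pool.Agent.P.MP_9344a7_nt.R
open Pool.Agent.P.MP_9344a7_nt.Hy
open Pool.Agent.P.MP_9344a7_nt.Od (GD Kp Fe)
open scoped Classical

theorem p_TU1 :
    S_TU1 := by
  intro q n c A ι _ _ _ Λ x E h hn hE
  split_ifs with e
  · obtain ⟨h1, U, hU, hc, rfl⟩ := e
    have key : ∀ T, T ∈ E ↔ Function.Injective T ∧ ∀ i, T i ∈ U := fun T => by
      rw [hE]
      refine and_congr_right fun hT => ⟨fun ⟨a1, a2, _⟩ i => ?_, fun a => ⟨fun i => hU (a i), ?_, h1⟩⟩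
      · have h2 := h.sum_ne (J := univ.erase i) (T := T) fun j _ => a1 j
        rw [card_erase_of_mem (mem_univ i), card_univ, hn, sum_erase_eq_sub (mem_univ i), a2] at h2
        obtain ⟨j, hj, e⟩ := h.uf31 (J := U) (T := fun s => s) hU (by rwa [hc])
          (by rw [hc, ← hn]; exact Fintype.card_pos_iff.2 ⟨i⟩) (a1 i) (by rwa [hc])
        exact e ▸ hj
      · rw [← eq_of_subset_of_card_le (s := univ.image T) (image_subset_iff.2 fun i _ => a i)
          (by rw [card_image_of_injective _ hT, card_univ, hn, hc]), sum_image hT.injOn]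
    have h3 := Fintype.card_embedding_eq (α := ι) (β := U)
    rw [Fintype.card_coe, hn, hc, Nat.descFactorial_self] at h3
    rw [← h3, ← card_univ]
    refine (card_bij (fun f _ i => (f i : A)) (fun f _ => (key _).2
      ⟨Subtype.val_injective.comp f.injective, fun i => (f i).2⟩)
      (fun f _ f' _ e => Function.Embedding.ext fun i => Subtype.ext (congrFun e i))
      fun T hT => ?_).symm
    obtain ⟨a1, a2⟩ := (key T).1 hT
    exact ⟨⟨fun i => ⟨T i, a2 i⟩, fun i j e => a1 (congrArg Subtype.val e)⟩, mem_univ _, rfl⟩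
  · refine card_eq_zero.2 (eq_empty_of_forall_notMem fun T hT => e ?_)
    obtain ⟨a1, a2, a3, a4⟩ := (hE T).1 hT
    exact ⟨a4, univ.image T, image_subset_iff.2 fun i _ => a2 i,
      by rw [card_image_of_injective _ a1, card_univ, hn], by rw [sum_image a1.injOn, a3]⟩

end

section

open Polynomial Finset
open Pool.Agent.P.MP_9344a7_nt.R
open Pool.Agent.P.MP_9344a7_nt.Hy
open Pool.Agent.P.MP_9344a7_nt.Od (GD Kp Fe)
open scoped Classical

lemma atuw_lay {ι A : Type} [Fintype A] (Y : Finset ι) (σ : ι → A) {B : ℕ}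
    (h : ∀ r, #{y ∈ Y | σ y = r} ≤ B) (g : A → ℤ) :
    ∑ y ∈ Y, g (σ y) = ∑ i ∈ range B, ∑ r with i < #{y ∈ Y | σ y = r}, g r := by
  simp only [sum_filter (s := univ)]
  rw [sum_comm, ← sum_fiberwise_of_maps_to (g := σ) fun _ _ => mem_univ _]
  refine sum_congr rfl fun r _ => ?_
  rw [sum_congr rfl (g := fun _ => g r) fun y hy => by rw [(mem_filter.1 hy).2], ← sum_filter,
    sum_const, sum_const, show {i ∈ range B | i < #{y ∈ Y | σ y = r}} = range #{y ∈ Y | σ y = r} by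
      ext i
      have := h r
      simp only [mem_filter, mem_range]
      omega, card_range]

lemma atuw_pow {M x q : ℤ} (hM : 0 ≤ M) (h0 : 0 ≤ x) (hq : 0 ≤ q) (h1 : x ≤ 2 * q)
    (h : M * |x - q| ≤ q) (k : ℕ) : M * |x ^ k - q ^ k| ≤ k * 2 ^ k * q ^ k := by
  induction k with
  | zero => simp
  | succ k ih =>
    have a1 : |x ^ (k + 1) - q ^ (k + 1)| ≤ x * |x ^ k - q ^ k| + q ^ k * |x - q| := by
      rw [show x ^ (k + 1) - q ^ (k + 1) = x * (x ^ k - q ^ k) + q ^ k * (x - q) by ring]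
      refine (abs_add_le _ _).trans_eq ?_
      rw [abs_mul, abs_mul, abs_of_nonneg h0, abs_of_nonneg (pow_nonneg hq k)]
    have a2 : (1 : ℤ) ≤ 2 ^ (k + 1) := one_le_pow₀ one_le_two
    calc _ ≤ M * (x * |x ^ k - q ^ k| + q ^ k * |x - q|) := by gcongr
      _ = x * (M * |x ^ k - q ^ k|) + q ^ k * (M * |x - q|) := by ring
      _ ≤ 2 * q * (k * 2 ^ k * q ^ k) + q ^ k * q := by gcongr
      _ = k * 2 ^ (k + 1) * q ^ (k + 1) + 1 * q ^ (k + 1) := by ring
      _ ≤ k * 2 ^ (k + 1) * q ^ (k + 1) + 2 ^ (k + 1) * q ^ (k + 1) := by gcongr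
      _ = _ := by push_cast; ring

theorem p_TUW :
    S_TUW := by
  intro c n E hn
  obtain ⟨m, rfl⟩ : ∃ m, n = m + 2 := ⟨n - 2, by omega⟩
  obtain ⟨B, hB⟩ : ∃ B : ℕ, B = 2 ^ (m + 1) ^ 2 := ⟨_, rfl⟩
  obtain ⟨D, hD⟩ : ∃ D, D = B + 2 * B * c + 4 * m * 2 ^ m := ⟨_, rfl⟩
  refine ⟨E * D + 4, fun q A _ _ Λ hq ed cd U hU U' hU' => ?_⟩
  have hS := card_S Λ (by omega)
  have u1 := (card_le_card hU).trans hS
  have u2 := (card_le_card hU').trans hS
  let Y := U' ×ˢ Fintype.piFinset fun _ : Fin m => Λ.S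
  let σ : A × (Fin m → A) → A := fun y => y.1 + ∑ i, y.2 i
  let φ : A × (Fin m → A) → Option (Fin m) → A := fun y o => o.elim y.1 y.2
  have f1 : Function.Injective φ := fun y y' h =>
    Prod.ext (congrFun h none) (funext fun i => congrFun h (some i))
  have f2 : ∀ y, ∑ o, φ y o = σ y := fun y => Fintype.sum_option _
  have f3 : ∀ y ∈ Y, ∀ o, φ y o ∈ Λ.S := fun y hy o => by
    simp only [Y, mem_product, Fintype.mem_piFinset] at hy
    cases o
    exacts [hU' hy.1, hy.2 _]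
  have f4 : Fintype.card (Option (Fin m)) = m + 1 := by simp
  let Y1 := {y ∈ Y | (Λ.W (m + 1)).coeff (σ y) = 1}
  have a1 : ∀ r, #{y ∈ Y1 | σ y = r} ≤ B := fun r => by
    rcases ({y ∈ Y1 | σ y = r} : Finset _).eq_empty_or_nonempty with e | ⟨y, hy⟩
    · simp [e]
    have := ed.tup (E := {y ∈ Y1 | σ y = r}.image φ) (x := r) fun T hT => by
      obtain ⟨y, hy, rfl⟩ := mem_image.1 hT
      exact ⟨f3 y (mem_filter.1 (mem_filter.1 hy).1).1, (f2 y).trans (mem_filter.1 hy).2⟩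
    rw [f4, card_image_of_injective _ f1, ← (mem_filter.1 hy).2,
      (mem_filter.1 (mem_filter.1 hy).1).2, mul_one, (mem_filter.1 hy).2] at this
    rw [hB]
    exact_mod_cast this
  have a2 := ed.tup2 f4 (by omega) (E := {y ∈ Y | ¬ (Λ.W (m + 1)).coeff (σ y) = 1}.image φ)
    fun T hT => by
      obtain ⟨y, hy, rfl⟩ := mem_image.1 hT
      exact ⟨f3 y (mem_filter.1 hy).1, f2 y ▸ (mem_filter.1 hy).2⟩
  rw [card_image_of_injective _ f1, ← hB, pow_succ q, ← mul_assoc, mul_comm q] at a2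
  have a3 := Nat.le_of_mul_le_mul_right a2 (by omega)
  have a4 := card_filter_add_card_filter_not (s := Y) fun y => (Λ.W (m + 1)).coeff (σ y) = 1
  rw [show #Y = #U' * #Λ.S ^ m by simp [Y]] at a4
  let g : A → ℤ := fun r => #{p ∈ U | Sp Λ (m + 2) (Λ.ω - p - r)}
  have b1 : (#{T ∈ U ×ˢ Y | Sp Λ (m + 2) (Λ.ω - T.1 - σ T.2)} : ℤ) = ∑ y ∈ Y1, g (σ y) := by
    rw [card_filter, sum_product_right, sum_filter, Nat.cast_sum]
    refine sum_congr rfl fun y hy => ?_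
    rw [← card_filter]
    split_ifs with e
    · rfl
    refine Nat.cast_eq_zero.2 (card_eq_zero.2 (filter_eq_empty_iff.2 fun p hp h => e ?_))
    have c1 := ed.sum_ne (J := univ) fun o _ => f3 y hy o
    have c2 := h.1
    rw [sub_sub, ed.sym] at c2
    rw [card_univ, f4, f2, ← add_sub_cancel_left p (σ y)] at c1
    simpa using ed.sub_one c2 (hU hp) c1
  have b2 := atuw_lay Y1 σ a1 fun _ => 1
  rw [atuw_lay Y1 σ a1] at b1
  simp only [sum_const, nsmul_eq_mul, mul_one] at b2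
  have b3 : ((E * D + 4 : ℕ) : ℤ) * |(m + 2).factorial *
      (#{T ∈ U ×ˢ Y | Sp Λ (m + 2) (Λ.ω - T.1 - σ T.2)} : ℤ) - #U * #Y1| ≤ B * q ^ (m + 2) := by
    rw [b1, b2, mul_sum, mul_sum, ← sum_sub_distrib]
    refine (mul_le_mul_of_nonneg_left (abs_sum_le_sum_abs _ _) (Nat.cast_nonneg _)).trans ?_
    rw [mul_sum]
    refine (sum_le_card_nsmul _ _ _ fun i _ => ?_).trans_eq (by rw [card_range, nsmul_eq_mul])
    refine le_trans (le_of_eq ?_) (cd.mxs U hU {r | i < #{y ∈ Y1 | σ y = r}} fun r hr => by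
      obtain ⟨y, hy⟩ := card_pos.1 ((Nat.zero_le _).trans_lt (mem_filter.1 hr).2)
      exact (mem_filter.1 hy).2 ▸ (mem_filter.1 (mem_filter.1 hy).1).2)
    generalize ({r | i < #{y ∈ Y1 | σ y = r}} : Finset A) = V
    simp only [g, card_filter, sum_product_right, Nat.cast_sum]
  have b4 := atuw_pow (Nat.cast_nonneg _) (Nat.cast_nonneg _) (Nat.cast_nonneg _)
    (by exact_mod_cast hS) cd.card m
  change E * |(m + 2).factorial * (#{T ∈ U ×ˢ Y | Sp Λ (m + 2) (Λ.ω - T.1 - σ T.2)} : ℤ) -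
    #U * #U' * q ^ m| ≤ _
  generalize (m + 2).factorial * (#{T ∈ U ×ˢ Y | Sp Λ (m + 2) (Λ.ω - T.1 - σ T.2)} : ℤ) = x at *
  change #Y1 + _ = _ at a4
  generalize #Y1 = y, #{y ∈ Y | ¬ (Λ.W (m + 1)).coeff (σ y) = 1} = y', #U = a, #U' = b at *
  have D0 : (0 : ℤ) < D := by
    have : 0 < B := hB ▸ Nat.two_pow_pos _
    exact_mod_cast by omega
  zify at a3 a4 u1 u2 hq hD
  have c1 : |x - a * b * q ^ m| ≤ |x - a * y| + a * y' + a * b * |(#Λ.S : ℤ) ^ m - q ^ m| := by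
    rw [show x - a * b * q ^ m = x - a * y + -(a * y') + a * b * ((#Λ.S : ℤ) ^ m - q ^ m) by
      linear_combination a * a4]
    refine (abs_add_three _ _ _).trans_eq ?_
    simp [abs_mul]
  push_cast at b3 b4
  refine le_of_mul_le_mul_left ?_ D0
  calc _ ≤ (E * D + 4) * |x - a * b * q ^ m| := by nlinarith [abs_nonneg (x - a * b * q ^ m)]
    _ ≤ (E * D + 4) * (|x - a * y| + a * y' + a * b * |(#Λ.S : ℤ) ^ m - q ^ m|) := by gcongr
    _ = (E * D + 4) * |x - a * y| + (E * D + 4) * a * y' +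
        a * b * ((E * D + 4) * |(#Λ.S : ℤ) ^ m - q ^ m|) := by ring
    _ ≤ B * q ^ (m + 2) + q * (2 * q) * (B * c * q ^ m) +
        2 * q * (2 * q) * (m * 2 ^ m * q ^ m) := by gcongr
    _ = _ := by rw [hD]; ring

end

end Pool.Agent.P.MP_9344a7_nt.Ac
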