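import Pool.Agent.P.MP_9344a7_nt.Ac.IfaceA
import Pool.Agent.P.MP_9344a7_nt.Ac.BaseB

/-! Steps TUA, TUP, PT1, PAT, SGN, AP2. -/

set_option linter.unusedVariables false
set_option linter.unusedSectionVars false

namespace Pool.Agent.P.MP_9344a7_nt.Ac

section

open Polynomial Finset
open Pool.Agent.P.MP_9344a7_nt.R
open Pool.Agent.P.MP_9344a7_nt.Hy
open Pool.Agent.P.MP_9344a7_nt.Od (GD Kp Fe)
open scoped Classical

theorem p_TUA :
    S_TUA := by
  intro c n E hn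
  refine ⟨E * (4 ^ n * (4 ^ n ^ 2 * (2 + 2 * c))) + 4, fun q A _ _ Λ hq h h' => ?_⟩
  obtain ⟨B, b1, b2⟩ := h'.good
  have s1 := card_S Λ (by omega)
  refine small_le (x := 4 ^ n * (4 ^ n ^ 2 * (2 + 2 * c))) (by omega) ?_ (Nat.le_add_right _ 4)
  generalize E * (4 ^ n * (4 ^ n ^ 2 * (2 + 2 * c))) + 4 = M at hq b1
  set X : Finset A := image₂ (· + ·) Λ.S B ∪
    image₂ (fun s y => y + (s + s)) Λ.S {y | (Λ.W (n - 2)).coeff y ≠ 0} with hX
  have x1 : M * #X ≤ (2 + 2 * c) * q ^ n := by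
    rw [add_mul]
    refine mul_card_union ((Nat.mul_le_mul_left _ (card_image₂_le _ _ _)).trans ?_)
      ((Nat.mul_le_mul_left _ (card_image₂_le _ _ _)).trans ?_)
    · rw [mul_left_comm]
      refine (Nat.mul_le_mul s1 b1).trans_eq ?_
      rw [mul_assoc, ← pow_succ', Nat.sub_add_cancel (by omega)]
    · refine (Nat.mul_le_mul hq (Nat.mul_le_mul s1 (gd_supp h.gd (Nat.sub_le _ _)))).trans_eq ?_
      obtain ⟨m, rfl⟩ := Nat.exists_eq_add_of_le hn
      rw [Nat.add_sub_cancel_left]; ring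
  rw [mul_assoc]
  refine le_trans (Nat.mul_le_mul_left _ (card_le_card (t := (powersetCard n univ).biUnion
    fun J : Finset (Fin (2 * n)) => {T | (∀ i, T i ∈ Λ.S) ∧ ∑ i, T i = Λ.ω ∧
      (Λ.W n).coeff (∑ i ∈ J, T i) = 1 ∧ ∑ i ∈ J, T i ∈ X}) fun T hT => ?_))
    (mul_card_biUnion ((card_le_univ _).trans_eq (by simp [pow_mul])) fun J hJ => ?_)
  swap
  · refine (Nat.mul_le_mul_left _ (h.tuc (X := X) (mem_powersetCard_univ.1 hJ) fun T hT =>
      (mem_filter.1 hT).2)).trans ?_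
    rw [mul_left_comm, mul_assoc]
    exact Nat.mul_le_mul_left _ x1
  obtain ⟨t1, t2, ⟨I0, i1, i2⟩, t3⟩ := (mem_filter.1 hT).2
  suffices ∃ J : Finset (Fin (2 * n)), #J = n ∧ (Λ.W n).coeff (∑ i ∈ J, T i) = 1 ∧
      ∑ i ∈ J, T i ∈ X from
    let ⟨J, a, b⟩ := this
    mem_biUnion.2 ⟨J, mem_powersetCard_univ.2 a, (mem_filter_univ _).2 ⟨t1, t2, b⟩⟩
  rcases ({I | #I = n ∧ (Λ.W n).coeff (∑ i ∈ I, T i) ≠ 1} :
    Finset (Finset (Fin (2 * n)))).eq_empty_or_nonempty with e | e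
  · have g : ∀ I : Finset (Fin (2 * n)), #I = n → (Λ.W n).coeff (∑ i ∈ I, T i) = 1 := by
      simpa [filter_eq_empty_iff] using e
    obtain ⟨i, j, e1, e2⟩ := Function.not_injective_iff.1 fun a => t3 (mem_Tu.2 ⟨a, t1, t2, g⟩)
    obtain ⟨J, j1, -, j2⟩ := exists_subsuperset_card_eq (subset_univ {i, j})
      ((card_pair e2).trans_le hn) (show n ≤ _ by simp; omega)
    have := h.sum_ne (J := J \ {i, j}) fun l _ => t1 l
    rw [card_sdiff_of_subset j1, j2, card_pair e2] at this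
    exact ⟨J, j2, g J j2, mem_union_right _ (mem_image₂.2 ⟨_, t1 j, _, (mem_filter_univ _).2 this,
      by rw [← sum_sdiff j1, sum_pair e2, e1]⟩)⟩
  obtain ⟨I, a, m⟩ := exists_max_image _ (fun I => #(I ∩ I0)) e
  obtain ⟨a1, a2⟩ := (mem_filter.1 a).2
  have ne : I ≠ I0 := fun e => a2 (e ▸ i2)
  obtain ⟨i, c1, c2⟩ := not_subset.1 fun e => ne (eq_of_subset_of_card_le e (by omega))
  obtain ⟨j, d1, d2⟩ := not_subset.1 fun e => ne (eq_of_subset_of_card_le e (by omega)).symm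
  have d3 : j ∉ I.erase i := fun e => d2 (mem_of_mem_erase e)
  have f1 : #(I.erase i) = n - 1 := by rw [card_erase_of_mem c1, a1]
  have f2 : #(insert j (I.erase i)) = n := by rw [card_insert_of_notMem d3]; omega
  have f3 : (Λ.W n).coeff (∑ l ∈ insert j (I.erase i), T l) = 1 := by
    by_contra o
    have := m _ ((mem_filter_univ _).2 ⟨f2, o⟩)
    rw [insert_inter_of_mem d1, erase_inter, erase_eq_of_notMem (by simp [c2]),
      card_insert_of_notMem (by simp [d2])] at this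
    omega
  refine ⟨_, f2, f3, mem_union_left _ ?_⟩
  rw [sum_insert d3]
  refine mem_image₂_of_mem (t1 j) (by_contra fun o => a2 ?_)
  rw [← sum_erase_add _ _ c1]
  exact b2 _ o (f1 ▸ h.part_one (subset_insert j _) (fun l _ => t1 l) (by rwa [f2])) _ (t1 i)

end

section

open Polynomial Finset
open Pool.Agent.P.MP_9344a7_nt.R
open Pool.Agent.P.MP_9344a7_nt.Hy
open Pool.Agent.P.MP_9344a7_nt.Od (GD Kp Fe)
open scoped Classical

lemma atup_eq {n : ℕ} (hn : 2 ≤ n) {i j : Fin (2 * n)} (h : i ≠ j) :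
    ∃ e : Option (Option (Fin (n - 2))) ⊕ Fin n ≃ Fin (2 * n),
      e (.inl none) = i ∧ e (.inl (some none)) = j := by
  have e : Option (Option (Fin (n - 2))) ⊕ Fin n ≃ Fin (2 * n) :=
    Fintype.equivOfCardEq (by simp; omega)
  let e1 := e.trans (Equiv.swap (e (.inl none)) i)
  have h1 : e1 (.inl none) = i := by simp [e1]
  refine ⟨e1.trans (Equiv.swap (e1 (.inl (some none))) j), ?_, by simp⟩
  rw [Equiv.trans_apply, h1, Equiv.swap_apply_of_ne_of_ne _ h]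
  rw [← h1]
  simp

theorem p_TUP (hTU1 : S_TU1) (hTUW : S_TUW) (hTUA : S_TUA) :
    S_TUP := by
  intro c n E hn
  obtain ⟨M1, h1⟩ := hTUW c n (2 * E) hn
  obtain ⟨M2, h2⟩ := hTUA c n (2 * E) hn
  refine ⟨M1 + M2, fun q A _ _ Λ hq ed cd i j hij U hU U' hU' => ?_⟩
  have a1 := h1 q A Λ (by omega) ed (cd.up le_rfl (by omega)) U hU U' hU'
  have a2 := h2 q A Λ (by omega) ed (cd.up le_rfl (by omega))
  obtain ⟨e, rfl, rfl⟩ := atup_eq hn hij
  have hs : ∀ T : Fin (2 * n) → A, ∑ k, T k = T (e (.inl none)) + (T (e (.inl (some none))) +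
      ∑ k, T (e (.inl (some (some k))))) + ∑ k, T (e (.inr k)) := fun T => by
    rw [← e.sum_comp, Fintype.sum_sum_type, Fintype.sum_option, Fintype.sum_option]
  let I : Finset (Fin (2 * n)) := univ.map ⟨fun k => e (.inr k), e.injective.comp Sum.inr_injective⟩
  have hI : #I = n := by simp [I]
  let N : Finset (Fin (2 * n) → A) := {T | (∀ k, T k ∈ Λ.S) ∧ ∑ k, T k = Λ.ω ∧
    T (e (.inl none)) ∈ U ∧ T (e (.inl (some none))) ∈ U' ∧
    (Λ.W n).coeff (∑ k, T (e (.inr k))) = 1 ∧ Function.Injective fun k => T (e (.inr k))}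
  have b1 : #N = n.factorial * #{T ∈ U ×ˢ U' ×ˢ Fintype.piFinset fun _ : Fin (n - 2) => Λ.S |
      Sp Λ n (Λ.ω - T.1 - (T.2.1 + ∑ i, T.2.2 i))} := by
    rw [card_eq_sum_card_fiberwise (f := fun T => (T (e (.inl none)), T (e (.inl (some none))),
      fun k => T (e (.inl (some (some k)))))) (t := U ×ˢ U' ×ˢ Fintype.piFinset fun _ => Λ.S)
      fun T hT => by
        obtain ⟨c1, -, c3, c4, -⟩ := (mem_filter.1 hT).2
        simp [c1, c3, c4], card_filter, mul_sum]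
    refine sum_congr rfl fun z hz => ?_
    simp only [mem_product, Fintype.mem_piFinset] at hz
    rw [← card_image_of_injOn (f := fun T k => T (e (.inr k))) fun T hT T' hT' h => ?_,
      hTU1 q n c A (Fin n) Λ (Λ.ω - z.1 - (z.2.1 + ∑ i, z.2.2 i)) _ ed (Fintype.card_fin n)
        fun T => ⟨fun hT => ?_, fun ⟨c1, c2, c3, c4⟩ => ?_⟩]
    · simp
    · obtain ⟨T, h0, rfl⟩ := mem_image.1 hT
      obtain ⟨h3, rfl⟩ := mem_filter.1 h0
      obtain ⟨c1, c2, -, -, c5, c6⟩ := (mem_filter.1 h3).2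
      have : ∑ k, T (e (.inr k)) = Λ.ω - T (e (.inl none)) - (T (e (.inl (some none))) +
          ∑ k, T (e (.inl (some (some k))))) := by
        rw [← c2, hs]
        abel
      exact ⟨c6, fun k => c1 _, this, this ▸ c5⟩
    · refine mem_image.2 ⟨fun k => (e.symm k).elim (fun o => o.elim z.1 fun o => o.elim z.2.1 z.2.2)
        T, mem_filter.2 ⟨mem_filter.2 ⟨mem_univ _, fun k => ?_, ?_, ?_⟩, by simp⟩, by simp⟩
      · beta_reduce
        generalize e.symm k = o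
        rcases o with (_ | _ | k) | k
        exacts [hU hz.1, hU' hz.2.1, hz.2.2 k, c2 k]
      · simp [hs, c3]
      · simpa [hz.1, hz.2.1, c3, c4] using c1
    · have h' := (mem_filter.1 hT).2.trans (mem_filter.1 hT').2.symm
      simp only [Prod.mk.injEq] at h'
      refine e.surjective.injective_comp_right (funext fun k => ?_)
      rcases k with (_ | _ | k) | k
      exacts [h'.1, h'.2.1, congrFun h'.2.2 k, congrFun h k]
  have b2 : #{T ∈ Tu Λ | T (e (.inl none)) ∈ U ∧ T (e (.inl (some none))) ∈ U'} ≤ #N :=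
    card_le_card fun T hT => by
      obtain ⟨c1, c2⟩ := mem_filter.1 hT
      obtain ⟨d1, d2, d3, d4⟩ := mem_Tu.1 c1
      exact mem_filter.2 ⟨mem_univ _, d2, d3, c2.1, c2.2, by simpa [I] using d4 I hI,
        d1.comp (e.injective.comp Sum.inr_injective)⟩
  have b3 := (card_le_card (s := N) fun T hT => mem_union.2 (or_iff_not_imp_left.2 fun h => by
    obtain ⟨c1, c2, c3, c4, c5, -⟩ := (mem_filter.1 hT).2
    exact mem_filter.2 ⟨mem_univ _, c1, c2, ⟨I, hI, by simpa [I] using c5⟩,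
      fun h' => h (mem_filter.2 ⟨h', c3, c4⟩)⟩)).trans (card_union_le
    {T ∈ Tu Λ | T (e (.inl none)) ∈ U ∧ T (e (.inl (some none))) ∈ U'}
    {T : Fin (2 * n) → A | (∀ i, T i ∈ Λ.S) ∧ ∑ i, T i = Λ.ω ∧ (∃ I : Finset (Fin (2 * n)),
      #I = n ∧ (Λ.W n).coeff (∑ i ∈ I, T i) = 1) ∧ T ∉ Tu Λ})
  rw [← Nat.cast_mul, ← b1] at a1
  generalize #N = x at *
  generalize #{T ∈ Tu Λ | T (e (.inl none)) ∈ U ∧ T (e (.inl (some none))) ∈ U'} = y at *
  generalize (#U * #U' * q ^ (n - 2) : ℤ) = z at *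
  have a3 : (E : ℤ) * |(y : ℤ) - z| ≤ E * (|(x : ℤ) - z| + (x - y)) :=
    mul_le_mul_of_nonneg_left (by
      have := abs_sub_le (y : ℤ) x z
      rw [abs_sub_comm (y : ℤ) x, abs_of_nonneg (a := (x : ℤ) - y) (by omega)] at this
      linarith) (Nat.cast_nonneg _)
  zify at a2 b3
  push_cast at a1
  nlinarith [mul_le_mul_of_nonneg_left b3 (Nat.cast_nonneg (α := ℤ) E)]

end

section

open Polynomial Finset
open Pool.Agent.P.MP_9344a7_nt.R
open Pool.Agent.P.MP_9344a7_nt.Hy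
open Pool.Agent.P.MP_9344a7_nt.Od (GD Kp Fe)
open scoped Classical

variable {q n c : ℕ} {A : Type} [AddCommGroup A] [Fintype A] {Λ : LD q n A}

lemma apt1_ne (h : ED Λ c) (J : Finset (Fin (2 * n))) (κ : A) {E : Finset (Fin (2 * n) → A)}
    (hE : ∀ T ∈ E, (∀ i, T i ∈ Λ.S) ∧ ∑ i ∈ J, T i = ∑ i ∈ Jᶜ, T i + κ) (hn : n ≤ #J)
    (h1 : J = univ → κ ≠ Λ.ω) (h2 : #J = n → κ ≠ 0) : q * #E ≤ 4 ^ (2 * n) ^ 2 * c * q ^ n := by
  have j1 : #J ≤ 2 * n := by simpa using card_le_univ J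
  have a1 : (#E : ℤ) ≤ 4 ^ (2 * n) ^ 2 *
      ∑ a, (Λ.W (2 * n - #J)).coeff a * (Λ.W #J).coeff (a + κ) := by
    rw [card_eq_sum_card_fiberwise (f := fun T => ∑ i ∈ Jᶜ, T i) (t := univ) (by simp),
      Nat.cast_sum, mul_sum]
    refine sum_le_sum fun a _ => (h.two J (x := a + κ) (y := a) fun T hT => ?_).trans ?_
    · obtain ⟨b, rfl⟩ := mem_filter.1 hT
      exact ⟨(hE T b).1, (hE T b).2, rfl⟩
    rw [card_compl, Fintype.card_fin, mul_mul_mul_comm, mul_comm ((Λ.W #J).coeff _),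
      show (4 : ℤ) = 2 * 2 by norm_num, mul_pow]
    have := mul_nonneg (Λ.nn (2 * n - #J) a) (Λ.nn #J (a + κ))
    gcongr
    exacts [one_le_two, one_le_two, Nat.sub_le _ _]
  have a2 : q * ∑ a, (Λ.W (2 * n - #J)).coeff a * (Λ.W #J).coeff (a + κ) ≤ c * q ^ n := by
    rcases hn.eq_or_lt with e | e
    · rw [← e, show 2 * n - n = n by omega]
      exact h.gd.e1 n le_rfl κ (h2 e.symm)
    · have := h.exc (2 * n - #J) (by omega) κ fun e' => h1 (eq_univ_of_card _ (by simp; omega))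
      rwa [Nat.sub_sub_self j1] at this
  have := (mul_le_mul_of_nonneg_left a1 (Nat.cast_nonneg q)).trans ((mul_left_comm _ _ _).trans_le
    (mul_le_mul_of_nonneg_left a2 (by positivity)))
  rw [mul_assoc]
  exact_mod_cast this

lemma apt1_pair (h : ED Λ c) (hn : 2 ≤ n) {i j : Fin (2 * n)} (hij : i ≠ j) (z : A) :
    #{T ∈ Tu Λ | T i + T j = z} ≤ 4 ^ n ^ 2 * (c * q ^ (n - 2)) := by
  obtain ⟨J, j1, -, j2⟩ := exists_subsuperset_card_eq (subset_univ {i, j})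
    ((card_pair hij).trans_le hn) (show n ≤ _ by simp; omega)
  refine (h.tuc j2 (X := image (· + z) {b | (Λ.W (n - 2)).coeff b ≠ 0}) fun T hT => ?_).trans
    (Nat.mul_le_mul_left _ (card_image_le.trans (gd_supp h.gd (Nat.sub_le _ _))))
  obtain ⟨a, rfl⟩ := mem_filter.1 hT
  obtain ⟨-, a1, a2, a3⟩ := mem_Tu.1 a
  have := h.sum_ne (J := J \ {i, j}) fun l _ => a1 l
  rw [card_sdiff_of_subset j1, j2, card_pair hij] at this
  exact ⟨a1, a2, a3 J j2, mem_image.2 ⟨_, (mem_filter_univ _).2 this, by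
    rw [← sum_pair hij, sum_sdiff j1]⟩⟩

theorem p_PT1 :
    S_PT1 := by
  intro c n hn
  refine ⟨4 ^ (2 * n) ^ 2 * c + (4 ^ n ^ 2 * c + n * (4 ^ n ^ 2 * c)), ?_⟩
  intro q A _ _ Λ Λ' I t hq h h' h1 h2
  set E : Finset _ := {T ∈ Tu Λ | (∀ i ∈ I, T i - t i ∈ Λ'.S) ∧ ∀ i ∉ I, t i - T i ∈ Λ'.S} with hE
  obtain ⟨p, p1, p2⟩ : ∃ p : (Fin (2 * n) → A) → Fin (2 * n) → A,
      (∀ T, ∀ i ∈ I, p T i = T i - t i) ∧ ∀ T, ∀ i ∉ I, p T i = t i - T i :=
    ⟨fun T i => if i ∈ I then T i - t i else t i - T i, fun _ _ e => if_pos e, fun _ _ e => if_neg e⟩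
  have p3 : #(E.image p) = #E := card_image_of_injective _ fun T T' e => funext fun i => by
    have := congrFun e i
    by_cases hi : i ∈ I
    · simpa [p1 _ i hi] using this
    · simpa [p2 _ i hi] using this
  have p4 : ∀ T ∈ E, (∀ i, p T i ∈ Λ'.S) ∧
      ∑ i ∈ I, p T i = ∑ i ∈ Iᶜ, p T i + (Λ.ω - ∑ i, t i) := fun T hT => by
    obtain ⟨a, b, d⟩ := mem_filter.1 hT
    refine ⟨fun i => (em _).elim (fun e => p1 T i e ▸ b i e) fun e => p2 T i e ▸ d i e, ?_⟩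
    rw [sum_congr rfl (p1 T), sum_congr rfl fun i e => p2 T i (mem_compl.1 e), sum_sub_distrib,
      sum_sub_distrib, ← (mem_Tu.1 a).2.2.1, ← sum_add_sum_compl I T, ← sum_add_sum_compl I t]
    abel
  rw [add_mul]
  by_cases e : #I = n ∧ Λ.ω - ∑ i, t i = 0
  · refine le_add_left ?_
    have e1 : #Iᶜ = n := by rw [card_compl, Fintype.card_fin]; omega
    obtain ⟨j, hj⟩ := card_pos.1 (show 0 < #Iᶜ by omega)
    rw [add_mul, mul_assoc n]
    refine le_trans (Nat.mul_le_mul_left _ (card_le_card (t := {T ∈ Tu Λ | ∑ i ∈ I, T i ∈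
      image (· + ∑ i ∈ I, t i) {b | (Λ'.W n).coeff b ≠ 0 ∧ (Λ'.W n).coeff b ≠ 1}} ∪
        I.biUnion fun i => {T ∈ Tu Λ | T i + T j = t i + t j}) fun T hT => ?_))
      (mul_card_union ?_ (mul_card_biUnion e.1.le fun i hi => ?_))
    · obtain ⟨a, b⟩ := p4 T hT
      have d := (mem_filter.1 hT).1
      rw [e.2, add_zero] at b
      by_cases o : (Λ'.W n).coeff (∑ i ∈ I, p T i) = 1
      · have := h'.sum_ne (J := Iᶜ.erase j) fun l _ => a l
        rw [card_erase_of_mem hj, e1, sum_erase_eq_sub hj, ← b] at this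
        obtain ⟨i, hi, f⟩ := h'.uf31 (J := I) (fun l _ => a l) (by rwa [e.1]) (by omega) (a j)
          (by rwa [e.1])
        rw [p1 T i hi, p2 T j (mem_compl.1 hj), sub_eq_sub_iff_add_eq_add, add_comm (t j)] at f
        exact mem_union_right _ (mem_biUnion.2 ⟨i, hi, mem_filter.2 ⟨d, f⟩⟩)
      · have := h'.sum_ne (J := I) fun l _ => a l
        rw [e.1] at this
        exact mem_union_left _ (mem_filter.2 ⟨d, mem_image.2 ⟨_, (mem_filter_univ _).2 ⟨this, o⟩,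
          by rw [sum_congr rfl (p1 T), sum_sub_distrib, sub_add_cancel]⟩⟩)
    · refine (Nat.mul_le_mul_left _ ((h.tuc e.1 fun T hT => ⟨(mem_Tu.1 (mem_filter.1 hT).1).2.1,
        (mem_Tu.1 (mem_filter.1 hT).1).2.2.1, (mem_Tu.1 (mem_filter.1 hT).1).2.2.2 I e.1,
        (mem_filter.1 hT).2⟩).trans (Nat.mul_le_mul_left _ card_image_le))).trans ?_
      rw [mul_left_comm, mul_assoc]
      exact Nat.mul_le_mul_left _ (h'.big' le_rfl)
    · refine (Nat.mul_le_mul_left _ (apt1_pair h hn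
        (fun o : i = j => mem_compl.1 hj (o ▸ hi)) _)).trans ?_
      rw [mul_left_comm, mul_left_comm q, mul_assoc, ← pow_succ']
      gcongr
      omega
  refine le_add_right (p3 ▸ ?_)
  rcases le_or_gt n #I with o | o
  · exact apt1_ne h' I _ (forall_mem_image.2 fun T hT => p4 T hT) o
      (fun a b => h1 a (by rw [← b, sub_sub_cancel])) fun a b => e ⟨a, b⟩
  · have e1 : n < #Iᶜ := by rw [card_compl, Fintype.card_fin]; omega
    exact apt1_ne h' Iᶜ (-(Λ.ω - ∑ i, t i)) (forall_mem_image.2 fun T hT => ⟨(p4 T hT).1, by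
      rw [compl_compl, (p4 T hT).2, add_neg_cancel_right]⟩) e1.le
      (fun a b => h2 (by simpa using a) (by rw [← b]; abel)) fun a => absurd a e1.ne'

end

section

open Polynomial Finset
open Pool.Agent.P.MP_9344a7_nt.R
open Pool.Agent.P.MP_9344a7_nt.Hy
open Pool.Agent.P.MP_9344a7_nt.Od (GD Kp Fe)
open scoped Classical

lemma apat_cover {ι A : Type} [Fintype ι] [AddCommGroup A] [Fintype A] (X : Finset (ι → A))
    (S L U V : Finset A) (t : A → A) (w w' : A) (q m y : ℕ) (hL : #L ≤ m)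
    (hU : ∀ p ∈ U, t p ∈ L ∧ p - t p ∈ S) (hV : ∀ p ∈ V, t p ∈ L ∧ t p - p ∈ S)
    (h : ∀ (I : Finset ι) (τ : ι → A), (I = univ → ∑ i, τ i ≠ w) → (I = ∅ → ∑ i, τ i ≠ w') →
      q * #{T ∈ X | (∀ i ∈ I, T i - τ i ∈ S) ∧ ∀ i ∉ I, τ i - T i ∈ S} ≤ y) :
    q * #{T ∈ X | (∀ i, T i ∈ U ∪ V) ∧ ¬ ((∀ i, T i ∈ U) ∧ ∑ i, t (T i) = w) ∧
      ¬ ((∀ i, T i ∈ V) ∧ ∑ i, t (T i) = w')} ≤
      2 ^ Fintype.card ι * m ^ Fintype.card ι * y := by
  have hc : #{x ∈ (univ : Finset (Finset ι)) ×ˢ Fintype.piFinset (fun _ : ι => L) |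
      (x.1 = univ → ∑ i, x.2 i ≠ w) ∧ (x.1 = ∅ → ∑ i, x.2 i ≠ w')} ≤
      2 ^ Fintype.card ι * m ^ Fintype.card ι := by
    refine (card_filter_le _ _).trans ?_
    rw [card_product, card_univ, Fintype.card_finset, Fintype.card_piFinset, prod_const, card_univ]
    exact Nat.mul_le_mul_left _ (Nat.pow_le_pow_left hL _)
  have hb := mul_card_biUnion hc fun x hx => h x.1 x.2 (mem_filter.1 hx).2.1 (mem_filter.1 hx).2.2
  refine le_trans (Nat.mul_le_mul_left q (card_le_card fun T hT => ?_)) hb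
  obtain ⟨h0, h1, h2, h3⟩ := mem_filter.1 hT
  have hv : ∀ i, T i ∉ U → T i ∈ V := fun i hi => (mem_union.1 (h1 i)).resolve_left hi
  have hI : ∀ i, i ∈ ({i | T i ∈ U} : Finset ι) ↔ T i ∈ U := fun i => by simp
  refine mem_biUnion.2 ⟨((({i | T i ∈ U} : Finset ι)), fun i => t (T i)), mem_filter.2 ⟨mem_product.2
    ⟨mem_univ _, Fintype.mem_piFinset.2 fun i => ?_⟩, fun e f => h2 ⟨fun i => ?_, f⟩,
    fun e f => h3 ⟨fun i => hv i fun hi => ?_, f⟩⟩, mem_filter.2 ⟨h0, fun i hi => ?_,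
    fun i hi => ?_⟩⟩
  · by_cases hi : T i ∈ U
    · exact (hU _ hi).1
    · exact (hV _ (hv i hi)).1
  · exact (hI i).1 (eq_univ_iff_forall.1 e i)
  · exact eq_empty_iff_forall_notMem.1 e i ((hI i).2 hi)
  · exact (hU _ ((hI i).1 hi)).2
  · exact (hV _ (hv i fun h => hi ((hI i).2 h))).2

theorem p_PAT (hPT1 : S_PT1) :
    S_PAT := by
  intro c n a hn
  obtain ⟨K1, hK⟩ := hPT1 c n hn
  refine ⟨2 ^ (2 * n) * K1 + (a * (2 * n) + 1) + 1, ?_⟩
  intro q u A _ _ Λ Λ' L U V t hS hE hE' hL hU hV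
  have hq : 0 < q := hS.leq (Nat.succ_pos _) (Nat.succ_pos _)
  have hu : 2 ^ (2 * n) * K1 ≤ u := hS.le ((Nat.le_add_right _ _).trans (Nat.le_succ _))
  refine hS.tiny (e := a * (2 * n) + 1) (Nat.lt_succ_of_le (Nat.le_add_left _ _)) ?_
  have := apat_cover (Tu Λ) Λ'.S L U V t (Λ.ω - Λ'.ω) (Λ.ω + Λ'.ω) q _ (K1 * q ^ n) hL hU hV
    fun I τ h1 h2 => by convert hK q A Λ Λ' I τ hq hE hE' h1 h2
  rw [Fintype.card_fin, ← pow_mul u] at this
  calc _ ≤ 2 ^ (2 * n) * u ^ (a * (2 * n)) * (K1 * q ^ n) := by convert this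
    _ = 2 ^ (2 * n) * K1 * (u ^ (a * (2 * n)) * q ^ n) := by ring
    _ ≤ u * (u ^ (a * (2 * n)) * q ^ n) := Nat.mul_le_mul_right _ hu
    _ = u ^ (a * (2 * n) + 1) * q ^ n := by ring

end

section

open Polynomial Finset
open Pool.Agent.P.MP_9344a7_nt.R
open Pool.Agent.P.MP_9344a7_nt.Hy
open Pool.Agent.P.MP_9344a7_nt.Od (GD Kp Fe)
open scoped Classical

lemma asgn_cnt {q n M : ℕ} {A : Type} [AddCommGroup A] [Fintype A] {Λ : LD q n A} (hx : Mx Λ M)
    (hn : 2 ≤ n) (hq : 4 ≤ q) {U V N : Finset A} (hU : U ⊆ Λ.S) (hV : V ⊆ Λ.S) (hN : N ⊆ Λ.S)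
    (hN' : M * #N ≤ q) {X : Finset (Fin (2 * n) → A)} (hX : M * #X ≤ q ^ n)
    {i0 i1 : Fin (2 * n)} (ne : i0 ≠ i1)
    (cov : ∀ T ∈ Tu Λ, T i0 ∈ U → T i1 ∈ V → T ∈ X ∨ ∃ i, T i ∈ N) :
    M * (#U * #V) ≤ (6 * n + 2) * q ^ 2 := by
  have e : q ^ n = q ^ 2 * q ^ (n - 2) := by rw [← pow_add]; congr 1; omega
  have h1 : ∀ i ∈ (univ : Finset (Fin (2 * n))),
      M * #{T ∈ Tu Λ | T i ∈ N} ≤ 3 * q ^ n := by
    intro i _
    obtain ⟨j, hj⟩ : ∃ j, i ≠ j := by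
      by_cases h : i = i0
      · exact ⟨i1, h ▸ ne⟩
      · exact ⟨i0, h⟩
    have h2 := (mul_le_mul_of_nonneg_left (le_abs_self _) (by positivity)).trans
      (hx i j hj N hN Λ.S Subset.rfl)
    have h3 : ({T ∈ Tu Λ | T i ∈ N} : Finset _) = {T ∈ Tu Λ | T i ∈ N ∧ T j ∈ Λ.S} :=
      filter_congr fun T hT => ⟨fun h => ⟨h, (mem_Tu.1 hT).2.1 j⟩, fun h => h.1⟩
    have h4 : M * #N * #Λ.S * q ^ (n - 2) ≤ q * (2 * q) * q ^ (n - 2) :=
      Nat.mul_le_mul_right _ (Nat.mul_le_mul hN' (card_S Λ hq))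
    rw [h3]
    have e' : (q : ℤ) ^ n = q ^ 2 * q ^ (n - 2) := by exact_mod_cast e
    zify at h4 ⊢
    rw [e'] at h2 ⊢
    nlinarith
  have h5 : M * #{T ∈ Tu Λ | T i0 ∈ U ∧ T i1 ∈ V} ≤ q ^ n + 2 * n * (3 * q ^ n) := by
    refine le_trans (Nat.mul_le_mul_left _ (card_le_card ?_))
      (mul_card_union hX (mul_card_biUnion (by simp) h1))
    intro T hT
    obtain ⟨a, b, d⟩ := mem_filter.1 hT
    rcases cov T a b d with h | ⟨i, h⟩
    · exact mem_union_left _ h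
    · exact mem_union_right _ (mem_biUnion.2 ⟨i, mem_univ _, mem_filter.2 ⟨a, h⟩⟩)
  have h6 := (mul_le_mul_of_nonneg_left (neg_le_abs _) (by positivity)).trans
    (hx i0 i1 ne U hU V hV)
  refine Nat.le_of_mul_le_mul_right (c := q ^ (n - 2)) ?_ (by positivity)
  have e' : (q : ℤ) ^ n = q ^ 2 * q ^ (n - 2) := by exact_mod_cast e
  zify at h5 ⊢
  rw [e'] at h5 h6
  nlinarith

lemma asgn_fin {q n M E x y z w : ℕ} (hq : 0 < q) (hM : E * (24 * n + 9) + 4 = M)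
    (h1 : M * (x * y) ≤ (6 * n + 2) * q ^ 2) (h2 : y ≤ x) (h3 : M * z ≤ q)
    (h4 : 3 * q ≤ 4 * (x + y + z)) (h5 : w ≤ y + z) : E * w ≤ q := by
  have a1 : 4 * z ≤ q := le_trans (Nat.mul_le_mul_right _ (by omega)) h3
  have a2 : q ≤ 4 * x := by omega
  have a3 : M * y ≤ (24 * n + 8) * q := by
    refine Nat.le_of_mul_le_mul_right (c := q) ?_ hq
    calc M * y * q ≤ M * y * (4 * x) := Nat.mul_le_mul_left _ a2
      _ = 4 * (M * (x * y)) := by ring
      _ ≤ 4 * ((6 * n + 2) * q ^ 2) := Nat.mul_le_mul_left _ h1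
      _ = (24 * n + 8) * q * q := by ring
  refine Nat.le_of_mul_le_mul_left (c := 24 * n + 9) ?_ (by omega)
  calc (24 * n + 9) * (E * w) = E * (24 * n + 9) * w := by ring
    _ ≤ M * (y + z) := Nat.mul_le_mul (by omega) h5
    _ = M * y + M * z := by ring
    _ ≤ (24 * n + 8) * q + q := add_le_add a3 h3
    _ = (24 * n + 9) * q := by ring

theorem p_SGN (hPAT : S_PAT) :
    S_SGN := by
  intro c n a E hn
  obtain ⟨K0, hK⟩ := hPAT c n a hn
  obtain ⟨M, hM⟩ : ∃ M, E * (24 * n + 9) + 4 = M := ⟨_, rfl⟩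
  refine ⟨M, K0 + M, fun q u A _ _ Λ Λ' L sc ed ed' hx hL hN => ?_⟩
  have hq : 4 ≤ q := sc.leq (by omega) (by omega)
  have hu : M ≤ u := sc.le (by omega)
  set N : Finset A := {p ∈ Λ.S | Ul Λ' L p} with dN
  set U : Finset A := {p ∈ Λ.S | ∃ t ∈ L, p - t ∈ Λ'.S} with dU
  set V : Finset A := {p ∈ Λ.S | p ∉ U ∧ ∃ t ∈ L, t - p ∈ Λ'.S} with dV
  have dj : ∀ p ∈ U, p ∉ V := fun p h h' => (mem_filter.1 h').2.1 h
  have tri : ∀ p ∈ Λ.S, p ∈ U ∨ p ∈ V ∨ p ∈ N := by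
    intro p hp
    by_cases h : p ∈ U
    · exact .inl h
    by_cases h' : p ∈ V
    · exact .inr (.inl h')
    exact .inr (.inr (mem_filter.2 ⟨hp, fun t ht => ⟨fun e => h (mem_filter.2 ⟨hp, t, ht, e⟩),
      fun e => h' (mem_filter.2 ⟨hp, h, t, ht, e⟩)⟩⟩))
  obtain ⟨t, ht⟩ : ∃ t : A → A, ∀ p, (p ∈ U → t p ∈ L ∧ p - t p ∈ Λ'.S) ∧
      (p ∈ V → t p ∈ L ∧ t p - p ∈ Λ'.S) := by
    refine Classical.skolem (p := fun p t => (p ∈ U → t ∈ L ∧ p - t ∈ Λ'.S) ∧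
      (p ∈ V → t ∈ L ∧ t - p ∈ Λ'.S)) |>.1 fun p => ?_
    by_cases h : p ∈ U
    · obtain ⟨t, h1⟩ := (mem_filter.1 h).2
      exact ⟨t, fun _ => h1, fun h' => (dj p h h').elim⟩
    by_cases h' : p ∈ V
    · obtain ⟨t, h1⟩ := (mem_filter.1 h').2.2
      exact ⟨t, fun e => (h e).elim, fun _ => h1⟩
    exact ⟨0, fun e => (h e).elim, fun e => (h' e).elim⟩
  have hX := hK q u A Λ Λ' L U V t (sc.down (by omega)) ed ed' hL (fun p => (ht p).1)
    fun p => (ht p).2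
  have sU : U ⊆ Λ.S := filter_subset _ _
  have sV : V ⊆ Λ.S := filter_subset _ _
  let i0 : Fin (2 * n) := ⟨0, by omega⟩
  have h1 := asgn_cnt hx hn hq sU sV (filter_subset _ _) hN
    ((Nat.mul_le_mul_right _ hu).trans hX) (i0 := i0) (i1 := ⟨1, by omega⟩) (by simp [i0])
    (by
      intro T hT a b
      by_cases h : ∃ i, T i ∈ N
      · exact .inr h
      refine .inl (mem_filter.2 ⟨hT, fun i => ?_, fun e => dj _ (e.1 _) b, fun e => dj _ a (e.1 _)⟩)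
      rcases tri _ ((mem_Tu.1 hT).2.1 i) with e | e | e
      · exact mem_union_left _ e
      · exact mem_union_right _ e
      · exact (h ⟨i, e⟩).elim)
  have h2 : #Λ.S ≤ #U + #V + #N := by
    refine le_trans (card_le_card (t := U ∪ V ∪ N) fun p hp => ?_)
      ((card_union_le _ _).trans (Nat.add_le_add_right (card_union_le _ _) _))
    simpa only [mem_union, or_assoc] using tri p hp
  have h3 := Λ.lo
  rcases le_total #V #U with h | h
  · refine ⟨U, 1, t, ⟨sU, .inl rfl, fun p hp => by simpa using ((ht p).1 hp).2,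
      le_trans (card_le_card (image_subset_iff.2 fun p hp => ((ht p).1 hp).1)) hL,
      le_trans (Nat.mul_le_mul_left _ (card_le_card fun T hT => ?_)) hX⟩,
      asgn_fin (by omega) hM h1 h hN (by omega)
        (le_trans (card_le_card fun p hp => ?_) (card_union_le V N))⟩
    · obtain ⟨a, b, d⟩ := mem_filter.1 hT
      exact mem_filter.2 ⟨a, fun i => mem_union_left _ (b i), fun e => d (by simpa using e.2),
        fun e => dj _ (b i0) (e.1 _)⟩
    · exact mem_union.2 ((tri p (mem_sdiff.1 hp).1).resolve_left (mem_sdiff.1 hp).2)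
  · refine ⟨V, -1, t, ⟨sV, .inr rfl, fun p hp => by simpa using ((ht p).2 hp).2,
      le_trans (card_le_card (image_subset_iff.2 fun p hp => ((ht p).2 hp).1)) hL,
      le_trans (Nat.mul_le_mul_left _ (card_le_card fun T hT => ?_)) hX⟩,
      asgn_fin (by omega) hM (mul_comm #U #V ▸ h1) h hN (by omega)
        (le_trans (card_le_card fun p hp => ?_) (card_union_le U N))⟩
    · obtain ⟨a, b, d⟩ := mem_filter.1 hT
      exact mem_filter.2 ⟨a, fun i => mem_union_right _ (b i), fun e => dj _ (e.1 i0) (b _),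
        fun e => d (by simpa using e.2)⟩
    · rcases tri p (mem_sdiff.1 hp).1 with e | e | e
      · exact mem_union_left _ e
      · exact ((mem_sdiff.1 hp).2 e).elim
      · exact mem_union_right _ e

end

section

open Polynomial Finset
open Pool.Agent.P.MP_9344a7_nt.R
open Pool.Agent.P.MP_9344a7_nt.Hy
open Pool.Agent.P.MP_9344a7_nt.Od (GD Kp Fe)
open scoped Classical

lemma aap2_zero (hTDP : S_TDP) {q n c u a b K : ℕ} {A : Type} [AddCommGroup A] [Fintype A]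
    {Λ Λ' : LD q n A} {f : ℕ → ZA A} {U : Finset A} {ε : ℤ} {t : A → A} (w : A)
    (h : Sc A q u K) (hK : n * (n * (c * c)) + c + (a + b * n + 1) < K) (e : ED Λ c)
    (d : TD Λ u a) (e' : ED Λ' c) (hf : ∀ k, sz (f k) ≤ u * q ^ k) (l : Lab Λ Λ' U ε t u b) :
    ∃ Z : Finset A, u * #Z ≤ n * q ^ n + q ^ n ∧ ∀ x ∉ Z, Pm Λ n (Λ.ω - x) → ∀ τ,
      Ms U t n x τ → (Phi Λ' f).coeff (w + (-ε) • x) = 0 := by
  obtain ⟨Z, L, z1, z2, z3⟩ := hTDP q n c u a A Λ Λ' f w (-ε) (h.le (by omega)) e d e'.gd hf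
    (by rcases l.sg with r | r <;> simp [r])
  choose Y y1 y2 using ms_few U t
  have u0 : 0 < u := h.pos (by omega)
  let X : ℕ → A × A → Finset A := fun k z => {x | ∃ b ∈ ({b | (Λ'.W (n - k)).coeff b ≠ 0 ∧
    (Λ'.W (n - k)).coeff (z.1 - ε • z.2 - b) ≠ 0} : Finset A),
      (Λ.W k).coeff (x - (-ε) • (b - z.1)) ≠ 0}
  have h1 : q * #((Ioo 0 n).biUnion fun k => (L ×ˢ Y (n - k)).biUnion (X k)) ≤
      n * (n * u ^ a * u ^ (b * n) * (c * c * q ^ n)) := by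
    refine mul_card_biUnion (by simp) fun k hk => ?_
    obtain ⟨k0, k1⟩ := mem_Ioo.1 hk
    refine mul_card_biUnion ?_ fun z _ => ?_
    · rw [card_product]
      refine Nat.mul_le_mul z2 ((y1 _).trans ((Nat.pow_le_pow_left l.few _).trans ?_))
      rw [← pow_mul]
      exact Nat.pow_le_pow_right u0 (Nat.mul_le_mul_left _ (Nat.sub_le _ _))
    · refine (gd_add e.gd k1.le (e'.clf' (j := n - k) (by omega) (by omega) (z.1 - ε • z.2))
        (fun b => (-ε) • (b - z.1)) fun x hx => (mem_filter.1 hx).2).trans_eq ?_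
      rw [mul_mul_mul_comm, ← pow_add, Nat.sub_add_cancel k1.le]
  have h2 := h.tiny (e := a + b * n + 1) (z := q ^ n) (by omega) (h1.trans (by
    calc _ = n * (n * (c * c)) * (u ^ (a + b * n) * q ^ n) := by ring
      _ ≤ u * (u ^ (a + b * n) * q ^ n) := Nat.mul_le_mul_right _ (h.le (by omega))
      _ = _ := by ring))
  refine ⟨_, mul_card_union z1 h2, fun x hx hp τ hm => ?_⟩
  by_contra h0
  obtain ⟨k, k0, k1, b, b1, b2⟩ := phi_ne h0
  obtain ⟨s, hs, hb⟩ := z3 x (fun r => hx (mem_union_left _ r)) hp k k0 k1 b b1 b2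
  have h3 := e.res_one hp
  obtain ⟨V, rfl, v1, rfl, -⟩ := hm
  obtain ⟨V', a1, a2, a3⟩ := e.uf3 V k _ (fun p hp => l.sub (v1 p hp)) h3 k1.le hb
  obtain ⟨V'', rfl⟩ := Multiset.le_iff_exists_add.1 a1
  have m : Ms U t ((V' + V'').card - k) ((-ε) • (b - s)) (V''.map t).sum :=
    ⟨V'', by simp [a2], fun p hp => v1 p (Multiset.mem_add.2 (.inr hp)), by
      rw [Multiset.sum_add] at a3
      exact (sub_eq_iff_eq_add.1 a3.symm |> add_left_cancel), rfl⟩
  refine hx (mem_union_right _ (mem_biUnion.2 ⟨k, mem_Ioo.2 ⟨k0, k1⟩, mem_biUnion.2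
    ⟨(s, (V''.map t).sum), mem_product.2 ⟨hs, y2 _ _ _ m⟩, mem_filter.2 ⟨mem_univ _, b,
      mem_filter.2 ⟨mem_univ _, b1, ?_⟩, hb.1⟩⟩⟩))
  convert l.ms e' m using 2
  rcases l.sg with rfl | rfl <;> simp <;> abel

theorem p_AP2 (hTDP : S_TDP) :
    S_AP2 := by
  intro c n a b
  refine ⟨n * (n * (c * c)) + c + (a + b * n + 1) + n + 3,
    fun q u M A _ _ Λ Λ' P s f U ε t w h d l => ?_⟩
  have H := fun w => aap2_zero hTDP w h (by omega) d.ad.ed d.ad.td d.ad'.ed d.sd.sz l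
  rcases l.sg with rfl | rfl
  · obtain ⟨Z, z1, z2⟩ := H (Λ'.ω + s - w)
    obtain ⟨X, x1, x2⟩ := d.sd'.sym d.ad'.ed d.pk
    refine ⟨Z ∪ X.image (· - w), (mul_card_union z1 ((Nat.mul_le_mul_left _
      card_image_le).trans x1)).trans ?_, fun x hx hp τ hm => ?_⟩
    · rw [← add_one_mul, ← add_mul]
      exact Nat.mul_le_mul_right _ (by omega)
    · have h1 := z2 x (fun r => hx (mem_union_left _ r)) hp τ hm
      have h2 := x2 (x + w) fun r => hx (mem_union_right _ (mem_image.2 ⟨_, r, by simp⟩))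
      rwa [show Λ'.ω + s - (x + w) = Λ'.ω + s - w + (-1 : ℤ) • x by simp; abel, h1,
        add_zero] at h2
  · obtain ⟨Z, z1, z2⟩ := H w
    refine ⟨Z, z1.trans ?_, fun x hx hp τ hm => ?_⟩
    · rw [← add_one_mul]
      exact Nat.mul_le_mul_right _ (by omega)
    · have h1 := z2 x hx hp τ hm
      rw [neg_neg, one_smul, add_comm] at h1
      rw [h1]
      exact Even.zero

end

end Pool.Agent.P.MP_9344a7_nt.Ac
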