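import Pool.Agent.P.MP_9344a7_nt.Ac.IfaceA
import Pool.Agent.P.MP_9344a7_nt.Ac.BaseB
import Pool.Agent.P.MP_9344a7_nt.Ac.Iface

/-! Steps AP3, AP, BOOT, MM1, MOM, ADD2. -/

set_option linter.unusedVariables false
set_option linter.unusedSectionVars false

namespace Pool.Agent.P.MP_9344a7_nt.Ac

section

open Polynomial Finset
open Pool.Agent.P.MP_9344a7_nt.R
open Pool.Agent.P.MP_9344a7_nt.Hy
open Pool.Agent.P.MP_9344a7_nt.Od (GD Kp Fe)
open scoped Classical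

theorem p_AP3 :
    S_AP3 := by
  intro c n b
  refine ⟨2 * c + b * n + 2, fun q u A _ _ Λ Λ' P U ε t w sc ed kp lab => ?_⟩
  obtain ⟨Y, a1, a2⟩ := ms_few U t n
  let B : A → Finset A := fun τ =>
    univ.filter (fun y => (Λ'.W n).coeff y ≠ 0 ∧ (Λ'.W n).coeff y ≠ 1) ∪ univ.filter fun y =>
      (Λ'.W n).coeff y = 1 ∧ (P * Λ'.W n).coeff (y + (w + τ)) ≠ P.coeff (w + τ)
  refine ⟨Y.biUnion fun τ => (B (τ - kap Λ' ε)).image (· + (τ - kap Λ' ε)),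
    sc.tiny (e := b * n + 1) (by omega) ?_, fun x hx τ hτ => ?_⟩
  · refine (mul_card_biUnion (a1.trans (Nat.pow_le_pow_left lab.few n)) fun τ _ =>
      (Nat.mul_le_mul_left _ card_image_le).trans
        (mul_card_union (ed.big' le_rfl) (gd_pwt ed.gd kp _))).trans ?_
    have := sc.om1 (x := 2 * c) (by omega) (by omega)
    calc _ = u ^ (b * n) * (c * 1 + c * om A) * q ^ n := by ring
      _ ≤ u ^ (b * n) * (c * om A + c * om A) * q ^ n := by gcongr; exact one_le_om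
      _ ≤ u ^ (b * n) * u * q ^ n := by gcongr; linarith
      _ = _ := by ring
  have b1 : (Λ'.W n).coeff (x - (τ - kap Λ' ε)) ≠ 0 := by
    have := lab.ms ed hτ
    rcases lab.sg with rfl | rfl
    · simpa [kap] using this
    · rw [← ed.sym] at this
      convert this using 2
      simp only [kap, Int.reduceNeg, Int.reduceEq, if_false]
      abel
  have b2 : x - (τ - kap Λ' ε) ∉ B (τ - kap Λ' ε) := fun e =>
    hx (mem_biUnion.2 ⟨τ, a2 x τ hτ, mem_image.2 ⟨_, e, by simp⟩⟩)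
  simp only [B, mem_union, mem_filter, mem_univ, true_and, not_or, not_and, not_not] at b2
  rw [← b2.2 (b2.1 b1)]
  congr 1
  abel

end

section

open Polynomial Finset
open Pool.Agent.P.MP_9344a7_nt.R
open Pool.Agent.P.MP_9344a7_nt.Hy
open Pool.Agent.P.MP_9344a7_nt.Od (GD Kp Fe)
open scoped Classical

theorem p_AP (hRL1 : S_RL1) (hJMP : S_JMP) (hAP2 : S_AP2) (hAP3 : S_AP3) :
    S_AP := by
  intro c n a b C
  obtain ⟨K1, h1⟩ := hRL1 c n a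
  obtain ⟨K2, h2⟩ := hAP2 c n a b
  obtain ⟨K3, h3⟩ := hAP3 c n b
  obtain ⟨K4, h4⟩ := hJMP c n C (K1 + K2 + 2)
  refine ⟨K1 + K2 + K3 + K4, fun q u M A _ _ Λ Λ' P s f U ε t sc dx lab gap => ?_⟩
  choose Z1 a1 b1 using fun w => h1 q u A Λ P s f w (sc.down (by omega)) dx.ad.ed dx.ad.td dx.pk
    dx.sd
  choose Z2 a2 b2 using fun w => h2 q u M A Λ Λ' P s f U ε t w (sc.down (by omega)) dx lab
  choose Z3 a3 b3 using fun w => h3 q u A Λ Λ' P U ε t w (sc.down (by omega)) dx.ad'.ed dx.pk.kp lab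
  obtain ⟨X, a4, b4⟩ := dx.sd'.par
  refine h4 q u A Λ P s _ (Λ.ω + s) (f n).coeff
    (fun w => Z1 w ∪ Z2 w ∪ Z3 w ∪ X.image (· - w)) _ (sc.down (by omega)) dx.ad.ed.gd dx.pk gap
    dx.sd.odd (fun w => ?_) fun x hx => ?_
  · refine (mul_card_union (mul_card_union (mul_card_union (a1 w) (a2 w)) (a3 w))
      ((Nat.mul_le_mul_left _ card_image_le).trans a4)).trans ?_
    calc _ = (K1 + K2 + 2) * 1 * q ^ n := by ring
      _ ≤ _ := by gcongr; exact one_le_om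
  obtain ⟨c1, τ, c2, c3⟩ := (mem_filter.1 hx).2
  refine ⟨dx.ad.ed.res_one c1 ▸ one_ne_zero, _, .inr ⟨_, c3, fun _ => rfl⟩, fun w _ hw => ?_⟩
  simp only [mem_union, not_or] at hw
  refine ⟨(b1 w x hw.1.1.1 c1).2, ?_⟩
  obtain ⟨k, hk⟩ := b4 (x + w) fun e => hw.2 (mem_image.2 ⟨_, e, by simp⟩)
  obtain ⟨k', hk'⟩ := b2 w x hw.1.1.2 c1 τ c2
  rw [b3 w x hw.1.2 τ c2] at hk
  rw [show Λ.ω + s - (Λ.ω - Λ'.ω) = Λ'.ω + s by abel]
  exact ⟨k - k', by omega⟩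

end

section

open Polynomial Finset
open Pool.Agent.P.MP_9344a7_nt.R
open Pool.Agent.P.MP_9344a7_nt.Hy
open Pool.Agent.P.MP_9344a7_nt.Od (GD Kp Fe)
open scoped Classical

lemma aboot_num {n E M q Q v s β : ℕ} (hq : 0 < q) (hQ : 0 < Q) (hM : M = E * (4 * n + 4) + 1)
    (hs : 3 * q ≤ 4 * s) (hβ : 16 * n * β ≤ q)
    (h : M * (v * s * Q) ≤ Q * q ^ 2 + (Q * q ^ 2 + 2 * n * (M * (v * β * Q) + Q * q ^ 2))) :
    E * v ≤ q := by
  have h1 : M * v * s ≤ (2 * n + 2) * q ^ 2 + 2 * n * β * (M * v) :=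
    Nat.le_of_mul_le_mul_left (by linarith only [h]) hQ
  have h2 := Nat.mul_le_mul_left (M * v) hs
  have h3 := Nat.mul_le_mul_left (M * v) hβ
  have h4 : 5 * (M * v) ≤ 8 * (2 * n + 2) * q :=
    Nat.le_of_mul_le_mul_left (by linarith only [h1, h2, h3]) hq
  have h5 : (2 * n + 2) * (10 * (E * v)) ≤ (2 * n + 2) * (8 * q) := by
    rw [hM] at h4
    linarith only [h4, Nat.zero_le v]
  have := Nat.le_of_mul_le_mul_left h5 (by omega)
  omega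

theorem p_BOOT :
    S_BOOT := by
  intro n E hn
  refine ⟨E * (4 * n + 4) + 1, fun q u b D A _ _ Λ Λ' U ε t θ w hq hu hM hL hB => ?_⟩
  generalize hMM : E * (4 * n + 4) + 1 = M at hu hM
  obtain ⟨i0, i1, hi⟩ : ∃ i0 i1 : Fin (2 * n), i0 ≠ i1 :=
    ⟨⟨0, by omega⟩, ⟨1, by omega⟩, by simp⟩
  refine ⟨Λ.ω - ε • Λ'.ω - ∑ _j ∈ univ.erase i0, w, ?_⟩
  set V := {p ∈ U | ¬ Nr θ (2 * n * D) (t p - (Λ.ω - ε • Λ'.ω - ∑ _j ∈ univ.erase i0, w))} with hV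
  set B := {p ∈ Λ.S | ¬ (p ∈ U ∧ Nr θ D (t p - w))} with hB'
  have hVS : V ⊆ Λ.S := (filter_subset _ _).trans hL.sub
  have hc : #(univ.erase i0) ≤ 2 * n := card_erase_le.trans (by simp)
  have hq2 : q ^ n = q ^ (n - 2) * q ^ 2 := by rw [← pow_add]; congr 1; omega
  have cov : {T ∈ Tu Λ | T i0 ∈ V ∧ T i1 ∈ Λ.S} ⊆
      {T ∈ Tu Λ | (∀ i, T i ∈ U) ∧ ∑ i, t (T i) ≠ Λ.ω - ε • Λ'.ω} ∪
        (univ.erase i0).biUnion fun j => {T ∈ Tu Λ | T i0 ∈ V ∧ T j ∈ B} := by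
    intro T hT
    obtain ⟨hT, h0, -⟩ := mem_filter.1 hT
    by_contra hcon
    rw [mem_union, not_or] at hcon
    have h1 : ∀ j ∈ univ.erase i0, T j ∈ U ∧ Nr θ D (t (T j) - w) := fun j hj => by
      by_contra h
      exact hcon.2 (mem_biUnion.2 ⟨j, hj, mem_filter.2 ⟨hT, h0,
        mem_filter.2 ⟨(mem_Tu.1 hT).2.1 j, h⟩⟩⟩)
    obtain ⟨h2, h3⟩ := mem_filter.1 h0
    have h4 : ∑ i, t (T i) = Λ.ω - ε • Λ'.ω := by
      by_contra h
      refine hcon.1 (mem_filter.2 ⟨hT, fun i => ?_, h⟩)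
      by_cases hi : i = i0
      · rwa [hi]
      · exact (h1 i (mem_erase.2 ⟨hi, mem_univ _⟩)).1
    refine h3 ?_
    have h5 := ((Nr.sum fun j hj => (h1 j hj).2).neg).up (Nat.mul_le_mul_right D hc)
    rw [← h4, ← add_sum_erase _ _ (mem_univ i0)]
    rw [sum_sub_distrib] at h5
    convert h5 using 1
    abel
  have e1 : M * (#V * #Λ.S * q ^ (n - 2)) ≤
      q ^ n + M * #{T ∈ Tu Λ | T i0 ∈ V ∧ T i1 ∈ Λ.S} := by
    have h := hM i0 i1 hi V hVS Λ.S subset_rfl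
    have h' := mul_le_mul_of_nonneg_left (neg_le_abs
      ((#{T ∈ Tu Λ | T i0 ∈ V ∧ T i1 ∈ Λ.S} : ℤ) - #V * #Λ.S * q ^ (n - 2))) (Int.natCast_nonneg M)
    zify
    linarith only [h, h']
  have e2 : ∀ j ∈ univ.erase i0, M * #{T ∈ Tu Λ | T i0 ∈ V ∧ T j ∈ B} ≤
      M * (#V * #B * q ^ (n - 2)) + q ^ n := fun j hj => by
    have h := hM i0 j (mem_erase.1 hj).1.symm V hVS B (filter_subset _ _)
    have h' := mul_le_mul_of_nonneg_left (le_abs_self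
      ((#{T ∈ Tu Λ | T i0 ∈ V ∧ T j ∈ B} : ℤ) - #V * #B * q ^ (n - 2))) (Int.natCast_nonneg M)
    zify
    linarith only [h, h']
  have e3 := (Nat.mul_le_mul_left M (card_le_card cov)).trans (mul_card_union
    ((Nat.mul_le_mul_right _ hu).trans hL.pat) (mul_card_biUnion hc e2))
  refine aboot_num hq (pow_pos hq (n - 2)) hMM.symm Λ.lo hB ?_
  rw [← hq2]
  exact e1.trans (Nat.add_le_add_left e3 _)

end

section

open Polynomial Finset
open Pool.Agent.P.MP_9344a7_nt.R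
open Pool.Agent.P.MP_9344a7_nt.Hy
open Pool.Agent.P.MP_9344a7_nt.Od (GD Kp Fe)
open scoped Classical

lemma amm1_fib {ι κ : Type} [DecidableEq κ] {s : Finset ι} {t : Finset κ} {g : ι → κ}
    (h : ∀ i ∈ s, g i ∈ t) (F : κ → ℝ) :
    ∑ i ∈ s, F (g i) = ∑ a ∈ t, (#{i ∈ s | g i = a} : ℝ) * F a := by
  rw [← sum_fiberwise_of_maps_to' h]
  simp only [sum_const, nsmul_eq_mul]

lemma amm1_lev {q n : ℕ} {A : Type} [AddCommGroup A] [Fintype A] {Λ : LD q n A} {M D : ℕ}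
    (h : Mx Λ M) {k : A → ℤ} (hk : ∀ p, |k p| ≤ D) {i j : Fin (2 * n)} (hij : i ≠ j)
    (F G : ℤ → ℝ) {B B' : ℝ} (hF : ∀ a : ℤ, |a| ≤ D → |F a| ≤ B)
    (hG : ∀ a : ℤ, |a| ≤ D → |G a| ≤ B') :
    M * |∑ T ∈ Tu Λ, F (k (T i)) * G (k (T j)) -
      q ^ (n - 2) * ((∑ p ∈ Λ.S, F (k p)) * ∑ p ∈ Λ.S, G (k p))| ≤
      (2 * D + 1) ^ 2 * (q ^ n * (B * B')) := by
  have hI : ∀ p, k p ∈ Icc (-D : ℤ) D := fun p => mem_Icc.2 (abs_le.1 (hk p))
  have hc : (#(Icc (-D : ℤ) D ×ˢ Icc (-D : ℤ) D) : ℝ) = (2 * D + 1) ^ 2 := by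
    rw [card_product, Int.card_Icc, show ((D : ℤ) + 1 - -D).toNat = 2 * D + 1 by omega]
    push_cast
    ring
  rw [amm1_fib (g := fun T : Fin (2 * n) → A => (k (T i), k (T j)))
    (fun T _ => mk_mem_product (hI _) (hI _)) fun x => F x.1 * G x.2,
    amm1_fib (fun p _ => hI p) F, amm1_fib (fun p _ => hI p) G, sum_mul_sum, ← sum_product',
    mul_sum, ← sum_sub_distrib, ← hc, ← nsmul_eq_mul (#_)]
  refine (mul_le_mul_of_nonneg_left (abs_sum_le_sum_abs _ _) (M.cast_nonneg (α := ℝ))).trans ?_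
  rw [mul_sum]
  refine sum_le_card_nsmul _ _ _ fun x hx => ?_
  obtain ⟨h1, h2⟩ := mem_product.1 hx
  have h3 := h i j hij {p ∈ Λ.S | k p = x.1} (filter_subset _ _) {p ∈ Λ.S | k p = x.2}
    (filter_subset _ _)
  have h4 : {T ∈ Tu Λ | T i ∈ {p ∈ Λ.S | k p = x.1} ∧ T j ∈ {p ∈ Λ.S | k p = x.2}} =
      {T ∈ Tu Λ | (k (T i), k (T j)) = x} := filter_congr fun T hT => by
    simp [(mem_Tu.1 hT).2.1, Prod.ext_iff]
  rw [h4] at h3
  have h5 : (M : ℝ) * |(#{T ∈ Tu Λ | (k (T i), k (T j)) = x} : ℝ) -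
      #{p ∈ Λ.S | k p = x.1} * #{p ∈ Λ.S | k p = x.2} * q ^ (n - 2)| ≤ q ^ n := by
    exact_mod_cast h3
  have h6 := hF _ (abs_le.2 (mem_Icc.1 h1))
  have h7 : |F x.1 * G x.2| ≤ B * B' := by
    rw [abs_mul]
    exact mul_le_mul h6 (hG _ (abs_le.2 (mem_Icc.1 h2))) (abs_nonneg _) ((abs_nonneg _).trans h6)
  refine le_trans (le_of_eq ?_) (mul_le_mul h5 h7 (abs_nonneg _) (by positivity))
  rw [mul_assoc (M : ℝ), ← abs_mul]
  congr 2
  ring

theorem p_MM1 :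
    S_MM1 := by
  intro n E D hn
  obtain ⟨K, hK⟩ : ∃ K : ℕ, (K : ℝ) = (2 * D + 1) ^ 2 * (2 * D * (2 * D)) +
      2 * n * ((2 * D + 1) ^ 2 * (2 * D * (2 * D))) + 4 * n * D * ((2 * D + 1) ^ 2 * (2 * D)) +
      2 * D * (4 * n * D) + 1 := ⟨(2 * D + 1) ^ 2 * (2 * D * (2 * D)) +
      2 * n * ((2 * D + 1) ^ 2 * (2 * D * (2 * D))) + 4 * n * D * ((2 * D + 1) ^ 2 * (2 * D)) +
      2 * D * (4 * n * D) + 1, by push_cast; ring⟩
  refine ⟨6 * K * E, fun q A _ _ Λ k σ hq hM hk hσ hb => ?_⟩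
  generalize hMe : 6 * K * E = M at hM hb
  have hq0 : (0 : ℝ) < q := by exact_mod_cast (by omega : 0 < q)
  have hS : (3 * q : ℝ) ≤ 4 * #Λ.S := by exact_mod_cast Λ.lo
  have hS0 : (0 : ℝ) < #Λ.S := by linarith
  have hD : ∀ a : ℤ, |a| ≤ D → |(a : ℝ)| ≤ D := fun a h => by exact_mod_cast h
  obtain ⟨μ, hμ, hμD⟩ : ∃ μ : ℝ, ∑ p ∈ Λ.S, ((k p : ℝ) - μ) = 0 ∧ |μ| ≤ D := by
    refine ⟨(∑ p ∈ Λ.S, (k p : ℝ)) / #Λ.S, ?_, ?_⟩
    · rw [sum_sub_distrib, sum_const, nsmul_eq_mul, mul_div_cancel₀ _ hS0.ne', sub_self]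
    · rw [abs_div, abs_of_pos hS0, div_le_iff₀' hS0, ← nsmul_eq_mul]
      exact (abs_sum_le_sum_abs _ _).trans (sum_le_card_nsmul _ _ _ fun p _ => hD _ (hk p))
  have hφ : ∀ a : ℤ, |a| ≤ D → |(a : ℝ) - μ| ≤ 2 * D := fun a h =>
    (abs_sub _ _).trans (by linarith [hD a h])
  have hφ2 : ∀ a : ℤ, |a| ≤ D → |((a : ℝ) - μ) ^ 2| ≤ 2 * D * (2 * D) := fun a h => by
    rw [abs_pow, sq]
    exact mul_self_le_mul_self (abs_nonneg _) (hφ a h)
  have h1 : ∀ a : ℤ, |a| ≤ D → |(1 : ℝ)| ≤ 1 := fun _ _ => abs_one.le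
  obtain ⟨i, j, hij⟩ : ∃ i j : Fin (2 * n), i ≠ j := ⟨⟨0, by omega⟩, ⟨1, by omega⟩, by simp⟩
  have a0 := amm1_lev hM hk hij (fun a => (a - μ) ^ 2) (fun _ => 1) hφ2 h1
  have a1 := amm1_lev hM hk hij (fun a => a - μ) (fun _ => 1) hφ h1
  have a2 := fun l (hl : l ∈ univ.erase i) => amm1_lev hM hk (ne_of_mem_erase hl).symm
    (fun a => a - μ) (fun a => a - μ) hφ hφ
  simp only [hμ, zero_mul, mul_zero, sub_zero, mul_one, sum_const, nsmul_eq_mul] at a0 a1 a2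
  have hσ' : |(σ : ℝ)| ≤ 2 * n * D := by exact_mod_cast hσ
  have hc : |2 * n * μ - σ| ≤ 4 * n * D := by
    refine (abs_sub _ _).trans ?_
    rw [abs_mul, abs_of_nonneg (by positivity)]
    linarith [mul_le_mul_of_nonneg_left hμD (by positivity : (0 : ℝ) ≤ 2 * n)]
  have a3 : (M : ℝ) * |∑ T ∈ Tu Λ, ((k (T i) : ℝ) - μ) * (∑ l, (k (T l) : ℝ) - σ)| ≤
      q ^ n * (2 * D * (4 * n * D)) := by
    rw [← sum_filter_of_ne (p := fun T => ∑ l, k (T l) ≠ σ) fun T _ h e => h (by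
      rw [← e]; simp)]
    refine (mul_le_mul_of_nonneg_left ((abs_sum_le_sum_abs _ _).trans (sum_le_card_nsmul _ _
      (2 * D * (4 * n * D) : ℝ) fun T _ => ?_)) M.cast_nonneg).trans ?_
    · rw [abs_mul]
      refine mul_le_mul (hφ _ (hk _)) ((abs_sub _ _).trans ?_) (abs_nonneg _) (by positivity)
      have := (abs_sum_le_sum_abs _ _).trans
        (sum_le_card_nsmul univ _ _ fun l _ => hD _ (hk (T l)))
      simp only [card_univ, Fintype.card_fin, nsmul_eq_mul, Nat.cast_mul, Nat.cast_ofNat] at this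
      linarith
    · rw [nsmul_eq_mul, ← mul_assoc]
      exact mul_le_mul_of_nonneg_right (by exact_mod_cast hb) (by positivity)
  have a4 : (M : ℝ) * |∑ l ∈ univ.erase i, ∑ T ∈ Tu Λ, ((k (T i) : ℝ) - μ) * (k (T l) - μ)| ≤
      2 * n * ((2 * D + 1) ^ 2 * (q ^ n * (2 * D * (2 * D)))) := by
    refine (mul_le_mul_of_nonneg_left (abs_sum_le_sum_abs _ _) M.cast_nonneg).trans ?_
    rw [mul_sum]
    refine (sum_le_card_nsmul _ _ _ a2).trans ?_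
    rw [nsmul_eq_mul]
    refine mul_le_mul_of_nonneg_right ?_ (by positivity)
    exact_mod_cast card_erase_le.trans (by simp)
  have a5 : ∑ T ∈ Tu Λ, ((k (T i) : ℝ) - μ) ^ 2 =
      ∑ T ∈ Tu Λ, ((k (T i) : ℝ) - μ) * (∑ l, (k (T l) : ℝ) - σ) -
      ∑ l ∈ univ.erase i, ∑ T ∈ Tu Λ, ((k (T i) : ℝ) - μ) * (k (T l) - μ) -
      (2 * n * μ - σ) * ∑ T ∈ Tu Λ, ((k (T i) : ℝ) - μ) := by
    rw [sum_comm, mul_sum, ← sum_sub_distrib, ← sum_sub_distrib]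
    refine sum_congr rfl fun T _ => ?_
    rw [← mul_sum, sum_erase_eq_sub (mem_univ i), sum_sub_distrib]
    simp only [sum_const, card_univ, Fintype.card_fin, nsmul_eq_mul, Nat.cast_mul, Nat.cast_ofNat]
    ring
  have a6 : (M : ℝ) * |(2 * n * μ - σ) * ∑ T ∈ Tu Λ, ((k (T i) : ℝ) - μ)| ≤
      4 * n * D * ((2 * D + 1) ^ 2 * (q ^ n * (2 * D))) := by
    rw [abs_mul, mul_left_comm]
    exact mul_le_mul hc a1 (by positivity) (by positivity)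
  have ab : ∀ x : ℝ, M * x ≤ M * |x| ∧ -(M * x) ≤ M * |x| := fun x => by
    rw [← mul_neg]
    exact ⟨mul_le_mul_of_nonneg_left (le_abs_self x) M.cast_nonneg,
      mul_le_mul_of_nonneg_left (neg_le_abs x) M.cast_nonneg⟩
  have hn2 : (q : ℝ) ^ n = q ^ (n - 2) * (q * q) := by
    rw [← sq, ← pow_add, Nat.sub_add_cancel hn]
  have a7 : (q : ℝ) ^ (n - 2) * (M * (∑ p ∈ Λ.S, ((k p : ℝ) - μ) ^ 2) * #Λ.S) ≤
      q ^ (n - 2) * (K * q * q) := by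
    have b0 := (ab _).2.trans a0
    have b3 := (ab _).1.trans a3
    have b4 := (ab _).2.trans a4
    have b6 := (ab _).2.trans a6
    rw [a5] at b0
    have b7 : (0 : ℝ) ≤ q ^ n := by positivity
    rw [mul_assoc (K : ℝ), mul_left_comm _ (K : ℝ), ← hn2, hK]
    linarith
  replace a7 := le_of_mul_le_mul_left a7 (by positivity)
  refine ⟨round μ, ?_⟩
  have a8 : (#{p ∈ Λ.S | k p ≠ round μ} : ℝ) * (1 / 4) ≤ ∑ p ∈ Λ.S, ((k p : ℝ) - μ) ^ 2 := by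
    rw [← nsmul_eq_mul]
    refine (card_nsmul_le_sum _ _ _ fun p hp => ?_).trans
      (sum_le_sum_of_subset_of_nonneg (filter_subset _ _) fun _ _ _ => sq_nonneg _)
    have c1 : (1 : ℝ) ≤ |(k p : ℝ) - round μ| := by
      exact_mod_cast Int.one_le_abs (sub_ne_zero.2 (mem_filter.1 hp).2)
    have c2 := abs_sub_le (k p : ℝ) μ (round μ)
    rw [← sq_abs]
    exact le_trans (by norm_num) (pow_le_pow_left₀ (by norm_num : (0 : ℝ) ≤ 1 / 2)
      (by linarith only [c1, c2, abs_sub_round μ]) 2)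
  have hK0 : (0 : ℝ) < K := by rw [hK]; positivity
  have a9 : (6 * K * E : ℝ) = M := by exact_mod_cast hMe
  have b1 : (K * q : ℝ) * (9 / 8 * (E * #{p ∈ Λ.S | k p ≠ round μ})) ≤ K * q * q := by
    refine le_trans (le_of_eq ?_) ((mul_le_mul (mul_le_mul_of_nonneg_left a8 M.cast_nonneg)
      (by linarith : 3 / 4 * (q : ℝ) ≤ #Λ.S) (by positivity) (by positivity)).trans a7)
    rw [← a9]
    ring
  have b2 := le_of_mul_le_mul_left b1 (by positivity)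
  have b3 : ((E * #{p ∈ Λ.S | k p ≠ round μ} : ℕ) : ℝ) ≤ q := by
    push_cast
    linarith [(by positivity : (0 : ℝ) ≤ E * #{p ∈ Λ.S | k p ≠ round μ})]
  exact_mod_cast b3

end

section

open Polynomial Finset
open Pool.Agent.P.MP_9344a7_nt.R
open Pool.Agent.P.MP_9344a7_nt.Hy
open Pool.Agent.P.MP_9344a7_nt.Od (GD Kp Fe)
open scoped Classical

lemma amom_ord {A : Type} [AddCommGroup A] [Fintype A] {N : ℕ} {θ : A} {m : ℤ}
    (h : ∀ l, l.Prime → l ∣ Nat.card A → N < l) (h0 : θ ≠ 0) (hm : m • θ = 0) (hN : |m| ≤ N) :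
    m = 0 := by
  have h1 : addOrderOf θ ≠ 1 := fun e => h0 (AddMonoid.addOrderOf_eq_one_iff.1 e)
  have h2 := h _ (Nat.minFac_prime h1) ((Nat.minFac_dvd _).trans (addOrderOf_dvd_natCard θ))
  have h3 := Nat.minFac_le (addOrderOf_pos θ)
  exact Int.eq_zero_of_abs_lt_dvd (addOrderOf_dvd_iff_zsmul_eq_zero.2 hm) (by omega)

lemma amom_one {q n M : ℕ} {A : Type} [AddCommGroup A] [Fintype A] {Λ : LD q n A} (hn : 2 ≤ n)
    (hq : 4 ≤ q) (hM : Mx Λ M) {B : Finset A} (hB : B ⊆ Λ.S) (h : M * #B ≤ q) (i : Fin (2 * n)) :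
    M * #{T ∈ Tu Λ | T i ∈ B} ≤ 3 * q ^ n := by
  obtain ⟨j, hj⟩ : ∃ j : Fin (2 * n), i ≠ j := by
    by_cases e : i.val = 0
    · exact ⟨⟨1, by omega⟩, fun a => by simp [a] at e⟩
    · exact ⟨⟨0, by omega⟩, fun a => by simp [a] at e⟩
  have h1 := hM i j hj B hB Λ.S Subset.rfl
  have e : ({T ∈ Tu Λ | T i ∈ B ∧ T j ∈ Λ.S} : Finset _) = {T ∈ Tu Λ | T i ∈ B} :=
    filter_congr fun T hT => and_iff_left ((mem_Tu.1 hT).2.1 j)
  rw [e] at h1
  have h2 := mul_le_mul_of_nonneg_left (le_abs_self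
    ((#{T ∈ Tu Λ | T i ∈ B} : ℤ) - #B * #Λ.S * q ^ (n - 2))) (Int.natCast_nonneg M)
  have h3 : M * #B * #Λ.S * q ^ (n - 2) ≤ q * (2 * q) * q ^ (n - 2) := by
    gcongr
    exact card_S Λ hq
  have h4 : q * (2 * q) * q ^ (n - 2) = 2 * q ^ n := by
    obtain ⟨m, rfl⟩ := Nat.exists_eq_add_of_le hn
    rw [Nat.add_sub_cancel_left]; ring
  rw [h4] at h3
  zify at h3 ⊢
  nlinarith

theorem p_MOM (hMM1 : S_MM1) :
    S_MOM := by
  intro n E D hn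
  obtain ⟨M1, H⟩ := hMM1 n (2 * E) D hn
  refine ⟨(6 * n + 1) * M1 + 2 * E, 4 * n * D, ?_⟩
  intro q u b A _ _ Λ Λ' U ε t θ w hq hu hN hM hL hB
  set M := (6 * n + 1) * M1 + 2 * E with hMd
  set B : Finset A := {p ∈ Λ.S | ¬ (p ∈ U ∧ Nr θ D (t p - w))} with hBd
  obtain ⟨k, k1, k2, k3⟩ : ∃ k : A → ℤ, (∀ p, |k p| ≤ D) ∧
      (∀ p, Nr θ D (t p - w) → t p = w + k p • θ) ∧ (θ = 0 → ∀ p, k p = 0) := by
    by_cases h0 : θ = 0
    · refine ⟨0, fun p => by simp, fun p ⟨m, _, hm⟩ => ?_, fun _ _ => rfl⟩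
      simpa [h0, sub_eq_zero] using hm
    · refine ⟨fun p => if h : Nr θ D (t p - w) then h.choose else 0, fun p => ?_, fun p h => ?_,
        fun h => absurd h h0⟩
      · dsimp only
        split_ifs with h
        exacts [h.choose_spec.1, by simp]
      · simp only [dif_pos h]
        exact sub_eq_iff_eq_add'.1 h.choose_spec.2
  have ks : ∀ T : Fin (2 * n) → A, |∑ i, k (T i)| ≤ 2 * n * D := fun T => by
    refine (abs_sum_le_sum_abs _ _).trans ((sum_le_card_nsmul _ _ _ fun i _ => k1 (T i)).trans ?_)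
    simp
  let G : (Fin (2 * n) → A) → Prop := fun T =>
    (∀ i, Nr θ D (t (T i) - w)) ∧ ∑ i, t (T i) = Λ.ω - ε • Λ'.ω
  have g1 : ∀ T, G T → Λ.ω - ε • Λ'.ω = (2 * n) • w + (∑ i, k (T i)) • θ := fun T h => by
    rw [← h.2, sum_congr rfl fun i _ => k2 _ (h.1 i), sum_add_distrib, sum_smul]
    simp
  obtain ⟨σ, s1, s2⟩ : ∃ σ : ℤ, |σ| ≤ 2 * n * D ∧ ∀ T, G T → ∑ i, k (T i) = σ := by
    by_cases h : ∃ T, G T
    · obtain ⟨T0, h⟩ := h
      refine ⟨_, ks T0, fun T hT => ?_⟩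
      by_cases h0 : θ = 0
      · simp [k3 h0]
      · refine sub_eq_zero.1 (amom_ord hN h0 ?_ ?_)
        · rw [sub_smul, sub_eq_zero]
          exact add_left_cancel ((g1 T hT).symm.trans (g1 T0 h))
        · refine (abs_sub _ _).trans ((add_le_add (ks T) (ks T0)).trans_eq ?_)
          push_cast; ring
    · exact ⟨0, by positivity, fun T hT => absurd ⟨T, hT⟩ h⟩
  have b1 : M * #{T ∈ Tu Λ | ∑ i, k (T i) ≠ σ} ≤ q ^ n + 2 * n * (3 * q ^ n) := by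
    refine le_trans (Nat.mul_le_mul_left _ (card_le_card ?_)) (mul_card_union
      ((Nat.mul_le_mul_right _ hu).trans hL.pat) (mul_card_biUnion (I := univ) (by simp)
        fun i _ => amom_one hn hq hM (filter_subset _ _) hB i))
    intro T hT
    rw [mem_filter] at hT
    by_contra hc
    simp only [mem_union, mem_biUnion, mem_univ, true_and, not_or, not_exists, mem_filter, hT.1,
      not_and, not_not] at hc
    have := fun i => hc.2 i ((mem_Tu.1 hT.1).2.1 i)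
    simp only [not_forall, not_not, exists_prop] at this
    exact hT.2 (s2 T ⟨fun i => (this i).2, hc.1 fun i => (this i).1⟩)
  obtain ⟨k0, hk⟩ := H q A Λ k σ hq (hM.down (by nlinarith)) k1 s1 (by
    refine Nat.le_of_mul_le_mul_left ?_ (show 0 < 6 * n + 1 by omega)
    calc _ = (6 * n + 1) * M1 * #{T ∈ Tu Λ | ∑ i, k (T i) ≠ σ} := by ring
      _ ≤ _ := Nat.mul_le_mul_right _ (Nat.le_add_right _ _)
      _ ≤ _ := b1
      _ = _ := by ring)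
  refine ⟨w + k0 • θ, Nat.le_of_mul_le_mul_left ?_ two_pos⟩
  rw [← mul_assoc, two_mul q]
  refine le_trans (Nat.mul_le_mul_left _ (card_le_card ?_)) (mul_card_union
    ((Nat.mul_le_mul_right _ (Nat.le_add_left _ _)).trans hB) hk)
  intro p hp
  rw [mem_filter] at hp
  by_contra hc
  simp only [hBd, mem_union, not_or, mem_filter, hp.1, true_and, not_not] at hc
  exact hp.2 ⟨hc.1.1, hc.2 ▸ k2 p hc.1.2⟩

end

section

open Polynomial Finset Module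
open Pool.Agent.P.MP_6f117a_ag (Place FF)
open Pool.Agent.P.MP_ab3ecb_nt.Inv (Dv deg SA LS ev ord dv)
open Pool.Agent.P.MP_9344a7_nt.R
open Pool.Agent.P.MP_9344a7_nt.Hy hiding pt
open Pool.Agent.P.MP_9344a7_nt.Od (GD Kp Fe)
open Pool.Agent.P.MP_9344a7_nt.Gt (pt lS Pr Can Bd Ch G12 Cv Kb)
open scoped Classical IntermediateField ComplexConjugate

lemma aadd2_split {A : Type} (S U : Finset A) (Q : A → Prop) {E E' q : ℕ} (hE : 2 * E ≤ E')
    (h1 : E' * #(S \ U) ≤ q) (h2 : 2 * E * #{p ∈ U | ¬ Q p} ≤ q) :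
    E * #{p ∈ S | ¬ (p ∈ U ∧ Q p)} ≤ q := by
  have h3 : #{p ∈ S | ¬ (p ∈ U ∧ Q p)} ≤ #(S \ U) + #{p ∈ U | ¬ Q p} := by
    refine le_trans (card_le_card fun p hp => ?_) (card_union_le _ _)
    rw [mem_filter] at hp
    by_cases h : p ∈ U
    · exact mem_union_right _ (mem_filter.2 ⟨h, fun h' => hp.2 ⟨h, h'⟩⟩)
    · exact mem_union_left _ (mem_sdiff.2 ⟨hp.1, h⟩)
  have h4 := (Nat.mul_le_mul_right #(S \ U) hE).trans h1
  have h5 := Nat.mul_le_mul_left (2 * E) h3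
  rw [mul_add] at h5
  have h6 : 2 * (E * #{p ∈ S | ¬ (p ∈ U ∧ Q p)}) ≤ 2 * q := by
    rw [← mul_assoc]
    omega
  omega

theorem p_ADD2 (hPK3 : S_PK3) (hSPL : S_SPL) (hLAB : S_LAB) (hTUP : S_TUP) (hSGN : S_SGN) (hAP : S_AP) (hBND : S_BND) (hBOOT : S_BOOT) (hMOM : S_MOM) :
    S_ADD2 := by
  intro c n a C0 hn
  obtain ⟨C, MB, hB⟩ := hBND c n (2 * (16 * n)) hn
  obtain ⟨MM, NM, hM⟩ := hMOM n C0 (2 * n * (3 * (C + 1))) hn
  obtain ⟨MT, hT⟩ := hBOOT n (2 * MM) hn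
  obtain ⟨MS, KS, hS⟩ := hSGN c n (a + 1) (2 * MM + 32 * n + 4) hn
  obtain ⟨CL, ML, KL, hL⟩ := hLAB c n a MS hn
  obtain ⟨MU, hU⟩ := hTUP c n (MS + MT + MM) hn
  obtain ⟨KA, hA⟩ := hAP c n a (a + 1) C
  obtain ⟨NP, hP⟩ := hPK3 (CL + (2 * C + 2))
  obtain ⟨K0, h0⟩ := lf_ex c n
  obtain ⟨KP, hK⟩ := hSPL c n K0 (by omega)
  refine ⟨MB + ML + MU, NM + NP, KS + KL + KA + KP + MB + MU + MT + MM + 4, ?_⟩
  intro q u A _ _ Λ Λ' big sc ad ad' χ hχ G zc fe d d'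
  have q4 : 4 ≤ q := sc.leq (by omega) (by omega)
  have omq : om A ≤ q := by
    have := (sc.om1 (x := 1) (by omega) (by omega)).trans (sc.uq (by omega))
    omega
  obtain ⟨P, s, pk, gap⟩ := hP A big.cyc (fun l h1 h2 => by have := big.pr l h1 h2; omega)
    (Λ.ω - Λ'.ω)
  have big0 := big_down big (Nat.zero_le _)
  obtain ⟨Gs, lf⟩ := h0 q A Λ big0 omq ad.ed.gd χ hχ G zc fe.c0 d
  have dx : Dx Λ Λ' P s (fun k => P * Gs k) c (MB + ML + MU) u a :=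
    ⟨ad, ad', pk, hK q u A Λ P s G Gs big0 (sc.down (by omega)) ad.ed.gd pk χ hχ fe d lf,
      hK q u A Λ' P s G Gs big0 (sc.down (by omega)) ad'.ed.gd pk χ hχ fe d' lf⟩
  obtain ⟨L, l1, l2⟩ := hL q u A Λ Λ' P s _ (sc.down (by omega)) (dx.down (by omega))
    (gap.down (by omega))
  have mx := hU q A Λ (sc.leq (by omega) (by omega)) ad.ed (ad.cd.up le_rfl (by omega))
  obtain ⟨U, ε, t, lab, u1⟩ := hS q u A Λ Λ' L (sc.down (by omega)) ad.ed ad'.ed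
    (mx.down (by omega)) l1 l2
  have ap := hA q u _ A Λ Λ' P s _ U ε t (sc.down (by omega)) dx lab (gap.down (by omega))
  have qU : q ≤ 2 * #U := by
    have e1 := Λ.lo
    have e2 := card_sdiff_add_card_eq_card lab.sub
    have e3 := (Nat.mul_le_mul_right #(Λ.S \ U) (show 4 ≤ 2 * MM + 32 * n + 4 by omega)).trans u1
    omega
  obtain ⟨w, w1⟩ := hB q A Λ U t _ _ (sc.leq (by omega) (by omega)) ad.ed
    (ad.cd.up le_rfl (by omega)) lab.sub qU ap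
  obtain ⟨w', w2⟩ := hT q u _ _ A Λ Λ' U ε t _ w (by omega) (sc.le (by omega))
    (mx.down (by omega)) lab (aadd2_split _ _ _ (by omega) u1 w1)
  obtain ⟨z, w3⟩ := hM q u _ A Λ Λ' U ε t _ w' q4 (sc.le (by omega))
    (fun l h1 h2 => by have := big.pr l h1 h2; omega) (mx.down (by omega)) lab
    (aadd2_split _ _ _ (by omega) u1 w2)
  rcases lab.sg with rfl | rfl
  · refine ⟨AddEquiv.refl A, -z, le_trans (Nat.mul_le_mul_left _ (card_le_card fun p hp => ?_)) w3⟩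
    rw [mem_filter] at hp ⊢
    refine ⟨hp.1, fun h => hp.2 ?_⟩
    have := lab.mem p h.1
    rwa [one_smul, h.2, sub_eq_add_neg] at this
  · refine ⟨AddEquiv.neg A, z, le_trans (Nat.mul_le_mul_left _ (card_le_card fun p hp => ?_)) w3⟩
    rw [mem_filter] at hp ⊢
    refine ⟨hp.1, fun h => hp.2 ?_⟩
    have := lab.mem p h.1
    rwa [neg_one_smul, h.2, neg_sub, sub_eq_neg_add] at this

end

end Pool.Agent.P.MP_9344a7_nt.Ac
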