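import Pool.Agent.P.MP_9344a7_nt.Ac.IfaceA
import Pool.Agent.P.MP_9344a7_nt.Ac.BaseB

/-! Steps BND. -/

set_option linter.unusedVariables false
set_option linter.unusedSectionVars false

namespace Pool.Agent.P.MP_9344a7_nt.Ac

section

open Polynomial Finset
open Pool.Agent.P.MP_9344a7_nt.R
open Pool.Agent.P.MP_9344a7_nt.Hy
open Pool.Agent.P.MP_9344a7_nt.Od (GD Kp Fe)
open scoped Classical

lemma abnd_ar {n q k F D u1 u' va vb v : ℕ} (hq : 0 < q) (k0 : 0 < k) (D0 : 0 < D) (v0 : 0 < v)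
    (d1 : 16 * n * k ≤ D) (d2 : 2 * k * F ≤ D) (h1 : q ≤ 8 * n * u1)
    (b1 : D * (u1 * vb) ≤ q * (k * v)) (b2 : D * (u' * va) ≤ q * (k * v)) (b3 : vb + va = v) :
    F * u' ≤ q := by
  have c1 : 2 * vb ≤ v := by
    refine Nat.le_of_mul_le_mul_left ?_ (Nat.mul_pos D0 hq)
    have := Nat.mul_le_mul_left (D * vb) h1
    have := Nat.mul_le_mul_left (8 * n) b1
    have := Nat.mul_le_mul_right (q * v) d1
    linarith
  have c2 : D * u' ≤ 2 * k * q := by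
    refine Nat.le_of_mul_le_mul_left ?_ v0
    have := Nat.mul_le_mul_left (D * u') (show v ≤ 2 * va by omega)
    linarith
  refine Nat.le_of_mul_le_mul_left ?_ (show 0 < 2 * k by omega)
  have := Nat.mul_le_mul_right u' d2
  linarith

lemma abnd_ar2 {n D y g b z x X : ℕ}
    (h1 : D * (4 * n ^ 2 + 1) * y ≤ D * (4 * n ^ 2 + 1) * (n * z) + X) (h2 : z ≤ g + b)
    (h3 : b ≤ n * x) (h4 : D * (4 * n ^ 2 + 1) * x ≤ 4 * X) : D * y ≤ D * (n * g) + X := by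
  refine Nat.le_of_mul_le_mul_left ?_ (show 0 < 4 * n ^ 2 + 1 by positivity)
  have a1 := Nat.mul_le_mul_left (D * (4 * n ^ 2 + 1) * n) (h2.trans (Nat.add_le_add_left h3 g))
  have a2 := Nat.mul_le_mul_left (n ^ 2) h4
  linarith

lemma abnd_core {A : Type} {U V : Finset A} (G : A → A → Prop) {n q Q k F D : ℕ} (hn : 0 < n)
    (hq : 0 < q) (hQ : 0 < Q) (hU : q ≤ 2 * #U) (hV : Q ≤ k * #V) (d1 : 16 * n * k ≤ D)
    (d2 : 2 * k * F ≤ D) (mx : ∀ U1 ⊆ U, ∀ V1 ⊆ V,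
      D * (#U1 * #V1) ≤ D * (n * #{e ∈ U1 ×ˢ V1 | G e.1 e.2}) + q * Q) :
    ∃ r0, ∀ U' ⊆ U, (∀ p' ∈ U', ∀ p r, G p r0 → G p r → ¬ G p' r) → F * #U' ≤ q := by
  have k0 : 0 < k := Nat.pos_of_ne_zero fun e => by rw [e] at hV; omega
  have v0 : 0 < #V := Nat.pos_of_ne_zero fun e => by rw [e] at hV; omega
  have D0 : 0 < D := lt_of_lt_of_le (by positivity) d1
  have a3 := Nat.mul_le_mul_left q hV
  have mx0 : ∀ U1 ⊆ U, ∀ V1 ⊆ V, (∀ p ∈ U1, ∀ r ∈ V1, ¬ G p r) →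
      D * (#U1 * #V1) ≤ q * (k * #V) := fun U1 a V1 b h => by
    have := mx U1 a V1 b
    rw [filter_false_of_mem fun e he => h _ (mem_product.1 he).1 _ (mem_product.1 he).2,
      card_empty, mul_zero, mul_zero, zero_add] at this
    exact this.trans a3
  obtain ⟨r0, -, h1⟩ : ∃ r0 ∈ V, q ≤ 8 * n * #{p ∈ U | G p r0} := by
    by_contra! h
    have h2 : 8 * n * #{e ∈ U ×ˢ V | G e.1 e.2} ≤ #V * q := by
      rw [card_filter, sum_product_right, mul_sum]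
      exact sum_le_card_nsmul _ _ _ fun r hr => by
        rw [← card_filter (fun p => G p r)]
        exact (h r hr).le
    have h3 := mx U Subset.rfl V Subset.rfl
    have a1 := Nat.mul_le_mul_left (D * #V) hU
    have a2 := Nat.mul_le_mul_left D h2
    have a4 := Nat.mul_le_mul_right (q * #V)
      ((Nat.mul_le_mul_right k (show 16 ≤ 16 * n by omega)).trans d1)
    have a5 : 0 < D * q * #V := by positivity
    linarith
  refine ⟨r0, fun U' hU' h => abnd_ar hq k0 D0 v0 d1 d2 h1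
    (mx0 _ (filter_subset _ _) _ sdiff_subset fun p hp r hr e => ?_)
    (mx0 U' hU' {r ∈ V | ∃ p ∈ U, G p r0 ∧ G p r} (filter_subset _ _) fun p' hp r hr => ?_)
    (card_sdiff_add_card_eq_card (filter_subset _ _))⟩
  · exact (mem_sdiff.1 hr).2 (mem_filter.2 ⟨(mem_sdiff.1 hr).1, p, (mem_filter.1 hp).1,
      (mem_filter.1 hp).2, e⟩)
  · obtain ⟨-, p, -, c2, c3⟩ := mem_filter.1 hr
    exact h p' hp p r c2 c3

lemma abnd_V {q n c m : ℕ} {A : Type} [AddCommGroup A] [Fintype A] {Λ : LD q n A} (ed : ED Λ c)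
    (hm : m ≤ n) {U : Finset A} (t : A → A) (hU : U ⊆ Λ.S) (q0 : 0 < q) (hq : q ≤ 2 * #U)
    (hc : 2 * (2 ^ m * 2 ^ m ^ 2) * c ≤ q) : q ^ m ≤ 2 * (2 ^ m * 2 ^ m ^ 2) *
      #{r | (Λ.W m).coeff r = 1 ∧ ∃ τ, Ms U t m r τ} := by
  obtain ⟨P, hP0⟩ : ∃ P, P = Fintype.piFinset fun _ : Fin m => U := ⟨_, rfl⟩
  have hP : ∀ T ∈ P, ∀ i, T i ∈ U := fun T hT => Fintype.mem_piFinset.1 (hP0 ▸ hT)
  have h0 : q ^ m ≤ 2 ^ m * #P := by
    rw [hP0, Fintype.card_piFinset_const, ← mul_pow]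
    exact Nat.pow_le_pow_left hq m
  have h1 := ed.tup2 (Fintype.card_fin m) hm
    (E := {T ∈ P | ¬ (Λ.W m).coeff (∑ i, T i) = 1}) fun T hT =>
      ⟨fun i => hU (hP T (mem_filter.1 hT).1 i), (mem_filter.1 hT).2⟩
  have h2 : #{T ∈ P | (Λ.W m).coeff (∑ i, T i) = 1} ≤
      2 ^ m ^ 2 * #{r | (Λ.W m).coeff r = 1 ∧ ∃ τ, Ms U t m r τ} := by
    refine card_le_mul_card_image_of_maps_to (f := fun T => ∑ i, T i) (fun T hT =>
      mem_filter.2 ⟨mem_univ _, (mem_filter.1 hT).2, _, univ.val.map T, by simp,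
        fun p hp => ?_, rfl, rfl⟩) _ fun x hx => ?_
    · have := ed.tup (ι := Fin m) (x := x)
        (E := {T ∈ {T ∈ P | (Λ.W m).coeff (∑ i, T i) = 1} | ∑ i, T i = x}) fun T hT =>
          ⟨fun i => hU (hP T (mem_filter.1 (mem_filter.1 hT).1).1 i), (mem_filter.1 hT).2⟩
      rw [Fintype.card_fin, (mem_filter.1 hx).2.1, mul_one] at this
      exact_mod_cast this
    · obtain ⟨i, -, rfl⟩ := Multiset.mem_map.1 hp
      exact hP T (mem_filter.1 hT).1 i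
  have h3 := card_filter_add_card_filter_not (s := P) fun T => (Λ.W m).coeff (∑ i, T i) = 1
  refine Nat.le_of_mul_le_mul_left ?_ q0
  have a1 := Nat.mul_le_mul_left q h0
  have a2 := Nat.mul_le_mul_left (2 ^ m) h1
  have a3 := Nat.mul_le_mul_left (q * 2 ^ m) h2
  have a4 := Nat.mul_le_mul_right (q ^ m) hc
  rw [← h3] at a1
  generalize 2 ^ m ^ 2 = B at *
  generalize 2 ^ m = B' at *
  generalize q ^ m = Q at *
  linarith

theorem p_BND : S_BND := by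
  intro c n E hn
  obtain ⟨m, rfl⟩ : ∃ m, n = m + 1 := ⟨n - 1, by omega⟩
  obtain ⟨k, hk⟩ : ∃ k, k = 2 * (2 ^ m * 2 ^ m ^ 2) := ⟨_, rfl⟩
  obtain ⟨D, hD⟩ : ∃ D, D = 16 * (m + 1) * k + 2 * k * E + k * c + 1 := ⟨_, rfl⟩
  obtain ⟨C, hC⟩ : ∃ C, C = D * (4 * (m + 1) ^ 2 + 1) := ⟨_, rfl⟩
  refine ⟨C, C, fun q A _ _ Λ U t θ κ hq ed cd hU hqU hX => ?_⟩
  have DC : D ≤ q := le_trans (hC ▸ Nat.le_mul_of_pos_right _ (by positivity)) hq
  have q0 : 0 < q := by omega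
  have hV := abnd_V ed m.le_succ t hU q0 hqU (by rw [← hk]; omega)
  rw [← hk] at hV
  obtain ⟨V, hV0⟩ : ∃ V : Finset A,
    V = ({r | (Λ.W m).coeff r = 1 ∧ ∃ τ, Ms U t m r τ} : Finset A) := ⟨_, rfl⟩
  rw [← hV0] at hV
  have v1 : ∀ r ∈ V, (Λ.W m).coeff r = 1 := fun r hr => (mem_filter.1 (hV0 ▸ hr)).2.1
  choose! τ hτ using fun r (hr : r ∈ V) => (mem_filter.1 (hV0 ▸ hr)).2.2
  have hB := ed.prs m.succ_pos (E := {e ∈ U ×ˢ V | Pm Λ (m + 1) (Λ.ω - (e.1 + e.2)) ∧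
    ¬ Nr θ (C + 1) (t e.1 + τ e.2 - κ)}) (Z := {x | Pm Λ (m + 1) (Λ.ω - x) ∧
      ∃ τ, Ms U t (m + 1) x τ ∧ ¬ Nr θ (C + 1) (τ - κ)}) fun e he => by
    obtain ⟨a, b, d⟩ := mem_filter.1 he
    obtain ⟨a1, a2⟩ := mem_product.1 a
    exact ⟨hU a1, (v1 _ a2).trans_ne one_ne_zero, ed.res_one b,
      mem_filter.2 ⟨mem_univ _, b, _, (hτ _ a2).cons a1, d⟩⟩
  obtain ⟨r0, h⟩ := abnd_core (fun p r => Nr θ (C + 1) (t p + τ r - κ)) (F := E) (D := D)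
    (n := m + 1) m.succ_pos q0 (Nat.pow_pos q0) hqU hV (by omega) (by omega) fun U1 a V1 b => by
      rw [← pow_succ']
      refine abnd_ar2 (hC ▸ cd.mx (a.trans hU) (fun r hr => v1 r (b hr)) fun p hp r hr e => ?_)
        (card_union_le _ _) hB (hC ▸ hX)
      by_cases g : Nr θ (C + 1) (t p + τ r - κ)
      · exact mem_union_left _ (mem_filter.2 ⟨mem_product.2 ⟨hp, hr⟩, g⟩)
      · exact mem_union_right _ (mem_filter.2 ⟨mem_product.2 ⟨a hp, b hr⟩, sub_sub _ p r ▸ e, g⟩)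
  refine ⟨κ - τ r0, h _ (filter_subset _ _) fun p' hp' p r a b d => (mem_filter.1 hp').2 ?_⟩
  convert ((d.add b.neg).add a).up (show _ ≤ 3 * (C + 1) by omega) using 1
  abel

end

end Pool.Agent.P.MP_9344a7_nt.Ac
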