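import Pool.Agent.P.MP_9344a7_nt.Ac.BaseG

/-! Embeddings, fibres and twisted Frobenius maps. -/

namespace Pool.Agent.P.MP_9344a7_nt.Ac

open WithZero Module Finset
open Pool.Agent.P.MP_6f117a_ag (Place FF)
open Pool.Agent.P.MP_ab3ecb_nt.Inv
open Pool.Agent.P.MP_9344a7_nt.R (J)
open Pool.Agent.P.MP_9344a7_nt.Hy (LD GB FB IsL)
open Pool.Agent.P.MP_9344a7_nt.Gt (pt lS Pr Can Bd Ch G12 Cv Kb)
open scoped Classical IntermediateField

set_option linter.unusedSectionVars false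

section

variable {k E Ω ι : Type} [Field k] [Field E] [Algebra k E] [Field Ω] [Algebra k Ω]

/-- The valuation ring `O` induces the place `P` along `φ`. -/
def Rs (O : ValuationSubring Ω) (φ : E →ₐ[k] Ω) (P : Place k E) : Prop :=
  ∀ w, φ w ∈ O ↔ P.v w ≤ 1

/-- Two places in the same fibre of `t`. -/
def Fb (t : E) (P Q : Place k E) : Prop :=
  (∃ c : k, P.v (t - algebraMap k E c) < 1 ∧ Q.v (t - algebraMap k E c) < 1) ∨
    (1 < P.v t ∧ 1 < Q.v t)

/-- The fibre of `t` through `P` has `d` points. -/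
def Rd (t : E) (d : ℕ) (P : Place k E) : Prop :=
  ∃ Z : Finset (Place k E), d ≤ #Z ∧ ∀ Q ∈ Z, Fb t Q P

variable (k) in
/-- A function of degree `d`. -/
structure Dg (t : E) (d : ℕ) : Prop where
  tr : Transcendental k t
  rk : finrank k⟮t⟯ E = d

/-- Distinct embeddings that agree on `t`. -/
structure Em (t : E) (φ : ι → E →ₐ[k] Ω) : Prop where
  inj : Function.Injective φ
  eq : ∀ i j, φ i t = φ j t

/-- `θ` lifts `σ` and permutes the embeddings by `π`. -/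
def Tw (σ : SA k E) (θ : Ω ≃+* Ω) (φ : ι → E →ₐ[k] Ω) (π : Equiv.Perm ι) : Prop :=
  ∀ i w, θ (φ i w) = φ (π i) (σ.s w)

/-- Distinct places permuted by `π`. -/
structure Ob (σ : SA k E) (π : Equiv.Perm ι) (T : ι → Place k E) : Prop where
  inj : Function.Injective T
  fr : ∀ i, σ.pl (T i) = T (π i)

/-- Distinct places in one finite fibre of `t`, permuted by `π`. -/
structure Tp (σ : SA k E) (t : E) (π : Equiv.Perm ι) (T : ι → Place k E) : Prop
    extends Ob σ π T where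
  fb : ∃ c : k, ∀ i, (T i).v (t - algebraMap k E c) < 1

/-- The permutation has one orbit. -/
def Cy (π : Equiv.Perm ι) : Prop := ∀ i j, π.SameCycle i j

/-- The divisor residual to `P + R` in `W` is reduced and of type `π`. -/
def Tr {n : ℕ} (σ : SA k E) (W R : Dv k E) (P : Place k E) (π : Equiv.Perm (Fin n)) : Prop :=
  ∃ T, Ob σ π T ∧ Pr (pt P + ∑ i, pt (T i) + R - W)

/-- A sum of two reduced divisors of type `π`. -/
def Sl {n : ℕ} (σ : SA k E) (π : Equiv.Perm (Fin n)) (H : Dv k E) : Prop :=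
  ∃ T T', Ob σ π T ∧ Ob σ π T' ∧ H = ∑ i, pt (T i) + ∑ i, pt (T' i)

/-- The property `p` of a class is read on the type of its divisor. -/
def Dc {Q n : ℕ} [IsAlgClosed k] [FF k E] {σ : SA k E} (e : Pic k E) (Λ : LD Q n (J σ)) (m : ℕ)
    (p : J σ → Prop) (X : Finset (Equiv.Perm (Fin m))) : Prop :=
  ∀ π T x, Ob σ π T → x.1 + m • e = (∑ i, pt (T i) : Dv k E) → (Λ.W m).coeff x = 1 →
    (p x ↔ π ∈ X)

variable (k E) in
/-- The identity. -/
def sid : SA k E := ⟨.refl E, .refl k, fun _ => rfl⟩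

variable {O : ValuationSubring Ω} {φ ψ : E →ₐ[k] Ω} {P Q R : Place k E} {t w : E}

lemma Rs.const (h : Rs O φ P) (c : k) : algebraMap k Ω c ∈ O :=
  φ.commutes c ▸ (h _).2 (P.triv c)

lemma Rs.lt (h : Rs O φ P) (w : E) : O.valuation (φ w) < 1 ↔ P.v w < 1 := by
  rcases eq_or_ne w 0 with rfl | e
  · simp
  have := h w⁻¹
  rw [← O.valuation_le_one_iff, map_inv₀, map_inv₀, map_inv₀,
    inv_le_one₀ (zero_lt_iff.2 (by simpa using e)), inv_le_one₀ (zero_lt_iff.2 (v_ne P e))] at this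
  rw [← not_le, this, not_le]

lemma Rs.uniq (h : Rs O φ P) (h' : Rs O φ Q) : P = Q :=
  PL.uniq P Q fun w => (h.lt w).symm.trans (h'.lt w)

lemma rs_of_lt (h : ∀ w, O.valuation (φ w) < 1 ↔ P.v w < 1) : Rs O φ P := fun w => by
  rcases eq_or_ne w 0 with rfl | e
  · simp
  have := h w⁻¹
  rw [map_inv₀, map_inv₀, map_inv₀, inv_lt_one₀ (zero_lt_iff.2 (by simpa using e)),
    inv_lt_one₀ (zero_lt_iff.2 (v_ne P e))] at this
  rw [← O.valuation_le_one_iff, ← not_lt, this, not_lt]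

lemma rs_of_r (V : Sv Ω) (h : ∀ w, P.v w ≤ 1 → φ w ∈ V.O ∧ V.r (φ w) = algebraMap k Ω (ev P w)) :
    Rs V.O φ P := fun w => ⟨fun e => not_lt.1 fun e' => by
  have w0 : w ≠ 0 := by rintro rfl; simp at e'
  have h1 : P.v w⁻¹ < 1 := by rw [map_inv₀]; exact inv_lt_one_of_one_lt₀ e'
  obtain ⟨a, b⟩ := h _ h1.le
  have := Sv.r_mul e a
  rw [b, ev_of_lt h1, map_zero, mul_zero, ← map_mul, mul_inv_cancel₀ w0, map_one, V.r_one] at this
  exact one_ne_zero this, fun e => (h w e).1⟩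

lemma Fb.symm (h : Fb t P Q) : Fb t Q P := h.imp (.imp fun _ => And.symm) And.symm

lemma Fb.trans (h : Fb t P Q) (h' : Fb t Q R) : Fb t P R := by
  rcases h with ⟨c, a, b⟩ | ⟨a, b⟩ <;> rcases h' with ⟨c', a', b'⟩ | ⟨a', b'⟩
  · exact .inl ⟨c, a, (ev_eq a').symm.trans (ev_eq b) ▸ b'⟩
  · exact absurd (le_one_of_sub b) a'.not_ge
  · exact absurd (le_one_of_sub a') b.not_ge
  · exact .inr ⟨a, b'⟩

lemma Fb.lt {c : k} (h : Fb t P Q) (e : Q.v (t - algebraMap k E c) < 1) :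
    P.v (t - algebraMap k E c) < 1 := by
  rcases h with ⟨c', a, b⟩ | ⟨-, b⟩
  · exact (ev_eq b).symm.trans (ev_eq e) ▸ a
  · exact absurd (le_one_of_sub e) b.not_ge

lemma Fb.refl [IsAlgClosed k] [FF k E] (t : E) (P : Place k E) : Fb t P P :=
  (le_or_gt (P.v t) 1).imp (fun h => ⟨_, ev_spec h, ev_spec h⟩) fun h => ⟨h, h⟩

lemma SBr.fb [IsAlgClosed k] [FF k E] {d : ℕ} (h : SBr k t d) (P : Place k E) :
    ∃ Z : Finset (Place k E), d ≤ #Z + 1 ∧ ∀ Q ∈ Z, Fb t Q P := by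
  rcases le_or_gt (P.v t) 1 with e | e
  · obtain ⟨Z, a, b⟩ := h.1 (ev P t)
    exact ⟨Z, a, fun Q hQ => .inl ⟨_, b Q hQ, ev_spec e⟩⟩
  · obtain ⟨Z, a, b⟩ := h.2
    exact ⟨Z, a, fun Q hQ => .inr ⟨b Q hQ, e⟩⟩

lemma Tw.const {σ : SA k E} {θ : Ω ≃+* Ω} {φ : ι → E →ₐ[k] Ω} {π : Equiv.Perm ι}
    (h : Tw σ θ φ π) (i : ι) (c : k) : θ (algebraMap k Ω c) = algebraMap k Ω (σ.s0 c) := by
  rw [← (φ i).commutes, h, σ.h, AlgHom.commutes]

lemma ch_mono {d d' : ℕ} (h : Ch k d) (e : d' ≤ d) : Ch k d' := fun j a b => h j a (b.trans e)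

end

/-- The curve `C` is not hyperelliptic and `Λ` describes it. -/
structure Cx {F : Type} [Field F] [Fintype F] {n : ℕ} (C : Cv F (n + 1)) (e : Pic (Kb F) C.E)
    (Λ : LD (Fintype.card F) n (J C.σ)) : Prop where
  gb : GB (C.W : Pic (Kb F) C.E) (n + 1)
  fb : FB C.σ (Fintype.card F)
  il : IsL C.σ (C.W : Pic (Kb F) C.E) e Λ
  pos : 0 ≤ C.W
  nh : ¬ G12 (Kb F) C.E

end Pool.Agent.P.MP_9344a7_nt.Ac
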