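import Pool.Agent.P.MP_9344a7_nt.Ac.Iface
import Pool.Agent.P.MP_9344a7_nt.Ac.BaseC

/-! The Galois toolbox, the density theorems and the elementary data. -/

namespace Pool.Agent.P.MP_9344a7_nt.Ac

open Finset Module WithZero
open Pool.Agent.P.MP_6f117a_ag (Place FF)
open Pool.Agent.P.MP_ab3ecb_nt.Inv (Dv deg SA LS ev ord dv)
open Pool.Agent.P.MP_9344a7_nt.R
open Pool.Agent.P.MP_9344a7_nt.Hy hiding pt ev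
open Pool.Agent.P.MP_9344a7_nt.Gt (pt lS Pr Can Bd Ch G12 Cv Kb)
open scoped Classical IntermediateField

-- redeps: COL CHV RST EMB MON
-- redeps: SWP RST XT
-- redeps: ED ED1 ED2 RP
-- redeps: NHG ED1
-- redeps: CD DIC CYC MX GOOD CH0

/-! ### Embeddings and places -/

-- deps:
def S_SEP : Prop := (∀ (L F : Type) [Field L] [Field F] [Algebra L F] [FF L F] (t : F) (d : ℕ),
  Transcendental L t → finrank L⟮t⟯ F ≤ d → Ch L d → Algebra.IsSeparable L⟮t⟯ F ∧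
    (∃ x : F, L⟮t, x⟯ = ⊤) ∧ ∀ (Ω : Type) [Field Ω] [Algebra L Ω] (φ : F →ₐ[L] Ω) (w : F),
      IsSeparable L⟮φ t⟯ (φ w)) ∧
  ∀ (L Ω : Type) [Field L] [Field Ω] [Algebra L Ω] (s s' y : Ω), IsSeparable L⟮s⟯ s' →
    IsSeparable L⟮s'⟯ y → IsSeparable L⟮s⟯ y

-- deps:
def S_XT : Prop := ∀ (M Ω : Type) [Field M] [Field Ω] [IsAlgClosed Ω] (j : M →+* Ω) (g : M ≃+* M),
  ∃ τ : Ω ≃+* Ω, ∀ x, τ (j x) = j (g x)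

-- deps:
def S_RST : Prop := ∀ (L F Ω : Type) [Field L] [IsAlgClosed L] [Field F] [Algebra L F] [FF L F]
  [Field Ω] [Algebra L Ω] (O : ValuationSubring Ω) (φ : F →ₐ[L] Ω),
  ((∀ c, algebraMap L Ω c ∈ O) → (∃ w, φ w ∉ O) → ∃ P, Rs O φ P) ∧
    ∀ (F' : Type) [Field F'] [Algebra L F'] [FF L F'] (ψ : F' →ₐ[L] Ω) (P' : Place L F') (t : F)
      (t' : F'), Rs O ψ P' → Transcendental L t → φ t = ψ t' → ∃ P, Rs O φ P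

-- deps:
def S_VEX : Prop := ∀ (L F Ω : Type) [Field L] [Field F] [Algebra L F] [Field Ω] [Algebra L Ω]
  (φ : F →ₐ[L] Ω) (P : Place L F), ∃ O : ValuationSubring Ω, Rs O φ P

-- deps: SEP
def S_EMB : Prop := ∀ (L F Ω ι : Type) [Field L] [Field F] [Algebra L F] [FF L F] [Field Ω]
  [IsAlgClosed Ω] [Algebra L Ω] [Fintype ι] (t : F), Dg L t (Fintype.card ι) →
  Ch L (Fintype.card ι) → (∀ (φ0 : F →ₐ[L] Ω) (i0 : ι), ∃ φ : ι → F →ₐ[L] Ω, Em t φ ∧ φ i0 = φ0) ∧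
    ∀ φ : ι → F →ₐ[L] Ω, Em t φ → ∀ i (ψ : F →ₐ[L] Ω), ψ t = φ i t → ∃ j, φ j = ψ

-- deps: SEP EMB
def S_SUR : Prop := ∀ (L F Ω ι : Type) [Field L] [IsAlgClosed L] [Field F] [Algebra L F] [FF L F]
  [Field Ω] [IsAlgClosed Ω] [Algebra L Ω] [Fintype ι] (t : F) (φ : ι → F →ₐ[L] Ω)
  (O : ValuationSubring Ω) (T : ι → Place L F), Dg L t (Fintype.card ι) → Ch L (Fintype.card ι) →
  Em t φ → (∀ i, Rs O (φ i) (T i)) → (∀ i j, Fb t (T i) (T j)) ∧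
    (∀ i P, Fb t P (T i) → ∃ j, T j = P) ∧
    ∀ i, Rd t (Fintype.card ι) (T i) → Function.Injective T

-- imports: Pool.Agent.P.MP_12d50c_ag.TMONO Pool.Agent.P.MP_12d50c_ag.TPLACE Pool.Agent.P.MP_12d50c_ag.TPRES Pool.Agent.P.MP_12d50c_ag.TPTR Pool.Agent.P.MP_12d50c_ag.TPI0 Pool.Agent.P.MP_12d50c_ag.TPI1 Pool.Agent.P.MP_12d50c_ag.TPI1G Pool.Agent.P.MP_12d50c_ag.TSW
-- deps: SEP XT
def S_MON : Prop := ∀ (L F Ω ι : Type) [Field L] [IsAlgClosed L] [Field F] [Algebra L F] [FF L F]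
  [Field Ω] [IsAlgClosed Ω] [Algebra L Ω] [Fintype ι] (t : F) (φ : ι → F →ₐ[L] Ω),
  Dg L t (Fintype.card ι) → Ch L (Fintype.card ι) → SBr L t (Fintype.card ι) → Em t φ →
    ∀ π : Equiv.Perm ι, ∃ τ : Ω ≃ₐ[L] Ω, ∀ i w, τ (φ i w) = φ (π i) w

-- deps: EMB
def S_FRE : Prop := ∀ (L F Ω ι : Type) [Field L] [Field F] [Algebra L F] [FF L F] [Field Ω]
  [IsAlgClosed Ω] [Algebra L Ω] [Fintype ι] (t : F) (φ : ι → F →ₐ[L] Ω) (σ : SA L F)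
  (θ : Ω ≃+* Ω) (i0 : ι), Dg L t (Fintype.card ι) → Ch L (Fintype.card ι) → Em t φ → σ.s t = t →
  (∀ c, θ (algebraMap L Ω c) = algebraMap L Ω (σ.s0 c)) → θ (φ i0 t) = φ i0 t →
    ∃ π, Tw σ θ φ π ∧ ∀ i j, (∀ w, θ (φ i w) = φ j (σ.s w)) → π i = j

-- deps:
def S_GOU : Prop := (∀ (ι : Type) [Fintype ι] (H : Subgroup (Equiv.Perm ι × Equiv.Perm ι))
  (a b : ι), a ≠ b → (Equiv.swap a b, 1) ∈ H → (∀ α, ∃ β, (α, β) ∈ H) → (∀ β, ∃ α, (α, β) ∈ H) →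
    H = ⊤) ∧
  ∀ (ι α : Type) [Fintype ι] (T : ι → α) (Z : Finset α) (π : Equiv.Perm ι) (a b : ι),
    Fintype.card ι ≤ #Z + 1 → (∀ z ∈ Z, ∃ i, T i = z) → (∀ i, T (π i) = T i) → π a = b → a ≠ b →
      π = Equiv.swap a b

-- deps: COL SWP SEP RST SUR MON FRE GOU
def S_GRP : Prop := ∀ (L F Ω : Type) [Field L] [IsAlgClosed L] [Field F] [Algebra L F] [FF L F]
  [Field Ω] [IsAlgClosed Ω] [Algebra L Ω] (n : ℕ) (t : F) (φ : Option (Fin n) → F →ₐ[L] Ω), 2 ≤ n →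
  Ch L (n + 1) → Dg L t (n + 1) → SBr L t (n + 1) → Em t φ → ∃ P0 : Place L F,
    ∀ (t' : F) (ψ : Option (Fin n) → F →ₐ[L] Ω), Dg L t' (n + 1) → SBr L t' (n + 1) → Em t' ψ →
      ψ none = φ none → Rd t' (n + 1) P0 → ∀ α β : Equiv.Perm (Option (Fin n)), α none = none →
      β none = none → ∃ τ : Ω ≃ₐ[L] Ω, (∀ i w, τ (φ i w) = φ (α i) w) ∧
        ∀ i w, τ (ψ i w) = ψ (β i) w

/-! ### Degrees -/

-- deps: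
def S_BDF : Prop := ∀ (k E : Type) [Field k] [IsAlgClosed k] [Field E] [Algebra k E] [FF k E]
  (z : E) (n : ℕ), Transcendental k z → (Bd k n z ↔ finrank k⟮z⟯ E ≤ n)

-- deps: BDF
def S_BDX : Prop := ∀ (k E M : Type) [Field k] [IsAlgClosed k] [Field E] [Algebra k E] [FF k E]
  [Field M] [Algebra k M] [FF k M] (φ : E →ₐ[k] M) (t w : E) (D n : ℕ), Transcendental k t →
  finrank k⟮φ t⟯ M ≤ D → Bd k n w → Bd k (D * n) (φ w)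

-- deps: SEP
def S_DGM : Prop := ∀ (k E Ω ι : Type) [Field k] [Field E] [Algebra k E] [FF k E] [Field Ω]
  [Algebra k Ω] [Fintype ι] (φ : ι → E →ₐ[k] Ω) (f : ι → E) (i0 : ι) (d : ℕ)
  (M : IntermediateField k Ω), Ch k d → (∀ i, Dg k (f i) d ∧ φ i (f i) = φ i0 (f i)) →
  M = ⨆ i, (φ i).fieldRange →
    FF k M ∧ ∀ i (z : M), z.1 = φ i (f i) → finrank k⟮z⟯ M ≤ d ^ (Fintype.card ι + 1)

-- deps: BDF
def S_RFB : Prop := ∀ g d : ℕ, ∃ c d0 : ℕ, ∀ (k E : Type) [Field k] [IsAlgClosed k] [Field E]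
  [Algebra k E] [FF k E] (W : Dv k E) (t : E), Can g W → Ch k d0 → Dg k t d →
  (∃ X : Finset (Place k E), #X ≤ c ∧ ∀ P ∉ X, P.v t ≤ 1 ∧ Rd t d P) ∧
    ∀ (P : Place k E) (Z : Finset (Place k E)), (∀ Q ∈ Z, Fb t Q P) → #Z ≤ d

/-! ### Rational points of a twisted cover -/

-- deps:
def S_TWB : Prop := ∀ (F Ω ι : Type) [Field F] [Fintype F] [Field Ω] [Algebra (Kb F) Ω] [Fintype ι]
  (π : Equiv.Perm ι) (Δ : Finset (ι → Ω)), #Δ < Fintype.card F → (∀ δ ∈ Δ, δ ≠ 0) →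
    ∃ c : ι → Kb F, (∀ i, c (π i) = c i ^ Fintype.card F) ∧
      ∀ δ ∈ Δ, ∑ i, algebraMap (Kb F) Ω (c i) * δ i ≠ 0

-- deps: SEP
def S_PEL : Prop := ∀ (k M κ : Type) [Field k] [Field M] [Algebra k M] [FF k M] [Fintype κ] (a : M)
  (z : κ → M) (D : ℕ), Transcendental k a → finrank k⟮a⟯ M ≤ D → Ch k D →
  IntermediateField.adjoin k (Set.range z) = ⊤ → ∃ Δ : Finset (κ → AlgebraicClosure M),
    #Δ ≤ D * D ∧ (∀ δ ∈ Δ, δ ≠ 0) ∧ ∀ c : κ → k,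
      (∀ δ ∈ Δ, ∑ j, algebraMap k _ (c j) * δ j ≠ 0) → k⟮a, ∑ j, c j • z j⟯ = ⊤

-- deps:
def S_PM0 : Prop := ∀ n N : ℕ, ∃ p0 : ℕ, ∀ (F M : Type) [Field F] [Fintype F] [Field M]
  [Algebra (Kb F) M] [FF (Kb F) M] (θ : SA (Kb F) M) (a b : M), p0 < ringChar F →
  (∀ c, θ.s0 c = c ^ Fintype.card F) → θ.s a = a → θ.s b = b → Transcendental (Kb F) a →
  Bd (Kb F) n a → Bd (Kb F) n b → (Kb F)⟮a, b⟯ = ⊤ →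
  (∀ P : Place (Kb F) M, P.v a ≤ 1 → P.v b ≤ 1) → ∃ X : Finset (Place (Kb F) M),
    N * Fintype.card F ≤ (N + 1) * #X ∧ (∀ P ∈ X, θ.pl P = P ∧ P.v a ≤ 1 ∧ P.v b ≤ 1) ∧
      ∀ P ∈ X, ∀ Q ∈ X, ev P a = ev Q a → ev P b = ev Q b → P = Q

-- deps:
def S_PMI : Prop := ∀ (k M : Type) [Field k] [IsAlgClosed k] [Field M] [Algebra k M] [FF k M]
  (θ : SA k M) (a b : M) (n : ℕ), θ.s a = a → θ.s b = b → Transcendental k a → Bd k n a →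
  Bd k n b → ∃ c : M, c ≠ 0 ∧ θ.s c = c ∧ c ∈ k⟮a⟯ ∧ Bd k (n * n * n) c ∧
    (∀ P : Place k M, P.v a ≤ 1 → P.v c ≤ 1 ∧ P.v (c * b) ≤ 1) ∧
    ∀ P Q : Place k M, P.v a ≤ 1 → Q.v a ≤ 1 → ev P a = ev Q a → ev P c = ev Q c

-- deps: PM0 PMI
def S_PM : Prop := ∀ n N : ℕ, ∃ p0 : ℕ, ∀ (F M : Type) [Field F] [Fintype F] [Field M]
  [Algebra (Kb F) M] [FF (Kb F) M] (θ : SA (Kb F) M) (a b : M), p0 < ringChar F →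
  (∀ c, θ.s0 c = c ^ Fintype.card F) → θ.s a = a → θ.s b = b → Transcendental (Kb F) a →
  Bd (Kb F) n a → Bd (Kb F) n b → (Kb F)⟮a, b⟯ = ⊤ → ∃ X : Finset (Place (Kb F) M),
    N * Fintype.card F ≤ (N + 1) * #X ∧ (∀ P ∈ X, θ.pl P = P ∧ P.v a ≤ 1 ∧ P.v b ≤ 1) ∧
      ∀ P ∈ X, ∀ Q ∈ X, ev P a = ev Q a → ev P b = ev Q b → P = Q

-- deps: BDF BDX TWB PEL PM
def S_COR1 : Prop := ∀ g D m N : ℕ, 2 ≤ g → ∃ p0 : ℕ, ∀ (F M ι : Type) [Field F] [Fintype F]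
  [Field M] [Algebra (Kb F) M] [FF (Kb F) M] [Fintype ι] (C : Cv F g) (θ : SA (Kb F) M)
  (φ : ι → C.E →ₐ[Kb F] M) (π : Equiv.Perm ι) (f : ι → C.E) (i0 : ι), p0 < ringChar F →
  Fintype.card ι ≤ m → Tw C.σ θ.s φ π → ⨆ i, (φ i).fieldRange = ⊤ →
  (∀ i, Transcendental (Kb F) (f i) ∧ finrank (Kb F)⟮φ i (f i)⟯ M ≤ D) →
  θ.s (φ i0 (f i0)) = φ i0 (f i0) → ∃ X : Finset (Place (Kb F) M),
    N * Fintype.card F ≤ (N + 1) * #X ∧ (∀ Q ∈ X, θ.pl Q = Q) ∧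
      ∀ Q ∈ X, ∀ Q' ∈ X, (∀ i w, Q.v (φ i w) < 1 ↔ Q'.v (φ i w) < 1) → Q = Q'

-- deps: VEX DGM COR1
def S_CORE : Prop := ∀ g d m N : ℕ, 2 ≤ g → ∃ p0 : ℕ, ∀ (F Ω ι : Type) [Field F] [Fintype F]
  [Field Ω] [Algebra (Kb F) Ω] [Fintype ι] (C : Cv F g) (θ : Ω ≃+* Ω) (φ : ι → C.E →ₐ[Kb F] Ω)
  (π : Equiv.Perm ι) (f : ι → C.E) (i0 : ι), p0 < ringChar F → Fintype.card ι ≤ m →
  Tw C.σ θ φ π → (∀ i, Dg (Kb F) (f i) d ∧ φ i (f i) = φ i0 (f i)) →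
  θ (φ i0 (f i0)) = φ i0 (f i0) → ∃ X : Finset (ι → C.Pl), N * Fintype.card F ≤ (N + 1) * #X ∧
    ∀ T ∈ X, (∀ i, C.σ.pl (T i) = T (π i)) ∧ ∃ O : ValuationSubring Ω, ∀ i, Rs O (φ i) (T i)

-- deps: SUR RFB CORE
def S_CHG : Prop := ∀ g d m N : ℕ, 2 ≤ g → ∃ p0 : ℕ, ∀ (F Ω κ ι : Type) [Field F] [Fintype F]
  [Field Ω] [IsAlgClosed Ω] [Algebra (Kb F) Ω] [Fintype κ] [Fintype ι] (C : Cv F g) (θ : Ω ≃+* Ω)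
  (φ : κ → ι → C.E →ₐ[Kb F] Ω) (π : κ → Equiv.Perm ι) (f : κ → C.E) (a0 : κ) (i0 : ι),
  p0 < ringChar F → Fintype.card κ ≤ m → Fintype.card ι = d → f a0 ∈ C.E0 →
  (∀ a, Dg (Kb F) (f a) d ∧ Em (f a) (φ a) ∧ φ a i0 = φ a0 i0 ∧ Tw C.σ θ (φ a) (π a)) →
    ∃ X : Finset (κ → ι → C.Pl), N * Fintype.card F ≤ (N + 1) * #X ∧
      ∀ T ∈ X, ∀ a, T a i0 = T a0 i0 ∧ Tp C.σ (f a) (π a) (T a)

-- deps: XT EMB MON FRE CHG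
def S_CH1 : Prop := ∀ g d N : ℕ, 2 ≤ g → ∃ p0 : ℕ, ∀ (F ι : Type) [Field F] [Fintype F] [Fintype ι]
  (C : Cv F g) (f : C.E) (π : Equiv.Perm ι), p0 < ringChar F → Fintype.card ι = d → f ∈ C.E0 →
  Dg (Kb F) f d → SBr (Kb F) f d →
    ∃ X : Finset (ι → C.Pl), N * Fintype.card F ≤ (N + 1) * #X ∧ ∀ T ∈ X, Tp C.σ f π T

-- deps: XT EMB FRE GRP CHG
def S_CH2 : Prop := ∀ g n N : ℕ, 2 ≤ g → 2 ≤ n → ∃ p0 : ℕ, ∀ (F : Type) [Field F] [Fintype F]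
  (C : Cv F g) (f : C.E), p0 < ringChar F → f ∈ C.E0 → Dg (Kb F) f (n + 1) →
  SBr (Kb F) f (n + 1) → ∃ P0 : C.Pl, ∀ f' ∈ C.E0, Dg (Kb F) f' (n + 1) → SBr (Kb F) f' (n + 1) →
    Rd f' (n + 1) P0 → ∀ α β : Equiv.Perm (Fin n),
      ∃ X : Finset ((Option (Fin n) → C.Pl) × (Option (Fin n) → C.Pl)),
        N * Fintype.card F ≤ (N + 1) * #X ∧ ∀ T ∈ X, T.2 none = T.1 none ∧
          Tp C.σ f α.optionCongr T.1 ∧ Tp C.σ f' β.optionCongr T.2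

/-! ### Pencils of canonical divisors -/

-- deps:
def S_PEN : Prop := ∀ (k E : Type) [Field k] [IsAlgClosed k] [Field E] [Algebra k E] [FF k E]
  (D : Dv k E) (x y : E) (d : ℕ), 0 < d → deg D = d → x ∈ LS D → y ∈ LS D →
  (∀ P : Place k E, ¬ (P.v x < exp (D P) ∧ P.v y < exp (D P))) →
  (∀ a b : k, a ≠ 0 ∨ b ≠ 0 → a • x + b • y ≠ 0) → Dg k (x / y) d ∧
    (∀ (c : k) P, P ∈ (dv k (x - c • y) + D).support ↔ P.v (x / y - algebraMap k E c) < 1) ∧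
    (∀ P, P ∈ (dv k y + D).support ↔ 1 < P.v (x / y)) ∧
    ∀ (ι : Type) [Fintype ι] (T : ι → Place k E) (c : k), Fintype.card ι = d →
      Function.Injective T → (∀ i, (T i).v (x / y - algebraMap k E c) < 1) →
        dv k (x - c • y) + D = ∑ i, pt (T i)

-- deps: PEN
def S_PNR : Prop := ∀ (F : Type) [Field F] [Fintype F] (n : ℕ) (C : Cv F (n + 1))
  (R : Dv (Kb F) C.E) (P0 : C.Pl), 0 < n → R ∈ Eff C.σ.pl (n - 1) → Gr n C.W R P0 →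
    ∃ f ∈ C.E0, Dg (Kb F) f (n + 1) ∧ SBr (Kb F) f (n + 1) ∧ Rd f (n + 1) P0 ∧
      ∀ (α : Equiv.Perm (Fin n)) (T : Option (Fin n) → C.Pl), Tp C.σ f α.optionCongr T →
        C.Rat (T none) ∧ Ob C.σ α (fun i => T (some i)) ∧
          Pr (pt (T none) + ∑ i, pt (T (some i)) + R - C.W)

-- deps: CH2 PNR
def S_CH3 : Prop := ∀ n N : ℕ, 2 ≤ n → ∃ p0 : ℕ, ∀ (F : Type) [Field F] [Fintype F]
  (C : Cv F (n + 1)) (R : Dv (Kb F) C.E) (P1 : C.Pl), p0 < ringChar F → FB C.σ (Fintype.card F) →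
  R ∈ ef C.σ (n - 1) → Gr n C.W R P1 → ∃ P0 : C.Pl, ∀ R' ∈ ef C.σ (n - 1), Gr n C.W R' P0 →
    ∀ Z : Finset (Equiv.Perm (Fin n) × Equiv.Perm (Fin n)), N * Fintype.card F * #Z ≤
      (N + 1) * n.factorial ^ 2 *
        #{P ∈ fx C.σ 1 | ∃ z ∈ Z, Tr C.σ C.W R P z.1 ∧ Tr C.σ C.W R' P z.2}

-- deps:
def S_DIC : Prop := ∀ (k E : Type) [Field k] [Field E] [Algebra k E] [IsAlgClosed k] [FF k E]
  (K e : Pic k E) (n : ℕ) (σ : SA k E) (Q : ℕ) (Λ : LD Q n (J σ)) [Fintype (J σ)] (m : ℕ),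
  GB K (n + 1) → FB σ Q → IsL σ K e Λ →
    Dc e Λ m (Pm Λ m) {π | Cy π} ∧ Dc e Λ m (Sp Λ m) {1}

-- deps:
def S_CYC : Prop := ∀ n : ℕ, 2 ≤ n →
  n * #{π : Equiv.Perm (Fin n) | Cy π} = n.factorial ∧ ∃ π : Equiv.Perm (Fin n), Cy π

-- deps:
def S_MIXA : Prop := ∀ m c M : ℕ, ∃ N : ℕ, ∀ (α β : Type) (S : Finset α) (V0 : Finset β)
  (e : α → β → Prop) (G : β → β → Prop) (x q Q : ℕ), x ≤ m → N * #S ≤ (N + 1) * q → #V0 ≤ c * Q →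
  N * #{p ∈ V0 ×ˢ V0 | ¬ G p.1 p.2} ≤ Q ^ 2 → (∀ r ∈ V0, ∀ r' ∈ V0, G r r' →
    N * q * (x * m) ≤ (N + 1) * m ^ 2 * #{P ∈ S | e P r} ∧
    N * q * (x * m) ≤ (N + 1) * m ^ 2 * #{P ∈ S | e P r'} ∧
    N * q * (m ^ 2 - x ^ 2) ≤ (N + 1) * m ^ 2 * #{P ∈ S | ¬ (e P r ∧ e P r')}) →
  ∀ U ⊆ S, ∀ V ⊆ V0, M * |(m * #{p ∈ U ×ˢ V | e p.1 p.2} : ℤ) - x * #U * #V| ≤ q * Q

-- deps: CH3
def S_MX1 : Prop := ∀ n N : ℕ, 2 ≤ n → ∃ p0 : ℕ, ∀ (F : Type) [Field F] [Fintype F]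
  (C : Cv F (n + 1)) (e : Pic (Kb F) C.E) (Λ : LD (Fintype.card F) n (J C.σ)) [Fintype (J C.σ)]
  (p : J C.σ → Prop) (X : Finset (Equiv.Perm (Fin n))) (r : J C.σ) (R : Dv (Kb F) C.E) (P1 : C.Pl),
  p0 < ringChar F → Cx C e Λ → Dc e Λ n p X → R ∈ ef C.σ (n - 1) →
  (R : Pic (Kb F) C.E) = r.1 + (n - 1) • e → Gr n C.W R P1 → ∃ P0 : C.Pl, ∀ (r' : J C.σ),
    ∀ R' ∈ ef C.σ (n - 1), (R' : Pic (Kb F) C.E) = r'.1 + (n - 1) • e → Gr n C.W R' P0 →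
      N * Fintype.card F * (#X * n.factorial) ≤
        (N + 1) * n.factorial ^ 2 * #{s ∈ Λ.S | p (Λ.ω - s - r)} ∧
      N * Fintype.card F * (#X * n.factorial) ≤
        (N + 1) * n.factorial ^ 2 * #{s ∈ Λ.S | p (Λ.ω - s - r')} ∧
      N * Fintype.card F * (n.factorial ^ 2 - #X ^ 2) ≤
        (N + 1) * n.factorial ^ 2 * #{s ∈ Λ.S | ¬ (p (Λ.ω - s - r) ∧ p (Λ.ω - s - r'))}

-- deps: GEN MIXA MX1
def S_MX : Prop := ∀ n M : ℕ, 2 ≤ n → ∃ p0 : ℕ, ∀ (F : Type) [Field F] [Fintype F]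
  (C : Cv F (n + 1)) (e : Pic (Kb F) C.E) (Λ : LD (Fintype.card F) n (J C.σ)) [Fintype (J C.σ)]
  (p : J C.σ → Prop) (X : Finset (Equiv.Perm (Fin n))), p0 < ringChar F → Cx C e Λ →
  Dc e Λ n p X → ∀ U ⊆ Λ.S, ∀ V : Finset (J C.σ), (∀ r ∈ V, (Λ.W (n - 1)).coeff r = 1) →
    M * |(n.factorial * #{z ∈ U ×ˢ V | p (Λ.ω - z.1 - z.2)} : ℤ) - #X * #U * #V| ≤
      Fintype.card F ^ n

-- deps: GEN
def S_GOOD : Prop := ∀ n M : ℕ, 2 ≤ n → ∃ p0 : ℕ, ∀ (F : Type) [Field F] [Fintype F]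
  (C : Cv F (n + 1)) (e : Pic (Kb F) C.E) (Λ : LD (Fintype.card F) n (J C.σ)) [Fintype (J C.σ)],
  p0 < ringChar F → Cx C e Λ → ∃ B : Finset (J C.σ), M * #B ≤ Fintype.card F ^ (n - 1) ∧
    ∀ r ∉ B, (Λ.W (n - 1)).coeff r = 1 → ∀ s ∈ Λ.S, (Λ.W n).coeff (r + s) = 1

-- deps:
def S_MAR1 : Prop := ∀ (k E : Type) [Field k] [Field E] [Algebra k E] [IsAlgClosed k] [FF k E]
  (K e : Pic k E) (n : ℕ) (σ : SA k E) (Q : ℕ) (Λ : LD Q n (J σ)) [Fintype (J σ)], 0 < n →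
  GB K (n + 1) → FB σ Q → IsL σ K e Λ →
  (∀ (r : ℕ) (B : Finset (J σ)), (∀ a : J σ, ll (a.1 + (n - 1) • e) = r →
      ∀ s ∈ Λ.S, ll ((a + s).1 + n • e) = r + 1 → a ∈ B) →
    #{x : J σ | ll (x.1 + n • e) = r + 1} * (#Λ.S - n) ≤ (n + 1) * #B) ∧
  ∀ r, 0 < r → #{a : J σ | ll (a.1 + (n - 1) • e) = r} * (#Λ.S - (n + 1)) ≤
    n * #{x : J σ | ll (x.1 + n • e) = r}

-- deps: MAR1
def S_MAR : Prop := ∀ n M : ℕ, 0 < n → ∃ M0 q0 : ℕ, ∀ (k E : Type) [Field k] [Field E]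
  [Algebra k E] [IsAlgClosed k] [FF k E] (K e : Pic k E) (σ : SA k E) (Q : ℕ) (Λ : LD Q n (J σ))
  [Fintype (J σ)] (B : Finset (J σ)), q0 ≤ Q → GB K (n + 1) → FB σ Q → IsL σ K e Λ →
  M0 * #B ≤ Q ^ (n - 1) →
  (∀ r ∉ B, (Λ.W (n - 1)).coeff r = 1 → ∀ s ∈ Λ.S, (Λ.W n).coeff (r + s) = 1) →
    M * ∑ x with (Λ.W n).coeff x ≠ 1, (Λ.W n).coeff x ^ 2 ≤ Q ^ n

-- deps: CH1 PEN
def S_CH0A : Prop := ∀ n : ℕ, 0 < n → ∃ c p0 : ℕ, ∀ (F : Type) [Field F] [Fintype F]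
  (C : Cv F (n + 1)) (x y : C.E) (π : Equiv.Perm (Fin n)), p0 < ringChar F → x ∈ C.E0 → y ∈ C.E0 →
  x ∈ LS C.W → y ∈ LS C.W → Gp n C.W x y →
    Fintype.card F ≤ c * #{t : F | x - C.c t * y ≠ 0 ∧ Sl C.σ π (dv (Kb F) (x - C.c t * y) + C.W)}

-- deps: GEN0 CH0A
def S_CH0B : Prop := ∀ n : ℕ, 2 ≤ n → ∃ c p0 : ℕ, ∀ (F : Type) [Field F] [Fintype F]
  (C : Cv F (n + 1)) (π : Equiv.Perm (Fin n)), p0 < ringChar F → 0 ≤ C.W → ¬ G12 (Kb F) C.E →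
    ∃ Y : Finset (Dv (Kb F) C.E), Fintype.card F ^ n ≤ c * #Y ∧ ∀ H ∈ Y, Pr (H - C.W) ∧ Sl C.σ π H

-- deps: DIC CYC GOOD MAR CH0B
def S_CH0 : Prop := ∀ n : ℕ, 2 ≤ n → ∃ c p0 : ℕ, ∀ (F : Type) [Field F] [Fintype F]
  (C : Cv F (n + 1)) (e : Pic (Kb F) C.E) (Λ : LD (Fintype.card F) n (J C.σ)) [Fintype (J C.σ)],
  p0 < ringChar F → Cx C e Λ → Fintype.card F ^ n ≤ c * #{x | Pm Λ n x ∧ Pm Λ n (Λ.ω - x)}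

/-! ### The elementary data -/

-- deps:
def S_CLF : Prop := ∀ (k E : Type) [Field k] [Field E] [Algebra k E] [IsAlgClosed k] [FF k E]
  (K : Pic k E) (n : ℕ), GB K (n + 1) → ¬ G12 k E → ∀ x : Pic k E, 0 < dg x → dg x < 2 * n →
    2 * (ll x : ℤ) ≤ dg x + 1

-- deps:
def S_ED1 : Prop := ∀ (k E : Type) [Field k] [Field E] [Algebra k E] [IsAlgClosed k] [FF k E]
  (K e : Pic k E) (n : ℕ) (σ : SA k E) (Q : ℕ) (Λ : LD Q n (J σ)) [Fintype (J σ)], GB K (n + 1) →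
  FB σ Q → IsL σ K e Λ → (¬ G12 k E → Λ.NH) ∧ (∀ x, (Λ.W n).coeff (Λ.ω - x) = (Λ.W n).coeff x) ∧
    (∀ i j b, (Λ.W i * Λ.W j).coeff b ≤ 2 ^ (i + j) * (Λ.W (i + j)).coeff b) ∧
    (∀ m a, ∀ s ∈ Λ.S, (Λ.W m).coeff a ≤ (Λ.W (m + 1)).coeff (a + s)) ∧
    ∀ m j x b, (Λ.W (m + 1)).coeff x = 1 → j ≤ m + 1 → Sb Λ (m + 1) j x b → ∀ s ∈ Λ.S,
      (Λ.W m).coeff (x - s) ≠ 0 →
        (0 < j ∧ Sb Λ m (j - 1) (x - s) (b - s)) ∨ (j ≤ m ∧ Sb Λ m j (x - s) b)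

-- deps: CLF
def S_ED2 : Prop := ∀ n : ℕ, 2 ≤ n → ∃ c : ℕ, ∀ (k E : Type) [Field k] [Field E] [Algebra k E]
  [IsAlgClosed k] [FF k E] (K e : Pic k E) (σ : SA k E) (Q : ℕ) (Λ : LD Q n (J σ))
  [Fintype (J σ)], GB K (n + 1) → FB σ Q → IsL σ K e Λ → ¬ G12 k E →
  Nat.card (J σ) ≤ 2 ^ (n + 1) * Q ^ (n + 1) →
  (∀ j, 0 < j → j < n → ∀ s, Q * ∑ a, (Λ.W j).coeff a * (Λ.W j).coeff (s - a) ≤ c * Q ^ j) ∧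
    (∀ m < n, ∀ s, (m = 0 → s ≠ Λ.ω) →
      Q * ∑ a, (Λ.W m).coeff a * (Λ.W (2 * n - m)).coeff (a + s) ≤ c * Q ^ n) ∧
    ∑ a, (Λ.W (n + 1)).coeff a ^ 2 ≤ c * Q ^ (n + 1)

-- deps:
def S_RP : Prop := ∀ n : ℕ, ∃ q0 : ℕ, ∀ (k E : Type) [Field k] [Field E] [Algebra k E]
  [IsAlgClosed k] [FF k E] (K e : Pic k E) (σ : SA k E) (Q : ℕ) (Λ : LD Q n (J σ))
  [Fintype (J σ)] (m : ℕ), q0 ≤ Q → GB K (n + 1) → FB σ Q → IsL σ K e Λ → 0 < m → m ≤ n →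
  3 * Q ^ m ≤ 4 * #(fx σ m) → (∀ i, i ≠ 0 → #(fx σ i) ≤ 2 * Q ^ i) →
    Q ^ m ≤ 4 * m * #{x | Pm Λ m x}

end Pool.Agent.P.MP_9344a7_nt.Ac
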