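import Pool.Agent.P.MP_9344a7_nt.Ac.Iface
import Pool.Agent.P.MP_9344a7_nt.Ac.IfaceC
import Pool.Agent.P.MP_ab3ecb_nt.Inv.J.Wa

/-! Steps TPA, ED1, NHG, CLF, ED2. -/

set_option linter.unusedVariables false
set_option linter.unusedSectionVars false

namespace Pool.Agent.P.MP_9344a7_nt.Ac

section

open Polynomial Finset Module
open Pool.Agent.P.MP_6f117a_ag (Place FF)
open Pool.Agent.P.MP_ab3ecb_nt.Inv (Dv deg SA LS ev ord dv)
open Pool.Agent.P.MP_9344a7_nt.R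
open Pool.Agent.P.MP_9344a7_nt.Hy hiding pt
open Pool.Agent.P.MP_9344a7_nt.Od (GD Kp Fe)
open Pool.Agent.P.MP_9344a7_nt.Gt (pt lS Pr Can Bd Ch G12 Cv Kb)
open scoped Classical IntermediateField ComplexConjugate

section

variable {q n : ℕ} {A A' : Type} [AddCommGroup A] [Fintype A] [AddCommGroup A'] [Fintype A']
  {Λ : LD q n A} {Λ' : LD q n A'} {θ : A ≃+ A'}

lemma atpa_W (h : Λ.Tp θ Λ') (j : ℕ) (b : A') : (Λ'.W j).coeff b = (Λ.W j).coeff (θ.symm b) := by
  rw [h.W, tp_coeff]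

lemma atpa_om (h : Λ.Tp θ Λ') : θ.symm Λ'.ω = Λ.ω := by rw [h.ω, θ.symm_apply_apply]

lemma atpa_mem (θ : A ≃+ A') (U : Finset A) (b : A') : b ∈ U.image θ ↔ θ.symm b ∈ U := by
  obtain ⟨a, rfl⟩ := θ.surjective b
  simp

lemma atpa_S (h : Λ.Tp θ Λ') (b : A') : b ∈ Λ'.S ↔ θ.symm b ∈ Λ.S := by rw [h.S, atpa_mem]

lemma atpa_Sb (h : Λ.Tp θ Λ') (m j : ℕ) (x b : A') :
    Sb Λ' m j x b ↔ Sb Λ m j (θ.symm x) (θ.symm b) := by simp only [Sb, atpa_W h, map_sub]

lemma atpa_Pm (h : Λ.Tp θ Λ') (m : ℕ) (x : A') : Pm Λ' m x ↔ Pm Λ m (θ.symm x) := by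
  simp only [Pm, atpa_W h, atpa_Sb h, θ.symm.surjective.forall (p := fun b => ¬ Sb Λ _ _ _ b)]

lemma atpa_sub (h : Λ.Tp θ Λ') {U : Finset A'} (hU : U ⊆ Λ'.S) : U.image θ.symm ⊆ Λ.S :=
  image_subset_iff.2 fun b hb => (atpa_S h b).1 (hU hb)

lemma atpa_Sp (h : Λ.Tp θ Λ') (m : ℕ) (x : A') : Sp Λ' m x ↔ Sp Λ m (θ.symm x) := by
  rw [Sp, Sp, atpa_W h]
  refine and_congr_right fun _ => ⟨fun ⟨U, a, b, c⟩ => ⟨U.image θ.symm, atpa_sub h a, ?_, ?_⟩,
    fun ⟨U, a, b, c⟩ => ⟨U.image θ, h.S ▸ image_subset_image a, ?_, ?_⟩⟩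
  · rwa [card_image_of_injective _ θ.symm.injective]
  · rw [sum_image θ.symm.injective.injOn, ← map_sum, c]
  · rwa [card_image_of_injective _ θ.injective]
  · rw [sum_image θ.injective.injOn, ← map_sum, c, θ.apply_symm_apply]

lemma atpa_card (θ : A ≃+ A') (p : A → Prop) [DecidablePred p] :
    #{x | p (θ.symm x)} = #{x | p x} :=
  card_equiv θ.symm.toEquiv (by simp)

lemma atpa_pair (θ : A ≃+ A') (U V : Finset A') (p : A × A → Prop) :
    #{x ∈ U ×ˢ V | p (θ.symm x.1, θ.symm x.2)} =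
      #{x ∈ U.image θ.symm ×ˢ V.image θ.symm | p x} :=
  card_equiv (θ.symm.toEquiv.prodCongr θ.symm.toEquiv) fun x => by
    simp [Prod.map]

lemma atpa_gd {c : ℕ} (h : Λ.Tp θ Λ') (g : GD Λ c) : GD Λ' c := by
  have hW := atpa_W h
  refine ⟨fun j hj => ?_, fun j hj b hb => ?_, ?_, fun χ => ?_, ?_⟩
  · simp only [hW]
    exact (θ.symm.toEquiv.sum_comp fun a => (Λ.W j).coeff a ^ 2).trans_le (g.e0 j hj)
  · simp only [hW, map_add]
    have := g.e1 j hj (θ.symm b) (by simpa using hb)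
    rwa [← θ.symm.toEquiv.sum_comp] at this
  · obtain ⟨T, t1, t2, t3⟩ := g.pr
    refine ⟨T.image θ, by rwa [card_image_of_injective _ θ.injective], fun x hx => ?_,
      fun j j0 jn a ha => ?_⟩
    · rw [hW, t2 _ ((atpa_mem θ T x).1 hx)]
    · rw [filter_image, card_image_of_injective _ θ.injective]
      simp only [hW, map_sub, θ.symm_apply_apply]
      exact t3 j j0 jn _ fun e => by simpa using ha e
  · simp only [h.W, ev_pu]
    exact g.nw _
  · rw [h.W, ev_pu]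
    exact g.ms

lemma atpa_ed {c : ℕ} (h : Λ.Tp θ Λ') (g : ED Λ c) : ED Λ' c := by
  have hW := atpa_W h
  have ho := atpa_om h
  refine ⟨atpa_gd h g.gd, fun b => by rw [hW]; exact g.nh _, fun x => ?_,
    fun j a => by rw [hW]; exact g.pw _ _, fun i j b => ?_, fun m a s hs => ?_,
    fun m j x b h1 h2 h3 s hs h4 => ?_, fun j a b s => ?_, fun m a s b => ?_, ?_, ?_⟩
  · rw [hW, hW, map_sub, ho, g.sym]
  · rw [hW, h.W, h.W, ← map_mul, tp_coeff]
    exact g.mul _ _ _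
  · rw [hW, hW, map_add]
    exact g.mono _ _ _ ((atpa_S h s).1 hs)
  · simp only [atpa_Sb h, hW, map_sub] at h1 h3 h4 ⊢
    exact g.uf m j _ _ h1 h2 h3 _ ((atpa_S h s).1 hs) h4
  · simp only [hW, map_sub]
    have := g.clf j a b (θ.symm s)
    rwa [← θ.symm.toEquiv.sum_comp] at this
  · simp only [hW, map_add]
    have := g.exc m a (θ.symm s) fun e e' => b e (θ.symm.injective (e'.trans ho.symm))
    rwa [← θ.symm.toEquiv.sum_comp] at this
  · simp only [hW]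
    exact (θ.symm.toEquiv.sum_comp fun a => (Λ.W (n + 1)).coeff a ^ 2).trans_le g.eg
  · simp only [atpa_Pm h]
    rw [atpa_card θ (Pm Λ (n - 1))]
    exact g.rp

lemma atpa_cd {c M : ℕ} (h : Λ.Tp θ Λ') (g : CD Λ c M) : CD Λ' c M := by
  have hW := atpa_W h
  have ho := atpa_om h
  have hc := fun U : Finset A' => card_image_of_injective U θ.symm.injective
  refine ⟨?_, fun U a V b => ?_, fun U a V b => ?_, ?_, ?_⟩
  · rw [h.S, card_image_of_injective _ θ.injective]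
    exact g.card
  · have := g.mxp _ (atpa_sub h a) (V.image θ.symm) (forall_mem_image.2 fun r hr => hW _ r ▸ b r hr)
    rw [hc, hc, ← atpa_pair] at this
    simpa only [atpa_Pm h, map_sub, ho] using this
  · have := g.mxs _ (atpa_sub h a) (V.image θ.symm) (forall_mem_image.2 fun r hr => hW _ r ▸ b r hr)
    rw [hc, hc, ← atpa_pair] at this
    simpa only [atpa_Sp h, map_sub, ho] using this
  · obtain ⟨B, a, b⟩ := g.good
    refine ⟨B.image θ, by rwa [card_image_of_injective _ θ.injective], fun r h1 h2 s hs => ?_⟩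
    rw [hW] at h2
    rw [hW, map_add]
    exact b _ (fun e => h1 ((atpa_mem θ B r).2 e)) h2 _ ((atpa_S h s).1 hs)
  · simp only [atpa_Pm h, map_sub, ho]
    rw [atpa_card θ fun x => Pm Λ n x ∧ Pm Λ n (Λ.ω - x)]
    exact g.ch0

end

theorem p_TPA :
    S_TPA := by
  intro q n c M u a A A' _ _ _ _ Λ Λ' θ h g
  refine ⟨atpa_ed h g.ed, atpa_cd h g.cd, fun j j0 jn X Y hX hY => ?_⟩
  have hc := fun U : Finset A' => card_image_of_injective U θ.symm.injective
  obtain ⟨Z, L, h1, h2, h3⟩ := g.td j j0 jn (X.image θ.symm) (Y.image θ.symm) (by rwa [hc])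
    (by rwa [hc])
  refine ⟨Z.image θ, L.image θ, by rwa [card_image_of_injective _ θ.injective],
    by rwa [card_image_of_injective _ θ.injective], fun x hx y hy h4 h5 => ?_⟩
  rw [atpa_mem, map_add] at h4
  rw [atpa_W h, map_add] at h5
  obtain ⟨t, h6, h7⟩ := h3 _ (mem_image_of_mem _ hx) _ (mem_image_of_mem _ hy) h4 h5
  refine ⟨θ t, mem_image_of_mem _ h6, ?_⟩
  simpa only [atpa_Sb h, map_sub, map_add, atpa_om h, θ.symm_apply_apply] using h7

end

section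

open Finset Module WithZero
open Pool.Agent.P.MP_6f117a_ag (Place FF)
open Pool.Agent.P.MP_ab3ecb_nt.Inv (Dv deg SA LS ev ord dv)
open Pool.Agent.P.MP_9344a7_nt.R
open Pool.Agent.P.MP_9344a7_nt.Hy hiding pt ev
open Pool.Agent.P.MP_9344a7_nt.Gt (pt lS Pr Can Bd Ch G12 Cv Kb)
open scoped Classical IntermediateField

section

variable {k E : Type} [Field k] [Field E] [Algebra k E] [IsAlgClosed k] [FF k E]
  {τ : Equiv.Perm (Place k E)} {P : Place k E} {A : Dv k E} {j : ℕ}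

lemma ced1_pt (h : τ P = P) (R : Place k E) : pt P (τ R) = pt P R := by
  conv_lhs => rw [← h]
  exact Finsupp.single_apply_left τ.injective _ _ _

lemma ced1_add (hA : A ∈ Eff τ j) (h : τ P = P) : A + pt P ∈ Eff τ (j + 1) :=
  ⟨add_nonneg hA.1 (Gt.pt_nonneg P), fun R => by
    rw [Finsupp.add_apply, Finsupp.add_apply, hA.2.1, ced1_pt h], by simp [hA.2.2]⟩

lemma ced1_sub (hA : A ∈ Eff τ j) (h : τ P = P) (hP : A P ≠ 0) :
    0 < j ∧ A - pt P ∈ Eff τ (j - 1) := by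
  have h2 : 0 ≤ A - pt P := sub_nonneg.2 fun R => by
    rw [Finsupp.single_apply]
    split_ifs with e
    · exact e ▸ lt_of_le_of_ne (hA.1 P) hP.symm
    · exact hA.1 R
  have h3 : deg (A - pt P) = j - 1 := by simp [hA.2.2]
  have h4 := MP_ab3ecb_nt.Inv.deg_nonneg h2
  exact ⟨by omega, h2, fun R => by
    rw [Finsupp.sub_apply, Finsupp.sub_apply, hA.2.1, ced1_pt h], by omega⟩

lemma ced1_ex (hA : A ∈ Eff τ (j + 1)) : ∃ P, A P ≠ 0 := by
  obtain ⟨P, hP⟩ := Finsupp.support_nonempty_iff.2 fun e : A = 0 => by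
    have := hA.2.2
    rw [e, map_zero] at this
    omega
  exact ⟨P, Finsupp.mem_support_iff.1 hP⟩

lemma ced1_two (hA : A ∈ Eff 1 2) : ∃ P R, A = pt P + pt R := by
  obtain ⟨P, hP⟩ := ced1_ex hA
  have h1 := (ced1_sub hA rfl hP).2
  obtain ⟨R, hR⟩ := ced1_ex h1
  have h2 := (ced1_sub h1 rfl hR).2
  have := MP_ab3ecb_nt.Inv.eq_zero_of_deg h2.1 h2.2.2
  exact ⟨P, R, by rw [sub_sub, sub_eq_zero] at this; exact this⟩

lemma ced1_ne {σ : SA k E} {Q n : ℕ} {K e : Pic k E} {Λ : LD Q n (J σ)} (fb : FB σ Q)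
    (il : IsL σ K e Λ) (j : ℕ) (a : J σ) :
    (Λ.W j).coeff a ≠ 0 ↔ ∃ A ∈ Eff σ.pl j, (A : Pic k E) = a.1 + j • e := by
  rw [il.W, Nat.cast_ne_zero, card_ne_zero]
  exact exists_congr fun A => by rw [mem_filter, fb.ef]

end

theorem p_ED1 :
    S_ED1 := by
  intro k E _ _ _ _ _ K e n σ Q Λ _ gb fb il
  obtain ⟨-, p2, p3⟩ := Od.a_PW k E K e n σ Q Λ gb fb il
  have hS : ∀ s ∈ Λ.S, ∃ P, σ.pl P = P ∧ (pt P : Pic k E) = s.1 + e := fun s hs => by
    obtain ⟨P, h1, h2⟩ := (fb.SS e s).1 (il.S ▸ hs)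
    exact ⟨P, h1, by rw [h2, sub_add_cancel]; rfl⟩
  have sy : ∀ x, (Λ.W n).coeff x ≤ (Λ.W n).coeff (Λ.ω - x) := fun x => by
    have := p2 n le_rfl x
    rwa [Nat.sub_self, pow_zero, one_mul, two_mul, Nat.add_sub_cancel] at this
  refine ⟨fun h b => not_lt.1 fun c => h ?_, fun x => le_antisymm ?_ (sy x), fun i j b => ?_,
    fun m a s hs => ?_, fun m j x b hx hj hb s hs h3 => ?_⟩
  · obtain ⟨A, h1, h2⟩ := (ced1_ne fb il 2 b).1 (by omega)
    obtain ⟨P, R, rfl⟩ := ced1_two ⟨h1.1, fun _ => rfl, h1.2.2⟩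
    refine ⟨P, R, fun c1 => c.ne' ((p3 2 b).2.1.2 ?_)⟩
    rw [← h2, ll_mk]
    exact c1
  · simpa using sy (Λ.ω - x)
  · rw [Hy.coeff_mul]
    simp only [il.W i, il.W j, il.W (i + j)]
    exact_mod_cast Od.opw_pair fb e i j b
  · obtain ⟨P, h1, h2⟩ := hS s hs
    rw [il.W, il.W, Nat.cast_le]
    refine card_le_card_of_injOn (· + pt P) (fun A hA => ?_) (add_left_injective _).injOn
    obtain ⟨a1, a2⟩ := mem_filter.1 (mem_coe.1 hA)
    refine mem_coe.2 (mem_filter.2 ⟨(fb.ef _ _).2 (ced1_add ((fb.ef _ _).1 a1) h1), ?_⟩)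
    rw [QuotientAddGroup.mk_add, a2, h2, AddSubgroup.coe_add, succ_nsmul]
    abel
  · obtain ⟨P, h1, h2⟩ := hS s hs
    obtain ⟨A1, a1, b1⟩ := (ced1_ne fb il _ _).1 hb.1
    obtain ⟨A2, a2, b2⟩ := (ced1_ne fb il _ _).1 hb.2
    obtain ⟨A3, a3, b3⟩ := (ced1_ne fb il _ _).1 h3
    have hc : ((A3 + pt P : Dv k E) : Pic k E) = x.1 + (m + 1) • e := by
      rw [QuotientAddGroup.mk_add, b3, h2, AddSubgroup.coe_sub, succ_nsmul]
      abel
    have d5 : A1 + A2 = A3 + pt P := by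
      refine eff_unique ((ll_mk _).symm.trans ?_) (ced1_add a3 h1).1 (add_nonneg a1.1 a2.1)
        (mk_eq.1 ?_)
      · rw [hc]
        exact (p3 _ x).2.1.1 hx
      · rw [QuotientAddGroup.mk_add, b1, b2, hc, AddSubgroup.coe_sub, add_add_add_comm,
          ← add_nsmul, Nat.add_sub_cancel' hj, add_sub_cancel]
    have d6 := DFunLike.congr_fun d5 P
    have d7 : 0 ≤ A3 P := a3.1 P
    rw [Finsupp.add_apply, Finsupp.add_apply, Finsupp.single_eq_same] at d6
    by_cases c : A1 P = 0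
    · obtain ⟨c1, c2⟩ := ced1_sub a2 h1 (by omega)
      obtain ⟨i, rfl⟩ : ∃ i, m = i + j := ⟨m - j, by omega⟩
      rw [show i + j + 1 - j = i + 1 by omega] at b2 c2
      refine .inr ⟨by omega, hb.1, (ced1_ne fb il _ _).2 ⟨A2 - pt P, ?_, ?_⟩⟩
      · rwa [Nat.add_sub_cancel] at c2 ⊢
      · rw [QuotientAddGroup.mk_sub, b2, h2, Nat.add_sub_cancel, succ_nsmul]
        simp only [AddSubgroup.coe_sub]
        abel
    · obtain ⟨c1, c2⟩ := ced1_sub a1 h1 c
      obtain ⟨i, rfl⟩ : ∃ i, j = i + 1 := ⟨j - 1, by omega⟩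
      refine .inl ⟨c1, (ced1_ne fb il _ _).2 ⟨_, c2, ?_⟩, ?_⟩
      · rw [QuotientAddGroup.mk_sub, b1, h2, Nat.add_sub_cancel, succ_nsmul, AddSubgroup.coe_sub]
        abel
      · rw [sub_sub_sub_cancel_right, Nat.add_sub_cancel, ← Nat.add_sub_add_right m 1 i]
        exact hb.2

end

section

open Polynomial Finset Module
open Pool.Agent.P.MP_6f117a_ag (Place FF)
open Pool.Agent.P.MP_ab3ecb_nt.Inv (Dv deg SA LS ev ord dv)
open Pool.Agent.P.MP_9344a7_nt.R
open Pool.Agent.P.MP_9344a7_nt.Hy hiding pt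
open Pool.Agent.P.MP_9344a7_nt.Od (GD Kp Fe)
open Pool.Agent.P.MP_9344a7_nt.Gt (pt lS Pr Can Bd Ch G12 Cv Kb)
open scoped Classical IntermediateField ComplexConjugate

theorem p_NHG (hED1 : S_ED1) :
    S_NHG := by
  intro k E _ _ _ _ _ K e n σ Q Λ G hn h hL
  have := h.fin
  have := Fintype.ofFinite (J σ)
  by_cases g : G12 k E
  · obtain ⟨P, R, g⟩ := g
    have d : dg ((pt P + pt R : Dv k E) : Pic k E) = 2 := by simp
    have l : ll ((pt P + pt R : Dv k E) : Pic k E) = 2 := by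
      have a := Gt.lS_pos (add_nonneg (Gt.pt_nonneg P) (Gt.pt_nonneg R))
      have b := Gt.lS_step (pt P + pt R) R
      have c : lS (pt P) = 1 := (ll_mk _).symm.trans (G.one P)
      rw [add_sub_cancel_right] at b
      rw [ll_mk]
      change lS _ = 2
      omega
    obtain ⟨ι, y⟩ := Hy.a_HY k E K _ _ G (by omega) d l
    refine .inr ⟨_, by_contra fun e => ?_, d, l⟩
    have := y.mid 1 (by omega) (ph σ _) (by rw [dg_ph, d]; rfl) (by rwa [one_nsmul])
    rw [ll_ph] at this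
    omega
  · exact .inl ⟨(hED1 k E K e n σ Q Λ G h hL).1 g, g⟩

end

section

open Finset Module WithZero
open Pool.Agent.P.MP_6f117a_ag (Place FF)
open Pool.Agent.P.MP_ab3ecb_nt.Inv (Dv deg SA LS ev ord dv)
open Pool.Agent.P.MP_9344a7_nt.R
open Pool.Agent.P.MP_9344a7_nt.Hy hiding pt ev
open Pool.Agent.P.MP_9344a7_nt.Gt (pt lS Pr Can Bd Ch G12 Cv Kb)
open scoped Classical IntermediateField

section

variable {k E : Type} [Field k] [Field E] [Algebra k E] [IsAlgClosed k] [FF k E]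

lemma cclf_step (x : Pic k E) (P : Place k E) : ll x ≤ ll (x - cls P) + 1 := by
  obtain ⟨D, rfl⟩ := QuotientAddGroup.mk_surjective x
  have := Gt.lS_step D P
  rwa [lS, lS, ← ll_mk, ← ll_mk] at this

lemma cclf_inf (D B : Dv k E) : ll (D : Pic k E) + ll (B : Pic k E) ≤
    ll ((D ⊓ B : Dv k E) : Pic k E) + ll ((D : Pic k E) + (B : Pic k E) - ((D ⊓ B : Dv k E) : Pic k E)) := by
  have := rr_fd D
  have := rr_fd B
  have := rr_fd (D ⊔ B)
  have e : (D : Pic k E) + (B : Pic k E) - ((D ⊓ B : Dv k E) : Pic k E) =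
      ((D ⊔ B : Dv k E) : Pic k E) := by
    rw [← QuotientAddGroup.mk_add, ← QuotientAddGroup.mk_sub, ← inf_add_sup, add_sub_cancel_left]
  rw [e, ll_mk, ll_mk, ll_mk, ll_mk, ← Submodule.finrank_sup_add_finrank_inf_eq, LS_inf, add_comm]
  exact Nat.add_le_add_left (Submodule.finrank_mono (sup_le
    (MP_ab3ecb_nt.Inv.LS_mono le_sup_left) (MP_ab3ecb_nt.Inv.LS_mono le_sup_right))) _

end

theorem p_CLF :
    S_CLF := by
  intro k E _ _ _ _ _ K n gb hG x h0 h1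
  generalize hd : (dg x).toNat = d
  induction d using Nat.strong_induction_on generalizing x with | _ d ih
  by_contra! hc
  have r1 := gb.rg x
  have hK := gb.dgK
  obtain ⟨B, hB, eB⟩ := ll_eff (x := K - x) (by omega)
  have dB : deg B = dg K - dg x := by rw [← map_sub, ← eB, dg_mk]
  obtain ⟨P, hP⟩ := Finsupp.support_nonempty_iff.2 fun e : B = 0 => by
    rw [e, map_zero] at dB
    omega
  have s1 := cclf_step x P
  have d1 : dg (x - cls P) = dg x - 1 := by rw [map_sub, dg_cls]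
  rcases lt_trichotomy (dg x) 2 with h | h | h
  · obtain ⟨Q, rfl⟩ := ll_deg1 (x := x) (by omega) (by omega)
    have := gb.one Q
    omega
  · obtain ⟨Q, e⟩ := ll_deg1 (x := x - cls P) (by omega) (by omega)
    refine hG ⟨Q, P, ?_⟩
    rw [lS, ← ll_mk, QuotientAddGroup.mk_add, show ((pt Q : Dv k E) : Pic k E) = _ from e,
      show ((pt P : Dv k E) : Pic k E) = cls P from rfl, sub_add_cancel]
    omega
  have := MP_ab3ecb_nt.Inv.wa_inf P.π_trans
  obtain ⟨Q, hQ⟩ := Infinite.exists_notMem_finset B.support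
  have s2 := cclf_step (x - cls P) Q
  obtain ⟨A, hA, eA⟩ := ll_eff (x := x - cls P - cls Q) (by omega)
  have eD : ((A + pt P + pt Q : Dv k E) : Pic k E) = x := by
    rw [QuotientAddGroup.mk_add, QuotientAddGroup.mk_add, eA]
    change x - cls P - cls Q + cls P + cls Q = x
    abel
  have g1 : pt P ≤ (A + pt P + pt Q) ⊓ B := le_inf
    (le_add_of_le_of_nonneg (le_add_of_nonneg_left hA) (Gt.pt_nonneg Q))
    fun R => by
      have h2 : 0 ≤ B R := hB R
      rcases eq_or_ne R P with rfl | e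
      · have := Finsupp.mem_support_iff.1 hP
        rw [Finsupp.single_eq_same]
        omega
      · rwa [Gt.pt_ne e]
  have g2 : (A + pt P + pt Q) ⊓ B ≤ A + pt P := fun R => by
    rcases eq_or_ne R Q with rfl | e
    · exact (inf_le_right (a := A + pt P + pt R) R).trans
        ((Finsupp.notMem_support_iff.1 hQ).trans_le (add_nonneg hA (Gt.pt_nonneg P) R))
    · exact (inf_le_left (b := B) R).trans (by rw [Finsupp.add_apply, Gt.pt_ne e, add_zero])
  have i1 := cclf_inf (A + pt P + pt Q) B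
  have d2 := congrArg dg eD
  replace g1 := MP_ab3ecb_nt.Inv.deg_mono g1
  replace g2 := MP_ab3ecb_nt.Inv.deg_mono g2
  rw [dg_mk, map_add, MP_ab3ecb_nt.Inv.deg_single] at d2
  rw [MP_ab3ecb_nt.Inv.deg_single] at g1
  rw [eD, eB, add_sub_cancel] at i1
  rw [← dg_mk] at g1
  rw [← dg_mk (_ ⊓ _)] at g2
  generalize (((A + pt P + pt Q) ⊓ B : Dv k E) : Pic k E) = y at *
  have r2 := gb.rg y
  have := ih _ (by omega) y (by omega) (by omega) rfl
  omega

end

section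

open Finset Module WithZero
open Pool.Agent.P.MP_6f117a_ag (Place FF)
open Pool.Agent.P.MP_ab3ecb_nt.Inv (Dv deg SA LS ev ord dv)
open Pool.Agent.P.MP_9344a7_nt.R
open Pool.Agent.P.MP_9344a7_nt.Hy hiding pt ev
open Pool.Agent.P.MP_9344a7_nt.Gt (pt lS Pr Can Bd Ch G12 Cv Kb)
open scoped Classical IntermediateField

lemma ced2_rr {k E : Type} [Field k] [Field E] [Algebra k E] [IsAlgClosed k] [FF k E]
    {K e : Pic k E} {n : ℕ} {σ : SA k E} {Q : ℕ} {Λ : LD Q n (J σ)} (g : GB K (n + 1))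
    (fb : FB σ Q) (hL : IsL σ K e Λ) {j : ℕ} (hj : j ≤ n) (a : J σ) :
    ((Λ.W (2 * n - j)).coeff (Λ.ω - a) - (Q : ℤ) ^ (n - j) * (Λ.W j).coeff a) * (Q - 1) =
      (Q : ℤ) ^ (n - j) - 1 := by
  have hQ : 2 ≤ Q := fb.fr.1
  have d : ∀ (a : J σ) (j : ℕ), dg (a.1 + j • e) = j := fun a j => by
    simp [hL.e2, (mem_J.1 a.2).2]
  have c := fun (a : J σ) (j : ℕ) => fb.cnt j (a.1 + j • e)
    (by rw [map_add, map_nsmul, hL.e1, (mem_J.1 a.2).1]) (d a j)
  have r := g.rg (a.1 + j • e)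
  have e3 : (Λ.ω - a).1 + (2 * n - j) • e = K - (a.1 + j • e) := by
    obtain ⟨i, hi⟩ : ∃ i, 2 * n = i + j := ⟨2 * n - j, by omega⟩
    rw [AddSubgroup.coe_sub, hL.ω, hi, Nat.add_sub_cancel, add_nsmul]
    abel
  have c1 := c a j
  have c2 := c (Λ.ω - a) (2 * n - j)
  rw [d] at r
  rw [show ll ((Λ.ω - a).1 + (2 * n - j) • e) = n - j + ll (a.1 + j • e) by rw [e3]; omega,
    pow_add, ← c1] at c2
  rw [hL.W, hL.W]
  zify [show 1 ≤ Q by omega] at c2
  linear_combination c2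

theorem p_ED2 (hCLF : S_CLF) :
    S_ED2 := by
  intro n hn
  refine ⟨2 ^ (n + 2) + 3 * 2 ^ (2 * n + 1), fun k E _ _ _ _ _ K e σ Q Λ _ gb fb il hG hc => ?_⟩
  obtain ⟨p1, -, -⟩ := Od.a_PW k E K e n σ Q Λ gb fb il
  obtain ⟨g1, -, -⟩ := Od.a_G01 k E K e n σ Q Λ gb fb il
  have hQ : (2 : ℤ) ≤ Q := by exact_mod_cast fb.fr.1
  have q0 : (0 : ℤ) < Q := by omega
  have clf : ∀ j, 0 < j → j < n → ∀ s,
      Q * ∑ a, (Λ.W j).coeff a * (Λ.W j).coeff (s - a) ≤ 2 ^ (2 * n + 1) * (Q : ℤ) ^ j := by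
    intro j h0 hj s
    have d : dg (s.1 + (j + j) • e) = (j + j : ℕ) := by simp [il.e2, (mem_J.1 s.2).2]
    have h := hCLF k E K n gb hG (s.1 + (j + j) • e) (by rw [d]; omega) (by rw [d]; omega)
    rw [d] at h
    exact (p1 j j s).trans (mul_le_mul (pow_le_pow_right₀ one_le_two (by omega))
      (pow_le_pow_right₀ q0 (by omega)) (by positivity) (by positivity))
  have t1 : (0 : ℤ) < 2 ^ (n + 2) := by positivity
  have t2 : (0 : ℤ) < 2 ^ (2 * n + 1) := by positivity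
  push_cast
  refine ⟨fun j h0 hj s => (clf j h0 hj s).trans
    (mul_le_mul_of_nonneg_right (by linarith) (by positivity)), fun m hm s hs => ?_, ?_⟩
  · have p0 : (0 : ℤ) < (Q : ℤ) ^ (n - m) := by positivity
    have h1 : ∀ a, Q * ((Λ.W m).coeff a * (Λ.W (2 * n - m)).coeff (a + s)) ≤
        (Q : ℤ) ^ (n - m) * (Q * ((Λ.W m).coeff a * (Λ.W m).coeff (Λ.ω - s - a))) +
          2 * (Q : ℤ) ^ (n - m) * (Λ.W m).coeff a ^ 2 := fun a => by
      have r := ced2_rr gb fb il hm.le (Λ.ω - s - a)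
      rw [show Λ.ω - (Λ.ω - s - a) = a + s by abel] at r
      have w0 := Λ.nn m a
      generalize (Λ.W (2 * n - m)).coeff (a + s) = x at r ⊢
      generalize (Λ.W m).coeff (Λ.ω - s - a) = y at r ⊢
      generalize (Λ.W m).coeff a = w at w0 ⊢
      generalize (Q : ℤ) ^ (n - m) = P at r p0 ⊢
      have h2 : 0 ≤ x - P * y := nonneg_of_mul_nonneg_left (b := (Q : ℤ) - 1)
        (by rw [r]; omega) (by omega)
      have h3 : Q * (x - P * y) ≤ 2 * P := by nlinarith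
      have h4 : w ≤ w ^ 2 := Int.le_self_sq w
      nlinarith [mul_le_mul_of_nonneg_left h3 w0, mul_le_mul_of_nonneg_left h4 p0.le]
    have h2 : Q * ∑ a, (Λ.W m).coeff a * (Λ.W m).coeff (Λ.ω - s - a) ≤
        2 ^ (2 * n + 1) * (Q : ℤ) ^ m := by
      rcases Nat.eq_zero_or_pos m with rfl | h0
      · rw [sum_eq_zero fun a _ => ?_, mul_zero]
        · positivity
        · rw [Λ.w0]
          by_cases ha : a = 0
          · have : Λ.ω - s - a ≠ 0 := by
              rw [ha, sub_zero, sub_ne_zero]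
              exact (hs rfl).symm
            simp [AddMonoidAlgebra.one_def, Finsupp.single_apply, this.symm]
          · simp [AddMonoidAlgebra.one_def, Finsupp.single_apply, Ne.symm ha]
      · exact clf m h0 hm _
    have h3 := g1 m hm.le
    have h4 : (Q : ℤ) ^ n = (Q : ℤ) ^ (n - m) * (Q : ℤ) ^ m := by
      rw [← pow_add, Nat.sub_add_cancel hm.le]
    rw [mul_sum]
    refine (sum_le_sum fun a _ => h1 a).trans ?_
    rw [sum_add_distrib, ← mul_sum, ← mul_sum, ← mul_sum, h4]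
    have p1 : (0 : ℤ) < (Q : ℤ) ^ m := by positivity
    nlinarith [mul_le_mul_of_nonneg_left h2 p0.le, mul_le_mul_of_nonneg_left h3 p0.le,
      mul_pos t1 (mul_pos p0 p1)]
  · have h1 : ∀ a, (Λ.W (n + 1)).coeff (Λ.ω - a) ^ 2 ≤
        2 + 2 * (Q : ℤ) ^ 2 * (Λ.W (n - 1)).coeff a ^ 2 := fun a => by
      have r := ced2_rr gb fb il (Nat.sub_le n 1) a
      rw [show 2 * n - (n - 1) = n + 1 by omega, show n - (n - 1) = 1 by omega, pow_one] at r
      have h2 : (Λ.W (n + 1)).coeff (Λ.ω - a) - Q * (Λ.W (n - 1)).coeff a = 1 :=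
        mul_right_cancel₀ (b := (Q : ℤ) - 1) (by omega) (by rw [r, one_mul])
      rw [sub_eq_iff_eq_add.1 h2]
      nlinarith [sq_nonneg (1 - Q * (Λ.W (n - 1)).coeff a)]
    rw [← Equiv.sum_comp (Equiv.subLeft Λ.ω)]
    refine (sum_le_sum fun a _ => h1 a).trans ?_
    rw [sum_add_distrib, ← mul_sum, sum_const, card_univ, ← Nat.card_eq_fintype_card, nsmul_eq_mul]
    have h2 : (Nat.card (J σ) : ℤ) ≤ 2 ^ (n + 1) * (Q : ℤ) ^ (n + 1) := by exact_mod_cast hc
    have h3 := mul_le_mul_of_nonneg_left (g1 (n - 1) (Nat.sub_le n 1))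
      (show 0 ≤ 2 * (Q : ℤ) ^ 2 by positivity)
    have h4 : (Q : ℤ) ^ (n + 1) = (Q : ℤ) ^ 2 * (Q : ℤ) ^ (n - 1) := by
      rw [← pow_add]
      congr 1
      omega
    have p1 : (0 : ℤ) < 2 ^ (2 * n + 1) * (Q : ℤ) ^ (n + 1) := by positivity
    rw [pow_succ 2 (n + 1)]
    rw [h4] at h2 p1 ⊢
    linarith

end

end Pool.Agent.P.MP_9344a7_nt.Ac
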