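import Pool.Agent.P.MP_9344a7_nt.Ac.IfaceC
import Pool.Agent.P.MP_9344a7_nt.Ac.Iface

/-! Steps RP, ED, DIC, CYC, BDF, MIXA, XT, SEP, EMB, FRE. -/

set_option linter.unusedVariables false
set_option linter.unusedSectionVars false

namespace Pool.Agent.P.MP_9344a7_nt.Ac

section

open Finset Module WithZero
open Pool.Agent.P.MP_6f117a_ag (Place FF)
open Pool.Agent.P.MP_ab3ecb_nt.Inv (Dv deg SA LS ev ord dv)
open Pool.Agent.P.MP_9344a7_nt.R
open Pool.Agent.P.MP_9344a7_nt.Hy hiding pt ev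
open Pool.Agent.P.MP_9344a7_nt.Gt (pt lS Pr Can Bd Ch G12 Cv Kb)
open scoped Classical IntermediateField

theorem p_RP :
    S_RP := by
  intro N
  refine ⟨2 * N * 2 ^ (2 * N + 1) + 4 * N, ?_⟩
  intro k E _ _ _ _ _ K e σ Q Λ _ n hQ gb fb il hn hN h1 h2
  obtain ⟨-, -, pw⟩ := Od.a_PW k E K e N σ Q Λ gb fb il
  have g1 := (Od.a_G01 k E K e N σ Q Λ gb fb il).1 n hN
  replace hQ : 2 * n * 2 ^ (2 * N + 1) + 4 * n ≤ Q := le_trans (by gcongr) hQ
  have Q0 : 0 < Q := by omega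
  set T : Finset (J σ) := {x | Pm Λ n x} with hT
  set G := {P ∈ fx σ n | ∀ i < n, i ≠ 0 → σ.pl^[i] P ≠ P} with hG
  let F : J σ → Finset (Dv k E) := fun x =>
    (ef σ n).filter fun A : Dv k E => (A : Pic k E) = x.1 + n • e
  have hF : ∀ x, (Λ.W n).coeff x = #(F x) := il.W n
  set B : Finset (J σ) := {x | Q ≤ #(F x)} with hB
  have gd := fun P (hP : P ∈ G) =>
    Od.ogt_good hn.ne' ((fb.fx n hn.ne' P).1 (mem_filter.1 hP).1) (mem_filter.1 hP).2
  have a1 : #G ≤ n * #(G.image (Nm σ.pl n)) := card_le_mul_card_image G n fun D hD => by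
    obtain ⟨P, hP, rfl⟩ := mem_image.1 hD
    have := hd3_card (Nm_nonneg (τ := σ.pl) n P)
    rw [deg_Nm] at this
    refine (card_le_card fun R hR => ?_).trans (Nat.cast_le.1 this)
    obtain ⟨a, b⟩ := mem_filter.1 hR
    exact Finsupp.mem_support_iff.2 (b ▸ (gd R a).1)
  have a2 : G.image (Nm σ.pl n) ⊆ T.biUnion F ∪ B.biUnion F := fun D hD => by
    obtain ⟨P, hP, rfl⟩ := mem_image.1 hD
    have d1 : Nm σ.pl n P ∈ Eff σ.pl n :=
      ⟨Nm_nonneg _ _, Nm_inv ((fb.fx n hn.ne' P).1 (mem_filter.1 hP).1), deg_Nm _ _⟩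
    have d2 := sub_mem_J il.e1 il.e2 (ph_inv d1.2.1)
    rw [dg_mk, d1.2.2, natCast_zsmul] at d2
    obtain ⟨x, hx⟩ : ∃ x : J σ, (Nm σ.pl n P : Pic k E) = x.1 + n • e :=
      ⟨⟨_, d2⟩, (sub_add_cancel _ _).symm⟩
    have d3 : Nm σ.pl n P ∈ F x := mem_filter.2 ⟨(fb.ef _ _).2 d1, hx⟩
    rcases (pw n x).2.2 with c | c
    swap
    · rw [hF] at c
      exact mem_union_right _ (mem_biUnion.2 ⟨x, mem_filter.2 ⟨mem_univ _, Nat.cast_le.1 c⟩, d3⟩)
    have d4 : (Λ.W n).coeff x = 1 := by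
      have := card_pos.2 ⟨_, d3⟩
      have := hF x
      omega
    refine mem_union_left _ (mem_biUnion.2 ⟨x, mem_filter.2 ⟨mem_univ _, d4, fun j j0 jn a => ?_⟩,
      d3⟩)
    rintro ⟨c1, c2⟩
    rw [il.W, Nat.cast_ne_zero, card_ne_zero] at c1 c2
    obtain ⟨A, hA⟩ := c1
    obtain ⟨A', hA'⟩ := c2
    obtain ⟨b1, b2⟩ := mem_filter.1 hA
    obtain ⟨b3, b4⟩ := mem_filter.1 hA'
    rw [fb.ef] at b1 b3
    have d5 : A + A' = Nm σ.pl n P := by
      refine eff_unique ((ll_mk _).symm.trans ?_) d1.1 (add_nonneg b1.1 b3.1) (mk_eq.1 ?_)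
      · rw [hx]
        exact (pw n x).2.1.1 d4
      · rw [QuotientAddGroup.mk_add, b2, b4, hx, AddSubgroup.coe_sub, add_add_add_comm, ← add_nsmul,
          Nat.add_sub_cancel' jn.le, add_sub_cancel]
    obtain ⟨R, hR⟩ := Finsupp.support_nonempty_iff.2 fun e : A = 0 => by
      have := b1.2.2
      rw [e, map_zero] at this
      omega
    have hR := Finsupp.mem_support_iff.1 hR
    have d6 := Pool.Agent.P.MP_ab3ecb_nt.Inv.deg_mono ((gd P hP).2 R (by
      have u1 : 0 ≤ A R := b1.1 R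
      have u2 : 0 ≤ A' R := b3.1 R
      rw [← d5, Finsupp.add_apply]
      omega) _ A b1 hR)
    rw [b1.2.2, d1.2.2] at d6
    omega
  have a3 : #(T.biUnion F) ≤ #T := (card_biUnion_le_card_mul T F 1 fun x hx => by
    have := (mem_filter.1 hx).2.1
    have := hF x
    omega).trans (mul_one _).le
  have a4 : Q * #(B.biUnion F) ≤ 2 ^ (2 * N + 1) * Q ^ n := by
    refine (Nat.mul_le_mul_left Q card_biUnion_le).trans ?_
    rw [mul_sum]
    refine (sum_le_sum (g := fun x => #(F x) ^ 2) fun x hx => ?_).trans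
      ((sum_le_sum_of_subset (subset_univ B)).trans ?_)
    · rw [sq]
      exact Nat.mul_le_mul_right _ (mem_filter.1 hx).2
    · simp only [hF] at g1
      exact_mod_cast g1
  obtain ⟨m, rfl⟩ : ∃ m, n = m + 1 := ⟨n - 1, by omega⟩
  have a5 : #((Ico 1 (m + 1)).biUnion (fx σ)) ≤ m * (2 * Q ^ m) :=
    (card_biUnion_le_card_mul _ _ (2 * Q ^ m) fun i hi => by
      have := mem_Ico.1 hi
      have := h2 i (by omega)
      have := Nat.pow_le_pow_right Q0 (show i ≤ m by omega)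
      omega).trans (by simp)
  have a6 := (card_le_card (s := fx σ (m + 1)) (t := G ∪ (Ico 1 (m + 1)).biUnion (fx σ))
    fun P hP => mem_union.2 (or_iff_not_imp_right.2 fun c => mem_filter.2 ⟨hP, fun i hi i0 e =>
      c (mem_biUnion.2 ⟨i, mem_Ico.2 (by omega), (fb.fx i i0 P).2 e⟩)⟩)).trans (card_union_le _ _)
  have a7 := (card_le_card a2).trans (card_union_le _ _)
  rw [pow_succ Q m, ← mul_assoc, mul_comm Q] at a4
  have a8 := Nat.le_of_mul_le_mul_right a4 Q0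
  have a9 := Nat.mul_le_mul_left (Q ^ m) hQ
  have a10 := Nat.mul_le_mul_left (m + 1) (a7.trans (add_le_add a3 a8))
  rw [pow_succ Q m] at h1 ⊢
  generalize 2 ^ (2 * N + 1) = c at *
  nlinarith [Nat.zero_le (Q ^ m)]

end

section

open Polynomial Finset Module
open Pool.Agent.P.MP_6f117a_ag (Place FF)
open Pool.Agent.P.MP_ab3ecb_nt.Inv (Dv deg SA LS ev ord dv)
open Pool.Agent.P.MP_9344a7_nt.R
open Pool.Agent.P.MP_9344a7_nt.Hy hiding pt
open Pool.Agent.P.MP_9344a7_nt.Od (GD Kp Fe)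
open Pool.Agent.P.MP_9344a7_nt.Gt (pt lS Pr Can Bd Ch G12 Cv Kb)
open scoped Classical IntermediateField ComplexConjugate

theorem p_ED (hED1 : S_ED1) (hED2 : S_ED2) (hRP : S_RP) :
    S_ED := by
  intro n hn
  obtain ⟨c1, p1, -, h1⟩ := Od.a_GD n (by omega)
  obtain ⟨p2, h2⟩ := Nh.a_PLO (n + 1) 3 (by omega)
  obtain ⟨p3, h3⟩ := Nh.a_PHI (n + 1) 1 (by omega)
  obtain ⟨c2, h4⟩ := hED2 n hn
  obtain ⟨q0, h5⟩ := hRP n
  refine ⟨c1 + c2 + 4 * n, p1 + p2 + p3 + q0, fun F E _ _ _ _ _ K e σ Λ _ hp gb fb il nh => ?_⟩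
  have hi : ∀ i, i ≠ 0 → #(fx σ i) ≤ 2 * Fintype.card F ^ i := fun i hi => by
    simpa using h3 F E K e σ (by omega) gb fb il.e1 il.e2 i hi
  obtain ⟨a1, a2, a3, a4, a5⟩ := hED1 _ E K e n σ _ Λ gb fb il
  obtain ⟨b1, b2, b3⟩ := h4 _ E K e σ _ Λ gb fb il nh (Nh.a_HB _ E K e _ σ _ gb fb il.e1 il.e2 hi).2
  have c3 : (c2 : ℤ) ≤ (c1 + c2 + 4 * n : ℕ) := by omega
  refine ⟨gd_mono (h1 F E K e σ Λ (by omega) gb fb il) (by omega), a1 nh, a2,
    fun j a => ((Od.a_PW _ E K e n σ _ Λ gb fb il).2.2 j a).2.2, a3, a4, a5,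
    fun j a b s => (b1 j a b s).trans (by gcongr), fun m a s b => (b2 m a s b).trans (by gcongr),
    b3.trans (by gcongr), (h5 _ E K e σ _ Λ (n - 1) (by have := Gt.char_le (F := F); omega) gb fb il
      (by omega) (by omega) (h2 F E K σ (by omega) gb fb _ (by omega)) hi).trans ?_⟩
  exact Nat.mul_le_mul_right _ (by omega)

end

section

open Finset Module WithZero
open Pool.Agent.P.MP_6f117a_ag (Place FF)
open Pool.Agent.P.MP_ab3ecb_nt.Inv (Dv deg SA LS ev ord dv)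
open Pool.Agent.P.MP_9344a7_nt.R
open Pool.Agent.P.MP_9344a7_nt.Hy hiding pt ev
open Pool.Agent.P.MP_9344a7_nt.Gt (pt lS Pr Can Bd Ch G12 Cv Kb)
open scoped Classical IntermediateField

section

variable {k E : Type} [Field k] [Field E] [Algebra k E] [IsAlgClosed k] [FF k E]
  {K e : Pic k E} {n Q m j : ℕ} {σ : SA k E} {Λ : LD Q n (J σ)}

lemma cdic_eff {π : Equiv.Perm (Fin m)} {T : Fin m → Place k E} (h : Ob σ π T)
    (I : Finset (Fin m)) (hI : ∀ i, i ∈ I ↔ π i ∈ I) : ∑ i ∈ I, pt (T i) ∈ Eff σ.pl #I :=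
  ⟨Gt.sum_pt_nonneg _ _, dm_eq.1 (by
    rw [map_sum]
    exact sum_equiv π hI fun i _ => by rw [σ.dm_single, h.fr]), Gt.deg_sum_pt _ _⟩

lemma cdic_ne (fb : FB σ Q) (il : IsL σ K e Λ) {a : J σ} :
    (Λ.W j).coeff a ≠ 0 ↔ ∃ A ∈ Eff σ.pl j, (A : Pic k E) = a.1 + j • e := by
  rw [il.W, Nat.cast_ne_zero, card_ne_zero]
  simp only [Finset.Nonempty, mem_filter, fb.ef]

lemma cdic_cls (il : IsL σ K e Λ) {A : Dv k E} (h : A ∈ Eff σ.pl j) :
    ∃ b : J σ, (A : Pic k E) = b.1 + j • e := by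
  have d2 := sub_mem_J il.e1 il.e2 (ph_inv h.2.1)
  rw [dg_mk, h.2.2, natCast_zsmul] at d2
  exact ⟨⟨_, d2⟩, (sub_add_cancel _ _).symm⟩

lemma cdic_sum {ι : Type} (I : Finset ι) (T : ι → Place k E) (e : Pic k E) :
    ((∑ i ∈ I, pt (T i) : Dv k E) : Pic k E) = ∑ i ∈ I, (cls (T i) - e) + #I • e := by
  rw [sum_sub_distrib, sum_const, sub_add_cancel]
  exact map_sum (QuotientAddGroup.mk' _) _ _

end

theorem p_DIC :
    S_DIC := by
  intro k E _ _ _ _ _ K e n σ Q Λ _ m gb fb il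
  obtain ⟨-, -, pw⟩ := Od.a_PW k E K e n σ Q Λ gb fb il
  have uq : ∀ {T : Fin m → Place k E} {x : J σ} {A : Dv k E},
      x.1 + m • e = (∑ i, pt (T i) : Dv k E) → (Λ.W m).coeff x = 1 → 0 ≤ A →
      (A : Pic k E) = x.1 + m • e → A = ∑ i, pt (T i) := fun {T x A} hx h1 hA e =>
    eff_unique ((ll_mk _).symm.trans (hx ▸ (pw m x).2.1.1 h1)) (Gt.sum_pt_nonneg _ _) hA
      (mk_eq.1 (e.trans hx))
  refine ⟨fun π T x ob hx h1 => ?_, fun π T x ob hx h1 => ?_⟩
  · rw [mem_filter_univ]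
    refine ⟨fun hp i j => by_contra fun c => ?_, fun hc => ⟨h1, fun j j0 jm b ⟨s1, s2⟩ => ?_⟩⟩
    · set I : Finset (Fin m) := {l | π.SameCycle i l} with hI
      have h2 : ∀ l, l ∈ I ↔ π l ∈ I := fun l => by simp [hI]
      have a1 := cdic_eff ob I h2
      have a2 := cdic_eff ob Iᶜ fun l => by rw [mem_compl, mem_compl, h2 l]
      obtain ⟨b, hb⟩ := cdic_cls il a1
      have c2 : #I < m := by
        simpa using card_lt_card ((ssubset_iff_of_subset (subset_univ I)).2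
          ⟨j, mem_univ _, by simpa [hI] using c⟩)
      rw [card_compl, Fintype.card_fin] at a2
      refine hp.2 #I (card_pos.2 ⟨i, by simpa [hI] using .rfl⟩) c2 b
        ⟨(cdic_ne fb il).2 ⟨_, a1, hb⟩, (cdic_ne fb il).2 ⟨_, a2, ?_⟩⟩
      rw [← sum_add_sum_compl I, QuotientAddGroup.mk_add, hb, ← sub_eq_iff_eq_add'] at hx
      rw [← hx, AddSubgroup.coe_sub, sub_nsmul _ c2.le]
      abel
    obtain ⟨A, b1, b2⟩ := (cdic_ne fb il).1 s1
    obtain ⟨A', b3, b4⟩ := (cdic_ne fb il).1 s2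
    have d5 := uq hx h1 (add_nonneg b1.1 b3.1) (by
      rw [QuotientAddGroup.mk_add, b2, b4, AddSubgroup.coe_sub, add_add_add_comm, ← add_nsmul,
        Nat.add_sub_cancel' jm.le, add_sub_cancel])
    obtain ⟨R, hR⟩ := Finsupp.support_nonempty_iff.2 fun e : A = 0 => by
      have := b1.2.2
      rw [e, map_zero] at this
      omega
    have hR := Finsupp.mem_support_iff.1 hR
    have u1 : ∀ P, 0 ≤ A P := b1.1
    obtain ⟨i, rfl⟩ : ∃ i, T i = R := by_contra fun c => by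
      have u2 : 0 ≤ A' R := b3.1 R
      have := Gt.sum_pt_eq_zero.2 (not_exists.1 c)
      have := u1 R
      rw [← d5, Finsupp.add_apply] at *
      omega
    have u3 : ∀ r : ℕ, A (T ((π ^ r) i)) = A (T i) := fun r => by
      induction r with
      | zero => rfl
      | succ r ih => rw [pow_succ', Equiv.Perm.mul_apply, ← ob.fr, b1.2.1, ih]
    have d6 := MP_ab3ecb_nt.Inv.deg_mono (show ∑ i, pt (T i) ≤ A from fun P => by
      by_cases c : ∃ l, T l = P
      · obtain ⟨l, rfl⟩ := c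
        obtain ⟨r, -, rfl⟩ := (hc i l).exists_pow_eq'
        have := u1 (T i)
        rw [Gt.sum_pt_self ob.inj, u3]
        omega
      · rw [Gt.sum_pt_eq_zero.2 (not_exists.1 c)]
        exact u1 P)
    rw [Gt.deg_sum_pt, b1.2.2, card_fin] at d6
    omega
  rw [mem_singleton]
  refine ⟨fun ⟨_, U, hU, c1, c2⟩ => ?_, ?_⟩
  · choose P p1 p2 using fun s : U => (fb.SS e s).1 (il.S ▸ hU s.2)
    have d5 := uq hx h1 (Gt.sum_pt_nonneg univ P) (by
      rw [cdic_sum _ _ e, ← c2, ← c1, ← sum_coe_sort U, AddSubgroup.val_finsetSum]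
      simp [p2])
    ext1 i
    obtain ⟨s, hs⟩ : ∃ s, P s = T i := by_contra fun c => by
      have := Gt.sum_pt_eq_zero.2 (not_exists.1 c)
      rw [d5, Gt.sum_pt_self ob.inj] at this
      exact one_ne_zero this
    exact ob.inj (by rw [← ob.fr, ← hs, p1, hs]; rfl)
  rintro rfl
  have a1 : ∀ i, cls (T i) - e ∈ J σ := fun i => by
    simpa using sub_mem_J il.e1 il.e2 (x := cls (T i)) (by rw [ph_cls, ob.fr]; rfl)
  have a2 : Function.Injective fun i => (⟨_, a1 i⟩ : J σ) := fun i j c =>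
    ob.inj (gb.inj _ _ (sub_left_injective (congrArg Subtype.val c)))
  refine ⟨h1, univ.map ⟨_, a2⟩, fun s hs => ?_, by simp, Subtype.ext ?_⟩
  · obtain ⟨i, -, rfl⟩ := mem_map.1 hs
    exact il.S ▸ (fb.SS e _).2 ⟨T i, ob.fr i, rfl⟩
  · rw [cdic_sum, card_fin, add_left_inj] at hx
    rw [sum_map, hx, AddSubgroup.val_finsetSum]
    rfl

end

section

open Finset Module WithZero
open Pool.Agent.P.MP_6f117a_ag (Place FF)
open Pool.Agent.P.MP_ab3ecb_nt.Inv (Dv deg SA LS ev ord dv)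
open Pool.Agent.P.MP_9344a7_nt.R
open Pool.Agent.P.MP_9344a7_nt.Hy hiding pt ev
open Pool.Agent.P.MP_9344a7_nt.Gt (pt lS Pr Can Bd Ch G12 Cv Kb)
open scoped Classical IntermediateField

lemma ccyc_iff {n : ℕ} (hn : 2 ≤ n) (π : Equiv.Perm (Fin n)) : Cy π ↔ π.cycleType = {n} := by
  have : Nontrivial (Fin n) := Fin.nontrivial_iff_two_le.2 hn
  constructor
  · intro h
    have mv : ∀ i, π i ≠ i := fun i hi =>
      let ⟨j, hj⟩ := exists_ne i
      hj ((h i j).eq_of_left hi).symm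
    obtain ⟨i, -⟩ := exists_pair_ne (Fin n)
    have hc : π.IsCycle := ⟨i, mv i, fun j _ => h i j⟩
    rw [hc.cycleType, eq_univ_iff_forall.2 fun i => Equiv.Perm.mem_support.2 (mv i), card_univ,
      Fintype.card_fin]
  · intro h i j
    have hc : π.IsCycle := Equiv.Perm.card_cycleType_eq_one.1 (by rw [h]; rfl)
    have hs : π.support = univ := eq_univ_of_card _ (by
      rw [← Equiv.Perm.sum_cycleType, h, Multiset.sum_singleton, Fintype.card_fin])
    exact hc.sameCycle (Equiv.Perm.mem_support.1 (hs ▸ mem_univ i))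
      (Equiv.Perm.mem_support.1 (hs ▸ mem_univ j))

theorem p_CYC :
    S_CYC := by
  intro n hn
  have h : n * #{π : Equiv.Perm (Fin n) | Cy π} = n.factorial := by
    rw [filter_congr fun π _ => ccyc_iff hn π,
      Equiv.Perm.card_of_cycleType_singleton hn (Fintype.card_fin n).ge, Fintype.card_fin,
      Nat.choose_self, mul_one, Nat.mul_factorial_pred (by omega)]
  refine ⟨h, ?_⟩
  obtain ⟨π, hπ⟩ := card_pos.1 (Nat.pos_of_ne_zero fun h0 : #{π : Equiv.Perm (Fin n) | Cy π} = 0 =>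
    n.factorial_ne_zero (by rw [← h, h0, mul_zero]))
  exact ⟨π, (mem_filter.1 hπ).2⟩

end

section

open Finset Module WithZero
open Pool.Agent.P.MP_6f117a_ag (Place FF)
open Pool.Agent.P.MP_ab3ecb_nt.Inv (Dv deg SA LS ev ord dv)
open Pool.Agent.P.MP_9344a7_nt.R
open Pool.Agent.P.MP_9344a7_nt.Hy hiding pt ev
open Pool.Agent.P.MP_9344a7_nt.Gt (pt lS Pr Can Bd Ch G12 Cv Kb)
open scoped Classical IntermediateField

open Pool.Agent.P.MP_ab3ecb_nt.Inv in
theorem p_BDF :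
    S_BDF := by
  intro k E _ _ _ _ _ z n hz
  obtain ⟨Z, h1, h2⟩ := PL.exists_poles hz
  have z0 : z ≠ 0 := fun e => hz (e ▸ isAlgebraic_zero)
  have v0 := fun P : Place k E => v_ne P z0
  refine ⟨fun ⟨H, a, b, c⟩ => ?_, fun h => ?_⟩
  · have : ∑ P ∈ Z, log (P.v z) ≤ deg H := by
      rw [deg_eq_of_subset (S := Z ∪ H.support) subset_union_right]
      refine (sum_le_sum fun P _ => ?_).trans
        (sum_le_sum_of_subset_of_nonneg subset_union_left fun P _ _ => a P)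
      exact (log_le_iff_le_exp (v0 P)).2 (mem_LS.1 c P)
    omega
  · refine ⟨Finsupp.onFinset Z (fun P => if P ∈ Z then log (P.v z) else 0) (by simp +contextual),
      fun P => ?_, ?_, mem_LS.2 fun P => ?_⟩
    · rw [Finsupp.onFinset_apply]
      split_ifs with e
      · exact (le_log_iff_exp_le (v0 P)).2 ((h1 P).1 e).le
      · rfl
    · rw [deg_eq_of_subset Finsupp.support_onFinset_subset]
      simp only [Finsupp.onFinset_apply, sum_ite_mem, inter_self]
      omega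
    · rw [Finsupp.onFinset_apply]
      split_ifs with e
      · rw [exp_log (v0 P)]
      · exact not_lt.1 fun e' => e ((h1 P).2 e')

end

section

open Finset Module WithZero
open Pool.Agent.P.MP_6f117a_ag (Place FF)
open Pool.Agent.P.MP_ab3ecb_nt.Inv (Dv deg SA LS ev ord dv)
open Pool.Agent.P.MP_9344a7_nt.R
open Pool.Agent.P.MP_9344a7_nt.Hy hiding pt ev
open Pool.Agent.P.MP_9344a7_nt.Gt (pt lS Pr Can Bd Ch G12 Cv Kb)
open scoped Classical IntermediateField

lemma cmixa_num {N q m x A A' B B' : ℤ} (hN : 0 < N) (hq : 0 ≤ q) (hm : 0 < m) (h0 : 0 ≤ x)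
    (hx : x ≤ m) (hS : N * (A + A') ≤ (N + 1) * q) (h1 : N * q * (x * m) ≤ (N + 1) * m ^ 2 * B)
    (h2 : N * q * (x * m) ≤ (N + 1) * m ^ 2 * B')
    (h3 : N * q * (m ^ 2 - x ^ 2) ≤ (N + 1) * m ^ 2 * A') :
    N * (m ^ 2 * A - m * x * (B + B') + x ^ 2 * (A + A')) ≤ 4 * m ^ 2 * q := by
  have a1 := mul_le_mul_of_nonneg_left (le_of_mul_le_mul_right
    (show N * q * x * m ≤ (N + 1) * m * B * m by linarith) hm) h0
  have a2 := mul_le_mul_of_nonneg_left (le_of_mul_le_mul_right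
    (show N * q * x * m ≤ (N + 1) * m * B' * m by linarith) hm) h0
  have a3 := mul_le_mul_of_nonneg_left (show (N + 1) * (m ^ 2 * A - m * x * (B + B') +
    x ^ 2 * (A + A')) ≤ (m ^ 2 + x ^ 2) * ((N + 1) * (A + A') - N * q) by linarith) hN.le
  have a4 := mul_le_mul_of_nonneg_left (show N * ((N + 1) * (A + A') - N * q) ≤ 2 * (N + 1) * q by
    nlinarith) (show 0 ≤ m ^ 2 + x ^ 2 by positivity)
  have a5 := mul_le_mul_of_nonneg_right (pow_le_pow_left₀ h0 hx 2)
    (show 0 ≤ 2 * (N + 1) * q by positivity)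
  exact le_of_mul_le_mul_left (a := N + 1) (by linarith) (by positivity)

theorem p_MIXA :
    S_MIXA := by
  intro m c M
  refine ⟨8 * m ^ 2 * (c ^ 2 + 1) * M ^ 2 + 1, fun α β S V0 e G x q Q hx hS hV hG h U hU V hV0 => ?_⟩
  generalize hN : 8 * m ^ 2 * (c ^ 2 + 1) * M ^ 2 + 1 = N at hS hG h
  rcases m.eq_zero_or_pos with rfl | m0
  · rw [Nat.le_zero.1 hx]
    simp only [Nat.cast_zero, zero_mul, sub_zero, abs_zero, mul_zero]
    positivity
  have N0 : 0 < N := by omega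
  have S2 : #S ≤ 2 * q := Nat.le_of_mul_le_mul_left (hS.trans (by nlinarith)) N0
  let f : α → β → ℤ := fun P r => m * (if e P r then 1 else 0) - x
  have e1 : (m * #{p ∈ U ×ˢ V | e p.1 p.2} : ℤ) - x * #U * #V = ∑ P ∈ U, ∑ r ∈ V, f P r := by
    rw [card_filter, sum_product]
    simp only [f, sum_sub_distrib, ← mul_sum, sum_const, nsmul_eq_mul]
    push_cast
    ring
  have e2 : ∀ r r', ∑ P ∈ S, f P r * f P r' = m ^ 2 * #{P ∈ S | e P r ∧ e P r'} -
      m * x * (#{P ∈ S | e P r} + #{P ∈ S | e P r'}) + x ^ 2 * #S := fun r r' => by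
    rw [card_filter, card_filter, card_filter, card_eq_sum_ones S]
    push_cast
    simp only [mul_sum, ← sum_add_distrib, ← sum_sub_distrib, f]
    refine sum_congr rfl fun P _ => ?_
    by_cases a : e P r <;> by_cases b : e P r' <;> simp [a, b] <;> ring
  have x1 : (x : ℤ) ≤ m := by exact_mod_cast hx
  have e3 : ∀ r r', ∑ P ∈ S, f P r * f P r' ≤ 2 * m ^ 2 * q := fun r r' => by
    refine (sum_le_card_nsmul S _ ((m : ℤ) ^ 2) fun P _ => ?_).trans ?_
    · have : (0 : ℤ) ≤ x := by positivity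
      simp only [f]
      split_ifs <;> nlinarith
    · rw [nsmul_eq_mul, mul_right_comm]
      gcongr
      exact_mod_cast S2
  have e4 : ∀ p ∈ V0 ×ˢ V0, N * ∑ P ∈ S, f P p.1 * f P p.2 ≤
      4 * m ^ 2 * q + 2 * m ^ 2 * q * (N * if ¬ G p.1 p.2 then 1 else 0) := fun p hp => by
    split_ifs with g
    · obtain ⟨h1, h2, h3⟩ := h _ (mem_product.1 hp).1 _ (mem_product.1 hp).2 g
      rw [e2, mul_zero, mul_zero, add_zero]
      rw [← card_filter_add_card_filter_not (s := S) fun P => e P p.1 ∧ e P p.2] at hS ⊢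
      zify [Nat.pow_le_pow_left hx 2] at h1 h2 h3 hS ⊢
      exact cmixa_num (by positivity) (by positivity) (by positivity) (by positivity) x1 hS h1 h2 h3
    · have := mul_le_mul_of_nonneg_left (e3 p.1 p.2) (Nat.cast_nonneg N)
      have : (0 : ℤ) ≤ 4 * m ^ 2 * q := by positivity
      linarith
  have e5 : N * ∑ P ∈ S, (∑ r ∈ V, f P r) ^ 2 ≤ 4 * m ^ 2 * (c ^ 2 + 1) * q * Q ^ 2 := by
    rw [sum_congr rfl fun P _ => show (∑ r ∈ V, f P r) ^ 2 = ∑ p ∈ V ×ˢ V, f P p.1 * f P p.2 by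
      rw [sq, sum_mul_sum, sum_product], sum_comm, mul_sum]
    have s := product_subset_product hV0 hV0
    refine (sum_le_sum fun p hp => e4 p (s hp)).trans ((sum_le_sum_of_subset_of_nonneg s
      fun p _ _ => by positivity).trans ?_)
    rw [sum_add_distrib, sum_const, card_product, ← mul_sum, ← mul_sum, nsmul_eq_mul]
    rw [card_filter] at hG
    have a1 := Nat.mul_le_mul hV hV
    zify at hG a1 ⊢
    have a2 := mul_le_mul_of_nonneg_right a1 (show (0 : ℤ) ≤ 4 * m ^ 2 * q by positivity)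
    have a3 := mul_le_mul_of_nonneg_left hG (show (0 : ℤ) ≤ 2 * m ^ 2 * q by positivity)
    have : (0 : ℤ) ≤ m ^ 2 * q * Q ^ 2 := by positivity
    linarith
  have e6 : (∑ P ∈ U, ∑ r ∈ V, f P r) ^ 2 ≤ 2 * q * ∑ P ∈ S, (∑ r ∈ V, f P r) ^ 2 :=
    sq_sum_le_card_mul_sum_sq.trans (mul_le_mul (by exact_mod_cast (card_le_card hU).trans S2)
      (sum_le_sum_of_subset_of_nonneg hU fun _ _ _ => by positivity) (by positivity)
      (by positivity))
  rw [e1]
  refine (abs_le_of_sq_le_sq' ?_ (by positivity)).2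
  rw [mul_pow, sq_abs]
  refine le_of_mul_le_mul_left (a := (N : ℤ)) ?_ (by positivity)
  have a1 := mul_le_mul_of_nonneg_left e5 (show (0 : ℤ) ≤ M ^ 2 * (2 * q) by positivity)
  have a2 := mul_le_mul_of_nonneg_left e6 (show (0 : ℤ) ≤ M ^ 2 * N by positivity)
  have a3 : (N : ℤ) = 8 * m ^ 2 * (c ^ 2 + 1) * M ^ 2 + 1 := by exact_mod_cast hN.symm
  have a4 : (N : ℤ) * (q * Q) ^ 2 = 8 * m ^ 2 * (c ^ 2 + 1) * M ^ 2 * (q * Q) ^ 2 + (q * Q) ^ 2 := by
    rw [a3]
    ring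
  linarith [sq_nonneg (q * Q : ℤ)]

end

section

open Finset Module WithZero
open Pool.Agent.P.MP_6f117a_ag (Place FF)
open Pool.Agent.P.MP_ab3ecb_nt.Inv (Dv deg SA LS ev ord dv)
open Pool.Agent.P.MP_9344a7_nt.R
open Pool.Agent.P.MP_9344a7_nt.Hy hiding pt ev
open Pool.Agent.P.MP_9344a7_nt.Gt (pt lS Pr Can Bd Ch G12 Cv Kb)
open scoped Classical IntermediateField

theorem p_XT :
    S_XT := by
  intro M Ω _ _ _ j g
  let _ : Algebra M Ω := j.toAlgebra
  obtain ⟨s, hs⟩ := exists_isTranscendenceBasis M Ω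
  have := IsAlgClosed.isAlgClosure_of_transcendence_basis _ hs
  let a := hs.1.aevalEquiv
  let e := a.symm.toRingEquiv.trans ((MvPolynomial.mapEquiv s g).trans a.toRingEquiv)
  refine ⟨IsAlgClosure.equivOfEquiv Ω Ω e, fun x => ?_⟩
  have h : ∀ z, j z = algebraMap (Algebra.adjoin M (Set.range ((↑) : s → Ω))) Ω
      (algebraMap M _ z) := fun _ => rfl
  rw [h, IsAlgClosure.equivOfEquiv_algebraMap, h]
  refine congrArg _ ?_
  change a (MvPolynomial.map (g : M →+* M) (a.symm (algebraMap M _ x))) = _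
  rw [a.symm.commutes, ← a.commutes, MvPolynomial.algebraMap_eq, MvPolynomial.map_C]
  rfl

end

section

open Finset Module WithZero
open Pool.Agent.P.MP_6f117a_ag (Place FF)
open Pool.Agent.P.MP_ab3ecb_nt.Inv (Dv deg SA LS ev ord dv)
open Pool.Agent.P.MP_9344a7_nt.R
open Pool.Agent.P.MP_9344a7_nt.Hy hiding pt ev
open Pool.Agent.P.MP_9344a7_nt.Gt (pt lS Pr Can Bd Ch G12 Cv Kb)
open scoped Classical IntermediateField

lemma csep_map {A B M N : Type} [Field A] [Field B] [Field M] [Field N] [Algebra A M] [Algebra B N]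
    (f : A →+* B) (g : M →+* N) (h : (algebraMap B N).comp f = g.comp (algebraMap A M)) {x : M}
    (hx : IsSeparable A x) : IsSeparable B (g x) :=
  (Polynomial.Separable.map (f := f) hx).of_dvd (minpoly.dvd _ _ (by
    rw [← Polynomial.map_aeval_eq_aeval_map h, minpoly.aeval, map_zero]))

theorem p_SEP :
    S_SEP := by
  refine ⟨fun L F _ _ _ _ t d ht hd ch => ?_, fun L Ω _ _ _ s s' y h h' => ?_⟩
  · have := FF.fin t ht
    have : Algebra.IsSeparable L⟮t⟯ F := ⟨fun w => by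
      have hw : IsIntegral L⟮t⟯ w := .of_finite _ w
      refine (Polynomial.separable_iff_derivative_ne_zero (minpoly.irreducible hw)).2 fun e => ?_
      obtain ⟨j, hj⟩ := Nat.exists_eq_succ_of_ne_zero (minpoly.natDegree_pos hw).ne'
      have h1 := Polynomial.coeff_derivative (minpoly L⟮t⟯ w) j
      rw [e, Polynomial.coeff_zero, ← Nat.succ_eq_add_one, ← hj, (minpoly.monic hw).coeff_natDegree,
        one_mul, ← Nat.cast_succ, ← map_natCast (algebraMap L L⟮t⟯), eq_comm, map_eq_zero] at h1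
      exact ch _ j.succ_pos (hj ▸ (minpoly.natDegree_le w).trans hd) h1⟩
    refine ⟨this, ?_, fun Ω _ _ φ w => ?_⟩
    · obtain ⟨x, hx⟩ := Field.exists_primitive_element L⟮t⟯ F
      exact ⟨x, by rw [← IntermediateField.adjoin_simple_adjoin_simple, hx,
        IntermediateField.restrictScalars_top]⟩
    · have m : ∀ x : L⟮t⟯, ((φ : F →+* Ω).comp (algebraMap _ F)) x ∈ L⟮φ t⟯ := fun x => by
        rw [← Set.image_singleton, ← IntermediateField.adjoin_map]
        exact ⟨x, x.2, rfl⟩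
      exact csep_map (RingHom.codRestrict _ _ m) (φ : F →+* Ω) rfl
        (Algebra.IsSeparable.isSeparable _ w)
  · have := (IntermediateField.isSeparable_adjoin_simple_iff_isSeparable _ _).2 h
    have m : ∀ x : L⟮s'⟯, algebraMap _ Ω x ∈ L⟮s⟯⟮s'⟯ := fun x =>
      IntermediateField.adjoin_simple_le_iff (K := L⟮s⟯⟮s'⟯.restrictScalars L).2
        (IntermediateField.mem_adjoin_simple_self L⟮s⟯ s') x.2
    exact .of_algebra_isSeparable_of_isSeparable L⟮s⟯ (E := L⟮s⟯⟮s'⟯)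
      (csep_map (RingHom.codRestrict _ _ m) (RingHom.id Ω) rfl h')

end

section

open Finset Module WithZero
open Pool.Agent.P.MP_6f117a_ag (Place FF)
open Pool.Agent.P.MP_ab3ecb_nt.Inv (Dv deg SA LS ev ord dv)
open Pool.Agent.P.MP_9344a7_nt.R
open Pool.Agent.P.MP_9344a7_nt.Hy hiding pt ev
open Pool.Agent.P.MP_9344a7_nt.Gt (pt lS Pr Can Bd Ch G12 Cv Kb)
open scoped Classical IntermediateField

lemma cemb_card {L F Ω : Type} [Field L] [Field F] [Algebra L F] [Field Ω] [IsAlgClosed Ω]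
    [Algebra L Ω] (t : F) [FiniteDimensional L⟮t⟯ F] [Algebra.IsSeparable L⟮t⟯ F]
    (φ : F →ₐ[L] Ω) : Nat.card {ψ : F →ₐ[L] Ω // ψ t = φ t} = finrank L⟮t⟯ F := by
  let _ : Algebra L⟮t⟯ Ω := (φ.comp L⟮t⟯.val).toRingHom.toAlgebra
  have : IsScalarTower L L⟮t⟯ Ω := .of_algebraMap_eq fun c => (φ.commutes c).symm
  rw [← AlgHom.natCard_of_splits L⟮t⟯ F Ω fun _ => IsAlgClosed.splits _]
  refine (Nat.card_eq_of_bijective (fun ψ : F →ₐ[L⟮t⟯] Ω => (⟨ψ.restrictScalars L,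
    ψ.commutes (IntermediateField.AdjoinSimple.gen L t)⟩ : {ψ : F →ₐ[L] Ω // ψ t = φ t}))
    ⟨fun a b e => AlgHom.restrictScalars_injective L (congrArg Subtype.val e), fun ψ => ?_⟩).symm
  have e : ψ.1.comp L⟮t⟯.val = φ.comp L⟮t⟯.val :=
    IntermediateField.adjoin_algHom_ext L fun x hx => by
      obtain rfl : x = t := hx
      exact ψ.2
  exact ⟨{ ψ.1.toRingHom with commutes' := fun c => DFunLike.congr_fun e c }, rfl⟩

theorem p_EMB (hSEP : S_SEP) :
    S_EMB := by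
  intro L F Ω ι _ _ _ _ _ _ _ _ t hd hc
  have := FF.fin t hd.tr
  have := (hSEP.1 L F t _ hd.tr hd.rk.le hc).1
  have key : ∀ φ : F →ₐ[L] Ω, Nat.card ι = Nat.card {ψ : F →ₐ[L] Ω // ψ t = φ t} := fun φ => by
    rw [cemb_card, hd.rk, Nat.card_eq_fintype_card]
  have fin : ∀ φ : F →ₐ[L] Ω, Finite {ψ : F →ₐ[L] Ω // ψ t = φ t} := fun φ =>
    Nat.finite_of_card_ne_zero (by rw [cemb_card]; exact finrank_pos.ne')
  refine ⟨fun φ i => ?_, fun φ h i ψ e => ?_⟩
  · have := fin φ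
    obtain ⟨e⟩ := Finite.card_eq.1 (key φ)
    refine ⟨fun j => (e (Equiv.swap i (e.symm ⟨φ, rfl⟩) j)).1, ⟨Subtype.val_injective.comp
      (e.injective.comp (Equiv.injective _)), fun a b => (e _).2.trans (e _).2.symm⟩, ?_⟩
    simp
  · have := fin (φ i)
    have : Function.Bijective fun j => (⟨φ j, h.eq j i⟩ : {ψ : F →ₐ[L] Ω // ψ t = φ i t}) :=
      Function.Injective.bijective_of_nat_card_le (fun a b e => h.inj (congrArg Subtype.val e))
        (key _).ge
    obtain ⟨j, e'⟩ := this.2 ⟨ψ, e⟩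
    exact ⟨j, congrArg Subtype.val e'⟩

end

section

open Finset Module WithZero
open Pool.Agent.P.MP_6f117a_ag (Place FF)
open Pool.Agent.P.MP_ab3ecb_nt.Inv (Dv deg SA LS ev ord dv)
open Pool.Agent.P.MP_9344a7_nt.R
open Pool.Agent.P.MP_9344a7_nt.Hy hiding pt ev
open Pool.Agent.P.MP_9344a7_nt.Gt (pt lS Pr Can Bd Ch G12 Cv Kb)
open scoped Classical IntermediateField

theorem p_FRE (hEMB : S_EMB) :
    S_FRE := by
  intro L F Ω ι _ _ _ _ _ _ _ _ t φ σ θ i0 hd hc he ht h1 h2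
  let ψ : ι → F →ₐ[L] Ω := fun i =>
    { toRingHom := (θ : Ω →+* Ω).comp ((φ i : F →+* Ω).comp σ.s.symm)
      commutes' c := by
        change θ (φ i (σ.symm.s _)) = _
        rw [σ.symm.h, AlgHom.commutes, h1]
        exact congrArg _ (σ.s0.apply_symm_apply c) }
  have hψ : ∀ i w, ψ i (σ.s w) = θ (φ i w) := fun i w => congrArg (fun z => θ (φ i z))
    (σ.s.symm_apply_apply w)
  choose p hp using fun i => (hEMB L F Ω ι t hd hc).2 φ he i0 (ψ i) (by
    rw [← h2, he.eq i0 i, ← hψ, ht])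
  have hi : Function.Injective p := fun i j e => he.inj (AlgHom.ext fun w => θ.injective (by
    rw [← hψ, ← hψ, ← hp, ← hp, e]))
  refine ⟨Equiv.ofBijective p (Finite.injective_iff_bijective.1 hi), fun i w => ?_,
    fun i j h => he.inj (AlgHom.ext (σ.s.surjective.forall.2 fun w => ?_))⟩
  · rw [Equiv.ofBijective_apply, hp, hψ]
  · rw [Equiv.ofBijective_apply, hp, hψ, h]

end

end Pool.Agent.P.MP_9344a7_nt.Ac
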