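import Pool.Agent.P.MP_9344a7_nt.Ac.IfaceC
import Pool.Agent.P.MP_12d50c_ag.TMONO
import Pool.Agent.P.MP_12d50c_ag.TPLACE
import Pool.Agent.P.MP_12d50c_ag.TPRES
import Pool.Agent.P.MP_12d50c_ag.TPTR
import Pool.Agent.P.MP_12d50c_ag.TPI0
import Pool.Agent.P.MP_12d50c_ag.TPI1
import Pool.Agent.P.MP_12d50c_ag.TPI1G
import Pool.Agent.P.MP_12d50c_ag.TSW
import Pool.Agent.P.MP_9344a7_nt.Ac.Iface

/-! Steps RST, MON, COL, SWP, SUR, GOU. -/

set_option linter.unusedVariables false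
set_option linter.unusedSectionVars false

namespace Pool.Agent.P.MP_9344a7_nt.Ac

section

open Finset Module WithZero
open Pool.Agent.P.MP_6f117a_ag (Place FF)
open Pool.Agent.P.MP_ab3ecb_nt.Inv (Dv deg SA LS ev ord dv)
open Pool.Agent.P.MP_9344a7_nt.R
open Pool.Agent.P.MP_9344a7_nt.Hy hiding pt ev
open Pool.Agent.P.MP_9344a7_nt.Gt (pt lS Pr Can Bd Ch G12 Cv Kb)
open scoped Classical IntermediateField

theorem p_RST :
    S_RST := by
  intro L F Ω _ _ _ _ _ _ _ O φ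
  have main : (∀ c, algebraMap L Ω c ∈ O) → (∃ w, φ w ∉ O) → ∃ P, Rs O φ P := by
    rintro hc ⟨w, hw⟩
    let O' := O.comap (φ : F →+* Ω)
    have mem : ∀ x, x ∈ O' ↔ φ x ∈ O := fun _ => Iff.rfl
    have hc' : ∀ c, algebraMap L F c ∈ O' := fun c => (mem _).2 (φ.commutes c ▸ hc c)
    have ht : Transcendental L w := (MP_6f117a_ag.const_or_trans w).resolve_left
      fun ⟨c, e⟩ => hw (e ▸ hc' c)
    have hu := MP_6f117a_ag.trans_inv ht
    have := FF.fin _ hu
    have key : ∀ x, x ∉ O' → O'.valuation x⁻¹ < 1 := fun x h =>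
      O'.mem_nonunits_iff.1 (O'.inv_mem_nonunits_iff.2 (.inr h))
    obtain ⟨P, hP⟩ := (MP_ab3ecb_nt.Inv.PL.setup hu).2.2 O' 0 hc'
      ((O'.valuation_le_one_iff _).1 (key w hw).le) (by simpa using key w hw)
    have h1 : ∀ x, P.v x ≤ 1 → x ∈ O' := fun x h => by
      by_contra e
      have a := hP _ (key x e)
      have x0 : x ≠ 0 := by rintro rfl; exact e (zero_mem _)
      rw [map_inv₀, inv_lt_one₀ (zero_lt_iff.2 (MP_ab3ecb_nt.Inv.v_ne P x0))] at a
      exact a.not_ge h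
    refine ⟨P, fun x => ⟨fun h => not_lt.1 fun e => hw ?_, h1 x⟩⟩
    obtain ⟨m, hm⟩ := MulArchimedean.arch (P.v w) e
    have x0 : x ^ m ≠ 0 := pow_ne_zero _ (by rintro rfl; simp at e)
    have a : w / x ^ m ∈ O' := h1 _ (by
      rw [map_div₀, map_pow]
      exact div_le_one_of_le₀ hm zero_le)
    have := mul_mem a (pow_mem ((mem x).2 h) m)
    rwa [div_mul_cancel₀ _ x0] at this
  refine ⟨main, fun F' _ _ _ ψ P' t t' h ht e => main h.const ?_⟩
  rcases le_or_gt (P'.v t') 1 with a | a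
  · have b := MP_ab3ecb_nt.Inv.ev_spec a
    set c := ev P' t'
    have e' : φ (t - algebraMap L F c)⁻¹ = ψ (t' - algebraMap L F' c)⁻¹ := by
      simp only [map_inv₀, map_sub, AlgHom.commutes, e]
    have n0 : t' - algebraMap L F' c ≠ 0 := fun z => by
      rw [z, inv_zero, map_zero, map_eq_zero, inv_eq_zero, sub_eq_zero] at e'
      exact ht (e' ▸ isAlgebraic_algebraMap c)
    refine ⟨(t - algebraMap L F c)⁻¹, fun z => ?_⟩
    rw [e', h, map_inv₀, inv_le_one₀ (zero_lt_iff.2 (MP_ab3ecb_nt.Inv.v_ne P' n0))] at z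
    exact z.not_gt b
  · exact ⟨t, fun z => a.not_ge ((h t').1 (e ▸ z))⟩

end

section

open Finset Module WithZero
open Pool.Agent.P.MP_6f117a_ag (Place FF)
open Pool.Agent.P.MP_ab3ecb_nt.Inv (Dv deg SA LS ev ord dv)
open Pool.Agent.P.MP_9344a7_nt.R
open Pool.Agent.P.MP_9344a7_nt.Hy hiding pt ev
open Pool.Agent.P.MP_9344a7_nt.Gt (pt lS Pr Can Bd Ch G12 Cv Kb)
open scoped Classical IntermediateField

theorem cmon_mono : Pool.Agent.P.MP_12d50c_ag.S_MONO :=
  open Pool.Agent.P.MP_12d50c_ag in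
  t_MONO t_PLACE (t_PRES t_PLACE) (t_PTR t_PLACE)
    (t_PI1G t_PLACE (t_PRES t_PLACE) (t_PTR t_PLACE) (t_PI1 t_PLACE (t_PI0 t_PLACE))) t_SW

theorem cmon_gal (K F Ω : Type) [Field K] [Field F] [Field Ω] [IsAlgClosed Ω] [Algebra K F]
    [Algebra K Ω] [FiniteDimensional K F] [Algebra.IsSeparable K F] :
    IsGalois K (IntermediateField.normalClosure K F Ω) := by
  have h1 := (Algebra.IsAlgebraic.isNormalClosure_normalClosure (F := K) (K := F) (L := Ω)
    fun x => IsAlgClosed.splits _).normal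
  have h2 : ∀ f : F →ₐ[K] Ω, Algebra.IsSeparable K f.fieldRange := fun f =>
    AlgEquiv.Algebra.isSeparable (AlgEquiv.ofInjectiveField f)
  have h3 : Algebra.IsSeparable K (IntermediateField.normalClosure K F Ω) := by
    rw [normalClosure_def]; infer_instance
  exact ⟨⟩

theorem cmon_abs (L K F M ι : Type) [Field L] [IsAlgClosed L] [Field K] [Field F] [Field M]
    [Algebra L K] [Algebra L F] [Algebra L M] [Algebra K F] [Algebra K M] [IsScalarTower L K F]
    [IsScalarTower L K M] [FiniteDimensional K M] [IsGalois K M] [FiniteDimensional K F]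
    [Algebra.IsSeparable K F] [Fintype ι] (t : K) (φ : ι → F →ₐ[K] M) (i0 : ι)
    (ht : Transcendental L t) (htop : L⟮t⟯ = ⊤) (hinj : Function.Injective φ)
    (hd : finrank K F = Fintype.card ι) (hZ : SBr L (algebraMap K F t) (Fintype.card ι))
    (π : Equiv.Perm ι) : ∃ g : M ≃ₐ[K] M, ∀ i w, g (φ i w) = φ (π i) w := by
  let _ : Algebra F M := (φ i0).toRingHom.toAlgebra
  have : IsScalarTower K F M := .of_algebraMap_eq fun x => ((φ i0).commutes x).symm
  have : IsScalarTower L F M := .of_algebraMap_eq fun x => by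
    rw [IsScalarTower.algebraMap_apply L K F, ← IsScalarTower.algebraMap_apply K F M,
      ← IsScalarTower.algebraMap_apply]
  obtain ⟨x, hx⟩ := Field.exists_primitive_element K F
  have hext : ∀ a b : F →ₐ[K] M, a x = b x → a = b := fun a b h =>
    AlgHom.ext_of_adjoin_eq_top (IntermediateField.adjoin_eq_top_iff.1 hx) fun _ hy => hy ▸ h
  let e := (Fintype.equivFin ι).symm
  have hi : Function.Injective fun i => φ (e i) x := fun i j h => e.injective (hinj (hext _ _ h))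
  have hint : IsIntegral K x := .of_finite K x
  have hm : ((minpoly K x).map (algebraMap K M)).Monic := (minpoly.monic hint).map _
  have hmin : (minpoly K x).map (algebraMap K M) =
      ∏ i, (Polynomial.X - Polynomial.C (φ (e i) x)) := by
    refine Polynomial.eq_of_monic_of_dvd_of_natDegree_le
      (Polynomial.monic_prod_of_monic _ _ fun i _ => Polynomial.monic_X_sub_C _) hm
      (Finset.prod_dvd_of_coprime ((Polynomial.pairwise_coprime_X_sub_C hi).set_pairwise _)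
        fun i _ => Polynomial.dvd_iff_isRoot.2 ?_) ?_
    · rw [Polynomial.IsRoot, Polynomial.eval_map_algebraMap, Polynomial.aeval_algHom_apply,
        minpoly.aeval, map_zero]
    · rw [Polynomial.natDegree_prod_of_monic _ _ fun i _ => Polynomial.monic_X_sub_C _,
        (minpoly.monic hint).natDegree_map]
      simpa [← hd] using minpoly.natDegree_le x
  obtain ⟨g, hg⟩ := cmon_mono L K F M t _ x _ ht htop hx hi hmin (by
    rintro t' (rfl | ⟨c, rfl⟩)
    · obtain ⟨Z, a, b⟩ := hZ.2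
      exact ⟨Z, a, fun P hP => by
        rw [map_inv₀, map_inv₀]; exact inv_lt_one_of_one_lt₀ (b P hP)⟩
    · obtain ⟨Z, a, b⟩ := hZ.1 c
      exact ⟨Z, a, fun P hP => by
        rw [map_sub, ← IsScalarTower.algebraMap_apply]; exact b P hP⟩) (e.trans (π.trans e.symm))
  refine ⟨g, fun i w => ?_⟩
  have h1 := hg (e.symm i)
  simp only [Equiv.trans_apply, Equiv.apply_symm_apply] at h1
  exact DFunLike.congr_fun (hext ((g : M →ₐ[K] M).comp (φ i)) (φ (π i)) h1) w

theorem p_MON (hSEP : S_SEP) (hXT : S_XT) :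
    S_MON := by
  intro L F Ω ι _ _ _ _ _ _ _ _ _ t φ hD hC hB hE π
  have := FF.fin t hD.tr
  have := (hSEP.1 L F t _ hD.tr hD.rk.le hC).1
  obtain ⟨i0⟩ : Nonempty ι := Fintype.card_pos_iff.1 (hD.rk ▸ finrank_pos)
  let _ : Algebra L⟮t⟯ Ω := ((φ i0).comp L⟮t⟯.val).toRingHom.toAlgebra
  have : IsScalarTower L L⟮t⟯ Ω := .of_algebraMap_eq fun x => ((φ i0).commutes x).symm
  have hag : ∀ i, (φ i).comp L⟮t⟯.val = (φ i0).comp L⟮t⟯.val := fun i =>
    IntermediateField.adjoin_algHom_ext L fun x hx => by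
      obtain rfl := Set.mem_singleton_iff.1 hx; exact hE.eq i i0
  let ψ : ι → F →ₐ[L⟮t⟯] Ω := fun i =>
    { (φ i).toRingHom with commutes' := fun x => DFunLike.congr_fun (hag i) x }
  have := cmon_gal L⟮t⟯ F Ω
  let χ : ι → F →ₐ[L⟮t⟯] IntermediateField.normalClosure L⟮t⟯ F Ω := fun i =>
    (ψ i).codRestrict _ fun x => (ψ i).fieldRange_le_normalClosure ⟨x, rfl⟩
  have htop : L⟮IntermediateField.AdjoinSimple.gen L t⟯ = ⊤ := by
    apply IntermediateField.lift_injective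
    rw [IntermediateField.lift_adjoin_simple, IntermediateField.lift_top]
    rfl
  obtain ⟨g, hg⟩ := cmon_abs L L⟮t⟯ F _ ι (IntermediateField.AdjoinSimple.gen L t) χ i0
    ((transcendental_algebraMap_iff (algebraMap L⟮t⟯ F).injective).1 hD.tr) htop
    (fun i j h => hE.inj (AlgHom.ext fun w => congrArg Subtype.val (DFunLike.congr_fun h w)))
    hD.rk hB π
  obtain ⟨τ, hτ⟩ := hXT _ Ω (IntermediateField.normalClosure L⟮t⟯ F Ω).val.toRingHom g.toRingEquiv
  have key : ∀ i w, τ (φ i w) = φ (π i) w := fun i w =>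
    (hτ (χ i w)).trans (congrArg Subtype.val (hg i w))
  exact ⟨AlgEquiv.ofRingEquiv (f := τ) fun c => by
    rw [← (φ i0).commutes, key, AlgHom.commutes, AlgHom.commutes], key⟩

end

section

open Polynomial Finset Module
open Pool.Agent.P.MP_6f117a_ag (Place FF)
open Pool.Agent.P.MP_ab3ecb_nt.Inv (Dv deg SA LS ev ord dv)
open Pool.Agent.P.MP_9344a7_nt.R
open Pool.Agent.P.MP_9344a7_nt.Hy hiding pt
open Pool.Agent.P.MP_9344a7_nt.Od (GD Kp Fe)
open Pool.Agent.P.MP_9344a7_nt.Gt (pt lS Pr Can Bd Ch G12 Cv Kb)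
open scoped Classical IntermediateField ComplexConjugate

/-- Transport of a specialisation. -/
lemma col_tr {Ω : Type} [Field Ω] (V : Sv Ω) (τ : Ω →+* Ω) :
    ∃ V' : Sv Ω, ∀ z, τ z ∈ V.O → z ∈ V'.O ∧ V'.r z = V.r (τ z) := by
  refine ⟨⟨V.O.comap τ, V.π.comp (τ.restrict (V.O.comap τ) V.O fun _ h => h), fun c => ?_⟩,
    fun z h => ⟨h, (Sv.r_eq _ h).trans (V.r_eq h).symm⟩⟩
  refine (V.ker ⟨τ c, c.2⟩).trans ?_
  rw [← ValuationSubring.mem_nonunits_iff, ← ValuationSubring.mem_nonunits_iff,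
    ValuationSubring.mem_nonunits_iff_or, ValuationSubring.mem_nonunits_iff_or,
    ValuationSubring.mem_comap, map_inv₀, map_eq_zero]

/-- A function of degree larger than one has a fibre with few points. -/
lemma col_ram {L F : Type} [Field L] [IsAlgClosed L] [Field F] [Algebra L F] [FF L F] {t : F}
    {d : ℕ} (ht : Transcendental L t) (hd : finrank L⟮t⟯ F = d) (h1 : d ≠ 1) :
    ∃ u ∈ L⟮t⟯, Transcendental L u ∧
      ∀ P : Fin d → Place L F, (∀ a, (P a).v u < 1) → ¬ Function.Injective P := by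
  by_contra! h
  have m := IntermediateField.mem_adjoin_simple_self L t
  refine h1 (MP_12d50c_ag.t_PI1 MP_12d50c_ag.t_PLACE (MP_12d50c_ag.t_PI0 MP_12d50c_ag.t_PLACE)
    L F t d ht hd.symm (fun c => ?_) ?_)
  · obtain ⟨P, a, b⟩ := h (t - algebraMap L F c) (sub_mem m (IntermediateField.algebraMap_mem _ c))
      fun e => ht (by simpa using e.add (isAlgebraic_algebraMap c))
    exact ⟨P, b, a⟩
  · obtain ⟨P, a, b⟩ := h t⁻¹ (inv_mem m) fun e => ht (IsAlgebraic.inv_iff.1 e)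
    refine ⟨P, b, fun i => ?_⟩
    have t0 : t ≠ 0 := fun e => ht (e ▸ isAlgebraic_zero)
    simpa [inv_lt_one₀ (zero_lt_iff.2 (MP_ab3ecb_nt.Inv.v_ne (P i) t0))] using a i

theorem p_COL (hCHV : S_CHV) (hRST : S_RST) (hEMB : S_EMB) (hMON : S_MON) :
    S_COL := by
  intro L F Ω _ _ _ _ _ _ _ _ t d ht hd hc hs φ ψ e ne
  have := FF.fin t ht
  have a : Fin d := ⟨0, hd ▸ finrank_pos⟩
  have dg : Dg L t (Fintype.card (Fin d)) := ⟨ht, by simpa using hd⟩
  obtain ⟨h1, h2⟩ := hEMB L F Ω (Fin d) t dg (by simpa using hc)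
  obtain ⟨χ, em, rfl⟩ := h1 φ a
  obtain ⟨b, rfl⟩ := h2 χ em a ψ e.symm
  have ab : a ≠ b := fun e => ne (e ▸ rfl)
  obtain ⟨u, m, hu, hP⟩ := col_ram ht hd fun e => by
    subst e
    exact ab (Subsingleton.elim _ _)
  have eu : ∀ i, χ i u = χ a u := fun i => by
    clear hu hP
    induction m using IntermediateField.adjoin_induction with
    | mem x hx => exact hx ▸ em.eq i a
    | algebraMap c => simp
    | add x y _ _ p q => rw [map_add, map_add, p, q]
    | mul x y _ _ p q => rw [map_mul, map_mul, p, q]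
    | inv x _ p => rw [map_inv₀, map_inv₀, p]
  have hs' : Transcendental L (χ a u) := fun h =>
    hu ((isAlgebraic_algHom_iff (χ a) (χ a).injective).1 h)
  obtain ⟨f, f0⟩ : ∃ f : Algebra.adjoin L {χ a u} →ₐ[L] Ω,
      f ⟨χ a u, Algebra.self_mem_adjoin_singleton L _⟩ = 0 :=
    ⟨(aeval (0 : Ω)).comp (algEquivOfTranscendental L _ hs').symm.toAlgHom, by simp⟩
  obtain ⟨V, hV⟩ := hCHV Ω (Algebra.adjoin L {χ a u}).toSubring f.toRingHom
  have hL : ∀ c : L, algebraMap L Ω c ∈ V.O ∧ V.r (algebraMap L Ω c) = algebraMap L Ω c :=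
    fun c => (hV (algebraMap L (Algebra.adjoin L {χ a u}) c)).imp id fun h =>
      h.trans (f.commutes c)
  obtain ⟨s1, s2⟩ := hV ⟨χ a u, Algebra.self_mem_adjoin_singleton L _⟩
  have s3 : V.O.valuation (χ a u) < 1 := (Sv.r_eq_zero s1).1 (s2.trans f0)
  choose T hT using fun i => (hRST L F Ω V.O (χ i)).1 (fun c => (hL c).1) ⟨u⁻¹, by
    rw [map_inv₀, eu]
    exact (V.O.mem_nonunits_iff_or.1 s3).resolve_left fun e => hs' (e ▸ isAlgebraic_zero)⟩
  obtain ⟨i, j, eT, ij⟩ := Function.not_injective_iff.1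
    (hP T fun i => ((hT i).lt u).1 (eu i ▸ s3))
  obtain ⟨τ, hτ⟩ := hMON L F Ω (Fin d) t χ dg (by simpa using hc) (by simpa using hs) em
    (Equiv.swap (Equiv.swap i a j) b * Equiv.swap i a)
  obtain ⟨V', hV'⟩ := col_tr V (τ.symm : Ω →+* Ω)
  have key : ∀ i w, (T i).v w ≤ 1 → τ (χ i w) ∈ V'.O ∧
      V'.r (τ (χ i w)) = algebraMap L Ω (MP_ab3ecb_nt.Inv.ev (T i) w) := fun i w h => by
    have h3 := (hT i w).2 h
    refine (hV' _ (by simpa using h3)).imp id fun h4 => h4.trans ?_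
    have h5 := ((hT i).lt _).2 (MP_ab3ecb_nt.Inv.ev_spec h)
    rw [map_sub, AlgHom.commutes, ← Sv.r_eq_zero (sub_mem h3 (hL _).1), Sv.r_sub h3 (hL _).1,
      (hL _).2, sub_eq_zero] at h5
    simpa using h5
  refine ⟨V', fun c => (hV' _ (by simpa using (hL c).1)).imp id fun h => h.trans
    (by simpa using (hL c).2), T i, fun w h => ⟨?_, ?_⟩⟩
  · have := key i w h
    rwa [hτ, Equiv.Perm.mul_apply, Equiv.swap_apply_left, Equiv.swap_apply_of_ne_of_ne
      (fun e => ij ((Equiv.swap i a).injective ((Equiv.swap_apply_left _ _).trans e))) ab] at this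
  · have := key j w (eT ▸ h)
    rwa [hτ, Equiv.Perm.mul_apply, Equiv.swap_apply_left, ← eT] at this

end

section

open Polynomial Finset Module
open Pool.Agent.P.MP_6f117a_ag (Place FF)
open Pool.Agent.P.MP_ab3ecb_nt.Inv (Dv deg SA LS ev ord dv)
open Pool.Agent.P.MP_9344a7_nt.R
open Pool.Agent.P.MP_9344a7_nt.Hy hiding pt
open Pool.Agent.P.MP_9344a7_nt.Od (GD Kp Fe)
open Pool.Agent.P.MP_9344a7_nt.Gt (pt lS Pr Can Bd Ch G12 Cv Kb)
open scoped Classical IntermediateField ComplexConjugate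

theorem cswp_gal (K F Ω : Type) [Field K] [Field F] [Field Ω] [IsAlgClosed Ω] [Algebra K F]
    [Algebra K Ω] [FiniteDimensional K F] [Algebra.IsSeparable K F] :
    IsGalois K (IntermediateField.normalClosure K F Ω) := by
  have h1 := (Algebra.IsAlgebraic.isNormalClosure_normalClosure (F := K) (K := F) (L := Ω)
    fun x => IsAlgClosed.splits _).normal
  have h2 : ∀ f : F →ₐ[K] Ω, Algebra.IsSeparable K f.fieldRange := fun f =>
    AlgEquiv.Algebra.isSeparable (AlgEquiv.ofInjectiveField f)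
  have h3 : Algebra.IsSeparable K (IntermediateField.normalClosure K F Ω) := by
    rw [normalClosure_def]; infer_instance
  exact ⟨⟩

open Pool.Agent.P.MP_ab3ecb_nt.Inv in
theorem cswp_dec (L K F M : Type) [Field L] [IsAlgClosed L] [Field K] [Field F] [Field M]
    [Algebra L K] [Algebra L F] [Algebra L M] [Algebra K F] [Algebra K M] [IsScalarTower L K F]
    [IsScalarTower L K M] [FiniteDimensional K M] [IsGalois K M] [FF L M] {t : F}
    (ht : Transcendental L t) (φ ψ : F →ₐ[K] M) (Q : Place L M)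
    (h : ∀ w, Q.v (φ w) < 1 ↔ Q.v (ψ w) < 1) :
    ∃ g : M ≃ₐ[K] M, (∀ w, g (φ w) = ψ w) ∧ ∀ y, Q.v (g y) = Q.v y := by
  let _ : Algebra F M := φ.toRingHom.toAlgebra
  have : IsScalarTower K F M := .of_algebraMap_eq fun x => (φ.commutes x).symm
  have : IsScalarTower L F M := .of_algebraMap_eq fun x => by
    rw [IsScalarTower.algebraMap_apply L K F, ← IsScalarTower.algebraMap_apply K F M,
      ← IsScalarTower.algebraMap_apply]
  have : FiniteDimensional F M := .of_restrictScalars_finite K F M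
  have : IsGalois F M := .tower_top_of_isGalois K F M
  let τ : M ≃ₐ[K] M := AlgEquiv.ofBijective (ψ.liftNormal M) (AlgHom.normal_bijective K M M _)
  have hτ : ∀ w, τ (φ w) = ψ w := fun w => ψ.liftNormal_commutes M w
  obtain ⟨g, hg⟩ := PL.exists_conj (L := F) ht Q (PL.conj Q τ) fun w => by
    rw [PL.conj_v]; exact (h w).trans (by rw [← hτ]; rfl)
  refine ⟨(g.symm.restrictScalars K).trans τ, fun w => ?_, fun y => ?_⟩
  · exact (congrArg τ (g.symm.commutes w)).trans (hτ w)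
  · exact (hg (g.symm y)).trans (by rw [AlgEquiv.apply_symm_apply])

open Pool.Agent.P.MP_ab3ecb_nt.Inv in
theorem cswp_abs (hRST : S_RST) (hXT : S_XT) (L K F Ω : Type) [Field L] [IsAlgClosed L] [Field K]
    [Field F] [Field Ω] [IsAlgClosed Ω] [Algebra L K] [Algebra L F] [Algebra L Ω] [Algebra K F]
    [Algebra K Ω] [IsScalarTower L K F] [IsScalarTower L K Ω] [FiniteDimensional K F]
    [Algebra.IsSeparable K F] (s : K) [FiniteDimensional L⟮s⟯ K] {t : F} (ht : Transcendental L t)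
    (φ ψ : F →ₐ[K] Ω) (O : ValuationSubring Ω) (P : Place L F) (Y : Finset Ω)
    (hc : ∀ c, algebraMap L Ω c ∈ O) (h1 : Rs O (φ.restrictScalars L) P)
    (h2 : Rs O (ψ.restrictScalars L) P) (hY : ∀ y ∈ Y, IsSeparable K y) :
    ∃ τ : Ω ≃ₐ[L] Ω, (∀ w, τ (φ w) = ψ w) ∧ ∃ M : IntermediateField K Ω, (Y : Set Ω) ⊆ M ∧
      ∀ x ∈ M, (τ x ∈ O ↔ x ∈ O) ∧ (x ∈ O → O.valuation (τ x - x) < 1) := by
  let N := IntermediateField.adjoin K (Y : Set Ω)
  have : FiniteDimensional K N :=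
    IntermediateField.finiteDimensional_adjoin fun y hy => (hY y hy).isIntegral
  have : Algebra.IsSeparable K N := (IntermediateField.isSeparable_adjoin_iff_isSeparable K Ω).2 hY
  have := cswp_gal K F Ω
  have := cswp_gal K N Ω
  obtain ⟨M, hF, hN, _, _⟩ : ∃ M : IntermediateField K Ω,
      IntermediateField.normalClosure K F Ω ≤ M ∧ N ≤ M ∧ FiniteDimensional K M ∧ IsGalois K M :=
    ⟨IntermediateField.normalClosure K F Ω ⊔ IntermediateField.normalClosure K N Ω, le_sup_left,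
      (IntermediateField.le_normalClosure N).trans le_sup_right, inferInstance, ⟨⟩⟩
  have := (PL.ff_of_finite L K M s).2
  let φ' : F →ₐ[K] M := φ.codRestrict _ fun x => hF (φ.fieldRange_le_normalClosure ⟨x, rfl⟩)
  let ψ' : F →ₐ[K] M := ψ.codRestrict _ fun x => hF (ψ.fieldRange_le_normalClosure ⟨x, rfl⟩)
  obtain ⟨w, hw⟩ := P.surj (WithZero.exp 1)
  obtain ⟨Q, hQ⟩ := (hRST L M Ω O (M.val.restrictScalars L)).1 hc ⟨φ' w, fun h => by
    have := (h1 w).1 h
    rw [hw, ← WithZero.exp_zero, WithZero.exp_le_exp] at this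
    omega⟩
  obtain ⟨g, g1, g2⟩ := cswp_dec L K F M ht φ' ψ' Q fun w =>
    ((hQ.lt (φ' w)).symm.trans (h1.lt w)).trans ((h2.lt w).symm.trans (hQ.lt (ψ' w)))
  obtain ⟨τ, hτ⟩ := hXT M Ω M.val.toRingHom g.toRingEquiv
  have hτ' : ∀ y : M, τ y = g y := hτ
  have key : ∀ w, τ (φ w) = ψ w := fun w => (hτ' (φ' w)).trans (congrArg Subtype.val (g1 w))
  refine ⟨AlgEquiv.ofRingEquiv (f := τ) fun c => ?_, key, M,
    (IntermediateField.subset_adjoin K _).trans hN, fun x hx => ⟨?_, fun h => ?_⟩⟩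
  · rw [IsScalarTower.algebraMap_apply L K Ω, ← φ.commutes, key, AlgHom.commutes, AlgHom.commutes]
  · have a := hQ (g ⟨x, hx⟩)
    rw [g2] at a
    have b : τ x ∈ O ↔ (g ⟨x, hx⟩ : Ω) ∈ O := by rw [← hτ' ⟨x, hx⟩]
    exact (b.trans a).trans (hQ ⟨x, hx⟩).symm
  · obtain ⟨c, e⟩ := PL.res Q ((hQ ⟨x, hx⟩).1 h)
    have a : Q.v (g ⟨x, hx⟩ - ⟨x, hx⟩) < 1 := by
      have b : g ⟨x, hx⟩ - ⟨x, hx⟩ =
          g (⟨x, hx⟩ - algebraMap L M c) - (⟨x, hx⟩ - algebraMap L M c) := by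
        rw [map_sub, IsScalarTower.algebraMap_apply L K M, g.commutes]; ring
      rw [b]
      exact Q.v.map_sub_lt (by rwa [g2]) e
    have b := (hQ.lt _).2 a
    rw [map_sub] at b
    have d : τ x - x = (g ⟨x, hx⟩ : Ω) - x := by rw [← hτ' ⟨x, hx⟩]
    exact (congrArg O.valuation d).trans_lt b

theorem p_SWP (hRST : S_RST) (hXT : S_XT) :
    S_SWP := by
  intro L F Ω _ _ _ _ _ _ _ _ t φ ψ O P Y ht he hc h1 h2 hs hY
  let e : L⟮t⟯ ≃ₐ[L] L⟮φ t⟯ := (L⟮t⟯.equivMap φ).trans (IntermediateField.equivOfEq (by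
    rw [IntermediateField.adjoin_map, Set.image_singleton]))
  have hag : ψ.comp L⟮t⟯.val = φ.comp L⟮t⟯.val :=
    IntermediateField.adjoin_algHom_ext L fun x hx => by
      obtain rfl := Set.mem_singleton_iff.1 hx; exact he.symm
  have he1 : ∀ x : L⟮φ t⟯, φ (e.symm x) = x := fun x =>
    congrArg Subtype.val (e.apply_symm_apply x)
  let _ : Algebra L⟮φ t⟯ L⟮t⟯ := e.symm.toRingEquiv.toRingHom.toAlgebra
  let _ : Algebra L⟮φ t⟯ F := (L⟮t⟯.val.comp e.symm.toAlgHom).toRingHom.toAlgebra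
  have : IsScalarTower L⟮φ t⟯ L⟮t⟯ F := .of_algebraMap_eq fun _ => rfl
  have : IsScalarTower L L⟮φ t⟯ F :=
    .of_algebraMap_eq fun x => ((L⟮t⟯.val.comp e.symm.toAlgHom).commutes x).symm
  have := FF.fin t ht
  have : Module.Finite L⟮φ t⟯ L⟮t⟯ :=
    .of_surjective (Algebra.linearMap L⟮φ t⟯ L⟮t⟯) e.symm.surjective
  have : FiniteDimensional L⟮φ t⟯ F := .trans _ L⟮t⟯ F
  let φ' : F →ₐ[L⟮φ t⟯] Ω := { φ.toRingHom with commutes' := he1 }
  let ψ' : F →ₐ[L⟮φ t⟯] Ω := { ψ.toRingHom with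
    commutes' := fun x => (DFunLike.congr_fun hag (e.symm x)).trans (he1 x) }
  have : Algebra.IsSeparable L⟮φ t⟯ F := ⟨fun w => IsSeparable.of_algHom φ' (hs w)⟩
  have htop : L⟮IntermediateField.AdjoinSimple.gen L (φ t)⟯ = ⊤ := by
    apply IntermediateField.lift_injective
    rw [IntermediateField.lift_adjoin_simple, IntermediateField.lift_top]
    rfl
  have : FiniteDimensional L⟮IntermediateField.AdjoinSimple.gen L (φ t)⟯ L⟮φ t⟯ :=
    .of_surjective (Algebra.linearMap _ _) fun x => ⟨⟨x, htop ▸ IntermediateField.mem_top⟩, rfl⟩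
  obtain ⟨τ, a, M, b, c⟩ := cswp_abs hRST hXT L L⟮φ t⟯ F Ω
    (IntermediateField.AdjoinSimple.gen L (φ t)) ht φ' ψ' O P Y hc h1 h2 hY
  refine ⟨τ, a, fun x hx => c x ?_⟩
  have hle : IntermediateField.adjoin L (insert (φ t) (Y : Set Ω)) ≤ M.restrictScalars L :=
    IntermediateField.adjoin_le_iff.2
      (Set.insert_subset (M.algebraMap_mem (IntermediateField.AdjoinSimple.gen L (φ t))) b)
  exact hle hx

end

section

open Finset Module WithZero
open Pool.Agent.P.MP_6f117a_ag (Place FF)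
open Pool.Agent.P.MP_ab3ecb_nt.Inv (Dv deg SA LS ev ord dv)
open Pool.Agent.P.MP_9344a7_nt.R
open Pool.Agent.P.MP_9344a7_nt.Hy hiding pt ev
open Pool.Agent.P.MP_9344a7_nt.Gt (pt lS Pr Can Bd Ch G12 Cv Kb)
open scoped Classical IntermediateField

section

variable {L F : Type} [Field L] [Field F] [Algebra L F] {u : F}

lemma csur_pow (u : F) {p : Polynomial L} (hp : p ≠ 0) :
    ∃ a : ℕ, ∀ P : Place L F, P.v u < 1 → P.v (Polynomial.aeval u p) = P.v u ^ a := by
  obtain ⟨q, e, hq⟩ := Polynomial.exists_eq_pow_rootMultiplicity_mul_and_not_dvd p hp 0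
  rw [map_zero, sub_zero] at e hq
  refine ⟨p.rootMultiplicity 0, fun P h => ?_⟩
  have h1 := (Gt.prim_poly rfl h (q.divX * .X)).2.2 (by simp)
  have c := P.v_const (mt Polynomial.X_dvd_iff.2 hq)
  conv_lhs => rw [e, ← q.divX_mul_X_add]
  rw [map_mul, map_mul, map_add, Polynomial.aeval_C, P.v.map_add_eq_of_lt_right (c ▸ h1), c]
  simp

lemma csur_le {P Q : Place L F} (hu : u ≠ 0) (h : P.v u < 1) (h' : Q.v u < 1) {r : F}
    (hr : r ∈ L⟮u⟯) (e : Q.v r ≤ 1) : P.v r ≤ 1 := by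
  obtain ⟨p, q, rfl⟩ := (IntermediateField.mem_adjoin_simple_iff L r).1 hr
  rcases eq_or_ne p 0 with rfl | hp
  · simp
  rcases eq_or_ne q 0 with rfl | hq
  · simp
  obtain ⟨a, ha⟩ := csur_pow u hp
  obtain ⟨b, hb⟩ := csur_pow u hq
  have z : ∀ R : Place L F, 0 < R.v u := fun R => zero_lt_iff.2 (MP_ab3ecb_nt.Inv.v_ne R hu)
  rw [map_div₀, ha Q h', hb Q h', div_le_one₀ (pow_pos (z Q) b),
    pow_le_pow_iff_right_of_lt_one₀ (z Q) h'] at e
  rwa [map_div₀, ha P h, hb P h, div_le_one₀ (pow_pos (z P) b),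
    pow_le_pow_iff_right_of_lt_one₀ (z P) h]

lemma csur_sep [IsAlgClosed L] [FF L F] {ι : Type} [Fintype ι] (hu : Transcendental L u)
    {P : Place L F} {T : ι → Place L F} (i : ι) (h : P.v u ≤ 1) (h' : ∀ j, (T j).v u ≤ 1)
    (hne : ∀ j, P ≠ T j) : ∃ w, 1 < P.v w ∧ ∀ j, (T j).v w ≤ 1 := by
  choose y y1 y2 y3 using fun j => (MP_ab3ecb_nt.Inv.PL.model hu).sep P (T j) h (h' j) (hne j)
  have z2 : P.v (∏ j, y j) = 1 := by
    rw [map_prod]
    exact prod_eq_one fun j _ => y2 j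
  have c := fun j => (T j).v_const (MP_ab3ecb_nt.Inv.ev_ne_zero z2)
  have z3 : ∀ j, (T j).v (∏ j, y j - algebraMap L F (ev P (∏ j, y j))) = 1 := fun j => by
    rw [(T j).v.map_sub_eq_of_lt_right, c]
    rw [c, map_prod, ← mul_prod_erase _ _ (mem_univ j)]
    exact mul_lt_one_of_nonneg_of_lt_one_left zero_le (y3 j)
      (prod_le_one' fun l _ => y1 l _ (h' j))
  refine ⟨_⁻¹, ?_, fun j => by rw [map_inv₀, z3, inv_one]⟩
  rw [map_inv₀, one_lt_inv₀ (zero_lt_iff.2
    (MP_ab3ecb_nt.Inv.v_ne P (MP_ab3ecb_nt.Inv.ne_zero_of_v_one (z3 i))))]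
  exact MP_ab3ecb_nt.Inv.ev_spec z2.le

end

theorem p_SUR (hSEP : S_SEP) (hEMB : S_EMB) :
    S_SUR := by
  intro L F Ω ι _ _ _ _ _ _ _ _ _ t φ O T hd hc he hr
  have h1 : ∀ i j, Fb t (T i) (T j) := fun i j => by
    rcases le_or_gt ((T i).v t) 1 with h | h
    · have a := MP_ab3ecb_nt.Inv.ev_spec h
      refine .inl ⟨_, a, ((hr j).lt _).1 ?_⟩
      rw [← (hr i).lt] at a
      rwa [map_sub, AlgHom.commutes, he.eq j i, ← (φ i).commutes, ← map_sub]
    · exact .inr ⟨h, not_le.1 fun e => h.not_ge ((hr i t).1 (he.eq j i ▸ (hr j t).2 e))⟩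
  have h2 : ∀ i P, Fb t P (T i) → ∃ j, T j = P := fun i P hP => by
    obtain ⟨u, u1, u2, u3, u4⟩ : ∃ u, Transcendental L u ∧ L⟮u⟯ = L⟮t⟯ ∧ P.v u < 1 ∧
        ∀ j, (T j).v u < 1 := by
      rcases hP with ⟨c, a, b⟩ | ⟨a, b⟩
      · exact ⟨_, MP_6f117a_ag.trans_sub hd.tr c, MP_6f117a_ag.adjoin_sub t c, a,
          fun j => (h1 j i).lt b⟩
      · refine ⟨_, MP_6f117a_ag.trans_inv hd.tr, MP_6f117a_ag.adjoin_inv t, ?_, fun j => ?_⟩ <;>
          rw [map_inv₀] <;> refine inv_lt_one_of_one_lt₀ ?_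
        · exact a
        · rcases h1 j i with ⟨c, -, e⟩ | e
          · exact absurd (MP_ab3ecb_nt.Inv.le_one_of_sub e) b.not_ge
          · exact e.1
    by_contra hn
    push Not at hn
    obtain ⟨w, w1, w2⟩ := csur_sep u1 i u3.le (fun j => (u4 j).le) fun j => (hn j).symm
    have := FF.fin t hd.tr
    let _ : Algebra L⟮t⟯ Ω := ((φ i : F →+* Ω).comp (algebraMap L⟮t⟯ F)).toAlgebra
    have : IsScalarTower L L⟮t⟯ Ω := .of_algebraMap_eq fun c => ((φ i).commutes c).symm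
    have hm := minpoly.monic (Algebra.IsIntegral.isIntegral (R := L⟮t⟯) w)
    have h3 := (IsAlgClosed.splits ((minpoly L⟮t⟯ w).map
      (algebraMap _ Ω))).mem_lift_of_roots_mem_range (hm.map _) O.subtype fun a ha => by
        obtain ⟨ψ, rfl⟩ := (Algebra.IsAlgebraic.range_eval_eq_rootSet_minpoly Ω w).ge
          (Polynomial.mem_rootSet'.2 (Polynomial.mem_aroots'.1 ha))
        obtain ⟨j, e⟩ := (hEMB L F Ω ι t hd hc).2 φ he i (ψ.restrictScalars L)
          (ψ.commutes (IntermediateField.AdjoinSimple.gen L t))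
        exact ⟨⟨_, (hr j w).2 (w2 j)⟩, congr($e w)⟩
    obtain ⟨q, q1, -, q2⟩ := Polynomial.lifts_and_degree_eq_and_monic
      ((Polynomial.lifts_iff_coeff_lifts (f := algebraMap P.v.integer F) _).2 fun n => by
        obtain ⟨a, e⟩ := (Polynomial.lifts_iff_coeff_lifts _).1 h3 n
        rw [Polynomial.coeff_map] at e ⊢
        exact ⟨⟨_, csur_le (MP_6f117a_ag.trans_ne u1) u3 (u4 i) (u2.ge ((minpoly L⟮t⟯ w).coeff n).2)
          ((hr i _).1 (e ▸ a.2))⟩, rfl⟩) (hm.map (algebraMap L⟮t⟯ F))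
    exact w1.not_ge ((Valuation.integer.integers P.v).mem_of_integral ⟨q, q2, by
      rw [Polynomial.eval₂_eq_eval_map, q1, Polynomial.eval_map_algebraMap, minpoly.aeval]⟩)
  refine ⟨h1, h2, fun i ⟨Z, a, b⟩ => Set.injOn_univ.1 ?_⟩
  rw [← coe_univ, ← card_image_iff]
  exact le_antisymm card_image_le (a.trans (card_le_card fun Q hQ =>
    (h2 i Q (b Q hQ)).elim fun j e => mem_image.2 ⟨j, mem_univ j, e⟩))

end

section

open Finset Module WithZero
open Pool.Agent.P.MP_6f117a_ag (Place FF)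
open Pool.Agent.P.MP_ab3ecb_nt.Inv (Dv deg SA LS ev ord dv)
open Pool.Agent.P.MP_9344a7_nt.R
open Pool.Agent.P.MP_9344a7_nt.Hy hiding pt ev
open Pool.Agent.P.MP_9344a7_nt.Gt (pt lS Pr Can Bd Ch G12 Cv Kb)
open scoped Classical IntermediateField

theorem p_GOU :
    S_GOU := by
  refine ⟨fun ι _ H a b hab hs h1 h2 => ?_, fun ι α _ T Z π a b hc hZ hT hπ hab => ?_⟩
  · have key : ∀ γ : Equiv.Perm ι, (γ, 1) ∈ H := fun γ => by
      induction γ using Equiv.Perm.swap_induction_on with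
      | one => exact H.one_mem
      | swap_mul f x y hxy ih =>
        obtain ⟨c, hc⟩ := isConj_iff.1 (Equiv.Perm.isConj_swap hab hxy)
        obtain ⟨d, hd⟩ := h1 c
        simpa [hc] using H.mul_mem (H.mul_mem (H.mul_mem hd hs) (H.inv_mem hd)) ih
    refine eq_top_iff.2 fun ⟨x, y⟩ _ => ?_
    obtain ⟨z, hz⟩ := h2 y
    simpa using H.mul_mem (key (x * z⁻¹)) hz
  · have e : T b = T a := hπ ▸ hT a
    have h1 : Z ⊆ (univ.erase b).image T := fun z hz => by
      obtain ⟨i, rfl⟩ := hZ z hz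
      by_cases h : i = b
      · exact mem_image.2 ⟨a, by simpa using hab, by rw [h, e]⟩
      · exact mem_image_of_mem _ (by simpa using h)
    have h2 : Set.InjOn T (univ.erase b : Finset ι) := injOn_of_card_image_eq
      (le_antisymm card_image_le (by
        have := card_le_card h1
        rw [card_erase_of_mem (mem_univ _), card_univ]
        omega))
    have h3 : ∀ i, i ≠ a → π i ≠ b := fun i h e => h (π.injective (e.trans hπ.symm))
    ext i
    by_cases ha : i = a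
    · rw [ha, hπ, Equiv.swap_apply_left]
    by_cases hb : i = b
    · rw [hb, Equiv.swap_apply_right]
      exact h2 (by simpa using h3 b hab.symm) (by simpa using hab) ((hT b).trans e)
    · rw [Equiv.swap_apply_of_ne_of_ne ha hb]
      exact h2 (by simpa using h3 i ha) (by simpa using hb) (hT i)

end

end Pool.Agent.P.MP_9344a7_nt.Ac
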