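import Pool.Agent.P.MP_9344a7_nt.Ac.IfaceC
import Pool.Agent.P.MP_9344a7_nt.Ac.Iface

/-! Steps GRP, RFB, VEX, DGM, BDX, TWB, PEL, PM0. -/

set_option linter.unusedVariables false
set_option linter.unusedSectionVars false

namespace Pool.Agent.P.MP_9344a7_nt.Ac

section

open Finset Module WithZero
open Pool.Agent.P.MP_6f117a_ag (Place FF)
open Pool.Agent.P.MP_ab3ecb_nt.Inv (Dv deg SA LS ev ord dv)
open Pool.Agent.P.MP_9344a7_nt.R
open Pool.Agent.P.MP_9344a7_nt.Hy hiding pt ev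
open Pool.Agent.P.MP_9344a7_nt.Gt (pt lS Pr Can Bd Ch G12 Cv Kb)
open scoped Classical IntermediateField

lemma cgrp_opt {α : Type} {r : Equiv.Perm (Option α)} (h : r none = none) :
    r.removeNone.optionCongr = r := by
  rw [map_equiv_removeNone, h, Equiv.swap_self]
  rfl

lemma cgrp_mem {L F Ω : Type} [Field L] [Field F] [Algebra L F] [Field Ω] [Algebra L Ω] {t x : F}
    (h : L⟮t, x⟯ = ⊤) (φ : F →ₐ[L] Ω) {N : IntermediateField L Ω} (h1 : φ t ∈ N) (h2 : φ x ∈ N)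
    (w : F) : φ w ∈ N :=
  (IntermediateField.adjoin_le_iff (T := N.comap φ)).2 (by rintro _ (rfl | rfl) <;> assumption)
    (h.ge IntermediateField.mem_top)

/-- The pairs of permutations induced by automorphisms. -/
def cgrp_H {L F Ω ι : Type} [Field L] [Field F] [Algebra L F] [Field Ω] [Algebra L Ω]
    (φ ψ : Option ι → F →ₐ[L] Ω) : Subgroup (Equiv.Perm ι × Equiv.Perm ι) where
  carrier := {z | ∃ τ : Ω ≃ₐ[L] Ω, (∀ i w, τ (φ i w) = φ (z.1.optionCongr i) w) ∧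
    ∀ i w, τ (ψ i w) = ψ (z.2.optionCongr i) w}
  one_mem' := ⟨1, by simp, by simp⟩
  mul_mem' := by
    rintro _ _ ⟨τ, a, b⟩ ⟨τ', a', b'⟩
    exact ⟨τ * τ', fun i w => by rw [AlgEquiv.mul_apply, a', a]; cases i <;> rfl,
      fun i w => by rw [AlgEquiv.mul_apply, b', b]; cases i <;> rfl⟩
  inv_mem' := by
    rintro _ ⟨τ, a, b⟩
    exact ⟨τ.symm, fun i w => by rw [AlgEquiv.symm_apply_eq, a]; cases i <;> simp,
      fun i w => by rw [AlgEquiv.symm_apply_eq, b]; cases i <;> simp⟩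

theorem p_GRP (hCOL : S_COL) (hSWP : S_SWP) (hSEP : S_SEP) (hRST : S_RST) (hSUR : S_SUR) (hMON : S_MON) (hFRE : S_FRE) (hGOU : S_GOU) :
    S_GRP := by
  intro L F Ω _ _ _ _ _ _ _ _ n t φ hn hc ht hs hφ
  let a : Fin n := ⟨0, by omega⟩
  let b : Fin n := ⟨1, by omega⟩
  have ab : a ≠ b := by simp [a, b]
  obtain ⟨V, -, P, hP⟩ := hCOL L F Ω t _ ht.tr ht.rk hc hs (φ (some a)) (φ (some b)) (hφ.eq _ _)
    (hφ.inj.ne (by simpa using ab))
  have ra := rs_of_r V fun w h => (hP w h).1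
  have rb := rs_of_r V fun w h => (hP w h).2
  rw [show n + 1 = Fintype.card (Option (Fin n)) by simp] at hc ht hs ⊢
  choose T hT using fun i => (hRST L F Ω V.O (φ i)).2 F _ P t t ra ht.tr (hφ.eq _ _)
  refine ⟨T none, fun t' ψ ht' hs' hψ e0 hr α β a0 b0 => ?_⟩
  choose T' hT' using fun i =>
    (hRST L F Ω V.O (ψ i)).2 F _ _ t' t' (hT none) ht'.tr (e0 ▸ hψ.eq _ _)
  have inj := (hSUR L F Ω _ t' ψ V.O T' ht' hc hψ hT').2.2 none
    (by rwa [(hT' none).uniq (e0 ▸ hT none)])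
  have fre : ∀ (u : F) (χ : Option (Fin n) → F →ₐ[L] Ω), Dg L u _ → Em u χ →
      ∀ (τ : Ω ≃ₐ[L] Ω) i, τ (χ i u) = χ i u → ∃ π : Equiv.Perm _,
        (∀ i w, τ (χ i w) = χ (π i) w) ∧ ∀ i j, (∀ w, τ (χ i w) = χ j w) → π i = j :=
    fun u χ h1 h2 τ i h3 => hFRE L F Ω _ u χ (sid L F) τ.toRingEquiv i h1 hc h2 rfl τ.commutes h3
  obtain ⟨-, ⟨x, hx⟩, s2⟩ := hSEP.1 L F t _ ht.tr ht.rk.le hc
  obtain ⟨-, ⟨x', hx'⟩, s2'⟩ := hSEP.1 L F t' _ ht'.tr ht'.rk.le hc
  have sp : ∀ i w, IsSeparable L⟮φ (some a) t⟯ (φ i w) := fun i w => by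
    rw [hφ.eq (some a) i]
    exact s2 Ω _ w
  obtain ⟨τ, t1, t2⟩ := hSWP L F Ω t _ _ V.O P
    (insert (φ none t') (univ.image (φ · x) ∪ univ.image (ψ · x'))) ht.tr (hφ.eq _ _) ra.const ra rb
    (sp _) fun y hy => by
      simp only [mem_insert, mem_union, mem_image, mem_univ, true_and] at hy
      rcases hy with rfl | ⟨i, rfl⟩ | ⟨i, rfl⟩
      · exact sp _ _
      · exact sp _ _
      · refine hSEP.2 L Ω _ _ _ (sp none t') ?_
        rw [← e0, hψ.eq none i]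
        exact s2' Ω _ _
  have m1 := fun i w => (t2 _ (cgrp_mem hx (φ i) (IntermediateField.subset_adjoin _ _
    (.inl (hφ.eq _ _))) (IntermediateField.subset_adjoin _ _ (.inr (by simp))) w)).1
  have m2 := fun i w => (t2 _ (cgrp_mem hx' (ψ i) (IntermediateField.subset_adjoin _ _
    (.inr (by simp [← e0, hψ.eq i none]))) (IntermediateField.subset_adjoin _ _
      (.inr (by simp))) w)).1
  obtain ⟨π, p1, p2⟩ := fre t φ ht hφ τ (some a) ((t1 t).trans (hφ.eq _ _))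
  obtain ⟨Z, z1, z2⟩ := hs.fb (T none)
  have sw := hGOU.2 _ _ T Z π _ _ z1
    (fun z hz => (hSUR L F Ω _ t φ V.O T ht hc hφ hT).2.1 none z (z2 z hz))
    (fun i => (hT _).uniq fun w => by rw [← p1, m1]; exact hT i w) (p2 _ _ t1) (by simpa using ab)
  replace sw : π = (@Equiv.swap _ (fun _ _ => Classical.propDecidable _) a b).optionCongr := by
    rw [sw, @Equiv.optionCongr_swap _ (fun _ _ => Classical.propDecidable _)]
    exact congrArg (fun i => @Equiv.swap _ i _ _) (Subsingleton.elim _ _)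
  obtain ⟨π', q1, -⟩ := fre t' ψ ht' hψ τ none (by rw [e0, p1, sw]; rfl)
  have q2 : ∀ i, π' i = i := fun i =>
    inj ((hT' _).uniq fun w => by rw [← q1, m2]; exact hT' i w)
  have top := hGOU.1 _ (cgrp_H φ ψ) a b ab
    ⟨τ, sw ▸ p1, fun i w => by simp [q1, q2]⟩
    (fun γ => by
      obtain ⟨ρ, r1⟩ := hMON L F Ω _ t φ ht hc hs hφ γ.optionCongr
      have r2 : ∀ w, ρ (ψ none w) = ψ none w := fun w => e0 ▸ r1 none w
      obtain ⟨δ, d1, d2⟩ := fre t' ψ ht' hψ ρ none (r2 _)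
      exact ⟨δ.removeNone, ρ, r1, by rwa [cgrp_opt (d2 _ _ r2)]⟩)
    fun γ => by
      obtain ⟨ρ, r1⟩ := hMON L F Ω _ t' ψ ht' hc hs' hψ γ.optionCongr
      have r2 : ∀ w, ρ (φ none w) = φ none w := fun w => e0 ▸ r1 none w
      obtain ⟨δ, d1, d2⟩ := fre t φ ht hφ ρ none (r2 _)
      exact ⟨δ.removeNone, ρ, by rwa [cgrp_opt (d2 _ _ r2)], r1⟩
  obtain ⟨ρ, r1, r2⟩ : (α.removeNone, β.removeNone) ∈ cgrp_H φ ψ := top.ge (Subgroup.mem_top _)
  rw [cgrp_opt a0] at r1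
  rw [cgrp_opt b0] at r2
  exact ⟨ρ, r1, r2⟩

end

section

open Finset Module WithZero
open Pool.Agent.P.MP_6f117a_ag (Place FF)
open Pool.Agent.P.MP_ab3ecb_nt.Inv (Dv deg SA LS ev ord dv)
open Pool.Agent.P.MP_9344a7_nt.R
open Pool.Agent.P.MP_9344a7_nt.Hy hiding pt ev
open Pool.Agent.P.MP_9344a7_nt.Gt (pt lS Pr Can Bd Ch G12 Cv Kb)
open scoped Classical IntermediateField

open Pool.Agent.P.MP_ab3ecb_nt.Inv in
lemma crfb_zero {k E : Type} [Field k] [IsAlgClosed k] [Field E] [Algebra k E] [FF k E] {u : E}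
    (h : Transcendental k u) : ∃ Z : Finset (Place k E), (∀ Q, Q ∈ Z ↔ Q.v u < 1) ∧
      #Z ≤ finrank k⟮u⟯ E ∧ ((∀ Q ∈ Z, ord Q u = 1) → finrank k⟮u⟯ E ≤ #Z) := by
  obtain ⟨Z, a, b⟩ := (PL.model h).fund
  refine ⟨Z, a, ?_, fun e => ?_⟩
  · have := card_nsmul_le_sum Z (fun Q => ord Q u) 1 fun Q hQ =>
      (lt_one_iff (MP_6f117a_ag.trans_ne h)).1 ((a Q).1 hQ)
    rw [nsmul_one] at this
    exact_mod_cast this.trans_eq b
  · simpa using (b.symm.trans (sum_congr rfl e)).le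

open Pool.Agent.P.MP_ab3ecb_nt.Inv in
theorem p_RFB (hBDF : S_BDF) :
    S_RFB := by
  intro g d
  obtain ⟨c, d0, h⟩ := Gt.a_RAM g d
  refine ⟨c * d, d0, fun k E _ _ _ _ _ W t hW hc ht => ?_⟩
  obtain ⟨X, x1, x2⟩ := h k E W t hW hc ht.tr ((hBDF k E t d ht.tr).2 ht.rk.le)
  have key : ∀ P : Place k E, ∃ Z : Finset (Place k E), (∀ Q, Q ∈ Z ↔ Fb t Q P) ∧ #Z ≤ d ∧
      (P ∉ X → (∀ Q ∈ Z, Q ∉ X) → d ≤ #Z) := fun P => by
    rcases le_or_gt (P.v t) 1 with e | e
    · obtain ⟨Z, a, b, b'⟩ := crfb_zero (MP_6f117a_ag.trans_sub ht.tr (ev P t))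
      rw [MP_6f117a_ag.adjoin_sub, ht.rk] at b b'
      exact ⟨Z, fun Q => (a Q).trans ⟨fun h => .inl ⟨_, h, ev_spec e⟩, fun h => h.lt (ev_spec e)⟩,
        b, fun _ h => b' fun Q hQ => ev_eq ((a Q).1 hQ) ▸ (x2 Q (h Q hQ)).2⟩
    · obtain ⟨Z, a, b, -⟩ := crfb_zero (MP_6f117a_ag.trans_inv ht.tr)
      rw [MP_6f117a_ag.adjoin_inv, ht.rk] at b
      refine ⟨Z, fun Q => (a Q).trans ?_, b, fun h => absurd (x2 P h).1 e.not_ge⟩
      rw [map_inv₀, inv_lt_one₀ (zero_lt_iff.2 (v_ne Q (MP_6f117a_ag.trans_ne ht.tr)))]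
      exact ⟨fun h => .inr ⟨h, e⟩, fun h => h.elim
        (fun ⟨_, _, h⟩ => absurd (le_one_of_sub h) e.not_ge) And.left⟩
  choose Z z1 z2 z3 using key
  refine ⟨⟨X.biUnion Z, (card_biUnion_le_card_mul _ _ d fun P _ => z2 P).trans
    (Nat.mul_le_mul_right _ x1), fun P hP => ?_⟩,
    fun P Y hY => (card_le_card fun Q hQ => (z1 P Q).2 (hY Q hQ)).trans (z2 P)⟩
  have e : ∀ Q, Fb t Q P → Q ∉ X := fun Q a b => hP (mem_biUnion.2 ⟨Q, b, (z1 Q P).2 a.symm⟩)
  have e' := e P (Fb.refl t P)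
  exact ⟨(x2 P e').1, Z P, z3 P e' fun Q hQ => e Q ((z1 P Q).1 hQ), fun Q => (z1 P Q).1⟩

end

section

open Finset Module WithZero
open Pool.Agent.P.MP_6f117a_ag (Place FF)
open Pool.Agent.P.MP_ab3ecb_nt.Inv (Dv deg SA LS ev ord dv)
open Pool.Agent.P.MP_9344a7_nt.R
open Pool.Agent.P.MP_9344a7_nt.Hy hiding pt ev
open Pool.Agent.P.MP_9344a7_nt.Gt (pt lS Pr Can Bd Ch G12 Cv Kb)
open scoped Classical IntermediateField

theorem p_VEX :
    S_VEX := by
  intro L F Ω _ _ _ _ _ φ P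
  obtain ⟨O, h, hl⟩ := IsLocalRing.exists_factor_valuationRing
    ((φ : F →+* Ω).comp P.v.valuationSubring.subtype)
  refine ⟨O, fun w => ⟨fun e => ?_, fun e => h ⟨w, e⟩⟩⟩
  rcases eq_or_ne w 0 with rfl | w0
  · simp
  refine (P.v.valuationSubring.mem_or_inv_mem w).elim id fun a => ?_
  obtain ⟨b, hb⟩ := (hl.1 ⟨_, a⟩ (.of_mul_eq_one ⟨_, e⟩ (Subtype.ext
    (show φ w⁻¹ * φ w = 1 by rw [← map_mul, inv_mul_cancel₀ w0, map_one])))).exists_right_inv
  exact (inv_mul_eq_one₀ w0).1 (congrArg Subtype.val hb) ▸ b.2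

end

section

open Finset Module WithZero
open Pool.Agent.P.MP_6f117a_ag (Place FF)
open Pool.Agent.P.MP_ab3ecb_nt.Inv (Dv deg SA LS ev ord dv)
open Pool.Agent.P.MP_9344a7_nt.R
open Pool.Agent.P.MP_9344a7_nt.Hy hiding pt ev
open Pool.Agent.P.MP_9344a7_nt.Gt (pt lS Pr Can Bd Ch G12 Cv Kb)
open scoped Classical IntermediateField

section

variable {k E M : Type} [Field k] [Field E] [Field M] [Algebra k E] [Algebra k M] [Algebra E M]
  [IsScalarTower k E M]

lemma cdgm_one (ψ : E →ₐ[k] M) (t : E) [FiniteDimensional k⟮t⟯ E]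
    (h : ψ t = algebraMap E M t) :
    FiniteDimensional E (IntermediateField.adjoin E (Set.range ψ)) ∧
      finrank E (IntermediateField.adjoin E (Set.range ψ)) ≤ finrank k⟮t⟯ E := by
  have e : ψ.comp k⟮t⟯.val = (IsScalarTower.toAlgHom k E M).comp k⟮t⟯.val :=
    IntermediateField.adjoin_algHom_ext k fun x hx => by
      obtain rfl : x = t := hx
      exact h
  let χ : E →ₐ[k⟮t⟯] M := { ψ.toRingHom with commutes' := fun c => DFunLike.congr_fun e c }
  have a := (IntermediateField.adjoin_rank_le_of_isAlgebraic_left E χ.fieldRange).trans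
    (AlgEquiv.ofInjectiveField χ).toLinearEquiv.rank_eq.ge
  rw [← finrank_eq_rank k⟮t⟯ E] at a
  exact ⟨Module.rank_lt_aleph0_iff.1 (a.trans_lt Cardinal.natCast_lt_aleph0),
    finrank_le_of_rank_le a⟩

lemma cdgm_rk (t : E) :
    finrank k⟮algebraMap E M t⟯ M = finrank k⟮t⟯ E * finrank E M := by
  rw [Module.finrank_mul_finrank]
  have h : k⟮t⟯.map (IsScalarTower.toAlgHom k E M) = k⟮algebraMap E M t⟯ := by
    rw [IntermediateField.adjoin_map, Set.image_singleton]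
    rfl
  exact (Algebra.finrank_eq_of_equiv_equiv ((IntermediateField.equivMap k⟮t⟯ _).trans
    (IntermediateField.equivOfEq h)).toRingEquiv (RingEquiv.refl M) (by ext; rfl)).symm

end

lemma cdgm_sup {E M ι : Type} [Field E] [Field M] [Algebra E M] (A : ι → IntermediateField E M)
    (d : ℕ) (h : ∀ i, FiniteDimensional E (A i) ∧ finrank E (A i) ≤ d) (s : Finset ι) :
    FiniteDimensional E (s.sup A : IntermediateField E M) ∧
      finrank E (s.sup A : IntermediateField E M) ≤ d ^ #s := by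
  induction s using Finset.induction_on with
  | empty =>
    rw [sup_empty, IntermediateField.finrank_bot]
    exact ⟨inferInstance, by simp⟩
  | insert a s ha ih =>
    rw [sup_insert, card_insert_of_notMem ha, pow_succ']
    have := (h a).1
    have := ih.1
    exact ⟨inferInstance, (IntermediateField.finrank_sup_le _ _).trans
      (Nat.mul_le_mul (h a).2 ih.2)⟩

lemma cdgm_main {k E Ω ι : Type} [Field k] [Field E] [Algebra k E] [Field Ω] [Algebra k Ω]
    [Fintype ι] (φ : ι → E →ₐ[k] Ω) (f : ι → E) (d : ℕ) (M : IntermediateField k Ω)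
    [Algebra E M] [IsScalarTower k E M] (hM : M = ⨆ i, (φ i).fieldRange)
    (h : ∀ i, FiniteDimensional k⟮f i⟯ E ∧ finrank k⟮f i⟯ E = d ∧
      φ i (f i) = (algebraMap E M (f i)).1) :
    FiniteDimensional E M ∧ finrank E M ≤ d ^ Fintype.card ι := by
  have hm : ∀ i w, φ i w ∈ M := fun i w =>
    hM ▸ le_iSup (fun i => (φ i).fieldRange) i ⟨w, rfl⟩
  let ψ : ι → E →ₐ[k] M := fun i => (φ i).codRestrict M.toSubalgebra (hm i)
  let A : ι → IntermediateField E M := fun i => IntermediateField.adjoin E (Set.range (ψ i))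
  have a := cdgm_sup A d (fun i => by
    have := (h i).1
    exact (h i).2.1 ▸ cdgm_one (ψ i) (f i) (Subtype.ext (h i).2.2)) univ
  have b : univ.sup A = ⊤ := by
    refine eq_top_iff.2 fun x _ => ?_
    have c : M ≤ IntermediateField.lift ((univ.sup A).restrictScalars k) := by
      refine hM.le.trans (iSup_le ?_)
      rintro i _ ⟨w, rfl⟩
      exact (IntermediateField.mem_lift (ψ i w)).2
        (le_sup (f := A) (mem_univ i) (IntermediateField.subset_adjoin E _ ⟨w, rfl⟩))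
    exact (IntermediateField.mem_lift x).1 (c x.2)
  rw [b, IntermediateField.finrank_top'] at a
  have := a.1
  exact ⟨IntermediateField.topEquiv.toLinearEquiv.finiteDimensional, a.2⟩

theorem p_DGM (hSEP : S_SEP) :
    S_DGM := by
  intro k E Ω ι _ _ _ _ _ _ _ φ f i0 d M _ h hM
  have hm : ∀ w, φ i0 w ∈ M := fun w =>
    hM ▸ le_iSup (fun i => (φ i).fieldRange) i0 ⟨w, rfl⟩
  let ψ : E →ₐ[k] M := (φ i0).codRestrict M.toSubalgebra hm
  let _ : Algebra E M := ψ.toRingHom.toAlgebra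
  have : IsScalarTower k E M := .of_algebraMap_eq fun c => (ψ.commutes c).symm
  have hf : ∀ i, FiniteDimensional k⟮f i⟯ E := fun i => FF.fin _ (h i).1.tr
  obtain ⟨a, b⟩ := cdgm_main φ f d M hM fun i => ⟨hf i, (h i).1.rk, (h i).2⟩
  have := hf i0
  refine ⟨(Pool.Agent.P.MP_ab3ecb_nt.Inv.PL.ff_of_finite k E M (f i0)).2, fun i z hz => ?_⟩
  obtain rfl : z = algebraMap E M (f i) := Subtype.ext (hz.trans (h i).2)
  rw [cdgm_rk, (h i).1.rk, pow_succ']
  exact Nat.mul_le_mul_left d b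

end

section

open Finset Module WithZero
open Pool.Agent.P.MP_6f117a_ag (Place FF)
open Pool.Agent.P.MP_ab3ecb_nt.Inv (Dv deg SA LS ev ord dv)
open Pool.Agent.P.MP_9344a7_nt.R
open Pool.Agent.P.MP_9344a7_nt.Hy hiding pt ev
open Pool.Agent.P.MP_9344a7_nt.Gt (pt lS Pr Can Bd Ch G12 Cv Kb)
open scoped Classical IntermediateField

lemma cbdx_rk {k E M : Type} [Field k] [Field E] [Algebra k E] [Field M] [Algebra k M]
    [Algebra E M] [IsScalarTower k E M] (u : E) :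
    finrank k⟮algebraMap E M u⟯ M = finrank k⟮u⟯ E * finrank E M := by
  have h : k⟮u⟯.map (IsScalarTower.toAlgHom k E M) = k⟮algebraMap E M u⟯ := by
    rw [IntermediateField.adjoin_map, Set.image_singleton]
    rfl
  rw [finrank_mul_finrank]
  exact (Algebra.finrank_eq_of_equiv_equiv ((k⟮u⟯.equivMap _).trans
    (IntermediateField.equivOfEq h)).toRingEquiv (RingEquiv.refl M) (by ext; rfl)).symm

theorem p_BDX (hBDF : S_BDF) :
    S_BDX := by
  intro k E M _ _ _ _ _ _ _ _ φ t w D n ht hD hw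
  rcases MP_6f117a_ag.const_or_trans (L := k) w with ⟨c, rfl⟩ | tw
  · rw [φ.commutes]
    exact .const _ c
  let _ : Algebra E M := (φ : E →+* M).toAlgebra
  have : IsScalarTower k E M := .of_algebraMap_eq fun c => (φ.commutes c).symm
  have := FF.fin t ht
  have h1 : finrank k⟮φ t⟯ M = _ := cbdx_rk t
  have h2 : finrank k⟮φ w⟯ M = _ := cbdx_rk w
  rw [hBDF k M (φ w) _ ((transcendental_algebraMap_iff (algebraMap E M).injective).2 tw), h2,
    mul_comm]
  exact Nat.mul_le_mul ((Nat.le_mul_of_pos_left _ finrank_pos).trans (h1 ▸ hD))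
    ((hBDF k E w n tw).1 hw)

end

section

open Finset Module WithZero
open Pool.Agent.P.MP_6f117a_ag (Place FF)
open Pool.Agent.P.MP_ab3ecb_nt.Inv (Dv deg SA LS ev ord dv)
open Pool.Agent.P.MP_9344a7_nt.R
open Pool.Agent.P.MP_9344a7_nt.Hy hiding pt ev
open Pool.Agent.P.MP_9344a7_nt.Gt (pt lS Pr Can Bd Ch G12 Cv Kb)
open scoped Classical IntermediateField

theorem p_TWB :
    S_TWB := by
  intro F Ω ι _ _ _ _ _ π Δ h1 h2
  let sg : Kb F →+* Kb F := FiniteField.frobeniusAlgHom F (Kb F)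
  have hs : ∀ c, sg c = c ^ Fintype.card F := fun c => rfl
  let θ : (ι → Kb F) →ₛₗ[sg] (ι → Kb F) :=
    { toFun v j := sg (v (π.symm j))
      map_add' a b := funext fun j => map_add sg _ _
      map_smul' c a := funext fun j => map_mul sg _ _ }
  obtain ⟨b, hb⟩ := Gt.des_basis (span_fixed Fintype.one_lt_card hs θ fun a b e =>
    funext fun j => sg.injective (by simpa [θ] using congrFun e (π j)))
  let _ : Algebra F Ω := ((algebraMap (Kb F) Ω).comp (algebraMap F (Kb F))).toAlgebra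
  have e : ∀ (y : Fin (finrank (Kb F) (ι → Kb F)) → Kb F) (δ : ι → Ω),
      ∑ i, algebraMap (Kb F) Ω ((∑ j, y j • b j) i) * δ i =
        ∑ j, algebraMap (Kb F) Ω (y j) * ∑ i, algebraMap (Kb F) Ω (b j i) * δ i := fun y δ => by
    simp only [Finset.sum_apply, Pi.smul_apply, smul_eq_mul, map_sum, map_mul, sum_mul, mul_sum,
      mul_assoc]
    exact sum_comm
  obtain ⟨y, hy⟩ := Gt.a_AVF F Ω _ (Δ.image fun δ j => ∑ i, algebraMap (Kb F) Ω (b j i) * δ i)
    (card_image_le.trans_lt h1) (forall_mem_image.2 fun δ hδ h => h2 δ hδ (funext fun i => by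
      have := e (b.repr (Pi.single i 1)) δ
      rw [b.sum_repr] at this
      simpa [Pi.single_apply, congrFun h] using this))
  refine ⟨∑ j, algebraMap F (Kb F) (y j) • b j, fun i => ?_, fun δ hδ => ?_⟩
  · rw [← hs]
    simp only [Finset.sum_apply, Pi.smul_apply, smul_eq_mul, map_sum, map_mul]
    refine sum_congr rfl fun j _ => ?_
    rw [hs (algebraMap F _ _), ← map_pow, FiniteField.pow_card, ← congrFun (hb j) (π i)]
    simp [θ]
  · rw [e]
    exact hy _ (mem_image_of_mem _ hδ)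

end

section

open Finset Module WithZero
open Pool.Agent.P.MP_6f117a_ag (Place FF)
open Pool.Agent.P.MP_ab3ecb_nt.Inv (Dv deg SA LS ev ord dv)
open Pool.Agent.P.MP_9344a7_nt.R
open Pool.Agent.P.MP_9344a7_nt.Hy hiding pt ev
open Pool.Agent.P.MP_9344a7_nt.Gt (pt lS Pr Can Bd Ch G12 Cv Kb)
open scoped Classical IntermediateField

theorem p_PEL (hSEP : S_SEP) :
    S_PEL := by
  intro k M κ _ _ _ _ _ a z D ha hD hc hz
  have := FF.fin a ha
  have := (hSEP.1 k M a D ha hD hc).1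
  let A := AlgebraicClosure M
  have cm : ∀ (u : M →ₐ[k⟮a⟯] A) (c : k), u (algebraMap k M c) = algebraMap k A c := fun u c =>
    (u.restrictScalars k).commutes c
  refine ⟨(univ : Finset (M →ₐ[k⟮a⟯] A)).offDiag.image fun p j => p.1 (z j) - p.2 (z j),
    card_image_le.trans ?_, fun δ hδ e => ?_, fun c h => ?_⟩
  · rw [offDiag_card, card_univ, AlgHom.card]
    exact (Nat.sub_le _ _).trans (Nat.mul_le_mul hD hD)
  · obtain ⟨p, hp, rfl⟩ := mem_image.1 hδ
    refine (mem_offDiag.1 hp).2.2 (AlgHom.ext fun x => ?_)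
    have hx : x ∈ IntermediateField.adjoin k (Set.range z) := hz ▸ IntermediateField.mem_top
    induction hx using IntermediateField.adjoin_induction with
    | mem x hx =>
      obtain ⟨j, rfl⟩ := hx
      exact sub_eq_zero.1 (congrFun e j)
    | algebraMap c => rw [cm, cm]
    | add x y _ _ h h' => rw [map_add, map_add, h, h']
    | inv x _ h => rw [map_inv₀, map_inv₀, h]
    | mul x y _ _ h h' => rw [map_mul, map_mul, h, h']
  · have ev : ∀ u : M →ₐ[k⟮a⟯] A, u (∑ j, c j • z j) = ∑ j, algebraMap k A (c j) * u (z j) :=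
      fun u => by simp only [map_sum, Algebra.smul_def, map_mul, cm]
    have key : k⟮a⟯⟮∑ j, c j • z j⟯ = ⊤ :=
      (Field.primitive_element_iff_algHom_eq_of_eval' k⟮a⟯ A (fun _ => IsAlgClosed.splits _) _).2
        fun u u' e => by_contra fun n => h _ (mem_image_of_mem _ (a := (u, u'))
          (mem_offDiag.2 ⟨mem_univ _, mem_univ _, n⟩)) (by
            simp only [mul_sub, sum_sub_distrib]
            exact sub_eq_zero.2 ((ev u).symm.trans (e.trans (ev u'))))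
    rw [← IntermediateField.adjoin_simple_adjoin_simple, key, IntermediateField.restrictScalars_top]

end

section

open Finset Module WithZero
open Pool.Agent.P.MP_6f117a_ag (Place FF)
open Pool.Agent.P.MP_ab3ecb_nt.Inv (Dv deg SA LS ev ord dv)
open Pool.Agent.P.MP_9344a7_nt.R
open Pool.Agent.P.MP_9344a7_nt.Hy hiding pt ev
open Pool.Agent.P.MP_9344a7_nt.Gt (pt lS Pr Can Bd Ch G12 Cv Kb)
open scoped Classical IntermediateField

open Polynomial
open scoped Polynomial.Bivariate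

lemma cpm0_mdl (n : ℕ) : ∃ d : ℕ, ∀ (F M : Type) [Field F] [Fintype F] [Field M]
    [Algebra (Kb F) M] [FF (Kb F) M] (θ : SA (Kb F) M) (a b : M),
    (∀ c, θ.s0 c = c ^ Fintype.card F) → θ.s a = a → θ.s b = b → Transcendental (Kb F) a →
    Bd (Kb F) n a → Bd (Kb F) n b → (Kb F)⟮a, b⟯ = ⊤ →
    (∀ P : Place (Kb F) M, P.v a ≤ 1 → P.v b ≤ 1) → ∃ Ψ : F[X][Y], Ψ.Monic ∧
      Ψ.natDegree = finrank (Kb F)⟮a⟯ M ∧ Ψ.natDegree ≤ d ∧ (∀ i, (Ψ.coeff i).natDegree ≤ d) ∧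
      Irreducible (Ψ.map (mapRingHom (algebraMap F (Kb F)))) ∧
      aevalAeval a b (Ψ.map (mapRingHom (algebraMap F (Kb F)))) = 0 := by
  obtain ⟨d, hd⟩ := Gt.a_REL n
  refine ⟨d, fun F M _ _ _ _ _ θ a b s0 a0 b0 ht a1 b1 t r => ?_⟩
  obtain ⟨Ψ0, p1, -, p2, p3, -, p4⟩ := hd _ _ a b ht a1 b1
  obtain ⟨Ψ, q1, q2, q3, q4⟩ :=
    Gt.mdl_min ht ((MP_ab3ecb_nt.Inv.PL.reg_iff_integral ht b).1 r) t
  obtain ⟨u, rfl⟩ := p4 Ψ q4
  have u0 := (q2.isUnit_or_isUnit rfl).resolve_left p1.not_isUnit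
  have h1 := Gt.mdl_sa θ a b (Ψ0 * u)
  rw [a0, b0, q4, map_zero] at h1
  have h2 := eq_of_monic_of_dvd_of_natDegree_le q1 (q1.map _) (u0.mul_right_dvd.2 (p4 _ h1))
    natDegree_map_le
  obtain ⟨Φ, e⟩ : ∃ Φ : F[X][Y], Φ.map (mapRingHom (algebraMap F (Kb F))) = Ψ0 * u := by
    refine (mem_lifts _).1 ((lifts_iff_coeff_lifts _).2 fun i =>
      (mem_lifts _).1 ((lifts_iff_coeff_lifts _).2 fun j => Gt.mem_range_iff.1 ?_))
    have h3 := congrArg (fun G : (Kb F)[X][Y] => (G.coeff i).coeff j) h2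
    simp only [coeff_map, coe_mapRingHom, RingHom.coe_coe] at h3
    rwa [s0] at h3
  obtain ⟨v, v1, rfl⟩ := Polynomial.isUnit_iff.1 u0
  have j := (algebraMap F (Kb F)).injective
  have j' : Function.Injective (mapRingHom (algebraMap F (Kb F))) := map_injective _ j
  have n1 := natDegree_map_eq_of_injective j' Φ
  rw [e] at n1
  refine ⟨Φ, monic_of_injective j' (e ▸ q1), n1 ▸ q3, n1 ▸ (natDegree_mul_C_le _ _).trans p2,
    fun i => ?_, e ▸ q2, e ▸ q4⟩
  have c := congrArg (fun G : (Kb F)[X][Y] => (G.coeff i).natDegree) e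
  simp only [coeff_map, coe_mapRingHom, coeff_mul_C, natDegree_map_eq_of_injective j] at c
  have c1 := natDegree_mul_le (p := Ψ0.coeff i) (q := v)
  have c2 := natDegree_eq_zero_of_isUnit v1
  have c3 := p3 i
  omega

open Pool.Agent.P.MP_ab3ecb_nt.Inv (ev_eq ev_zero le_one_of_sub ev_eq_zero_iff) in
theorem p_PM0 :
    S_PM0 := by
  intro n N
  obtain ⟨d, h1⟩ := cpm0_mdl n
  obtain ⟨p2, h2⟩ := Lwm.lw_M d (N + 1)
  refine ⟨p2 + (N + 1) * ((N + 2) * (2 * (2 * d * n) * d)),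
    fun F M _ _ _ _ _ θ a b hp s0 ha hb ht ba bb top hab => ?_⟩
  obtain ⟨Ψ, hmo, hd, hn, hc, hi, h0⟩ := h1 F M θ a b s0 ha hb ht ba bb top hab
  have h3 := h2 F Ψ (by omega) hmo hn hc hi
  set φ := algebraMap F (Kb F)
  have fix : ∀ a : F, φ a ^ Fintype.card F ^ 1 = φ a := fun a => by
    rw [← map_pow, pow_one, FiniteField.pow_card]
  set S := {z : F × F | Ψ.evalEval z.1 z.2 = 0 ∧ (derivative Ψ).evalEval z.1 z.2 ≠ 0} with hS
  set Φ := Ψ.map (mapRingHom φ) with hΦ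
  have hz : ∀ z ∈ S, Φ.evalEval (φ z.1) (φ z.2) = 0 := fun z hz =>
    (map_mapRingHom_evalEval φ _ _ _).trans (by rw [hz.1, map_zero])
  have hm' : Φ.Monic := hmo.map _
  have hd' : Φ.natDegree = Ψ.natDegree := hmo.natDegree_map _
  have hc' : ∀ i, (Φ.coeff i).natDegree ≤ d := fun i => by
    rw [hΦ, coeff_map]
    exact natDegree_map_le.trans (hc i)
  have hk := Gt.npt_ker ht hm' hi h0
  obtain ⟨b1, b2⟩ := Gt.a_BDP _ _ n d a b (derivative Φ) ba bb
    ((natDegree_derivative_le Φ).trans (by omega)) fun i => by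
      rw [coeff_derivative, ← Nat.cast_succ, mul_comm, ← nsmul_eq_mul]
      exact (natDegree_smul_le _ _).trans (hc' _)
  have b3 := (Gt.a_BDP _ _ n d a b Φ ba bb (hd'.trans_le hn) hc').2
  have hq := Gt.char_le (F := F)
  rw [Nat.card_eq_fintype_card] at h3
  obtain ⟨z0, c0⟩ : S.Nonempty := Set.nonempty_of_ncard_ne_zero fun e => by
    rw [e, mul_zero, Nat.le_zero, mul_eq_zero] at h3
    omega
  have hne : aevalAeval a b (derivative Φ) ≠ 0 := fun e => by
    have c3 := eq_zero_of_dvd_of_degree_lt (hk _ e) (degree_derivative_lt hm'.ne_zero)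
    refine c0.2 (φ.injective ?_)
    rw [← map_mapRingHom_evalEval, ← derivative_map, ← hΦ, c3, evalEval_zero, map_zero]
  obtain ⟨X, x1, x2⟩ := b1.unit hne
  have ex := fun z (hz' : z ∈ S) => Gt.npt_ctr ht hk _ _ (hz z hz')
  have := (ex z0 c0).nonempty
  choose! P p1 p2 using ex
  set T := {z : F × F | φ z.1 ∈ X.image fun P => ev P a} with hT
  have t2 : (S ∩ T).ncard ≤ 2 * (2 * d * n) * d := by
    refine (Set.ncard_le_ncard_of_injOn (t := ↑(X.biUnion fun P =>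
      (Φ.map (evalRingHom (ev P a))).roots.toFinset.image fun c => (ev P a, c)))
      (fun z => (φ z.1, φ z.2)) (fun z hz' => ?_) (fun z _ y _ e => Prod.ext
        (φ.injective (congrArg Prod.fst e)) (φ.injective (congrArg Prod.snd e)))
      (Finset.finite_toSet _)).trans ?_
    · obtain ⟨Q, q1, q2⟩ := mem_image.1 hz'.2
      refine mem_biUnion.2 ⟨Q, q1, mem_image.2 ⟨φ z.2, Multiset.mem_toFinset.2 ?_, by rw [q2]⟩⟩
      rw [mem_roots (hm'.map _).ne_zero, IsRoot.def, map_evalRingHom_eval, q2, hz z hz'.1]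
    · rw [Set.ncard_coe_finset]
      refine (card_biUnion_le_card_mul _ _ d fun Q _ => card_image_le.trans
        ((Multiset.toFinset_card_le _).trans ((card_roots' _).trans
          (natDegree_map_le.trans (hd'.trans_le hn))))).trans (Nat.mul_le_mul_right _ x1)
  refine ⟨(S \ T).toFinset.image P, ?_, ?_, ?_⟩
  · rw [card_image_of_injOn fun z hz' y hy e => Prod.ext (φ.injective ?_) (φ.injective ?_),
      ← Set.ncard_eq_toFinset_card']
    · refine Nh.plo_num h3 (?_ : _ ≤ _ + 2 * (2 * d * n) * d) (by omega)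
      rw [← Set.ncard_inter_add_ncard_sdiff_eq_ncard S T]
      omega
    all_goals rw [Set.coe_toFinset] at hz' hy
    · exact (ev_eq (p1 z hz'.1)).symm.trans (e ▸ ev_eq (p1 y hy.1))
    · exact (ev_eq (p2 z hz'.1)).symm.trans (e ▸ ev_eq (p2 y hy.1))
  · simp only [forall_mem_image, Set.mem_toFinset]
    refine fun z hz' => ⟨?_, le_one_of_sub (p1 z hz'.1), le_one_of_sub (p2 z hz'.1)⟩
    have i1 := fix z.1 ▸ Nh.plo_it s0 ha (p1 z hz'.1) 1
    have i2 := fix z.2 ▸ Nh.plo_it s0 hb (p2 z hz'.1) 1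
    refine Gt.npt_uni ht hm' hk (hd'.trans hd) (φ z.1) (fun Q hQ => ?_) i1 (p1 z hz'.1)
      ((ev_eq i2).trans (ev_eq (p2 z hz'.1)).symm)
    have q1 := le_one_of_sub hQ
    have q2 := ev_eq hQ
    have q3 := (b3 Q q1 (hab Q q1)).2
    have q4 := b2 Q q1 (hab Q q1)
    rw [h0, ev_zero, q2] at q3
    rw [q2] at q4
    exact ⟨q3.symm, fun e => ((ev_eq_zero_iff q4.1).1 (q4.2.trans e)).ne
      (x2 Q fun h => hz'.2 (mem_image.2 ⟨Q, h, q2⟩))⟩
  · simp only [forall_mem_image, Set.mem_toFinset]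
    intro z hz' y hy e1 e2
    rw [ev_eq (p1 z hz'.1), ev_eq (p1 y hy.1)] at e1
    rw [ev_eq (p2 z hz'.1), ev_eq (p2 y hy.1)] at e2
    rw [Prod.ext (φ.injective e1) (φ.injective e2)]

end

end Pool.Agent.P.MP_9344a7_nt.Ac
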