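import Pool.Agent.P.MP_9344a7_nt.Ac.IfaceC
import Pool.Agent.P.MP_9344a7_nt.Ac.Iface

/-! Steps CH3, MX1, MX, GOOD, MAR1, MAR, CH1, CH0A. -/

set_option linter.unusedVariables false
set_option linter.unusedSectionVars false

namespace Pool.Agent.P.MP_9344a7_nt.Ac

section

open Finset Module WithZero
open Pool.Agent.P.MP_6f117a_ag (Place FF)
open Pool.Agent.P.MP_ab3ecb_nt.Inv (Dv deg SA LS ev ord dv)
open Pool.Agent.P.MP_9344a7_nt.R
open Pool.Agent.P.MP_9344a7_nt.Hy hiding pt ev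
open Pool.Agent.P.MP_9344a7_nt.Gt (pt lS Pr Can Bd Ch G12 Cv Kb)
open scoped Classical IntermediateField

lemma cch3_card {k E : Type} [Field k] [Field E] [Algebra k E] [IsAlgClosed k] [FF k E] {n : ℕ}
    {W R : Dv k E} {P P' : Place k E} (hW : Can (n + 1) W) (hR : deg R = (n - 1 : ℕ)) (hn : 0 < n)
    (h : Gr n W R P') (Y : Finset (Fin n → Place k E))
    (hY : ∀ T ∈ Y, Function.Injective T ∧ Pr (pt P + ∑ i, pt (T i) + R - W)) :
    #Y ≤ n.factorial := by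
  rcases Y.eq_empty_or_nonempty with rfl | ⟨T0, h0⟩
  · simp
  obtain ⟨-, p0⟩ := hY T0 h0
  have l : lS (∑ i, pt (T0 i)) = 1 := by
    have a := hW (R + pt P)
    have b : Pr (∑ i, pt (T0 i) - (W - (R + pt P))) := by convert p0 using 1; abel
    rw [h.bpf P, map_add, hR, MP_ab3ecb_nt.Inv.deg_single, ← b.lS_eq] at a
    omega
  have key : ∀ T ∈ Y, ∃ τ : Equiv.Perm (Fin n), T0 ∘ τ = T := fun T hT => by
    obtain ⟨i1, p1⟩ := hY T hT
    have e : ∑ i, pt (T i) = ∑ i, pt (T0 i) := eff_unique l (Gt.sum_pt_nonneg _ _)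
      (Gt.sum_pt_nonneg _ _) (by convert p1.sub p0 using 1; abel)
    have : ∀ i, ∃ j, T0 j = T i := fun i => by_contra fun c => by
      have := (Gt.sum_pt_eq_zero (U := T0) (P := T i)).2 (not_exists.1 c)
      rw [← e, Gt.sum_pt_self i1] at this
      exact one_ne_zero this
    choose τ hτ using this
    exact ⟨.ofBijective τ (Finite.injective_iff_bijective.1 fun a b e => i1 (by
      rw [← hτ, e, hτ])), funext hτ⟩
  exact (card_le_card (t := univ.image fun τ : Equiv.Perm (Fin n) => T0 ∘ τ) fun T hT => by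
    simpa using key T hT).trans (card_image_le.trans (by simp [Fintype.card_perm]))

lemma cch3_eq {k E ι : Type} [Field k] [Field E] [Algebra k E] {σ : SA k E} {α β : Equiv.Perm ι}
    {T T' : ι → Place k E} (h : Ob σ α T) (h' : Ob σ β T') (e : T = T') : α = β :=
  Equiv.ext fun i => h.inj (by rw [← h.fr, e, h'.fr])

theorem p_CH3 (hCH2 : S_CH2) (hPNR : S_PNR) :
    S_CH3 := by
  intro n N hn
  obtain ⟨p0, h⟩ := hCH2 (n + 1) n N (by omega) hn
  refine ⟨p0, fun F _ _ C R P1 hp fb hR g => ?_⟩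
  rw [fb.ef] at hR
  obtain ⟨f, f0, f1, f2, -, f4⟩ := hPNR F n C R P1 (by omega) hR g
  obtain ⟨P0, h⟩ := h F C f hp f0 f1 f2
  refine ⟨P0, fun R' hR' g' Z => ?_⟩
  rw [fb.ef] at hR'
  obtain ⟨f', f0', f1', f2', f3', f4'⟩ := hPNR F n C R' P0 (by omega) hR' g'
  choose X a b using h f' f0' f1' f2' f3'
  have a1 : N * Fintype.card F * #Z ≤ (N + 1) * #(Z.sigma fun z => X z.1 z.2) := by
    rw [card_sigma, mul_sum, mul_comm, ← smul_eq_mul]
    exact card_nsmul_le_sum _ _ _ fun z _ => a z.1 z.2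
  have k := fun y (hy : y ∈ Z.sigma fun z => X z.1 z.2) =>
    have d := b _ _ _ (mem_sigma.1 hy).2
    And.intro (mem_sigma.1 hy).1 (And.intro d.1 (And.intro (f4 _ _ d.2.1) (f4' _ _ d.2.2)))
  generalize (Z.sigma fun z => X z.1 z.2) = Y at a1 k
  rw [mul_assoc (N + 1)]
  refine a1.trans (Nat.mul_le_mul_left _ (card_le_mul_card_image_of_maps_to
    (f := fun y => y.2.1 none) (fun y hy => ?_) _ fun P _ => ?_))
  · obtain ⟨c, e, ⟨r, o, p⟩, -, o', p'⟩ := k y hy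
    exact mem_filter.2 ⟨(fb.fx 1 one_ne_zero _).2 r, y.1, c, ⟨_, o, p⟩, _, o', e ▸ p'⟩
  generalize hS : ({y ∈ Y | y.2.1 none = P} : Finset _) = S
  have m : ∀ y ∈ S, y ∈ Y ∧ y.2.1 none = P := fun y hy => mem_filter.1 (hS ▸ hy)
  refine (card_le_card_of_injOn (t := (S.image fun y i => y.2.1 (some i)) ×ˢ
    S.image fun y i => y.2.2 (some i)) (fun y => (fun i => y.2.1 (some i), fun i => y.2.2 (some i)))
    (fun y hy => mem_product.2 ⟨mem_image_of_mem _ hy, mem_image_of_mem _ hy⟩)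
    fun y hy y' hy' e => ?_).trans ?_
  · obtain ⟨-, e1, ⟨-, o1, -⟩, -, o2, -⟩ := k y (m y hy).1
    obtain ⟨-, e2, ⟨-, o3, -⟩, -, o4, -⟩ := k y' (m y' hy').1
    obtain ⟨e3, e4⟩ := Prod.mk.inj e
    have e5 := (m y hy).2.trans (m y' hy').2.symm
    exact Sigma.ext (Prod.ext (cch3_eq o1 o3 e3) (cch3_eq o2 o4 e4)) (heq_of_eq (Prod.ext
      (funext fun i => i.rec e5 (congrFun e3)) (funext fun i =>
        i.rec (e1.trans (e5.trans e2.symm)) (congrFun e4))))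
  rw [card_product, sq]
  refine Nat.mul_le_mul (cch3_card (P := P) C.can hR.2.2 (by omega) g _ fun T hT => ?_)
    (cch3_card (P := P) C.can hR'.2.2 (by omega) g' _ fun T hT => ?_) <;>
    obtain ⟨y, hy, rfl⟩ := mem_image.1 hT <;>
    obtain ⟨-, e, ⟨-, o, p⟩, -, o', p'⟩ := k y (m y hy).1
  · exact ⟨o.inj, (m y hy).2 ▸ p⟩
  · exact ⟨o'.inj, (m y hy).2 ▸ e ▸ p'⟩

end

section

open Finset Module WithZero
open Pool.Agent.P.MP_6f117a_ag (Place FF)
open Pool.Agent.P.MP_ab3ecb_nt.Inv (Dv deg SA LS ev ord dv)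
open Pool.Agent.P.MP_9344a7_nt.R
open Pool.Agent.P.MP_9344a7_nt.Hy hiding pt ev
open Pool.Agent.P.MP_9344a7_nt.Gt (pt lS Pr Can Bd Ch G12 Cv Kb)
open scoped Classical IntermediateField

section

variable {F : Type} [Field F] [Fintype F] {n : ℕ} {C : Cv F (n + 1)} {e : Pic (Kb F) C.E}
  {Λ : LD (Fintype.card F) n (J C.σ)} [Fintype (J C.σ)]

lemma cmx1_key {p : J C.σ → Prop} {X : Finset (Equiv.Perm (Fin n))} (hn : 2 ≤ n) (h : Cx C e Λ)
    (dc : Dc e Λ n p X) {r s : J C.σ} {R : Dv (Kb F) C.E} {P P1 : C.Pl} (hR : R ∈ ef C.σ (n - 1))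
    (hr : (R : Pic (Kb F) C.E) = r.1 + (n - 1) • e) (gr : Gr n C.W R P1) (hs : s.1 = cls P - e)
    {α : Equiv.Perm (Fin n)} (tr : Tr C.σ C.W R P α) : p (Λ.ω - s - r) ↔ α ∈ X := by
  obtain ⟨T, ob, pr⟩ := tr
  obtain ⟨m, rfl⟩ : ∃ m, n = m + 1 := ⟨n - 1, by omega⟩
  have h1 : ((∑ i, pt (T i) : Dv (Kb F) C.E) : Pic (Kb F) C.E) = (C.W - (R + pt P) :) :=
    mk_eq.2 (by convert pr using 1; abel)
  have h2 : (Λ.ω - s - r).1 + (m + 1) • e = (C.W - (R + pt P) :) := by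
    rw [AddSubgroup.coe_sub, AddSubgroup.coe_sub, h.il.ω, hs, QuotientAddGroup.mk_sub,
      QuotientAddGroup.mk_add, hr, Nat.add_sub_cancel, mul_nsmul', two_nsmul, succ_nsmul]
    change _ = _ - (_ + cls P)
    abel
  refine dc α T _ ob (h2.trans h1.symm)
    (((Od.a_PW _ _ _ e _ _ _ Λ h.gb h.fb h.il).2.2 _ _).2.1.2 ?_)
  have h3 := C.can (R + pt P)
  rw [gr.bpf, map_add, ((h.fb.ef _ _).1 hR).2.2, MP_ab3ecb_nt.Inv.deg_single, lS] at h3
  rw [h2, ll_mk]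
  omega

lemma cmx1_cnt (h : Cx C e Λ) (a : C.Pl → Prop) (b : J C.σ → Prop) [DecidablePred a]
    [DecidablePred b]
    (hab : ∀ P s, s.1 = cls P - e → a P → b s) : #{P ∈ fx C.σ 1 | a P} ≤ #{s ∈ Λ.S | b s} := by
  refine card_le_card_of_forall_subsingleton (fun P s => s.1 = cls P - e) (fun P hP => ?_)
    fun s _ P hP P' hP' => h.gb.inj _ _ (sub_left_inj.1 (hP.2.symm.trans (hP'.2 : s.1 = _)))
  obtain ⟨h1, h2⟩ := mem_filter.1 hP
  have h3 : C.σ.pl P = P := (h.fb.fx 1 one_ne_zero P).1 h1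
  have h4 := sub_mem_J h.il.e1 h.il.e2 ((ph_cls _ P).trans (congrArg cls h3))
  rw [dg_cls, one_smul] at h4
  exact ⟨⟨_, h4⟩, mem_filter.2 ⟨h.il.S ▸ (h.fb.SS _ _).2 ⟨P, h3, rfl⟩, hab P _ rfl h2⟩, rfl⟩

end

theorem p_MX1 (hCH3 : S_CH3) :
    S_MX1 := by
  intro n N hn
  obtain ⟨p0, H⟩ := hCH3 n N hn
  refine ⟨p0, fun F _ _ C e Λ _ p X r R P1 hp h dc hR hr gr => ?_⟩
  obtain ⟨P0, H⟩ := H F C R P1 hp h.fb hR gr
  refine ⟨P0, fun r' R' hR' hr' gr' => ?_⟩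
  have K := fun (Z : Finset _) (b : J C.σ → Prop) [DecidablePred b] hab =>
    (H R' hR' gr' Z).trans (Nat.mul_le_mul_left _ (cmx1_cnt h _ b hab))
  have c : #(univ : Finset (Equiv.Perm (Fin n))) = n.factorial := by
    rw [card_univ, Fintype.card_perm, Fintype.card_fin]
  refine ⟨?_, ?_, ?_⟩
  · have := K (X ×ˢ univ) (fun s => p (Λ.ω - s - r)) fun P s hs ⟨z, z1, z2, _⟩ =>
      (cmx1_key hn h dc hR hr gr hs z2).2 (mem_product.1 z1).1
    rwa [card_product, c] at this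
  · have := K (univ ×ˢ X) (fun s => p (Λ.ω - s - r')) fun P s hs ⟨z, z1, _, z2⟩ =>
      (cmx1_key hn h dc hR' hr' gr' hs z2).2 (mem_product.1 z1).2
    rwa [card_product, c, mul_comm _ #X] at this
  · have := K (X ×ˢ X)ᶜ (fun s => ¬ (p (Λ.ω - s - r) ∧ p (Λ.ω - s - r')))
      fun P s hs ⟨z, z1, z2, z3⟩ a => mem_compl.1 z1 (mem_product.2
        ⟨(cmx1_key hn h dc hR hr gr hs z2).1 a.1, (cmx1_key hn h dc hR' hr' gr' hs z3).1 a.2⟩)
    rwa [card_compl, card_product, Fintype.card_prod, show Fintype.card _ = _ from c, ← sq, ← sq]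
      at this

end

section

open Finset Module WithZero
open Pool.Agent.P.MP_6f117a_ag (Place FF)
open Pool.Agent.P.MP_ab3ecb_nt.Inv (Dv deg SA LS ev ord dv)
open Pool.Agent.P.MP_9344a7_nt.R
open Pool.Agent.P.MP_9344a7_nt.Hy hiding pt ev
open Pool.Agent.P.MP_9344a7_nt.Gt (pt lS Pr Can Bd Ch G12 Cv Kb)
open scoped Classical IntermediateField

lemma cmx_pairs {β γ : Type} (V0 : Finset β) (g : β → γ → Prop) (P1 : γ) (P0 : β → γ) (N c Q : ℕ)
    (hc : 0 < c) (hV : #V0 ≤ c * Q) (h : ∀ P, 2 * N * c * #{r ∈ V0 | ¬ g r P} ≤ Q) :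
    N * #{p ∈ V0 ×ˢ V0 | ¬ (g p.1 P1 ∧ g p.2 (P0 p.1))} ≤ Q ^ 2 := by
  have h1 : #{p ∈ V0 ×ˢ V0 | ¬ (g p.1 P1 ∧ g p.2 (P0 p.1))} ≤
      ∑ _r ∈ V0, #{r ∈ V0 | ¬ g r P1} + ∑ r ∈ V0, #{r' ∈ V0 | ¬ g r' (P0 r)} := by
    simp only [card_filter, sum_product]
    rw [sum_comm (f := fun _ r => if ¬ g r P1 then 1 else 0), ← sum_add_distrib]
    refine sum_le_sum fun r _ => ?_
    rw [← sum_add_distrib]
    refine sum_le_sum fun r' _ => ?_
    by_cases a : g r P1 <;> by_cases b : g r' (P0 r) <;> simp [a, b]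
  have h2 : ∀ P : β → γ, 2 * N * c * ∑ r ∈ V0, #{r' ∈ V0 | ¬ g r' (P r)} ≤ c * Q * Q := by
    intro P
    rw [mul_sum]
    refine (sum_le_card_nsmul _ _ _ fun r _ => h (P r)).trans ?_
    rw [smul_eq_mul]
    gcongr
  have h3 := h2 fun _ => P1
  have h4 := h2 P0
  refine Nat.le_of_mul_le_mul_left (c := 2 * c) ?_ (by omega)
  have h5 := Nat.mul_le_mul_left (2 * N * c) h1
  rw [mul_add] at h5
  calc 2 * c * (N * _) = 2 * N * c * _ := by ring
    _ ≤ c * Q * Q + c * Q * Q := h5.trans (add_le_add h3 h4)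
    _ = _ := by ring

theorem p_MX (hGEN : S_GEN) (hMIXA : S_MIXA) (hMX1 : S_MX1) :
    S_MX := by
  intro n M hn
  obtain ⟨N, hN⟩ := hMIXA n.factorial (2 ^ (2 * n + 1)) M
  obtain ⟨p1, h1⟩ := hGEN n (2 * N * 2 ^ (2 * n + 1)) hn
  obtain ⟨p2, h2⟩ := hMX1 n N hn
  obtain ⟨p3, h3⟩ := Nh.a_PHI (n + 1) N (by omega)
  refine ⟨p1 + p2 + p3, fun F _ _ C e Λ _ p X hp hC hD U hU V hV => ?_⟩
  set V0 : Finset (J C.σ) := {r | (Λ.W (n - 1)).coeff r = 1} with hV0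
  have hR : ∀ r ∈ V0, ∃ R ∈ ef C.σ (n - 1), (R : Pic (Kb F) C.E) = r.1 + (n - 1) • e := by
    intro r hr
    have a := (mem_filter.1 hr).2
    rw [hC.il.W] at a
    obtain ⟨R, b⟩ := card_pos.1 (show 0 < #((ef C.σ (n - 1)).filter
      fun A : Dv (Kb F) C.E => (A : Pic (Kb F) C.E) = r.1 + (n - 1) • e) by omega)
    exact ⟨R, mem_filter.1 b⟩
  choose! R hR1 hR2 using hR
  have hq : 1 < Fintype.card F := Fintype.one_lt_card
  obtain ⟨s, hs⟩ : Λ.S.Nonempty := card_pos.1 (by have := Λ.lo; omega)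
  rw [hC.il.S, hC.fb.SS] at hs
  obtain ⟨P1, -⟩ := hs
  have hP := fun r (hr : r ∈ V0) (g : Gr n C.W (R r) P1) =>
    h2 F C e Λ p X r (R r) P1 (by omega) hC hD (hR1 r hr) (hR2 r hr) g
  have : Nonempty C.Pl := ⟨P1⟩
  choose! P0 hP0 using hP
  have hc : #V0 ≤ 2 ^ (2 * n + 1) * Fintype.card F ^ (n - 1) := by
    have a := (Od.a_G01 _ _ _ e n _ _ Λ hC.gb hC.fb hC.il).1 (n - 1) (by omega)
    have b : (#V0 : ℤ) ≤ ∑ a, (Λ.W (n - 1)).coeff a ^ 2 := by
      rw [card_eq_sum_ones, Nat.cast_sum]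
      refine le_trans (le_of_eq (sum_congr rfl fun r hr => ?_))
        (sum_le_sum_of_subset_of_nonneg (subset_univ V0) fun _ _ _ => sq_nonneg _)
      rw [(mem_filter.1 hr).2]
      simp
    exact_mod_cast b.trans a
  have hS : N * #Λ.S ≤ (N + 1) * Fintype.card F := by
    have := h3 F C.E _ e C.σ (by omega) hC.gb hC.fb hC.il.e1 hC.il.e2 1 one_ne_zero
    rwa [pow_one, ← hC.il.card] at this
  have hB : ∀ P, 2 * N * 2 ^ (2 * n + 1) * #{r ∈ V0 | ¬ Gr n C.W (R r) P} ≤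
      Fintype.card F ^ (n - 1) := by
    intro P
    refine le_trans (Nat.mul_le_mul_left _ ?_) (h1 F C P (by omega) hC.fb hC.pos hC.nh)
    refine card_le_card_of_injOn R (fun r hr => ?_) fun r hr r' hr' h => ?_
    · have a := mem_filter.1 (mem_coe.1 hr)
      exact mem_coe.2 (mem_filter.2 ⟨hR1 r a.1, a.2⟩)
    · have a := hR2 r (mem_filter.1 (mem_coe.1 hr)).1
      rw [h, hR2 r' (mem_filter.1 (mem_coe.1 hr')).1] at a
      exact Subtype.ext (add_right_cancel a).symm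
  have hX : #X ≤ n.factorial := by
    simpa [Fintype.card_perm] using card_le_univ X
  have := hN _ _ Λ.S V0 (fun s r => p (Λ.ω - s - r))
    (fun r r' => Gr n C.W (R r) P1 ∧ Gr n C.W (R r') (P0 r)) #X _ _ hX hS hc
    (by convert cmx_pairs V0 (fun r P => Gr n C.W (R r) P) P1 P0 N _ _ (by positivity) hc
          (by convert hB))
    (fun r hr r' hr' g => by convert hP0 r hr g.1 r' (R r') (hR1 r' hr') (hR2 r' hr') g.2)
    U hU V fun r hr => mem_filter.2 ⟨mem_univ _, hV r hr⟩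
  rwa [Nat.cast_pow, ← pow_succ', show n - 1 + 1 = n by omega] at this

end

section

open Finset Module WithZero
open Pool.Agent.P.MP_6f117a_ag (Place FF)
open Pool.Agent.P.MP_ab3ecb_nt.Inv (Dv deg SA LS ev ord dv)
open Pool.Agent.P.MP_9344a7_nt.R
open Pool.Agent.P.MP_9344a7_nt.Hy hiding pt ev
open Pool.Agent.P.MP_9344a7_nt.Gt (pt lS Pr Can Bd Ch G12 Cv Kb)
open scoped Classical IntermediateField

theorem p_GOOD (hGEN : S_GEN) :
    S_GOOD := by
  intro n M hn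
  obtain ⟨p0, h⟩ := hGEN n M hn
  refine ⟨p0, fun F _ _ C e Λ _ hp x => ?_⟩
  obtain ⟨s0, hs0⟩ : Λ.S.Nonempty := by
    have := Λ.lo
    have := Fintype.card_pos (α := F)
    exact card_pos.1 (by omega)
  obtain ⟨P1, -⟩ := (x.fb.SS e s0).1 (x.il.S ▸ hs0)
  have hB := h F C P1 hp x.fb x.pos x.nh
  obtain ⟨B, mB⟩ : ∃ B : Finset (J C.σ), ∀ r, r ∈ B ↔ ∃ R ∈ ef C.σ (n - 1),
      (R : Pic (Kb F) C.E) = r.1 + (n - 1) • e ∧ ¬ Gr n C.W R P1 :=
    ⟨univ.filter _, fun r => mem_filter.trans (and_iff_right (mem_univ _))⟩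
  refine ⟨B, le_trans (Nat.mul_le_mul_left _ ?_) hB, fun r hr h1 s hs => ?_⟩
  · refine card_le_card_of_forall_subsingleton
      (fun (r : J C.σ) (R : Dv (Kb F) C.E) => (R : Pic (Kb F) C.E) = r.1 + (n - 1) • e)
      (fun r hr => ?_) fun R _ r a r' a' => ?_
    · obtain ⟨R, a, b, c⟩ := (mB r).1 hr
      exact ⟨R, mem_filter.2 ⟨a, c⟩, b⟩
    · exact Subtype.ext (add_right_cancel (a.2.symm.trans a'.2))
  · rw [x.il.W] at h1
    obtain ⟨R, hR⟩ := card_pos.1 (Nat.pos_of_ne_zero fun e => by rw [e] at h1; simp at h1)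
    obtain ⟨a, b⟩ := mem_filter.1 hR
    have g : Gr n C.W R P1 := by_contra fun c => hr ((mB r).2 ⟨R, a, b, c⟩)
    obtain ⟨P, -, hP⟩ := (x.fb.SS e s).1 (x.il.S ▸ hs)
    refine ((Od.a_PW _ _ _ e n C.σ _ Λ x.gb x.fb x.il).2.2 n _).2.1.2 ?_
    have : (r + s).1 + n • e = ((R + pt P : Dv (Kb F) C.E) : Pic (Kb F) C.E) := by
      obtain ⟨m, rfl⟩ : ∃ m, n = m + 1 := ⟨n - 1, by omega⟩
      rw [QuotientAddGroup.mk_add, b, AddSubgroup.coe_add, hP, Nat.add_sub_cancel, succ_nsmul]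
      change _ = _ + cls P
      abel
    rw [this, ll_mk]
    exact g.bpf P

end

section

open Finset Module WithZero
open Pool.Agent.P.MP_6f117a_ag (Place FF)
open Pool.Agent.P.MP_ab3ecb_nt.Inv (Dv deg SA LS ev ord dv)
open Pool.Agent.P.MP_9344a7_nt.R
open Pool.Agent.P.MP_9344a7_nt.Hy hiding pt ev
open Pool.Agent.P.MP_9344a7_nt.Gt (pt lS Pr Can Bd Ch G12 Cv Kb)
open scoped Classical IntermediateField

lemma cmar1_dc {A : Type} [AddCommGroup A] (S U V : Finset A) {f : A → A}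
    (hf : Function.Injective f) {d d' : ℕ}
    (h1 : ∀ x ∈ U, ∃ T : Finset A, #T ≤ d ∧ ∀ s ∈ S, s ∉ T → x + f s ∈ V)
    (h2 : ∀ a ∈ V, ∃ T : Finset A, #T ≤ d' ∧ ∀ s ∈ S, a - f s ∈ U → s ∈ T) :
    #U * (#S - d) ≤ d' * #V := by
  rw [mul_comm d']
  refine card_mul_le_card_mul (fun x a => ∃ s ∈ S, x + f s = a) (fun x hx => ?_) fun a ha => ?_
  · obtain ⟨T, a, b⟩ := h1 x hx
    refine le_trans ((Nat.sub_le_sub_left a _).trans (le_card_sdiff T S))
      (card_le_card_of_injOn (fun s => x + f s) (fun s hs => ?_) fun s _ t _ e =>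
        hf (add_left_cancel e))
    have := mem_sdiff.1 hs
    exact mem_coe.2 ((mem_bipartiteAbove _).2 ⟨b s this.1 this.2, s, this.1, rfl⟩)
  · obtain ⟨T, c, b⟩ := h2 a ha
    refine le_trans (card_le_card (t := T.image fun s => a - f s) fun x hx => ?_)
      (card_image_le.trans c)
    obtain ⟨hU, s, hs, rfl⟩ := (mem_bipartiteBelow _).1 hx
    exact mem_image.2 ⟨s, b s hs (by rwa [add_sub_cancel_right]), add_sub_cancel_right _ _⟩

lemma cmar1_bp {k E : Type} [Field k] [Field E] [Algebra k E] [IsAlgClosed k] [FF k E]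
    {σ : SA k E} {e : Pic k E} {S : Finset (J σ)} (hS : ∀ s ∈ S, ∃ P, s.1 = cls P - e)
    (z : Pic k E) {d : ℕ} (hd : dg z = d) (h : ll z ≠ 0) :
    ∃ T : Finset (J σ), #T ≤ d ∧ ∀ s ∈ S, s ∉ T → ll (z - (s.1 + e)) + 1 = ll z := by
  obtain ⟨D, rfl⟩ := QuotientAddGroup.mk_surjective z
  obtain ⟨X, a, b⟩ := Gt.base_pts (D := D) (by rwa [ll_mk] at h)
  refine ⟨S.filter fun s => s.1 + e ∈ X.image cls, le_trans (card_le_card_of_injOn
    (fun s => s.1 + e) (fun s hs => (mem_filter.1 hs).2) fun s _ t _ e =>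
      Subtype.ext (add_right_cancel e)) (card_image_le.trans ?_), fun s hs hT => ?_⟩
  · rw [dg_mk] at hd
    omega
  · obtain ⟨P, hP⟩ := hS s hs
    have := b P fun hX => hT (mem_filter.2 ⟨hs, mem_image.2 ⟨P, hX, by simp [hP]⟩⟩)
    rw [hP, sub_add_cancel, ll_mk]
    exact (congrArg (· + 1) (ll_mk (D - pt P))).trans this

theorem p_MAR1 :
    S_MAR1 := by
  intro k E _ _ _ _ _ K e n σ Q Λ _ hn gb fb il
  obtain ⟨m, rfl⟩ : ∃ m, n = m + 1 := ⟨n - 1, by omega⟩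
  have hS : ∀ s ∈ Λ.S, ∃ P, s.1 = cls P - e := fun s hs =>
    let ⟨P, _, h⟩ := (fb.SS e s).1 (il.S ▸ hs); ⟨P, h⟩
  have hd : ∀ (a : J σ) (j : ℕ), dg (a.1 + j • e) = j := fun a j => by
    rw [map_add, map_nsmul, il.e2, (mem_J.1 a.2).2]
    simp
  have e1 : ∀ x s : J σ, (x + -s).1 + m • e = x.1 + (m + 1) • e - (s.1 + e) := fun x s => by
    push_cast
    rw [succ_nsmul]
    abel
  have dn : ∀ x : J σ, ll (x.1 + (m + 1) • e) ≠ 0 → ∃ T : Finset (J σ), #T ≤ m + 1 ∧ ∀ s ∈ Λ.S,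
      s ∉ T → ll ((x + -s).1 + m • e) + 1 = ll (x.1 + (m + 1) • e) := fun x hx => by
    simpa only [e1] using cmar1_bp hS _ (hd x _) hx
  have up : ∀ a : J σ, ∃ T : Finset (J σ), #T ≤ m + 1 + 1 ∧ ∀ s ∈ Λ.S,
      s ∉ T → ll ((a + s).1 + (m + 1) • e) = ll (a.1 + m • e) := fun a => by
    have r1 := gb.rg (a.1 + m • e)
    rw [hd] at r1
    obtain ⟨T, c, b⟩ := cmar1_bp (d := m + 1 + 1) hS (K - (a.1 + m • e))
      (by rw [map_sub, gb.dgK, hd]; push_cast; ring) (by omega)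
    refine ⟨T, c, fun s hs hT => ?_⟩
    have r2 := gb.rg ((a + s).1 + (m + 1) • e)
    have r3 := b s hs hT
    rw [hd, show K - ((a + s).1 + (m + 1) • e) = K - (a.1 + m • e) - (s.1 + e) by
      push_cast; rw [succ_nsmul]; abel] at r2
    omega
  simp only [Nat.add_sub_cancel]
  refine ⟨fun r B hB => le_trans (cmar1_dc Λ.S _ {a ∈ B | ll (a.1 + m • e) = r} neg_injective
    (fun x hx => ?_) fun a ha => ?_) (Nat.mul_le_mul_left _ (card_filter_le _ _)), fun r hr =>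
    cmar1_dc Λ.S _ _ Function.injective_id (fun a ha => ?_) fun x hx => ?_⟩
  · have hx := (mem_filter.1 hx).2
    obtain ⟨T, c, b⟩ := dn x (by omega)
    refine ⟨T, c, fun s hs hT => ?_⟩
    have h : ll ((x + -s).1 + m • e) = r := by have := b s hs hT; omega
    exact mem_filter.2 ⟨hB _ h s hs (by rwa [neg_add_cancel_right]), h⟩
  · obtain ⟨T, c, b⟩ := up a
    refine ⟨T, c, fun s hs hU => by_contra fun hT => ?_⟩
    have h1 := (mem_filter.1 hU).2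
    have h2 := (mem_filter.1 ha).2
    rw [sub_neg_eq_add, b s hs hT] at h1
    omega
  · obtain ⟨T, c, b⟩ := up a
    exact ⟨T, c, fun s hs hT => mem_filter.2 ⟨mem_univ _, (b s hs hT).trans (mem_filter.1 ha).2⟩⟩
  · have hx := (mem_filter.1 hx).2
    obtain ⟨T, c, b⟩ := dn x (by omega)
    refine ⟨T, c, fun s hs hU => by_contra fun hT => ?_⟩
    have h1 := (mem_filter.1 hU).2
    have := b s hs hT
    rw [id, sub_eq_add_neg] at h1
    omega

end

section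

open Finset Module WithZero
open Pool.Agent.P.MP_6f117a_ag (Place FF)
open Pool.Agent.P.MP_ab3ecb_nt.Inv (Dv deg SA LS ev ord dv)
open Pool.Agent.P.MP_9344a7_nt.R
open Pool.Agent.P.MP_9344a7_nt.Hy hiding pt ev
open Pool.Agent.P.MP_9344a7_nt.Gt (pt lS Pr Can Bd Ch G12 Cv Kb)
open scoped Classical IntermediateField

theorem p_MAR (hMAR1 : S_MAR1) :
    S_MAR := by
  intro n M hn
  refine ⟨M * (n * (8 * (n + 1) * (4 * n * (n + 1)) ^ n)), 4 * (n + 1),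
    fun k E _ _ _ _ _ K e σ Q Λ _ B hq gb fb il hB hg => ?_⟩
  obtain ⟨m1, m2⟩ := hMAR1 k E K e n σ Q Λ hn gb fb il
  obtain ⟨-, -, pw⟩ := Od.a_PW k E K e n σ Q Λ gb fb il
  have hQ : 2 ≤ Q := fb.fr.1
  have lo := Λ.lo
  have s1 : Q ≤ 2 * (#Λ.S - (n + 1)) := by omega
  have s2 : Q ≤ 2 * (#Λ.S - n) := by omega
  set κ := 4 * n * (n + 1) with hκ
  have key : ∀ r, #{x : J σ | ll (x.1 + n • e) = r + 2} * Q ^ (2 * r + 1) ≤
      κ ^ r * (2 * (n + 1) * #B) := fun r => by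
    induction r with
    | zero =>
      have := m1 1 B fun a h1 s hs h2 => by_contra fun h3 => by
        have := (pw n _).2.1.1 (hg a h3 ((pw _ a).2.1.2 h1) s hs)
        omega
      calc _ ≤ #{x : J σ | ll (x.1 + n • e) = 1 + 1} * (2 * (#Λ.S - n)) :=
            Nat.mul_le_mul le_rfl (by simpa using s2)
        _ ≤ 2 * ((n + 1) * #B) := by rw [mul_left_comm]; gcongr
        _ = _ := by ring
    | succ r ih =>
      have a1 := m1 (r + 2) {a : J σ | ll (a.1 + (n - 1) • e) = r + 2} fun a h1 _ _ _ => by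
        simpa using h1
      have a2 := m2 (r + 2) (by omega)
      calc _ = #{x : J σ | ll (x.1 + n • e) = r + 2 + 1} * Q * Q * Q ^ (2 * r + 1) := by ring
        _ ≤ #{x : J σ | ll (x.1 + n • e) = r + 2 + 1} * (2 * (#Λ.S - n)) *
            (2 * (#Λ.S - (n + 1))) * Q ^ (2 * r + 1) := by gcongr
        _ = 4 * (#{x : J σ | ll (x.1 + n • e) = r + 2 + 1} * (#Λ.S - n)) *
            (#Λ.S - (n + 1)) * Q ^ (2 * r + 1) := by ring
        _ ≤ 4 * ((n + 1) * #{a : J σ | ll (a.1 + (n - 1) • e) = r + 2}) *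
            (#Λ.S - (n + 1)) * Q ^ (2 * r + 1) := by gcongr
        _ = 4 * (n + 1) * (#{a : J σ | ll (a.1 + (n - 1) • e) = r + 2} *
            (#Λ.S - (n + 1))) * Q ^ (2 * r + 1) := by ring
        _ ≤ 4 * (n + 1) * (n * #{x : J σ | ll (x.1 + n • e) = r + 2}) * Q ^ (2 * r + 1) := by gcongr
        _ = κ * (#{x : J σ | ll (x.1 + n • e) = r + 2} * Q ^ (2 * r + 1)) := by rw [hκ]; ring
        _ ≤ κ * (κ ^ r * (2 * (n + 1) * #B)) := by gcongr
        _ = _ := by ring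
  have pt : ∀ x ∈ univ.filter fun x => (Λ.W n).coeff x ≠ 1, (Λ.W n).coeff x ^ 2 ≤
      ∑ r ∈ range n, if ll (x.1 + n • e) = r + 2 then ((4 * Q ^ (2 * r + 2) : ℕ) : ℤ) else 0 :=
    fun x hx => by
      have d : dg (x.1 + n • e) = n := by simp [il.e2, (mem_J.1 x.2).2]
      have c := (Od.opw_num hQ (fb.cnt n (x.1 + n • e)
        (by rw [map_add, map_nsmul, il.e1, (mem_J.1 x.2).1]) d)).1
      have u : (ll (x.1 + n • e) : ℤ) ≤ n + 1 := by
        obtain ⟨D, hD⟩ := QuotientAddGroup.mk_surjective (x.1 + n • e)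
        rw [← hD, dg_mk] at d
        rw [← hD, ll_mk, ← d]
        exact rr_le (d ▸ Nat.cast_nonneg n)
      by_cases h0 : ll (x.1 + n • e) = 0
      · rw [(pw n x).1.2 h0, zero_pow two_ne_zero]
        exact sum_nonneg fun r _ => by positivity
      have h1 : ll (x.1 + n • e) ≠ 1 := fun h => (mem_filter.1 hx).2 ((pw n x).2.1.2 h)
      obtain ⟨r, hr⟩ : ∃ r, ll (x.1 + n • e) = r + 2 := ⟨ll (x.1 + n • e) - 2, by omega⟩
      refine le_trans ?_ (single_le_sum (fun r _ => by positivity) (mem_range.2 (show r < n by omega)))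
      rw [if_pos hr, il.W n x]
      rw [hr, pow_succ', mul_left_comm] at c
      have := Nat.pow_le_pow_left (Nat.le_of_mul_le_mul_left c (by omega)) 2
      exact_mod_cast this.trans_eq (by ring)
  have s3 := (sum_le_sum pt).trans (sum_le_sum_of_subset_of_nonneg (filter_subset _ _)
    fun _ _ _ => sum_nonneg fun r _ => by positivity)
  rw [sum_comm] at s3
  have s4 : ∀ r ∈ range n, (∑ x : J σ, if ll (x.1 + n • e) = r + 2 then
      ((4 * Q ^ (2 * r + 2) : ℕ) : ℤ) else 0) ≤ ((8 * (n + 1) * κ ^ n * #B * Q : ℕ) : ℤ) :=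
    fun r hr => by
      rw [← sum_filter, sum_const, nsmul_eq_mul, ← Nat.cast_mul, Nat.cast_le]
      have : κ ^ r ≤ κ ^ n := Nat.pow_le_pow_right (by positivity) (mem_range.1 hr).le
      calc _ = 4 * Q * (#{x : J σ | ll (x.1 + n • e) = r + 2} * Q ^ (2 * r + 1)) := by ring
        _ ≤ 4 * Q * (κ ^ n * (2 * (n + 1) * #B)) :=
            Nat.mul_le_mul_left _ ((key r).trans (Nat.mul_le_mul_right _ this))
        _ = _ := by ring
  have s5 := s3.trans (sum_le_card_nsmul _ _ _ s4)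
  rw [card_range, nsmul_eq_mul, ← Nat.cast_mul] at s5
  refine (mul_le_mul_of_nonneg_left s5 (Nat.cast_nonneg M)).trans ?_
  rw [← Nat.cast_mul, ← Nat.cast_pow, Nat.cast_le]
  calc _ = M * (n * (8 * (n + 1) * κ ^ n)) * #B * Q := by ring
    _ ≤ Q ^ (n - 1) * Q := by gcongr
    _ = _ := by rw [← pow_succ, Nat.sub_add_cancel hn]

end

section

open Finset Module WithZero
open Pool.Agent.P.MP_6f117a_ag (Place FF)
open Pool.Agent.P.MP_ab3ecb_nt.Inv (Dv deg SA LS ev ord dv)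
open Pool.Agent.P.MP_9344a7_nt.R
open Pool.Agent.P.MP_9344a7_nt.Hy hiding pt ev
open Pool.Agent.P.MP_9344a7_nt.Gt (pt lS Pr Can Bd Ch G12 Cv Kb)
open scoped Classical IntermediateField

theorem p_CH1 (hXT : S_XT) (hEMB : S_EMB) (hMON : S_MON) (hFRE : S_FRE) (hCHG : S_CHG) :
    S_CH1 := by
  intro g d N hg
  obtain ⟨p0, h⟩ := hCHG g d 1 N hg
  refine ⟨p0 + d, ?_⟩
  intro F ι _ _ _ C f π hp hd hf hD hS
  subst hd
  have ch : Ch (Kb F) (Fintype.card ι) := Gt.ch_of_lt (by omega)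
  have := FF.fin f hD.tr
  obtain ⟨i0⟩ : Nonempty ι := Fintype.card_pos_iff.1 (hD.rk ▸ finrank_pos)
  obtain ⟨θ, hθ⟩ := hXT C.E (AlgebraicClosure C.E) (algebraMap _ _) C.σ.s
  obtain ⟨φ, e, e0⟩ := (hEMB (Kb F) C.E (AlgebraicClosure C.E) ι f hD ch).1
    (IsScalarTower.toAlgHom _ _ _) i0
  obtain ⟨ρ, hρ, -⟩ := hFRE (Kb F) C.E _ ι f φ C.σ θ i0 hD ch e hf (fun c => by
    rw [IsScalarTower.algebraMap_apply (Kb F) C.E, hθ, C.σ.h, ← IsScalarTower.algebraMap_apply])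
    (by rw [e0]; exact (hθ f).trans (congrArg _ hf))
  obtain ⟨τ, hτ⟩ := hMON _ _ _ ι f φ hD ch hS e (π * ρ⁻¹)
  obtain ⟨X, a, b⟩ := h F _ Unit ι C (θ.trans τ.toRingEquiv) (fun _ => φ) (fun _ => π) (fun _ => f)
    () i0 (by omega) (by simp) rfl hf fun _ => ⟨hD, e, rfl, fun i w =>
      (congrArg τ (hρ i w)).trans ((hτ _ _).trans (by simp))⟩
  refine ⟨X.image (· ()), by rwa [card_image_of_injective _ fun T T' h => funext fun _ => h],
    fun T hT => ?_⟩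
  obtain ⟨U, hU, rfl⟩ := mem_image.1 hT
  exact (b U hU ()).2

end

section

open Finset Module WithZero
open Pool.Agent.P.MP_6f117a_ag (Place FF)
open Pool.Agent.P.MP_ab3ecb_nt.Inv (Dv deg SA LS ev ord dv)
open Pool.Agent.P.MP_9344a7_nt.R
open Pool.Agent.P.MP_9344a7_nt.Hy hiding pt ev
open Pool.Agent.P.MP_9344a7_nt.Gt (pt lS Pr Can Bd Ch G12 Cv Kb)
open scoped Classical IntermediateField

theorem p_CH0A (hCH1 : S_CH1) (hPEN : S_PEN) :
    S_CH0A := by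
  intro n hn
  obtain ⟨p0, h1⟩ := hCH1 (n + 1) (2 * n) 1 (by omega)
  refine ⟨2 * (2 * n) ^ (2 * n), p0, fun F _ _ C x y π hp hx hy mx my G => ?_⟩
  have dW : deg C.W = (2 * n : ℕ) := by rw [C.can.deg_W]; push_cast; ring
  obtain ⟨a1, a2, a3, a4⟩ := hPEN _ _ C.W x y (2 * n) (by omega) dW mx my G.bpf
    fun a b e => (G.sb a b e).1
  have e1 : ∀ c : Kb F, x - c • y ≠ 0 ∧ 2 * n ≤ #(dv (Kb F) (x - c • y) + C.W).support + 1 :=
    fun c => by simpa only [one_smul, neg_smul, ← sub_eq_add_neg] using G.sb 1 (-c) (.inl one_ne_zero)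
  have e2 : ∀ t : F, C.c t * y = algebraMap F (Kb F) t • y := fun t => (Algebra.smul_def _ _).symm
  have cd : Fintype.card (Fin n ⊕ Fin n) = 2 * n := by simp [two_mul]
  obtain ⟨X, b1, b2⟩ := h1 F (Fin n ⊕ Fin n) C (x / y) (π.sumCongr π) hp cd (div_mem hx hy) a1
    ⟨fun c => ⟨_, (e1 c).2, fun P => (a2 c P).1⟩, _,
      by simpa only [zero_smul, one_smul, zero_add] using (G.sb 0 1 (.inr one_ne_zero)).2,
      fun P => (a3 P).1⟩
  have key : ∀ T ∈ X, ∃ t : F, dv (Kb F) (x - C.c t * y) + C.W = ∑ i, pt (T i) := fun T hT => by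
    obtain ⟨c, hc⟩ := (b2 T hT).fb
    have := C.σ.ev_pl (T (.inl ⟨0, hn⟩)) (x / y)
    rw [(b2 T hT).fr, Cv.mem_E0.1 (div_mem hx hy), MP_ab3ecb_nt.Inv.ev_eq (hc _),
      MP_ab3ecb_nt.Inv.ev_eq (hc _), C.fr.2.2] at this
    obtain ⟨t, rfl⟩ := Gt.mem_range_iff.1 this.symm
    exact ⟨t, by rw [e2, a4 _ T _ cd (b2 T hT).inj hc]⟩
  choose! τ hτ using key
  have := card_le_mul_card_image_of_maps_to (f := τ) (s := X)
    (t := {t : F | x - C.c t * y ≠ 0 ∧ Sl C.σ π (dv (Kb F) (x - C.c t * y) + C.W)})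
    (fun T hT => mem_filter.2 ⟨mem_univ _, e2 _ ▸ (e1 _).1, T ∘ .inl, T ∘ .inr,
      ⟨(b2 T hT).inj.comp Sum.inl_injective, fun i => (b2 T hT).fr (.inl i)⟩,
      ⟨(b2 T hT).inj.comp Sum.inr_injective, fun i => (b2 T hT).fr (.inr i)⟩,
      (hτ T hT).trans (Fintype.sum_sum_type _)⟩) ((2 * n) ^ (2 * n)) fun t ht => by
      have h2 := Gt.card_support_le ((MP_ab3ecb_nt.Inv.mem_LS' (mem_filter.1 ht).2.1).1
        (e2 t ▸ sub_mem mx (Submodule.smul_mem _ _ my)))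
      rw [map_add, MP_ab3ecb_nt.Inv.deg_dv, zero_add, dW, Nat.cast_le] at h2
      refine (card_le_card (t := Fintype.piFinset fun _ =>
        (dv (Kb F) (x - C.c t * y) + C.W).support) fun T hT => ?_).trans ?_
      · obtain ⟨a, rfl⟩ := mem_filter.1 hT
        refine Fintype.mem_piFinset.2 fun i => Finsupp.mem_support_iff.2 ?_
        rw [hτ T a, Gt.sum_pt_self (b2 T a).inj]
        exact one_ne_zero
      · rw [Fintype.card_piFinset, prod_const, card_univ, cd]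
        exact Nat.pow_le_pow_left h2 _
  rw [mul_assoc]
  omega

end

end Pool.Agent.P.MP_9344a7_nt.Ac
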