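import Pool.Agent.P.MP_9344a7_nt.Ac.IfaceC
import Pool.Agent.P.MP_9344a7_nt.Ac.Iface

/-! Steps CH0B, CH0, CD, ALL. -/

set_option linter.unusedVariables false
set_option linter.unusedSectionVars false

namespace Pool.Agent.P.MP_9344a7_nt.Ac

section

open Finset Module WithZero
open Pool.Agent.P.MP_6f117a_ag (Place FF)
open Pool.Agent.P.MP_ab3ecb_nt.Inv (Dv deg SA LS ev ord dv)
open Pool.Agent.P.MP_9344a7_nt.R
open Pool.Agent.P.MP_9344a7_nt.Hy hiding pt ev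
open Pool.Agent.P.MP_9344a7_nt.Gt (pt lS Pr Can Bd Ch G12 Cv Kb)
open scoped Classical IntermediateField

theorem p_CH0B (hGEN0 : S_GEN0) (hCH0A : S_CH0A) :
    S_CH0B := by
  intro n hn
  obtain ⟨c, p1, H1⟩ := hCH0A n (by omega)
  obtain ⟨p2, H2⟩ := hGEN0 n 2 hn
  refine ⟨2 * c, p1 + p2, fun F _ _ C π hp hW hG => ?_⟩
  obtain ⟨e, e1, e2⟩ : ∃ e : Fin (n + 1) → C.E, (∀ i, e i ∈ C.E0 ∧ e i ∈ LS C.W) ∧
      LinearIndependent (Kb F) e := by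
    have := Gt.a_DES F _ C C.W Cv.W_mem
    rw [C.can.lS_W] at this
    exact this.imp fun _ h => ⟨h.1, h.2.1⟩
  have g := H2 F C e (by omega) hW hG e1 e2
  have l0 : ∀ z : Fin (n + 1) → F, ∑ i, C.c (z i) * e i = ∑ i, algebraMap F (Kb F) (z i) • e i :=
    fun z => by simp only [Algebra.smul_def, Cv.c_apply]
  obtain ⟨h, hh⟩ : ∃ h : (Fin (n + 1) → F) → C.E, ∀ z, ∑ i, C.c (z i) * e i = h z := ⟨_, fun _ => rfl⟩
  simp only [hh] at g
  have l1 : ∀ x y t, h (x - t • y) = h x - C.c t * h y := fun x y t => by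
    simp [← hh, sub_mul, mul_sum, mul_assoc]
  have l2 : ∀ z, h z ∈ C.E0 := fun z => hh z ▸ sum_mem fun i _ => mul_mem (Cv.c_mem _) (e1 i).1
  have l3 : ∀ z, h z ∈ LS C.W := fun z => by
    rw [← hh, l0]
    exact sum_mem fun i _ => Submodule.smul_mem _ _ (e1 i).2
  have l4 : ∀ z, h z = 0 → z = 0 := fun z a => funext fun i => by
    rw [← hh, l0] at a
    simpa using Fintype.linearIndependent_iff.1 e2 _ a i
  set q := Fintype.card F with hq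
  have q0 : 0 < q := Fintype.card_pos
  set G : Finset ((Fin (n + 1) → F) × (Fin (n + 1) → F)) := {x | Gp n C.W (h x.1) (h x.2)} with hG'
  set Z : Finset (Fin (n + 1) → F) := {z | h z ≠ 0 ∧ Sl C.σ π (dv (Kb F) (h z) + C.W)} with hZ
  have a1 : q ^ (2 * (n + 1)) ≤ 2 * #G := by
    have := card_filter_add_card_filter_not (s := univ)
      fun x : (Fin (n + 1) → F) × (Fin (n + 1) → F) => Gp n C.W (h x.1) (h x.2)
    rw [card_univ, Fintype.card_prod, Fintype.card_fun, Fintype.card_fin, ← hq, ← pow_add,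
      ← two_mul, ← hG'] at this
    omega
  have a2 : #G * q ≤ c * #(G.sigma fun x => ({t | x.1 - t • x.2 ∈ Z} : Finset F)) := by
    rw [card_sigma, mul_sum]
    refine card_nsmul_le_sum _ _ _ fun x hx => ?_
    simp only [hZ, mem_filter_univ, l1]
    exact H1 F C _ _ π (by omega) (l2 _) (l2 _) (l3 _) (l3 _) (mem_filter.1 hx).2
  have a3 : #(G.sigma fun x => ({t | x.1 - t • x.2 ∈ Z} : Finset F)) ≤ #Z * (q ^ (n + 1) * q) := by
    refine (card_le_card_of_injOn (t := Z ×ˢ univ) (fun y => (y.1.1 - y.2 • y.1.2, y.1.2, y.2))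
      (fun y hy => ?_) ?_).trans_eq (by simp [hq])
    · exact mem_coe.2 (mem_product.2 ⟨(mem_filter.1 (mem_sigma.1 hy).2).2, mem_univ _⟩)
    · rintro ⟨⟨x, y⟩, t⟩ - ⟨⟨x', y'⟩, t'⟩ - a
      simp only [Prod.mk.injEq] at a
      obtain ⟨a, rfl, rfl⟩ := a
      rw [sub_left_inj.1 a]
  have a4 : #Z ≤ q * #(Z.image fun z => dv (Kb F) (h z) + C.W) := by
    refine card_le_mul_card_image _ _ fun b hb => ?_
    obtain ⟨z0, z1, rfl⟩ := mem_image.1 hb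
    refine (card_le_card (t := univ.image fun a : F => a • z0) fun z hz => ?_).trans card_image_le
    obtain ⟨z2, z3⟩ := mem_filter.1 hz
    have n0 := ((mem_filter_univ _).1 z1).1
    obtain ⟨a, ha⟩ := MP_ab3ecb_nt.Inv.const_of_dv (k := Kb F) (z := h z / h z0) (by
      rw [MP_ab3ecb_nt.Inv.dv_div ((mem_filter_univ _).1 z2).1 n0, add_right_cancel z3, sub_self])
    have := Cv.mem_E0.1 (div_mem (l2 z) (l2 z0))
    rw [← ha, C.σ.h, C.fr.2.2] at this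
    obtain ⟨a, rfl⟩ := Gt.mem_range_iff.1 ((algebraMap _ C.E).injective this)
    refine mem_image.2 ⟨a, mem_univ _, (sub_eq_zero.1 (l4 _ ?_)).symm⟩
    rw [l1, Cv.c_apply, ha, div_mul_cancel₀ _ n0, sub_self]
  refine ⟨Z.image fun z => dv (Kb F) (h z) + C.W, ?_, fun H hH => ?_⟩
  · refine Nat.le_of_mul_le_mul_left ?_ (show 0 < q ^ (n + 1) * q * q by positivity)
    calc _ = q ^ (2 * (n + 1)) * q := by ring
      _ ≤ 2 * (#G * q) := by rw [← mul_assoc]; gcongr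
      _ ≤ 2 * (c * (q * #(Z.image fun z => dv (Kb F) (h z) + C.W) * (q ^ (n + 1) * q))) :=
        Nat.mul_le_mul_left _
          (a2.trans (Nat.mul_le_mul_left _ (a3.trans (Nat.mul_le_mul_right _ a4))))
      _ = _ := by ring
  · obtain ⟨z, z1, rfl⟩ := mem_image.1 hH
    obtain ⟨z2, z3⟩ := (mem_filter_univ _).1 z1
    exact ⟨⟨_, z2, (add_sub_cancel_right _ _).symm⟩, z3⟩

end

section

open Finset Module WithZero
open Pool.Agent.P.MP_6f117a_ag (Place FF)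
open Pool.Agent.P.MP_ab3ecb_nt.Inv (Dv deg SA LS ev ord dv)
open Pool.Agent.P.MP_9344a7_nt.R
open Pool.Agent.P.MP_9344a7_nt.Hy hiding pt ev
open Pool.Agent.P.MP_9344a7_nt.Gt (pt lS Pr Can Bd Ch G12 Cv Kb)
open scoped Classical IntermediateField

lemma cch0_cls {k E : Type} [Field k] [Field E] [Algebra k E] [IsAlgClosed k] [FF k E]
    {σ : SA k E} {Q n : ℕ} {e : Pic k E} (fb : FB σ Q) (e1 : ph σ e = e) (e2 : dg e = 1)
    {π : Equiv.Perm (Fin n)} {T : Fin n → Place k E} (h : Ob σ π T) :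
    ∑ i, pt (T i) ∈ ef σ n ∧ ∃ x : J σ, x.1 + n • e = (∑ i, pt (T i) : Dv k E) := by
  have a : σ.dm (∑ i, pt (T i)) = ∑ i, pt (T i) := by
    simp only [map_sum, σ.dm_single, h.fr]
    exact Equiv.sum_comp π fun i => pt (T i)
  have d : deg (∑ i, pt (T i)) = n := by simp
  refine ⟨(fb.ef _ _).2 ⟨Gt.sum_pt_nonneg _ _, dm_eq.1 a, d⟩,
    ⟨_, sub_mem_J e1 e2 (x := (∑ i, pt (T i) : Dv k E)) (by rw [ph_mk, a])⟩, ?_⟩
  simp only [dg_mk, d, natCast_zsmul, sub_add_cancel]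

theorem p_CH0 (hDIC : S_DIC) (hCYC : S_CYC) (hGOOD : S_GOOD) (hMAR : S_MAR) (hCH0B : S_CH0B) :
    S_CH0 := by
  intro n hn
  obtain ⟨c, p1, hB⟩ := hCH0B n hn
  obtain ⟨M0, q0, hM⟩ := hMAR n (2 * c) (by omega)
  obtain ⟨p2, hG⟩ := hGOOD n M0 hn
  obtain ⟨π, hπ⟩ := (hCYC n hn).2
  refine ⟨2 * c, p1 + p2 + q0, fun F _ _ C e Λ _ hp hx => ?_⟩
  obtain ⟨Y, y1, y2⟩ := hB F C π (by omega) hx.pos hx.nh
  obtain ⟨B, b1, b2⟩ := hG F C e Λ (by omega) hx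
  have m := hM _ _ _ e C.σ _ Λ B (by have := Gt.char_le (F := F); omega) hx.gb hx.fb hx.il b1 b2
  have pw := fun a => (Od.a_PW _ _ _ e n C.σ _ Λ hx.gb hx.fb hx.il).2.1 n le_rfl a
  simp only [Nat.sub_self, pow_zero, one_mul, show 2 * n - n = n by omega] at pw
  have sym : ∀ a, (Λ.W n).coeff (Λ.ω - a) = (Λ.W n).coeff a := fun a =>
    le_antisymm ((pw _).trans_eq (by rw [sub_sub_cancel])) (pw a)
  have dc := (hDIC _ _ _ e n C.σ _ Λ n hx.gb hx.fb hx.il).1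
  let f : J C.σ → Finset (Dv (Kb F) C.E) := fun x =>
    (ef C.σ n).filter fun A : Dv (Kb F) C.E => (A : Pic (Kb F) C.E) = x.1 + n • e
  let g : J C.σ → Finset (Dv (Kb F) C.E) := fun x => image₂ (· + ·) (f x) (f (Λ.ω - x))
  have hg : ∀ S : Finset (J C.σ), (#(S.biUnion g) : ℤ) ≤ ∑ x ∈ S, (Λ.W n).coeff x ^ 2 := fun S => by
    refine (Nat.cast_le.2 card_biUnion_le).trans ?_
    rw [Nat.cast_sum]
    refine sum_le_sum fun x _ => (Nat.cast_le.2 (card_image₂_le _ _ _)).trans_eq ?_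
    rw [Nat.cast_mul, ← hx.il.W, ← hx.il.W, sym, sq]
  have hY : Y ⊆ ({x | Pm Λ n x ∧ Pm Λ n (Λ.ω - x)} : Finset (J C.σ)).biUnion g ∪
      ({x | (Λ.W n).coeff x ≠ 1} : Finset (J C.σ)).biUnion g := fun H hH => by
    obtain ⟨pr, T, T', o, o', rfl⟩ := y2 H hH
    obtain ⟨a, x, b⟩ := cch0_cls hx.fb hx.il.e1 hx.il.e2 o
    have b' : (Λ.ω - x).1 + n • e = (∑ i, pt (T' i) : Dv (Kb F) C.E) := by
      rw [AddSubgroup.coe_sub, hx.il.ω, ← mk_eq.2 pr, QuotientAddGroup.mk_add, ← b, two_mul,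
        add_nsmul]
      abel
    have u : _ ∈ g x := mem_image₂_of_mem (mem_filter.2 ⟨a, b.symm⟩)
      (mem_filter.2 ⟨(cch0_cls hx.fb hx.il.e1 hx.il.e2 o').1, b'.symm⟩)
    by_cases h : (Λ.W n).coeff x = 1
    · exact mem_union_left _ (mem_biUnion.2 ⟨x, mem_filter.2 ⟨mem_univ _,
        (dc π T x o b h).2 (mem_filter.2 ⟨mem_univ _, hπ⟩),
        (dc π T' _ o' b' ((sym x).trans h)).2 (mem_filter.2 ⟨mem_univ _, hπ⟩)⟩, u⟩)
    · exact mem_union_right _ (mem_biUnion.2 ⟨x, mem_filter.2 ⟨mem_univ _, h⟩, u⟩)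
  have h1 := (Nat.cast_le (α := ℤ)).2 ((card_le_card hY).trans (card_union_le _ _))
  have h2 := hg {x | Pm Λ n x ∧ Pm Λ n (Λ.ω - x)}
  rw [sum_congr rfl (g := fun _ => 1) fun x h => by rw [(mem_filter.1 h).2.1.1, one_pow],
    sum_const, nsmul_one] at h2
  rw [Nat.cast_add] at h1
  have h3 := mul_le_mul_of_nonneg_left (h1.trans (add_le_add h2 (hg _))) (Nat.cast_nonneg c)
  zify at y1 m ⊢
  linarith

end

section

open Polynomial Finset Module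
open Pool.Agent.P.MP_6f117a_ag (Place FF)
open Pool.Agent.P.MP_ab3ecb_nt.Inv (Dv deg SA LS ev ord dv)
open Pool.Agent.P.MP_9344a7_nt.R
open Pool.Agent.P.MP_9344a7_nt.Hy hiding pt
open Pool.Agent.P.MP_9344a7_nt.Od (GD Kp Fe)
open Pool.Agent.P.MP_9344a7_nt.Gt (pt lS Pr Can Bd Ch G12 Cv Kb)
open scoped Classical IntermediateField ComplexConjugate

lemma ccd_card {M S q : ℤ} (h1 : M * q ≤ (M + 1) * S) (h2 : M * S ≤ (M + 1) * q) :
    M * |S - q| ≤ q := by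
  rcases abs_cases (S - q) with ⟨a, b⟩ | ⟨a, b⟩ <;> rw [a] <;> linarith

lemma ccd_div {M n f x A U V B : ℤ} (hM : 0 ≤ M) (hx : 1 ≤ x) (e : n * x = f)
    (h : M * |f * A - x * U * V| ≤ B) : M * |n * A - U * V| ≤ B := by
  rw [show f * A - x * U * V = x * (n * A - U * V) by rw [← e]; ring, abs_mul,
    abs_of_nonneg (by omega : 0 ≤ x)] at h
  exact (mul_le_mul_of_nonneg_left (le_mul_of_one_le_left (abs_nonneg _) hx) hM).trans h

theorem p_CD (hDIC : S_DIC) (hCYC : S_CYC) (hMX : S_MX) (hGOOD : S_GOOD) (hCH0 : S_CH0) :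
    S_CD := by
  intro n hn
  obtain ⟨c, p1, h1⟩ := hCH0 n hn
  refine ⟨c, fun M => ?_⟩
  obtain ⟨p2, h2⟩ := hMX n M hn
  obtain ⟨p3, h3⟩ := hGOOD n M hn
  obtain ⟨p4, h4⟩ := Nh.a_PLO (n + 1) M (by omega)
  obtain ⟨p5, h5⟩ := Nh.a_PHI (n + 1) M (by omega)
  refine ⟨p1 + p2 + p3 + p4 + p5, fun F E _ _ _ _ _ K e σ Λ _ hp gb fb il nh => ?_⟩
  obtain ⟨W, rfl, w0, can, inv⟩ := Nh.a_CVB F E K (n + 1) σ n.succ_pos gb fb
  let C : Cv F (n + 1) := { E := E, σ := σ, fr := fb.fr, W := W, can := can, inv := inv }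
  have cx : Cx C e Λ := ⟨gb, fb, il, w0, nh⟩
  obtain ⟨d1, d2⟩ := hDIC _ E _ e n σ _ Λ n gb fb il
  obtain ⟨y1, π, y2⟩ := hCYC n hn
  refine ⟨?_, fun U hU V hV => ?_, fun U hU V hV => ?_, h3 F C e Λ (by omega) cx,
    h1 F C e Λ (by omega) cx⟩
  · have a := h4 F E _ σ (by omega) gb fb 1 one_ne_zero
    have b := h5 F E _ e σ (by omega) gb fb il.e1 il.e2 1 one_ne_zero
    rw [pow_one, ← il.card] at a b
    exact ccd_card (by exact_mod_cast a) (by exact_mod_cast b)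
  · exact ccd_div (Nat.cast_nonneg M) (Nat.one_le_cast.2 (card_pos.2 ⟨π, by simpa using y2⟩))
      (by exact_mod_cast y1) (h2 F C e Λ _ _ (by omega) cx d1 U hU V hV)
  · have := h2 F C e Λ _ _ (by omega) cx d2 U hU V hV
    rwa [card_singleton, Nat.cast_one, one_mul] at this

end

section

open Polynomial Finset Module
open Pool.Agent.P.MP_6f117a_ag (Place FF)
open Pool.Agent.P.MP_ab3ecb_nt.Inv (Dv deg SA LS ev ord dv)
open Pool.Agent.P.MP_9344a7_nt.R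
open Pool.Agent.P.MP_9344a7_nt.Hy hiding pt
open Pool.Agent.P.MP_9344a7_nt.Od (GD Kp Fe)
open Pool.Agent.P.MP_9344a7_nt.Gt (pt lS Pr Can Bd Ch G12 Cv Kb)
open scoped Classical IntermediateField ComplexConjugate

lemma aall_tr {q n C0 : ℕ} {A A' : Type} [AddCommGroup A] [AddCommGroup A'] {Λ Λ2 : LD q n A}
    {Λ' : LD q n A'} {θ : A' ≃+ A} (t1 : Λ'.Tp θ Λ2) (θ1 : A ≃+ A) (t : A)
    (h : C0 * #{s ∈ Λ.S | θ1 s + t ∉ Λ2.S} ≤ q) :
    C0 * #{s ∈ Λ.S | (θ1.trans θ.symm) s + θ.symm t ∉ Λ'.S} ≤ q := by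
  refine le_trans (Nat.mul_le_mul_left _ (card_le_card fun s hs => ?_)) h
  rw [mem_filter] at hs ⊢
  refine ⟨hs.1, fun x => hs.2 ?_⟩
  obtain ⟨y, y1, y2⟩ := mem_image.1 (t1.S ▸ x)
  rwa [AddEquiv.trans_apply, ← map_add, ← y2, θ.symm_apply_apply]

theorem p_ALL (hADD1 : S_ADD1) (hADD2 : S_ADD2) (hTPA : S_TPA) (hNHG : S_NHG) (hED : S_ED) (hCD : S_CD) (hTD : S_TD) :
    S_ALL := by
  intro g hg
  obtain ⟨n, rfl⟩ : ∃ n, g = n + 1 := ⟨g - 1, by omega⟩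
  have hn : 2 ≤ n := by omega
  obtain ⟨p1, H1⟩ := Nh.a_TWO n (by omega)
  obtain ⟨C0, p2, H2⟩ := Nh.a_FIN n hn
  obtain ⟨c1, p3, hc, H3⟩ := Od.a_GD n (by omega)
  obtain ⟨c2, p4, H4⟩ := hED n hn
  obtain ⟨c3, H5⟩ := hCD n hn
  obtain ⟨a, b, u0, p6, H6⟩ := hTD n hn
  obtain ⟨ch, p7, H7⟩ := Hy.a_HD n hn
  obtain ⟨N0, q0, H8⟩ := Hy.a_ADD ch n C0 hn
  obtain ⟨M1, N1, K1, A1⟩ := hADD1 (c1 + c2 + c3) n a C0 hn
  obtain ⟨M2, N2, K2, A2⟩ := hADD2 (c1 + c2 + c3) n a C0 hn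
  obtain ⟨p5, H5⟩ := H5 (M1 + M2)
  obtain ⟨K0, k0⟩ : ∃ K0, K0 = K1 + K2 + 1 := ⟨_, rfl⟩
  obtain ⟨q1, H9⟩ := Hy.a_SML (2 ^ (n + 1)) (n + 1) ((u0 + K0) ^ (K0 + b)) (K0 * (K0 + b))
  refine ⟨N0 + N1 + N2, p1 + p2 + p3 + p4 + p5 + p6 + p7 + q0 + q1,
    fun F E E' _ _ _ _ _ _ C D hp g1 g2 cy pr hN ⟨e, e', d, d', hH⟩ => ?_⟩
  obtain ⟨_, _, σ, σ', K, K', _, _, Λ, Λ', T⟩ := H1 F E E' C D e e' (by omega) g1 g2 hN d d' hH
  have hq : ringChar F ≤ Fintype.card F :=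
    Nat.le_of_dvd Fintype.card_pos ((ringChar.spec F _).1 (FiniteField.cast_card_eq_zero F))
  have fin := H2 F E E' C D e e' σ σ' K K' Λ Λ' (by omega) g1 g2 (hN 1 one_pos) T
  have hb := T.big cy _ pr
  have n' := hNHG _ E' K' e'.1 n σ' _ Λ' T.gb' (by omega) T.fb' T.il'
  rcases hNHG _ E K e.1 n σ _ Λ T.gb (by omega) T.fb T.il with ⟨nh, ng⟩ | ⟨H, i1, i2, i3⟩
  swap
  · obtain ⟨b1, κ, b2⟩ := H7 F E K H e.1 σ Λ (by omega) T.gb T.fb T.il i1 i2 i3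
    obtain ⟨θ, -, t⟩ := H8 _ (J σ) (J σ') Λ Λ' κ (by omega)
      ⟨hb.cyc, hb.nt, b1, fun l x y => by have := hb.pr l x y; omega⟩ b2
      (n'.imp And.left fun ⟨H', j1, j2, j3⟩ =>
        (H7 F E' K' H' e'.1 σ' Λ' (by omega) T.gb' T.fb' T.il' j1 j2 j3).2) T.card T.eq
    exact fin θ 0 (by convert t; rw [add_zero])
  obtain ⟨u, hu⟩ : ∃ u, u = (u0 + K0) * om (J σ) ^ K0 := ⟨_, rfl⟩
  have u1 : u0 + K0 ≤ u := hu ▸ Nat.le_mul_of_pos_right _ (Nat.pow_pos one_le_om)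
  have u2 : u ^ (K0 + b) ≤ Fintype.card F := by
    rw [hu, mul_pow, ← pow_mul]
    exact H9 _ _ (by omega) Nat.card_pos.ne' hb.le
  have u3 : u ^ b ≤ Fintype.card F := (Nat.pow_le_pow_right (by omega) (by omega)).trans u2
  have sc : Sc (J σ) (Fintype.card F) u K0 := ⟨hu ▸ Nat.mul_le_mul_right _ (by omega),
    (Nat.pow_le_pow_right (by omega) (by omega)).trans u2⟩
  have bg : Big (J σ) (c1 + c2 + c3) (Fintype.card F) n (N0 + N1 + N2) :=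
    ⟨hb.cyc, hb.nt, hb.le.trans (Nat.mul_le_mul_right _ (by omega)), hb.pr⟩
  have ad : AD Λ (c1 + c2 + c3) (M1 + M2) u a :=
    ⟨(H4 F E K e.1 σ Λ (by omega) T.gb T.fb T.il ng).up (by omega),
      (H5 F E K e.1 σ Λ (by omega) T.gb T.fb T.il ng).up (by omega) le_rfl,
      H6 F E K e.1 σ Λ u (by omega) T.gb T.fb T.il ng (by omega) u3⟩
  rcases A1 _ u (J σ) (J σ') Λ Λ' (big_down bg (by omega)) (sc.down (by omega))
    (ad.up (by omega)) (gd_mono (H3 F E' K' e'.1 σ' Λ' (by omega) T.gb' T.fb' T.il') (by omega))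
    T.card T.eq with ⟨θ, t⟩ | ⟨θ, χ, hχ, G, z, f, v, v'⟩
  · exact fin θ 0 (by convert t; rw [add_zero])
  rcases n' with ⟨-, ng'⟩ | ⟨H, i1, i2, i3⟩
  swap
  · obtain ⟨b1, κ, b2⟩ := H7 F E' K' H e'.1 σ' Λ' (by omega) T.gb' T.fb' T.il' i1 i2 i3
    have := hb.cyc
    have := hb.nt
    obtain ⟨θ', t, -⟩ := H8 _ (J σ') (J σ) Λ' Λ κ (by omega)
      ⟨isAddCyclic_of_surjective θ.symm θ.symm.surjective, θ.toEquiv.nontrivial, b1, fun l x y => by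
        have := hb.pr l x (Nat.card_congr θ.toEquiv ▸ y)
        omega⟩ b2 (.inl nh) T.card.symm T.eq.symm
    have := nh (θ' κ)
    rw [t.top] at this
    have : 0 < Fintype.card F := Fintype.card_pos
    omega
  have ad' : AD Λ' (c1 + c2 + c3) (M1 + M2) u a :=
    ⟨(H4 F E' K' e'.1 σ' Λ' (by omega) T.gb' T.fb' T.il' ng').up (by omega),
      (H5 F E' K' e'.1 σ' Λ' (by omega) T.gb' T.fb' T.il' ng').up (by omega) le_rfl,
      H6 F E' K' e'.1 σ' Λ' u (by omega) T.gb' T.fb' T.il' ng' (by omega) u3⟩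
  obtain ⟨Λ2, t1, t2, -⟩ := Hy.a_TP _ n (J σ') (J σ) Λ' θ
  obtain ⟨θ1, t, h⟩ := A2 _ u (J σ) Λ Λ2 (big_down bg (by omega)) (sc.down (by omega))
    (ad.up (by omega)) ((hTPA _ n _ _ u a _ _ Λ' Λ2 θ t1 ad').up (by omega)) χ hχ G z f v
    (t2 χ ▸ v')
  exact fin (θ1.trans θ.symm) (θ.symm t) (by convert aall_tr t1 θ1 t h)

end

end Pool.Agent.P.MP_9344a7_nt.Ac
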