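import Pool.Agent.P.MP_9344a7_nt.Ac.Iface

/-! Steps CHV. -/

set_option linter.unusedVariables false
set_option linter.unusedSectionVars false

namespace Pool.Agent.P.MP_9344a7_nt.Ac

section

open Polynomial Finset Module
open Pool.Agent.P.MP_6f117a_ag (Place FF)
open Pool.Agent.P.MP_ab3ecb_nt.Inv (Dv deg SA LS ev ord dv)
open Pool.Agent.P.MP_9344a7_nt.R
open Pool.Agent.P.MP_9344a7_nt.Hy hiding pt
open Pool.Agent.P.MP_9344a7_nt.Od (GD Kp Fe)
open Pool.Agent.P.MP_9344a7_nt.Gt (pt lS Pr Can Bd Ch G12 Cv Kb)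
open scoped Classical IntermediateField ComplexConjugate

section

variable {Ω : Type} [Field Ω] {G : Subring (Ω × Ω)}

lemma cchv_key (hm : ∀ G' : Subring (Ω × Ω), (∀ b, (0, b) ∈ G' → b = 0) → G ≤ G' → G' ≤ G)
    {x c : Ω} (h : ∀ f : G[X], f.eval₂ ((RingHom.fst Ω Ω).comp G.subtype) x = 0 →
      f.eval₂ ((RingHom.snd Ω Ω).comp G.subtype) c = 0) : (x, c) ∈ G := by
  refine hm (eval₂RingHom G.subtype (x, c)).range ?_ (fun g hg => ⟨C ⟨g, hg⟩, by simp⟩)
    ⟨X, by simp⟩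
  rintro b ⟨f, hf⟩
  have a1 := hom_eval₂ f G.subtype (RingHom.fst Ω Ω) (x, c)
  have a2 := hom_eval₂ f G.subtype (RingHom.snd Ω Ω) (x, c)
  rw [coe_eval₂RingHom] at hf
  rw [hf] at a1 a2
  exact a2.trans (h f a1.symm)

lemma cchv_inv (h0 : ∀ b, (0, b) ∈ G → b = 0)
    (hm : ∀ G' : Subring (Ω × Ω), (∀ b, (0, b) ∈ G' → b = 0) → G ≤ G' → G' ≤ G)
    (g : G) (h : g.1.2 ≠ 0) : g.1.1 ≠ 0 ∧ (g.1.1⁻¹, g.1.2⁻¹) ∈ G := by
  have k : ∀ g : G, g.1.1 = 0 → g.1.2 = 0 := fun g e => h0 _ (e ▸ g.2)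
  have h1 : g.1.1 ≠ 0 := fun e => h (k g e)
  refine ⟨h1, cchv_key hm fun f hf => ?_⟩
  let := invertibleOfNonzero (inv_ne_zero h1)
  let := invertibleOfNonzero (inv_ne_zero h)
  rw [← eval₂_reverse_eq_zero_iff, invOf_eq_inv, inv_inv] at hf ⊢
  exact (eval₂_hom _ g).trans (k _ ((eval₂_hom _ g).symm.trans hf))

lemma cchv_max [IsAlgClosed Ω] (h0 : ∀ b, (0, b) ∈ G → b = 0)
    (hm : ∀ G' : Subring (Ω × Ω), (∀ b, (0, b) ∈ G' → b = 0) → G ≤ G' → G' ≤ G) :
    ∃ V : Sv Ω, ∀ g : G, g.1.1 ∈ V.O ∧ V.r g.1.1 = g.1.2 := by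
  have k : ∀ g : G, g.1.1 = 0 → g.1.2 = 0 := fun g e => h0 _ (e ▸ g.2)
  set α := (RingHom.fst Ω Ω).comp G.subtype with hα
  set β := (RingHom.snd Ω Ω).comp G.subtype with hβ
  obtain ⟨V, v1, v2⟩ := Ideal.image_subset_nonunits_valuationSubring
    ((RingHom.ker β).map α.rangeRestrict) (by
      rw [Ideal.ne_top_iff_one, Ideal.mem_map_iff_of_surjective _ α.rangeRestrict_surjective]
      rintro ⟨g, a, b⟩
      have c : β (g - 1) = 0 := k (g - 1) (show α (g - 1) = 0 by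
        rw [map_sub, map_one, sub_eq_zero]; exact congrArg Subtype.val b)
      rw [map_sub, RingHom.mem_ker.1 a, map_one, zero_sub, neg_eq_zero] at c
      exact one_ne_zero c)
  have w1 : ∀ g, α g ∈ V := fun g => v1 ⟨g, rfl⟩
  have w2 : ∀ g, β g = 0 → V.valuation (α g) < 1 := fun g e =>
    V.mem_nonunits_iff.1 (v2 ⟨_, Ideal.mem_map_of_mem _ (RingHom.mem_ker.2 e), rfl⟩)
  let κ : Subfield Ω := { β.range with
    inv_mem' := by
      rintro _ ⟨g, rfl⟩
      by_cases e : β g = 0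
      · exact ⟨0, by rw [e, inv_zero, map_zero]⟩
      · exact ⟨⟨_, (cchv_inv h0 hm g e).2⟩, rfl⟩ }
  let γ : G →+* κ := β.codRestrict κ fun g => ⟨g, rfl⟩
  have sγ : Function.Surjective γ := fun ⟨_, g, e⟩ => ⟨g, Subtype.ext e⟩
  have su : ∀ x ∈ V, ∃ c, (x, c) ∈ G := by
    intro x hx
    set J := (RingHom.ker (eval₂RingHom α x)).map (mapRingHom γ)
    have j1 : J ≠ ⊤ := by
      rw [Ideal.ne_top_iff_one, Ideal.mem_map_iff_of_surjective _ (map_surjective γ sγ)]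
      rintro ⟨f, a, b⟩
      have c : V.valuation ((1 - f).eval₂ α x) < 1 := by
        rw [eval₂_eq_sum_range]
        refine V.valuation.map_sum_lt one_ne_zero fun i _ => ?_
        have d : γ ((1 - f).coeff i) = 0 := by
          rw [← coeff_map, ← coe_mapRingHom, map_sub, b, map_one, sub_self, coeff_zero]
        rw [map_mul]
        exact mul_lt_one_of_lt_of_le (w2 _ (congrArg Subtype.val d))
          ((V.valuation_le_one_iff _).2 (pow_mem hx i))
      rw [eval₂_sub, eval₂_one, show f.eval₂ α x = 0 from a, sub_zero, map_one] at c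
      exact lt_irrefl _ c
    obtain ⟨c, hc⟩ := IsAlgClosed.exists_eval₂_eq_zero κ.subtype
      (Submodule.IsPrincipal.generator J) fun e => j1 (Ideal.eq_top_of_isUnit_mem _
        (Submodule.IsPrincipal.generator_mem J) (isUnit_iff_degree_eq_zero.2 e))
    refine ⟨c, cchv_key hm fun f hf => ?_⟩
    obtain ⟨u, hu⟩ := (Submodule.IsPrincipal.mem_iff_generator_dvd J).1
      (Ideal.mem_map_of_mem _ (show f ∈ RingHom.ker (eval₂RingHom α x) from hf))
    have : (f.map γ).eval₂ κ.subtype c = 0 := by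
      rw [← coe_mapRingHom, hu, eval₂_mul, hc, zero_mul]
    rwa [eval₂_map] at this
  let e : G ≃+* V := RingEquiv.ofBijective (α.codRestrict V w1) ⟨(injective_iff_map_eq_zero _).2
    fun g h => Subtype.ext (Prod.ext (congrArg Subtype.val h) (k g (congrArg Subtype.val h))),
    fun x => (su x x.2).elim fun _ h => ⟨⟨_, h⟩, rfl⟩⟩
  refine ⟨⟨V, β.comp e.symm.toRingHom, fun c => ?_⟩, fun g => ⟨w1 g, ?_⟩⟩
  · obtain ⟨g, rfl⟩ := e.surjective c
    have : (β.comp e.symm.toRingHom) (e g) = β g := congrArg β (e.symm_apply_apply g)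
    rw [this]
    refine ⟨w2 g, fun h => by_contra fun h' => ?_⟩
    obtain ⟨a, b⟩ := cchv_inv h0 hm g h'
    have d := mul_lt_one_of_lt_of_le h ((V.valuation_le_one_iff _).2 (w1 ⟨_, b⟩))
    rw [← map_mul, show ((e g : V) : Ω) * α ⟨_, b⟩ = 1 from mul_inv_cancel₀ a, map_one] at d
    exact lt_irrefl _ d
  · exact (Sv.r_eq _ (w1 g)).trans (congrArg β (e.symm_apply_apply g))

end

theorem p_CHV :
    S_CHV := by
  intro Ω _ _ R φ
  obtain ⟨G, h1, h2⟩ := zorn_le_nonempty₀ {G : Subring (Ω × Ω) | ∀ b, (0, b) ∈ G → b = 0}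
    (fun c hc ch y hy => ⟨sSup c, fun b hb => by
      obtain ⟨G, a, d⟩ := (Subring.mem_sSup_of_directedOn ⟨y, hy⟩ ch.directedOn).1 hb
      exact hc a b d, fun _ => le_sSup⟩) (R.subtype.prod φ).range (by
      rintro b ⟨c, e⟩
      obtain rfl : c = 0 := Subtype.ext (congrArg Prod.fst e)
      exact (congrArg Prod.snd e).symm.trans φ.map_zero)
  obtain ⟨V, hV⟩ := cchv_max h2.prop fun G' a b => h2.le_of_ge a b
  exact ⟨V, fun c => hV ⟨_, h1 ⟨c, rfl⟩⟩⟩

end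

end Pool.Agent.P.MP_9344a7_nt.Ac
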