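import Pool.Agent.P.MP_9344a7_nt.Ac.IfaceG

/-! Steps GORF, GBC, GBC2, GDU, GSEC, GDS. -/

set_option linter.unusedVariables false
set_option linter.unusedSectionVars false

namespace Pool.Agent.P.MP_9344a7_nt.Ac

section

open WithZero Module Finset
open Pool.Agent.P.MP_6f117a_ag (Place FF)
open Pool.Agent.P.MP_ab3ecb_nt.Inv
open Pool.Agent.P.MP_9344a7_nt.Gt (pt lS Pr Can Bd Ch G12)
open scoped Classical IntermediateField

lemma gorf_one {K k : Type} [Field K] [Field k] [IsAlgClosed k] [Algebra K k] (T : Set k) (c : k)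
    (h : {c' | ∃ τ : k ≃ₐ[K] k, (∀ x ∈ T, τ x = x) ∧ τ c = c'}.Finite) : c ∈ acl K T := by
  by_contra hc
  refine p_ORB (IntermediateField.adjoin K T) k c (fun a => hc (mem_acl.2 a)) (h.subset ?_)
  rintro _ ⟨τ, rfl⟩
  exact ⟨τ.restrictScalars K, fun x hx =>
    τ.commutes ⟨x, IntermediateField.subset_adjoin K T hx⟩, rfl⟩

theorem p_GORF :
    S_GORF := by
  intro K k _ _ _ _ _ _ T c
  refine ⟨gorf_one T c, fun h => ?_, fun h => ?_⟩
  · refine acl_le (T := acl K T) subset_rfl (gorf_one _ c ((Set.finite_singleton c).subset ?_))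
    rintro _ ⟨τ, h1, rfl⟩
    exact h τ h1
  · have h1 := mem_acl.1 h
    rw [IntermediateField.adjoin_empty] at h1
    have h2 : IsAlgebraic K c := h1.ringHom_of_comp_eq
      (IntermediateField.botEquiv K k : (⊥ : IntermediateField K k) →+* K) (RingHom.id k)
      (RingHom.injective _) (by
        ext x
        obtain ⟨y, rfl⟩ := (IntermediateField.botEquiv K k).symm.surjective x
        simp)
    exact minpoly.mem_range_of_degree_eq_one K c
      (IsAlgClosed.degree_eq_one_of_irreducible K (minpoly.irreducible h2.isIntegral))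

end

section

open WithZero Module Finset
open Pool.Agent.P.MP_6f117a_ag (Place FF)
open Pool.Agent.P.MP_ab3ecb_nt.Inv
open Pool.Agent.P.MP_9344a7_nt.Gt (pt lS Pr Can Bd Ch G12)
open scoped Classical IntermediateField

/-- A separating family of linear forms: the space is spanned by vectors that are determined by
values `0` and `1`. -/
lemma gbc_dual {k V : Type} [Field k] [AddCommGroup V] [Module k V] [FiniteDimensional k V]
    (s : Set (V →ₗ[k] k)) (h : ∀ z ≠ 0, ∃ f ∈ s, f z ≠ 0) :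
    ∃ b ⊆ s, (∀ z z', (∀ f ∈ b, f z = f z') → z = z') ∧
      Submodule.span k {z | ∀ f ∈ b, f z = 0 ∨ f z = 1} = ⊤ := by
  obtain ⟨b, h1, h2, h3⟩ := exists_linearIndependent k s
  rw [Submodule.span_eq_top_of_ne_zero h] at h2
  let B : Basis b k (Dual k V) := Basis.mk h3 (by rw [Subtype.range_coe, h2])
  have hB : ∀ f : b, B f = f := fun f => Basis.mk_apply _ _ _
  have := B.finite_index_of_rank_lt_aleph0 (rank_lt_aleph0 k _)
  have : Finite b := this
  refine ⟨b, h1, fun z z' e => (evalEquiv k V).injective (B.ext fun f => ?_), ?_⟩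
  · rw [hB]
    exact e f f.2
  · rw [eq_top_iff, ← (B.dualBasis.map (evalEquiv k V).symm).span_eq]
    refine Submodule.span_mono ?_
    rintro _ ⟨i, rfl⟩ f hf
    have e : f ((B.dualBasis.map (evalEquiv k V).symm) i) = if (⟨f, hf⟩ : b) = i then 1 else 0 := by
      rw [Basis.map_apply, apply_evalEquiv_symm_apply, ← B.dualBasis_apply_self, hB]
    rw [e]
    split_ifs <;> simp

/-- The value at a place outside the support. -/
noncomputable def gbc_ev {k E : Type} [Field k] [IsAlgClosed k] [Field E] [Algebra k E] [FF k E]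
    (D : Dv k E) (Q : Place k E) (h : D Q = 0) : LS D →ₗ[k] k where
  toFun z := ev Q z
  map_add' x y := ev_add (Gt.le_one_of_LS x.2 h.le) (Gt.le_one_of_LS y.2 h.le)
  map_smul' c x := by
    rw [Submodule.coe_smul, Algebra.smul_def, ev_mul (Q.triv c) (Gt.le_one_of_LS x.2 h.le), ev_const]
    rfl

section

variable {K F k E : Type} [Field K] [IsAlgClosed K] [CharZero K] [Field F]
  [Algebra K F] [FF K F] [Field k] [IsAlgClosed k] [Algebra K k] [Field E] [Algebra k E] [FF k E]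
  (X : Ex K F k E)

lemma gbc_mem (D : Dv K F) (w : F) : X.j w ∈ LS (X.up D) ↔ w ∈ LS D := by
  rw [mem_LS, mem_LS]
  refine ⟨fun h P => by rw [← X.cl.ext_v, ← X.up_ext]; exact h _, fun h Q => ?_⟩
  rcases X.cl.all Q with ⟨P, rfl⟩ | ⟨y, rfl⟩
  · rw [X.cl.ext_v, X.up_ext]
    exact h P
  · rw [X.up_pl]
    exact X.cl.pl_le y w

lemma gbc_le (hGORF : S_GORF) {t : F} (ht : Transcendental K t) (D : Dv K F) :
    LS (X.up D) ≤ Submodule.span k (X.j '' LS D) := by
  have := R.rr_fd (X.up D)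
  have := (j_WA K F ⟨t, ht⟩).1
  obtain ⟨b, h1, h2, h3⟩ := gbc_dual
    {f | ∃ (P : Place K F) (h : X.up D (X.ext P) = 0), f = gbc_ev (X.up D) (X.ext P) h}
    fun z hz => by
      have z0 : (z : E) ≠ 0 := fun e => hz (Subtype.ext e)
      obtain ⟨P, hP⟩ := Infinite.exists_notMem_finset
        (D.support ∪ (dv k (z : E)).support.preimage X.ext X.cl.ext_inj.injOn)
      rw [mem_union, not_or, mem_preimage, Finsupp.notMem_support_iff, Finsupp.notMem_support_iff,
        dv_apply] at hP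
      exact ⟨_, ⟨P, by rw [X.up_ext, hP.1], rfl⟩, ev_ne_zero ((eq_one_iff z0).2 hP.2)⟩
  rw [← (LS (X.up D)).range_subtype, ← Submodule.map_top, ← h3, Submodule.map_span]
  refine Submodule.span_mono ?_
  rintro _ ⟨z, hz, rfl⟩
  obtain ⟨w, hw⟩ := j_FIXE K F k E X.j X.act X.ce
    (fun c hc => (hGORF K k ∅ c).2.2 ((hGORF K k ∅ c).2.1 fun τ _ => hc τ)) z fun τ => by
      have m : X.act τ z ∈ LS (X.up D) := by
        have := (X.ce.sa τ).mem_LS_dm.2 z.2
        rwa [show (X.ce.sa τ).dm (X.up D) = X.up D from X.cl.dm_map τ D] at this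
      refine congrArg Subtype.val (h2 ⟨_, m⟩ z fun f hf => ?_)
      have e := hz f hf
      obtain ⟨P, h, rfl⟩ := h1 hf
      have e' := (X.ce.sa τ).ev_pl (X.ext P) z
      rw [X.cl.sa_ext] at e'
      refine e'.trans ?_
      change τ (gbc_ev _ _ h z) = _
      rcases e with e | e <;> simp [e]
  exact ⟨w, (gbc_mem X D w).1 (hw ▸ z.2), hw⟩

end

theorem p_GBC (hGORF : S_GORF) :
    S_GBC := by
  intro K F k E _ _ _ _ _ _ _ _ _ _ _ _ X t ht D
  have e : LS (X.up D) = Submodule.span k (X.j '' LS D) :=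
    le_antisymm (gbc_le X hGORF ht D) (Submodule.span_le.2 (by
      rintro _ ⟨w, hw, rfl⟩
      exact (gbc_mem X D w).2 hw))
  refine ⟨e, ?_⟩
  have := R.rr_fd D
  let B := Module.finBasis K (LS D)
  have li := X.ce.lin _ _ (B.linearIndependent.map' (LS D).subtype (LS D).ker_subtype)
  have e2 : Submodule.span k (X.j '' LS D) =
      Submodule.span k (Set.range (X.j ∘ (LS D).subtype ∘ B)) := by
    refine le_antisymm (Submodule.span_le.2 ?_) (Submodule.span_mono ?_)
    · rintro _ ⟨w, hw, rfl⟩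
      have := congrArg (fun z : LS D => X.j z) (B.sum_repr ⟨w, hw⟩)
      simp only [Submodule.coe_sum, map_sum, Submodule.coe_smul, Algebra.smul_def, map_mul,
        X.ce.comm] at this
      rw [← this]
      refine Submodule.sum_mem _ fun i _ => ?_
      rw [← Algebra.smul_def]
      exact Submodule.smul_mem _ _ (Submodule.subset_span ⟨i, rfl⟩)
    · rintro _ ⟨i, rfl⟩
      exact ⟨_, (B i).2, rfl⟩
  rw [lS, lS, e, e2, finrank_span_eq_card li, Fintype.card_fin]

end

section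

open WithZero Module Finset
open Pool.Agent.P.MP_6f117a_ag (Place FF)
open Pool.Agent.P.MP_ab3ecb_nt.Inv
open Pool.Agent.P.MP_9344a7_nt.Gt (pt lS Pr Can Bd Ch G12)
open scoped Classical IntermediateField

theorem p_GBC2 (hGORF : S_GORF) (hGBC : S_GBC) :
    S_GBC2 := by
  intro n K F k E _ _ _ _ _ _ _ _ _ _ _ _ C X hn
  have hb := fun D => (hGBC K F k E X C.t C.ht D).2
  obtain ⟨O⟩ := (j_WA K F ⟨C.t, C.ht⟩).1.nonempty
  obtain ⟨g, hR⟩ := R.exists_RR (p_CEDEG K F k E X.j X.act X.ce C.t C.ht).1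
  obtain ⟨W, hW⟩ := hR.canonical (X.ext O)
  replace hW : Can g W := hW
  obtain rfl : g = n + 1 := by
    have d : deg ((2 * (g + n + 1)) • pt O) = 2 * (g + n + 1) := by
      rw [map_nsmul, deg_single]
      simp
    have a := C.can.big (D := (2 * (g + n + 1)) • pt O) (by rw [d]; push_cast; omega)
    have b := hW.big (D := X.up ((2 * (g + n + 1)) • pt O)) (by rw [X.deg_up, d]; omega)
    rw [hb, X.deg_up, a] at b
    omega
  have hc : Can (n + 1) (X.up C.W) := by
    have a := hW (X.up C.W)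
    rw [hb, X.deg_up, C.can.lS_W, C.can.deg_W] at a
    obtain ⟨z, z0, hz⟩ := (Gt.pr_of_lS (D := W - X.up C.W)
      (by rw [map_sub, X.deg_up, hW.deg_W, C.can.deg_W, sub_self]) (by omega)).neg
    have := hW.add_dv z0
    rwa [hz, neg_sub, add_sub_cancel] at this
  refine ⟨hc, fun ⟨P, Q, h⟩ => ?_⟩
  have G : Hy.GB ((X.up C.W : Dv k E) : Pic k E) (n + 1) := Hy.gb_all (fun x => by
    obtain ⟨D, rfl⟩ := QuotientAddGroup.mk_surjective x
    rw [← QuotientAddGroup.mk_sub, R.ll_mk, R.ll_mk]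
    exact hc D) n.succ_pos
  have d : R.dg ((pt P + pt Q : Dv k E) : Pic k E) = 2 := by
    rw [R.dg_mk, map_add, deg_single, deg_single]
    rfl
  have l : R.ll ((pt P + pt Q : Dv k E) : Pic k E) = 2 := by
    have a := Gt.lS_step (pt P + pt Q) Q
    have b := Gt.lS_pos (add_nonneg (Gt.pt_nonneg P) (Gt.pt_nonneg Q))
    rw [add_sub_cancel_right, hc.lS_pt n.succ_pos] at a
    rw [R.ll_mk]
    change lS _ = 2
    omega
  generalize ((pt P + pt Q : Dv k E) : Pic k E) = H at d l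
  obtain ⟨ι, Y⟩ := Hy.p_HY k E _ H _ G (by omega) d l
  have e := Y.cj (X.ext O)
  have f (τ : k ≃ₐ[K] k) : (X.ce.sa τ).pl (ι (X.ext O)) = ι (X.ext O) := by
    have a : R.ph (X.ce.sa τ) H = H := by_contra fun a => by
      have := Y.mid 1 (by omega) (R.ph (X.ce.sa τ) H) (by rw [R.dg_ph, d]; rfl)
        (by rwa [one_nsmul])
      rw [R.ll_ph] at this
      omega
    rw [← e, map_add, R.ph_cls, R.ph_cls, X.cl.sa_ext, add_right_inj] at a
    exact G.inj _ _ a
  rcases X.cl.all (ι (X.ext O)) with ⟨O', h'⟩ | ⟨y, h'⟩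
  · refine C.nh ⟨O, O', fun a => ?_⟩
    rw [← hb, map_add, X.up_pt, X.up_pt, ← h', lS, ← R.ll_mk, QuotientAddGroup.mk_add] at a
    exact absurd (a.symm.trans ((congrArg R.ll e).trans l)) (by omega)
  · obtain ⟨-, a, b⟩ := hGORF K k ∅ (y C.t)
    obtain ⟨c, hc⟩ := b (a fun τ _ => by
      have := f τ
      rw [h', X.cl.sa_pl] at this
      exact DFunLike.congr_fun (X.cl.pl_inj this) C.t)
    rw [← y.commutes] at hc
    exact C.ht (y.injective hc ▸ isAlgebraic_algebraMap c)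

end

section

open WithZero Module Finset
open Pool.Agent.P.MP_6f117a_ag (Place FF)
open Pool.Agent.P.MP_ab3ecb_nt.Inv
open Pool.Agent.P.MP_9344a7_nt.Gt (pt lS Pr Can Bd Ch G12)
open scoped Classical IntermediateField

lemma gdu_sum {K k ι : Type} [Field K] [Field k] [Algebra K k] (s : Finset ι)
    (f : ι → Derivation K k k) (c : k) : (∑ i ∈ s, f i) c = ∑ i ∈ s, f i c := by
  induction s using Finset.induction_on with
  | empty => simp
  | insert i s hi ih => rw [sum_insert hi, sum_insert hi, Derivation.add_apply, ih]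

theorem p_GDU :
    S_GDU := by
  intro K k _ _ _ _ _ _ ι _ x
  refine ⟨fun h => ?_, fun δ h => ⟨mt_indep.2 ⟨fun s s' e => ?_, ?_⟩, fun d c hc => ?_⟩,
    fun d T h c hc => mem_acl_of_der fun δ hδ => ?_⟩
  · have : ∀ s, ∃ δ : Derivation K k k, ∀ s', δ (x s') = if s = s' then 1 else 0 := fun s => by
      have h1 := (mt_indep.1 h).2.notMem_closure_sdiff_of_mem ⟨s, rfl⟩
      rw [← acl_eq] at h1
      obtain ⟨δ, h2⟩ := not_forall.1 (mt mem_acl_of_der h1)
      obtain ⟨h2, h3⟩ := Classical.not_imp.1 h2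
      refine ⟨(δ (x s))⁻¹ • δ, fun s' => ?_⟩
      rw [Derivation.smul_apply, smul_eq_mul]
      split_ifs with e
      · rw [← e, inv_mul_cancel₀ h3]
      · rw [h2 (x s') ⟨⟨s', rfl⟩, fun e' => e (h.injective e').symm⟩, mul_zero]
    exact Classical.skolem.1 this
  · have := h s s'
    rw [← e, h, if_pos rfl] at this
    exact by_contra fun e' => by simp [e'] at this
  · refine (Matroid.indep_iff_forall_notMem_closure_sdiff (Set.subset_univ _)).2 ?_
    rintro _ ⟨s, rfl⟩ hs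
    rw [← acl_eq] at hs
    have := der_acl (δ s) (by
      rintro _ ⟨⟨s', rfl⟩, e⟩
      rw [h, if_neg fun e' => e (congrArg x e'.symm)]) hs
    simp [h] at this
  · have := der_acl (d - ∑ s, d (x s) • δ s) (by
      rintro _ ⟨s, rfl⟩
      simp [gdu_sum, h]) hc
    simpa [gdu_sum, sub_eq_zero] using this
  · have := der_acl ⁅δ, d⁆ (fun t ht => by
      rw [Derivation.commutator_apply, hδ t ht, der_acl δ hδ (h t ht), map_zero, sub_zero]) hc
    rwa [Derivation.commutator_apply, der_acl δ hδ hc, map_zero, sub_zero] at this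

end

section

open WithZero Module Finset
open Pool.Agent.P.MP_6f117a_ag (Place FF)
open Pool.Agent.P.MP_ab3ecb_nt.Inv
open Pool.Agent.P.MP_9344a7_nt.Gt (pt lS Pr Can Bd Ch G12)
open scoped Classical IntermediateField

section

variable {n : ℕ} {K F k E : Type} [Field K] [IsAlgClosed K] [CharZero K] [Field F]
  [Algebra K F] [FF K F] [Field k] [IsAlgClosed k] [Algebra K k] [Field E] [Algebra k E] [FF k E]
  (C : Cd n K F) (X : Ex K F k E)

lemma gsec_span : Submodule.span K (Set.range C.e) = LS C.W := by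
  have := R.rr_fd C.W
  refine Submodule.eq_of_le_of_finrank_eq (Submodule.span_le.2 ?_) ?_
  · rintro _ ⟨m, rfl⟩
    exact C.mem m
  · rw [finrank_span_eq_card C.li, Fintype.card_fin]
    exact C.can.lS_W.symm

lemma gsec_mem (hGBC : S_GBC) (z : E) : z ∈ LS (X.up C.W) ↔ ∃ c, X.sec C c = z := by
  rw [(hGBC K F k E X C.t C.ht C.W).1, ← LinearMap.mem_range, Ex.sec,
    Fintype.range_linearCombination]
  refine ⟨fun h => Submodule.span_le.2 ?_ h, fun h => Submodule.span_mono ?_ h⟩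
  · rintro _ ⟨w, hw, rfl⟩
    rw [← gsec_span, SetLike.mem_coe, Submodule.mem_span_range_iff_exists_fun] at hw
    obtain ⟨a, rfl⟩ := hw
    rw [map_sum]
    refine Submodule.sum_mem _ fun i _ => ?_
    rw [Algebra.smul_def, map_mul, X.ce.comm, ← Algebra.smul_def]
    exact Submodule.smul_mem _ _ (Submodule.subset_span ⟨i, rfl⟩)
  · rintro _ ⟨i, rfl⟩
    exact ⟨_, C.mem i, rfl⟩

lemma gsec_inj : Function.Injective (X.sec C) :=
  linearIndependent_iff_injective_fintypeLinearCombination.1 (X.ce.lin _ _ C.li)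

lemma gsec_ev (c : Fin (n + 1) → k) (y : F →ₐ[K] k) :
    (X.pl y).v (X.sec C c) ≤ 1 ∧ ev (X.pl y) (X.sec C c) = c ⬝ᵥ C.co y := by
  have : (X.pl y).v (X.sec C c - algebraMap k E (c ⬝ᵥ C.co y)) < 1 := by
    rw [X.sec_eq, dotProduct, map_sum, ← sum_sub_distrib]
    refine (X.pl y).v.map_sum_lt one_ne_zero fun m _ => ?_
    rw [Algebra.smul_def, map_mul, ← mul_sub, map_mul]
    exact mul_lt_one_of_nonneg_of_lt_one_right ((X.pl y).triv _) zero_le (X.cl.pl_v y _)
  exact ⟨le_one_of_sub this, ev_eq this⟩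

lemma gsec_ne {c : Fin (n + 1) → k} (h : c ≠ 0) : X.sec C c ≠ 0 :=
  fun e => h (gsec_inj C X (e.trans (map_zero _).symm))

end

theorem p_GSEC (hGBC : S_GBC) :
    S_GSEC := by
  intro n K F k E _ _ _ _ _ _ _ _ _ _ _ _ C X _
  refine ⟨gsec_mem C X hGBC, gsec_inj C X, gsec_ev C X, fun c h => ⟨?_, ?_, fun y => ?_⟩,
    fun H h0 ⟨z, z0, hz⟩ => ?_, fun τ c y => ?_, fun a c y h => ?_⟩
  · exact (mem_LS' (gsec_ne C X h)).1 ((gsec_mem C X hGBC _).2 ⟨c, rfl⟩)
  · exact ⟨_, gsec_ne C X h, (add_sub_cancel_right _ _).symm⟩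
  · have := (le_one_iff (gsec_ne C X h)).1 (gsec_ev C X c y).1
    rw [← (gsec_ev C X c y).2, ev_eq_zero_iff (gsec_ev C X c y).1, lt_one_iff (gsec_ne C X h),
      Ex.zd, Finsupp.add_apply, X.up_pl, dv_apply]
    omega
  · obtain ⟨c, rfl⟩ := (gsec_mem C X hGBC z).1 ((mem_LS' z0).2 (by rwa [hz, sub_add_cancel]))
    exact ⟨c, fun e => z0 (by rw [e, map_zero]), by rw [Ex.zd, hz, sub_add_cancel]⟩
  · have e := (X.ce.sa τ).ev_pl (X.pl y) (X.sec C c / X.lp C.t y)
    rw [X.cl.sa_pl, CE.sa_s, CE.sa_s0, map_div₀] at e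
    rw [Ex.wt, Ex.wt, ← e]
    congr 2
    · simp only [X.sec_eq, map_sum, Algebra.smul_def, map_mul, X.ce.semi, X.ce.fixF,
        Function.comp_apply]
    · rw [Ex.lp, Ex.lp, map_sub, X.ce.semi, X.ce.fixF]
      rfl
  · have e : (X.pl y).v (X.sec C c / X.lp C.t y) ≤ 1 := by
      have h1 : ord (X.pl y) (X.lp C.t y) = 1 := X.cl.pl_ord y C.t C.ht
      have h2 : X.lp C.t y ≠ 0 := ne_zero_of_ord (by rw [h1]; exact one_ne_zero)
      rcases eq_or_ne (X.sec C c) 0 with e | e
      · simp [e]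
      have := (lt_one_iff e).1 ((ev_eq_zero_iff (gsec_ev C X c y).1).1 ((gsec_ev C X c y).2.trans h))
      rw [le_one_iff (div_ne_zero e h2), ord_div _ e h2]
      omega
    rw [Ex.wt, Ex.wt, map_smul, Algebra.smul_def, mul_div_assoc, ev_mul ((X.pl y).triv a) e,
      ev_const]

end

section

open WithZero Module Finset
open Pool.Agent.P.MP_6f117a_ag (Place FF)
open Pool.Agent.P.MP_ab3ecb_nt.Inv
open Pool.Agent.P.MP_9344a7_nt.Gt (pt lS Pr Can Bd Ch G12)
open scoped Classical IntermediateField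

section

variable {n : ℕ} {K F k E : Type} [Field K] [Field F] [Algebra K F] [Field k] [Algebra K k]
  [Field E] [Algebra k E]

lemma gds_br (X : Ex K F k E) (H : Dv k E) (Q : Place k E) :
    X.br H Q = H Q - if H Q ≠ 0 ∧ Q ∈ Set.range X.pl then 1 else 0 := by
  rw [Ex.br, Finsupp.sub_apply, Finsupp.finsetSum_apply]
  simp only [Finsupp.single_apply, sum_ite_eq', mem_filter, Finsupp.mem_support_iff]

lemma gds_dot (δ : Derivation K k k) (c x : Fin n → k) :
    δ (c ⬝ᵥ x) = c ⬝ᵥ (δ ∘ x) + (δ ∘ c) ⬝ᵥ x := by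
  simp only [dotProduct, map_sum, Derivation.leibniz, smul_eq_mul, Function.comp_apply,
    sum_add_distrib, mul_comm]

end

theorem p_GDS (hGSEC : S_GSEC) :
    S_GDS := by
  intro n K F k E _ _ _ _ _ _ _ _ _ _ _ _ C X hn
  obtain ⟨-, -, s1, s2, -⟩ := hGSEC n K F k E C X hn
  have inj := (hGSEC n K F k E C X hn).2.1
  have nz : ∀ c, c ≠ 0 → X.sec C c ≠ 0 := fun c h e => h (inj (e.trans (map_zero _).symm))
  have main : ∀ (δ : Derivation K k k) (c : Fin (n + 1) → k),
      (∀ P, (X.ext P).v (X.sec C (δ ∘ c)) ≤ (X.ext P).v (X.sec C c)) ∧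
      (∀ y, (X.pl y).v (X.sec C (δ ∘ c)) ≤ (X.pl y).v (X.sec C c) * exp 1 ∧
      (δ (y C.t) = 0 → (X.pl y).v (X.sec C (δ ∘ c)) ≤ (X.pl y).v (X.sec C c)) ∧
      (δ (y C.t) ≠ 0 → c ≠ 0 → c ⬝ᵥ C.co y = 0 →
        (X.pl y).v (X.sec C (δ ∘ c)) = (X.pl y).v (X.sec C c) * exp 1) ∧
      (c ⬝ᵥ C.co y = 0 → c ⬝ᵥ (δ ∘ C.co y) = δ (y C.t) * X.wt C c y)) := fun δ c => by
    obtain ⟨d, d1, d2⟩ := p_DER K F k E X.j X.act X.ce δ
    have hd : X.sec C (δ ∘ c) = d (X.sec C c) := by
      rw [Ex.sec_eq, Ex.sec_eq, map_sum]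
      refine sum_congr rfl fun m _ => ?_
      rw [Algebra.smul_def, Algebra.smul_def, d.leibniz, d1, d2, smul_zero, zero_add, smul_eq_mul,
        mul_comm, Function.comp_apply]
    have L := j_LOCD K F k E X.j X.act X.ce X.ext X.pl X.cl ⟨C.t, C.ht⟩ δ d d1 d2
    have le : ∀ (Q : Place k E) (a : ℤᵐ⁰), (∀ z, z ≠ 0 → Q.v (d z / z) ≤ a) →
        Q.v (d (X.sec C c)) ≤ Q.v (X.sec C c) * a := fun Q a h => by
      rcases eq_or_ne (X.sec C c) 0 with e | e
      · simp [e]
      · have := h _ e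
        rwa [map_div₀, div_le_iff₀ (zero_lt_iff.2 (v_ne Q e)), mul_comm] at this
    have kil : ∀ y : F →ₐ[K] k, Kil X.j δ (X.pl y) ↔ δ (y C.t) = 0 := fun y =>
      ⟨fun a => by simpa only [X.cl.ev_pl] using a C.t (X.cl.pl_le y C.t), fun a w _ => by
        rw [X.cl.ev_pl]
        exact der_acl (T := {y C.t}) δ (fun x hx => hx ▸ a)
          (emb_mem_acl C.ht y (subset_acl _ (Set.mem_singleton _)) w)⟩
    refine ⟨fun P => ?_, fun y => ⟨?_, fun a => ?_, fun a c0 h => ?_, fun h => ?_⟩⟩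
    · rw [hd]
      simpa using le _ 1 fun z hz => (L _ z hz).2.1 (.inl (X.cl.kil_ext δ P))
    · rw [hd]
      exact le _ _ fun z hz => (L _ z hz).1
    · rw [hd]
      simpa using le _ 1 fun z hz => (L _ z hz).2.1 (.inl ((kil y).2 a))
    · have h1 := ((s2 c c0).2.2 y).2 h
      rw [Ex.zd, Finsupp.add_apply, Ex.up_pl, add_zero, dv_apply] at h1
      have h2 := (L _ _ (nz c c0)).2.2 (mt (kil y).1 a) h1
      have h3 := (L (X.pl y) _ (nz c c0)).1
      have h4 : d (X.sec C c) / X.sec C c ≠ 0 := fun e => by simp [e] at h2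
      rw [v_eq _ h4, ← exp_zero, exp_lt_exp] at h2
      rw [v_eq _ h4, exp_le_exp] at h3
      have h5 : (X.pl y).v (d (X.sec C c) / X.sec C c) = exp 1 := by
        rw [v_eq _ h4, exp_inj]
        omega
      rw [hd, ← h5, ← map_mul, mul_div_cancel₀ _ (nz c c0)]
    · have h3 := X.cl.pl_ord y C.t C.ht
      have l0 : X.lp C.t y ≠ 0 := ne_zero_of_ord (P := X.pl y) (by rw [Ex.lp, h3]; omega)
      have l1 : (X.pl y).v (X.lp C.t y) = exp (-1) := (ord_eq_iff l0).1 h3
      have l2 : d (X.lp C.t y) = algebraMap k E (-δ (y C.t)) := by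
        rw [Ex.lp, map_sub, d1, d2, zero_sub, map_neg]
      have l3 : (X.pl y).v (X.lp C.t y) < 1 := by rw [l1, ← exp_zero, exp_lt_exp]; omega
      have z1 : (X.pl y).v (X.sec C c) < 1 := (ev_eq_zero_iff (s1 c y).1).1 ((s1 c y).2.trans h)
      have u1 : (X.pl y).v (X.sec C c / X.lp C.t y) ≤ 1 := by
        rcases eq_or_ne (X.sec C c) 0 with e | e
        · simp [e]
        · rw [le_one_iff (div_ne_zero e l0), ord_div _ e l0, Ex.lp, h3]
          have := (lt_one_iff e).1 z1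
          omega
      have u2 := locd_reg (fun c => d1 c ▸ (X.pl y).triv _) l1 (l2 ▸ (X.pl y).triv _) _ u1
      have e1 : d (X.sec C c) = X.lp C.t y * d (X.sec C c / X.lp C.t y) +
          X.sec C c / X.lp C.t y * algebraMap k E (-δ (y C.t)) := by
        rw [← l2, ← smul_eq_mul, ← smul_eq_mul, ← d.leibniz, mul_div_cancel₀ _ l0]
      have e2 := (s1 (δ ∘ c) y).2
      rw [hd, e1, ev_add (by rw [map_mul]; exact mul_le_one' l3.le u2)
        (by rw [map_mul]; exact mul_le_one' u1 ((X.pl y).triv _)), ev_mul l3.le u2,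
        ev_mul u1 ((X.pl y).triv _), ev_of_lt l3, ev_const] at e2
      have e3 := gds_dot δ c (C.co y)
      rw [h, map_zero, ← e2] at e3
      rw [Ex.wt]
      linear_combination -e3
  intro δ c
  refine ⟨(main δ c).1, (main δ c).2, fun c0 => mem_LS.2 fun Q => ?_, fun T c0 hc y h => ?_⟩
  · rw [Finsupp.sub_apply, gds_br]
    rcases X.cl.all Q with ⟨P, rfl⟩ | ⟨y, rfl⟩
    · rw [if_neg fun h => h.2.elim fun y e => X.cl.ne P y e.symm, Ex.zd, Finsupp.add_apply,
        dv_apply]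
      refine ((main δ c).1 P).trans_eq ((v_eq _ (nz c c0)).trans ?_)
      congr 1
      ring
    · split_ifs with h
      · refine ((main δ c).2 y).1.trans_eq ?_
        rw [Ex.zd, Finsupp.add_apply, dv_apply, v_eq _ (nz c c0), ← exp_add]
        congr 1
        ring
      · rw [Ex.up_pl, not_not.1 fun e => h ⟨e, y, rfl⟩]
        exact (s1 _ y).1
  · refine mem_acl_of_der fun δ hδ => by_contra fun a => ?_
    have h1 := ((main δ c).2 y).2.2.1 a c0 h
    rw [show δ ∘ c = 0 from funext fun m => der_acl δ hδ (hc m), map_zero, map_zero] at h1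
    exact mul_ne_zero (v_ne _ (nz c c0)) exp_ne_zero h1.symm

end

end Pool.Agent.P.MP_9344a7_nt.Ac
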