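import Pool.Agent.P.MP_9344a7_nt.Ac.IfaceG

/-! Steps GBR, GSB, GNS, GBPF, GGR, GRK, GEX. -/

set_option linter.unusedVariables false
set_option linter.unusedSectionVars false

namespace Pool.Agent.P.MP_9344a7_nt.Ac

section

open WithZero Module Finset
open Pool.Agent.P.MP_6f117a_ag (Place FF)
open Pool.Agent.P.MP_ab3ecb_nt.Inv
open Pool.Agent.P.MP_9344a7_nt.Gt (pt lS Pr Can Bd Ch G12)
open scoped Classical IntermediateField

section

variable {K F k E : Type} [Field K] [Field F] [Algebra K F] [Field k] [Algebra K k]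
  [Field E] [Algebra k E]

lemma gbr_ap (X : Ex K F k E) (H : Dv k E) (Y : Place k E) :
    X.br H Y = H Y - if H Y ≠ 0 ∧ Y ∈ Set.range X.pl then 1 else 0 := by
  rw [Ex.br, Finsupp.sub_apply, Finsupp.finsetSum_apply]
  simp only [Finsupp.single_apply, sum_ite_eq', mem_filter, Finsupp.mem_support_iff]

lemma gbr_cnt {ι : Type} [Fintype ι] (Q : ι → Place k E) (Y : Place k E) :
    (∑ i, pt (Q i)) Y = #{i | Q i = Y} := by
  rw [Finsupp.finsetSum_apply]
  simp only [Finsupp.single_apply, sum_boole]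

lemma gbr_eff (m : ℕ) : ∀ D : Dv k E, 0 ≤ D → deg D = m →
    ∃ Q : Fin m → Place k E, D = ∑ i, pt (Q i) := by
  induction m with
  | zero => exact fun D h e => ⟨Fin.elim0, by simpa using eq_zero_of_deg h (by simpa using e)⟩
  | succ m ih =>
    intro D h e
    obtain ⟨P, hP⟩ : ∃ P, D P ≠ 0 := by
      by_contra! c
      rw [show D = 0 from Finsupp.ext c, map_zero] at e
      omega
    obtain ⟨Q, hQ⟩ := ih (D - pt P) (fun Y => by
      have := h Y
      have := h P
      simp only [Finsupp.coe_zero, Pi.zero_apply, Finsupp.sub_apply, Finsupp.single_apply] at *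
      split_ifs with c
      · subst c
        omega
      · omega) (by rw [map_sub, deg_single]; push_cast at e; omega)
    exact ⟨Fin.cons P Q, by simp [Fin.sum_univ_succ, ← hQ]⟩

lemma gbr_pos (X : Ex K F k E) {H : Dv k E} (h : 0 ≤ H) : 0 ≤ X.br H := fun Y => by
  have := h Y
  simp only [Finsupp.coe_zero, Pi.zero_apply, gbr_ap] at *
  split_ifs with c
  · have := c.1
    omega
  · omega

lemma gbr_one (X : Ex K F k E) {ι : Type} [Fintype ι] (Q : ι → Place k E) (i : ι)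
    (h : X.br (∑ j, pt (Q j)) (Q i) = 0) : Q i ∈ Set.range X.pl ∧ ∀ j, Q j = Q i → j = i := by
  rw [gbr_ap, gbr_cnt] at h
  have m : i ∈ ({j | Q j = Q i} : Finset ι) := by simp
  have := card_pos.2 ⟨i, m⟩
  split_ifs at h with c
  · exact ⟨c.2, fun j hj => card_le_one.1 (by omega) j (by simpa using hj) i m⟩
  · omega

end

theorem p_GBR :
    S_GBR := by
  intro K F k E _ _ _ _ _ _ _ _ _ _ _ _ X t _
  refine ⟨fun H h => ⟨gbr_pos X h, sub_le_self _ (Gt.sum_pt_nonneg _ _), ?_⟩,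
    fun m φ D' h e h0 => ?_, fun ι _ Q a b hab e h => ?_⟩
  · rw [Ex.br, map_sub, Gt.deg_sum_pt (U := fun Q => Q), sub_add_cancel]
  · obtain ⟨Q, rfl⟩ := gbr_eff m D' h e
    have s : X.gs φ + ∑ i, pt (Q i) = ∑ i, pt (Sum.elim (X.pl ∘ φ) Q i) := by
      rw [Fintype.sum_sum_type]
      rfl
    have o := fun i => gbr_one X (Sum.elim (X.pl ∘ φ) Q) i (by rw [← s, h0]; rfl)
    choose y hy using fun i => (o (.inr i)).1
    have q : ∀ i, X.pl (Sum.elim φ y i) = Sum.elim (X.pl ∘ φ) Q i := by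
      rintro (i | i)
      exacts [rfl, hy i]
    refine ⟨Sum.elim φ y, fun i j c => (o j).2 i (by rw [← q, ← q, c]), rfl,
      sum_congr rfl fun i _ => congrArg pt (hy i), ?_⟩
    rw [s]
    exact sum_congr rfl fun i _ => congrArg pt (q i)
  · have p := gbr_pos X (Gt.sum_pt_nonneg univ Q)
    have s : ({a, b} : Finset ι) ⊆ ({j | Q j = Q a} : Finset ι) := by
      intro j
      simp only [mem_insert, mem_singleton, mem_filter, mem_univ, true_and]
      rintro (rfl | rfl)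
      exacts [rfl, e.symm]
    have c2 := card_le_card s
    rw [card_pair hab] at c2
    have v := gbr_ap X (∑ i, pt (Q i)) (Q a)
    rw [gbr_cnt] at v
    have d : ∀ T : Finset (Place k E), ∑ Y ∈ T, X.br (∑ i, pt (Q i)) Y ≤ 1 := fun T => by
      refine le_trans ?_ h
      rw [deg_eq_of_subset (subset_union_right (s₁ := T))]
      exact sum_le_sum_of_subset_of_nonneg subset_union_left fun Y _ _ => p Y
    have d1 := d {Q a}
    rw [sum_singleton] at d1
    have o : ∀ i, Q i ≠ Q a → _ := fun i hi => gbr_one X Q i (by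
      have := d {Q i, Q a}
      have p1 : 0 ≤ X.br (∑ i, pt (Q i)) (Q i) := p _
      rw [sum_pair hi] at this
      split_ifs at v <;> omega)
    have r : Q a ∈ Set.range X.pl ∧ #{j | Q j = Q a} ≤ #({a, b} : Finset ι) := by
      rw [card_pair hab]
      split_ifs at v with c
      · exact ⟨c.2, by omega⟩
      · omega
    have s' := eq_of_subset_of_card_le s r.2
    refine ⟨fun i => ?_, fun i i' c => ?_⟩
    · by_cases hi : Q i = Q a
      exacts [hi ▸ r.1, (o i hi).1]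
    · by_cases hi : Q i = Q a
      · have m1 : i ∈ ({a, b} : Finset ι) := by rw [s']; simpa using hi
        have m2 : i' ∈ ({a, b} : Finset ι) := by rw [s']; simpa using c ▸ hi
        simp only [mem_insert, mem_singleton] at m1 m2
        rcases m1 with rfl | rfl <;> rcases m2 with rfl | rfl <;> simp
      · exact .inl ((o i hi).2 i' c.symm).symm

end

section

open WithZero Module Finset
open Pool.Agent.P.MP_6f117a_ag (Place FF)
open Pool.Agent.P.MP_ab3ecb_nt.Inv
open Pool.Agent.P.MP_9344a7_nt.Gt (pt lS Pr Can Bd Ch G12)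
open scoped Classical IntermediateField

lemma gsb_pt {k E : Type} [Field k] [Field E] [Algebra k E] {D : Dv k E} (h : 0 ≤ D)
    (h1 : D ≠ 0) : ∃ P, pt P ≤ D := by
  obtain ⟨P, hP⟩ := Finsupp.ne_iff.1 h1
  refine ⟨P, fun Q => ?_⟩
  rcases eq_or_ne Q P with rfl | e
  · rw [Finsupp.single_eq_same]
    exact lt_of_le_of_ne (h Q) hP.symm
  · rw [Gt.pt_ne e]
    exact h Q

theorem p_GSB (hGDU : S_GDU) (hGBC2 : S_GBC2) (hGSEC : S_GSEC) (hGDS : S_GDS) (hGBR : S_GBR) :
    S_GSB := by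
  intro n K F k E _ _ _ _ _ _ _ _ _ _ _ _ C X hn ι _ φ H hφ hH hp
  obtain ⟨can, nh⟩ := hGBC2 n K F k E C X hn
  obtain ⟨-, inj, -, s4, s5, -⟩ := hGSEC n K F k E C X hn
  have g0 : 0 ≤ X.gs φ := Gt.sum_pt_nonneg _ _
  have H0 := g0.trans hH
  obtain ⟨c, c0, rfl⟩ := s5 H H0 hp
  obtain ⟨δ, hδ⟩ := (hGDU K k ι _).1 hφ
  obtain ⟨b0, b1, -⟩ := (hGBR K F k E X C.t C.ht).1 _ H0
  have z0 : X.sec C c ≠ 0 := fun e => c0 (inj (e.trans (map_zero _).symm))
  have key : Fintype.card ι + 1 ≤ lS (X.up C.W - X.br (X.zd C c)) := by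
    have := R.rr_fd (X.up C.W - X.br (X.zd C c))
    let f : Option ι → LS (X.up C.W - X.br (X.zd C c)) := fun o => o.elim
      ⟨X.sec C c, (mem_LS' z0).2 (by rw [← add_sub_assoc]; exact sub_nonneg.2 b1)⟩
      fun i => ⟨X.sec C (δ i ∘ c), (hGDS n K F k E C X hn (δ i) c).2.2.1 c0⟩
    rw [← Fintype.card_option]
    refine LinearIndependent.fintype_card_le_finrank (b := f) (Fintype.linearIndependent_iff.2 ?_)
    intro g hg
    replace hg : g none • X.sec C c + ∑ i, g (some i) • X.sec C (δ i ∘ c) = 0 := by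
      simpa [f, Fintype.sum_option] using congrArg Subtype.val hg
    have h1 : ∀ i, g (some i) = 0 := fun i => by
      by_contra e
      have hc : c ⬝ᵥ C.co (φ i) = 0 := ((s4 c c0).2.2 _).1 fun e' => by
        have h2 := hH (X.pl (φ i))
        have h3 := Gt.sum_pt_eq_zero.1 (le_antisymm (e' ▸ h2) (g0 _)) i
        exact h3 rfl
      have h4 := ((hGDS n K F k E C X hn (δ i) c).2.1 (φ i)).2.2.1 (by simp [hδ]) c0 hc
      have h5 : g (some i) • X.sec C (δ i ∘ c) ∈ (X.pl (φ i)).le (-ord (X.pl (φ i)) (X.sec C c)) := by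
        rw [← add_sum_erase _ _ (mem_univ i), add_left_comm, add_eq_zero_iff_eq_neg] at hg
        rw [hg]
        refine neg_mem (add_mem (Submodule.smul_mem _ _ (v_eq _ z0).le)
          (sum_mem fun j hj => Submodule.smul_mem _ _ ?_))
        exact (((hGDS n K F k E C X hn (δ j) c).2.1 (φ i)).2.1
          (by simp [hδ, (mem_erase.1 hj).1])).trans (v_eq _ z0).le
      have h6 : (X.pl (φ i)).v (X.sec C (δ i ∘ c)) ≤ exp _ := (Submodule.smul_mem_iff _ e).1 h5
      rw [h4, v_eq _ z0, ← exp_add, exp_le_exp] at h6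
      omega
    have h2 : g none = 0 := by simpa [h1, z0] using hg
    rintro (_ | i)
    exacts [h2, h1 i]
  refine ⟨key, fun h => by_contra fun e => ?_, fun h => by_contra fun e => ?_⟩
  · obtain ⟨P, hP⟩ := gsb_pt b0 e
    have h1 := Gt.lS_mono (sub_le_sub_left hP (X.up C.W))
    have h2 := can (pt P)
    rw [can.lS_pt n.succ_pos, deg_single] at h2
    omega
  · obtain ⟨P, hP⟩ := gsb_pt b0 fun e' => e (by simp [e'])
    obtain ⟨Q, hQ⟩ := gsb_pt (sub_nonneg.2 hP) fun e' => e (by simp [sub_eq_zero.1 e'])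
    have h1 := Gt.lS_mono (sub_le_sub_left (le_sub_iff_add_le'.1 hQ) (X.up C.W))
    have h2 := can (pt P + pt Q)
    rw [not_not.1 fun e' => nh ⟨P, Q, e'⟩, map_add, deg_single, deg_single] at h2
    omega

end

section

open WithZero Module Finset
open Pool.Agent.P.MP_6f117a_ag (Place FF)
open Pool.Agent.P.MP_ab3ecb_nt.Inv
open Pool.Agent.P.MP_9344a7_nt.Gt (pt lS Pr Can Bd Ch G12)
open scoped Classical IntermediateField

theorem p_GNS (hGBC2 : S_GBC2) (hGSEC : S_GSEC) :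
    S_GNS := by
  intro n K F k E _ _ _ _ _ _ _ _ _ _ _ _ C X hn ι _ y
  have can := (hGBC2 n K F k E C X hn).1
  obtain ⟨s1, s2, s3, -⟩ := hGSEC n K F k E C X hn
  refine ⟨fun hy hc => ?_, fun hy => ?_⟩
  · have ht : ∃ t : E, Transcendental k t := ⟨_, (p_CEDEG K F k E _ _ X.ce C.t C.ht).1⟩
    obtain ⟨g, R⟩ := p_RR k E ht
    obtain ⟨c, hb⟩ := R.big
    obtain ⟨P⟩ := (j_WA k E ht).1.nonempty
    have h1 := hb (Finsupp.single P (max c (2 * (n + 1 : ℕ) - 1))) (by simp)
    have h2 := can.big (D := Finsupp.single P (max c (2 * (n + 1 : ℕ) - 1))) (by simp)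
    rw [lS, h1] at h2
    have h3 := j_NS K F k E _ _ X.ce _ _ X.cl C.t C.ht g R _ (by omega)
      (y ∘ (Fintype.equivFin ι).symm) (hy.comp _ (Equiv.injective _))
    rwa [gD, show ∑ i, Finsupp.single (X.pl ((y ∘ (Fintype.equivFin ι).symm) i)) 1 = X.gs y from
      (Fintype.equivFin ι).symm.sum_comp fun i => pt (X.pl (y i))] at h3
  · set A : Matrix ι (Fin (n + 1)) k := Matrix.of fun i => C.co (y i)
    have h0 : ∀ c, c ∈ LinearMap.ker A.mulVecLin ↔ ∀ i, (X.pl (y i)).v (X.sec C c) < 1 :=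
      fun c => by
        rw [LinearMap.mem_ker, funext_iff]
        exact forall_congr' fun i => by
          rw [← ev_eq_zero_iff (s3 c _).1, (s3 c _).2, dotProduct_comm]; rfl
    have h1 : LS (X.up C.W - X.gs y) = (LinearMap.ker A.mulVecLin).map (X.sec C) := by
      ext z
      refine ⟨fun hz => ?_, ?_⟩
      · obtain ⟨c, rfl⟩ := (s1 z).1 (LS_mono (sub_le_self _ (Gt.sum_pt_nonneg _ _)) hz)
        refine ⟨c, (h0 c).2 fun i => (mem_LS.1 hz _).trans_lt ?_, rfl⟩
        rw [Finsupp.sub_apply, X.up_pl, Ex.gs,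
          Gt.sum_pt_self (U := fun i => X.pl (y i)) (X.cl.pl_inj.comp hy), ← exp_zero, exp_lt_exp]
        decide
      · rintro ⟨c, hc, rfl⟩
        exact Gt.zer (X.cl.pl_inj.comp hy) ((s1 _).2 ⟨c, rfl⟩) fun i => by
          simpa using (h0 c).1 hc i
    have h2 := can (X.gs y)
    have h3 := A.mulVecLin.finrank_range_add_finrank_ker
    have h4 := A.rank_eq_finrank_span_row
    rw [Ex.gs, Gt.deg_sum_pt, ← Ex.gs, lS.eq_1 (_ - _), h1,
      ← (Submodule.equivMapOfInjective _ s2 _).finrank_eq, card_univ] at h2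
    rw [finrank_fin_fun, ← Matrix.rank, h4] at h3
    rw [linearIndependent_iff_card_eq_finrank_span]
    change _ ↔ _ = finrank k (Submodule.span k (Set.range A.row))
    omega

end

section

open WithZero Module Finset
open Pool.Agent.P.MP_6f117a_ag (Place FF)
open Pool.Agent.P.MP_ab3ecb_nt.Inv
open Pool.Agent.P.MP_9344a7_nt.Gt (pt lS Pr Can Bd Ch G12)
open scoped Classical IntermediateField

section

variable {K F k E : Type} [Field K] [Field F] [Algebra K F] [Field k] [Algebra K k] [Field E]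
  [Algebra k E] (X : Ex K F k E)

lemma gbpf_br (H : Dv k E) (Q : Place k E) :
    X.br H Q = H Q - if H Q ≠ 0 ∧ Q ∈ Set.range X.pl then 1 else 0 := by
  rw [Ex.br, Finsupp.sub_apply, Finsupp.finsetSum_apply]
  simp only [Finsupp.single_apply, sum_ite_eq', mem_filter, Finsupp.mem_support_iff]

lemma gbpf_ge (H : Dv k E) (Q : Place k E) : H Q - 1 ≤ X.br H Q := by
  rw [gbpf_br]
  split_ifs <;> omega

lemma gbpf_ext (H : Dv k E) (P : Place K F) : X.br H (X.ext P) = H (X.ext P) := by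
  rw [gbpf_br, if_neg fun ⟨_, y, h⟩ => X.cl.ne P y h.symm, sub_zero]

lemma gbpf_two {B : Dv k E} (h : 0 ≤ B) {P Q : Place k E} (e : P ≠ Q) : B P + B Q ≤ deg B := by
  rw [deg_eq_of_subset (S := B.support ∪ {P, Q}) subset_union_left, ← sum_pair e]
  exact sum_le_sum_of_subset_of_nonneg subset_union_right fun Z _ _ => h Z

lemma gbpf_one {B : Dv k E} (h : 0 ≤ B) (P : Place k E) : B P ≤ deg B := by
  rw [deg_eq_of_subset (S := insert P B.support) (subset_insert _ _)]
  exact single_le_sum (fun Z _ => h Z) (mem_insert_self _ _)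

end

theorem p_GBPF (hGORF : S_GORF) (hGDU : S_GDU) (hGBC2 : S_GBC2) (hGSEC : S_GSEC) (hGNS : S_GNS) (hGDS : S_GDS) (hGSB : S_GSB) (hGBR : S_GBR) :
    S_GBPF := by
  intro n K F k E _ _ _ _ _ _ _ _ _ _ _ _ C X hn ι _ φ hφ hc P
  by_contra hne
  have can := (hGBC2 n K F k E C X hn).1
  obtain ⟨s1, s2, s3, s4, -⟩ := hGSEC n K F k E C X hn
  have hR := (hGNS n K F k E C X hn ι φ).1 hφ (by omega)
  have hinj : Function.Injective fun i => X.pl (φ i) := fun i j h =>
    hφ.injective (by simp only [X.cl.pl_inj h])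
  have R0 : 0 ≤ X.gs φ := Gt.sum_pt_nonneg _ _
  have dR : deg (X.gs φ) = Fintype.card ι := Gt.deg_sum_pt _ _
  have h1 := can (X.gs φ)
  have h2 := can (X.gs φ + pt P)
  have h3 := Gt.lS_mono (le_add_of_nonneg_right (a := X.gs φ) (Gt.pt_nonneg P))
  rw [map_add, deg_single, ← sub_sub] at h2
  have hb : ∀ z ∈ LS (X.up C.W - X.gs φ), z ∈ LS (X.up C.W - X.gs φ - pt P) := fun z hz => by
    by_contra h
    have := Gt.lS_lt (sub_le_self _ (Gt.pt_nonneg P)) hz h
    omega
  have key : ∀ Q, ∃ c, c ≠ 0 ∧ X.sec C c ≠ 0 ∧ X.sec C c ∈ LS (X.up C.W - X.gs φ - pt P - pt Q) ∧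
      (∀ Z, X.gs φ Z + pt P Z + pt Q Z ≤ X.zd C c Z) ∧ 0 ≤ X.br (X.zd C c) ∧
      deg (X.br (X.zd C c)) ≤ 1 := fun Q => by
    have h4 := Gt.lS_step (X.up C.W - X.gs φ - pt P) Q
    obtain ⟨z, hz, z0⟩ : ∃ z ∈ LS (X.up C.W - X.gs φ - pt P - pt Q), z ≠ 0 := by
      simpa [Gt.lS_eq_zero] using (by omega : lS (X.up C.W - X.gs φ - pt P - pt Q) ≠ 0)
    obtain ⟨c, rfl⟩ := (s1 z).1 (LS_mono ((sub_le_self _ (Gt.pt_nonneg Q)).trans
      ((sub_le_self _ (Gt.pt_nonneg P)).trans (sub_le_self _ R0))) hz)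
    have c0 : c ≠ 0 := fun h => z0 (by rw [h, map_zero])
    have h5 : ∀ Z, X.gs φ Z + pt P Z + pt Q Z ≤ X.zd C c Z := fun Z => by
      have := (mem_LS' z0).1 hz Z
      simp only [Finsupp.add_apply, Finsupp.sub_apply, Finsupp.zero_apply, Ex.zd] at this ⊢
      omega
    refine ⟨c, c0, z0, hz, h5, ((hGBR K F k E X C.t C.ht).1 _ (s4 c c0).1).1,
      (hGSB n K F k E C X hn ι φ _ hφ (fun Z => ?_) (s4 c c0).2.1).2.2 hc⟩
    have a1 : (0 : ℤ) ≤ pt P Z := Gt.pt_nonneg P Z
    have a2 : (0 : ℤ) ≤ pt Q Z := Gt.pt_nonneg Q Z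
    have := h5 Z
    omega
  have R1 : ∀ i, X.gs φ (X.pl (φ i)) = 1 := Gt.sum_pt_self hinj
  have self : X.br (X.zd C (key P).choose) P ≤ 1 ∧ X.gs φ P + 2 ≤ X.zd C (key P).choose P := by
    obtain ⟨-, -, -, a1, a2, a3⟩ := (key P).choose_spec
    have := a1 P
    rw [Finsupp.single_eq_same] at this
    exact ⟨(gbpf_one a2 P).trans a3, by omega⟩
  rcases X.cl.all P with ⟨P0, rfl⟩ | ⟨y0, rfl⟩
  · have : (0 : ℤ) ≤ X.gs φ (X.ext P0) := R0 _
    rw [gbpf_ext] at self
    omega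
  have hy : ∀ i, X.pl (φ i) ≠ X.pl y0 := fun i h => by
    have a1 := gbpf_ge X (X.zd C (key (X.pl y0)).choose) (X.pl y0)
    have a2 := h ▸ R1 i
    omega
  obtain ⟨d1, d2, -⟩ := hGDU K k ι fun i => φ i C.t
  obtain ⟨δ, hδ⟩ := d1 hφ
  have kill : ∀ i, δ i (y0 C.t) = 0 := fun i => by
    by_contra h0
    obtain ⟨c, c0, z0, hz, a1, a2, a3⟩ := key (X.pl (φ i))
    obtain ⟨b1, b2, -⟩ := hGDS n K F k E C X hn (δ i) c
    have e1 := a1 (X.pl (φ i))
    have e2 := a1 (X.pl y0)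
    have e3 := gbpf_two a2 (hy i)
    have e4 := gbpf_ge X (X.zd C c) (X.pl (φ i))
    have e5 := gbpf_ge X (X.zd C c) (X.pl y0)
    have e6 : X.gs φ (X.pl y0) = 0 := Gt.sum_pt_eq_zero.2 hy
    rw [R1, Gt.pt_ne (hy i), Finsupp.single_eq_same] at e1
    rw [e6, Gt.pt_ne (hy i).symm, Finsupp.single_eq_same] at e2
    have e7 : X.zd C c (X.pl y0) = 1 := by omega
    have hz' := mem_LS.1 (LS_mono ((sub_le_self _ (Gt.pt_nonneg _)).trans
      (sub_le_self _ (Gt.pt_nonneg _))) hz)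
    have m := mem_LS.1 (hb (X.sec C (δ i ∘ c)) (mem_LS.2 fun Z => by
      rcases X.cl.all Z with ⟨P', rfl⟩ | ⟨y, rfl⟩
      · exact (b1 P').trans (hz' _)
      by_cases e : ∃ j, φ j = y
      · obtain ⟨j, rfl⟩ := e
        rcases eq_or_ne i j with rfl | e
        · refine (b2 _).1.trans ((mul_le_mul_left (mem_LS.1 hz _) _).trans_eq ?_)
          rw [← exp_add, Finsupp.sub_apply, Finsupp.sub_apply, Finsupp.single_eq_same,
            Gt.pt_ne (hy i), sub_zero, sub_add_cancel]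
        · exact ((b2 _).2.1 (by rw [hδ, if_neg e])).trans (hz' _)
      · rw [Finsupp.sub_apply, Ex.up_pl, Ex.gs, Gt.sum_pt_eq_zero.2 fun j h =>
          e ⟨j, X.cl.pl_inj h⟩]
        exact (s3 _ y).1)) (X.pl y0)
    rw [(b2 y0).2.2.1 h0 c0 (((s4 c c0).2.2 y0).1 (by omega)), v_eq _ z0, ← exp_add, exp_le_exp,
      Finsupp.sub_apply, Finsupp.sub_apply, Ex.up_pl, e6, Finsupp.single_eq_same] at m
    rw [Ex.zd, Finsupp.add_apply, Ex.up_pl, dv_apply] at e7
    omega
  by_cases ha : y0 C.t ∈ acl K (Set.range fun i => φ i C.t)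
  · obtain ⟨a, h⟩ := (hGORF K k ∅ (y0 C.t)).2.2 (mem_acl_of_der fun d _ => by
      simp [(d2 δ hδ).2 d _ ha, kill])
    rw [← y0.commutes] at h
    exact C.ht (y0.injective h ▸ isAlgebraic_algebraMap a)
  · have h4 := (hGNS n K F k E C X hn (Option ι) fun o => o.elim y0 φ).1 (by
      convert AlgebraicIndependent.option_iff.2 ⟨hφ, fun h => ha (mem_acl.2
        (IntermediateField.isAlgebraic_adjoin_iff.2 h))⟩ using 2 with o
      cases o <;> rfl) (by rw [Fintype.card_option]; omega)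
    rw [Ex.gs, Fintype.sum_option, add_comm] at h4
    exact hne h4

end

section

open WithZero Module Finset
open Pool.Agent.P.MP_6f117a_ag (Place FF)
open Pool.Agent.P.MP_ab3ecb_nt.Inv
open Pool.Agent.P.MP_9344a7_nt.Gt (pt lS Pr Can Bd Ch G12)
open scoped Classical IntermediateField

theorem p_GGR (hGBC2 : S_GBC2) (hGSB : S_GSB) (hGBR : S_GBR) (hGBPF : S_GBPF) :
    S_GGR := by
  intro n K F k E _ _ _ _ _ _ _ _ _ _ _ _ C X hn ι _ φ hφ hc P
  refine ⟨hGBPF n K F k E C X hn ι φ hφ hc, fun H h1 h2 => ?_⟩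
  have h0 : 0 ≤ H := (Gt.sum_pt_nonneg _ _).trans h1
  have a := (hGSB n K F k E C X hn ι φ H hφ h1 h2).2.2 hc
  have b := ((hGBR K F k E X C.t C.ht).1 H h0).2.2
  have c := R.Prin.deg_eq h2
  have d := (hGBC2 n K F k E C X hn).1.deg_W
  have e := card_filter_le H.support (· ∈ Set.range X.pl)
  refine ⟨by omega, fun h => ?_⟩
  have := card_lt_card (filter_ssubset.2 ⟨X.ext P, Finsupp.mem_support_iff.2 h,
    fun ⟨y, hy⟩ => X.cl.ne P y hy.symm⟩ : {Q ∈ H.support | Q ∈ Set.range X.pl} ⊂ H.support)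
  omega

end

section

open WithZero Module Finset
open Pool.Agent.P.MP_6f117a_ag (Place FF)
open Pool.Agent.P.MP_ab3ecb_nt.Inv
open Pool.Agent.P.MP_9344a7_nt.Gt (pt lS Pr Can Bd Ch G12)
open scoped Classical IntermediateField

section

variable {K k : Type} [Field K] [Field k] [Algebra K k]

lemma grk_E : (Mt K k).E = Set.univ := rfl

lemma grk_key {ι κ : Type} [Fintype ι] [Fintype κ] (x : ι → k) (z : κ → k)
    (hx : AlgebraicIndependent K x) (h : ∀ i, x i ∈ acl K (Set.range z)) :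
    Fintype.card ι ≤ Fintype.card κ ∧ (Fintype.card κ ≤ Fintype.card ι →
      AlgebraicIndependent K z ∧ ∀ j, z j ∈ acl K (Set.range x)) := by
  obtain ⟨hi, hI⟩ := mt_indep.1 hx
  have hs : Set.range x ⊆ (Mt K k).closure (Set.range z) := by
    rw [← acl_eq]
    rintro _ ⟨i, rfl⟩
    exact h i
  have e1 : (Set.range x).encard = (Fintype.card ι : ℕ∞) := by
    rw [← Set.image_univ, hi.encard_image, Set.encard_univ, ENat.card_eq_coe_fintype_card]
  have e2 : (Set.range x).encard ≤ (Mt K k).eRk (Set.range z) := by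
    rw [← Matroid.eRk_closure_eq]
    exact hI.encard_le_eRk_of_subset hs
  have e3 : (Set.range z).encard ≤ (Fintype.card κ : ℕ∞) := by
    rw [← Set.image_univ, ← ENat.card_eq_coe_fintype_card, ← Set.encard_univ]
    exact Set.encard_image_le _ _
  have e4 := (Mt K k).eRk_le_encard (Set.range z)
  refine ⟨by exact_mod_cast e1.symm.le.trans (e2.trans (e4.trans e3)), fun hc => ?_⟩
  have hc' : (Fintype.card κ : ℕ∞) ≤ (Set.range x).encard := by
    rw [e1]
    exact_mod_cast hc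
  have hf : (Set.range z).Finite := Set.finite_range z
  have hz : (Mt K k).Indep (Set.range z) :=
    ((Mt K k).indep_iff_eRk_eq_encard_of_finite hf).2 (le_antisymm e4 (e3.trans (hc'.trans e2)))
  have hj : Function.Injective z := by
    rw [← Set.injOn_univ]
    refine Set.Finite.injOn_of_encard_image_eq Set.finite_univ ?_
    rw [Set.image_univ, Set.encard_univ, ENat.card_eq_coe_fintype_card]
    exact le_antisymm e3 (hc'.trans (e2.trans e4))
  refine ⟨mt_indep.2 ⟨hj, hz⟩, fun j => ?_⟩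
  have e5 : (Mt K k).closure (Set.range x) = (Mt K k).closure ((Mt K k).closure (Set.range z)) := by
    refine ((Mt K k).isRkFinite_of_finite (Set.finite_range x)).closure_eq_closure_of_subset_of_eRk_ge_eRk
      hs ?_
    rw [Matroid.eRk_closure_eq, hI.eRk_eq_encard]
    exact e4.trans (e3.trans hc')
  rw [← SetLike.mem_coe, acl_eq, e5, Matroid.closure_closure, ← acl_eq]
  exact subset_acl _ ⟨j, rfl⟩

/-- An independent family inside the closure of a finite independent family extends to a basis. -/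
lemma grk_ext {ι κ : Type} [Fintype ι] (x : ι → k) (z : κ → k)
    (hz : AlgebraicIndependent K z) (h : ∀ i, z i ∈ acl K (Set.range x)) :
    ∃ (B : Set k) (_ : Fintype B), Fintype.card B ≤ Fintype.card ι ∧ (∀ i, z i ∈ B) ∧
      ∀ i, x i ∈ acl K B := by
  obtain ⟨B, hB, hs⟩ := (mt_indep.1 hz).2.subset_isBasis_of_subset
    (X := (Mt K k).closure (Set.range x))
    (by rw [← acl_eq]; rintro _ ⟨i, rfl⟩; exact h i) (Set.subset_univ _)
  have hf : B.Finite := hB.finite_of_isRkFinite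
    ((Mt K k).isRkFinite_of_finite (Set.finite_range x)).closure
  have := hf.fintype
  refine ⟨B, this, (grk_key (K := K) (fun b : B => b.1) x
    (mt_indep.2 ⟨Subtype.val_injective, by simpa using hB.indep⟩) fun b => ?_).1,
    fun i => hs ⟨i, rfl⟩, fun i => ?_⟩
  · rw [← SetLike.mem_coe, acl_eq]
    exact hB.subset b.2
  · rw [← SetLike.mem_coe, acl_eq]
    refine hB.subset_closure ?_
    rw [← acl_eq]
    exact subset_acl _ ⟨i, rfl⟩

end

theorem p_GRK :
    S_GRK := by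
  intro K k _ _ _ _ _ _
  refine ⟨fun ι κ _ _ x z hx h => grk_key x z hx h, fun T hT => ?_, ?_, ?_⟩
  · obtain ⟨B, hB⟩ := (Mt K k).exists_isBasis T (Set.subset_univ _)
    have := (hT.subset hB.subset).fintype
    have e := (Fintype.equivFin B).symm
    have r : Set.range (fun i => (e i).1) = B := by
      ext c
      exact ⟨by rintro ⟨i, rfl⟩; exact (e i).2, fun hc => ⟨e.symm ⟨c, hc⟩, by simp⟩⟩
    refine ⟨_, fun i => (e i).1, mt_indep.2 ⟨Subtype.val_injective.comp e.injective, ?_⟩,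
      fun i => hB.subset (e i).2, ?_⟩
    · rw [r]
      exact hB.indep
    · rw [r, acl_eq]
      exact hB.subset_closure
  · intro ι1 ι2 κ1 κ2 _ _ x z _hx h1 h2 m1 m2
    have := Fintype.ofFinite ι1
    have := Fintype.ofFinite ι2
    obtain ⟨B1, _, c1, s1, a1⟩ := grk_ext (x ∘ .inl) (z ∘ .inl) h1 m1
    obtain ⟨B2, _, c2, s2, a2⟩ := grk_ext (x ∘ .inr) (z ∘ .inr) h2 m2
    have hw := ((grk_key (K := K) x (Sum.elim (fun b : B1 => b.1) fun b : B2 => b.1) _hx ?_).2
      (by simpa using add_le_add c1 c2)).1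
    · have := hw.comp (Sum.map (fun i => (⟨_, s1 i⟩ : B1)) fun i => (⟨_, s2 i⟩ : B2))
        (Function.Injective.sumMap (fun a b e => h1.injective (congrArg Subtype.val e))
          fun a b e => h2.injective (congrArg Subtype.val e))
      have e : (Sum.elim (fun b : B1 => b.1) fun b : B2 => b.1) ∘
          (Sum.map (fun i => (⟨_, s1 i⟩ : B1)) fun i => (⟨_, s2 i⟩ : B2)) = z := by
        funext i
        cases i <;> rfl
      rwa [e] at this
    · rintro (i | i)
      · refine acl_mono (T := B1) (fun c hc => ?_) (a1 i)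
        exact ⟨.inl ⟨c, hc⟩, rfl⟩
      · refine acl_mono (T := B2) (fun c hc => ?_) (a2 i)
        exact ⟨.inr ⟨c, hc⟩, rfl⟩
  · intro ι κ μ _ _ _ _ z x h1 hx hm hc
    have i1 : ((Mt K k).comap z).Indep (Set.range Sum.inl) := by
      rw [Matroid.comap_indep_iff, ← Set.range_comp]
      refine ⟨(mt_indep.1 h1).2, ?_⟩
      rintro _ ⟨a, rfl⟩ _ ⟨b, rfl⟩ e
      exact congrArg _ (h1.injective e)
    obtain ⟨B, hB, hs⟩ := i1.exists_isBase_superset
    obtain ⟨b1, b2, -⟩ := Matroid.comap_isBase_iff.1 hB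
    rw [grk_E, Set.preimage_univ, Set.image_univ] at b1
    have c1 := (grk_key (K := K) x (fun b : B => z b.1) hx fun i => acl_le (by
      rw [acl_eq, ← Set.image_eq_range]
      exact b1.subset_closure) (hm i)).1
    have c2 : Fintype.card (Bᶜ : Set (ι ⊕ κ)) ≤ 1 := by
      rw [Fintype.card_compl_set, Fintype.card_sum]
      omega
    have : ∃ a : κ, ∀ i, i ≠ .inr a → i ∈ B := by
      by_cases e : ∃ a, Sum.inr a ∉ B
      · obtain ⟨a, ha⟩ := e
        refine ⟨a, fun i hi => by_contra fun hn => hi ?_⟩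
        exact congrArg Subtype.val (Fintype.card_le_one_iff.1 c2 ⟨i, hn⟩ ⟨_, ha⟩)
      · refine ⟨Classical.arbitrary κ, ?_⟩
        rintro (i | i) -
        · exact hs ⟨i, rfl⟩
        · exact by_contra fun hn => e ⟨i, hn⟩
    obtain ⟨a, ha⟩ := this
    refine ⟨a, mt_indep.2 ⟨fun i j e => Subtype.ext (b2 (ha _ i.2) (ha _ j.2) e),
      b1.indep.subset ?_⟩⟩
    rintro _ ⟨i, rfl⟩
    exact ⟨i.1, ha _ i.2, rfl⟩

end

section

open WithZero Module Finset
open Pool.Agent.P.MP_6f117a_ag (Place FF)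
open Pool.Agent.P.MP_ab3ecb_nt.Inv
open Pool.Agent.P.MP_9344a7_nt.Gt (pt lS Pr Can Bd Ch G12)
open scoped Classical IntermediateField

theorem p_GEX :
    S_GEX := by
  intro K F k _ _ _ _ _ _ _ _ _ t ht
  obtain ⟨E, _, _, j, act, h, -⟩ := p_BASE K F k (p_DOMC K F k)
  have hf : FF k E := ((p_CEDEG K F k E j act h t ht).2 (FF.fin t ht)).1
  obtain ⟨ext, pl, hc⟩ := j_CL K F k E j act h ⟨t, ht⟩
  exact ⟨E, _, _, hf, ⟨⟨j, act, h, ext, pl, hc⟩⟩⟩

end

end Pool.Agent.P.MP_9344a7_nt.Ac
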