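import Pool.Agent.P.MP_9344a7_nt.Ac.IfaceG
import Pool.Agent.P.MP_9344a7_nt.Gt.M1

/-! Steps GRHO, GABL, GKIL, GRSI, GS4, GLA. -/

set_option linter.unusedVariables false
set_option linter.unusedSectionVars false

namespace Pool.Agent.P.MP_9344a7_nt.Ac

section

open WithZero Module Finset
open Pool.Agent.P.MP_6f117a_ag (Place FF)
open Pool.Agent.P.MP_ab3ecb_nt.Inv
open Pool.Agent.P.MP_9344a7_nt.Gt (pt lS Pr Can Bd Ch G12)
open scoped Classical IntermediateField

section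

variable {k E : Type} [Field k] [Field E] [Algebra k E]

/-- The residue relation between the points `Y` and `O`. -/
def grho_R (W : Dv k E) (O : Place k E) (u : E) (Y : Place k E) (t : E) (ρ : k) : Prop :=
  ∀ z ∈ LS (W + (pt Y + pt O)), ρ * ev Y (t * z) + ev O (u * z) = 0

variable [IsAlgClosed k] [FF k E] {g : ℕ} {W : Dv k E} {O Y : Place k E} {u t : E} {a b : k}

lemma grho_uniq (h : Can g W) (e : Y ≠ O) (ht : Y.v t = exp (-(W Y + 1)))
    (ha : grho_R W O u Y t a) (hb : grho_R W O u Y t b) : a = b := by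
  obtain ⟨f, f1, f2⟩ := Gt.exists_of_lS_lt (D := W + (pt Y + pt O) - pt Y)
    (D' := W + (pt Y + pt O)) (by
      have a := Gt.res_dim (A := pt O) h (by simp)
      have b := Gt.res_dim (A := pt Y + pt O) h (by simp)
      rw [map_add, deg_single, deg_single] at b
      rw [deg_single] at a
      rw [add_sub_assoc, add_sub_cancel_left]
      omega)
  have w : (W + (pt Y + pt O)) Y = W Y + 1 := by
    rw [Finsupp.add_apply, Finsupp.add_apply, Gt.pt_ne e, Finsupp.single_eq_same, add_zero]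
  refine mul_right_cancel₀ (b := ev Y (t * f)) (fun h0 => f2 (Gt.mem_LS_sub_pt.2 ⟨f1, ?_⟩))
    (add_right_cancel ((ha f f1).trans (hb f f1).symm))
  rw [w]
  exact (Gt.res_zero ht (w ▸ mem_LS.1 f1 Y)).1 h0

lemma grho_fam (h : Can g W) (hu : O.v u = exp (-(W O + 1))) {ι : Type} [Fintype ι]
    {U : ι → Place k E} {t : ι → E} (hU : Function.Injective U) (e : ∀ i, U i ≠ O)
    (ht : ∀ i, (U i).v (t i) = exp (-(W (U i) + 1))) :
    ∃ ρ : ι → k, (∀ i, ρ i ≠ 0 ∧ grho_R W O u (U i) (t i) (ρ i)) ∧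
      ∀ z ∈ LS (W + ∑ i, pt (U i)), ∑ i, ρ i * ev (U i) (t i * z) = 0 := by
  obtain ⟨r, r0, hr⟩ := Gt.p_RES k E g W h (Option ι) (fun o => o.elim O U) (fun o => o.elim u t)
    (by
      rintro (_ | i) (_ | j) h
      exacts [rfl, ((e j) h.symm).elim, ((e i) h).elim, congrArg some (hU h)])
    (by
      rintro (_ | i)
      exacts [hu, ht i])
  simp only [Fintype.sum_option, Option.elim] at hr
  have key : ∀ z ∈ LS (W + (pt O + ∑ i, pt (U i))),
      ∑ i, r (some i) / r none * ev (U i) (t i * z) + ev O (u * z) = 0 := fun z hz => by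
    refine mul_left_cancel₀ (r0 none) ?_
    rw [mul_zero, ← hr z hz, mul_add, mul_sum, add_comm]
    exact congrArg _ (sum_congr rfl fun i _ => by rw [← mul_assoc, mul_div_cancel₀ _ (r0 none)])
  refine ⟨fun i => r (some i) / r none, fun i => ⟨div_ne_zero (r0 _) (r0 _), fun z hz => ?_⟩,
    fun z hz => ?_⟩
  · rw [← key z (LS_mono (add_le_add_right ((add_comm _ _).trans_le (add_le_add_right
      (single_le_sum (fun j _ => Gt.pt_nonneg (U j)) (mem_univ i)) _)) W) hz), add_left_inj]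
    refine (sum_eq_single (f := fun i => r (some i) / r none * ev (U i) (t i * z)) i
      (fun j _ ji => mul_eq_zero_of_right _ ?_) (by simp)).symm
    have := mem_LS.1 hz (U j)
    rw [Finsupp.add_apply, Finsupp.add_apply, Gt.pt_ne (hU.ne ji), Gt.pt_ne (e j), add_zero,
      add_zero] at this
    exact (Gt.res_zero (ht j) (this.trans (exp_le_exp.2 (lt_add_one _).le))).2
      (this.trans_lt (exp_lt_exp.2 (lt_add_one _)))
  · have := mem_LS.1 hz O
    rw [Finsupp.add_apply, Gt.sum_pt_ne fun i _ => e i, add_zero] at this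
    rw [← key z (LS_mono (add_le_add_right (le_add_of_nonneg_left (Gt.pt_nonneg O)) W) hz),
      (Gt.res_zero hu (this.trans (exp_le_exp.2 (lt_add_one _).le))).2
        (this.trans_lt (exp_lt_exp.2 (lt_add_one _))), add_zero]

lemma grho_sa (σ : SA k E) (h : grho_R W O u Y t a) :
    grho_R (σ.dm W) (σ.pl O) (σ.s u) (σ.pl Y) (σ.s t) (σ.s0 a) := fun z hz => by
  obtain ⟨z, rfl⟩ := σ.s.surjective z
  rw [← map_mul, ← map_mul, σ.ev_pl, σ.ev_pl, ← map_mul, ← map_add,
    h z (σ.mem_LS_dm.1 (by rwa [map_add, map_add, σ.dm_single, σ.dm_single])), map_zero]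

end

theorem p_GRHO (hGBC2 : S_GBC2) :
    S_GRHO := by
  intro n K F k E _ _ _ _ _ _ _ _ _ _ _ _ C X hn
  have hW := (hGBC2 n K F k E C X hn).1
  obtain ⟨O, -⟩ : C.W.support.Nonempty := Finsupp.support_nonempty_iff.2 fun e => by
    have := C.can.deg_W
    rw [e, map_zero] at this
    omega
  have hu : (X.ext O).v (X.j (O.π ^ (C.W O + 1))) = exp (-(X.up C.W (X.ext O) + 1)) := by
    rw [X.cl.ext_v, X.up_ext, map_zpow₀, O.v_π, ← exp_zsmul, smul_eq_mul, mul_neg_one]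
  have ht : ∀ y, (X.pl y).v (X.lp C.t y) = exp (-(X.up C.W (X.pl y) + 1)) := fun y => by
    have h : ord (X.pl y) (X.lp C.t y) = 1 := X.cl.pl_ord y C.t C.ht
    rw [X.up_pl, zero_add, ← ord_eq_iff (ne_zero_of_ord (by rw [h]; exact one_ne_zero)), h]
  have ne : ∀ y, X.pl y ≠ X.ext O := fun y => (X.cl.ne O y).symm
  have ex : ∀ y, ∃ a, a ≠ 0 ∧ grho_R (X.up C.W) (X.ext O) (X.j (O.π ^ (C.W O + 1))) (X.pl y)
      (X.lp C.t y) a := fun y =>
    let ⟨r, h, _⟩ := grho_fam hW hu (ι := Unit) (U := fun _ => X.pl y) (t := fun _ => X.lp C.t y)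
      (fun _ _ _ => rfl) (fun _ => ne y) fun _ => ht y
    ⟨r (), h ()⟩
  choose ρ h0 hρ using ex
  refine ⟨ρ, h0, fun τ y => grho_uniq hW (ne _) (ht _) (hρ _) ?_, fun ι _ y hy z hz => ?_⟩
  · have := grho_sa (X.ce.sa τ) (hρ y)
    rwa [X.up_eq, X.cl.dm_map, X.cl.sa_ext, X.cl.sa_pl, X.ce.sa_s, X.ce.fixF, Ex.lp, map_sub,
      X.ce.fixF, X.ce.semi] at this
  · obtain ⟨r, h, hr⟩ := grho_fam hW hu (U := fun i => X.pl (y i)) (t := fun i => X.lp C.t (y i))
      (X.cl.pl_inj.comp hy) (fun _ => ne _) fun _ => ht _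
    rw [← hr z hz]
    exact sum_congr rfl fun i _ => by
      rw [grho_uniq hW (ne _) (ht _) (hρ _) (h i).2, mul_comm z]

end

section

open WithZero Module Finset
open Pool.Agent.P.MP_6f117a_ag (Place FF)
open Pool.Agent.P.MP_ab3ecb_nt.Inv
open Pool.Agent.P.MP_9344a7_nt.Gt (pt lS Pr Can Bd Ch G12)
open scoped Classical IntermediateField

lemma gabl_sum {K F k E : Type} [Field K] [Field F] [Algebra K F] [Field k] [Algebra K k]
    [Field E] [Algebra k E] (X : Ex K F k E) (s : Finset (F →ₐ[K] k)) (a : (F →ₐ[K] k) → ℤ) :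
    (∀ y, (∑ i : s, Finsupp.single (X.pl i) (a i)) (X.pl y) = if y ∈ s then a y else 0) ∧
      ∀ P, (∑ i : s, Finsupp.single (X.pl i) (a i)) (X.ext P) = 0 := by
  refine ⟨fun y => ?_, fun P => ?_⟩ <;> rw [Finsupp.finsetSum_apply]
  · simp only [Finsupp.single_apply, X.cl.pl_inj.eq_iff]
    rw [sum_coe_sort s fun i => if i = y then a i else 0, sum_ite_eq']
  · exact sum_eq_zero fun i _ => Finsupp.single_eq_of_ne (X.cl.ne P i)

theorem p_GABL :
    S_GABL := by
  intro n K F k E _ _ _ _ _ _ _ _ _ _ _ _ C X _ ρ hρ δ Z ⟨D, f, hf, e⟩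
  obtain ⟨d, h1, h2⟩ := p_DER K F k E X.j X.act X.ce δ
  have L := fun Q => j_LOCD K F k E X.j X.act X.ce X.ext X.pl X.cl ⟨C.t, C.ht⟩ δ d h1 h2 Q f hf
  obtain ⟨s, hs⟩ : ∃ s : Finset (F →ₐ[K] k), ∀ y, y ∈ s ↔ ord (X.pl y) f ≠ 0 :=
    ⟨(dv k f).support.preimage X.pl X.cl.pl_inj.injOn, fun y => by simp⟩
  have h3 := X.vel_eq_zero C ρ δ
    (A := dv k f - ∑ i : s, Finsupp.single (X.pl i) (ord (X.pl i) f)) fun y hy => by
      rw [Finsupp.sub_apply, (gabl_sum X s fun y => ord (X.pl y) f).1, dv_apply] at hy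
      by_cases h : y ∈ s
      · simp [h] at hy
      · exact absurd ((hs y).2 (by simpa [h] using hy)) h
  rw [map_sub, e, map_sub, X.vel_up, sub_zero, sub_eq_zero] at h3
  rw [h3, map_sum]
  funext m
  have hz : X.j (C.e m) * (d f / f) ∈ LS (X.up C.W + X.gs fun i : s => i.1) := by
    refine mem_LS.2 fun Q => ?_
    rw [map_mul, Finsupp.add_apply, Ex.gs]
    rcases X.cl.all Q with ⟨P, rfl⟩ | ⟨y, rfl⟩
    · rw [(gabl_sum X s fun _ => 1).2, X.up_ext, add_zero, X.cl.ext_v]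
      exact (mul_le_of_le_one_right' ((L _).2.1 (.inl (X.cl.kil_ext δ P)))).trans
        (mem_LS.1 (C.mem m) P)
    · rw [(gabl_sum X s fun _ => 1).1, X.up_pl, zero_add]
      refine (mul_le_of_le_one_left' (X.cl.pl_le y _)).trans ?_
      split_ifs with h
      · exact (L _).1
      · exact (L _).2.1 (.inr (not_not.1 (mt (hs y).2 h)))
  have h4 := hρ.res s _ Subtype.val_injective _ hz
  rw [Finset.sum_apply, Pi.zero_apply, ← neg_eq_zero, ← h4, ← sum_neg_distrib]
  refine sum_congr rfl fun y _ => ?_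
  have o := X.cl.pl_ord y C.t C.ht
  have hu : (X.pl y).v (X.lp C.t y) = exp (-1) :=
    (ord_eq_iff (ne_zero_of_ord (o.trans_ne one_ne_zero))).1 o
  have h5 := locd_log (fun c => h1 c ▸ (X.pl y).triv _) hu (e := -δ (y.1 C.t))
    (by rw [Ex.lp, map_sub, h1, h2, zero_sub, map_neg]) hf
  have h6 : (X.pl y).v (d f / f * X.lp C.t y -
      algebraMap k E (ord (X.pl y) f * -δ (y.1 C.t))) < 1 := by
    rw [← div_mul_cancel₀ (algebraMap k E _) (locd_ne hu), ← sub_mul, map_mul, hu]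
    refine (mul_le_of_le_one_left' h5).trans_lt ?_
    rw [← exp_zero, exp_lt_exp]
    omega
  rw [mul_assoc, ev_mul (X.cl.pl_le _ _) (le_one_of_sub h6), ev_eq h6, X.cl.ev_pl, X.vel_pl,
    Pi.smul_apply, smul_eq_mul, Cd.co]
  ring

end

section

open WithZero Module Finset
open Pool.Agent.P.MP_6f117a_ag (Place FF)
open Pool.Agent.P.MP_ab3ecb_nt.Inv
open Pool.Agent.P.MP_9344a7_nt.Gt (pt lS Pr Can Bd Ch G12)
open scoped Classical IntermediateField

section

variable {n : ℕ} {K F k E : Type} [Field K] [IsAlgClosed K] [Field F] [Algebra K F] [FF K F]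
  [Field k] [IsAlgClosed k] [Algebra K k] [Field E] [Algebra k E] [FF k E] (C : Cd n K F)
  (X : Ex K F k E)

include C in
lemma gkil_red (Z : Dv k E) : ∃ A, 0 ≤ A ∧ lS A = 1 ∧ X.Cst (Z - A) := by
  have := (j_WA K F ⟨_, C.ht⟩).1
  obtain ⟨O⟩ : Nonempty (Place K F) := inferInstance
  obtain ⟨g, hg⟩ := p_RR k E ⟨_, (X.ext O).π_trans⟩
  obtain ⟨r, hr⟩ := hg.minl Z (X.ext O)
  obtain ⟨A, a, b⟩ := R.exists_eff (D := Z + Finsupp.single (X.ext O) r) (by omega)
  refine ⟨A, a, b.finrank_eq.trans hr, -Finsupp.single O r, ?_⟩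
  rw [map_neg, X.up_eq, Finsupp.mapDomain_single]
  convert b.neg using 1
  abel

lemma gkil_vel (ρ : (F →ₐ[K] k) → k) (δ : Derivation K k k) (A : Dv k E)
    [Fintype {y // A (X.pl y) ≠ 0}] : X.vel C ρ δ A =
      ∑ y : {y // A (X.pl y) ≠ 0}, (A (X.pl y.1) * δ (y.1 C.t) * ρ y.1) • C.co y.1 := by
  simp only [← X.vel_pl, ← map_sum]
  rw [← sub_eq_zero, ← map_sub]
  refine X.vel_eq_zero C ρ δ fun y hy => absurd ?_ hy
  rw [Finsupp.sub_apply, Finsupp.finsetSum_apply, sub_eq_zero]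
  by_cases h : A (X.pl y) = 0
  · refine h.trans (sum_eq_zero fun i _ => Finsupp.single_eq_of_ne fun e => i.2 ?_).symm
    rw [← e, h]
  · rw [sum_eq_single (⟨y, h⟩ : {y // A (X.pl y) ≠ 0}) (fun i _ e => Finsupp.single_eq_of_ne
      fun e' => e (Subtype.ext (X.cl.pl_inj e').symm)) (by simp), Finsupp.single_eq_same]

lemma gkil_le {A : Dv k E} (h : 0 ≤ A) [Fintype {y // A (X.pl y) ≠ 0}] :
    X.gs (fun y : {y // A (X.pl y) ≠ 0} => y.1) ≤ A := fun Q => by
  have h0 : 0 ≤ A Q := h Q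
  by_cases e : ∃ i : {y // A (X.pl y) ≠ 0}, X.pl i.1 = Q
  · obtain ⟨i, rfl⟩ := e
    rw [Ex.gs, Gt.sum_pt_self (U := fun y : {y // A (X.pl y) ≠ 0} => X.pl y.1)
      (X.cl.pl_inj.comp Subtype.val_injective) i]
    have := i.2
    omega
  · rwa [Ex.gs, Gt.sum_pt_ne fun i _ e' => e ⟨i, e'⟩]

end

theorem p_GKIL (hGORF : S_GORF) (hGBC2 : S_GBC2) (hGNS : S_GNS) (hGABL : S_GABL) :
    S_GKIL := by
  intro n K F k E _ _ _ _ _ _ _ _ _ _ _ _ C X hn ρ hρ
  have := charZero_of_injective_algebraMap (algebraMap K k).injective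
  have h1 : ∀ δ A, 0 ≤ A → lS A = 1 → X.vel C ρ δ A = 0 → ∀ y, A (X.pl y) ≠ 0 →
      δ (y C.t) = 0 := fun δ A a l v y hy => by
    have : Fintype {y // A (X.pl y) ≠ 0} := (Set.Finite.preimage X.cl.pl_inj.injOn
      A.hasFiniteSupport).fintype
    have l1 := Gt.lS_mono (gkil_le X a)
    have l2 := Gt.lS_pos (Gt.sum_pt_nonneg univ fun y : {y // A (X.pl y) ≠ 0} => X.pl y.1)
    have li := ((hGNS n K F k E C X hn _ fun y : {y // A (X.pl y) ≠ 0} => y.1).2
      Subtype.val_injective).1 (by rw [Ex.gs] at l1 ⊢; omega)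
    have := Fintype.linearIndependent_iff.1 li _ ((gkil_vel C X ρ δ A).symm.trans v) ⟨y, hy⟩
    simpa [hy, hρ.ne y] using this
  have h2 : ∀ δ Z A, X.Cst (Z - A) → X.vel C ρ δ Z = 0 → X.vel C ρ δ A = 0 := fun δ Z A c v => by
    have := hGABL n K F k E C X hn ρ hρ δ _ c
    rwa [map_sub, v, zero_sub, neg_eq_zero] at this
  refine ⟨h1, fun Z hZ => ?_, fun T Z hZ => ?_⟩ <;> obtain ⟨A, a, l, c⟩ := gkil_red C X Z
  · have h3 : ∀ y, A (X.pl y) = 0 := fun y => by_contra fun hy => by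
      obtain ⟨b, e⟩ := (hGORF K k ∅ _).2.2
        (mem_acl_of_der fun δ _ => h1 δ A a l (h2 δ Z A c (hZ δ)) y hy)
      rw [← y.commutes] at e
      exact C.ht (y.injective e ▸ isAlgebraic_algebraMap b)
    have h4 := X.cst_up (A.comapDomain X.ext X.cl.ext_inj.injOn)
    rw [X.up_eq, Finsupp.mapDomain_comapDomain _ X.cl.ext_inj A fun Q hQ => ?_] at h4
    · simpa using c.add h4
    rcases X.cl.all Q with ⟨P, rfl⟩ | ⟨y, rfl⟩
    · exact ⟨P, rfl⟩
    · exact absurd (h3 y) (Finsupp.mem_support_iff.1 hQ)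
  · exact ⟨A, a, l, c, fun y hy => mem_acl_of_der fun δ hδ => h1 δ A a l
      (h2 δ Z A c (X.vel_eq_zero C ρ δ fun y' hy' => der_acl δ hδ (hZ y' hy'))) y hy⟩

end

section

open WithZero Module Finset
open Pool.Agent.P.MP_6f117a_ag (Place FF)
open Pool.Agent.P.MP_ab3ecb_nt.Inv
open Pool.Agent.P.MP_9344a7_nt.Gt (pt lS Pr Can Bd Ch G12)
open scoped Classical IntermediateField

theorem p_GRSI (hGSEC : S_GSEC) :
    S_GRSI := by
  intro n K F k E _ _ _ _ _ _ _ _ _ _ _ _ C X hn ρ hρ ι _ y c hy hc hz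
  obtain ⟨g1, g2, -, g4, -⟩ := hGSEC n K F k E C X hn
  have s0 : X.sec C c ≠ 0 := fun e => hc (g2 (e.trans (map_zero _).symm))
  have h1 : ∀ i, X.zd C c (X.pl (y i)) = 1 := fun i => by
    rw [hz]
    exact Gt.sum_pt_self (U := fun i => X.pl (y i)) (X.cl.pl_inj.comp hy) i
  have h2 : ∀ i, ord (X.pl (y i)) (X.lp C.t (y i)) = 1 := fun i => X.cl.pl_ord _ _ C.ht
  have l0 : ∀ i, X.lp C.t (y i) ≠ 0 := fun i => ne_zero_of_ord (by rw [h2]; exact one_ne_zero)
  have h3 : ∀ i, (X.pl (y i)).v (X.sec C c / X.lp C.t (y i)) = 1 := fun i => by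
    have := h1 i
    rw [Ex.zd, Finsupp.add_apply, X.up_pl, add_zero, dv_apply] at this
    rw [eq_one_iff (div_ne_zero s0 (l0 i)), ord_div _ s0 (l0 i), this, h2, sub_self]
  refine ⟨fun i => ⟨ev_ne_zero (h3 i), ((g4 c hc).2.2 _).1 (by rw [h1]; exact one_ne_zero)⟩,
    fun m m' => ?_⟩
  have h4 : ∀ m, X.j (C.e m) ∈ LS (X.up C.W) := fun m =>
    (g1 _).2 ⟨Pi.single m 1, by simp [Ex.sec_eq, Pi.single_apply]⟩
  have h5 := Gt.mul_mem_LS (Gt.mul_mem_LS (h4 m) (h4 m'))
    ((mem_LS' (D := dv k (X.sec C c)) (inv_ne_zero s0)).2 (by simp))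
  rw [add_assoc, add_comm _ (dv k _), ← Ex.zd, hz] at h5
  rw [← hρ.res ι y hy _ h5]
  refine sum_congr rfl fun i _ => ?_
  have h6 : X.j (C.e m) * X.j (C.e m') * (X.sec C c)⁻¹ * X.lp C.t (y i) =
      X.j (C.e m * C.e m') / (X.sec C c / X.lp C.t (y i)) := by
    rw [map_mul, div_div_eq_mul_div, div_eq_mul_inv, mul_right_comm]
  rw [h6, ev_div (X.cl.pl_le _ _) (h3 i), X.cl.ev_pl, map_mul, Ex.wt, Cd.co, Cd.co]
  ring

end

section

open WithZero Module Finset
open Pool.Agent.P.MP_6f117a_ag (Place FF)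
open Pool.Agent.P.MP_ab3ecb_nt.Inv
open Pool.Agent.P.MP_9344a7_nt.Gt (pt lS Pr Can Bd Ch G12)
open scoped Classical IntermediateField

section

variable {n : ℕ} {K F k E : Type} [Field K] [IsAlgClosed K] [CharZero K] [Field F]
  [Algebra K F] [FF K F] [Field k] [IsAlgClosed k] [Algebra K k] [Field E] [Algebra k E] [FF k E]
  {C : Cd n K F} {X : Ex K F k E} {ρ : (F →ₐ[K] k) → k}

lemma gs4_li {ι : Type} [Fintype ι] (hρ : X.Rho C ρ) {y : ι → F →ₐ[K] k}
    (h : LinearIndependent k fun i => C.co (y i)) :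
    LinearIndependent k fun i => ρ (y i) • C.co (y i) :=
  h.units_smul fun i => Units.mk0 (ρ (y i)) (hρ.ne _)

lemma gs4_gs {ι : Type} [Fintype ι] (y : ι → F →ₐ[K] k) (d : Derivation K k k) :
    X.vel C ρ d (X.gs y) = ∑ i, d (y i C.t) • ρ (y i) • C.co (y i) := by
  simp only [X.vel_gs, smul_smul]

lemma gs4_mem (hGORF : S_GORF) (hGDU : S_GDU) (hρ : X.Rho C ρ) {T : Set k} {A : Dv k E}
    (hA : X.Rt C.t T A) {d : Derivation K k k} (hd : ∀ c ∈ T, d c ∈ acl K T) (m : Fin (n + 1)) :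
    X.vel C ρ d A m ∈ acl K T := by
  rw [← A.sum_single, Finsupp.sum, map_sum, Finset.sum_apply]
  refine sum_mem fun Q hQ => ?_
  rcases X.cl.all Q with ⟨P, rfl⟩ | ⟨y, rfl⟩
  · rw [X.vel_ext]
    exact zero_mem _
  have hy := hA y (Finsupp.mem_support_iff.1 hQ)
  have hw := emb_mem_acl C.ht y hy
  rw [X.vel_pl, Pi.smul_apply, smul_eq_mul]
  refine mul_mem (mul_mem (mul_mem (intCast_mem _ _)
    ((hGDU K k Empty Empty.elim).2.2 d T hd _ hy)) ((hGORF K k T _).2.1 fun τ hτ => ?_)) (hw _)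
  rw [← hρ.eqv]
  exact congrArg ρ (AlgHom.ext fun w => hτ _ (hw w))

variable (S : St C X)

lemma gs4_split : X.gs S.y = X.gs (S.y ∘ .inl) + X.gs (S.y ∘ .inr) := Fintype.sum_sum_type _

lemma gs4_v (hA : ∀ d Z, X.Cst Z → X.vel C ρ d Z = 0) {d : Derivation K k k}
    (hd : ∀ s, d (S.x (.inr s)) = 0) :
    X.vel C ρ d S.A1 = ∑ i, d (S.y (.inl i) C.t) • S.Φ ρ (.inl i) := by
  have h := hA d _ S.rel
  rw [map_sub, map_sub, X.vel_eq_zero C ρ d (A := S.A2) fun y hy =>
    der_acl d (Set.forall_mem_range.2 hd) (S.r2 y hy), sub_zero, sub_eq_zero, gs4_gs] at h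
  exact h.symm

lemma gs4_v1 (hA : ∀ d Z, X.Cst Z → X.vel C ρ d Z = 0) (s : Fin S.n1) :
    X.vel C ρ (S.δ (.inl s)) S.A1 = S.lam ρ (.inl s) :=
  gs4_v S hA fun _ => (S.dual _ _).trans (if_neg Sum.inl_ne_inr)

lemma gs4_pres (s : Fin S.n1 ⊕ Fin S.n2) {T : Set k} :
    ∀ c ∈ Set.range (S.x ∘ .inl), S.δ s c ∈ acl K T := Set.forall_mem_range.2 fun s' => by
  rw [Function.comp_apply, S.dual]
  split_ifs
  exacts [one_mem _, zero_mem _]

lemma gs4_con (hp : ∀ i, S.c ⬝ᵥ C.co (S.y i) = 0) (d : Derivation K k k)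
    (hd : ∀ i, S.c ⬝ᵥ (d ∘ C.co (S.y i)) = d (S.y i C.t) * X.wt C S.c (S.y i))
    (s : Fin S.n1 ⊕ Fin S.n2) :
    ∑ i, S.w ρ (.inl i) * S.ξ s i * d (S.y (.inl i) C.t) = S.c ⬝ᵥ (d ∘ S.lam ρ s) := by
  have e : d ∘ S.lam ρ s = ∑ i, ((S.ξ s i * ρ (S.y (.inl i))) • (d ∘ C.co (S.y (.inl i))) +
      d (S.ξ s i * ρ (S.y (.inl i))) • C.co (S.y (.inl i))) := by
    funext m
    simp only [St.lam, St.Φ, Function.comp_apply, Finset.sum_apply, Pi.smul_apply, Pi.add_apply,
      smul_eq_mul, map_sum, ← mul_assoc]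
    refine sum_congr rfl fun i _ => ?_
    rw [d.leibniz, smul_eq_mul, smul_eq_mul, mul_comm (C.co _ m)]
  rw [e, dotProduct_sum]
  refine sum_congr rfl fun i _ => ?_
  rw [dotProduct_add, dotProduct_smul, dotProduct_smul, hp, hd, St.w, smul_zero, add_zero,
    smul_eq_mul]
  ring

lemma gs4_inj (hA : ∀ d Z, X.Cst Z → X.vel C ρ d Z = 0)
    (hK : ∀ d A, 0 ≤ A → lS A = 1 → X.vel C ρ d A = 0 → ∀ y, A (X.pl y) ≠ 0 → d (y C.t) = 0)
    (a : Fin S.n1 → k) (h : ∀ i, ∑ s, a s * S.ξ (.inl s) i = 0) (s : Fin S.n1) : a s = 0 := by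
  have e : ∀ z, (∑ s, a s • S.δ (.inl s)) z = ∑ s, a s * S.δ (.inl s) z := fun z =>
    (congrFun (map_sum (Derivation.coeFnAddMonoidHom (R := K) (A := k) (M := k))
      (fun s => a s • S.δ (.inl s)) univ) z).trans (Finset.sum_apply _ _ _)
  obtain ⟨y, h1, h2⟩ := S.g1 s
  have h3 := hK (∑ s, a s • S.δ (.inl s)) S.A1 S.p1 S.l1 (by
    rw [gs4_v S hA fun s' => by simp [e, S.dual]]
    exact sum_eq_zero fun i _ => by rw [e, show ∑ s, a s * S.δ (.inl s) (S.y (.inl i) C.t) = 0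
      from h i, zero_smul]) y h1
  simpa [e, h2, S.dual] using h3

end

theorem p_GS4 (hGORF : S_GORF) (hGDU : S_GDU) (hGBC2 : S_GBC2) (hGSEC : S_GSEC) (hGNS : S_GNS) (hGABL : S_GABL) (hGKIL : S_GKIL) (hGDS : S_GDS) (hGRSI : S_GRSI) :
    S_GS4 := by
  intro n K F k E _ _ _ _ _ _ _ _ _ _ _ _ C X hn S ρ hρ
  have hA := hGABL n K F k E C X hn ρ hρ
  have hK := (hGKIL n K F k E C X hn ρ hρ).1
  obtain ⟨hw, hr⟩ := hGRSI n K F k E C X hn ρ hρ _ S.y S.c S.inj S.c0 S.div
  have hW : Pr (X.gs S.y - X.up C.W) :=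
    S.div ▸ ((hGSEC n K F k E C X hn).2.2.2.1 S.c S.c0).2.1
  have hD : lS (X.gs (S.y ∘ .inl)) = 1 :=
    (hGNS n K F k E C X hn _ _).1 S.gen (by simp)
  have hD' : lS (X.gs (S.y ∘ .inr)) = 1 := by
    have h1 := (hGBC2 n K F k E C X hn).1 (X.gs (S.y ∘ .inl))
    have h2 : deg (X.gs (S.y ∘ .inl)) = n := (Gt.deg_sum_pt _ _).trans (by simp)
    have h3 : lS (X.gs (S.y ∘ .inr)) = lS (X.up C.W - X.gs (S.y ∘ .inl)) :=
      Gt.Pr.lS_eq (by rw [gs4_split] at hW; convert hW using 1; abel)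
    rw [hD, h2] at h1
    push_cast at h1
    omega
  have il : LinearIndependent k (S.Φ ρ ∘ .inl) := gs4_li hρ (y := S.y ∘ .inl)
    (((hGNS n K F k E C X hn _ _).2 (S.inj.comp Sum.inl_injective)).1 hD)
  have ir : LinearIndependent k (S.Φ ρ ∘ .inr) := gs4_li hρ (y := S.y ∘ .inr)
    (((hGNS n K F k E C X hn _ _).2 (S.inj.comp Sum.inr_injective)).1 hD')
  have w0 : ∀ i, S.w ρ i ≠ 0 := fun i => mul_ne_zero (hρ.ne _) (hw i).1
  have mem : ∀ s m, S.lam ρ (.inl s) m ∈ S.k1 := fun s m =>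
    gs4_v1 S hA s ▸ gs4_mem hGORF hGDU hρ S.r1 (gs4_pres S _) m
  have con := fun d => gs4_con (ρ := ρ) S (fun i => (hw i).2) d fun i =>
    (((hGDS n K F k E C X hn d S.c).2.1 _).2.2.2 (hw i).2)
  have orth : ∀ s s', ∑ i, S.w ρ (.inl i) * S.ξ (.inl s) i * S.ξ (.inr s') i = 0 := fun s s' => by
    refine (con _ _).trans (sum_eq_zero fun m _ => mul_eq_zero_of_right _ ?_)
    exact der_acl _ (Set.forall_mem_range.2 fun s'' => (S.dual _ _).trans (if_neg Sum.inr_ne_inl))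
      (mem s m)
  have a1 : ∀ i, S.y i C.t ∈ acl K (Set.range S.x) := fun i => mem_acl_of_der fun d hd => by
    have h0 := Set.forall_mem_range.1 hd
    have h1 := gs4_v S hA fun s => h0 (.inr s)
    rw [X.vel_eq_zero C ρ d fun y hy => der_acl d
      (Set.forall_mem_range.2 fun s => h0 (.inl s)) (S.r1 y hy)] at h1
    have h2 := hA d _ ⟨C.W, hW⟩
    rw [gs4_split, map_add, gs4_gs, gs4_gs] at h2
    rcases i with i | i
    · exact Fintype.linearIndependent_iff.1 il _ h1.symm i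
    · exact Fintype.linearIndependent_iff.1 ir (fun i => d (S.y (.inr i) C.t))
        (((add_zero _).symm.trans (congrArg _ h1)).trans ((add_comm _ _).trans h2)) i
  have ex : ∀ d : Derivation K k k, (fun i => d (S.y (.inl i) C.t)) = ∑ s, d (S.x s) • S.ξ s :=
    fun d => funext fun i => by
      rw [((hGDU K k _ S.x).2.1 S.δ fun s s' => by convert S.dual s s').2 d _ (a1 _),
        Finset.sum_apply]
      rfl
  have top : Submodule.span k (Set.range S.ξ) = ⊤ := by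
    obtain ⟨δ, hδ⟩ := (hGDU K k _ _).1 S.gen
    refine eq_top_iff.2 ((Pi.basisFun k (Fin n)).span_eq.ge.trans (Submodule.span_le.2 ?_))
    rintro _ ⟨j, rfl⟩
    refine (Submodule.mem_span_range_iff_exists_fun k).2 ⟨_, (ex (δ j)).symm.trans ?_⟩
    funext i
    rw [Pi.basisFun_apply, Pi.single_apply]
    exact (hδ j i).trans (by simp [eq_comm])
  have li : LinearIndependent k S.ξ := Fintype.linearIndependent_iff.2 fun a ha => by
    have h0 : ∀ i, ∑ s, a (.inr s) * S.ξ (.inr s) i = -∑ s, a (.inl s) * S.ξ (.inl s) i :=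
      fun i => by
        have := congrFun ha i
        rw [Finset.sum_apply, Fintype.sum_sum_type] at this
        exact eq_neg_of_add_eq_zero_right this
    have h1 : ∀ v ∈ Submodule.span k (Set.range S.ξ),
        (fun i => S.w ρ (.inl i) * ∑ s, a (.inl s) * S.ξ (.inl s) i) ⬝ᵥ v = 0 := fun v hv => by
      induction hv using Submodule.span_induction with
      | zero => exact dotProduct_zero _
      | add x y _ _ hx hy => rw [dotProduct_add, hx, hy, add_zero]
      | smul b x _ hx => rw [dotProduct_smul, hx, smul_zero]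
      | mem v hv =>
        obtain ⟨s | s, rfl⟩ := hv
        · rw [← neg_eq_zero, dotProduct, ← sum_neg_distrib]
          simp only [neg_mul_eq_neg_mul, neg_mul_eq_mul_neg (S.w ρ _), ← h0]
          simp only [mul_sum, sum_mul]
          rw [sum_comm]
          refine sum_eq_zero fun s' _ => ?_
          rw [← mul_zero (a (.inr s')), ← orth s s', mul_sum]
          exact sum_congr rfl fun i _ => by ring
        · simp only [dotProduct, mul_sum, sum_mul]
          rw [sum_comm]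
          refine sum_eq_zero fun s' _ => ?_
          rw [← mul_zero (a (.inl s')), ← orth s' s, mul_sum]
          exact sum_congr rfl fun i _ => by ring
    have h2 : ∀ i, ∑ s, a (.inl s) * S.ξ (.inl s) i = 0 := fun i => by
      have := h1 (Pi.single i 1) (top.ge trivial)
      rw [dotProduct_single, mul_one] at this
      exact (mul_eq_zero.1 this).resolve_left (w0 _)
    rintro (s | s)
    · exact gs4_inj S hA hK _ h2 s
    · exact gs4_inj S.swap hA hK (fun s => a (.inr s))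
        (fun i => (h0 i).trans (by rw [h2, neg_zero])) s
  refine ⟨w0, fun m m' => ?_, il, ir, fun i => ?_, gs4_v1 S hA, gs4_v1 S.swap hA, mem, orth,
    fun s s' => ⟨_, fun m => ?_, con _ _⟩, top, li, ?_, a1,
    fun s => mem_acl_of_der fun d hd => ?_⟩
  · refine (sum_congr rfl fun i _ => ?_).trans (hr m m')
    have := hρ.ne (S.y i)
    simp only [St.w, St.Φ, Pi.smul_apply, smul_eq_mul]
    field_simp
  · rw [St.Φ, dotProduct_smul, (hw i).2, smul_zero]
  · exact (hGDU K k _ S.x).2.2 _ _ (gs4_pres S _) _ (mem s m)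
  · have := finrank_span_eq_card li
    rw [top] at this
    simpa using this.symm
  · exact Fintype.linearIndependent_iff.1 li _
      ((ex d).symm.trans (funext fun i => hd _ ⟨i, rfl⟩)) s

end

section

open WithZero Module Finset
open Pool.Agent.P.MP_6f117a_ag (Place FF)
open Pool.Agent.P.MP_ab3ecb_nt.Inv
open Pool.Agent.P.MP_9344a7_nt.Gt (pt lS Pr Can Bd Ch G12)
open scoped Classical IntermediateField

theorem gla_span {k : Type} [Field k] {n : ℕ} (A : Fin n → Fin (n + 1) → k)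
    (c : Fin (n + 1) → k) (hc : c ≠ 0) (hA : ∀ i, c ⬝ᵥ A i = 0) (hli : LinearIndependent k A)
    (z : Fin (n + 1) → k) (hz : c ⬝ᵥ z = 0) : ∃ β : Fin n → k, z = ∑ i, β i • A i := by
  let f : (Fin (n + 1) → k) →ₗ[k] k :=
    { toFun := fun z => c ⬝ᵥ z
      map_add' := fun x y => dotProduct_add c x y
      map_smul' := fun a x => dotProduct_smul a c x }
  have h1 : Submodule.span k (Set.range A) ≤ LinearMap.ker f :=
    Submodule.span_le.2 (by rintro _ ⟨i, rfl⟩; exact hA i)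
  have h2 : LinearMap.ker f ≠ ⊤ := fun h => hc (funext fun m => by
    have : Pi.single m 1 ∈ LinearMap.ker f := h ▸ Submodule.mem_top
    simpa [f] using this)
  have h3 := Submodule.finrank_lt h2
  have h4 : finrank k (Submodule.span k (Set.range A)) = n := by
    simpa using finrank_span_eq_card hli
  have h5 := Submodule.eq_of_le_of_finrank_le h1 (by
    rw [h4]; simp only [finrank_fintype_fun_eq_card, Fintype.card_fin] at h3; omega)
  obtain ⟨β, hβ⟩ := (Submodule.mem_span_range_iff_exists_fun k).1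
    (h5 ▸ (show z ∈ LinearMap.ker f from hz) : z ∈ Submodule.span k (Set.range A))
  exact ⟨β, hβ.symm⟩

theorem p_GLA :
    S_GLA := by
  intro k _ n Φ w c hc hw hΦ h1 _ h3 Q
  choose β hβ using fun j => gla_span (Φ ∘ .inl) c hc (fun i => hΦ _) h1 (Φ (.inr j)) (hΦ _)
  refine ⟨β Q, hβ Q, ?_⟩
  have hli := Fintype.linearIndependent_iff.1 h1
  let M : Fin n → Fin n → k := fun i i' =>
    (if i = i' then (w (.inl i))⁻¹ else 0) + ∑ j, (w (.inr j))⁻¹ * β j i * β j i'
  have hb : ∀ j m, Φ (.inr j) m = ∑ i, β j i * Φ (.inl i) m := fun j m => by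
    rw [hβ j]; simp [Finset.sum_apply]
  have hM : ∀ m m', ∑ i, (∑ i', M i i' * Φ (.inl i') m') * Φ (.inl i) m = 0 := fun m m' => by
    rw [← h3 m m', Fintype.sum_sum_type]
    simp only [M, add_mul, Finset.sum_add_distrib, ite_mul, zero_mul, Finset.sum_ite_eq,
      Finset.mem_univ, if_true, hb, Finset.sum_mul, Finset.mul_sum]
    congr 1
    · exact Finset.sum_congr rfl fun i _ => by ring
    · rw [Finset.sum_comm]
      conv_rhs => rw [Finset.sum_comm]
      refine Finset.sum_congr rfl fun i' _ => ?_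
      rw [Finset.sum_comm]
      exact Finset.sum_congr rfl fun j _ => Finset.sum_congr rfl fun i _ => by ring
  have hM0 : ∀ i i', M i i' = 0 := fun i => by
    refine hli _ (funext fun m' => ?_)
    have := hli (fun i => ∑ i', M i i' * Φ (.inl i') m') (funext fun m => by
      simpa [Finset.sum_apply] using hM m m') i
    simpa [Finset.sum_apply] using this
  let N : Matrix (Fin n) (Fin n) k := fun i j => -(w (.inl i) * β j i * (w (.inr j))⁻¹)
  have hN : N * Matrix.of β = 1 := by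
    ext i i'
    have := hM0 i i'
    simp only [M] at this
    simp only [Matrix.mul_apply, N, Matrix.of_apply, Matrix.one_apply]
    have e : ∑ j, -(w (.inl i) * β j i * (w (.inr j))⁻¹) * β j i' =
        -(w (.inl i) * ∑ j, (w (.inr j))⁻¹ * β j i * β j i') := by
      rw [Finset.mul_sum, ← Finset.sum_neg_distrib]
      exact Finset.sum_congr rfl fun j _ => by ring
    rw [e, eq_neg_of_add_eq_zero_right this]
    split_ifs
    · field_simp [hw (.inl i)]
    · simp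
  have hN1 : Matrix.of β * N = 1 := mul_eq_one_comm.1 hN
  have hN' : (Matrix.of β * N) Q Q = (1 : Matrix (Fin n) (Fin n) k) Q Q := by rw [hN1]
  simp only [Matrix.mul_apply, N, Matrix.of_apply, Matrix.one_apply_eq] at hN'
  have e : ∑ i, w (.inl i) * β Q i * β Q i =
      -(w (.inr Q) * ∑ j, β Q j * -(w (.inl j) * β Q j * (w (.inr Q))⁻¹)) := by
    rw [Finset.mul_sum, ← Finset.sum_neg_distrib]
    exact Finset.sum_congr rfl fun j _ => by field_simp [hw (.inr Q)]
  rw [e, hN', mul_one]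

end

end Pool.Agent.P.MP_9344a7_nt.Ac
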