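import Pool.Agent.P.MP_9344a7_nt.Ac.IfaceG
import Pool.Agent.P.MP_9344a7_nt.Ac.IfaceC

/-! Steps GLB, GS5, GSPX, GRD, GPEN. -/

set_option linter.unusedVariables false
set_option linter.unusedSectionVars false

namespace Pool.Agent.P.MP_9344a7_nt.Ac

section

open WithZero Module Finset
open Pool.Agent.P.MP_6f117a_ag (Place FF)
open Pool.Agent.P.MP_ab3ecb_nt.Inv
open Pool.Agent.P.MP_9344a7_nt.Gt (pt lS Pr Can Bd Ch G12)
open scoped Classical IntermediateField

theorem p_GLB :
    S_GLB := by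
  intro k ι κ V _ _ _ _ _ Φ β w wq P x x' hli hβ h1 h2
  have hy : ∀ (s : κ) (g : ι → V), ∑ i ∈ univ.erase P, x' s i • g i =
      ∑ i, (if i = P then 0 else x' s i) • g i := by
    intro s g
    rw [← Finset.add_sum_erase _ _ (Finset.mem_univ P), if_pos rfl, zero_smul, zero_add]
    exact Finset.sum_congr rfl fun i hi => by rw [if_neg (Finset.ne_of_mem_erase hi)]
  have hx : ∀ s i, (if i = P then 0 else x' s i) = x s i - x' s P * β i := by
    intro s
    have h0 : ∑ i, ((if i = P then 0 else x' s i) - (x s i - x' s P * β i)) • Φ i = 0 := by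
      simp only [sub_smul, Finset.sum_sub_distrib, mul_smul]
      rw [← Finset.smul_sum, ← hy, h1 s]
      abel
    intro i
    exact sub_eq_zero.mp (Fintype.linearIndependent_iff.mp hli _ h0 i)
  have hm : ∀ s t, x' s P * (∑ i, w i * x t i * β i) + x' t P * (∑ i, w i * x s i * β i) = 0 := by
    intro s t
    have e1 : ∑ i ∈ univ.erase P, w i * x' s i * x' t i =
        ∑ i, w i * (x s i - x' s P * β i) * (x t i - x' t P * β i) := by
      rw [← Finset.add_sum_erase _ _ (Finset.mem_univ P), ← hx s P, if_pos rfl, mul_zero, zero_mul,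
        zero_add]
      exact Finset.sum_congr rfl fun i hi => by
        rw [← hx s i, ← hx t i, if_neg (Finset.ne_of_mem_erase hi),
          if_neg (Finset.ne_of_mem_erase hi)]
    have e2 : ∑ i, w i * (x s i - x' s P * β i) * (x t i - x' t P * β i) =
        ∑ i, w i * x s i * x t i - x' s P * (∑ i, w i * x t i * β i) -
          x' t P * (∑ i, w i * x s i * β i) + x' s P * x' t P * ∑ i, w i * β i * β i := by
      simp only [Finset.mul_sum, ← Finset.sum_sub_distrib, ← Finset.sum_add_distrib]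
      exact Finset.sum_congr rfl fun i _ => by ring
    have e3 := h2 s t
    rw [e1, e2, hβ] at e3
    linear_combination e3
  by_cases ha : ∀ s, x' s P = 0
  · left
    intro s
    have := hx s P
    rw [if_pos rfl, ha s, zero_mul, sub_zero] at this
    exact this.symm
  · right
    push Not at ha
    obtain ⟨s, hs⟩ := ha
    have h3 : ∑ i, w i * x s i * β i = 0 := by
      have h4 : x' s P * (2 * ∑ i, w i * x s i * β i) = 0 := by linear_combination hm s s
      rcases mul_eq_zero.mp h4 with h | h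
      · exact absurd h hs
      · exact (mul_eq_zero.mp h).resolve_left two_ne_zero
    intro t
    have h5 := hm s t
    rw [h3, mul_zero, add_zero] at h5
    exact (mul_eq_zero.mp h5).resolve_left hs

end

section

open WithZero Module Finset
open Pool.Agent.P.MP_6f117a_ag (Place FF)
open Pool.Agent.P.MP_ab3ecb_nt.Inv
open Pool.Agent.P.MP_9344a7_nt.Gt (pt lS Pr Can Bd Ch G12)
open scoped Classical IntermediateField

lemma gs5_perp {k ι κ1 κ2 V : Type} [Field k] [Fintype ι] [Fintype κ1] [Fintype κ2]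
    [AddCommGroup V] [Module k V] (w : ι → k) (hw : ∀ i, w i ≠ 0) (ξ : κ1 ⊕ κ2 → ι → k)
    (ht : Submodule.span k (Set.range ξ) = ⊤)
    (ho : ∀ s s', ∑ i, w i * ξ (.inl s) i * ξ (.inr s') i = 0) (Φ : ι → V) (β : ι → k)
    (h : ∀ s, ∑ i, w i * ξ (.inl s) i * β i = 0) :
    ∑ i, β i • Φ i ∈ Submodule.span k (Set.range fun s => ∑ i, ξ (.inr s) i • Φ i) := by
  obtain ⟨γ, rfl⟩ := (Submodule.mem_span_range_iff_exists_fun k).1 (ht ▸ Submodule.mem_top (x := β))
  have h1 : ⊤ ≤ LinearMap.ker (Fintype.linearCombination k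
      fun i => w i * ∑ s, γ (.inl s) * ξ (.inl s) i) := by
    rw [← ht, Submodule.span_le]
    rintro _ ⟨s | s, rfl⟩
    · have h2 : ∑ s', γ (.inr s') * ∑ i, w i * ξ (.inl s) i * ξ (.inr s') i = 0 := by simp [ho]
      have h3 := h s
      simp only [mul_sum] at h2
      rw [sum_comm] at h2
      show ∑ i, ξ (.inl s) i * _ = 0
      rw [← sub_eq_zero.2 (h3.trans h2.symm), ← sum_sub_distrib]
      refine sum_congr rfl fun i _ => ?_
      simp only [Fintype.sum_sum_type, Finset.sum_apply, Pi.smul_apply, smul_eq_mul,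
        mul_add, mul_sum, mul_left_comm (γ _)]
      rw [add_sub_cancel_right]
      exact sum_congr rfl fun _ _ => by ring
    · have h2 : ∑ s', γ (.inl s') * ∑ i, w i * ξ (.inl s') i * ξ (.inr s) i = 0 := by simp [ho]
      simp only [mul_sum] at h2
      rw [sum_comm] at h2
      show ∑ i, ξ (.inr s) i * _ = 0
      rw [← h2]
      refine sum_congr rfl fun i _ => ?_
      simp only [mul_sum]
      exact sum_congr rfl fun _ _ => by ring
  have h2 : ∀ i, ∑ s, γ (.inl s) * ξ (.inl s) i = 0 := fun i => by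
    have := h1 (Submodule.mem_top (x := Pi.single i 1))
    rw [LinearMap.mem_ker, Fintype.linearCombination_apply_single, one_smul] at this
    exact (mul_eq_zero.1 this).resolve_left (hw i)
  simp only [Fintype.sum_sum_type, Finset.sum_apply, Pi.smul_apply, smul_eq_mul, h2,
    zero_add, sum_smul, mul_smul]
  rw [sum_comm]
  refine Submodule.sum_mem _ fun s _ => ?_
  rw [← smul_sum]
  exact Submodule.smul_mem _ _ (Submodule.subset_span ⟨s, rfl⟩)

theorem p_GS5 (hGSEC : S_GSEC) (hGLA : S_GLA) (hGLB : S_GLB) :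
    S_GS5 := by
  rintro n K F k E _ _ _ _ _ _ _ _ _ _ _ _ C X hn S ρ hρ hS P Q ⟨τ, a, h1, ha, hc, hP, hi⟩
  have : CharZero k := charZero_of_injective_algebraMap (algebraMap K k).injective
  obtain ⟨-, -, -, -, -, g6, g7⟩ := hGSEC n K F k E C X hn
  have hp : ∀ i, S.c ⬝ᵥ C.co (S.y i) = 0 := fun i => by
    have := hS.perp i
    rw [St.Φ, dotProduct_smul, smul_eq_mul] at this
    exact (mul_eq_zero.1 this).resolve_left (hρ.ne _)
  have hΦ : ∀ i j, (τ : k →ₐ[K] k).comp (S.y i) = S.y j → ∀ m, τ (S.Φ ρ i m) = S.Φ ρ j m := by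
    intro i j h m
    simp only [St.Φ, Pi.smul_apply, smul_eq_mul, map_mul, ← h, hρ.eqv]
    rfl
  have hw : ∀ i j, (τ : k →ₐ[K] k).comp (S.y i) = S.y j → τ (a * S.w ρ i) = a * S.w ρ j := by
    intro i j h
    rw [St.w, St.w, mul_left_comm, mul_left_comm a, ← g7 a _ _ (hp i), ← g7 a _ _ (hp j), map_mul,
      ← g6, ← hρ.eqv, h, show τ ∘ (a • S.c) = a • S.c from funext hc]
  obtain ⟨β, b1, b2⟩ := hGLA k n (S.Φ ρ) (S.w ρ) S.c S.c0 hS.w0 hS.perp hS.il hS.ir hS.rsi Q
  have key := gs5_perp (fun i => S.w ρ (.inl i)) (fun i => hS.w0 _) S.ξ hS.top hS.orth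
    fun i => S.Φ ρ (.inl i)
  rcases hGLB k (Fin n) (Fin S.n1) _ (S.Φ ρ ∘ .inl) β (fun i => a * S.w ρ (.inl i))
    (a * S.w ρ (.inr Q)) P (fun s => S.ξ (.inl s)) (fun s i => τ (S.ξ (.inl s) i)) hS.il
    (by simp only [mul_assoc a, ← mul_sum, b2, mul_neg]) (fun s => by
      funext m
      refine (h1 _ (hS.mem s m)).symm.trans ?_
      simp only [Function.comp_apply, ← b1, St.lam, Finset.sum_apply, Pi.add_apply, Pi.smul_apply,
        smul_eq_mul, map_sum, map_mul]
      rw [← sum_erase_add _ _ (mem_univ P), hΦ _ _ hP]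
      congr 1
      exact sum_congr (by ext; simp) fun i h => by rw [hΦ _ _ (hi i (by simpa using h))]) (fun s s' => by
      obtain ⟨N, n1, n2⟩ := hS.int s s'
      have h2 : τ (a * S.c ⬝ᵥ N) = a * S.c ⬝ᵥ N := by
        simp only [dotProduct, mul_sum, map_sum, ← mul_assoc, map_mul τ (a * _), hc, h1 _ (n1 _)]
      rw [← n2] at h2
      simp only [mul_sum, ← mul_assoc, map_sum, map_mul τ (a * _ * _), map_mul τ (a * _)] at h2
      rw [← h2, ← sum_erase_add _ _ (mem_univ P), hw _ _ hP]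
      congr 1
      exact sum_congr (by ext; simp) fun i h => by rw [hw _ _ (hi i (by simpa using h))]) with h | h
  · left
    have := key (Pi.single P 1) fun s => by simp [Pi.single_apply, h s]
    simp only [Pi.single_apply, ite_smul, one_smul, zero_smul, sum_ite_eq', mem_univ, if_true] at this
    exact this
  · right
    rw [b1]
    refine key β fun s => (mul_eq_zero.1 ?_).resolve_left ha
    simpa only [mul_sum, mul_assoc] using h s

end

section

open WithZero Module Finset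
open Pool.Agent.P.MP_6f117a_ag (Place FF)
open Pool.Agent.P.MP_ab3ecb_nt.Inv
open Pool.Agent.P.MP_9344a7_nt.Gt (pt lS Pr Can Bd Ch G12)
open scoped Classical IntermediateField

section

variable {K F k E : Type} [Field K] [IsAlgClosed K] [Field F] [Algebra K F] [FF K F] [Field k]
  [Algebra K k] [Field E] [Algebra k E] {X : Ex K F k E} {V : Sv k}

lemma gspx_pole (P : Place K F) : ¬ ∀ w, P.v w ≤ 1 := fun h => by
  have := (le_one_iff (inv_ne_zero P.π_ne)).1 (h P.π⁻¹)
  rw [ord_inv, ord_π] at this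
  omega

lemma gspx_pp {y y' : F →ₐ[K] k} :
    X.Spz V (X.pl y) (X.pl y') ↔ ∀ w, y w ∈ V.O ∧ V.r (y w) = y' w := by
  simp only [Ex.Spz, X.cl.pl_le, X.cl.ev_pl, true_and, forall_const]

lemma gspx_pe {y : F →ₐ[K] k} {P : Place K F} : X.Spz V (X.pl y) (X.ext P) ↔
    ∀ w, P.v w ≤ 1 → y w ∈ V.O ∧ V.r (y w) = algebraMap K k (ev P w) := by
  simp only [Ex.Spz, X.cl.pl_le, X.cl.ev_pl, X.cl.ext_v, true_and]
  exact forall₂_congr fun w hw => by rw [X.cl.ev_ext hw]

variable (hV : V.Fx (Set.range (algebraMap K k)))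
include hV

lemma gspx_ee (P : Place K F) : X.Spz V (X.ext P) (X.ext P) := fun w hw => by
  refine ⟨hw, ?_⟩
  rw [X.cl.ev_ext (X.cl.ext_v P w ▸ hw)]
  exact hV _ ⟨_, rfl⟩

lemma gspx_eu {P : Place K F} {Q : Place k E} (h : X.Spz V (X.ext P) Q) : Q = X.ext P := by
  rcases X.cl.all Q with ⟨P', rfl⟩ | ⟨y, rfl⟩
  · have h1 : ∀ w, P'.v w ≤ 1 → P.v w ≤ 1 ∧ ev P w = ev P' w := fun w hw => by
      obtain ⟨a, -, b⟩ := h w (by rwa [X.cl.ext_v])
      rw [X.cl.ext_v] at a
      rw [X.cl.ev_ext a, X.cl.ev_ext hw, (hV _ ⟨_, rfl⟩).2] at b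
      exact ⟨a, (algebraMap K k).injective b⟩
    refine congrArg _ (PL.uniq _ _ fun u => ⟨fun e => ?_, fun e => not_le.1 fun e' => ?_⟩)
    · obtain ⟨a, b⟩ := h1 u e.le
      rwa [ev_of_lt e, ev_eq_zero_iff a] at b
    · have u0 : u ≠ 0 := by rintro rfl; simp at e'
      have := (h1 u⁻¹ (by rw [map_inv₀]; exact inv_le_one_of_one_le₀ e')).1
      rw [map_inv₀, inv_le_one₀ (zero_lt_iff.2 (v_ne P u0))] at this
      exact e.not_ge this
  · exact absurd (fun w => X.cl.ext_v P w ▸ (h w (X.cl.pl_le y w)).1) (gspx_pole P)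

lemma gspx_uniq {Q Q1 Q2 : Place k E} (h1 : X.Spz V Q Q1) (h2 : X.Spz V Q Q2) : Q1 = Q2 := by
  rcases X.cl.all Q with ⟨P, rfl⟩ | ⟨y, rfl⟩
  · rw [gspx_eu hV h1, gspx_eu hV h2]
  rcases X.cl.all Q1 with ⟨P1, rfl⟩ | ⟨y1, rfl⟩ <;> rcases X.cl.all Q2 with ⟨P2, rfl⟩ | ⟨y2, rfl⟩
  · rw [(rs_of_r V (gspx_pe.1 h1)).uniq (rs_of_r V (gspx_pe.1 h2))]
  · exact absurd (fun w => (rs_of_r V (gspx_pe.1 h1) w).1 (gspx_pp.1 h2 w).1) (gspx_pole P1)
  · exact absurd (fun w => (rs_of_r V (gspx_pe.1 h2) w).1 (gspx_pp.1 h1 w).1) (gspx_pole P2)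
  · exact congrArg _ (AlgHom.ext fun w => (gspx_pp.1 h1 w).2.symm.trans (gspx_pp.1 h2 w).2)

lemma gspx_in {y : F →ₐ[K] k} (h : ∀ w, y w ∈ V.O) : ∃ y', X.Spz V (X.pl y) (X.pl y') :=
  ⟨{ toFun := fun w => V.r (y w)
     map_one' := by rw [map_one, V.r_one]
     map_mul' := fun a b => by rw [map_mul, Sv.r_mul (h a) (h b)]
     map_zero' := by rw [map_zero, V.r_zero]
     map_add' := fun a b => by rw [map_add, Sv.r_add (h a) (h b)]
     commutes' := fun c => by rw [y.commutes, (hV _ ⟨_, rfl⟩).2] },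
    gspx_pp.2 fun w => ⟨h w, rfl⟩⟩

lemma gspx_ex (hRST : S_RST) (Q : Place k E) : ∃ Q', X.Spz V Q Q' := by
  rcases X.cl.all Q with ⟨P, rfl⟩ | ⟨y, rfl⟩
  · exact ⟨_, gspx_ee hV P⟩
  by_cases h : ∀ w, y w ∈ V.O
  · obtain ⟨y', e⟩ := gspx_in (X := X) hV h
    exact ⟨_, e⟩
  obtain ⟨P, hP⟩ := (hRST K F k V.O y).1 (fun c => (hV _ ⟨c, rfl⟩).1) (not_forall.1 h)
  refine ⟨X.ext P, gspx_pe.2 fun w hw => ⟨(hP w).2 hw, ?_⟩⟩
  obtain ⟨a, b⟩ := hV _ ⟨ev P w, rfl⟩
  have := (Sv.r_eq_zero (sub_mem ((hP w).2 hw) a)).2 (by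
    rw [← y.commutes, ← map_sub]; exact (hP.lt _).2 (ev_spec hw))
  rwa [Sv.r_sub ((hP w).2 hw) a, b, sub_eq_zero] at this

end

theorem p_GSPX (hRST : S_RST) :
    S_GSPX := by
  intro K F k E _ _ _ _ _ _ _ _ _ _ _ _ X t _ V hV
  choose sp h using gspx_ex (X := X) hV hRST
  refine ⟨sp, h, fun Q Q' e => gspx_uniq hV e (h Q), fun P => gspx_eu hV (h _), fun y hy => ?_,
    fun y y' e => gspx_pp.1 (e ▸ h _)⟩
  obtain ⟨y', e⟩ := gspx_in (X := X) hV hy
  exact ⟨y', gspx_uniq hV (h _) e⟩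

end

section

open WithZero Module Finset
open Pool.Agent.P.MP_6f117a_ag (Place FF)
open Pool.Agent.P.MP_ab3ecb_nt.Inv
open Pool.Agent.P.MP_9344a7_nt.Gt (pt lS Pr Can Bd Ch G12)
open scoped Classical IntermediateField

section

variable {K F k E : Type} [Field K] [Field F] [Algebra K F] [Field k] [Algebra K k] [Field E]
  [Algebra k E] (X : Ex K F k E) (V : Sv k)

lemma grd_gen {c : k} (hc : c ∈ V.O) (w : F) : X.Rd V (c • X.j w) (V.r c • X.j w) := by
  refine ⟨Finsupp.single w c, fun w' => ?_, ?_, ?_⟩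
  · rw [Finsupp.single_apply]
    split_ifs
    · exact hc
    · exact zero_mem _
  · rw [Finsupp.sum_single_index (by simp)]
  · rw [Finsupp.sum_single_index (by rw [V.r_zero, zero_smul])]

lemma grd_zero : X.Rd V 0 0 := ⟨0, fun _ => zero_mem _, by simp, by simp⟩

variable {X V}

lemma grd_add {z z' a a' : E} (h : X.Rd V z a) (h' : X.Rd V z' a') : X.Rd V (z + z') (a + a') := by
  obtain ⟨f, h1, rfl, rfl⟩ := h
  obtain ⟨f', h2, rfl, rfl⟩ := h'
  refine ⟨f + f', fun w => add_mem (h1 w) (h2 w),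
    (Finsupp.sum_add_index' (by simp) (by simp [add_smul])).symm, ?_⟩
  have e : ∀ (g : F →₀ k), g.support ⊆ f.support ∪ f'.support →
      (g.sum fun w c => V.r c • X.j w) = ∑ w ∈ f.support ∪ f'.support, V.r (g w) • X.j w :=
    fun g hg => Finsupp.sum_of_support_subset g hg _ fun _ _ => by rw [V.r_zero, zero_smul]
  rw [e f subset_union_left, e f' subset_union_right, e _ Finsupp.support_add, ← sum_add_distrib]
  refine sum_congr rfl fun w _ => ?_
  rw [Finsupp.add_apply, Sv.r_add (h1 w) (h2 w), add_smul]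

lemma grd_sum {ι : Type} (s : Finset ι) {z a : ι → E} (h : ∀ i, X.Rd V (z i) (a i)) :
    X.Rd V (∑ i ∈ s, z i) (∑ i ∈ s, a i) := by
  induction s using Finset.induction_on with
  | empty => simpa using grd_zero X V
  | insert i s hi ih => rw [sum_insert hi, sum_insert hi]; exact grd_add (h i) ih

lemma grd_ind {P : E → E → Prop} (h0 : P 0 0)
    (h1 : ∀ z z' a a', P z a → P z' a' → P (z + z') (a + a'))
    (h2 : ∀ c ∈ V.O, ∀ w, P (c • X.j w) (V.r c • X.j w)) {z a : E} (h : X.Rd V z a) : P z a := by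
  obtain ⟨f, hf, rfl, rfl⟩ := h
  unfold Finsupp.sum
  induction f.support using Finset.induction_on with
  | empty => simpa using h0
  | insert i s hi ih => rw [sum_insert hi, sum_insert hi]; exact h1 _ _ _ _ (h2 _ (hf i) i) ih

lemma grd_mul {z z' a a' : E} (h : X.Rd V z a) (h' : X.Rd V z' a') : X.Rd V (z * z') (a * a') := by
  refine grd_ind (P := fun z a => X.Rd V (z * z') (a * a')) ?_ ?_ ?_ h
  · simpa using grd_zero X V
  · intro _ _ _ _ e e'
    simpa only [add_mul] using grd_add e e'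
  intro c hc w
  refine grd_ind (P := fun z a => X.Rd V (c • X.j w * z) (V.r c • X.j w * a)) ?_ ?_ ?_ h'
  · simpa using grd_zero X V
  · intro _ _ _ _ e e'
    simpa only [mul_add] using grd_add e e'
  intro c' hc' w'
  have := grd_gen X V (mul_mem hc hc') (w * w')
  rwa [Sv.r_mul hc hc', map_mul, ← smul_mul_smul_comm, ← smul_mul_smul_comm] at this

lemma grd_smul {z a : E} {c : k} (hc : c ∈ V.O) (h : X.Rd V z a) : X.Rd V (c • z) (V.r c • a) := by
  simpa using grd_mul (grd_gen X V hc 1) h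

variable (X) {ι : Type} (B : Basis ι K F)

/-- Linear combinations of a basis. -/
noncomputable def grd_lc : (ι →₀ k) →ₗ[k] E := Finsupp.linearCombination k (X.j ∘ B)

lemma grd_inj : Function.Injective (grd_lc X B) := X.ce.lin ι B B.linearIndependent

lemma grd_j (w : F) :
    X.j w = grd_lc X B ((B.repr w).mapRange (algebraMap K k) (map_zero _)) := by
  conv_lhs => rw [← B.linearCombination_repr w]
  rw [grd_lc, Finsupp.linearCombination_apply, Finsupp.linearCombination_apply,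
    Finsupp.sum_mapRange_index (by simp), Finsupp.sum, Finsupp.sum, map_sum]
  refine sum_congr rfl fun i _ => ?_
  rw [Algebra.smul_def, Algebra.smul_def, map_mul, X.ce.comm, Function.comp_apply]

variable {X}

lemma grd_co (hV : V.Fx (Set.range (algebraMap K k))) {z a : E} (h : X.Rd V z a) :
    ∃ g : ι →₀ k, (∀ i, g i ∈ V.O) ∧ z = grd_lc X B g ∧
      a = grd_lc X B (g.mapRange V.r V.r_zero) := by
  refine grd_ind (P := fun z a => ∃ g : ι →₀ k, (∀ i, g i ∈ V.O) ∧ z = grd_lc X B g ∧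
    a = grd_lc X B (g.mapRange V.r V.r_zero)) ⟨0, fun _ => zero_mem _, by simp, by simp⟩ ?_ ?_ h
  · rintro _ _ _ _ ⟨g, h1, rfl, rfl⟩ ⟨g', h2, rfl, rfl⟩
    refine ⟨g + g', fun i => add_mem (h1 i) (h2 i), (map_add _ _ _).symm, ?_⟩
    rw [← map_add]
    congr 1
    ext i
    simp [Sv.r_add (h1 i) (h2 i)]
  intro c hc w
  refine ⟨c • (B.repr w).mapRange (algebraMap K k) (map_zero _),
    fun i => mul_mem hc (hV _ ⟨_, rfl⟩).1, by rw [map_smul, ← grd_j], ?_⟩
  rw [grd_j X B w, ← map_smul]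
  congr 1
  ext i
  simp [Sv.r_mul hc (hV _ ⟨B.repr w i, rfl⟩).1, (hV _ ⟨B.repr w i, rfl⟩).2]

lemma grd_of_co {g : ι →₀ k} (h : ∀ i, g i ∈ V.O) :
    X.Rd V (grd_lc X B g) (grd_lc X B (g.mapRange V.r V.r_zero)) := by
  rw [grd_lc, Finsupp.linearCombination_apply, Finsupp.linearCombination_apply,
    Finsupp.sum_mapRange_index (by simp)]
  exact grd_sum _ fun i => grd_gen X V (h i) _

lemma grd_uniq (hV : V.Fx (Set.range (algebraMap K k))) {z a b : E} (h : X.Rd V z a)
    (h' : X.Rd V z b) : a = b := by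
  obtain ⟨g, -, e, rfl⟩ := grd_co (Basis.ofVectorSpace K F) hV h
  obtain ⟨g', -, e', rfl⟩ := grd_co (Basis.ofVectorSpace K F) hV h'
  rw [grd_inj X _ (e.symm.trans e')]

lemma grd_scale {z : E} (hz : z ∈ Submodule.span k (Set.range X.j)) (h0 : z ≠ 0) :
    ∃ (c : k) (a : E), c ≠ 0 ∧ a ≠ 0 ∧ X.Rd V (c • z) a := by
  let B := Basis.ofVectorSpace K F
  obtain ⟨g, rfl⟩ : z ∈ LinearMap.range (grd_lc X B) :=
    Submodule.span_le.2 (by rintro _ ⟨w, rfl⟩; exact ⟨_, (grd_j X B w).symm⟩) hz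
  have g0 : g ≠ 0 := fun e => h0 (by rw [e, map_zero])
  obtain ⟨i, hi, hm⟩ := exists_max_image g.support (fun i => V.O.valuation (g i))
    (Finsupp.support_nonempty_iff.2 g0)
  have hi0 := Finsupp.mem_support_iff.1 hi
  have hO : ∀ l, ((g i)⁻¹ • g) l ∈ V.O := fun l => by
    by_cases hl : l ∈ g.support
    · rw [← V.O.valuation_le_one_iff, Finsupp.smul_apply, smul_eq_mul, map_mul, map_inv₀]
      exact inv_mul_le_one_of_le₀ (hm l hl) zero_le
    · rw [Finsupp.smul_apply, Finsupp.notMem_support_iff.1 hl, smul_zero]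
      exact zero_mem _
  refine ⟨(g i)⁻¹, _, inv_ne_zero hi0, fun e => ?_, by rw [← map_smul]; exact grd_of_co B hO⟩
  have := DFunLike.congr_fun (grd_inj X B (e.trans (map_zero _).symm)) i
  simp [inv_mul_cancel₀ hi0] at this

lemma grd_last (hV : V.Fx (Set.range (algebraMap K k))) {ι : Type} [Fintype ι] (b : ι → F)
    (c : ι → k) (a : E) (hb : LinearIndependent K b) (h : X.Rd V (∑ i, c i • X.j (b i)) a) :
    (∀ i, c i ∈ V.O) ∧ a = ∑ i, V.r (c i) • X.j (b i) := by
  have hs := hb.linearIndepOn_id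
  let β : ι → hs.extend (Set.subset_univ _) := fun i => ⟨b i, hs.subset_extend _ ⟨i, rfl⟩⟩
  have βi : Function.Injective β := fun i i' e => hb.injective (congrArg Subtype.val e)
  obtain ⟨g, h1, e, -⟩ := grd_co (Basis.extend hs) hV h
  have e' : grd_lc X (Basis.extend hs) (∑ i, Finsupp.single (β i) (c i)) =
      ∑ i, c i • X.j (b i) := by
    rw [map_sum]
    refine sum_congr rfl fun i _ => ?_
    rw [grd_lc, Finsupp.linearCombination_single, Function.comp_apply, Basis.extend_apply_self]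
  have hc : ∀ i, c i ∈ V.O := fun i => by
    have := h1 (β i)
    rw [← grd_inj X _ (e'.trans e), Finsupp.finsetSum_apply, sum_eq_single i
      (fun l _ hl => Finsupp.single_eq_of_ne (βi.ne hl.symm)) (by simp),
      Finsupp.single_eq_same] at this
    exact this
  exact ⟨hc, grd_uniq hV h (grd_sum _ fun i => grd_gen X V (hc i) _)⟩

end

theorem p_GRD :
    S_GRD := by
  intro K F k E _ _ _ _ _ _ _ _ _ _ _ _ X t _ V hV
  refine ⟨fun _ _ _ => grd_uniq hV, fun w => ?_, fun _ _ _ _ h h' => ⟨grd_add h h', grd_mul h h'⟩,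
    fun _ _ _ hc h => grd_smul hc h, fun _ => grd_scale,
    fun ι _ b c a hb h => grd_last hV b c a hb h⟩
  simpa using grd_gen X V (one_mem _) w

end

section

open WithZero Module Finset
open Pool.Agent.P.MP_6f117a_ag (Place FF)
open Pool.Agent.P.MP_ab3ecb_nt.Inv
open Pool.Agent.P.MP_9344a7_nt.Gt (pt lS Pr Can Bd Ch G12)
open scoped Classical IntermediateField

section

variable {k E : Type} [Field k] [Field E] [Algebra k E] [IsAlgClosed k] [FF k E]
  {g : ℕ} {W D D' : Dv k E}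

lemma gpen_bpf (h : Can g W) (hD : 2 * (g : ℤ) ≤ deg D) (P : Place k E) :
    ¬ LS D ≤ LS (D - pt P) := fun e => by
  have h3 : deg (D - pt P) = deg D - 1 := by rw [map_sub, deg_single]
  have h1 := h.big (D := D) (by omega)
  have h2 := h.big (D := D - pt P) (by omega)
  obtain ⟨z, z1, z2⟩ := Gt.exists_of_lS_lt (D := D - pt P) (D' := D) (by omega)
  exact z2 (e z1)

lemma gpen_ex (h : Can g W) (hD : 2 * (g : ℤ) ≤ deg D) (X : Finset (Place k E)) :
    ∃ b ∈ LS D, b ≠ 0 ∧ ∀ P ∈ X, b ∉ LS (D - pt P) := by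
  obtain ⟨b, hb⟩ := Submodule.exists_forall_notMem_of_forall_ne_top
    (fun o : Option X => (o.elim ⊥ fun P => LS (D - pt P.1)).comap (LS D).subtype) fun o e => by
      have e1 := Submodule.comap_subtype_eq_top.1 e
      cases o with
      | none =>
        have h1 := h.big (D := D) (by omega)
        have h2 : lS D = 0 := Gt.lS_eq_zero.2 fun z hz => e1 hz
        omega
      | some P => exact gpen_bpf h hD P.1 e1
  exact ⟨b, b.2, fun e => hb none e, fun P hP => hb (some ⟨P, hP⟩)⟩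

lemma gpen_le (h : Can g W) (hD : 2 * (g : ℤ) ≤ deg D) (e : LS D ≤ LS D') : D ≤ D' := fun P => by
  by_contra n
  refine gpen_bpf h hD P fun z hz => Gt.mem_LS_sub_pt.2 ⟨hz, ?_⟩
  exact (mem_LS.1 (e hz) P).trans_lt (exp_lt_exp.2 (not_le.1 n))

lemma gpen_mem {a x : E} (ha : a ≠ 0) (h1 : a ∈ LS D') (hx : x ∈ LS (D - dv k a)) :
    x ∈ LS D * LS D' := by
  have := Gt.mul_mem_LS ((mem_LS' (D := dv k a) (inv_ne_zero ha)).2 (by simp)) hx
  rw [add_sub_cancel] at this
  have h2 := Submodule.mul_mem_mul this h1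
  rwa [mul_right_comm, inv_mul_cancel₀ ha, one_mul] at h2

end

theorem p_GPEN :
    S_GPEN := by
  intro k E _ _ _ _ _ g W A B h hB hA
  refine ⟨?_, fun B' f hf hB' e => ?_⟩
  · obtain ⟨a, ha, a0, -⟩ := gpen_ex h hB ∅
    obtain ⟨b, hb, b0, hab⟩ := gpen_ex h hB (dv k a + B).support
    have ha' := (mem_LS' a0).1 ha
    have hb' := (mem_LS' b0).1 hb
    have e : (A - dv k a) ⊓ (A - dv k b) = A - B - dv k a - dv k b := by
      ext P
      have h1 : 0 ≤ (dv k a + B) P := ha' P
      have h2 : 0 ≤ (dv k b + B) P := hb' P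
      have h3 := fun n => hab P (Finsupp.mem_support_iff.2 n)
      rw [Gt.mem_LS_sub_pt, lt_exp_iff b0, and_iff_right hb] at h3
      simp only [Finsupp.inf_apply, Finsupp.sub_apply, Finsupp.add_apply, dv_apply] at *
      omega
    have le : ∀ {c : E}, 0 ≤ dv k c + B → LS (A - dv k c) ≤ LS (A + B) := fun {c} hc =>
      LS_mono (sub_nonneg.1 (hc.trans_eq (by abel)))
    have d : ∀ c : E, deg (A - dv k c) = deg A := fun c => by rw [map_sub, deg_dv, sub_zero]
    have d1 : deg (A - B - dv k a - dv k b) = deg A - deg B := by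
      rw [map_sub, map_sub, map_sub, deg_dv, deg_dv]; ring
    have d3 : deg (A + B) = deg A + deg B := map_add _ _ _
    have da := d a
    have db := d b
    have l1 := h.big (D := A - B - dv k a - dv k b) (by omega)
    have la := h.big (D := A - dv k a) (by omega)
    have lb := h.big (D := A - dv k b) (by omega)
    have l3 := h.big (D := A + B) (by omega)
    have := rr_fd (A - dv k a)
    have := rr_fd (A - dv k b)
    have := rr_fd (A + B)
    have s := Submodule.finrank_sup_add_finrank_inf_eq (LS (A - dv k a)) (LS (A - dv k b))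
    rw [R.LS_inf, e] at s
    have t := Submodule.eq_of_le_of_finrank_le (sup_le (le ha') (le hb')) (by
      unfold lS at l1 la lb l3
      omega)
    exact t.ge.trans (sup_le (fun x hx => gpen_mem a0 ha hx) fun x hx => gpen_mem b0 hb hx)
  · have e1 : LS B = LS (B' + dv k f) := by
      ext z
      rcases eq_or_ne z 0 with rfl | z0
      · simp
      · rw [e, mem_LS' (mul_ne_zero hf z0), mem_LS' z0, dv_mul hf z0]
        exact iff_of_eq (congrArg _ (by abel))
    have e2 := le_antisymm (gpen_le h hB e1.le)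
      (gpen_le h (by rw [map_add, deg_dv]; omega) e1.ge)
    exact ⟨f⁻¹, inv_ne_zero hf, by rw [e2]; simp⟩

end

end Pool.Agent.P.MP_9344a7_nt.Ac
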