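import Pool.Agent.P.MP_9344a7_nt.Ac.IfaceG
import Pool.Agent.P.MP_9344a7_nt.Ac.Iface
import Pool.Agent.P.MP_9344a7_nt.Ac.IfaceC

/-! Steps GRDD, GSP2, GCOL, GS6, GVT. -/

set_option linter.unusedVariables false
set_option linter.unusedSectionVars false

namespace Pool.Agent.P.MP_9344a7_nt.Ac

section

open WithZero Module Finset
open Pool.Agent.P.MP_6f117a_ag (Place FF)
open Pool.Agent.P.MP_ab3ecb_nt.Inv
open Pool.Agent.P.MP_9344a7_nt.Gt (pt lS Pr Can Bd Ch G12)
open scoped Classical IntermediateField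

lemma grdd_max {k ι : Type} [Field k] (V : Sv k) (s : Finset ι) (c : ι → k) {i : ι} (hi : i ∈ s)
    (h0 : c i ≠ 0) : ∃ l ∈ s, c l ≠ 0 ∧ ∀ m ∈ s, (c l)⁻¹ * c m ∈ V.O := by
  obtain ⟨l, hl, h⟩ := exists_max_image s (fun m => V.O.valuation (c m)) ⟨i, hi⟩
  have h1 : 0 < V.O.valuation (c l) :=
    lt_of_lt_of_le (zero_lt_iff.2 ((Valuation.ne_zero_iff _).2 h0)) (h i hi)
  refine ⟨l, hl, (Valuation.ne_zero_iff _).1 h1.ne', fun m hm => ?_⟩
  rw [← V.O.valuation_le_one_iff, map_mul, map_inv₀, inv_mul_le_iff₀ h1, mul_one]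
  exact h m hm

lemma grdd_low {k ι : Type} [Field k] (V : Sv k) (m : ℕ) : ∀ U : Submodule k (ι →₀ k),
    FiniteDimensional k U → m ≤ finrank k U → ∃ u : Fin m → ι →₀ k,
      (∀ a, u a ∈ U ∧ ∀ i, u a i ∈ V.O) ∧
        LinearIndependent k fun a => (u a).mapRange V.r V.r_zero := by
  induction m with
  | zero => exact fun U _ _ => ⟨Fin.elim0, fun a => a.elim0, linearIndependent_empty_type⟩
  | succ m ih =>
    intro U _ hm
    obtain ⟨v, hv, h0⟩ := U.exists_mem_ne_zero_of_ne_bot (by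
      rintro rfl
      simp at hm)
    obtain ⟨i, hi⟩ := Finsupp.support_nonempty_iff.2 h0
    obtain ⟨l, -, h1, h2⟩ := grdd_max V v.support v hi (Finsupp.mem_support_iff.1 hi)
    have h3 := LinearMap.finrank_range_add_finrank_ker (K := k) (V := U) (V₂ := k)
      ((Finsupp.lapply l).domRestrict U)
    have h4 := Submodule.finrank_le (LinearMap.range ((Finsupp.lapply l).domRestrict U :
      U →ₗ[k] k))
    rw [finrank_self] at h4
    obtain ⟨u, h5, h6⟩ := ih ((LinearMap.ker ((Finsupp.lapply l).domRestrict U :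
      U →ₗ[k] k)).map U.subtype) (Submodule.finiteDimensional_of_le (Submodule.map_subtype_le _ _))
      (by
        rw [Submodule.finrank_map_subtype_eq]
        omega)
    have h7 : ∀ a, u a ∈ U ∧ u a l = 0 := fun a => by
      obtain ⟨x, a1, a2⟩ := (h5 a).1
      exact a2 ▸ ⟨x.2, a1⟩
    have h8 : ∀ j, ((v l)⁻¹ • v) j ∈ V.O := fun j => by
      by_cases hj : j ∈ v.support
      · exact h2 j hj
      · simp [Finsupp.notMem_support_iff.1 hj]
    refine ⟨Fin.cons ((v l)⁻¹ • v) u, Fin.cases ⟨U.smul_mem _ hv, h8⟩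
      fun a => ⟨(h7 a).1, (h5 a).2⟩, ?_⟩
    · have e : (fun a => ((Fin.cons ((v l)⁻¹ • v) u : Fin (m + 1) → ι →₀ k) a).mapRange V.r
          V.r_zero) = Fin.cons (((v l)⁻¹ • v).mapRange V.r V.r_zero)
            fun a => (u a).mapRange V.r V.r_zero := funext (Fin.cases rfl fun _ => rfl)
      rw [e, linearIndependent_finCons]
      refine ⟨h6, fun g => ?_⟩
      have := Submodule.span_le (p := LinearMap.ker (Finsupp.lapply l : _ →ₗ[k] k)).2 (by
        rintro _ ⟨a, rfl⟩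
        simp [(h7 a).2]) g
      simp [h1] at this

theorem p_GRDD (hGRD : S_GRD) :
    S_GRDD := by
  intro K F k E _ _ _ _ _ _ _ _ _ _ _ _ X t ht V hV U hU _
  obtain ⟨h1, h2, h3, h4, -⟩ := hGRD K F k E X t ht V hV
  have h0 : X.Rd V 0 0 := by simpa using h4 _ _ 0 V.O.zero_mem (h2 0)
  have hs : ∀ {ι : Type} (s : Finset ι) (c : ι → k) (z a : ι → E), (∀ i ∈ s, c i ∈ V.O) →
      (∀ i, X.Rd V (z i) (a i)) → X.Rd V (∑ i ∈ s, c i • z i) (∑ i ∈ s, V.r (c i) • a i) := by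
    intro ι s c z a g1 g2
    induction s using Finset.induction_on with
    | empty => simpa using h0
    | insert i s hi ih =>
      rw [sum_insert hi, sum_insert hi]
      exact (h3 _ _ _ _ (h4 _ _ _ (g1 i (mem_insert_self _ _)) (g2 i))
        (ih fun l hl => g1 l (mem_insert_of_mem hl))).1
  obtain ⟨b, b1, b2, b3⟩ := exists_linearIndependent k {z' | ∃ z ∈ U, X.Rd V z z'}
  choose z z1 z2 using fun x : b => b1 x.2
  have hz : LinearIndependent k fun x => (⟨z x, z1 x⟩ : U) := by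
    refine LinearIndependent.of_comp U.subtype (linearIndependent_iff'.2 fun s c g i hi => ?_)
    by_contra hn
    obtain ⟨l, a1, a2, a3⟩ := grdd_max V s c hi hn
    have a4 := hs s _ z _ a3 z2
    have a5 : ∑ m ∈ s, ((c l)⁻¹ * c m) • z m = 0 := by
      simp only [mul_smul]
      rw [← smul_sum]
      exact (congrArg _ g).trans (smul_zero _)
    rw [a5] at a4
    have a6 := linearIndependent_iff'.1 b3 s _ (h1 _ _ _ a4 h0) l a1
    rw [inv_mul_cancel₀ a2, V.r_one] at a6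
    exact one_ne_zero a6
  have := hz.finite
  have := Fintype.ofFinite b
  have hf : FiniteDimensional k (X.Red V U) := by
    rw [Ex.Red, ← b2]
    exact FiniteDimensional.span_of_finite k (Set.toFinite b)
  refine ⟨hf, le_antisymm ?_ ?_⟩
  · rw [Ex.Red, ← b2, finrank_span_set_eq_card b3, Set.toFinset_card]
    exact hz.fintype_card_le_finrank
  set B := Basis.ofVectorSpace K F
  have hT := X.ce.lin _ B B.linearIndependent
  set T := Finsupp.linearCombination k (X.j ∘ B) with hTd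
  have hr : U ≤ LinearMap.range T := hU.trans (Submodule.span_le.2 (by
    rintro _ ⟨w, rfl⟩
    rw [← B.linearCombination_repr w, Finsupp.linearCombination_apply, Finsupp.sum, map_sum]
    refine sum_mem fun i _ => ?_
    rw [Algebra.smul_def, map_mul, X.ce.comm, ← Algebra.smul_def]
    exact Submodule.smul_mem _ _ ⟨Finsupp.single i 1, by simp [hTd]⟩))
  have hc : FiniteDimensional k (U.comap T) :=
    FiniteDimensional.of_injective (T.restrict (q := U) fun _ g => g) fun x y g =>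
      Subtype.ext (hT (congrArg Subtype.val g))
  obtain ⟨u, u1, u2⟩ := grdd_low V (finrank k U) (U.comap T) hc (by
    conv_lhs => rw [← Submodule.map_comap_eq_self hr]
    exact Submodule.finrank_map_le _ _)
  have hm : ∀ a, T ((u a).mapRange V.r V.r_zero) ∈ X.Red V U := fun a => by
    refine Submodule.subset_span ⟨T (u a), (u1 a).1, ?_⟩
    rw [hTd, Finsupp.linearCombination_apply, Finsupp.linearCombination_apply,
      Finsupp.sum_mapRange_index (by simp)]
    exact hs _ _ _ _ (fun i _ => (u1 a).2 i) fun i => h2 _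
  have hl : LinearIndependent k fun a => (⟨_, hm a⟩ : X.Red V U) :=
    LinearIndependent.of_comp (X.Red V U).subtype (u2.map' T (LinearMap.ker_eq_bot.2 hT))
  simpa using hl.fintype_card_le_finrank

end

section

open WithZero Module Finset
open Pool.Agent.P.MP_6f117a_ag (Place FF)
open Pool.Agent.P.MP_ab3ecb_nt.Inv
open Pool.Agent.P.MP_9344a7_nt.Gt (pt lS Pr Can Bd Ch G12)
open scoped Classical IntermediateField

lemma gsp2_ind {k E : Type} [Field k] [Field E] [Algebra k E] (p : Dv k E → Prop) (h0 : p 0)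
    (hs : ∀ Z Y, 0 ≤ Z → p Z → p (Z + pt Y)) (Z : Dv k E) (hZ : 0 ≤ Z) : p Z := by
  obtain ⟨m, hm⟩ := Int.eq_ofNat_of_zero_le (deg_nonneg hZ)
  induction m generalizing Z with
  | zero => rwa [eq_zero_of_deg hZ hm]
  | succ m ih =>
    obtain ⟨Y, hY⟩ : ∃ Y, Z Y ≠ 0 := by_contra fun e => by
      push Not at e
      rw [show Z = 0 from Finsupp.ext e, map_zero] at hm
      omega
    have h1 : 0 ≤ Z - pt Y := fun Q => by
      have : 0 ≤ Z Q := hZ Q
      rcases eq_or_ne Q Y with rfl | e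
      · simp only [Finsupp.sub_apply, Finsupp.single_eq_same, Finsupp.coe_zero, Pi.zero_apply]
        omega
      · rwa [Finsupp.sub_apply, Gt.pt_ne e, sub_zero]
    rw [← sub_add_cancel Z (pt Y)]
    exact hs _ _ h1 (ih _ h1 (by rw [map_sub, deg_single, hm]; push_cast; ring))

theorem p_GSP2 (hGBC : S_GBC) (hGBC2 : S_GBC2) (hGRD : S_GRD) (hGRDD : S_GRDD) (hGSP1 : S_GSP1) (hGPEN : S_GPEN) :
    S_GSP2 := by
  intro n K F k E _ _ _ _ _ _ _ _ _ _ _ _ C X hn V sp hV hsp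
  have can := (hGBC2 n K F k E C X hn).1
  have h1 := hGSP1 K F k E X C.t C.ht V sp hV hsp
  have mul := (hGRD K F k E X C.t C.ht V hV).2.2.1
  have dm : ∀ (N : Dv K F) (Z : Dv k E), 0 ≤ Z → 2 * ((n + 1 : ℕ) : ℤ) - 1 ≤ deg N - deg Z →
      FiniteDimensional k (X.Red V (LS (X.up N - Z))) ∧
      finrank k (X.Red V (LS (X.up N - Z))) = finrank k (LS (X.up N - Z.mapDomain sp)) := by
    intro N Z hZ hd
    obtain ⟨a, b⟩ := hGRDD K F k E X C.t C.ht V hV (LS (X.up N - Z)) (by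
      refine (LS_mono (sub_le_self _ hZ)).trans ?_
      rw [(hGBC K F k E X C.t C.ht N).1]
      exact Submodule.span_mono (Set.image_subset_range _ _)) (R.rr_fd _)
    refine ⟨a, b.trans ?_⟩
    have e1 := can.big (D := X.up N - Z) (by rwa [map_sub, X.deg_up])
    have e2 := can.big (D := X.up N - Z.mapDomain sp) (by rwa [map_sub, X.deg_up, deg_map])
    rw [map_sub, X.deg_up] at e1 e2
    rw [deg_map, ← e1] at e2
    exact_mod_cast e2.symm
  obtain ⟨O⟩ : Nonempty (Place K F) := have := (j_WA K F ⟨C.t, C.ht⟩).1; inferInstance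
  refine gsp2_ind _ ⟨0, fun N _ => by simpa using (h1 N).1⟩ ?_
  rintro Z Y hZ ⟨c, hc⟩
  refine ⟨max c (4 * (n + 1) + deg Z) + (2 * (n + 1) + 1), fun N hN => ?_⟩
  obtain ⟨M, hM⟩ : ∃ M : Dv K F, deg M = 2 * (n + 1) + 1 := ⟨Finsupp.single O _, deg_single _ _⟩
  have c1 := le_max_left c (4 * (n + 1) + deg Z)
  have c2 := le_max_right c (4 * (n + 1) + deg Z)
  have hB : X.Red V (LS (X.up M - pt Y)) = LS (X.up M - pt (sp Y)) := by
    have := R.rr_fd (X.up M - pt (sp Y))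
    refine Submodule.eq_of_le_of_finrank_eq ((h1 M).2 Y) ?_
    have := (dm M (pt Y) (Gt.pt_nonneg Y) (by rw [deg_single]; push_cast; omega)).2
    rwa [Finsupp.mapDomain_single] at this
  obtain ⟨a, b⟩ := dm N (Z + pt Y) (add_nonneg hZ (Gt.pt_nonneg Y)) (by
    rw [map_add, deg_single]; push_cast; omega)
  refine (Submodule.eq_of_le_of_finrank_eq ?_ b.symm).symm
  have e : X.up N - (Z + pt Y).mapDomain sp =
      X.up (N - M) - Z.mapDomain sp + (X.up M - pt (sp Y)) := by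
    rw [Finsupp.mapDomain_add, Finsupp.mapDomain_single, map_sub]
    abel
  rw [e]
  refine (hGPEN k E _ _ _ _ can ?_ ?_).1.trans ?_
  · rw [map_sub, X.deg_up, deg_single]; push_cast; omega
  · rw [map_sub, map_sub, X.deg_up, X.deg_up, deg_single, deg_map, map_sub]; push_cast; omega
  rw [← hB, ← hc (N - M) (by rw [map_sub]; omega), Ex.Red, Ex.Red, Submodule.span_mul_span]
  refine Submodule.span_mono ?_
  rintro _ ⟨a, ⟨z, hz, ha⟩, a', ⟨z', hz', ha'⟩, rfl⟩
  refine ⟨z * z', ?_, (mul z z' a a' ha ha').2⟩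
  have := Gt.mul_mem_LS hz hz'
  rwa [show X.up (N - M) - Z + (X.up M - pt Y) = X.up N - (Z + pt Y) by
    rw [map_sub]; abel] at this

end

section

open WithZero Module Finset
open Pool.Agent.P.MP_6f117a_ag (Place FF)
open Pool.Agent.P.MP_ab3ecb_nt.Inv
open Pool.Agent.P.MP_9344a7_nt.Gt (pt lS Pr Can Bd Ch G12)
open scoped Classical IntermediateField

lemma gcol_ann {k ι : Type} [Field k] [Fintype ι] {n : ℕ} (v : ι → Fin (n + 1) → k)
    (hv : LinearIndependent k v) (hc : Fintype.card ι + 1 = n) (u : Fin 2 → Fin (n + 1) → k)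
    (hu : LinearIndependent k u) (h0 : ∀ s i, u s ⬝ᵥ v i = 0) (c : Fin (n + 1) → k)
    (h1 : ∀ i, c ⬝ᵥ v i = 0) : ∃ a b : k, a • u 0 + b • u 1 = c := by
  let M : Matrix ι (Fin (n + 1)) k := Matrix.of v
  have r : M.rank = Fintype.card ι := LinearIndependent.rank_matrix hv
  have e := M.mulVecLin.finrank_range_add_finrank_ker
  rw [finrank_fin_fun] at e
  have m : ∀ z, (∀ i, z ⬝ᵥ v i = 0) → z ∈ LinearMap.ker M.mulVecLin := fun z hz =>
    funext fun i => (dotProduct_comm _ _).trans (hz i)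
  have le : Submodule.span k (Set.range u) ≤ LinearMap.ker M.mulVecLin :=
    Submodule.span_le.2 (by rintro _ ⟨s, rfl⟩; exact m _ (h0 s))
  have eq := Submodule.eq_of_le_of_finrank_le le (by
    rw [finrank_span_eq_card hu, Fintype.card_fin]
    unfold Matrix.rank at r
    omega)
  obtain ⟨a, ha⟩ := (Submodule.mem_span_range_iff_exists_fun k).1 (eq.ge (m c h1))
  exact ⟨a 0, a 1, by rwa [Fin.sum_univ_two] at ha⟩

lemma gcol_pen (hPEN : S_PEN) (hGBC2 : S_GBC2) (hGSEC : S_GSEC) (hGNS : S_GNS) (hGGR : S_GGR)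
    (n : ℕ) (K F k E : Type) [Field K] [IsAlgClosed K] [CharZero K] [Field F]
    [Algebra K F] [FF K F] [Field k] [IsAlgClosed k] [Algebra K k] [Field E] [Algebra k E] [FF k E]
    (C : Cd n K F) (X : Ex K F k E) (hn : 2 ≤ n) (ι : Type) [Fintype ι] (φ : ι → F →ₐ[K] k)
    (hφ : AlgebraicIndependent K fun i => φ i C.t) (hc : Fintype.card ι + 1 = n) :
    ∃ u : Fin 2 → Fin (n + 1) → k, LinearIndependent k u ∧ (∀ s i, u s ⬝ᵥ C.co (φ i) = 0) ∧
      Dg k (X.sec C (u 0) / X.sec C (u 1)) (n + 1) ∧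
      SBr k (X.sec C (u 0) / X.sec C (u 1)) (n + 1) ∧ X.sec C (u 1) ≠ 0 ∧
      ∀ y, (∀ i, y ≠ φ i) → u 0 ⬝ᵥ C.co y ≠ 0 ∨ u 1 ⬝ᵥ C.co y ≠ 0 := by
  have can := (hGBC2 n K F k E C X hn).1
  obtain ⟨s1, -, s3, -⟩ := hGSEC n K F k E C X hn
  have l1 := (hGNS n K F k E C X hn ι φ).1 hφ (by omega)
  obtain ⟨P0⟩ := (j_WA K F ⟨C.t, C.ht⟩).1.nonempty
  have gr := hGGR n K F k E C X hn ι φ hφ hc P0
  set W := X.up C.W with hW
  set R := X.gs φ with hR
  have R0 : 0 ≤ R := Gt.sum_pt_nonneg _ _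
  have dR : deg R = Fintype.card ι := Gt.deg_sum_pt _ _
  have dW := can.deg_W
  have l2 : lS (W - R) = 2 := by
    have := can R
    push_cast at this
    omega
  obtain ⟨x, hx⟩ := exists_linearIndependent_of_le_finrank (R := k) (M := LS (W - R)) l2.ge
  have hx' : LinearIndependent k fun s => (x s).1 := hx.map' (LS (W - R)).subtype (by simp)
  choose u hu using fun s => (s1 (x s).1).1 (LS_mono (sub_le_self _ R0) (x s).2)
  have mem : ∀ s, X.sec C (u s) ∈ LS (W - R) := fun s => hu s ▸ (x s).2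
  have li : LinearIndependent k fun s => X.sec C (u s) := by simpa only [hu] using hx'
  have nz : ∀ a b : k, a ≠ 0 ∨ b ≠ 0 → a • X.sec C (u 0) + b • X.sec C (u 1) ≠ 0 :=
    fun a b h e => by
      have := Fintype.linearIndependent_iff.1 li ![a, b] (by simpa using e)
      exact h.elim (· (this 0)) (· (this 1))
  have bpf : ∀ P : Place k E, ¬ (P.v (X.sec C (u 0)) < exp ((W - R) P) ∧
      P.v (X.sec C (u 1)) < exp ((W - R) P)) := fun P h => by
    have m : ∀ s, X.sec C (u s) ∈ LS (W - R - pt P) := Fin.forall_fin_two.2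
      ⟨Gt.mem_LS_sub_pt.2 ⟨mem 0, h.1⟩, Gt.mem_LS_sub_pt.2 ⟨mem 1, h.2⟩⟩
    have := MP_9344a7_nt.R.rr_fd (W - R - pt P)
    have a := (LinearIndependent.of_comp (v := fun s => (⟨_, m s⟩ : LS (W - R - pt P)))
      (LS (W - R - pt P)).subtype li).fintype_card_le_finrank
    have b := can (R + pt P)
    rw [gr.bpf, map_add, deg_single, ← sub_sub, lS] at b
    rw [Fintype.card_fin] at a
    push_cast at b
    omega
  obtain ⟨p1, p2, p3, -⟩ := hPEN k E (W - R) _ _ (n + 1) (by omega)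
    (by rw [map_sub]; push_cast at dW ⊢; omega) (mem 0) (mem 1) bpf nz
  have sb : ∀ z ∈ LS (W - R), z ≠ 0 → n + 1 ≤ #(dv k z + (W - R)).support + 1 := fun z hz z0 => by
    have a := (gr.sb (dv k z + (W - R) + R) (le_add_of_nonneg_left ((mem_LS' z0).1 hz))
      ⟨z, z0, by abel⟩).1
    have b := (card_le_card (Finsupp.support_add (g₁ := dv k z + (W - R)) (g₂ := R))).trans
      (card_union_le _ _)
    have c := Gt.card_support_le R0
    omega
  have n1 : X.sec C (u 1) ≠ 0 := by simpa using nz 0 1 (.inr one_ne_zero)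
  refine ⟨u, li.of_comp (X.sec C), fun s i => ?_, p1, ⟨fun c => ⟨_, sb _ (sub_mem (mem 0)
    (Submodule.smul_mem _ c (mem 1))) ?_, fun P => (p2 c P).1⟩, _, sb _ (mem 1) n1,
    fun P => (p3 P).1⟩, n1, fun y hy => ?_⟩
  · rw [← (s3 _ _).2]
    refine ev_of_lt ((mem_LS.1 (mem s) _).trans_lt ?_)
    have a : R (X.pl (φ i)) ≠ 0 := fun e => Gt.sum_pt_eq_zero.1 e i rfl
    have b : 0 ≤ R (X.pl (φ i)) := R0 _
    rw [Finsupp.sub_apply, hW, X.up_pl, ← exp_zero, exp_lt_exp]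
    omega
  · simpa [sub_eq_add_neg] using nz 1 (-c) (.inl one_ne_zero)
  · by_contra e
    push Not at e
    have a : (W - R) (X.pl y) = 0 := by
      rw [Finsupp.sub_apply, hW, X.up_pl, zero_sub, neg_eq_zero]
      exact Gt.sum_pt_eq_zero.2 fun i h => hy i (X.cl.pl_inj h).symm
    refine bpf (X.pl y) ?_
    rw [a, exp_zero, ← ev_eq_zero_iff (s3 _ _).1, ← ev_eq_zero_iff (s3 _ _).1, (s3 _ _).2,
      (s3 _ _).2]
    exact e

theorem p_GCOL (hCOL : S_COL) (hPEN : S_PEN) (hGEX : S_GEX) (hGLF : S_GLF) (hGBC : S_GBC) (hGBC2 : S_GBC2) (hGSEC : S_GSEC) (hGNS : S_GNS) (hGBPF : S_GBPF) (hGGR : S_GGR) :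
    S_GCOL := by
  intro n K F k E _ _ _ _ _ _ _ _ _ _ _ _ C X hn ι _ φ y y' c hφ hc hy hy' hne c0 h0 h1 h2
  set L := acl K (Set.range fun i => φ i C.t) with hL
  obtain ⟨E', _, _, _, ⟨X'⟩⟩ := hGEX K F L C.t C.ht
  have fac : ∀ z : F →ₐ[K] k, z C.t ∈ L → ∃ z' : F →ₐ[K] L, ∀ w, algebraMap L k (z' w) = z w :=
    fun z h => ⟨z.codRestrict L.toSubalgebra (emb_mem_acl C.ht z h), fun _ => rfl⟩
  choose φ' e' using fun i => fac (φ i) (subset_acl _ ⟨i, rfl⟩)
  have hφ' : AlgebraicIndependent K fun i => φ' i C.t :=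
    .of_comp L.val (by convert hφ using 1; exact funext fun i => e' i _)
  obtain ⟨u, u1, u2, u3, u4, u5, u6⟩ := gcol_pen hPEN hGBC2 hGSEC hGNS hGGR n K F L E' C X' hn ι φ'
    hφ' hc
  have dot : ∀ (z : F →ₐ[K] k) (z' : F →ₐ[K] L), (∀ w, algebraMap L k (z' w) = z w) → ∀ s,
      (algebraMap L k ∘ u s) ⬝ᵥ C.co z = algebraMap L k (u s ⬝ᵥ C.co z') := fun z z' h s => by
    simp only [dotProduct, map_sum, map_mul, Cd.co, h, Function.comp]
  have inj : Function.Injective φ := fun i j e => hφ.injective (by simp only [e])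
  obtain ⟨g1, g2⟩ := hGNS n K F k E C X hn ι φ
  obtain ⟨a, b, ab⟩ := gcol_ann _ ((g2 inj).1 (g1 hφ (by omega))) hc
    (fun s => algebraMap L k ∘ u s) (linearIndependent_algebraMap_comp_iff.2 u1)
    (fun s i => by rw [dot _ _ (e' i), u2, map_zero]) c h0
  rw [← ab, add_dotProduct, smul_dotProduct, smul_dotProduct, smul_eq_mul, smul_eq_mul] at h1 h2
  have lift : ∀ z : F →ₐ[K] k, z C.t ∉ L → ∃ Z : E' →ₐ[L] k, (∀ w, Z (X'.j w) = z w) ∧
      ∀ s, Z (X'.sec C (u s)) = (algebraMap L k ∘ u s) ⬝ᵥ C.co z := fun z h => by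
    obtain ⟨Z, hZ, -⟩ := hGLF K F L E' k X'.j X'.act C.t z X'.ce C.ht (mt mem_acl_of_alg h)
    refine ⟨Z, hZ, fun s => ?_⟩
    simp only [X'.sec_eq, map_sum, map_mul, hZ, dotProduct, Algebra.smul_def, Cd.co, Function.comp,
      AlgHom.commutes]
  obtain ⟨Y, Y1, Y2⟩ := lift y hy
  have val : ∀ A B : k, a * A + b * B = 0 → A ≠ 0 ∨ B ≠ 0 → a ≠ 0 → A / B = -b / a :=
    fun A B h h' a0 => by
      have B0 : B ≠ 0 := fun e => by simp [e, a0] at h h'; exact h' h
      field_simp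
      linear_combination h
  have B0 := (map_ne_zero Y).2 u5
  rw [Y2] at B0
  have a0 : a ≠ 0 := fun e => c0 (by
    rw [e, zero_mul, zero_add, mul_eq_zero, or_iff_left B0] at h1
    rw [← ab, e, h1, zero_smul, zero_smul, add_zero])
  have Y3 : Y (X'.sec C (u 0) / X'.sec C (u 1)) = -b / a := by
    rw [map_div₀, Y2, Y2, val _ _ h1 (.inr B0) a0]
  have hy2 : y' C.t ∉ L := fun h => by
    obtain ⟨z, hz⟩ := fac y' h
    rw [dot _ _ hz, dot _ _ hz] at h2
    have := val _ _ h2 ((u6 z fun i e => hy' i (AlgHom.ext fun w => by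
      rw [← hz, e, e'])).imp (map_ne_zero _).2 (map_ne_zero _).2) a0
    refine u3.tr ((isAlgebraic_algHom_iff Y Y.injective).1 ?_)
    rw [Y3, ← this, ← map_div₀]
    exact isAlgebraic_algebraMap _
  obtain ⟨Y', Z1, Z2⟩ := lift y' hy2
  have B1 := (map_ne_zero Y').2 u5
  rw [Z2] at B1
  have : CharZero L := charZero_of_injective_algebraMap (algebraMap K L).injective
  obtain ⟨V, V1, P, V2⟩ := hCOL L E' k _ (n + 1) u3.tr u3.rk
    (fun j h _ => Nat.cast_ne_zero.2 h.ne') u4 Y Y'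
    (by rw [Y3, map_div₀, Z2, Z2, val _ _ h2 (.inr B1) a0])
    fun e => hne (AlgHom.ext fun w => by rw [← Y1, e, Z1])
  obtain ⟨Q, hQ⟩ : ∃ Q : Place k E, ∀ w, Q.v (X.j w) ≤ 1 → P.v (X'.j w) ≤ 1 ∧
      algebraMap L k (ev P (X'.j w)) = ev Q (X.j w) := by
    rcases X'.cl.all P with ⟨P0, rfl⟩ | ⟨η, rfl⟩
    · refine ⟨X.ext P0, fun w h => ?_⟩
      rw [X.cl.ext_v] at h
      rw [X'.cl.ext_v, X'.cl.ev_ext h, X.cl.ev_ext h, ← IsScalarTower.algebraMap_apply]
      exact ⟨h, rfl⟩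
    · exact ⟨X.pl (L.val.comp η), fun w _ => ⟨X'.cl.pl_le η w, by
        rw [X'.cl.ev_pl, X.cl.ev_pl]; rfl⟩⟩
  refine ⟨V, Q, fun c hc => V1 ⟨c, hc⟩, fun w h => ?_, fun w h => ?_⟩
  · rw [X.cl.ev_pl, ← Y1, ← (hQ w h).2]
    exact ⟨X.cl.pl_le y w, (V2 _ (hQ w h).1).1⟩
  · rw [X.cl.ev_pl, ← Z1, ← (hQ w h).2]
    exact ⟨X.cl.pl_le y' w, (V2 _ (hQ w h).1).2⟩

end

section

open WithZero Module Finset
open Pool.Agent.P.MP_6f117a_ag (Place FF)
open Pool.Agent.P.MP_ab3ecb_nt.Inv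
open Pool.Agent.P.MP_9344a7_nt.Gt (pt lS Pr Can Bd Ch G12)
open scoped Classical IntermediateField

theorem p_GS6 (hGSEC : S_GSEC) (hGSB : S_GSB) (hGBR : S_GBR) (hGSPX : S_GSPX) (hGSPC : S_GSPC) (hGCOL : S_GCOL) :
    S_GS6 := by
  intro n K F k E _ _ _ _ _ _ _ _ _ _ _ _ C X hn S P Q
  obtain ⟨s1, s2, s3⟩ := (hGSEC n K F k E C X hn).2.2.2.1 S.c S.c0
  set φ : {i // i ≠ P} → F →ₐ[K] k := fun i => S.y (.inl i.1)
  have hφ : AlgebraicIndependent K fun i => φ i C.t := S.gen.comp _ Subtype.val_injective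
  have hc : Fintype.card {i // i ≠ P} + 1 = n := by
    rw [Fintype.card_subtype_compl, Fintype.card_fin, Fintype.card_unique]; omega
  have h0 : ∀ i, S.c ⬝ᵥ C.co (S.y i) = 0 := fun i => (s3 _).1 (by
    rw [S.div, Ex.gs, Gt.sum_pt_self (U := fun i => X.pl (S.y i)) (X.cl.pl_inj.comp S.inj)]
    exact one_ne_zero)
  have hP : S.y (.inl P) C.t ∉ acl K (Set.range fun i => φ i C.t) := fun h => by
    obtain ⟨g1, g2⟩ := mt_indep.1 S.gen
    refine g2.notMem_closure_sdiff_of_mem ⟨P, rfl⟩ ?_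
    rw [← acl_eq]
    refine acl_mono ?_ h
    rintro _ ⟨i, rfl⟩
    exact ⟨⟨i.1, rfl⟩, fun e => i.2 (g1 e)⟩
  obtain ⟨V, Q0, fx, z1, z2⟩ := hGCOL n K F k E C X hn _ φ (S.y (.inl P)) (S.y (.inr Q)) S.c hφ hc
    hP (fun i => S.inj.ne Sum.inr_ne_inl) (S.inj.ne Sum.inl_ne_inr) S.c0 (fun i => h0 _) (h0 _)
    (h0 _)
  have fK : V.Fx (Set.range (algebraMap K k)) := by
    rintro _ ⟨a, rfl⟩
    exact fx _ (IntermediateField.algebraMap_mem _ a)
  obtain ⟨sp, hs⟩ := hGSPX K F k E X C.t C.ht V fK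
  have e1 : ∀ i, X.pl (φ i) = sp (X.pl (φ i)) := fun i => hs.uniq _ _ fun w hw => by
    rw [X.cl.ev_pl]
    exact ⟨hw, fx _ (emb_mem_acl C.ht (φ i) (subset_acl _ (Set.mem_range_self i)) w)⟩
  have e2 : sp (X.pl (S.y (.inl P))) = sp (X.pl (S.y (.inr Q))) :=
    (hs.uniq _ _ z1).symm.trans (hs.uniq _ _ z2)
  obtain ⟨p1, -, p2⟩ := hGSPC n K F k E C X hn V sp fK hs (X.gs S.y - X.up C.W)
  have p3 := p1 (S.div ▸ s2)
  rw [show (X.gs S.y - X.up C.W).mapDomain sp = _ from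
    map_sub (Finsupp.mapDomain.addMonoidHom sp) _ _, Ex.gs, map_sum] at p3
  simp only [Finsupp.mapDomain.addMonoidHom_apply, Finsupp.mapDomain_single, p2] at p3
  have le : X.gs φ ≤ ∑ i, pt (sp (X.pl (S.y i))) := by
    rw [Fintype.sum_sum_type, Fintype.sum_eq_add_sum_subtype_ne _ P, add_right_comm, Ex.gs,
      sum_congr rfl fun i _ => congrArg pt (e1 i)]
    exact le_add_of_nonneg_left (add_nonneg (Gt.pt_nonneg _) (Gt.sum_pt_nonneg _ _))
  obtain ⟨b1, b2⟩ := (hGBR K F k E X C.t C.ht).2.2 _ (fun i => sp (X.pl (S.y i))) _ _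
    Sum.inl_ne_inr e2 ((hGSB n K F k E C X hn _ φ _ hφ le p3).2.2 hc)
  choose z hz using b1
  have r := fun i => hs.pl' _ _ (hz i).symm
  refine ⟨V, ?_, fun i w => (r i w).1, fun w => ?_, fun i i' h => b2 i i' ?_⟩
  · convert fx
    ext c
    exact ⟨fun ⟨i, a, b⟩ => ⟨⟨i, a⟩, b.symm⟩, fun ⟨i, b⟩ => ⟨i.1, i.2, b.symm⟩⟩
  · rw [(r _ w).2, (r _ w).2, X.cl.pl_inj ((hz _).trans (e2.trans (hz _).symm))]
  · rw [← hz, ← hz, show z i = z i' from AlgHom.ext fun w => by rw [← (r _ w).2, h, (r _ w).2]]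

end

section

open WithZero Module Finset
open Pool.Agent.P.MP_6f117a_ag (Place FF)
open Pool.Agent.P.MP_ab3ecb_nt.Inv
open Pool.Agent.P.MP_9344a7_nt.Gt (pt lS Pr Can Bd Ch G12)
open scoped Classical IntermediateField

section

variable {K k : Type} [Field K] [Field k] [Algebra K k] {V : Sv k}

lemma gvt_int {T : Set k} (h : ∀ c ∈ IntermediateField.adjoin K T, c ∈ V.O) :
    ∀ c ∈ acl K T, c ∈ V.O := fun c hc => by
  obtain ⟨y, rfl⟩ := (IsIntegrallyClosed.isIntegral_iff (R := V.O)).1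
    ((mem_acl.1 hc).isIntegral.map_of_comp_eq
      ((algebraMap (IntermediateField.adjoin K T) k).codRestrict V.O fun x => h _ x.2)
      (RingHom.id k) rfl)
  exact y.2

lemma gvt_ev (hV : V.Fx (Set.range (algebraMap K k))) {ι : Type} {x : ι → k}
    (hx : ∀ i, x i ∈ V.O) (p : MvPolynomial ι K) : MvPolynomial.aeval x p ∈ V.O ∧
      V.r (MvPolynomial.aeval x p) = MvPolynomial.aeval (fun i => V.r (x i)) p := by
  induction p using MvPolynomial.induction_on with
  | C a => simpa using hV _ ⟨a, rfl⟩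
  | add p q hp hq =>
    rw [map_add, map_add, Sv.r_add hp.1 hq.1, hp.2, hq.2]
    exact ⟨add_mem hp.1 hq.1, rfl⟩
  | mul_X p i hp =>
    rw [map_mul, map_mul, MvPolynomial.aeval_X, MvPolynomial.aeval_X, Sv.r_mul hp.1 (hx i), hp.2]
    exact ⟨mul_mem hp.1 (hx i), rfl⟩

lemma gvt_one (hV : V.Fx (Set.range (algebraMap K k))) {ι : Type} {x : ι → k}
    (hx : ∀ i, x i ∈ V.O) (hi : AlgebraicIndependent K fun i => V.r (x i)) :
    ∀ c ∈ acl K (Set.range x), c ∈ V.O := gvt_int fun c hc => by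
  obtain ⟨p, q, rfl⟩ := (IntermediateField.mem_adjoin_range_iff K x c).1 hc
  rcases eq_or_ne q 0 with rfl | e
  · simp
  rw [div_eq_mul_inv]
  refine mul_mem (gvt_ev hV hx p).1 (Sv.inv_mem (gvt_ev hV hx q).1 ?_)
  rw [(gvt_ev hV hx q).2]
  exact mt (hi.eq_zero_of_aeval_eq_zero q) e

/-- The residue map on a subfield of the valuation ring. -/
noncomputable def gvt_hom (hV : V.Fx (Set.range (algebraMap K k))) (L : IntermediateField K k)
    (h : ∀ c ∈ L, c ∈ V.O) : L →ₐ[K] k where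
  toFun c := V.r c
  map_one' := V.r_one
  map_mul' a b := Sv.r_mul (h _ a.2) (h _ b.2)
  map_zero' := V.r_zero
  map_add' a b := Sv.r_add (h _ a.2) (h _ b.2)
  commutes' a := (hV _ ⟨a, rfl⟩).2

lemma gvt_acl (hV : V.Fx (Set.range (algebraMap K k))) {T : Set k}
    (h : ∀ c ∈ acl K T, c ∈ V.O) : ∀ c ∈ acl K T, V.r c ∈ acl K (V.r '' T) := fun c hc => by
  have le : IntermediateField.adjoin K T ≤ acl K T :=
    IntermediateField.adjoin_le_iff.2 (subset_acl T)
  have m : ∀ x ∈ IntermediateField.adjoin K T, V.r x ∈ acl K (V.r '' T) := fun x hx => by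
    induction hx using IntermediateField.adjoin_induction with
    | mem x hx => exact subset_acl _ ⟨x, hx, rfl⟩
    | algebraMap a => rw [(hV _ ⟨a, rfl⟩).2]; exact IntermediateField.algebraMap_mem _ a
    | add x y hx hy a b => rw [Sv.r_add (h _ (le hx)) (h _ (le hy))]; exact add_mem a b
    | inv x hx a =>
      exact (map_inv₀ (gvt_hom hV _ h) ⟨x, le hx⟩ : V.r x⁻¹ = (V.r x)⁻¹) ▸ inv_mem a
    | mul x y hx hy a b => rw [Sv.r_mul (h _ (le hx)) (h _ (le hy))]; exact mul_mem a b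
  exact mem_acl_of_alg ((Algebra.IsAlgebraic.isAlgebraic (R := IntermediateField.adjoin K T)
    (⟨c, hc⟩ : algebraicClosure (IntermediateField.adjoin K T) k)).ringHom_of_comp_eq
    (RingHom.codRestrict (gvt_hom hV _ fun x hx => h x (le hx) : _ →+* k) _ fun x => m _ x.2)
    (gvt_hom hV (acl K T) h : acl K T →+* k) (RingHom.injective _) rfl)

lemma gvt_ind (hV : V.Fx (Set.range (algebraMap K k))) {L : IntermediateField K k}
    (h : ∀ c ∈ L, c ∈ V.O) {ι : Type} {x : ι → k} (hx : ∀ i, x i ∈ L)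
    (hi : AlgebraicIndependent K x) : AlgebraicIndependent K fun i => V.r (x i) := by
  have : AlgebraicIndependent K fun i => (⟨x i, hx i⟩ : L) := .of_comp L.val hi
  exact this.map' (f := gvt_hom hV L h) (gvt_hom hV L h : L →+* k).injective

end

theorem p_GVT (hGRK : S_GRK) :
    S_GVT := by
  intro K k _ _ _ _ _ _ V hV
  refine ⟨fun ι x => gvt_one hV, fun T => gvt_int, fun T h => ⟨gvt_acl hV h,
    fun c hc c' hc' e => congrArg Subtype.val
      ((gvt_hom hV _ h : acl K T →+* k).injective (a₁ := ⟨c, hc⟩) (a₂ := ⟨c', hc'⟩) e),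
    fun ι x hx hi => gvt_ind hV h hx hi⟩,
    fun m x hn => ?_⟩
  obtain ⟨B, hB⟩ := (Mt K k).exists_isBasis
    (V.r '' {c | c ∈ acl K (Set.range x) ∧ c ∈ V.O}) (Set.subset_univ _)
  have lt : B.encard < m := not_le.1 fun e => hn fun c hc => by
    obtain ⟨B', s, e'⟩ := Set.exists_subset_encard_eq e
    have f := Set.finite_of_encard_eq_coe e'
    have cd : #f.toFinset = m := by
      rw [f.encard_eq_coe_toFinset_card] at e'
      exact_mod_cast e'
    let y : Fin m → k := fun i => (f.toFinset.equivFinOfCardEq cd).symm i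
    have hy : ∀ i, y i ∈ B := fun i => s (f.mem_toFinset.1 (Subtype.prop _))
    choose c hc ec using fun i => hB.subset (hy i)
    have i1 : AlgebraicIndependent K fun i => V.r (c i) := by
      rw [funext ec]
      exact mt_indep.2 ⟨Subtype.val_injective.comp (Equiv.injective _),
        hB.indep.subset (Set.range_subset_iff.2 hy)⟩
    have i2 : AlgebraicIndependent K c := algebraicIndependent_iff.2 fun p e =>
      i1.eq_zero_of_aeval_eq_zero p (by rw [← (gvt_ev hV (fun i => (hc i).2) p).2, e, V.r_zero])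
    exact gvt_one hV (fun i => (hc i).2) i1 _ (acl_le (Set.range_subset_iff.2
      (((hGRK K k).1 _ _ c x i2 fun i => (hc i).1).2 le_rfl).2) ‹_›)
  have f := Set.finite_of_encard_le_coe lt.le
  refine ⟨#f.toFinset, fun i => f.toFinset.equivFin.symm i, ?_, fun c hc h => ?_⟩
  · rw [f.encard_eq_coe_toFinset_card] at lt
    exact_mod_cast lt
  have : B ⊆ Set.range fun i => (f.toFinset.equivFin.symm i : k) := fun b hb =>
    ⟨f.toFinset.equivFin ⟨b, f.mem_toFinset.2 hb⟩, by simp⟩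
  refine acl_mono this ?_
  rw [← SetLike.mem_coe, acl_eq]
  exact hB.subset_closure ⟨c, ⟨hc, h⟩, rfl⟩

end

end Pool.Agent.P.MP_9344a7_nt.Ac
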