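import Pool.Agent.P.MP_9344a7_nt.Ac.IfaceG
import Pool.Agent.P.MP_9344a7_nt.Ac.Iface
import Pool.Agent.P.MP_9344a7_nt.Ac.IfaceC

/-! Steps GS7, GAN, GS8, GSWP, GS8B, GS9. -/

set_option linter.unusedVariables false
set_option linter.unusedSectionVars false

namespace Pool.Agent.P.MP_9344a7_nt.Ac

section

open WithZero Module Finset
open Pool.Agent.P.MP_6f117a_ag (Place FF)
open Pool.Agent.P.MP_ab3ecb_nt.Inv
open Pool.Agent.P.MP_9344a7_nt.Gt (pt lS Pr Can Bd Ch G12)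
open scoped Classical IntermediateField

theorem p_GS7 (hGRK : S_GRK) (hGABL : S_GABL) (hGKIL : S_GKIL) (hGBPF : S_GBPF) (hGVT : S_GVT) (hGSPX : S_GSPX) (hGSPC : S_GSPC) :
    S_GS7 := by
  intro n K F k E _ _ _ _ _ _ _ _ _ _ _ _ C X hn S ρ hρ hS V P Q hCo
  by_contra h
  rw [not_or] at h
  have hV : V.Fx (Set.range (algebraMap K k)) := by
    rintro _ ⟨a, rfl⟩
    exact hCo.fx _ (IntermediateField.algebraMap_mem _ a)
  obtain ⟨m1, z1, l1, h1⟩ := (hGVT K k V hV).2.2.2 S.n1 (S.x ∘ .inl) h.1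
  obtain ⟨m2, z2, l2, h2⟩ := (hGVT K k V hV).2.2.2 S.n2 (S.x ∘ .inr) h.2
  obtain ⟨sp, hsp⟩ := hGSPX K F k E X C.t C.ht V hV
  have hc := (hGSPC n K F k E C X hn V sp hV hsp _).2.1 S.rel
  let φ : {i : Fin n // i ≠ P} → F →ₐ[K] k := fun i => S.y (.inl i.1)
  have hφ : AlgebraicIndependent K fun i => φ i C.t :=
    AlgebraicIndependent.comp S.gen Subtype.val Subtype.val_injective
  have hcard : Fintype.card {i : Fin n // i ≠ P} + 1 = n := by
    have := P.pos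
    simp only [ne_eq, Fintype.card_subtype_compl, Fintype.card_fin, Fintype.card_unique]
    omega
  have hfix : ∀ i, sp (X.pl (φ i)) = X.pl (φ i) := fun i => by
    obtain ⟨y', e⟩ := hsp.pl (φ i) (hCo.mem _)
    rw [e]
    congr 1
    ext w
    rw [← (hsp.pl' _ _ e w).2]
    exact (hCo.fx _ (emb_mem_acl C.ht (φ i) (subset_acl _ (by exact ⟨i.1, i.2, rfl⟩)) w)).2
  have hD : (X.gs (S.y ∘ .inl)).mapDomain sp = X.gs φ + pt (sp (X.pl (S.y (.inl P)))) := by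
    rw [Ex.gs, Finsupp.mapDomain_finsetSum, Fintype.sum_eq_add_sum_subtype_ne _ P, add_comm, Ex.gs]
    simp only [Finsupp.mapDomain_single]
    congr 1
    exact Finset.sum_congr rfl fun i _ => congrArg pt (hfix i)
  have kill : ∀ (δ : Derivation K k k) (T T' : Set k) (A : Dv k E), X.Rt C.t T A →
      (∀ c ∈ acl K T, c ∈ V.O → V.r c ∈ acl K T') → (∀ c ∈ T', δ c = 0) →
      X.vel C ρ δ (A.mapDomain sp) = 0 := fun δ T T' A hA hT hδ => by
    refine X.vel_eq_zero C ρ δ fun y' hy' => ?_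
    obtain ⟨R, hR, e⟩ := Finset.mem_image.1
      (Finsupp.mapDomain_support (Finsupp.mem_support_iff.2 hy'))
    rcases X.cl.all R with ⟨R', rfl⟩ | ⟨y, rfl⟩
    · exact absurd ((hsp.ext R').symm.trans e) (X.cl.ne R' y')
    · obtain ⟨a, b⟩ := hsp.pl' _ _ e C.t
      exact der_acl δ hδ (b ▸ hT _ (hA y (Finsupp.mem_support_iff.1 hR)) a)
  have hm : ∀ i, φ i C.t ∈ acl K (Set.range (Sum.elim z1 z2)) := fun i =>
    mem_acl_of_der fun δ hδ => by
      have a0 := hGABL n K F k E C X hn ρ hρ δ _ hc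
      rw [Finsupp.mapDomain_sub, Finsupp.mapDomain_sub, map_sub, map_sub,
        kill δ _ _ _ S.r1 h1 (by rintro _ ⟨j, rfl⟩; exact hδ _ ⟨.inl j, rfl⟩),
        kill δ _ _ _ S.r2 h2 (by rintro _ ⟨j, rfl⟩; exact hδ _ ⟨.inr j, rfl⟩), sub_zero, sub_zero,
        hD] at a0
      refine (hGKIL n K F k E C X hn ρ hρ).1 δ _
        (add_nonneg (Gt.sum_pt_nonneg _ _) (Gt.pt_nonneg _))
        (hGBPF n K F k E C X hn _ φ hφ hcard _) a0 _ fun e => ?_
      have b1 : 0 ≤ X.gs φ (X.pl (φ i)) := Gt.sum_pt_nonneg _ _ _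
      have b2 : 0 ≤ pt (sp (X.pl (S.y (.inl P)))) (X.pl (φ i)) := Gt.pt_nonneg _ _
      exact Gt.sum_pt_eq_zero.1 ((add_eq_zero_iff_of_nonneg b1 b2).1 e).1 i rfl
  have := ((hGRK K k).1 _ _ _ _ hφ hm).1
  have h3 := hS.card
  rw [Fintype.card_sum, Fintype.card_fin, Fintype.card_fin] at this
  omega

end

section

open WithZero Module Finset
open Pool.Agent.P.MP_6f117a_ag (Place FF)
open Pool.Agent.P.MP_ab3ecb_nt.Inv
open Pool.Agent.P.MP_9344a7_nt.Gt (pt lS Pr Can Bd Ch G12)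
open scoped Classical IntermediateField

/-- Completion to a basis, with the dual basis. -/
lemma gan_ex {L ι : Type} [Field L] [Fintype ι] {N m : ℕ} {l : ι → Fin N → L}
    (hc : Fintype.card ι + m = N) (hl : LinearIndependent L l) :
    ∃ p w : ι ⊕ Fin m → Fin N → L, (∀ s, p (.inl s) = l s) ∧
      (∀ j j', ∑ i, w j i * p j' i = if j = j' then 1 else 0) ∧
      ∀ i i', ∑ j, p j i * w j i' = if i = i' then 1 else 0 := by
  obtain ⟨U, hU⟩ := (Submodule.span L (Set.range l)).exists_isCompl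
  have r := Submodule.finrank_add_eq_of_isCompl hU
  rw [finrank_span_eq_card hl, finrank_fin_fun] at r
  have b0 := finBasisOfFinrankEq L U (n := m) (by omega)
  have hi : LinearIndependent L (Sum.elim l fun a => (b0 a).1) :=
    hl.sum_type (b0.linearIndependent.map' U.subtype U.ker_subtype)
      (hU.disjoint.mono_right (Submodule.span_le.2 (by rintro _ ⟨a, rfl⟩; exact (b0 a).2)))
  obtain ⟨b, hb⟩ : ∃ b : Basis (ι ⊕ Fin m) L (Fin N → L), ⇑b = Sum.elim l fun a => (b0 a).1 :=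
    ⟨basisOfLinearIndependentOfCardEqFinrank' _ hi (by simp [hc]), by simp⟩
  refine ⟨b, b.toMatrix (Pi.basisFun L _), fun s => by rw [hb]; rfl, fun j j' => ?_, fun i i' => ?_⟩
  · simpa [Matrix.mul_apply, Matrix.one_apply, Basis.toMatrix_apply] using
      congrFun₂ (b.toMatrix_mul_toMatrix_flip (Pi.basisFun L _)) j j'
  · simpa [Matrix.mul_apply, Matrix.one_apply, Basis.toMatrix_apply] using
      congrFun₂ ((Pi.basisFun L _).toMatrix_mul_toMatrix_flip b) i i'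

theorem p_GAN :
    S_GAN := by
  intro k ι _ _ L N m l hc hm hl
  obtain ⟨p, w, h0, h1, h2⟩ := gan_ex (L := L) (l := fun s i => ⟨l s i, hm s i⟩) hc
    (.of_comp ((Algebra.linearMap L k).compLeft _)
      (hl.restrict_scalars (smul_left_injective L one_ne_zero)))
  have e1 : ∀ j j', (fun i => (w j i : k)) ⬝ᵥ (fun i => (p j' i : k)) = if j = j' then 1 else 0 :=
    fun j j' => by simpa [apply_ite, dotProduct] using congrArg L.subtype (h1 j j')
  have e2 : ∀ i i', ∑ j, (p j i : k) * w j i' = if i = i' then 1 else 0 :=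
    fun i i' => by simpa [apply_ite] using congrArg L.subtype (h2 i i')
  have e0 : ∀ s, (fun i => (p (.inl s) i : k)) = l s := fun s => by rw [h0]
  refine ⟨fun a i => w (.inr a) i, fun a i => p (.inr a) i, fun a i => ⟨(w _ _).2, (p _ _).2⟩,
    fun a b => by simp [e1], fun z => ⟨fun hz a => ?_, fun h => ?_⟩, fun c h => ?_⟩
  · obtain ⟨f, rfl⟩ := (Submodule.mem_span_range_iff_exists_fun k).1 hz
    simp [dotProduct_sum, ← e0, e1]
  · have : z = ∑ j, ((fun i => (w j i : k)) ⬝ᵥ z) • fun i => (p j i : k) := funext fun i => by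
      simp only [Finset.sum_apply, Pi.smul_apply, smul_eq_mul, dotProduct, sum_mul]
      rw [sum_comm]
      simp only [show ∀ j i', (w j i' : k) * z i' * p j i = z i' * (p j i * w j i') from
        fun _ _ => by ring, ← mul_sum, e2]
      simp
    rw [this, Fintype.sum_sum_type]
    simp only [h, e0, zero_smul, sum_const_zero, add_zero]
    exact sum_mem fun s _ => Submodule.smul_mem _ _ (Submodule.subset_span ⟨s, rfl⟩)
  · have : c = ∑ j, (c ⬝ᵥ fun i => (p j i : k)) • fun i => (w j i : k) := funext fun i => by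
      simp only [Finset.sum_apply, Pi.smul_apply, smul_eq_mul, dotProduct, sum_mul]
      rw [sum_comm]
      simp only [mul_assoc, ← mul_sum, e2]
      simp
    rw [Fintype.sum_sum_type] at this
    simpa only [h, e0, zero_smul, sum_const_zero, zero_add] using this

end

section

open WithZero Module Finset
open Pool.Agent.P.MP_6f117a_ag (Place FF)
open Pool.Agent.P.MP_ab3ecb_nt.Inv
open Pool.Agent.P.MP_9344a7_nt.Gt (pt lS Pr Can Bd Ch G12)
open scoped Classical IntermediateField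

lemma gs8_li {k ι κ V : Type} [Field k] [Fintype ι] [AddCommGroup V] [Module k V] {Φ : ι → V}
    {ξ : κ → ι → k} (h : LinearIndependent k Φ) (h' : LinearIndependent k ξ) :
    LinearIndependent k fun s => ∑ i, ξ s i • Φ i :=
  h'.map' (Fintype.linearCombination k Φ)
    (LinearMap.ker_eq_bot.2 (linearIndependent_iff_injective_fintypeLinearCombination.1 h))

lemma gs8_dot {k ι : Type} [Field k] [Fintype ι] (V : Sv k) {a b : ι → k} (ha : ∀ i, a i ∈ V.O)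
    (hb : ∀ i, b i ∈ V.O) : V.r (a ⬝ᵥ b) = (fun i => V.r (a i)) ⬝ᵥ fun i => V.r (b i) := by
  rw [dotProduct, Sv.r_sum _ fun i => mul_mem (ha i) (hb i)]
  exact sum_congr rfl fun i _ => Sv.r_mul (ha i) (hb i)

/-- Normalisation of a vector by an entry of maximal valuation. -/
lemma gs8_max {k ι : Type} [Field k] [Fintype ι] (O : ValuationSubring k) {g : ι → k}
    (h : g ≠ 0) : ∃ a0, g a0 ≠ 0 ∧ ∀ b, (g a0)⁻¹ * g b ∈ O := by
  obtain ⟨b0, hb⟩ := Function.ne_iff.1 h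
  obtain ⟨a0, -, ha⟩ := exists_max_image univ (fun a => O.valuation (g a)) ⟨b0, mem_univ _⟩
  have h0 : 0 < O.valuation (g a0) :=
    lt_of_lt_of_le (zero_lt_iff.2 (by simpa using hb)) (ha b0 (mem_univ _))
  refine ⟨a0, by simpa using h0.ne', fun b => ?_⟩
  rw [← O.valuation_le_one_iff, map_mul, map_inv₀, inv_mul_le_one₀ h0]
  exact ha b (mem_univ _)

theorem p_GS8 (hGDU : S_GDU) (hGRK : S_GRK) (hGDS : S_GDS) (hGAN : S_GAN) (hGVT : S_GVT) :
    S_GS8 := by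
  intro n K F k E _ _ _ _ _ _ _ _ _ _ _ _ C X hn S ρ hρ so V P Q co h1
  have fx0 : V.Fx (Set.range (algebraMap K k)) := by
    rintro _ ⟨c, rfl⟩
    exact co.fx _ (IntermediateField.algebraMap_mem _ c)
  obtain ⟨vt1, -, vt3, -⟩ := hGVT K k V fx0
  obtain ⟨rk1, -, -, rk4⟩ := hGRK K k
  have ds : ∀ (T : Set k) (c : Fin (n + 1) → k), c ≠ 0 → (∀ m, c m ∈ acl K T) →
      ∀ y, c ⬝ᵥ C.co y = 0 → y C.t ∈ acl K T := fun T c => (hGDS n K F k E C X hn 0 c).2.2.2 T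
  obtain ⟨u, v, uv1, uv2, uv3, uv4⟩ := hGAN k (Fin S.n1) S.k1.toSubfield (n + 1) (S.n2 + 1)
    (S.lam ρ ∘ .inl) (by rw [Fintype.card_fin, ← add_assoc, so.card]) so.mem
    ((gs8_li so.il so.li).comp _ Sum.inl_injective)
  have u1 : ∀ b m, u b m ∈ S.k1 := fun b m => (uv1 b m).1
  have hc : S.c = ∑ b, (S.c ⬝ᵥ v b) • u b := uv4 _ fun s => by
    simp [St.lam, dotProduct_sum, so.perp]
  obtain ⟨a0, g0, gO⟩ := gs8_max V.O (g := fun b => S.c ⬝ᵥ v b) fun h => S.c0 (by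
    rw [hc]
    exact sum_eq_zero fun b _ => by rw [show S.c ⬝ᵥ v b = 0 from congrFun h b, zero_smul])
  obtain ⟨a, ha⟩ : ∃ a, a = (S.c ⬝ᵥ v a0)⁻¹ := ⟨_, rfl⟩
  obtain ⟨g, hg⟩ : ∃ g : Fin (S.n2 + 1) → k, ∀ b, g b = a * S.c ⬝ᵥ v b := ⟨_, fun _ => rfl⟩
  have a1 : a ≠ 0 := ha ▸ inv_ne_zero g0
  have g1 : g a0 = 1 := by rw [hg, ha, inv_mul_cancel₀ g0]
  replace gO : ∀ b, g b ∈ V.O := fun b => by rw [hg, ha]; exact gO b
  have hc' : a • S.c = ∑ b, g b • u b := by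
    simp only [hg, mul_smul, ← smul_sum, ← hc]
  have cm : ∀ m, (a • S.c) m = ∑ b, g b * u b m := fun m => by rw [hc', Finset.sum_apply]; rfl
  have pc : ∀ i, (a • S.c) ⬝ᵥ C.co (S.y i) = 0 := fun i => by
    have := so.perp i
    rw [St.Φ, dotProduct_smul, smul_eq_mul] at this
    rw [smul_dotProduct, (mul_eq_zero.1 this).resolve_left (hρ.ne _), smul_zero]
  have pc' : ∀ i, ∑ b, g b * u b ⬝ᵥ C.co (S.y i) = 0 := fun i => by
    simpa only [hc', sum_dotProduct, smul_dotProduct, smul_eq_mul] using pc i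
  have last : ∀ i, (∀ b, b ≠ a0 → u b ⬝ᵥ C.co (S.y i) = 0) → S.Φ ρ i ∈ S.L1 ρ := fun i h =>
    (uv3 _).2 fun b => by
      have := pc' i
      rw [sum_eq_single a0 (fun b _ hb => by rw [h b hb, mul_zero]) (by simp), g1, one_mul] at this
      rw [St.Φ, dotProduct_smul, (em (b = a0)).elim (fun e => e ▸ this) (h b), smul_zero]
  rcases isEmpty_or_nonempty {b // b ≠ a0} with he | he
  · exact .inl (last _ fun b hb => he.elim ⟨b, hb⟩)
  obtain ⟨z, z1, z2⟩ : ∃ z : Fin S.n1 ⊕ {b // b ≠ a0} → k,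
      (∀ s, z (.inl s) = S.x (.inl s)) ∧ ∀ b, z (.inr b) = g b.1 :=
    ⟨Sum.elim (S.x ∘ .inl) fun b => g b.1, fun _ => rfl, fun _ => rfl⟩
  have x1 : ∀ s, S.x (.inl s) ∈ S.k1 := fun s => subset_acl _ ⟨s, rfl⟩
  have cd : Fintype.card (Fin S.n1) + Fintype.card {b // b ≠ a0} = n := by simp [so.card]
  have k1z : S.k1 ≤ acl K (Set.range z) := acl_mono (by rintro _ ⟨s, rfl⟩; exact ⟨_, z1 s⟩)
  have zi : AlgebraicIndependent K z := by
    refine ((rk1 (Fin n) _ _ z S.gen fun i => ds _ _ (smul_ne_zero a1 S.c0) (fun m => ?_) _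
      (pc (.inl i))).2 (by rw [Fintype.card_sum, cd, Fintype.card_fin])).1
    rw [cm]
    refine sum_mem fun b _ => mul_mem ?_ (k1z (u1 b m))
    rcases eq_or_ne b a0 with rfl | e
    · exact g1 ▸ one_mem _
    · exact subset_acl _ ⟨.inr ⟨b, e⟩, z2 _⟩
  have zO : ∀ i, z i ∈ V.O := by
    rintro (s | b)
    · exact z1 s ▸ h1 _ (x1 s)
    · exact z2 b ▸ gO _
  have cO : ∀ m, (a • S.c) m ∈ V.O := fun m =>
    cm m ▸ sum_mem fun b _ => mul_mem (gO b) (h1 _ (u1 b m))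
  obtain ⟨r1, -, r3⟩ := vt3 _ h1
  have rc0 : (fun m => V.r ((a • S.c) m)) ≠ 0 := fun h => by
    have := gs8_dot V cO fun m => h1 _ (uv1 a0 m).2
    rw [h, zero_dotProduct, smul_dotProduct, smul_eq_mul, ← hg, g1, V.r_one] at this
    exact one_ne_zero this
  have rcm : ∀ m, V.r ((a • S.c) m) ∈ acl K (Set.range fun i => V.r (z i)) := fun m => by
    rw [cm, Sv.r_sum _ fun b => mul_mem (gO b) (h1 _ (u1 b m))]
    refine sum_mem fun b _ => ?_
    rw [Sv.r_mul (gO b) (h1 _ (u1 b m))]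
    refine mul_mem ?_ (acl_mono ?_ (r1 _ (u1 b m)))
    · rcases eq_or_ne b a0 with rfl | e
      · rw [g1, V.r_one]
        exact one_mem _
      · exact subset_acl _ ⟨.inr ⟨b, e⟩, congrArg V.r (z2 _)⟩
    · rintro _ ⟨_, ⟨s, rfl⟩, rfl⟩
      exact ⟨.inl s, congrArg V.r (z1 s)⟩
  obtain ⟨m1, hm⟩ := rk4 (Fin S.n1) {b // b ≠ a0} {i // i ≠ P} (fun i => V.r (z i))
    (fun i => S.y (.inl i.1) C.t)
    (by simpa only [Function.comp_def, z1] using r3 _ _ x1 (S.ind.comp _ Sum.inl_injective))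
    (AlgebraicIndependent.comp S.gen _ Subtype.val_injective) (fun i => ds _ _ rc0 rcm _ (by
      have f : ∀ m, C.co (S.y (.inl i.1)) m ∈ V.O ∧ V.r (C.co (S.y (.inl i.1)) m) = _ := fun m =>
        co.fx _ (emb_mem_acl C.ht _ (subset_acl _ (by exact ⟨i.1, i.2, rfl⟩)) _)
      have := gs8_dot V cO fun m => (f m).1
      rw [pc, V.r_zero, funext fun m => (f m).2] at this
      exact this.symm)) (by rw [cd]; simp; omega)
  obtain ⟨δ, hδ⟩ := (hGDU K k _ z).1 zi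
  have kill : ∀ b, ∀ c ∈ S.k1, δ (.inr b) c = 0 := fun b c hc => der_acl _ (by
    rintro _ ⟨s, rfl⟩
    rw [Function.comp, ← z1, hδ, if_neg Sum.inr_ne_inl]) hc
  have key : ∀ i, u m1.1 ⬝ᵥ C.co (S.y i) = 0 → S.Φ ρ i ∈ S.L1 ρ := fun i h => last i fun b hb => by
    have u0 : u m1.1 ≠ 0 := fun e => by simpa [e] using uv2 m1.1 m1.1
    have hk : ∀ b, u b ⬝ᵥ C.co (S.y i) ∈ S.k1 := fun b => sum_mem fun m _ =>
      mul_mem (u1 b m) (emb_mem_acl C.ht _ (ds _ _ u0 (u1 _) _ h) _)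
    have := congrArg (δ (.inr ⟨b, hb⟩)) (pc' i)
    rw [map_sum, map_zero, sum_eq_single b (fun b' _ e => ?_) (by simp), Derivation.leibniz,
      kill _ _ (hk b), ← z2 ⟨b, hb⟩, hδ, if_pos rfl] at this
    · simpa using this
    rw [Derivation.leibniz, kill _ _ (hk b'), smul_zero, zero_add]
    rcases eq_or_ne b' a0 with rfl | e'
    · rw [g1, Derivation.map_one_eq_zero, smul_zero]
    · rw [← z2 ⟨b', e'⟩, hδ, if_neg (by simpa using e.symm), smul_zero]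
  by_cases hP : u m1.1 ⬝ᵥ C.co (S.y (.inl P)) = 0
  · exact .inl (key _ hP)
  by_cases hQ : u m1.1 ⬝ᵥ C.co (S.y (.inr Q)) = 0
  · exact .inr (.inl (key _ hQ))
  have kT : S.k1 ≤ acl K (Set.range fun i : {i // i ≠ Sum.inr m1} => z i.1) := acl_mono (by
    rintro _ ⟨s, rfl⟩
    exact ⟨⟨.inl s, Sum.inl_ne_inr⟩, z1 s⟩)
  refine .inr (.inr ⟨_, a, g m1.1, ∑ b ∈ univ.erase m1.1, g b • u b, u m1.1, kT,
    vt1 _ _ (fun i => zO _) hm, a1, by rw [hc', sum_erase_add _ _ (mem_univ _)], fun m => ?_,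
    fun m => kT (u1 _ m), fun h => ?_, hP, hQ⟩)
  · rw [Finset.sum_apply]
    refine sum_mem fun b hb => mul_mem ?_ (kT (u1 b m))
    rcases eq_or_ne b a0 with rfl | e
    · exact g1 ▸ one_mem _
    · exact subset_acl _ ⟨⟨.inr ⟨b, e⟩, fun e' => ne_of_mem_erase hb
        (congrArg Subtype.val (Sum.inr_injective e'))⟩, z2 _⟩
  · have := der_acl (δ (.inr m1)) (by
      rintro _ ⟨i, rfl⟩
      rw [hδ, if_neg (Ne.symm i.2)]) h
    rw [← z2, hδ, if_pos rfl] at this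
    exact one_ne_zero this

end

section

open WithZero Module Finset
open Pool.Agent.P.MP_6f117a_ag (Place FF)
open Pool.Agent.P.MP_ab3ecb_nt.Inv
open Pool.Agent.P.MP_9344a7_nt.Gt (pt lS Pr Can Bd Ch G12)
open scoped Classical IntermediateField

lemma gswp_alg {K K' k : Type} [Field K] [Field K'] [Field k] [Algebra K k] [Algebra K' k]
    {A : IntermediateField K k} {B : IntermediateField K' k} (h : ∀ x ∈ A, x ∈ B) {c : k}
    (hc : IsAlgebraic A c) : IsAlgebraic B c :=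
  hc.ringHom_of_comp_eq (RingHom.codRestrict (algebraMap A k) B fun x => h x x.2) (RingHom.id k)
    (RingHom.injective _) rfl

lemma gswp_l1 {K k : Type} [Field K] [Field k] [Algebra K k] {A B : IntermediateField K k}
    (h : A ≤ B) {s : k} (hs : s ∈ B) : ∀ x ∈ A⟮s⟯, x ∈ B := fun _ hx =>
  (IntermediateField.adjoin_le_iff (T := IntermediateField.extendScalars h)).2
    (Set.singleton_subset_iff.2 hs) hx

lemma gswp_l2 {K k : Type} [Field K] [Field k] [Algebra K k] {A : IntermediateField K k}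
    {T : Set k} (h : T ⊆ A) (s : k) : ∀ x ∈ IntermediateField.adjoin K (insert s T), x ∈ A⟮s⟯ :=
  fun _ hx => (IntermediateField.adjoin_le_iff (T := A⟮s⟯.restrictScalars K)).2
    (Set.insert_subset (IntermediateField.mem_adjoin_simple_self _ s) fun c hc =>
      A⟮s⟯.algebraMap_mem ⟨c, h hc⟩) hx

lemma gswp_sep {A k : Type} [Field A] [Field k] [CharZero k] [Algebra A k] {c : k}
    (hc : IsAlgebraic A c) : IsSeparable A c :=
  have : CharZero A := (algebraMap A k).charZero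
  (minpoly.irreducible hc.isIntegral).separable

lemma gswp_r {k : Type} [Field k] {V : Sv k} {a b : k} (ha : a ∈ V.O) (hb : b ∈ V.O)
    (h : V.O.valuation (a - b) < 1) : V.r a = V.r b := by
  rw [← sub_eq_zero, ← Sv.r_sub ha hb]
  exact (Sv.r_eq_zero (sub_mem ha hb)).2 h

section

variable {n : ℕ} {K F k E : Type} [Field K] [Field F] [Algebra K F] [FF K F] [Field k]
  [Algebra K k] {T : Set k} [Field E] [Algebra (acl K T) E] (C : Cd n K F)
  (X : Ex K F (acl K T) E)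

lemma gswp_lift (hGLF : S_GLF) {s : k} (c1 c2 : Fin (n + 1) → acl K T) (y : F →ₐ[K] k)
    (hs : s ∉ acl K T) (h : ((fun m => (c1 m : k)) + s • fun m => (c2 m : k)) ⬝ᵥ C.co y = 0)
    (h' : (fun m => (c2 m : k)) ⬝ᵥ C.co y ≠ 0) :
    ∃ φ : E →ₐ[acl K T] k, (∀ w, φ (X.j w) = y w) ∧ φ (-X.sec C c1 / X.sec C c2) = s := by
  have e : -((fun m => (c1 m : k)) ⬝ᵥ C.co y) / ((fun m => (c2 m : k)) ⬝ᵥ C.co y) = s := by
    rw [add_dotProduct, smul_dotProduct, smul_eq_mul] at h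
    rw [div_eq_iff h']
    linear_combination -h
  have ht : Transcendental (acl K T) (y C.t) := fun a => hs (by
    have m := emb_mem_acl C.ht y (mem_acl_of_alg a)
    rw [← e]
    exact div_mem (neg_mem (sum_mem fun i _ => mul_mem (c1 i).2 (m _)))
      (sum_mem fun i _ => mul_mem (c2 i).2 (m _)))
  obtain ⟨φ, a, -⟩ := hGLF K F (acl K T) E k X.j X.act C.t y X.ce C.ht ht
  have b : ∀ c : Fin (n + 1) → acl K T, φ (X.sec C c) = (fun m => (c m : k)) ⬝ᵥ C.co y :=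
    fun c => by
      rw [Ex.sec_eq, map_sum]
      exact sum_congr rfl fun m _ => by rw [map_smul, a]; rfl
  exact ⟨φ, a, by rw [map_div₀, map_neg, b, b, e]⟩

lemma gswp_pl {V : Sv k} {φ : E →ₐ[acl K T] k} {y : F →ₐ[K] k} {P : Place (acl K T) E}
    (a : ∀ w, φ (X.j w) = y w) (h : Rs V.O φ P) (hy : ∀ w, y w ∈ V.O) :
    ∃ η, P = X.pl η ∧ ∀ w, V.r (y w) = V.r (η w) := by
  rcases X.cl.all P with ⟨Q, rfl⟩ | ⟨η, rfl⟩
  · obtain ⟨w, e⟩ := Q.surj (exp 1)
    have := (h (X.j w)).1 (a w ▸ hy w)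
    rw [X.cl.ext_v, e, ← exp_zero, exp_le_exp] at this
    omega
  · refine ⟨η, rfl, fun w => gswp_r (hy w) (h.const (η w)) ?_⟩
    have := (h.lt _).2 (X.cl.pl_v η w)
    rwa [map_sub, a, φ.commutes] at this

end

theorem p_GSWP (hSWP : S_SWP) (hSEP : S_SEP) (hRST : S_RST) (hGEX : S_GEX) (hGLF : S_GLF) (hGVT : S_GVT) :
    S_GSWP := by
  intro n K F k _ _ _ _ _ _ _ _ _ C _ V T s c1 c2 y y' Y hV hT m1 m2 hs ne z z' u u' hy hY
  have : CharZero k := charZero_of_injective_algebraMap (algebraMap K k).injective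
  obtain ⟨E, _, _, _, ⟨X⟩⟩ := hGEX K F (acl K T) C.t C.ht
  obtain ⟨φ, a, b⟩ := gswp_lift C X hGLF (fun m => ⟨c1 m, m1 m⟩) (fun m => ⟨c2 m, m2 m⟩) y hs z u
  obtain ⟨ψ, a', b'⟩ :=
    gswp_lift C X hGLF (fun m => ⟨c1 m, m1 m⟩) (fun m => ⟨c2 m, m2 m⟩) y' hs z' u'
  generalize -X.sec C _ / X.sec C _ = f at b b'
  have hf : Transcendental (acl K T) f := fun e => hs (mem_acl_of_alg (b ▸ e.algHom φ))
  have al : ∀ χ : E →ₐ[acl K T] k, χ f = s → ∀ w, IsAlgebraic (acl K T)⟮s⟯ (χ w) := fun χ e w =>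
    mem_acl.1 (emb_mem_acl hf χ (subset_acl _ e) w)
  have l1 := gswp_l1 (acl_mono (K := K) (Set.subset_insert s T))
    (subset_acl _ (Set.mem_insert s T))
  have l2 := gswp_l2 (subset_acl (K := K) T) s
  obtain ⟨-, g2, g3, -⟩ := hGVT K k V hV
  have hO : ∀ c : acl K T, algebraMap _ k c ∈ V.O := fun c => hT c c.2
  have nO : ∃ w, φ w ∉ V.O := by
    by_contra e
    push Not at e
    have l3 : (acl K T)⟮s⟯ ≤ φ.fieldRange :=
      IntermediateField.adjoin_le_iff.2 (Set.singleton_subset_iff.2 ⟨f, b⟩)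
    refine ne (AlgHom.ext fun w => (g3 _ (g2 (insert s T) fun c hc => ?_)).2.1 _ ?_ _ ?_ (hy w).2.2)
    · obtain ⟨x, rfl⟩ := l3 (l2 c hc)
      exact e x
    · exact a w ▸ mem_acl_of_alg (gswp_alg l1 (al φ b _))
    · exact a' w ▸ mem_acl_of_alg (gswp_alg l1 (al ψ b' _))
  obtain ⟨P, hP⟩ := (hRST _ E k V.O φ).1 hO nO
  obtain ⟨P', hP'⟩ := (hRST _ E k V.O ψ).2 E φ P f f hP hf (b'.trans b.symm)
  obtain ⟨η, rfl, e⟩ := gswp_pl X a hP fun w => (hy w).1
  obtain ⟨η', rfl, e'⟩ := gswp_pl X a' hP' fun w => (hy w).2.1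
  obtain rfl : η = η' := AlgHom.ext fun w => Subtype.ext ((g3 T hT).2.1 _ (η w).2 _ (η' w).2
    ((e w).symm.trans ((hy w).2.2.trans (e' w))))
  obtain ⟨τ, t1, t2⟩ := hSWP _ E k f φ ψ V.O _ Y hf (b.trans b'.symm) hO hP hP'
    (fun w => b.symm ▸ gswp_sep (al φ b w))
    fun x hx => b.symm ▸ gswp_sep (gswp_alg l2 (mem_acl.1 (hY x hx)))
  refine ⟨τ.restrictScalars K, fun c hc => τ.commutes ⟨c, hc⟩, ?_, AlgHom.ext fun w => ?_,
    fun x hx h0 => ?_⟩
  · exact (b ▸ t1 f).trans b'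
  · exact (a w ▸ t1 (X.j w)).trans (a' w)
  · obtain ⟨i, j⟩ := t2 x (IntermediateField.subset_adjoin _ _ (Set.mem_insert_of_mem _ hx))
    exact ⟨i.2 h0, gswp_r (i.2 h0) h0 (j h0)⟩

end

section

open WithZero Module Finset
open Pool.Agent.P.MP_6f117a_ag (Place FF)
open Pool.Agent.P.MP_ab3ecb_nt.Inv
open Pool.Agent.P.MP_9344a7_nt.Gt (pt lS Pr Can Bd Ch G12)
open scoped Classical IntermediateField

theorem p_GS8B (hGSEC : S_GSEC) (hGDS : S_GDS) (hGSWP : S_GSWP) :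
    S_GS8B := by
  intro n K F k E _ _ _ _ _ _ _ _ _ _ _ _ C X hn S V P Q T a s c1 c2 h p
  obtain ⟨-, -, -, h4, -⟩ := hGSEC n K F k E C X hn
  have hz : ∀ y, (c1 + s • c2) ⬝ᵥ C.co y = 0 ↔ ∃ i, S.y i = y := fun y => by
    rw [← p.eq, smul_dotProduct, smul_eq_zero, or_iff_right p.a0, ← (h4 _ S.c0).2.2 y, S.div,
      Ex.gs, Ne, Gt.sum_pt_eq_zero, not_forall]
    exact exists_congr fun i => ⟨fun e => X.cl.pl_inj (not_not.1 e), fun e e' => e' (by rw [e])⟩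
  have le : acl K T ≤ acl K (insert s T) := acl_mono (Set.subset_insert s T)
  have hy : ∀ i w, S.y i w ∈ acl K (insert s T) := fun i =>
    emb_mem_acl C.ht _ ((hGDS n K F k E C X hn 0 (c1 + s • c2)).2.2.2 _
      (p.eq ▸ smul_ne_zero p.a0 S.c0) (fun m => add_mem (le (p.m1 m))
        (mul_mem (subset_acl _ (Set.mem_insert s T)) (le (p.m2 m)))) _ ((hz _).2 ⟨i, rfl⟩))
  have hw : ∀ i i', ∃ w, V.r (S.y i w) = V.r (S.y i' w) →
      ∀ w', V.r (S.y i w') = V.r (S.y i' w') := fun i i' => by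
    by_cases e : ∀ w', V.r (S.y i w') = V.r (S.y i' w')
    · exact ⟨0, fun _ => e⟩
    · obtain ⟨w, e⟩ := not_forall.1 e
      exact ⟨w, fun e' => absurd e' e⟩
  choose wt hw using hw
  obtain ⟨τ, t1, t2, t3, t4⟩ := hGSWP n K F k C hn V T s c1 c2 (S.y (.inl P)) (S.y (.inr Q))
    (univ.image fun q : _ × _ => S.y q.1 (wt q.1 q.2))
    (fun c ⟨b, e⟩ => h.fx c (e ▸ IntermediateField.algebraMap_mem _ b)) p.sub p.m1 p.m2 p.tr
    (S.inj.ne Sum.inl_ne_inr) ((hz _).2 ⟨_, rfl⟩) ((hz _).2 ⟨_, rfl⟩) p.nP p.nQ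
    (fun w => ⟨h.mem _ w, h.mem _ w, h.eq w⟩) fun x hx => by
      obtain ⟨q, -, rfl⟩ := mem_image.1 hx
      exact hy _ _
  have tc : ∀ m, τ ((c1 + s • c2) m) = (c1 + s • c2) m := fun m => by
    rw [Pi.add_apply, Pi.smul_apply, smul_eq_mul, map_add, map_mul, t2, t1 _ (p.m1 m),
      t1 _ (p.m2 m)]
  refine ⟨τ, a, fun z hz => t1 z (p.le hz), p.a0, fun m => ?_, t3, fun i hi => ?_⟩
  · have := tc m
    rwa [← p.eq] at this
  obtain ⟨i', e⟩ := (hz ((τ : k →ₐ[K] k).comp (S.y (.inl i)))).1 (by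
    have := congrArg τ ((hz _).2 ⟨.inl i, rfl⟩)
    rw [map_zero, dotProduct, map_sum] at this
    rw [← this]
    exact sum_congr rfl fun m _ => by rw [map_mul, tc]; rfl)
  have := h.ne (.inl i) i' (hw _ _ (by
    rw [e]
    exact (t4 _ (mem_image.2 ⟨(.inl i, i'), mem_univ _, rfl⟩) (h.mem _ _)).2.symm))
  rcases this with r | ⟨r, -⟩ | ⟨r, -⟩
  · rw [← e, r]
  · exact absurd (Sum.inl_injective r) hi
  · exact absurd r Sum.inl_ne_inr

end

section

open WithZero Module Finset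
open Pool.Agent.P.MP_6f117a_ag (Place FF)
open Pool.Agent.P.MP_ab3ecb_nt.Inv
open Pool.Agent.P.MP_9344a7_nt.Gt (pt lS Pr Can Bd Ch G12)
open scoped Classical IntermediateField

section

variable {n : ℕ} {K F k E : Type} [Field K] [CharZero K] [Field F] [Algebra K F] [Field k]
  [Algebra K k] [Field E] [Algebra k E] (C : Cd n K F) (X : Ex K F k E) (ρ : (F →ₐ[K] k) → k)

/-- The velocity is linear in the derivation. -/
noncomputable def gs9_lin (A : Dv k E) : Derivation K k k →ₗ[k] Fin (n + 1) → k :=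
  ⟨⟨fun δ => X.vel C ρ δ A, fun δ δ' => X.vel_add_der C ρ δ δ' A⟩,
    fun b δ => X.vel_smul_der C ρ δ b A⟩

lemma gs9_mem {ι : Type} [Fintype ι] [DecidableEq ι] {x : ι → k} {δ : ι → Derivation K k k}
    {A : Dv k E} (h : ∀ s s', δ s (x s') = if s = s' then 1 else 0) (r : X.Rt C.t (Set.range x) A)
    {L : Submodule k (Fin (n + 1) → k)} (hL : ∀ s, X.vel C ρ (δ s) A ∈ L) (d : Derivation K k k) :
    X.vel C ρ d A ∈ L := by
  have h0 : gs9_lin C X ρ A (d - ∑ s, d (x s) • δ s) = 0 :=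
    X.vel_eq_zero C ρ _ fun y hy => der_acl _ (by
      rintro _ ⟨s, rfl⟩
      have := map_sum (Derivation.coeFnAddMonoidHom (R := K) (A := k) (M := k))
        (fun s => d (x s) • δ s) univ
      rw [Derivation.sub_apply, sub_eq_zero]
      refine Eq.trans ?_ (congrFun this (x s)).symm
      simp [h]) (r y hy)
  rw [map_sub, sub_eq_zero, map_sum] at h0
  exact h0.symm ▸ (sum_mem fun s _ => by rw [map_smul]; exact L.smul_mem _ (hL s) :
    ∑ s, gs9_lin C X ρ A (d (x s) • δ s) ∈ L)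

lemma gs9_split {z : Fin n → F →ₐ[K] k} {L1 L2 : Submodule k (Fin (n + 1) → k)}
    (h : ∀ i, ρ (z i) • C.co (z i) ∈ L1 ∨ ρ (z i) • C.co (z i) ∈ L2) :
    ∃ B, 0 ≤ B ∧ B ≤ X.gs z ∧ ∀ d, X.vel C ρ d B ∈ L2 ∧ X.vel C ρ d (X.gs z - B) ∈ L1 := by
  have e := sum_filter_add_sum_filter_not univ (fun i => ρ (z i) • C.co (z i) ∈ L2)
    fun i => pt (X.pl (z i))
  refine ⟨_, Gt.sum_pt_nonneg _ _, (le_add_of_nonneg_right (Gt.sum_pt_nonneg _ _)).trans e.le,
    fun d => ?_⟩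
  rw [Ex.gs, ← e, add_sub_cancel_left, map_sum, map_sum]
  refine ⟨sum_mem fun i hi => ?_, sum_mem fun i hi => ?_⟩ <;> rw [X.vel_pl, mul_smul]
  · exact L2.smul_mem _ (mem_filter.1 hi).2
  · exact L1.smul_mem _ ((h i).resolve_right (mem_filter.1 hi).2)

end

theorem p_GS9 (hGSEC : S_GSEC) (hGABL : S_GABL) (hGKIL : S_GKIL) :
    S_GS9 := by
  intro n K F k E _ _ _ _ _ _ _ _ _ _ _ _ C X hn S ρ hρ so H
  have m1 : ∀ d, X.vel C ρ d S.A1 ∈ S.L1 ρ := gs9_mem C X ρ (δ := S.δ ∘ .inl)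
    (fun s s' => (S.dual _ _).trans (if_congr Sum.inl_injective.eq_iff rfl rfl)) S.r1
    fun s => (so.v1 s).symm ▸ Submodule.subset_span ⟨s, rfl⟩
  have m2 : ∀ d, X.vel C ρ d S.A2 ∈ S.L2 ρ := gs9_mem C X ρ (δ := S.δ ∘ .inr)
    (fun s s' => (S.dual _ _).trans (if_congr Sum.inr_injective.eq_iff rfl rfl)) S.r2
    fun s => (so.v2 s).symm ▸ Submodule.subset_span ⟨s, rfl⟩
  have li : LinearIndependent k (S.lam ρ) :=
    so.li.map' (Fintype.linearCombination k (S.Φ ρ ∘ .inl))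
      (LinearMap.ker_eq_bot.2 so.il.fintypeLinearCombination_injective)
  have dj : ∀ Z, (∀ d, X.vel C ρ d Z ∈ S.L1 ρ ∧ X.vel C ρ d Z ∈ S.L2 ρ) → X.Cst Z := fun Z h =>
    (hGKIL n K F k E C X hn ρ hρ).2.1 Z fun d =>
      Submodule.disjoint_def.1 (linearIndependent_sum.1 li).2.2 _ (h d).1 (h d).2
  have r := fun d => hGABL n K F k E C X hn ρ hρ d _ S.rel
  by_cases h : ∀ P, S.Φ ρ (.inl P) ∈ S.L1 ρ ∨ S.Φ ρ (.inl P) ∈ S.L2 ρ
  · obtain ⟨B, a, b, c⟩ := gs9_split C X ρ (z := S.y ∘ .inl) h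
    refine ⟨B, .inl ⟨a, b, dj _ fun d => ⟨?_, by rw [map_sub]; exact sub_mem (m2 d) (c d).1⟩⟩⟩
    convert sub_mem (c d).2 (m1 d) using 1
    rw [← sub_eq_zero, ← neg_eq_zero, ← r d, ← map_sub, ← map_sub, ← map_neg]
    congr 1
    abel
  obtain ⟨P, hP⟩ := not_forall.1 h
  obtain ⟨B, a, b, c⟩ := gs9_split C X ρ (z := S.y ∘ .inr) fun Q => (H P Q).resolve_left hP
  refine ⟨B, .inr ⟨a, b, dj _ fun d => ⟨?_, by rw [map_add]; exact add_mem (m2 d) (c d).1⟩⟩⟩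
  have r' := hGABL n K F k E C X hn ρ hρ d _
    ⟨_, ((hGSEC n K F k E C X hn).2.2.2.1 _ S.c0).2.1⟩
  rw [S.div, Ex.gs, Fintype.sum_sum_type] at r'
  convert neg_mem (add_mem (c d).2 (m1 d)) using 1
  rw [← sub_eq_zero, ← sub_self (0 : Fin (n + 1) → k)]
  nth_rw 1 [← r', ← r d]
  rw [← map_add, ← map_neg, ← map_sub, ← map_sub]
  congr 1
  simp only [Ex.gs, Function.comp]
  abel

end

end Pool.Agent.P.MP_9344a7_nt.Ac
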