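import Pool.Agent.P.MP_9344a7_nt.Ac.IfaceG

/-! Steps GST, THG. -/

set_option linter.unusedVariables false
set_option linter.unusedSectionVars false

namespace Pool.Agent.P.MP_9344a7_nt.Ac

section

open WithZero Module Finset
open Pool.Agent.P.MP_6f117a_ag (Place FF)
open Pool.Agent.P.MP_ab3ecb_nt.Inv
open Pool.Agent.P.MP_9344a7_nt.Gt (pt lS Pr Can Bd Ch G12)
open scoped Classical IntermediateField

theorem p_GST (hGDU : S_GDU) (hGRK : S_GRK) (hGBC2 : S_GBC2) (hGSEC : S_GSEC) (hGRHO : S_GRHO) (hGKIL : S_GKIL) (hGSB : S_GSB) (hGBR : S_GBR) :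
    S_GST := by
  intro n K F k E _ _ _ _ _ _ _ _ _ _ _ _ C X hn φ D' A1 A2 ι1 ι2 _ _ x hG hD hP hx r1 r2 hC
  obtain ⟨ρ, hρ⟩ := hGRHO n K F k E C X hn
  have p0 : 0 ≤ X.gs φ := Gt.sum_pt_nonneg _ _
  obtain ⟨c, c0, hc⟩ := (hGSEC n K F k E C X hn).2.2.2.2.1 _ (add_nonneg p0 hD) hP
  have hb := (hGSB n K F k E C X hn (Fin n) φ _ hG (le_add_of_nonneg_right hD) hP).2.1
    (Fintype.card_fin n)
  have hd : deg D' = n := by
    have := hP.deg_eq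
    rw [map_add, (hGBC2 n K F k E C X hn).1.deg_W, Ex.gs, Gt.deg_sum_pt, card_univ,
      Fintype.card_fin] at this
    push_cast at this
    omega
  obtain ⟨y, yi, y1, y2, y3⟩ := (hGBR K F k E X C.t C.ht).2.1 n φ D' hD hd hb
  obtain ⟨B1, p1, l1, c1, s1⟩ := (hGKIL n K F k E C X hn ρ hρ).2.2 _ A1 r1
  obtain ⟨B2, p2, l2, c2, s2⟩ := (hGKIL n K F k E C X hn ρ hρ).2.2 _ A2 r2
  have key : ∀ B : Dv k E, ∃ (m : ℕ) (z : Fin m → k), AlgebraicIndependent K z ∧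
      (∀ i, ∃ y, B (X.pl y) ≠ 0 ∧ y C.t = z i) ∧ X.Rt C.t (Set.range z) B := fun B => by
    obtain ⟨m, z, a, b, d⟩ := (hGRK K k).2.1 _ ((B.support.finite_toSet.preimage
      (f := X.pl) X.cl.pl_inj.injOn).image fun y => y C.t)
    exact ⟨m, z, a, fun i => let ⟨y, h, e⟩ := b i; ⟨y, Finsupp.mem_support_iff.1 h, e⟩,
      fun y h => d ⟨y, Finsupp.mem_support_iff.2 h, rfl⟩⟩
  obtain ⟨m1, z1, a1, g1, t1⟩ := key B1
  obtain ⟨m2, z2, a2, g2, t2⟩ := key B2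
  have hz : AlgebraicIndependent K (Sum.elim z1 z2) :=
    (hGRK K k).2.2.1 ι1 ι2 _ _ x _ hx a1 a2
      (fun i => let ⟨y, h, e⟩ := g1 i; (e ▸ s1 y h : z1 i ∈ _))
      fun i => let ⟨y, h, e⟩ := g2 i; (e ▸ s2 y h : z2 i ∈ _)
  obtain ⟨δ, hδ⟩ := (hGDU K k _ _).1 hz
  refine ⟨⟨y, c, m1, m2, _, δ, B1, B2, yi, y1 ▸ hG, c0, hc.trans y3.symm, hz,
    fun s s' => by convert hδ s s', p1, p2, l1, l2, t1, t2, g1, g2, ?_⟩, y1, y2, c2⟩
  rw [y1]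
  convert (hC.add c1).add c2 using 1
  abel

end

section

open WithZero Module Finset
open Pool.Agent.P.MP_6f117a_ag (Place FF)
open Pool.Agent.P.MP_ab3ecb_nt.Inv
open Pool.Agent.P.MP_9344a7_nt.Gt (pt lS Pr Can Bd Ch G12)
open scoped Classical IntermediateField

theorem p_THG (hGRHO : S_GRHO) (hGS4 : S_GS4) (hGS5 : S_GS5) (hGS6 : S_GS6) (hGS7 : S_GS7) (hGS8 : S_GS8) (hGS8B : S_GS8B) (hGS9 : S_GS9) (hGST : S_GST) :
    S_THG := by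
  intro n K F k E _ _ _ _ _ _ _ _ _ _ _ _ C X hn φ D' A1 A2 ι1 ι2 _ _ x hg hD hp hx r1 r2 hc
  obtain ⟨S, e1, e2, hA⟩ := hGST n K F k E C X hn φ D' A1 A2 ι1 ι2 x hg hD hp hx r1 r2 hc
  obtain ⟨ρ, hρ⟩ := hGRHO n K F k E C X hn
  have key : ∀ (S : St C X) V P Q, S.Co V P Q → (∀ c ∈ S.k1, c ∈ V.O) →
      (S.Φ ρ (.inl P) ∈ S.L1 ρ ∨ S.Φ ρ (.inl P) ∈ S.L2 ρ) ∨
        (S.Φ ρ (.inr Q) ∈ S.L1 ρ ∨ S.Φ ρ (.inr Q) ∈ S.L2 ρ) := fun S V P Q hco hk => by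
    have so := hGS4 n K F k E C X hn S ρ hρ
    rcases hGS8 n K F k E C X hn S ρ hρ so V P Q hco hk with h | h | ⟨T, a, s, c1, c2, h⟩
    · exact .inl (.inl h)
    · exact .inr (.inl h)
    · exact (hGS5 n K F k E C X hn S ρ hρ so P Q
        (hGS8B n K F k E C X hn S V P Q T a s c1 c2 hco h)).imp .inr .inr
  have so := hGS4 n K F k E C X hn S ρ hρ
  obtain ⟨B, hB⟩ := hGS9 n K F k E C X hn S ρ hρ so fun P Q => by
    obtain ⟨V, hco⟩ := hGS6 n K F k E C X hn S P Q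
    rcases hGS7 n K F k E C X hn S ρ hρ so V P Q hco with h | h
    · exact key S V P Q hco h
    · exact (key S.swap V P Q ⟨hco.fx, hco.mem, hco.eq, hco.ne⟩ h).imp Or.symm Or.symm
  rw [e1, e2] at hB
  refine ⟨B, hB.imp (fun h => ⟨h.1, h.2.1, ?_⟩) fun h => ⟨h.1, h.2.1, ?_⟩⟩
  · simpa only [sub_add_sub_cancel] using hA.add h.2.2
  · simpa only [← add_assoc, sub_add_cancel] using hA.add h.2.2

end

end Pool.Agent.P.MP_9344a7_nt.Ac
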