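import Pool.Agent.P.MP_9344a7_nt.Ac.IfaceG

/-! Steps GSPC. -/

set_option linter.unusedVariables false
set_option linter.unusedSectionVars false

namespace Pool.Agent.P.MP_9344a7_nt.Ac

section

open WithZero Module Finset
open Pool.Agent.P.MP_6f117a_ag (Place FF)
open Pool.Agent.P.MP_ab3ecb_nt.Inv
open Pool.Agent.P.MP_9344a7_nt.Gt (pt lS Pr Can Bd Ch G12)
open scoped Classical IntermediateField

theorem p_GSPC (hGBC : S_GBC) (hGBC2 : S_GBC2) (hGRD : S_GRD) (hGPEN : S_GPEN) (hGSP2 : S_GSP2) :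
    S_GSPC := by
  intro n K F k E _ _ _ _ _ _ _ _ _ _ _ _ C X hn V sp hV hsp
  have can := (hGBC2 n K F k E C X hn).1
  obtain ⟨r1, r2, r3, r4, r5, -⟩ := hGRD K F k E X C.t C.ht V hV
  have h3 : ∀ D, (X.up D).mapDomain sp = X.up D := fun D => by
    rw [X.up_eq, ← Finsupp.mapDomain_comp]
    exact congrArg (Finsupp.mapDomain · D) (funext hsp.ext)
  have sub : ∀ A B : Dv k E, (A - B).mapDomain sp = A.mapDomain sp - B.mapDomain sp :=
    fun A B => map_sub (Finsupp.mapDomain.addMonoidHom sp : Dv k E →+ Dv k E) A B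
  have sc : ∀ (x a b : E) (l : k), X.Rd V (l • x) a → X.Rd V x b → b ≠ 0 → ∃ μ : k, a = μ • b := by
    intro x a b l ha hb b0
    by_cases e : l ∈ V.O
    · exact ⟨_, r1 _ _ _ ha (r4 _ _ l e hb)⟩
    · obtain ⟨e1, e2⟩ := Sv.inv_of_not_mem e
      have := r4 _ _ _ e1 ha
      rw [inv_smul_smul₀ (by rintro rfl; exact e (zero_mem _)), e2, zero_smul] at this
      exact absurd (r1 _ _ _ hb this) b0
  have key : ∀ (U U' : Submodule k E) (f u a b : E) (c c' : k), f ≠ 0 →
      U' ≤ Submodule.span k (Set.range X.j) → (∀ z ∈ U, f * z ∈ U') → a ≠ 0 → c ≠ 0 →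
      X.Rd V (c • u) a → X.Rd V (c' • (f * u)) b → ∀ z ∈ X.Red V U, b / a * z ∈ X.Red V U' := by
    intro U U' f u a b c c' f0 hU h a0 c0 ha hb z hz
    induction hz using Submodule.span_induction with
    | zero => simp
    | add x y _ _ hx hy => rw [mul_add]; exact add_mem hx hy
    | smul s x _ hx => rw [mul_smul_comm]; exact Submodule.smul_mem _ _ hx
    | mem z' hz =>
      obtain ⟨z, hz, hr⟩ := hz
      rcases eq_or_ne z 0 with rfl | z0
      · rw [r1 _ _ _ hr (by simpa using r2 0), mul_zero]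
        exact zero_mem _
      obtain ⟨d, b', d0, b0, hd⟩ := r5 _ (hU (h z hz)) (mul_ne_zero f0 z0)
      obtain ⟨μ, e⟩ := sc _ _ _ (c' / (d * c)) (by
        have := (r3 _ _ _ _ hb hr).2
        rwa [show c' • (f * u) * z = (c' / (d * c)) • (d • (f * z) * c • u) by
          simp only [Algebra.smul_def, map_div₀, map_mul]
          have := (map_ne_zero (algebraMap k E)).2 d0
          have := (map_ne_zero (algebraMap k E)).2 c0
          field_simp] at this) (r3 _ _ _ _ hd ha).2 (mul_ne_zero b0 a0)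
      rw [div_mul_eq_mul_div, e, ← smul_mul_assoc, mul_div_cancel_right₀ _ a0]
      exact Submodule.smul_mem _ _ (Submodule.subset_span ⟨_, U'.smul_mem d (h z hz), hd⟩)
  have h1 : ∀ Z : Dv k E, Pr Z → Pr (Z.mapDomain sp) := by
    rintro Z ⟨f, f0, hf⟩
    obtain ⟨Z1, Z2, p1, p2, e⟩ : ∃ Z1 Z2 : Dv k E, 0 ≤ Z1 ∧ 0 ≤ Z2 ∧ Z = Z1 - Z2 :=
      ⟨Z ⊔ 0, Z ⊔ 0 - Z, le_sup_right, sub_nonneg.2 le_sup_left, (sub_sub_cancel _ _).symm⟩
    obtain ⟨c1, g1⟩ := hGSP2 n K F k E C X hn V sp hV hsp Z1 p1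
    obtain ⟨c2, g2⟩ := hGSP2 n K F k E C X hn V sp hV hsp Z2 p2
    obtain ⟨O⟩ : Nonempty (Place K F) := have := (j_WA K F ⟨C.t, C.ht⟩).1; inferInstance
    obtain ⟨N, hN⟩ : ∃ N : Dv K F, deg N = |c1| + |c2| + 2 * (n + 1) + deg Z1 + deg Z2 :=
      ⟨Finsupp.single O _, deg_single _ _⟩
    have := deg_nonneg p1
    have := deg_nonneg p2
    have := le_abs_self c1
    have := le_abs_self c2
    have := abs_nonneg c1
    have := abs_nonneg c2
    have sp' : ∀ Z, 0 ≤ Z → LS (X.up N - Z) ≤ Submodule.span k (Set.range X.j) := fun Z hZ => by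
      refine (LS_mono (sub_le_self _ hZ)).trans ?_
      rw [(hGBC K F k E X C.t C.ht N).1]
      exact Submodule.span_mono (Set.image_subset_range _ _)
    have m : ∀ z, z ∈ LS (X.up N - Z2) ↔ f * z ∈ LS (X.up N - Z1) := fun z => by
      rcases eq_or_ne z 0 with rfl | z0
      · simp
      rw [mem_LS' z0, mem_LS' (mul_ne_zero f0 z0), dv_mul f0 z0, hf, e]
      exact iff_of_eq (congrArg _ (by abel))
    obtain ⟨u, hu, u0⟩ : ∃ u ∈ LS (X.up N - Z2), u ≠ 0 := by
      have := can.big (D := X.up N - Z2) (by rw [map_sub, X.deg_up]; push_cast; omega)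
      rw [map_sub, X.deg_up] at this
      have h : lS (X.up N - Z2) ≠ 0 := by push_cast at this; omega
      simpa [Gt.lS_eq_zero] using h
    obtain ⟨c, a, c0, a0, ha⟩ := r5 u (sp' _ p2 hu) u0
    obtain ⟨c', b, c0', b0, hb⟩ := r5 _ (sp' _ p1 ((m u).1 hu)) (mul_ne_zero f0 u0)
    have k1 := key _ _ f u a b c c' f0 (sp' _ p1) (fun z => (m z).1) a0 c0 ha hb
    have k2 := key _ _ f⁻¹ (f * u) b a c' c (inv_ne_zero f0) (sp' _ p2)
      (fun z hz => (m _).2 (by rwa [mul_inv_cancel_left₀ f0])) b0 c0' hb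
      (by rwa [inv_mul_cancel_left₀ f0])
    rw [g1 N (by omega), g2 N (by omega)] at k1 k2
    have := (hGPEN k E _ _ (Finsupp.single (X.ext O) _) (X.up N - Z2.mapDomain sp) can
      (by rw [map_sub, X.deg_up, deg_map]; push_cast; omega) (deg_single _ _).ge).2
      (X.up N - Z1.mapDomain sp) (b / a) (div_ne_zero b0 a0)
      (by rw [map_sub, X.deg_up, deg_map]; push_cast; omega) fun z => ⟨k1 z, fun h => by
        have := k2 _ h
        rwa [show a / b * (b / a * z) = z by field_simp] at this⟩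
    rw [e, sub]
    simpa using this.neg
  exact fun Z => ⟨h1 Z, fun ⟨D, h⟩ => ⟨D, by rw [← h3 D, ← sub]; exact h1 _ h⟩, h3⟩

end

end Pool.Agent.P.MP_9344a7_nt.Ac
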