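import Pool.Agent.P.MP_9344a7_nt.Ac.IfaceG

/-! Steps GLF, GGP, GSP1. -/

set_option linter.unusedVariables false
set_option linter.unusedSectionVars false

namespace Pool.Agent.P.MP_9344a7_nt.Ac

section

open WithZero Module Finset
open Pool.Agent.P.MP_6f117a_ag (Place FF)
open Pool.Agent.P.MP_ab3ecb_nt.Inv
open Pool.Agent.P.MP_9344a7_nt.Gt (pt lS Pr Can Bd Ch G12)
open scoped Classical IntermediateField

open scoped TensorProduct in
theorem p_GLF :
    S_GLF := by
  intro K F L F' k _ _ _ _ _ _ _ _ _ _ _ _ j act t y ce ht hy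
  let _ : Algebra K F' := ((algebraMap L F').comp (algebraMap K L)).toAlgebra
  have : IsScalarTower K L F' := .of_algebraMap_eq fun _ => rfl
  let jA : F →ₐ[K] F' := { j with commutes' := ce.comm }
  let μ : L ⊗[K] F →ₐ[L] F' :=
    Algebra.TensorProduct.lift (Algebra.ofId L F') jA fun _ _ => Commute.all _ _
  let ν : L ⊗[K] F →ₐ[L] k :=
    Algebra.TensorProduct.lift (Algebra.ofId L k) y fun _ _ => Commute.all _ _
  have m1 : ∀ w, μ (1 ⊗ₜ w) = j w := fun w => by simp [μ, jA]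
  have n1 : ∀ w, ν (1 ⊗ₜ w) = y w := fun w => by simp [ν]
  have mi : Function.Injective μ := by
    let B := Module.Basis.ofVectorSpace K F
    refine LinearMap.injective_of_linearIndependent (f := μ.toLinearMap)
      (Algebra.TensorProduct.basis L B).span_eq ?_
    rw [show μ.toLinearMap ∘ Algebra.TensorProduct.basis L B = j ∘ B from
      funext fun i => by simp [m1]]
    exact ce.lin _ B B.linearIndependent
  have : IsDomain (L ⊗[K] F) := mi.isDomain μ
  have ni : Function.Injective ν := by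
    let R := Algebra.adjoin L {(1 ⊗ₜ t : L ⊗[K] F)}
    have alg : ∀ z : L ⊗[K] F, IsAlgebraic R z := fun z => by
      induction z with
      | zero => exact isAlgebraic_zero
      | add a b ha hb => exact ha.add hb
      | tmul c w =>
        have := FF.fin t ht
        have h1 := IntermediateField.isAlgebraic_adjoin_iff.1
          (Algebra.IsAlgebraic.isAlgebraic (R := K⟮t⟯) w)
        let g : F →ₐ[K] L ⊗[K] F := Algebra.TensorProduct.includeRight
        have h2 : ∀ x : Algebra.adjoin K {t}, (g.toRingHom.comp (algebraMap _ F)) x ∈ R :=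
          fun x => (Algebra.adjoin_le (S := (R.restrictScalars K).comap g)
            (Set.singleton_subset_iff.2 (Algebra.subset_adjoin rfl))) x.2
        have h3 : IsAlgebraic R (g w) := h1.ringHom_of_comp_eq (RingHom.codRestrict _ _ h2)
          g.toRingHom (fun a b e => Subtype.ext (g.injective (congrArg Subtype.val e))) rfl
        rw [show c ⊗ₜ[K] w = algebraMap R _ (algebraMap L R c) * g w by simp [g]]
        exact (isAlgebraic_algebraMap _).mul h3
    refine (injective_iff_map_eq_zero ν).2 fun z hz => by_contra fun z0 => ?_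
    refine Ideal.comap_ne_bot_of_algebraic_mem (I := RingHom.ker ν) z0 hz (alg z)
      (eq_bot_iff.2 fun r hr => ?_)
    obtain ⟨p, hp⟩ := (Algebra.adjoin_singleton_eq_range_aeval L _).le r.2
    have h1 : ν (Polynomial.aeval (1 ⊗ₜ t) p) = 0 := (congrArg ν hp).trans hr
    rw [← Polynomial.aeval_algHom_apply, n1] at h1
    exact Subtype.ext (hp.symm.trans (by simp [transcendental_iff.1 hy p h1]))
  have sp : ∀ z ∈ Submodule.span L (Set.range j), ∃ x, μ x = z := fun z hz =>
    Submodule.span_le (p := LinearMap.range μ.toLinearMap).2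
      (by rintro _ ⟨w, rfl⟩; exact ⟨1 ⊗ₜ w, m1 w⟩) hz
  let _ : Algebra (L ⊗[K] F) F' := μ.toRingHom.toAlgebra
  have : IsScalarTower L (L ⊗[K] F) F' := .of_algebraMap_eq fun c => (μ.commutes c).symm
  have : FaithfulSMul (L ⊗[K] F) F' := (faithfulSMul_iff_algebraMap_injective _ _).2 mi
  have : IsFractionRing (L ⊗[K] F) F' := .of_field _ _ fun z => by
    obtain ⟨b, hb, b0, hz⟩ := ce.frac z
    obtain ⟨x, hx⟩ := sp _ hz
    obtain ⟨x', rfl⟩ := sp _ hb
    exact ⟨x, x', eq_div_of_mul_eq b0 ((mul_comm _ _).trans hx.symm)⟩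
  refine ⟨IsFractionRing.liftAlgHom ni, fun w => ?_, fun φ ψ h1 h2 => RingHom.ext fun z => ?_⟩
  · rw [← m1, ← n1]
    exact IsFractionRing.lift_algebraMap (g := ν.toRingHom) ni _
  · have h3 : ∀ z ∈ Submodule.span L (Set.range j), φ z = ψ z := fun z hz => by
      induction hz using Submodule.span_induction with
      | mem _ h => obtain ⟨w, rfl⟩ := h; exact h1 w
      | zero => simp
      | add a b _ _ ha hb => rw [map_add, map_add, ha, hb]
      | smul c a _ ha => rw [Algebra.smul_def, map_mul, map_mul, ha, h2]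
    obtain ⟨b, hb, b0, hz⟩ := ce.frac z
    have h4 := h3 _ hz
    rw [map_mul, map_mul, h3 b hb] at h4
    exact mul_left_cancel₀ ((map_ne_zero ψ).2 b0) h4

end

section

open WithZero Module Finset
open Pool.Agent.P.MP_6f117a_ag (Place FF)
open Pool.Agent.P.MP_ab3ecb_nt.Inv
open Pool.Agent.P.MP_9344a7_nt.Gt (pt lS Pr Can Bd Ch G12)
open scoped Classical IntermediateField

lemma ggp_pt {k E : Type} [Field k] [Field E] [Algebra k E] {B : Dv k E} (h : 0 ≤ B)
    (h1 : 1 ≤ deg B) : ∃ P, pt P ≤ B := by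
  have h2 : B ≠ 0 := fun e => by simp [e] at h1
  obtain ⟨P, hP⟩ := Finsupp.ne_iff.1 h2
  refine ⟨P, fun Q => ?_⟩
  have h3 : 0 ≤ B Q := h Q
  rcases eq_or_ne Q P with rfl | e
  · rw [Finsupp.zero_apply] at hP
    rw [Finsupp.single_eq_same]
    omega
  · rwa [Gt.pt_ne e]

lemma ggp_deg {k E : Type} [Field k] [IsAlgClosed k] [Field E] [Algebra k E] [FF k E] {n : ℕ}
    {W B : Dv k E} (hW : Can (n + 1) W) (hn : ¬ G12 k E) (h : 0 ≤ B) (h1 : n ≤ lS (W - B)) :
    deg B ≤ 1 := by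
  by_contra h2
  obtain ⟨P, hP⟩ := ggp_pt h (by omega)
  obtain ⟨Q, hQ⟩ := ggp_pt (sub_nonneg.2 hP) (by rw [map_sub, deg_single]; omega)
  have h3 : lS (pt P + pt Q) = 1 := by_contra fun e => hn ⟨P, Q, e⟩
  have h4 := hW (pt P + pt Q)
  have h5 := Gt.lS_mono (sub_le_sub_left (le_sub_iff_add_le'.1 hQ) W)
  rw [h3, map_add, deg_single, deg_single] at h4
  omega

lemma ggp_rk {k : Type} [Field k] {n : ℕ} (c : Fin (n + 1) → k) (b : Fin (n + 1) → k) :
    n ≤ finrank k (Submodule.span k (Set.range fun m => (Pi.single m 1 + b m • c : _ → k))) := by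
  set U := Submodule.span k (Set.range fun m => (Pi.single m 1 + b m • c : _ → k))
  have h1 : U ⊔ Submodule.span k {c} = ⊤ := by
    rw [eq_top_iff, ← (Pi.basisFun k (Fin (n + 1))).span_eq, Submodule.span_le]
    rintro _ ⟨m, rfl⟩
    rw [Pi.basisFun_apply, ← add_sub_cancel_right (Pi.single m 1 : _ → k) (b m • c)]
    exact sub_mem (Submodule.mem_sup_left (Submodule.subset_span ⟨m, rfl⟩))
      (Submodule.mem_sup_right (Submodule.smul_mem _ _ (Submodule.mem_span_singleton_self c)))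
  have h2 := Submodule.finrank_add_le_finrank_add_finrank U (Submodule.span k {c})
  have h3 : finrank k (Submodule.span k ({c} : Set _)) ≤ 1 := by
    simpa using finrank_span_le_card (R := k) ({c} : Set _)
  rw [h1, finrank_top, finrank_fin_fun] at h2
  omega

theorem p_GGP (hGDU : S_GDU) (hGRK : S_GRK) (hGBC : S_GBC) (hGBC2 : S_GBC2) (hGSEC : S_GSEC) (hGDS : S_GDS) (hGBR : S_GBR) :
    S_GGP := by
  intro n K F k E _ _ _ _ _ _ _ _ _ _ _ _ C X hn
  obtain ⟨hW, hG⟩ := hGBC2 n K F k E C X hn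
  obtain ⟨s1, s2, s3, s4, -⟩ := hGSEC n K F k E C X hn
  have hD := hGDS n K F k E C X hn
  have dual : ∀ x : Fin (n + 1) ⊕ Fin (n + 1) → k, AlgebraicIndependent K x →
      ∃ δ : Fin (n + 1) ⊕ Fin (n + 1) → Derivation K k k,
        (∀ m m', δ (.inl m) (x (.inl m')) = (Pi.single m 1 : _ → k) m') ∧
        (∀ m m', δ (.inr m) (x (.inr m')) = (Pi.single m 1 : _ → k) m') ∧
        (∀ m m', δ (.inl m) (x (.inr m')) = 0) ∧ ∀ m m', δ (.inr m) (x (.inl m')) = 0 := by
    intro x hx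
    obtain ⟨δ, hδ⟩ := (hGDU K k _ x).1 hx
    refine ⟨δ, fun m m' => ?_, fun m m' => ?_, fun m m' => ?_, fun m m' => ?_⟩ <;>
      simp [hδ, Pi.single_apply, eq_comm]
  have key : ∀ x : Fin (n + 1) ⊕ Fin (n + 1) → k, AlgebraicIndependent K x → ∀ a b : k, a ≠ 0 →
      a • X.sec C (x ∘ .inl) + b • X.sec C (x ∘ .inr) ≠ 0 ∧ 2 * n ≤
        #(dv k (a • X.sec C (x ∘ .inl) + b • X.sec C (x ∘ .inr)) + X.up C.W).support + 1 := by
    intro x hx a b ha
    obtain ⟨δ, d1, -, d2, -⟩ := dual x hx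
    set c : Fin (n + 1) → k := x ∘ .inl + (b / a) • (x ∘ .inr) with hc
    have e1 : a • X.sec C (x ∘ .inl) + b • X.sec C (x ∘ .inr) = algebraMap k E a * X.sec C c := by
      rw [← Algebra.smul_def, hc, map_add, map_smul, smul_add, smul_smul, mul_div_cancel₀ _ ha]
    have e2 : ∀ m, δ (.inl m) ∘ c = Pi.single m 1 + δ (.inl m) (b / a) • (x ∘ .inr) := fun m => by
      funext m'
      simp [hc, d1, d2, mul_comm]
    have h1 := ggp_rk (x ∘ .inr) fun m => δ (.inl m) (b / a)
    rw [← funext e2] at h1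
    have c0 : c ≠ 0 := fun e => by
      rw [Submodule.span_eq_bot.2 (by rintro _ ⟨m, rfl⟩; funext m'; simp [e]), finrank_bot] at h1
      omega
    have z0 : X.sec C c ≠ 0 := fun e => c0 (s2 (by rw [e, map_zero]))
    have a0 : algebraMap k E a ≠ 0 := (map_ne_zero _).2 ha
    obtain ⟨b1, -, b2⟩ := (hGBR K F k E X C.t C.ht).1 _ (s4 c c0).1
    have h2 : n ≤ lS (X.up C.W - X.br (X.zd C c)) := by
      have := R.rr_fd (X.up C.W - X.br (X.zd C c))
      refine h1.trans ((Submodule.equivMapOfInjective _ s2 _).finrank_eq.trans_le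
        (Submodule.finrank_mono ?_))
      rw [Submodule.map_span, Submodule.span_le]
      rintro _ ⟨_, ⟨m, rfl⟩, rfl⟩
      exact (hD (δ (.inl m)) c).2.2.1 c0
    have h3 := ggp_deg hW hG b1 h2
    have h4 : deg (X.zd C c) = 2 * n := by
      rw [Ex.zd, map_add, deg_dv, hW.deg_W]
      push_cast
      ring
    have h5 := card_filter_le (X.zd C c).support fun Q => Q ∈ Set.range X.pl
    rw [e1, dv_mul a0 z0, dv_const, zero_add]
    refine ⟨mul_ne_zero a0 z0, ?_⟩
    change 2 * n ≤ #(X.zd C c).support + 1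
    omega
  intro x hx
  refine ⟨fun P ⟨p1, p2⟩ => ?_, fun a b hab => ?_⟩
  · obtain ⟨δ, d1, d2, -, d3⟩ := dual x hx
    rcases X.cl.all P with ⟨P, rfl⟩ | ⟨y, rfl⟩
    · have h1 : ∀ m, X.sec C (Pi.single m 1) ∈ LS (X.up C.W - pt (X.ext P)) := fun m =>
        Gt.mem_LS_sub_pt.2 ⟨(s1 _).2 ⟨_, rfl⟩, by
          have := (hD (δ (.inl m)) (x ∘ .inl)).1 P
          rw [show δ (.inl m) ∘ x ∘ .inl = Pi.single m 1 from funext (d1 m)] at this
          exact this.trans_lt p1⟩
      have h2 : LS (X.up C.W) ≤ LS (X.up C.W - pt (X.ext P)) := fun z hz => by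
        obtain ⟨c, rfl⟩ := (s1 z).1 hz
        rw [pi_eq_sum_univ' c, map_sum]
        exact sum_mem fun m _ => by rw [map_smul]; exact Submodule.smul_mem _ _ (h1 m)
      have := R.rr_fd (X.up C.W - pt (X.ext P))
      have h3 : lS _ ≤ lS _ := Submodule.finrank_mono h2
      have h4 := hW (pt (X.ext P))
      rw [hW.lS_pt n.succ_pos, deg_single] at h4
      rw [hW.lS_W] at h3
      omega
    · rw [X.up_pl, exp_zero] at p1 p2
      have h1 := (s3 (x ∘ .inl) y).2.symm.trans (ev_of_lt p1)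
      have h2 := (s3 (x ∘ .inr) y).2.symm.trans (ev_of_lt p2)
      have h3 := (hD 0 (x ∘ .inl)).2.2.2 (Set.range (x ∘ .inl))
        (fun e => hx.ne_zero (.inl 0) (congrFun e 0)) (fun m => subset_acl _ ⟨m, rfl⟩) y h1
      have h4 : ∀ m, δ (.inr 0) (C.co y m) = 0 := fun m =>
        der_acl _ (by rintro _ ⟨m, rfl⟩; exact d3 0 m) (emb_mem_acl C.ht y h3 _)
      have h5 := congrArg (δ (.inr 0)) h2
      simp [dotProduct, h4, d2, Pi.single_apply] at h5
      exact C.li.ne_zero 0 ((map_eq_zero y).1 h5)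
  · rcases hab with h | h
    · exact key x hx a b h
    · rw [add_comm (a • _)]
      exact key (x ∘ Sum.swap) (hx.comp _ Sum.swap_leftInverse.injective) b a h

end

section

open WithZero Module Finset
open Pool.Agent.P.MP_6f117a_ag (Place FF)
open Pool.Agent.P.MP_ab3ecb_nt.Inv
open Pool.Agent.P.MP_9344a7_nt.Gt (pt lS Pr Can Bd Ch G12)
open scoped Classical IntermediateField

lemma gsp1_ev {k E ι : Type} [Field k] [IsAlgClosed k] [Field E] [Algebra k E] [FF k E]
    (P : Place k E) (s : Finset ι) (c : ι → k) (x : ι → E) (h : ∀ i, P.v (x i) ≤ 1) :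
    P.v (∑ i ∈ s, c i • x i) ≤ 1 ∧ ev P (∑ i ∈ s, c i • x i) = ∑ i ∈ s, c i * ev P (x i) := by
  induction s using Finset.induction_on with
  | empty => simp
  | insert i s hi ih =>
    have h1 : P.v (c i • x i) ≤ 1 := by
      rw [Algebra.smul_def, map_mul]
      exact mul_le_one' (P.triv _) (h i)
    rw [sum_insert hi, sum_insert hi, ev_add h1 ih.1, ih.2, Algebra.smul_def,
      ev_mul (P.triv _) (h i), ev_const, ← Algebra.smul_def]
    exact ⟨P.v.map_add_le h1 ih.1, rfl⟩

theorem p_GSP1 (hGBC : S_GBC) (hGRD : S_GRD) :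
    S_GSP1 := by
  intro K F k E _ _ _ _ _ _ _ _ _ _ _ _ X t ht V sp hV hsp N
  obtain ⟨g, R⟩ := p_RR K F ⟨t, ht⟩
  have := R.fd N
  have hB := (hGBC K F k E X t ht N).1
  obtain ⟨-, hjj, -, -, -, hlast⟩ := hGRD K F k E X t ht V hV
  let b0 := Module.finBasis K (LS N)
  let b : Fin (finrank K (LS N)) → F := fun i => b0 i
  have hli : LinearIndependent K b :=
    b0.linearIndependent.map' (LS N).subtype (Submodule.ker_subtype _)
  have hmem : ∀ i, X.j (b i) ∈ LS (X.up N) := fun i => by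
    rw [hB]
    exact Submodule.subset_span ⟨b i, (b0 i).2, rfl⟩
  have hrep : ∀ z ∈ LS (X.up N), ∃ c : Fin (finrank K (LS N)) → k,
      ∑ i, c i • X.j (b i) = z := by
    intro z hz
    rw [← Submodule.mem_span_range_iff_exists_fun]
    rw [hB] at hz
    refine Submodule.span_le.2 ?_ hz
    rintro _ ⟨w, hw, rfl⟩
    have e : w = ∑ i, b0.repr ⟨w, hw⟩ i • b i := by
      have := congrArg Subtype.val (b0.sum_repr ⟨w, hw⟩)
      rw [Submodule.coe_sum] at this
      exact this.symm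
    rw [e, map_sum]
    refine Submodule.sum_mem _ fun i _ => ?_
    rw [Algebra.smul_def, map_mul, X.ce.comm, ← Algebra.smul_def]
    exact Submodule.smul_mem _ _ (Submodule.subset_span ⟨i, rfl⟩)
  have hred : ∀ (c : Fin (finrank K (LS N)) → k), ∑ i, c i • X.j (b i) ∈ LS (X.up N) := fun c =>
    Submodule.sum_mem _ fun i _ => Submodule.smul_mem _ _ (hmem i)
  refine ⟨le_antisymm (Submodule.span_le.2 ?_) ?_, fun Y => Submodule.span_le.2 ?_⟩
  · rintro a ⟨z, hz, hr⟩
    obtain ⟨c, rfl⟩ := hrep z hz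
    rw [(hlast _ b c a hli hr).2]
    exact hred _
  · refine hB.le.trans (Submodule.span_le.2 ?_)
    rintro _ ⟨w, hw, rfl⟩
    exact Submodule.subset_span ⟨X.j w, hB.ge (Submodule.subset_span ⟨w, hw, rfl⟩), hjj w⟩
  · rintro a ⟨z, hz, hr⟩
    obtain ⟨hz1, hz2⟩ := Gt.mem_LS_sub_pt.1 hz
    obtain ⟨c, rfl⟩ := hrep z hz1
    obtain ⟨hc, rfl⟩ := hlast _ b c a hli hr
    refine Gt.mem_LS_sub_pt.2 ⟨hred _, ?_⟩
    obtain ⟨u, u1, u2⟩ : ∃ u : F, (sp Y).v (X.j u) = exp (-X.up N (sp Y)) ∧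
        Y.v (X.j u) ≤ exp (-X.up N Y) := by
      rcases X.cl.all (sp Y) with ⟨P, hP⟩ | ⟨y', hy'⟩
      · have e : (X.ext P).v (X.j (P.π ^ N P)) = exp (-X.up N (X.ext P)) := by
          rw [X.cl.ext_v, X.up_ext, v_eq P (zpow_ne_zero _ P.π_ne), ord_zpow, ord_π, mul_one]
        refine ⟨P.π ^ N P, hP ▸ e, ?_⟩
        rcases X.cl.all Y with ⟨P', rfl⟩ | ⟨y, rfl⟩
        · rw [hsp.ext] at hP
          rw [hP, e]
        · rw [X.up_pl, neg_zero, exp_zero]
          exact X.cl.pl_le _ _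
      · refine ⟨1, by rw [hy', X.up_pl]; simp, ?_⟩
        rcases X.cl.all Y with ⟨P', rfl⟩ | ⟨y, rfl⟩
        · rw [hsp.ext] at hy'
          exact absurd hy' (X.cl.ne _ _)
        · rw [X.up_pl]; simp
    have h1 : ∀ i, (sp Y).v (X.j (b i * u)) ≤ 1 := fun i => by
      rw [map_mul, map_mul, u1]
      calc _ ≤ exp (X.up N (sp Y)) * exp (-X.up N (sp Y)) :=
            mul_le_mul_left (mem_LS.1 (hmem i) _) _
        _ = 1 := by rw [← exp_add, add_neg_cancel, exp_zero]
    have h2 := fun i => hsp.spz Y _ (h1 i)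
    have e : ∀ d : Fin (finrank K (LS N)) → k, ∑ i, d i • X.j (b i * u) =
        (∑ i, d i • X.j (b i)) * X.j u := fun d => by
      rw [sum_mul]
      exact sum_congr rfl fun i _ => by rw [map_mul, smul_mul_assoc]
    have h3 := (gsp1_ev Y univ c _ fun i => (h2 i).1).2
    rw [e, ev_of_lt (by
      rw [map_mul]
      calc _ ≤ Y.v (∑ i, c i • X.j (b i)) * exp (-X.up N Y) := mul_le_mul_right u2 _
        _ < exp (X.up N Y) * exp (-X.up N Y) := mul_lt_mul_of_pos_right hz2 exp_pos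
        _ = 1 := by rw [← exp_add, add_neg_cancel, exp_zero])] at h3
    obtain ⟨h4, h5⟩ := gsp1_ev (sp Y) univ (fun i => V.r (c i)) _ h1
    have h6 : ∑ i, V.r (c i) * ev (sp Y) (X.j (b i * u)) = 0 := by
      rw [← V.r_zero, h3, Sv.r_sum _ fun i => mul_mem (hc i) (h2 i).2.1]
      exact sum_congr rfl fun i _ => by rw [Sv.r_mul (hc i) (h2 i).2.1, (h2 i).2.2]
    have h7 := (ev_eq_zero_iff h4).1 (h5.trans h6)
    rw [e, map_mul, u1, exp_neg, ← div_eq_mul_inv, div_lt_one₀ exp_pos] at h7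
    exact h7

end

end Pool.Agent.P.MP_9344a7_nt.Ac
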