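import Pool.Agent.P.MP_9344a7_nt.Ac.BaseT
import Pool.Agent.P.MP_9344a7_nt.Ac.IfaceC

/-! The steps of the lemma on summands of the theta divisor. -/

namespace Pool.Agent.P.MP_9344a7_nt.Ac

open WithZero Module Finset
open Pool.Agent.P.MP_6f117a_ag (Place FF)
open Pool.Agent.P.MP_ab3ecb_nt.Inv
open Pool.Agent.P.MP_9344a7_nt.Gt (pt lS Pr Can Bd Ch G12)
open scoped Classical IntermediateField

set_option linter.unusedVariables false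

/-! ### Fields and derivations -/

-- deps:
def S_GEX : Prop := ∀ (K F k : Type) [Field K] [IsAlgClosed K] [CharZero K] [Field F]
  [Algebra K F] [FF K F] [Field k] [IsAlgClosed k] [Algebra K k] (t : F), Transcendental K t →
    ∃ (E : Type) (_ : Field E) (_ : Algebra k E) (_ : FF k E), Nonempty (Ex K F k E)

-- deps:
def S_GORF : Prop := ∀ (K k : Type) [Field K] [IsAlgClosed K] [CharZero K] [Field k] [IsAlgClosed k]
  [Algebra K k], ∀ (T : Set k) (c : k),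
  ({c' | ∃ τ : k ≃ₐ[K] k, (∀ x ∈ T, τ x = x) ∧ τ c = c'}.Finite → c ∈ acl K T) ∧
  ((∀ τ : k ≃ₐ[K] k, (∀ x ∈ acl K T, τ x = x) → τ c = c) → c ∈ acl K T) ∧
  (c ∈ acl K (∅ : Set k) → c ∈ Set.range (algebraMap K k))

-- deps:
def S_GDU : Prop := ∀ (K k : Type) [Field K] [IsAlgClosed K] [CharZero K] [Field k] [IsAlgClosed k]
  [Algebra K k], ∀ (ι : Type) [Fintype ι] (x : ι → k),
  (AlgebraicIndependent K x →
    ∃ δ : ι → Derivation K k k, ∀ s s', δ s (x s') = if s = s' then 1 else 0) ∧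
  (∀ δ : ι → Derivation K k k, (∀ s s', δ s (x s') = if s = s' then 1 else 0) →
    AlgebraicIndependent K x ∧ ∀ (d : Derivation K k k), ∀ c ∈ acl K (Set.range x),
      d c = ∑ s, d (x s) * δ s c) ∧
  ∀ (d : Derivation K k k) (T : Set k), (∀ c ∈ T, d c ∈ acl K T) → ∀ c ∈ acl K T, d c ∈ acl K T

-- deps:
def S_GRK : Prop := ∀ (K k : Type) [Field K] [IsAlgClosed K] [CharZero K] [Field k] [IsAlgClosed k]
  [Algebra K k],
  (∀ (ι κ : Type) [Fintype ι] [Fintype κ] (x : ι → k) (z : κ → k), AlgebraicIndependent K x →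
    (∀ i, x i ∈ acl K (Set.range z)) → Fintype.card ι ≤ Fintype.card κ ∧
      (Fintype.card κ ≤ Fintype.card ι →
        AlgebraicIndependent K z ∧ ∀ j, z j ∈ acl K (Set.range x))) ∧
  (∀ T : Set k, T.Finite → ∃ (m : ℕ) (x : Fin m → k), AlgebraicIndependent K x ∧
    (∀ i, x i ∈ T) ∧ T ⊆ acl K (Set.range x)) ∧
  (∀ (ι1 ι2 κ1 κ2 : Type) [Finite ι1] [Finite ι2] (x : ι1 ⊕ ι2 → k) (z : κ1 ⊕ κ2 → k),
    AlgebraicIndependent K x → AlgebraicIndependent K (z ∘ .inl) →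
    AlgebraicIndependent K (z ∘ .inr) → (∀ i, z (.inl i) ∈ acl K (Set.range (x ∘ .inl))) →
    (∀ i, z (.inr i) ∈ acl K (Set.range (x ∘ .inr))) → AlgebraicIndependent K z) ∧
  ∀ (ι κ μ : Type) [Fintype ι] [Fintype κ] [Fintype μ] [Nonempty κ] (z : ι ⊕ κ → k) (x : μ → k),
    AlgebraicIndependent K (z ∘ .inl) → AlgebraicIndependent K x →
    (∀ i, x i ∈ acl K (Set.range z)) → Fintype.card ι + Fintype.card κ ≤ Fintype.card μ + 1 →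
      ∃ a : κ, AlgebraicIndependent K fun i : {i : ι ⊕ κ // i ≠ .inr a} => z i.1

-- deps:
def S_GLF : Prop := ∀ (K F L F' k : Type) [Field K] [Field F] [Algebra K F] [FF K F] [Field L]
  [Algebra K L] [Field F'] [Algebra L F'] [Field k] [Algebra K k] [Algebra L k]
  [IsScalarTower K L k] (j : F →+* F') (act : (L ≃ₐ[K] L) →* RingAut F') (t : F) (y : F →ₐ[K] k),
  CE j act → Transcendental K t → Transcendental L (y t) →
    ∃ y' : F' →ₐ[L] k, (∀ w, y' (j w) = y w) ∧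
      ∀ φ ψ : F' →+* k, (∀ w, φ (j w) = ψ (j w)) →
        (∀ c, φ (algebraMap L F' c) = ψ (algebraMap L F' c)) → φ = ψ

/-! ### Sections -/

-- deps: GORF
def S_GBC : Prop := ∀ (K F k E : Type) [Field K] [IsAlgClosed K] [CharZero K] [Field F]
  [Algebra K F] [FF K F] [Field k] [IsAlgClosed k] [Algebra K k] [Field E] [Algebra k E] [FF k E]
  (X : Ex K F k E) (t : F), Transcendental K t → ∀ D : Dv K F,
  LS (X.up D) = Submodule.span k (X.j '' LS D) ∧ lS (X.up D) = lS D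

-- deps: GORF GBC
def S_GBC2 : Prop := ∀ (n : ℕ) (K F k E : Type) [Field K] [IsAlgClosed K] [CharZero K] [Field F]
  [Algebra K F] [FF K F] [Field k] [IsAlgClosed k] [Algebra K k] [Field E] [Algebra k E] [FF k E]
  (C : Cd n K F) (X : Ex K F k E), 2 ≤ n →
  Can (n + 1) (X.up C.W) ∧ ¬ G12 k E

-- deps: GBC
def S_GSEC : Prop := ∀ (n : ℕ) (K F k E : Type) [Field K] [IsAlgClosed K] [CharZero K] [Field F]
  [Algebra K F] [FF K F] [Field k] [IsAlgClosed k] [Algebra K k] [Field E] [Algebra k E] [FF k E]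
  (C : Cd n K F) (X : Ex K F k E), 2 ≤ n →
  (∀ z, z ∈ LS (X.up C.W) ↔ ∃ c, X.sec C c = z) ∧ Function.Injective (X.sec C) ∧
  (∀ c y, (X.pl y).v (X.sec C c) ≤ 1 ∧ ev (X.pl y) (X.sec C c) = c ⬝ᵥ C.co y) ∧
  (∀ c, c ≠ 0 → 0 ≤ X.zd C c ∧ Pr (X.zd C c - X.up C.W) ∧
    ∀ y, X.zd C c (X.pl y) ≠ 0 ↔ c ⬝ᵥ C.co y = 0) ∧
  (∀ H, 0 ≤ H → Pr (H - X.up C.W) → ∃ c, c ≠ 0 ∧ X.zd C c = H) ∧
  (∀ (τ : k ≃ₐ[K] k) c y, X.wt C (τ ∘ c) ((τ : k →ₐ[K] k).comp y) = τ (X.wt C c y)) ∧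
  ∀ (a : k) c y, c ⬝ᵥ C.co y = 0 → X.wt C (a • c) y = a * X.wt C c y

-- deps: GBC2 GSEC
def S_GNS : Prop := ∀ (n : ℕ) (K F k E : Type) [Field K] [IsAlgClosed K] [CharZero K] [Field F]
  [Algebra K F] [FF K F] [Field k] [IsAlgClosed k] [Algebra K k] [Field E] [Algebra k E] [FF k E]
  (C : Cd n K F) (X : Ex K F k E), 2 ≤ n →
  ∀ (ι : Type) [Fintype ι] (y : ι → F →ₐ[K] k),
  ((AlgebraicIndependent K fun i => y i C.t) → Fintype.card ι ≤ n + 1 → lS (X.gs y) = 1) ∧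
  (Function.Injective y → (lS (X.gs y) = 1 ↔ LinearIndependent k fun i => C.co (y i)))

-- deps: GBC2
def S_GRHO : Prop := ∀ (n : ℕ) (K F k E : Type) [Field K] [IsAlgClosed K] [CharZero K] [Field F]
  [Algebra K F] [FF K F] [Field k] [IsAlgClosed k] [Algebra K k] [Field E] [Algebra k E] [FF k E]
  (C : Cd n K F) (X : Ex K F k E), 2 ≤ n → ∃ ρ, X.Rho C ρ

-- deps:
def S_GABL : Prop := ∀ (n : ℕ) (K F k E : Type) [Field K] [IsAlgClosed K] [CharZero K] [Field F]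
  [Algebra K F] [FF K F] [Field k] [IsAlgClosed k] [Algebra K k] [Field E] [Algebra k E] [FF k E]
  (C : Cd n K F) (X : Ex K F k E), 2 ≤ n →
  ∀ ρ, X.Rho C ρ → ∀ δ Z, X.Cst Z → X.vel C ρ δ Z = 0

-- deps: GORF GBC2 GNS GABL
def S_GKIL : Prop := ∀ (n : ℕ) (K F k E : Type) [Field K] [IsAlgClosed K] [CharZero K] [Field F]
  [Algebra K F] [FF K F] [Field k] [IsAlgClosed k] [Algebra K k] [Field E] [Algebra k E] [FF k E]
  (C : Cd n K F) (X : Ex K F k E), 2 ≤ n →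
  ∀ ρ, X.Rho C ρ →
  (∀ δ A, 0 ≤ A → lS A = 1 → X.vel C ρ δ A = 0 → ∀ y, A (X.pl y) ≠ 0 → δ (y C.t) = 0) ∧
  (∀ Z, (∀ δ, X.vel C ρ δ Z = 0) → X.Cst Z) ∧
  ∀ T A, X.Rt C.t T A → ∃ A', 0 ≤ A' ∧ lS A' = 1 ∧ X.Cst (A - A') ∧ X.Rt C.t T A'

-- deps: GSEC
def S_GDS : Prop := ∀ (n : ℕ) (K F k E : Type) [Field K] [IsAlgClosed K] [CharZero K] [Field F]
  [Algebra K F] [FF K F] [Field k] [IsAlgClosed k] [Algebra K k] [Field E] [Algebra k E] [FF k E]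
  (C : Cd n K F) (X : Ex K F k E), 2 ≤ n →
  ∀ (δ : Derivation K k k) (c : Fin (n + 1) → k),
  (∀ P, (X.ext P).v (X.sec C (δ ∘ c)) ≤ (X.ext P).v (X.sec C c)) ∧
  (∀ y, (X.pl y).v (X.sec C (δ ∘ c)) ≤ (X.pl y).v (X.sec C c) * exp 1 ∧
    (δ (y C.t) = 0 → (X.pl y).v (X.sec C (δ ∘ c)) ≤ (X.pl y).v (X.sec C c)) ∧
    (δ (y C.t) ≠ 0 → c ≠ 0 → c ⬝ᵥ C.co y = 0 →
      (X.pl y).v (X.sec C (δ ∘ c)) = (X.pl y).v (X.sec C c) * exp 1) ∧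
    (c ⬝ᵥ C.co y = 0 → c ⬝ᵥ (δ ∘ C.co y) = δ (y C.t) * X.wt C c y)) ∧
  (c ≠ 0 → X.sec C (δ ∘ c) ∈ LS (X.up C.W - X.br (X.zd C c))) ∧
  ∀ T : Set k, c ≠ 0 → (∀ m, c m ∈ acl K T) → ∀ y, c ⬝ᵥ C.co y = 0 → y C.t ∈ acl K T

-- deps: GDU GBC2 GSEC GDS GBR
def S_GSB : Prop := ∀ (n : ℕ) (K F k E : Type) [Field K] [IsAlgClosed K] [CharZero K] [Field F]
  [Algebra K F] [FF K F] [Field k] [IsAlgClosed k] [Algebra K k] [Field E] [Algebra k E] [FF k E]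
  (C : Cd n K F) (X : Ex K F k E), 2 ≤ n →
  ∀ (ι : Type) [Fintype ι] (φ : ι → F →ₐ[K] k) (H : Dv k E),
  (AlgebraicIndependent K fun i => φ i C.t) → X.gs φ ≤ H → Pr (H - X.up C.W) →
    Fintype.card ι + 1 ≤ lS (X.up C.W - X.br H) ∧
    (Fintype.card ι = n → X.br H = 0) ∧ (Fintype.card ι + 1 = n → deg (X.br H) ≤ 1)

-- deps:
def S_GBR : Prop := ∀ (K F k E : Type) [Field K] [IsAlgClosed K] [CharZero K] [Field F]
  [Algebra K F] [FF K F] [Field k] [IsAlgClosed k] [Algebra K k] [Field E] [Algebra k E] [FF k E]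
  (X : Ex K F k E) (t : F), Transcendental K t →
  (∀ H : Dv k E, 0 ≤ H → 0 ≤ X.br H ∧ X.br H ≤ H ∧
    deg H = deg (X.br H) + #{Q ∈ H.support | Q ∈ Set.range X.pl}) ∧
  (∀ (m : ℕ) (φ : Fin m → F →ₐ[K] k) (D' : Dv k E), 0 ≤ D' → deg D' = m →
    X.br (X.gs φ + D') = 0 → ∃ y : Fin m ⊕ Fin m → F →ₐ[K] k, Function.Injective y ∧
      y ∘ .inl = φ ∧ X.gs (y ∘ .inr) = D' ∧ X.gs y = X.gs φ + D') ∧
  ∀ (ι : Type) [Fintype ι] (Q : ι → Place k E) (a b : ι), a ≠ b → Q a = Q b →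
    deg (X.br (∑ i, pt (Q i))) ≤ 1 → (∀ i, Q i ∈ Set.range X.pl) ∧
      ∀ i i', Q i = Q i' → i = i' ∨ (i = a ∧ i' = b) ∨ (i = b ∧ i' = a)

-- deps: GORF GDU GBC2 GSEC GNS GDS GSB GBR
def S_GBPF : Prop := ∀ (n : ℕ) (K F k E : Type) [Field K] [IsAlgClosed K] [CharZero K] [Field F]
  [Algebra K F] [FF K F] [Field k] [IsAlgClosed k] [Algebra K k] [Field E] [Algebra k E] [FF k E]
  (C : Cd n K F) (X : Ex K F k E), 2 ≤ n →
  ∀ (ι : Type) [Fintype ι] (φ : ι → F →ₐ[K] k), (AlgebraicIndependent K fun i => φ i C.t) →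
  Fintype.card ι + 1 = n → ∀ P, lS (X.gs φ + pt P) = 1

-- deps: GBC2 GSB GBR GBPF
def S_GGR : Prop := ∀ (n : ℕ) (K F k E : Type) [Field K] [IsAlgClosed K] [CharZero K] [Field F]
  [Algebra K F] [FF K F] [Field k] [IsAlgClosed k] [Algebra K k] [Field E] [Algebra k E] [FF k E]
  (C : Cd n K F) (X : Ex K F k E), 2 ≤ n →
  ∀ (ι : Type) [Fintype ι] (φ : ι → F →ₐ[K] k), (AlgebraicIndependent K fun i => φ i C.t) →
  Fintype.card ι + 1 = n → ∀ P, Gr n (X.up C.W) (X.gs φ) (X.ext P)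

-- deps: GDU GRK GBC GBC2 GSEC GDS GBR
def S_GGP : Prop := ∀ (n : ℕ) (K F k E : Type) [Field K] [IsAlgClosed K] [CharZero K] [Field F]
  [Algebra K F] [FF K F] [Field k] [IsAlgClosed k] [Algebra K k] [Field E] [Algebra k E] [FF k E]
  (C : Cd n K F) (X : Ex K F k E), 2 ≤ n →
  ∀ x : Fin (n + 1) ⊕ Fin (n + 1) → k, AlgebraicIndependent K x →
    Gp n (X.up C.W) (X.sec C (x ∘ .inl)) (X.sec C (x ∘ .inr))

-- deps: GSEC
def S_GRSI : Prop := ∀ (n : ℕ) (K F k E : Type) [Field K] [IsAlgClosed K] [CharZero K] [Field F]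
  [Algebra K F] [FF K F] [Field k] [IsAlgClosed k] [Algebra K k] [Field E] [Algebra k E] [FF k E]
  (C : Cd n K F) (X : Ex K F k E), 2 ≤ n →
  ∀ ρ, X.Rho C ρ → ∀ (ι : Type) [Fintype ι] (y : ι → F →ₐ[K] k) (c : Fin (n + 1) → k),
  Function.Injective y → c ≠ 0 → X.zd C c = X.gs y →
    (∀ i, X.wt C c (y i) ≠ 0 ∧ c ⬝ᵥ C.co (y i) = 0) ∧
    ∀ m m', ∑ i, ρ (y i) * (X.wt C c (y i))⁻¹ * C.co (y i) m * C.co (y i) m' = 0

/-! ### Linear algebra -/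

-- deps:
def S_GLA : Prop := ∀ (k : Type) [Field k] (n : ℕ) (Φ : Fin n ⊕ Fin n → Fin (n + 1) → k)
  (w : Fin n ⊕ Fin n → k) (c : Fin (n + 1) → k), c ≠ 0 → (∀ i, w i ≠ 0) → (∀ i, c ⬝ᵥ Φ i = 0) →
  LinearIndependent k (Φ ∘ .inl) → LinearIndependent k (Φ ∘ .inr) →
  (∀ m m', ∑ i, (w i)⁻¹ * Φ i m * Φ i m' = 0) → ∀ Q, ∃ β : Fin n → k,
    Φ (.inr Q) = ∑ i, β i • Φ (.inl i) ∧ ∑ i, w (.inl i) * β i * β i = -w (.inr Q)

-- deps: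
def S_GLB : Prop := ∀ (k ι κ V : Type) [Field k] [CharZero k] [Fintype ι] [AddCommGroup V]
  [Module k V] (Φ : ι → V) (β w : ι → k) (wq : k) (P : ι) (x x' : κ → ι → k),
  LinearIndependent k Φ → ∑ i, w i * β i * β i = -wq →
  (∀ s, ∑ i, x s i • Φ i = ∑ i ∈ univ.erase P, x' s i • Φ i + x' s P • ∑ i, β i • Φ i) →
  (∀ s s', ∑ i, w i * x s i * x s' i =
    ∑ i ∈ univ.erase P, w i * x' s i * x' s' i + wq * x' s P * x' s' P) →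
    (∀ s, x s P = 0) ∨ ∀ s, ∑ i, w i * x s i * β i = 0

-- deps:
def S_GAN : Prop := ∀ (k ι : Type) [Field k] [Fintype ι] (L : Subfield k) (N m : ℕ)
  (l : ι → Fin N → k), Fintype.card ι + m = N → (∀ s i, l s i ∈ L) → LinearIndependent k l →
    ∃ u v : Fin m → Fin N → k, (∀ a i, u a i ∈ L ∧ v a i ∈ L) ∧
      (∀ a b, u a ⬝ᵥ v b = if a = b then 1 else 0) ∧
      (∀ z, z ∈ Submodule.span k (Set.range l) ↔ ∀ a, u a ⬝ᵥ z = 0) ∧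
      ∀ c, (∀ s, c ⬝ᵥ l s = 0) → c = ∑ a, (c ⬝ᵥ v a) • u a

/-! ### Specialisation -/

-- deps: GRK
def S_GVT : Prop := ∀ (K k : Type) [Field K] [IsAlgClosed K] [CharZero K] [Field k] [IsAlgClosed k]
  [Algebra K k], ∀ V : Sv k,
  V.Fx (Set.range (algebraMap K k)) →
  (∀ (ι : Type) (x : ι → k), (∀ i, x i ∈ V.O) → (AlgebraicIndependent K fun i => V.r (x i)) →
    ∀ c ∈ acl K (Set.range x), c ∈ V.O) ∧
  (∀ T : Set k, (∀ c ∈ IntermediateField.adjoin K T, c ∈ V.O) → ∀ c ∈ acl K T, c ∈ V.O) ∧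
  (∀ T : Set k, (∀ c ∈ acl K T, c ∈ V.O) → (∀ c ∈ acl K T, V.r c ∈ acl K (V.r '' T)) ∧
    (∀ c ∈ acl K T, ∀ c' ∈ acl K T, V.r c = V.r c' → c = c') ∧
    ∀ (ι : Type) (x : ι → k), (∀ i, x i ∈ acl K T) → AlgebraicIndependent K x →
      AlgebraicIndependent K fun i => V.r (x i)) ∧
  ∀ (m : ℕ) (x : Fin m → k), ¬ (∀ c ∈ acl K (Set.range x), c ∈ V.O) →
    ∃ (m' : ℕ) (z : Fin m' → k), m' < m ∧
      ∀ c ∈ acl K (Set.range x), c ∈ V.O → V.r c ∈ acl K (Set.range z)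

-- deps: RST
def S_GSPX : Prop := ∀ (K F k E : Type) [Field K] [IsAlgClosed K] [CharZero K] [Field F]
  [Algebra K F] [FF K F] [Field k] [IsAlgClosed k] [Algebra K k] [Field E] [Algebra k E] [FF k E]
  (X : Ex K F k E) (t : F), Transcendental K t → ∀ V : Sv k,
  V.Fx (Set.range (algebraMap K k)) → ∃ sp, X.Spm V sp

-- deps:
def S_GRD : Prop := ∀ (K F k E : Type) [Field K] [IsAlgClosed K] [CharZero K] [Field F]
  [Algebra K F] [FF K F] [Field k] [IsAlgClosed k] [Algebra K k] [Field E] [Algebra k E] [FF k E]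
  (X : Ex K F k E) (t : F), Transcendental K t → ∀ V : Sv k,
  V.Fx (Set.range (algebraMap K k)) →
  (∀ z a b, X.Rd V z a → X.Rd V z b → a = b) ∧ (∀ w, X.Rd V (X.j w) (X.j w)) ∧
  (∀ z z' a a', X.Rd V z a → X.Rd V z' a' → X.Rd V (z + z') (a + a') ∧ X.Rd V (z * z') (a * a')) ∧
  (∀ z a, ∀ c ∈ V.O, X.Rd V z a → X.Rd V (c • z) (V.r c • a)) ∧
  (∀ z ∈ Submodule.span k (Set.range X.j), z ≠ 0 → ∃ (c : k) (a : E), c ≠ 0 ∧ a ≠ 0 ∧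
    X.Rd V (c • z) a) ∧
  ∀ (ι : Type) [Fintype ι] (b : ι → F) (c : ι → k) (a : E), LinearIndependent K b →
    X.Rd V (∑ i, c i • X.j (b i)) a → (∀ i, c i ∈ V.O) ∧ a = ∑ i, V.r (c i) • X.j (b i)

-- deps: GRD
def S_GRDD : Prop := ∀ (K F k E : Type) [Field K] [IsAlgClosed K] [CharZero K] [Field F]
  [Algebra K F] [FF K F] [Field k] [IsAlgClosed k] [Algebra K k] [Field E] [Algebra k E] [FF k E]
  (X : Ex K F k E) (t : F), Transcendental K t → ∀ V : Sv k,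
  V.Fx (Set.range (algebraMap K k)) → ∀ U : Submodule k E, U ≤ Submodule.span k (Set.range X.j) →
  FiniteDimensional k U → FiniteDimensional k (X.Red V U) ∧ finrank k (X.Red V U) = finrank k U

-- deps: GBC GRD
def S_GSP1 : Prop := ∀ (K F k E : Type) [Field K] [IsAlgClosed K] [CharZero K] [Field F]
  [Algebra K F] [FF K F] [Field k] [IsAlgClosed k] [Algebra K k] [Field E] [Algebra k E] [FF k E]
  (X : Ex K F k E) (t : F), Transcendental K t → ∀ (V : Sv k) sp,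
  V.Fx (Set.range (algebraMap K k)) → X.Spm V sp → ∀ N : Dv K F,
  X.Red V (LS (X.up N)) = LS (X.up N) ∧
    ∀ Y, X.Red V (LS (X.up N - pt Y)) ≤ LS (X.up N - pt (sp Y))

-- deps:
def S_GPEN : Prop := ∀ (k E : Type) [Field k] [IsAlgClosed k] [Field E] [Algebra k E] [FF k E]
  (g : ℕ) (W A B : Dv k E), Can g W → 2 * (g : ℤ) ≤ deg B → deg B + 2 * g ≤ deg A →
    LS (A + B) ≤ LS A * LS B ∧
      ∀ (B' : Dv k E) (f : E), f ≠ 0 → 2 * (g : ℤ) ≤ deg B' → (∀ z, z ∈ LS B ↔ f * z ∈ LS B') →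
        Pr (B' - B)

-- deps: GBC GBC2 GRD GRDD GSP1 GPEN
def S_GSP2 : Prop := ∀ (n : ℕ) (K F k E : Type) [Field K] [IsAlgClosed K] [CharZero K] [Field F]
  [Algebra K F] [FF K F] [Field k] [IsAlgClosed k] [Algebra K k] [Field E] [Algebra k E] [FF k E]
  (C : Cd n K F) (X : Ex K F k E), 2 ≤ n →
  ∀ (V : Sv k) sp, V.Fx (Set.range (algebraMap K k)) → X.Spm V sp → ∀ Z : Dv k E, 0 ≤ Z →
    ∃ c : ℤ, ∀ N : Dv K F, c ≤ deg N →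
      X.Red V (LS (X.up N - Z)) = LS (X.up N - Z.mapDomain sp)

-- deps: GBC GBC2 GRD GPEN GSP2
def S_GSPC : Prop := ∀ (n : ℕ) (K F k E : Type) [Field K] [IsAlgClosed K] [CharZero K] [Field F]
  [Algebra K F] [FF K F] [Field k] [IsAlgClosed k] [Algebra K k] [Field E] [Algebra k E] [FF k E]
  (C : Cd n K F) (X : Ex K F k E), 2 ≤ n →
  ∀ (V : Sv k) sp, V.Fx (Set.range (algebraMap K k)) → X.Spm V sp → ∀ Z : Dv k E,
    (Pr Z → Pr (Z.mapDomain sp)) ∧ (X.Cst Z → X.Cst (Z.mapDomain sp)) ∧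
      ∀ D, (X.up D).mapDomain sp = X.up D

-- deps: COL PEN GEX GLF GBC GBC2 GSEC GNS GBPF GGR
def S_GCOL : Prop := ∀ (n : ℕ) (K F k E : Type) [Field K] [IsAlgClosed K] [CharZero K] [Field F]
  [Algebra K F] [FF K F] [Field k] [IsAlgClosed k] [Algebra K k] [Field E] [Algebra k E] [FF k E]
  (C : Cd n K F) (X : Ex K F k E), 2 ≤ n →
  ∀ (ι : Type) [Fintype ι] (φ : ι → F →ₐ[K] k) (y y' : F →ₐ[K] k) (c : Fin (n + 1) → k),
  (AlgebraicIndependent K fun i => φ i C.t) → Fintype.card ι + 1 = n →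
  y C.t ∉ acl K (Set.range fun i => φ i C.t) → (∀ i, y' ≠ φ i) → y ≠ y' → c ≠ 0 →
  (∀ i, c ⬝ᵥ C.co (φ i) = 0) → c ⬝ᵥ C.co y = 0 → c ⬝ᵥ C.co y' = 0 →
    ∃ (V : Sv k) (Q : Place k E), V.Fx (acl K (Set.range fun i => φ i C.t)) ∧
      X.Spz V (X.pl y) Q ∧ X.Spz V (X.pl y') Q

-- deps: SWP SEP RST GEX GLF GVT
def S_GSWP : Prop := ∀ (n : ℕ) (K F k : Type) [Field K] [IsAlgClosed K] [CharZero K] [Field F]
  [Algebra K F] [FF K F] [Field k] [IsAlgClosed k] [Algebra K k] (C : Cd n K F), 2 ≤ n →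
  ∀ (V : Sv k) (T : Set k) (s : k) (c1 c2 : Fin (n + 1) → k) (y y' : F →ₐ[K] k) (Y : Finset k),
  V.Fx (Set.range (algebraMap K k)) → (∀ z ∈ acl K T, z ∈ V.O) → (∀ m, c1 m ∈ acl K T) →
  (∀ m, c2 m ∈ acl K T) → s ∉ acl K T → y ≠ y' → (c1 + s • c2) ⬝ᵥ C.co y = 0 →
  (c1 + s • c2) ⬝ᵥ C.co y' = 0 → c2 ⬝ᵥ C.co y ≠ 0 → c2 ⬝ᵥ C.co y' ≠ 0 →
  (∀ w, y w ∈ V.O ∧ y' w ∈ V.O ∧ V.r (y w) = V.r (y' w)) → (∀ x ∈ Y, x ∈ acl K (insert s T)) →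
    ∃ τ : k ≃ₐ[K] k, (∀ z ∈ acl K T, τ z = z) ∧ τ s = s ∧ (τ : k →ₐ[K] k).comp y = y' ∧
      ∀ x ∈ Y, x ∈ V.O → τ x ∈ V.O ∧ V.r (τ x) = V.r x

/-! ### Summands of the theta divisor -/

-- deps: GORF GDU GBC2 GSEC GNS GABL GKIL GDS GRSI
def S_GS4 : Prop := ∀ (n : ℕ) (K F k E : Type) [Field K] [IsAlgClosed K] [CharZero K] [Field F]
  [Algebra K F] [FF K F] [Field k] [IsAlgClosed k] [Algebra K k] [Field E] [Algebra k E] [FF k E]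
  (C : Cd n K F) (X : Ex K F k E), 2 ≤ n →
  ∀ (S : St C X) ρ, X.Rho C ρ → S.So ρ

-- deps: GSEC GLA GLB
def S_GS5 : Prop := ∀ (n : ℕ) (K F k E : Type) [Field K] [IsAlgClosed K] [CharZero K] [Field F]
  [Algebra K F] [FF K F] [Field k] [IsAlgClosed k] [Algebra K k] [Field E] [Algebra k E] [FF k E]
  (C : Cd n K F) (X : Ex K F k E), 2 ≤ n →
  ∀ (S : St C X) ρ, X.Rho C ρ → S.So ρ → ∀ P Q, S.Sw P Q →
    S.Φ ρ (.inl P) ∈ S.L2 ρ ∨ S.Φ ρ (.inr Q) ∈ S.L2 ρ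

-- deps: GSEC GSB GBR GSPX GSPC GCOL
def S_GS6 : Prop := ∀ (n : ℕ) (K F k E : Type) [Field K] [IsAlgClosed K] [CharZero K] [Field F]
  [Algebra K F] [FF K F] [Field k] [IsAlgClosed k] [Algebra K k] [Field E] [Algebra k E] [FF k E]
  (C : Cd n K F) (X : Ex K F k E), 2 ≤ n →
  ∀ (S : St C X) P Q, ∃ V, S.Co V P Q

-- deps: GRK GABL GKIL GBPF GVT GSPX GSPC
def S_GS7 : Prop := ∀ (n : ℕ) (K F k E : Type) [Field K] [IsAlgClosed K] [CharZero K] [Field F]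
  [Algebra K F] [FF K F] [Field k] [IsAlgClosed k] [Algebra K k] [Field E] [Algebra k E] [FF k E]
  (C : Cd n K F) (X : Ex K F k E), 2 ≤ n →
  ∀ (S : St C X) ρ, X.Rho C ρ → S.So ρ → ∀ V P Q, S.Co V P Q →
    (∀ c ∈ S.k1, c ∈ V.O) ∨ ∀ c ∈ S.k2, c ∈ V.O

-- deps: GDU GRK GDS GAN GVT
def S_GS8 : Prop := ∀ (n : ℕ) (K F k E : Type) [Field K] [IsAlgClosed K] [CharZero K] [Field F]
  [Algebra K F] [FF K F] [Field k] [IsAlgClosed k] [Algebra K k] [Field E] [Algebra k E] [FF k E]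
  (C : Cd n K F) (X : Ex K F k E), 2 ≤ n →
  ∀ (S : St C X) ρ, X.Rho C ρ → S.So ρ → ∀ V P Q, S.Co V P Q → (∀ c ∈ S.k1, c ∈ V.O) →
    S.Φ ρ (.inl P) ∈ S.L1 ρ ∨ S.Φ ρ (.inr Q) ∈ S.L1 ρ ∨ ∃ T a s c1 c2, S.Pe V P Q T a s c1 c2

-- deps: GSEC GDS GSWP
def S_GS8B : Prop := ∀ (n : ℕ) (K F k E : Type) [Field K] [IsAlgClosed K] [CharZero K] [Field F]
  [Algebra K F] [FF K F] [Field k] [IsAlgClosed k] [Algebra K k] [Field E] [Algebra k E] [FF k E]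
  (C : Cd n K F) (X : Ex K F k E), 2 ≤ n →
  ∀ (S : St C X) V P Q T a s c1 c2, S.Co V P Q → S.Pe V P Q T a s c1 c2 → S.Sw P Q

-- deps: GSEC GABL GKIL
def S_GS9 : Prop := ∀ (n : ℕ) (K F k E : Type) [Field K] [IsAlgClosed K] [CharZero K] [Field F]
  [Algebra K F] [FF K F] [Field k] [IsAlgClosed k] [Algebra K k] [Field E] [Algebra k E] [FF k E]
  (C : Cd n K F) (X : Ex K F k E), 2 ≤ n →
  ∀ (S : St C X) ρ, X.Rho C ρ → S.So ρ →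
  (∀ P Q, (S.Φ ρ (.inl P) ∈ S.L1 ρ ∨ S.Φ ρ (.inl P) ∈ S.L2 ρ) ∨
    (S.Φ ρ (.inr Q) ∈ S.L1 ρ ∨ S.Φ ρ (.inr Q) ∈ S.L2 ρ)) →
    ∃ B, (0 ≤ B ∧ B ≤ X.gs (S.y ∘ .inl) ∧ X.Cst (S.A2 - B)) ∨
      (0 ≤ B ∧ B ≤ X.gs (S.y ∘ .inr) ∧ X.Cst (S.A2 + B))

-- deps: GDU GRK GBC2 GSEC GRHO GKIL GSB GBR
def S_GST : Prop := ∀ (n : ℕ) (K F k E : Type) [Field K] [IsAlgClosed K] [CharZero K] [Field F]
  [Algebra K F] [FF K F] [Field k] [IsAlgClosed k] [Algebra K k] [Field E] [Algebra k E] [FF k E]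
  (C : Cd n K F) (X : Ex K F k E), 2 ≤ n →
  ∀ (φ : Fin n → F →ₐ[K] k) (D' A1 A2 : Dv k E) (ι1 ι2 : Type) [Finite ι1] [Finite ι2]
  (x : ι1 ⊕ ι2 → k), Gen C.t φ → 0 ≤ D' → Pr (X.gs φ + D' - X.up C.W) →
  AlgebraicIndependent K x → X.Rt C.t (Set.range (x ∘ .inl)) A1 →
  X.Rt C.t (Set.range (x ∘ .inr)) A2 → X.Cst (X.gs φ - A1 - A2) →
    ∃ S : St C X, S.y ∘ .inl = φ ∧ X.gs (S.y ∘ .inr) = D' ∧ X.Cst (A2 - S.A2)

-- deps: GRHO GS4 GS5 GS6 GS7 GS8 GS8B GS9 GST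
def S_THG : Prop := ∀ (n : ℕ) (K F k E : Type) [Field K] [IsAlgClosed K] [CharZero K] [Field F]
  [Algebra K F] [FF K F] [Field k] [IsAlgClosed k] [Algebra K k] [Field E] [Algebra k E] [FF k E]
  (C : Cd n K F) (X : Ex K F k E), 2 ≤ n →
  ∀ (φ : Fin n → F →ₐ[K] k) (D' A1 A2 : Dv k E) (ι1 ι2 : Type) [Finite ι1] [Finite ι2]
  (x : ι1 ⊕ ι2 → k), Gen C.t φ → 0 ≤ D' → Pr (X.gs φ + D' - X.up C.W) →
  AlgebraicIndependent K x → X.Rt C.t (Set.range (x ∘ .inl)) A1 →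
  X.Rt C.t (Set.range (x ∘ .inr)) A2 → X.Cst (X.gs φ - A1 - A2) →
    ∃ B, (0 ≤ B ∧ B ≤ X.gs φ ∧ X.Cst (A2 - B)) ∨ (0 ≤ B ∧ B ≤ D' ∧ X.Cst (A2 + B))

end Pool.Agent.P.MP_9344a7_nt.Ac
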