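import Pool.Agent.P.MP_9344a7_nt.Ac.IfaceU
import Pool.Agent.P.MP_9344a7_nt.Ac.IfaceG

/-! Steps UL1, UL2, UPA, UCP, UAV, UCP0, GCS, UE1. -/

set_option linter.unusedVariables false
set_option linter.unusedSectionVars false

namespace Pool.Agent.P.MP_9344a7_nt.Ac

section

open WithZero Module Finset Polynomial Filter
open Pool.Agent.P.MP_6f117a_ag (Place FF)
open Pool.Agent.P.MP_ab3ecb_nt.Inv
open Pool.Agent.P.MP_9344a7_nt.R (Eff J ef)
open Pool.Agent.P.MP_9344a7_nt.Hy (LD GB FB IsL)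
open Pool.Agent.P.MP_9344a7_nt.Od (GD)
open Pool.Agent.P.MP_9344a7_nt.Gt (pt lS Pr Can Bd Ch G12 Cv Kb)
open scoped Classical IntermediateField Polynomial.Bivariate

lemma ul1_card {α ι : Type} [Fintype ι] {f : ι → α} (hf : Function.Injective f) {c : ι → ℤ}
    (hc : ∀ a, c a ≠ 0) : #(∑ a, Finsupp.single (f a) (c a)).support = Fintype.card ι := by
  rw [Finsupp.support_sum_eq_biUnion _ fun a b h => by
    simpa [Finsupp.support_single _ (hc _)] using hf.ne h]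
  simp only [Finsupp.support_single _ (hc _), biUnion_singleton]
  exact card_image_of_injective _ hf

lemma ul1_abs {α ι : Type} [Fintype ι] (f : ι → α) (c : ι → ℤ) (x : α) :
    |(∑ a, Finsupp.single (f a) (c a)) x| ≤ (∑ a, (c a).natAbs : ℕ) := by
  rw [Finsupp.finsetSum_apply, Nat.cast_sum]
  refine (abs_sum_le_sum_abs _ _).trans (sum_le_sum fun a _ => ?_)
  rw [Finsupp.single_apply]
  split_ifs <;> simp

section

variable {k E : ℕ → Type} [∀ i, Field (k i)] [∀ i, Field (E i)] [∀ i, Algebra (k i) (E i)]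
  {k' E' : Type} [Field k'] [Field E'] [Algebra k' E'] (𝒰 : Uf k E k' E')

lemma ul1_sum {ι : Type} [Fintype ι] (P : ι → ∀ i, Place (k i) (E i)) (c : ι → ℤ) :
    𝒰.Lm (fun i => ∑ a, Finsupp.single (P a i) (c a)) (∑ a, Finsupp.single (𝒰.pl (P a)) (c a)) :=
  Uf.lm_sum _ fun a => by simpa using (𝒰.lm_pt (P a)).zsmul (c a)

lemma ul1_ex (D' : Dv k' E') : ∃ P : D'.support → ∀ i, Place (k i) (E i), (∀ a, 𝒰.pl (P a) = a) ∧
    𝒰.Lm (fun i => ∑ a, Finsupp.single (P a i) (D' a)) D' := by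
  choose P hP using fun a : D'.support => 𝒰.all a
  have := ul1_sum 𝒰 P fun a => D' a
  simp only [hP] at this
  rw [(sum_coe_sort D'.support fun a => Finsupp.single a (D' a)).trans D'.sum_single] at this
  exact ⟨P, hP, this⟩

lemma ul1_one (D D') (h : 𝒰.Lm D D') : ∃ P : D'.support → ∀ i, Place (k i) (E i),
    (∀ a, 𝒰.pl (P a) = a) ∧ ∀ᶠ i in UU, Function.Injective (fun a => P a i) ∧
      D i = ∑ a, Finsupp.single (P a i) (D' a) := by
  obtain ⟨P, a1, a2⟩ := ul1_ex 𝒰 D'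
  refine ⟨P, a1, .and (eventually_all.2 fun a => eventually_all.2 fun b => ?_)
    ((h.eq_iff a2).1 rfl)⟩
  by_cases e : a = b
  · exact .of_forall fun _ _ => e
  · exact (Ultrafilter.eventually_not.2 fun g => e (Subtype.ext
      ((a1 a).symm.trans ((𝒰.pl_eq.2 g).trans (a1 b))))).mono fun _ g g' => (g g').elim

end

theorem p_UL1 :
    S_UL1 := by
  intro k E _ _ _ _ _ k' E' _ _ _ _ _ _ 𝒰
  refine ⟨ul1_one 𝒰, fun D N h => ?_, fun D' => ⟨_, (ul1_ex 𝒰 D').choose_spec.2⟩,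
    fun D D' h => ?_, fun D D' σ h => ?_⟩
  · have := 𝒰.ne
    obtain ⟨m, -, hm⟩ := uu_le (f := fun i => (deg (D i)).toNat) (N := N)
      (h.mono fun i e => Int.toNat_le.2 e.2)
    obtain ⟨Q, hQ⟩ := Filter.skolem.1 ((h.and hm).mono fun i e => eff_sum m (D i) e.1.1
      (e.2 ▸ (Int.toNat_of_nonneg (deg_nonneg e.1.1)).symm))
    exact ⟨_, (ul1_sum 𝒰 (fun a i => Q i a) fun _ => 1).congr (hQ.mono fun _ e => e.symm)⟩
  · obtain ⟨P, -, hP⟩ := ul1_one 𝒰 D D' h
    refine ⟨hP.mono fun i e => ⟨?_, ?_⟩, _, hP.mono fun i e x => e.2 ▸ ul1_abs _ _ x⟩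
    · rw [e.2, map_sum, deg_eq D', ← sum_coe_sort D'.support]
      simp only [deg_single]
    · rw [e.2, ul1_card e.1 fun a => Finsupp.mem_support_iff.1 a.2, Fintype.card_coe]
  · obtain ⟨P, -, hP⟩ := ul1_one 𝒰 D D' h
    refine ⟨_, (ul1_sum 𝒰 (fun a i => (σ i).pl (P a i)) fun a => D' a).congr
      (hP.mono fun i e => ?_)⟩
    rw [e.2, map_sum]
    simp only [SA.dm_single]

end

section

open WithZero Module Finset Polynomial Filter
open Pool.Agent.P.MP_6f117a_ag (Place FF)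
open Pool.Agent.P.MP_ab3ecb_nt.Inv
open Pool.Agent.P.MP_9344a7_nt.R (Eff J ef)
open Pool.Agent.P.MP_9344a7_nt.Hy (LD GB FB IsL)
open Pool.Agent.P.MP_9344a7_nt.Od (GD)
open Pool.Agent.P.MP_9344a7_nt.Gt (pt lS Pr Can Bd Ch G12 Cv Kb)
open scoped Classical IntermediateField Polynomial.Bivariate

lemma ul2_le {k E : Type} [Field k] [IsAlgClosed k] [Field E] [Algebra k E] [FF k E] {r : ℕ}
    {D : Dv k E} : r ≤ lS D ↔ ∃ z : Fin r → E, (∀ a, z a ∈ LS D) ∧ LinearIndependent k z := by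
  have := R.rr_fd D
  refine ⟨fun h => ?_, fun ⟨z, a, b⟩ => ?_⟩
  · obtain ⟨f, hf⟩ := exists_linearIndependent_of_le_finrank h
    exact ⟨_, fun a => (f a).2, hf.map' (LS D).subtype (Submodule.ker_subtype _)⟩
  · simpa [lS] using (LinearIndependent.of_comp (v := fun i => (⟨z i, a i⟩ : LS D)) (LS D).subtype
      b).fintype_card_le_finrank

lemma ul2_pr {k E : Type} [Field k] [IsAlgClosed k] [Field E] [Algebra k E] [FF k E]
    {D : Dv k E} : Pr D ↔ deg D = 0 ∧ lS D ≠ 0 :=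
  ⟨fun h => ⟨let ⟨z, _, e⟩ := h; e ▸ deg_dv z, by
    rw [Gt.Pr.lS_eq (D' := 0) (by rwa [sub_zero]), Gt.lS_zero]
    exact one_ne_zero⟩, fun h => Gt.pr_of_lS h.1 h.2⟩

section

variable {k E : ℕ → Type} [∀ i, Field (k i)] [∀ i, IsAlgClosed (k i)] [∀ i, Field (E i)]
  [∀ i, Algebra (k i) (E i)] [∀ i, FF (k i) (E i)]
  {k' E' : Type} [Field k'] [IsAlgClosed k'] [Field E'] [Algebra k' E'] [FF k' E']
  {𝒰 : Uf k E k' E'} {D : ∀ i, Dv (k i) (E i)} {D' : Dv k' E'}

lemma ul2_mem (h : 𝒰.Lm D D') {z : ∀ i, E i} (hz : z ∈ Bs k E) :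
    𝒰.fn z ∈ LS D' ↔ ∀ᶠ i in UU, z i ∈ LS (D i) := by
  by_cases e : 𝒰.fn z = 0
  · exact iff_of_true (e ▸ zero_mem _) (((𝒰.fn_eq_zero hz).1 e).mono fun i a => a ▸ zero_mem _)
  · rw [mem_LS' e, ((Uf.lm_dv hz).add h).nonneg]
    exact eventually_congr ((Ultrafilter.eventually_not.2 (mt (𝒰.fn_eq_zero hz).2 e)).mono
      fun i a => (mem_LS' a).symm)

lemma ul2_li (𝒰 : Uf k E k' E') (ι : Type) [Fintype ι] (z : ι → ∀ i, E i) (h : ∀ a, z a ∈ Bs k E) :
    LinearIndependent k' (fun a => 𝒰.fn (z a)) ↔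
      ∀ᶠ i in UU, LinearIndependent (k i) fun a => z a i := by
  have key : ∀ c : ι → ∀ i, k i, ∑ a, 𝒰.π (c a) • 𝒰.fn (z a) = 0 ↔
      ∀ᶠ i in UU, ∑ a, c a i • z a i = 0 := fun c => by
    simp only [← fun a => 𝒰.fn_smul (c a) (h a)]
    rw [← 𝒰.fn_sum _ fun a => smul_mem_Bs (c a) (h a),
      𝒰.fn_eq_zero (sum_mem fun a _ => smul_mem_Bs (c a) (h a))]
    simp only [Finset.sum_apply]
  simp only [Fintype.linearIndependent_iff]
  refine ⟨fun e => uu_all fun c => Ultrafilter.eventually_imp.2 fun e' => eventually_all.2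
    fun a => 𝒰.π_eq_zero.1 (e _ ((key fun a i => c i a).2 e') a), fun e g e' a => ?_⟩
  choose c hc using fun a => 𝒰.up.surj (g a)
  obtain rfl : (fun a => 𝒰.π (c a)) = g := funext hc
  exact 𝒰.π_eq_zero.2 ((e.and ((key c).1 e')).mono fun i x => x.1 _ x.2 a)

variable (h3 : ∀ D', ∃ D, 𝒰.Lm D D')
  (h4 : ∀ D D', 𝒰.Lm D D' → ∀ᶠ i in UU, deg (D i) = deg D') (h : 𝒰.Lm D D')
include h3 h4 h

lemma ul2_bs {z : ∀ i, E i} (hz : ∀ᶠ i in UU, z i ∈ LS (D i)) : z ∈ Bs k E := by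
  obtain ⟨H, hH⟩ := h3 (D' ⊔ 0)
  refine ⟨(deg (D' ⊔ 0)).toNat, ?_⟩
  filter_upwards [hz, h4 _ _ hH, hH.nonneg.1 le_sup_right, (h.le_iff hH).1 le_sup_left]
    with i a b c d using ⟨H i, c, b ▸ Int.self_le_toNat _, LS_mono d a⟩

lemma ul2_lS : ∀ᶠ i in UU, lS (D i) = lS D' := by
  have key : ∀ r, r ≤ lS D' ↔ ∀ᶠ i in UU, r ≤ lS (D i) := fun r => by
    simp only [ul2_le]
    refine ⟨fun ⟨w, a, b⟩ => ?_, fun e => ?_⟩
    · choose z hz e using fun a => 𝒰.fn_surj (w a)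
      obtain rfl : (fun a => 𝒰.fn (z a)) = w := funext e
      filter_upwards [(ul2_li 𝒰 _ z hz).1 b, eventually_all.2 fun s => (ul2_mem h (hz s)).1 (a s)]
        with i x y using ⟨_, y, x⟩
    · obtain ⟨z, hz⟩ := Filter.skolem.1 e
      have m : ∀ a, ∀ᶠ i in UU, z i a ∈ LS (D i) := fun a => hz.mono fun i x => x.1 a
      have b : ∀ a, (fun i => z i a) ∈ Bs k E := fun a => ul2_bs h3 h4 h (m a)
      exact ⟨_, fun a => (ul2_mem h (b a)).2 (m a), (ul2_li 𝒰 _ _ b).2 (hz.mono fun i x => x.2)⟩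
  filter_upwards [(key _).1 le_rfl, Ultrafilter.eventually_not.2
    (mt (key _).2 (Nat.not_succ_le_self _))] with i a b
  omega

end

theorem p_UL2 (hUL1 : S_UL1) :
    S_UL2 := by
  intro k E _ _ _ _ _ k' E' _ _ _ _ _ _ 𝒰
  obtain ⟨-, h2, h3, h4, -⟩ := hUL1 k E k' E' 𝒰
  replace h4 : ∀ D D', 𝒰.Lm D D' → ∀ᶠ i in UU, deg (D i) = deg D' := fun D D' h =>
    (h4 D D' h).1.mono fun _ => And.left
  refine ⟨fun D D' h => ⟨fun z => ul2_mem h, fun z => ul2_bs h3 h4 h, ul2_lS h3 h4 h, ?_,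
    fun g e A' => ?_⟩, ul2_li 𝒰, fun e ⟨P', Q', h⟩ => ?_, fun z hz d e => ?_⟩
  · refine ((eventually_congr ?_).trans eventually_const).symm
    filter_upwards [h4 _ _ h, ul2_lS h3 h4 h] with i a b
    rw [ul2_pr, ul2_pr, a, b]
  · obtain ⟨A, hA⟩ := h3 A'
    obtain ⟨i, a, b, c, d⟩ := (e.and ((h4 _ _ hA).and ((ul2_lS h3 h4 hA).and
      (ul2_lS h3 h4 (h.sub hA))))).exists
    rw [← b, ← c, ← d, a]
  · obtain ⟨P, rfl⟩ := 𝒰.all P'
    obtain ⟨Q, rfl⟩ := 𝒰.all Q'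
    obtain ⟨i, a, b⟩ := (e.and (ul2_lS h3 h4 ((𝒰.lm_pt P).add (𝒰.lm_pt Q)))).exists
    exact a ⟨_, _, b ▸ h⟩
  · obtain ⟨H, hH⟩ := Filter.skolem.1 e
    obtain ⟨H', h⟩ := h2 H d (hH.mono fun i x => ⟨x.1, x.2.1⟩)
    obtain ⟨i, a, b⟩ := (hH.and (h4 _ _ h)).exists
    exact ⟨H', h.nonneg.2 (hH.mono fun i x => x.1), b ▸ a.2.1,
      (ul2_mem h hz).2 (hH.mono fun i x => x.2.2)⟩

end

section

open WithZero Module Finset Polynomial Filter
open Pool.Agent.P.MP_6f117a_ag (Place FF)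
open Pool.Agent.P.MP_ab3ecb_nt.Inv
open Pool.Agent.P.MP_9344a7_nt.R (Eff J ef)
open Pool.Agent.P.MP_9344a7_nt.Hy (LD GB FB IsL)
open Pool.Agent.P.MP_9344a7_nt.Od (GD)
open Pool.Agent.P.MP_9344a7_nt.Gt (pt lS Pr Can Bd Ch G12 Cv Kb)
open scoped Classical IntermediateField Polynomial.Bivariate

lemma upa_alg {k ι : Type} [Field k] [CharZero k] (p : ι → k) {c : k}
    (hc : c ∈ acl ℚ (Set.range p)) : c ∈ Subalgebra.algebraicClosure (sb p).range k := by
  let M : Subfield k :=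
    { (Subalgebra.algebraicClosure (sb p).range k).toSubring with
      inv_mem' := fun _ h => IsAlgebraic.inv h }
  have h1 : ∀ x : IntermediateField.adjoin ℚ (Set.range p), algebraMap _ k x ∈
      Subalgebra.algebraicClosure (sb p).range k := fun x => by
    refine (Subfield.closure_le (t := M)).2 ?_ x.2
    rintro _ (⟨q, rfl⟩ | ⟨i, rfl⟩)
    · exact SubfieldClass.ratCast_mem M q
    · exact isAlgebraic_algebraMap (⟨p i, MvPolynomial.X i, MvPolynomial.eval₂Hom_X' _ _ _⟩ :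
        (sb p).range)
  exact IsAlgebraic.restrictScalars _ ((mem_acl.1 hc).ringHom_of_comp_eq
    (RingHom.codRestrict _ _ h1) (RingHom.id k) (RingHom.injective _) rfl)

theorem p_UPA :
    S_UPA := by
  intro k ι _ _ p
  have e : sb p = (algebraMap (sb p).range k).comp (sb p).rangeRestrict := rfl
  have inj : Function.Injective (algebraMap (sb p).range k) := Subtype.val_injective
  refine ⟨fun c => ⟨fun hc => ?_, fun ⟨G, h0, h⟩ => root_mem_acl h0 (fun m => ?_)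
    (by rwa [IsRoot, eval_map])⟩, fun κ x h => ?_⟩
  · obtain ⟨f, f0, hf⟩ := upa_alg p hc
    obtain ⟨G, rfl⟩ := map_surjective _ (sb p).rangeRestrict_surjective f
    refine ⟨G, ?_, ?_⟩
    · rwa [e, ← Polynomial.map_map, Polynomial.map_ne_zero_iff inj]
    · rwa [aeval_def, eval₂_map] at hf
  · rw [coeff_map]
    induction G.coeff m using MvPolynomial.induction_on with
    | C a => rw [sb, MvPolynomial.eval₂Hom_C]; exact intCast_mem _ a
    | add a b ha hb => rw [map_add]; exact add_mem ha hb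
    | mul_X a i ha =>
      rw [map_mul]
      exact mul_mem ha (subset_acl _ ⟨i, (MvPolynomial.eval₂Hom_X' _ p i).symm⟩)
  · have h1 : AlgebraicIndependent (sb p).range x := algebraicIndependent_iff.2 fun f hf => by
      obtain ⟨G, rfl⟩ := MvPolynomial.map_surjective _ (sb p).rangeRestrict_surjective f
      rw [MvPolynomial.aeval_def, MvPolynomial.eval₂_map] at hf
      refine MvPolynomial.map_injective _ inj ?_
      rw [MvPolynomial.map_map, map_zero]
      exact by_contra fun a => h G a hf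
    exact AlgebraicIndependent.of_ringHom_of_comp_eq
      (RingHom.codRestrict (algebraMap (acl ℚ (Set.range p)) k) _ fun c => upa_alg p c.2)
      (RingHom.id k) h1.subalgebraAlgebraicClosure (RingHom.injective _) rfl

end

section

open WithZero Module Finset Polynomial Filter
open Pool.Agent.P.MP_6f117a_ag (Place FF)
open Pool.Agent.P.MP_ab3ecb_nt.Inv
open Pool.Agent.P.MP_9344a7_nt.R (Eff J ef)
open Pool.Agent.P.MP_9344a7_nt.Hy (LD GB FB IsL)
open Pool.Agent.P.MP_9344a7_nt.Od (GD)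
open Pool.Agent.P.MP_9344a7_nt.Gt (pt lS Pr Can Bd Ch G12 Cv Kb)
open scoped Classical IntermediateField Polynomial.Bivariate

lemma ucp_cp {k E ι : Type} [Field k] [Field E] [Algebra k E] [Fintype ι] (a : E)
    {Q : ι → Place k E} (hQ : Function.Injective Q) (c : ι → ℤ) :
    cp a (∑ i, Finsupp.single (Q i) (c i)) = ∏ i, (X - C (ev (Q i) a)) ^ (c i).toNat := by
  rw [cp, Finsupp.prod_of_support_subset _ (s := univ.image Q) _ _ (fun _ _ => by simp),
    prod_image fun _ _ _ _ h => hQ h]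
  · refine prod_congr rfl fun i _ => ?_
    rw [Finsupp.finsetSum_apply, sum_eq_single i, Finsupp.single_eq_same]
    · exact fun j _ h => Finsupp.single_eq_of_ne (hQ.ne h.symm)
    · simp
  · intro P hP
    by_contra h
    refine Finsupp.mem_support_iff.1 hP ?_
    rw [Finsupp.finsetSum_apply]
    exact sum_eq_zero fun j _ => Finsupp.single_eq_of_ne fun e => h (e ▸ mem_image_of_mem _
      (mem_univ _))

section

variable {k E : ℕ → Type} [∀ i, Field (k i)] [∀ i, Field (E i)] [∀ i, Algebra (k i) (E i)]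
  {k' E' : Type} [Field k'] [Field E'] [Algebra k' E'] (𝒰 : U0 k E k' E') {ι : Type}
  (p : ∀ i, ι → k i) (G : (Pz ι)[X])

lemma ucp_eval (c : ∀ i, k i) :
    G.eval₂ (sb (𝒰.lp p)) (𝒰.π c) = 𝒰.π fun i => G.eval₂ (sb (p i)) (c i) := by
  have e : sb (𝒰.lp p) = 𝒰.π.comp (RingHom.pi fun i => sb (p i)) := RingHom.ext (𝒰.sb_lp p)
  rw [e, ← hom_eval₂]
  exact congrArg 𝒰.π (funext fun i => hom_eval₂ G _ (Pi.evalRingHom k i) c)

lemma ucp_map : G.map (sb (𝒰.lp p)) = 0 ↔ ∀ᶠ i in UU, G.map (sb (p i)) = 0 := by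
  simp only [Polynomial.ext_iff, coeff_map, coeff_zero, 𝒰.sb_lp, 𝒰.π_eq_zero]
  refine ⟨fun h => ?_, fun h m => h.mono fun _ e => e m⟩
  filter_upwards [(eventually_all_finset G.support).2 fun m _ => h m] with i e m
  by_cases hm : m ∈ G.support
  · exact e m hm
  · rw [notMem_support_iff.1 hm, map_zero]

end

theorem p_UCP (hUL1 : S_UL1) (hUPA : S_UPA) :
    S_UCP := by
  intro k E _ _ _ _ _ k' E' _ _ _ _ _ _ 𝒰 a ha D D' h
  obtain ⟨P, hP, hD⟩ := (hUL1 k E k' E' 𝒰).1 D D' h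
  have hev : ∀ b : D'.support, ev b.1 (𝒰.fn a) = 𝒰.π fun i => ev (P b i) (a i) :=
    fun b => hP b ▸ (𝒰.lim (P b)).ev a ha
  refine ⟨fun m => ?_, fun ι p => ⟨fun H => ?_, fun G H Q hQ => ?_⟩⟩
  · set H : (∀ i, k i)[X] :=
      ∏ b : D'.support, (X - C fun i => ev (P b i) (a i)) ^ (D' b).toNat with hH
    have e : cp (𝒰.fn a) D' = H.map 𝒰.π := by
      rw [hH, Polynomial.map_prod, cp, Finsupp.prod, ← prod_coe_sort]
      refine prod_congr rfl fun b _ => ?_
      rw [Polynomial.map_pow, Polynomial.map_sub, map_X, map_C, hev b]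
    rw [e, coeff_map, 𝒰.π_eq]
    filter_upwards [hD] with i hi
    rw [hi.2, ucp_cp _ hi.1]
    refine (coeff_map (p := H) (Pi.evalRingHom k i) m).symm.trans (congrArg (coeff · m) ?_)
    rw [hH, Polynomial.map_prod]
    refine prod_congr rfl fun b _ => ?_
    rw [Polynomial.map_pow, Polynomial.map_sub, map_X, map_C]
    rfl
  · choose G h1 h2 using fun b : D'.support => ((hUPA k' ι (𝒰.lp p)).1 _).1 (H b.1 b.2)
    refine ⟨∏ b, G b, ?_⟩
    have a1 : ∀ᶠ i in UU, ∀ b, (G b).map (sb (p i)) ≠ 0 := eventually_all.2 fun b =>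
      Ultrafilter.eventually_not.2 (mt (ucp_map 𝒰.toU0 p _).2 (h1 b))
    have a2 : ∀ᶠ i in UU, ∀ b, (G b).eval₂ (sb (p i)) (ev (P b i) (a i)) = 0 :=
      eventually_all.2 fun b => 𝒰.π_eq_zero.1 (by rw [← ucp_eval, ← hev b, h2 b])
    filter_upwards [hD, a1, a2] with i hi b1 b2
    refine ⟨?_, fun Q hQ => ?_⟩
    · rw [Polynomial.map_prod]
      exact prod_ne_zero_iff.2 fun b _ => b1 b
    · rw [hi.2, Finsupp.mem_support_iff, Finsupp.finsetSum_apply] at hQ
      obtain ⟨b, -, hb⟩ := exists_ne_zero_of_sum_ne_zero hQ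
      obtain rfl : Q = P b i := by
        by_contra e
        exact hb (Finsupp.single_eq_of_ne e)
      rw [eval₂_finsetProd]
      exact prod_eq_zero (mem_univ b) (b2 b)
  · refine ((hUPA k' ι (𝒰.lp p)).1 _).2 ⟨G, fun e => ?_, ?_⟩
    · obtain ⟨i, a1, a2⟩ := (H.and ((ucp_map 𝒰.toU0 p G).1 e)).exists
      exact a1.1 a2
    · rw [hev ⟨Q, hQ⟩, ucp_eval, 𝒰.π_eq_zero]
      filter_upwards [H, h (P ⟨Q, hQ⟩)] with i a1 a2
      refine a1.2 _ (Finsupp.mem_support_iff.2 ?_)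
      rw [a2, hP]
      exact Finsupp.mem_support_iff.1 hQ

end

section

open WithZero Module Finset Polynomial Filter
open Pool.Agent.P.MP_6f117a_ag (Place FF)
open Pool.Agent.P.MP_ab3ecb_nt.Inv
open Pool.Agent.P.MP_9344a7_nt.R (Eff J ef)
open Pool.Agent.P.MP_9344a7_nt.Hy (LD GB FB IsL)
open Pool.Agent.P.MP_9344a7_nt.Od (GD)
open Pool.Agent.P.MP_9344a7_nt.Gt (pt lS Pr Can Bd Ch G12 Cv Kb)
open scoped Classical IntermediateField Polynomial.Bivariate

theorem p_UAV (hUPA : S_UPA) :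
    S_UAV := by
  intro k E _ _ _ k' E' _ _ _ _ 𝒰 ι κ p x S hS hA
  refine (hUPA k' ι (𝒰.lp p)).2 κ _ fun G hG h0 => ?_
  obtain ⟨m, hm⟩ := MvPolynomial.ne_zero_iff.1 hG
  rw [MvPolynomial.coeff_map, 𝒰.sb_lp] at hm
  have e : MvPolynomial.eval₂ (sb (𝒰.lp p)) (𝒰.lp x) G =
      𝒰.π fun i => MvPolynomial.eval₂ (sb (p i)) (x i) G := by
    clear hG h0 hm
    induction G using MvPolynomial.induction_on with
    | C c => simp only [MvPolynomial.eval₂_C, 𝒰.sb_lp]
    | add f g a b => simp only [MvPolynomial.eval₂_add, a, b]; exact (map_add _ _ _).symm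
    | mul_X f r a =>
      simp only [MvPolynomial.eval₂_mul, MvPolynomial.eval₂_X, a]
      exact (map_mul _ _ _).symm
  obtain ⟨i, ⟨a1, a2⟩, a3, a4⟩ := (((hS G).and hA).and ((Ultrafilter.eventually_not.2
    (mt 𝒰.π_eq_zero.2 hm)).and (𝒰.π_eq_zero.1 (e ▸ h0)))).exists
  exact a2 G a1 (MvPolynomial.ne_zero_iff.2 ⟨m, by rwa [MvPolynomial.coeff_map]⟩) a4

end

section

open WithZero Module Finset Polynomial Filter
open Pool.Agent.P.MP_6f117a_ag (Place FF)
open Pool.Agent.P.MP_ab3ecb_nt.Inv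
open Pool.Agent.P.MP_9344a7_nt.R (Eff J ef)
open Pool.Agent.P.MP_9344a7_nt.Hy (LD GB FB IsL)
open Pool.Agent.P.MP_9344a7_nt.Od (GD)
open Pool.Agent.P.MP_9344a7_nt.Gt (pt lS Pr Can Bd Ch G12 Cv Kb)
open scoped Classical IntermediateField Polynomial.Bivariate

section
variable {k E : Type} [Field k] [IsAlgClosed k] [Field E] [Algebra k E] [FF k E]

lemma ucp0_add (a : E) {D D' : Dv k E} (h : 0 ≤ D) (h' : 0 ≤ D') :
    cp a (D + D') = cp a D * cp a D' := by
  have e (A : Dv k E) (hA : A.support ⊆ D.support ∪ D'.support) :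
      cp a A = ∏ P ∈ D.support ∪ D'.support, (X - C (ev P a)) ^ (A P).toNat :=
    Finsupp.prod_of_support_subset _ hA _ fun _ _ => by simp
  rw [e _ Finsupp.support_add, e _ subset_union_left, e _ subset_union_right, ← prod_mul_distrib]
  exact prod_congr rfl fun P _ => by
    rw [Finsupp.add_apply, Int.toNat_add (h P) (h' P), pow_add]

lemma ucp0_map (σ : SA k E) (a : E) (D : Dv k E) :
    (cp a D).map σ.s0.toRingHom = cp (σ.s a) (σ.dm D) := by
  rw [cp, cp, Finsupp.prod, Finsupp.prod, SA.support_dm, Finset.prod_map, Polynomial.map_prod]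
  exact prod_congr rfl fun P _ => by simp

end

theorem p_UCP0 :
    S_UCP0 := by
  intro k E _ _ _ _ _ a
  have m (D : Dv k E) (P : Place k E) : ((X - C (ev P a)) ^ (D P).toNat).Monic :=
    (monic_X_sub_C _).pow _
  refine ⟨fun D => ⟨monic_prod_of_monic _ _ fun P _ => m D P, fun h => ⟨?_, fun P hP => ?_⟩,
    fun σ ha hD n => ?_⟩, fun ι _ Q => ?_⟩
  · rw [cp, Finsupp.prod, natDegree_prod_of_monic _ _ fun P _ => m D P, deg_eq, Nat.cast_sum]
    exact sum_congr rfl fun P _ => by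
      rw [(monic_X_sub_C _).natDegree_pow, natDegree_X_sub_C, mul_one, Int.toNat_of_nonneg (h P)]
  · have h0 : (D P).toNat ≠ 0 := by
      have := Finsupp.mem_support_iff.1 hP
      have := h P
      simp only [Finsupp.coe_zero, Pi.zero_apply] at this
      omega
    rw [cp, Finsupp.prod, IsRoot.def, eval_prod]
    exact prod_eq_zero hP (by simp [h0])
  · have := congrArg (coeff · n) (ucp0_map σ a D)
    simpa [ha, hD] using this
  · induction (univ : Finset ι) using Finset.induction_on with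
    | empty => simp [cp]
    | insert i s hi ih =>
      rw [sum_insert hi, prod_insert hi, ucp0_add a (Gt.pt_nonneg _) (Gt.sum_pt_nonneg _ _), ih]
      congr 1
      rw [cp, pt, Finsupp.prod_single_index (by simp)]
      simp

end

section

open WithZero Module Finset Polynomial Filter
open Pool.Agent.P.MP_6f117a_ag (Place FF)
open Pool.Agent.P.MP_ab3ecb_nt.Inv
open Pool.Agent.P.MP_9344a7_nt.R (Eff J ef)
open Pool.Agent.P.MP_9344a7_nt.Hy (LD GB FB IsL)
open Pool.Agent.P.MP_9344a7_nt.Od (GD)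
open Pool.Agent.P.MP_9344a7_nt.Gt (pt lS Pr Can Bd Ch G12 Cv Kb)
open scoped Classical IntermediateField Polynomial.Bivariate

section

variable {K F k E : Type} [Field K] [IsAlgClosed K] [Field F] [Algebra K F] [FF K F] [Field k]
  [Algebra K k] [Field E] [Algebra k E] (X : Ex K F k E) {t : F}

lemma gcs_ext (P : Place K F) (t : F) : ev (X.ext P) (X.j t) ∈ Set.range (algebraMap K k) := by
  by_cases h : P.v t ≤ 1
  · exact ⟨_, (X.cl.ev_ext h).symm⟩
  · rw [ev, dif_neg fun ⟨c, hc⟩ => h (X.cl.ext_v P t ▸ le_one_of_sub hc)]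
    exact ⟨0, map_zero _⟩

lemma gcs_pl (ht : Transcendental K t) (y : F →ₐ[K] k) :
    ev (X.pl y) (X.j t) ∉ Set.range (algebraMap K k) := by
  rintro ⟨c, hc⟩
  rw [X.cl.ev_pl, ← y.commutes] at hc
  exact ht ((y : F →+* k).injective hc ▸ isAlgebraic_algebraMap c)

lemma gcs_one (ht : Transcendental K t) (D : Dv k E) :
    (∀ Q ∈ D.support, ev Q (X.j t) ∈ Set.range (algebraMap K k)) ↔ ∃ D0, X.up D0 = D := by
  constructor
  · intro h
    refine ⟨D.comapDomain X.ext X.cl.ext_inj.injOn, Finsupp.ext fun Q => ?_⟩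
    rcases X.cl.all Q with ⟨P, rfl⟩ | ⟨y, rfl⟩
    · rw [X.up_ext, Finsupp.comapDomain_apply]
    · rw [X.up_pl]
      by_contra e
      exact gcs_pl X ht y (h _ (Finsupp.mem_support_iff.2 (Ne.symm e)))
  · rintro ⟨D0, rfl⟩ Q hQ
    rcases X.cl.all Q with ⟨P, rfl⟩ | ⟨y, rfl⟩
    · exact gcs_ext X P t
    · exact absurd (X.up_pl D0 y) (Finsupp.mem_support_iff.1 hQ)

end

lemma gcs_coeff {K k ι : Type} [Field K] [Field k] [Algebra K k] (L : IntermediateField K k)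
    (s : Finset ι) (z : ι → k) (h : ∀ i, z i ∈ L) (m : ℕ) :
    (∏ i ∈ s, (X - C (z i))).coeff m ∈ L := by
  have e : ∏ i ∈ s, (X - C (z i)) = (∏ i ∈ s, (X - C (⟨z i, h i⟩ : L))).map (algebraMap L k) := by
    simp [Polynomial.map_prod]
  rw [e, coeff_map]
  exact SetLike.coe_mem _

theorem p_GCS (hGORF : S_GORF) (hGRK : S_GRK) (hUCP0 : S_UCP0) :
    S_GCS := by
  intro K F k E _ _ _ _ _ _ _ _ _ _ _ _ Z t ht
  obtain ⟨u1, u2⟩ := hUCP0 k E (Z.j t)
  refine ⟨gcs_one Z ht, fun D hD h => (gcs_one Z ht D).1 fun Q hQ => ?_, fun m D hD hm h => ?_⟩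
  · refine (hGORF K k ∅ _).2.2 (root_mem_acl (u1 D).1.ne_zero (fun m => ?_)
      (((u1 D).2.1 hD).2 Q hQ))
    obtain ⟨c, hc⟩ := h m
    exact hc ▸ (acl K ∅).algebraMap_mem c
  · obtain ⟨Q, rfl⟩ := eff_sum m D hD hm
    have h1 := (((hGRK K k).1 _ _ _ (fun i => ev (Q i) (Z.j t)) h fun i => by
      rw [cc, u2]
      exact gcs_coeff _ _ _ (fun i => subset_acl _ (Set.mem_range_self i)) _).2 le_rfl).1
    have h2 : ∀ i, ∃ y, Q i = Z.pl y := fun i => (Z.cl.all (Q i)).resolve_left (by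
      rintro ⟨P, hP⟩
      obtain ⟨c, hc⟩ := gcs_ext Z P t
      refine h1.transcendental i ?_
      rw [hP, ← hc]
      exact isAlgebraic_algebraMap c)
    choose φ hφ using h2
    refine ⟨φ, ?_, by simp only [Ex.gs, hφ]⟩
    simpa only [Gen, hφ, Z.cl.ev_pl] using h1

end

section

open WithZero Module Finset Polynomial Filter
open Pool.Agent.P.MP_6f117a_ag (Place FF)
open Pool.Agent.P.MP_ab3ecb_nt.Inv
open Pool.Agent.P.MP_9344a7_nt.R (Eff J ef)
open Pool.Agent.P.MP_9344a7_nt.Hy (LD GB FB IsL)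
open Pool.Agent.P.MP_9344a7_nt.Od (GD)
open Pool.Agent.P.MP_9344a7_nt.Gt (pt lS Pr Can Bd Ch G12 Cv Kb)
open scoped Classical IntermediateField Polynomial.Bivariate

lemma ue1_cl {k : ℕ → Type} [∀ i, Field (k i)] [∀ i, IsAlgClosed (k i)] {k' : Type} [Field k']
    {π : (∀ i, k i) →+* k'} (h : Tor.IsUP UU π) : IsAlgClosed k' := by
  refine IsAlgClosed.of_exists_root _ fun p hp hi => ?_
  obtain ⟨q, rfl, q1, q2⟩ := lifts_and_natDegree_eq_and_monic (f := π)
    ((lifts_iff_coeff_lifts p).2 fun m => h.surj _) hp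
  choose x hx using fun i => IsAlgClosed.exists_root (q.map (Pi.evalRingHom k i))
    (degree_ne_of_natDegree_ne (n := 0) (by
      rw [q2.natDegree_map, q1]
      exact hi.natDegree_pos.ne'))
  refine ⟨π x, ?_⟩
  rw [eval_map, eval₂_hom, show q.eval x = 0 from funext fun i => ?_, map_zero]
  have := hx i
  rwa [IsRoot, eval_map, show x i = Pi.evalRingHom k i x from rfl, eval₂_hom] at this

theorem p_UE1 :
    S_UE1 := by
  intro k E _ _ _ _ _ hc
  obtain ⟨k', _, π, h⟩ := Tor.p_UP k UU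
  obtain ⟨L, _, ρ, hρ⟩ := Tor.p_UP E UU
  let E' : Subfield L :=
    { (Bs k E).map ρ with
      inv_mem' := by
        rintro _ ⟨z, ⟨N, hz⟩, rfl⟩
        refine ⟨fun i => (z i)⁻¹, ⟨N, hz.mono fun _ e => e.inv⟩, ?_⟩
        by_cases e : ρ z = 0
        · rw [e, inv_zero, hρ.ker]
          exact ((hρ.ker z).1 e).mono fun _ a => inv_eq_zero.2 a
        · refine eq_inv_of_mul_eq_one_right ?_
          rw [← map_mul, ← sub_eq_zero, ← map_one ρ, ← map_sub, hρ.ker]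
          filter_upwards [Ultrafilter.eventually_not.2 (mt (hρ.ker z).2 e)] with i a
          exact sub_eq_zero.2 (mul_inv_cancel₀ a) }
  let fh : Bs k E →+* E' := (ρ.comp (Bs k E).subtype).codRestrict E' fun z => ⟨z, z.2, rfl⟩
  have ker : ∀ z, fh z = 0 ↔ ∀ᶠ i in UU, z.1 i = 0 := fun z => Subtype.ext_iff.trans (hρ.ker z)
  let g : (∀ i, k i) →+* E' := fh.comp ((RingHom.pi fun i =>
    (algebraMap (k i) (E i)).comp (Pi.evalRingHom k i)).codRestrict (Bs k E) const_mem_Bs)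
  have hg : RingHom.ker π ≤ RingHom.ker g := fun c e =>
    (ker _).2 (((h.ker c).1 e).mono fun i a => (congrArg (algebraMap (k i) (E i)) a).trans
      (map_zero _))
  refine ⟨k', E', inferInstance, ue1_cl h, charZero_of_inj_zero fun m e => ?_, inferInstance,
    (π.liftOfSurjective h.surj ⟨g, hg⟩).toAlgebra, ⟨@U0.mk k E _ _ _ k' E' _ _
      (π.liftOfSurjective h.surj ⟨g, hg⟩).toAlgebra π h fh ker ?_ fun c _ =>
        (π.liftOfSurjective_comp_apply h.surj ⟨g, hg⟩ c).symm⟩⟩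
  · rw [← map_natCast π, h.ker] at e
    obtain ⟨i, a, b⟩ := (e.and (uu_ge m)).exists
    by_contra m0
    exact hc i m (Nat.pos_of_ne_zero m0) b a
  · rintro ⟨_, z, hz, rfl⟩
    exact ⟨⟨z, hz⟩, rfl⟩

end

end Pool.Agent.P.MP_9344a7_nt.Ac
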