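import Pool.Agent.P.MP_9344a7_nt.Ac.IfaceU
import Pool.Agent.P.MP_9344a7_nt.Gt.All
import Pool.Agent.P.MP_9344a7_nt.Ac.Iface
import Pool.Agent.P.MP_9344a7_nt.Ac.IfaceG

/-! Steps UZF, SZD, UMD, GEN, GXM, GEN0, UCX, GUQ, GCH, ULB, LIM, TBR, TPOP. -/

set_option linter.unusedVariables false
set_option linter.unusedSectionVars false

namespace Pool.Agent.P.MP_9344a7_nt.Ac

section

open WithZero Module Finset Polynomial Filter
open Pool.Agent.P.MP_6f117a_ag (Place FF)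
open Pool.Agent.P.MP_ab3ecb_nt.Inv
open Pool.Agent.P.MP_9344a7_nt.R (Eff J ef)
open Pool.Agent.P.MP_9344a7_nt.Hy (LD GB FB IsL)
open Pool.Agent.P.MP_9344a7_nt.Od (GD)
open Pool.Agent.P.MP_9344a7_nt.Gt (pt lS Pr Can Bd Ch G12 Cv Kb)
open scoped Classical IntermediateField Polynomial.Bivariate

theorem p_UZF :
    S_UZF := by
  refine fun d s N => ⟨(2 * N + 1) ^ (s * (2 * d)), fun k E _ _ _ _ _ a f ha hb h0 hs => ?_⟩
  choose X h1 h2 using hb.fibre ha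
  refine ⟨(f.roots.toFinset.biUnion X).finsupp fun _ => Icc (-N : ℤ) N, ?_, fun Z a b =>
    mem_finsupp_iff.2 ⟨fun P hP => mem_biUnion.2 ⟨_, Multiset.mem_toFinset.2
      ((mem_roots h0).2 (a P hP)), by_contra fun e => (h2 _ P e).2 rfl⟩,
        fun P _ => mem_Icc.2 (abs_le.1 (b P))⟩⟩
  rw [card_finsupp, prod_const, Int.card_Icc, show ((N : ℤ) + 1 - -N).toNat = 2 * N + 1 by omega]
  exact Nat.pow_le_pow_right (Nat.succ_pos _) ((card_biUnion_le_card_mul _ _ _ fun c _ => h1 c).trans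
    (Nat.mul_le_mul_right _ ((Multiset.toFinset_card_le _).trans ((card_roots' f).trans hs))))

end

section

open WithZero Module Finset Polynomial Filter
open Pool.Agent.P.MP_6f117a_ag (Place FF)
open Pool.Agent.P.MP_ab3ecb_nt.Inv
open Pool.Agent.P.MP_9344a7_nt.R (Eff J ef)
open Pool.Agent.P.MP_9344a7_nt.Hy (LD GB FB IsL)
open Pool.Agent.P.MP_9344a7_nt.Od (GD)
open Pool.Agent.P.MP_9344a7_nt.Gt (pt lS Pr Can Bd Ch G12 Cv Kb)
open scoped Classical IntermediateField Polynomial.Bivariate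

theorem p_SZD (hUCP0 : S_UCP0) (hUSZ : S_USZ) (hUZF : S_UZF) :
    S_SZD := by
  intro ι m d S
  obtain ⟨β1, h1⟩ := hUSZ ι (Fin m) S
  obtain ⟨β2, h2⟩ := hUZF d m m
  refine ⟨β2 * β1, fun F _ _ g C a p hF ha ht hb => ?_⟩
  have hc := (hUCP0 (Kb F) C.E a).1
  let x : Dv (Kb F) C.E → Fin m → F := fun D i => Function.invFun (algebraMap F (Kb F)) (cc m a D i)
  have hx : ∀ D ∈ ef C.σ m, algebraMap F (Kb F) ∘ x D = cc m a D := fun D hD => funext fun i =>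
    Function.invFun_eq (Gt.mem_range_iff.1 ((C.fr.2.2 _).symm.trans
      ((hc D).2.2 C.σ ha (dm_of_eff ((hF.ef m D).1 hD)) i)))
  have hd : ∀ D ∈ ef C.σ m, (cp a D).natDegree = m := fun D hD => by
    have h := (hF.ef m D).1 hD
    exact_mod_cast ((hc D).2.1 h.1).1.trans h.2.2
  have h3 := card_le_mul_card_image_of_maps_to (f := x)
    (s := {D ∈ ef C.σ m | ¬ Av S p (cc m a D)})
    (t := {y : Fin m → F | ¬ Av S p (algebraMap F (Kb F) ∘ y)})
    (fun D hD => by rw [mem_filter] at hD; simpa [hx D hD.1] using hD.2) β2 fun y _ => by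
      rcases Finset.eq_empty_or_nonempty
        {D ∈ {D ∈ ef C.σ m | ¬ Av S p (cc m a D)} | x D = y} with h | ⟨D0, h0⟩
      · simp only [h, card_empty, zero_le]
      simp only [mem_filter] at h0
      obtain ⟨X', b1, b2⟩ := h2 (Kb F) C.E a (cp a D0) ht hb (hc D0).1.ne_zero (hd D0 h0.1.1).le
      refine (card_le_card fun D hD => ?_).trans b1
      simp only [mem_filter] at hD
      have h := (hF.ef m D).1 hD.1.1
      have e : cp a D = cp a D0 := by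
        ext i
        rcases lt_trichotomy i m with l | rfl | l
        · exact congrFun ((hx D hD.1.1).symm.trans (hD.2.trans h0.2.symm ▸ hx D0 h0.1.1)) ⟨i, l⟩
        · rw [← hd D hD.1.1, (hc D).1.coeff_natDegree, hd D hD.1.1, ← hd D0 h0.1.1,
            (hc D0).1.coeff_natDegree]
        · rw [coeff_eq_zero_of_natDegree_lt (hd D hD.1.1 ▸ l),
            coeff_eq_zero_of_natDegree_lt (hd D0 h0.1.1 ▸ l)]
      refine b2 D (e ▸ ((hc D).2.1 h.1).2) fun P => ?_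
      rw [abs_of_nonneg (h.1 P), ← h.2.2]
      simpa using deg_mono (D := Finsupp.single P (D P)) (D' := D) fun Q => by
        rw [Finsupp.single_apply]
        split_ifs with e
        exacts [e ▸ le_rfl, h.1 Q]
  calc _ ≤ Fintype.card F * (β2 * _) := Nat.mul_le_mul_left _ h3
    _ ≤ β2 * (β1 * Fintype.card F ^ Fintype.card (Fin m)) := by
      rw [mul_left_comm]
      exact Nat.mul_le_mul_left _ ((Nat.mul_le_mul_left _ (card_le_card fun y hy => by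
        simpa only [mem_filter, mem_univ, true_and] using hy)).trans (h1 F (Kb F) p))
    _ = _ := by rw [Fintype.card_fin, mul_assoc]

end

section

open WithZero Module Finset Polynomial Filter
open Pool.Agent.P.MP_6f117a_ag (Place FF)
open Pool.Agent.P.MP_ab3ecb_nt.Inv
open Pool.Agent.P.MP_9344a7_nt.R (Eff J ef)
open Pool.Agent.P.MP_9344a7_nt.Hy (LD GB FB IsL)
open Pool.Agent.P.MP_9344a7_nt.Od (GD)
open Pool.Agent.P.MP_9344a7_nt.Gt (pt lS Pr Can Bd Ch G12 Cv Kb)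
open scoped Classical IntermediateField Polynomial.Bivariate

theorem p_UMD :
    S_UMD := by
  intro n hn
  obtain ⟨p0, h⟩ := Gt.mdl_gen Gt.a_BPF Gt.a_PRIM Gt.a_AVF Gt.a_DES Gt.a_AVD
    (g := n + 1) (by omega)
  obtain ⟨d, hd⟩ := Gt.a_REL (6 * (n + 1))
  refine ⟨6 * (n + 1) + d, p0, fun F _ _ C hp hW hG => ?_⟩
  obtain ⟨a, b, a0, b0, ht, a1, b1, r, t⟩ := h F C hp
  obtain ⟨Ψ0, p1, -, p2, p3, -, p4⟩ := hd _ _ a b ht a1 b1
  obtain ⟨Ψ, q1, q2, -, q4⟩ := Gt.mdl_min ht ((PL.reg_iff_integral ht b).1 r) t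
  obtain ⟨u, rfl⟩ := p4 Ψ q4
  have u0 := (q2.isUnit_or_isUnit rfl).resolve_left p1.not_isUnit
  obtain ⟨Φ, e⟩ := Gt.mdl_desc C a0 b0 q1 q4 fun G hG => u0.mul_right_dvd.2 (p4 G hG)
  refine ⟨a, b, Ψ0 * u, ⟨C.can, hW, hG, ht, a1.mono (Nat.le_add_right _ _),
    b1.mono (Nat.le_add_right _ _), q1, ?_, fun i => ?_, q4, t⟩, a0, fun i j => ?_⟩
  · obtain ⟨v, -, rfl⟩ := Polynomial.isUnit_iff.1 u0
    exact ((natDegree_mul_C_le _ _).trans p2).trans (Nat.le_add_left _ _)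
  · obtain ⟨v, v1, rfl⟩ := Polynomial.isUnit_iff.1 u0
    have c1 := natDegree_mul_le (p := Ψ0.coeff i) (q := v)
    have c2 := natDegree_eq_zero_of_isUnit v1
    have c3 := p3 i
    rw [coeff_mul_C]
    omega
  · rw [← e, coeff_map, coe_mapRingHom, coeff_map, C.fr.2.2, ← map_pow, FiniteField.pow_card]

end

section

open Polynomial Finset Module
open Pool.Agent.P.MP_6f117a_ag (Place FF)
open Pool.Agent.P.MP_ab3ecb_nt.Inv (Dv deg SA LS ev ord dv)
open Pool.Agent.P.MP_9344a7_nt.R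
open Pool.Agent.P.MP_9344a7_nt.Hy hiding pt
open Pool.Agent.P.MP_9344a7_nt.Od (GD Kp Fe)
open Pool.Agent.P.MP_9344a7_nt.Gt (pt lS Pr Can Bd Ch G12 Cv Kb)
open scoped Classical IntermediateField ComplexConjugate

theorem p_GEN (hLG : S_LG) (hSZD : S_SZD) (hUMD : S_UMD) :
    S_GEN := by
  intro n M hn
  obtain ⟨d, p1, h1⟩ := hUMD n (by omega)
  obtain ⟨S, p2, h2⟩ := hLG n d hn
  obtain ⟨β, h3⟩ := hSZD _ (n - 1) d S
  refine ⟨p1 + p2 + M * β, fun F _ _ C P0 hp fb pos nh => ?_⟩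
  obtain ⟨a, b, Ψ, m, ha, -⟩ := h1 F C (by omega) pos nh
  have h4 := h3 F _ C a (pm Ψ a fun c => if c then C.W else pt P0) fb ha m.tr m.ba
  have h5 : M * β ≤ Fintype.card F := le_trans (by omega) Gt.char_le
  refine Nat.le_of_mul_le_mul_left ?_ (Fintype.card_pos (α := F))
  rw [mul_left_comm]
  refine (Nat.mul_le_mul_left _ (le_trans (Nat.mul_le_mul_left _ (card_le_card fun R hR => ?_))
    h4)).trans ((mul_assoc _ _ _).symm.trans_le (Nat.mul_le_mul_right _ h5))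
  obtain ⟨r1, r2⟩ := mem_filter.1 hR
  have r3 := (fb.ef _ _).1 r1
  exact mem_filter.2 ⟨r1, fun e => r2 (h2 _ _ C.W a b Ψ P0 R (Gt.ch_of_lt (by omega)) m r3.1
    r3.2.2 e)⟩

end

section

open WithZero Module Finset Polynomial Filter
open Pool.Agent.P.MP_6f117a_ag (Place FF)
open Pool.Agent.P.MP_ab3ecb_nt.Inv
open Pool.Agent.P.MP_9344a7_nt.R (Eff J ef)
open Pool.Agent.P.MP_9344a7_nt.Hy (LD GB FB IsL)
open Pool.Agent.P.MP_9344a7_nt.Od (GD)
open Pool.Agent.P.MP_9344a7_nt.Gt (pt lS Pr Can Bd Ch G12 Cv Kb)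
open scoped Classical IntermediateField Polynomial.Bivariate

lemma gxm_mem {K k : Type} [Field K] [Field k] [Algebra K k] {N : ℕ}
    (M : Matrix (Fin N) (Fin N) K) (hM : IsUnit (M.map (algebraMap K k))) (v : Fin N → k)
    (T : Set k) (h : ∀ j, Matrix.vecMul v (M.map (algebraMap K k)) j ∈ T) (i : Fin N) :
    v i ∈ acl K T := by
  have hd : IsUnit M.det := by
    have h1 := (Matrix.isUnit_iff_isUnit_det _).1 hM
    rw [← RingHom.mapMatrix_apply, ← RingHom.map_det] at h1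
    exact isUnit_iff_ne_zero.2 fun e => by simp [e] at h1
  have e : v = Matrix.vecMul (Matrix.vecMul v (M.map (algebraMap K k)))
      (M⁻¹.map (algebraMap K k)) := by
    rw [Matrix.vecMul_vecMul, ← Matrix.map_mul, Matrix.mul_nonsing_inv _ hd,
      Matrix.map_one _ (map_zero _) (map_one _), Matrix.vecMul_one]
  rw [e, Matrix.vecMul, dotProduct]
  exact sum_mem fun j _ => mul_mem (subset_acl T (h j)) ((acl K T).algebraMap_mem _)

theorem p_GXM (hGRK : S_GRK) :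
    S_GXM := by
  intro k _ _ _ N T T' M x hT hM hU hx
  let M' : Matrix (Fin N) (Fin N) (acl ℚ T') := fun i j => ⟨M i j, subset_acl T' (hM i j)⟩
  have e : M'.map (algebraMap (acl ℚ T') k) = M := rfl
  have h1 := (((hGRK (acl ℚ T') k).1 _ _ x
    (Sum.elim (Matrix.vecMul (x ∘ .inl) M) (Matrix.vecMul (x ∘ .inr) M)) hx ?_).2 le_rfl).1
  · exact h1.of_ringHom_of_comp_eq (IntermediateField.inclusion (acl_mono hT)).toRingHom
      (RingHom.id k) (RingHom.injective _) rfl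
  · rintro (i | i)
    · exact gxm_mem M' (e ▸ hU) (x ∘ .inl) _ (fun j => Set.mem_range.2 ⟨.inl j, rfl⟩) i
    · exact gxm_mem M' (e ▸ hU) (x ∘ .inr) _ (fun j => Set.mem_range.2 ⟨.inr j, rfl⟩) i

end

section

open Polynomial Finset Module
open Pool.Agent.P.MP_6f117a_ag (Place FF)
open Pool.Agent.P.MP_ab3ecb_nt.Inv (Dv deg SA LS ev ord dv)
open Pool.Agent.P.MP_9344a7_nt.R
open Pool.Agent.P.MP_9344a7_nt.Hy hiding pt
open Pool.Agent.P.MP_9344a7_nt.Od (GD Kp Fe)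
open Pool.Agent.P.MP_9344a7_nt.Gt (pt lS Pr Can Bd Ch G12 Cv Kb)
open scoped Classical IntermediateField ComplexConjugate

theorem p_GEN0 (hLG0 : S_LG0) (hUSZ : S_USZ) (hUMD : S_UMD) :
    S_GEN0 := by
  intro n M hn
  obtain ⟨d, p1, h1⟩ := hUMD n (by omega)
  obtain ⟨ι, S, p2, h2⟩ := hLG0 n d hn
  obtain ⟨β, h3⟩ := hUSZ ι _ S
  refine ⟨p1 + p2 + M * β, fun F _ _ C e hp hW hG he li => ?_⟩
  obtain ⟨a, b, Ψ, m, -⟩ := h1 F C (by omega) hW hG
  obtain ⟨p, h4⟩ := h2 _ _ _ a b Ψ e (Gt.ch_of_lt (F := F) (by omega)) m (fun i => (he i).2) li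
  have h5 := h3 F _ p
  rw [Fintype.card_sum, Fintype.card_fin, ← two_mul] at h5
  have h6 : M * β ≤ Fintype.card F := le_trans (by omega) (Gt.char_le (F := F))
  refine Nat.le_of_mul_le_mul_left (le_trans ?_ (Nat.mul_le_mul_right _ h6)) Fintype.card_pos
  rw [mul_left_comm, mul_assoc]
  refine Nat.mul_le_mul_left _ (le_trans (Nat.mul_le_mul_left _ ?_) h5)
  refine card_le_card_of_injOn (Equiv.sumArrowEquivProdArrow _ _ F).symm (fun x hx => ?_)
    (Equiv.injective _).injOn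
  simp only [coe_filter, mem_univ, true_and, Set.mem_ofPred_eq] at hx ⊢
  refine fun h => hx ?_
  have := h4 _ h
  simp only [Algebra.smul_def] at this
  exact this

end

section

open WithZero Module Finset Polynomial Filter
open Pool.Agent.P.MP_6f117a_ag (Place FF)
open Pool.Agent.P.MP_ab3ecb_nt.Inv
open Pool.Agent.P.MP_9344a7_nt.R (Eff J ef)
open Pool.Agent.P.MP_9344a7_nt.Hy (LD GB FB IsL)
open Pool.Agent.P.MP_9344a7_nt.Od (GD)
open Pool.Agent.P.MP_9344a7_nt.Gt (pt lS Pr Can Bd Ch G12 Cv Kb)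
open scoped Classical IntermediateField Polynomial.Bivariate

theorem p_UCX :
    S_UCX := by
  intro F E _ _ _ _ _ n K e σ Λ gb fb il nh
  obtain ⟨W, rfl, w0, can, inv⟩ := Nh.a_CVB F E K (n + 1) σ n.succ_pos gb fb
  exact ⟨W, can, inv, gb, fb, il, w0, nh⟩

end

section

open WithZero Module Finset Polynomial Filter
open Pool.Agent.P.MP_6f117a_ag (Place FF)
open Pool.Agent.P.MP_ab3ecb_nt.Inv
open Pool.Agent.P.MP_9344a7_nt.R (Eff J ef)
open Pool.Agent.P.MP_9344a7_nt.Hy (LD GB FB IsL)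
open Pool.Agent.P.MP_9344a7_nt.Od (GD)
open Pool.Agent.P.MP_9344a7_nt.Gt (pt lS Pr Can Bd Ch G12 Cv Kb)
open scoped Classical IntermediateField Polynomial.Bivariate

lemma guq_sum {K F k E ι : Type} [Field K] [Field F] [Algebra K F] [Field k] [Algebra K k]
    [Field E] [Algebra k E] [Fintype ι] (X : Ex K F k E) {y : ι → F →ₐ[K] k}
    (hy : Function.Injective y) {B : Dv k E} (h0 : 0 ≤ B) (h1 : B ≤ X.gs y) :
    B = ∑ i, Finsupp.single (X.pl (y i)) (B (X.pl (y i))) := by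
  ext Q
  rw [Finsupp.finsetSum_apply]
  by_cases h : ∃ i, X.pl (y i) = Q
  · obtain ⟨i, rfl⟩ := h
    rw [sum_eq_single i (fun j _ e => Finsupp.single_eq_of_ne
      (X.cl.pl_inj.ne (hy.ne e.symm))) (by simp), Finsupp.single_eq_same]
  · push Not at h
    rw [sum_eq_zero fun i _ => Finsupp.single_eq_of_ne (h i).symm]
    exact le_antisymm ((h1 Q).trans_eq (Gt.sum_pt_eq_zero.2 h)) (h0 Q)

theorem p_GUQ (hGORF : S_GORF) (hGBC2 : S_GBC2) (hGNS : S_GNS) (hGRHO : S_GRHO) (hGABL : S_GABL) (hGSB : S_GSB) (hGBR : S_GBR) :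
    S_GUQ := by
  intro n K F k E _ _ _ _ _ _ _ _ _ _ _ _ C X hn φ D' D0 B B' hφ h0 hp hD b0 b1 b2 b3 hc
  have : CharZero k := charZero_of_injective_algebraMap (algebraMap K k).injective
  obtain ⟨can, -⟩ := hGBC2 n K F k E C X hn
  obtain ⟨ρ, hρ⟩ := hGRHO n K F k E C X hn
  have p0 : 0 ≤ X.gs φ := Gt.sum_pt_nonneg _ _
  have d1 : deg D' = n := by
    have := hp.deg_eq
    rw [map_add, can.deg_W, Ex.gs, Gt.deg_sum_pt, card_univ, Fintype.card_fin] at this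
    push_cast at this
    omega
  obtain ⟨y, hy, y1, y2, -⟩ := (hGBR K F k E X C.t C.ht).2.1 n φ D' h0 d1
    ((hGSB n K F k E C X hn _ φ _ hφ (le_add_of_nonneg_right h0) hp).2.1 (Fintype.card_fin n))
  have l1 : lS (X.gs φ) = 1 := (hGNS n K F k E C X hn _ φ).1 hφ (by simp)
  have l2 : lS D' = 1 := by
    have a := can D'
    have b : lS (X.gs φ) = lS (X.up C.W - D') :=
      R.Prin.finrank_eq (by rwa [sub_sub_eq_add_sub])
    push_cast at a
    omega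
  obtain ⟨z, hz, rfl, l⟩ : ∃ z : Fin n → F →ₐ[K] k, Function.Injective z ∧ D0 = X.gs z ∧
      lS D0 = 1 := by
    rcases hD with rfl | rfl
    · exact ⟨φ, y1 ▸ hy.comp Sum.inl_injective, rfl, l1⟩
    · exact ⟨_, hy.comp Sum.inr_injective, y2.symm, l2⟩
  have li := Fintype.linearIndependent_iff.1 (((hGNS n K F k E C X hn _ z).2 hz).1 l)
  rw [guq_sum X hz b0 b1, guq_sum X hz b2 b3]
  refine sum_congr rfl fun i _ => congrArg _ ?_
  by_contra e
  obtain ⟨c, a⟩ := (hGORF K k ∅ (z i C.t)).2.2 (mem_acl_of_der fun δ _ => by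
    have v := hGABL n K F k E C X hn ρ hρ δ _ hc
    rw [guq_sum X hz b0 b1, guq_sum X hz b2 b3, map_sub, map_sum, map_sum, ← sum_sub_distrib] at v
    simp only [Ex.vel_pl, ← sub_smul, ← sub_mul] at v
    exact (mul_eq_zero.1 ((mul_eq_zero.1 (li _ v i)).resolve_right (hρ.ne _))).resolve_left
      (sub_ne_zero.2 (Int.cast_injective.ne (Ne.symm e))))
  rw [← (z i).commutes] at a
  exact C.ht ((z i).toRingHom.injective a ▸ isAlgebraic_algebraMap c)

end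

section

open WithZero Module Finset Polynomial Filter
open Pool.Agent.P.MP_6f117a_ag (Place FF)
open Pool.Agent.P.MP_ab3ecb_nt.Inv
open Pool.Agent.P.MP_9344a7_nt.R (Eff J ef)
open Pool.Agent.P.MP_9344a7_nt.Hy (LD GB FB IsL)
open Pool.Agent.P.MP_9344a7_nt.Od (GD)
open Pool.Agent.P.MP_9344a7_nt.Gt (pt lS Pr Can Bd Ch G12 Cv Kb)
open scoped Classical IntermediateField Polynomial.Bivariate

lemma gch_tower {k : Type} [Field k] [CharZero k] {K L : IntermediateField ℚ k} (h : K ≤ L) :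
    (∀ (Z : Set k) c, c ∈ acl K Z → c ∈ acl L Z) ∧
    ∀ (ι κ : Type) (z : ι → k) (x : κ → k), AlgebraicIndependent L z → AlgebraicIndependent K x →
      (∀ i, x i ∈ L) → AlgebraicIndependent K (Sum.elim z x) := by
  let _ := (IntermediateField.inclusion h).toAlgebra
  have : IsScalarTower K L k := .of_algebraMap_eq fun _ => rfl
  refine ⟨fun Z c hc => mem_acl.2 ((mem_acl.1 hc).ringHom_of_comp_eq
    (IntermediateField.inclusion (F := (IntermediateField.adjoin L Z).restrictScalars K)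
      (IntermediateField.adjoin_le_iff.2 (IntermediateField.subset_adjoin L Z))) (RingHom.id k)
    (RingHom.injective _) rfl), fun ι κ z x hz hx e => hx.sumElim_of_tower (S := L) ?_ hz⟩
  rintro _ ⟨i, rfl⟩
  exact ⟨⟨_, e i⟩, rfl⟩

theorem p_GCH (hGRK : S_GRK) :
    S_GCH := by
  intro k _ _ _ N T S1 S2 hN hT h2
  have le (l) : acl ℚ (T l) ≤ acl ℚ (T (l + 1)) := acl_le (hT l)
  choose m z z1 z2 z3 using fun l => (hGRK (acl ℚ (T l)) k).2.1 S1 S1.finite_toSet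
  have mono (l) : m (l + 1) ≤ m l := by
    simpa using ((hGRK (acl ℚ (T (l + 1))) k).1 _ _ _ (z l) (z1 (l + 1)) fun i =>
      (gch_tower (le l)).1 _ _ (z3 l (z2 _ i))).1
  have m0 : m 0 ≤ #S1 := by
    simpa using card_le_card_of_injOn (s := univ) (z 0) (fun i _ => z2 0 i)
      (z1 0).injective.injOn
  obtain ⟨l, hl, e⟩ : ∃ l < N, m l ≤ m (l + 1) := by
    by_contra a
    push Not at a
    have b : ∀ l ≤ N, m l + l ≤ m 0 := fun l => by
      induction l with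
      | zero => simp
      | succ l ih =>
        intro h
        have := a l h
        have := ih (by omega)
        omega
    have := b N le_rfl
    omega
  obtain ⟨m2, x, x1, x2, x3⟩ :=
    (hGRK (acl ℚ (T l)) k).2.1 (S2 ⟨l, hl⟩) (S2 ⟨l, hl⟩).finite_toSet
  have i := (gch_tower (le l)).2 _ _ _ x (z1 (l + 1)) x1 fun i => h2 ⟨l, hl⟩ _ (x2 i)
  refine ⟨⟨l, hl⟩, _, m2, _, i, fun c hc => acl_le ?_ (z3 l hc), fun c hc => x3 hc⟩
  rintro _ ⟨j, rfl⟩
  exact (((hGRK (acl ℚ (T l)) k).1 _ _ _ (z l) (i.comp _ Sum.inl_injective) fun i =>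
    z3 l (z2 _ i)).2 (by simpa using e)).2 j

end

section

open WithZero Module Finset Polynomial Filter
open Pool.Agent.P.MP_6f117a_ag (Place FF)
open Pool.Agent.P.MP_ab3ecb_nt.Inv
open Pool.Agent.P.MP_9344a7_nt.R (Eff J ef)
open Pool.Agent.P.MP_9344a7_nt.Hy (LD GB FB IsL)
open Pool.Agent.P.MP_9344a7_nt.Od (GD)
open Pool.Agent.P.MP_9344a7_nt.Gt (pt lS Pr Can Bd Ch G12 Cv Kb)
open scoped Classical IntermediateField Polynomial.Bivariate

section

variable {k E ι : Type} [Field k] [Field E] [Algebra k E] (σ : SA k E)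

lemma ulb_le {B D : Dv k E} (h : B ≤ D) : σ.dm B ≤ σ.dm D := fun P => h (σ.pl.symm P)

lemma ulb_zr {G : (Pz ι)[X]} {p : ι → k} {a : E} {Z : Dv k E} (ha : σ.s a = a)
    (hp : ∀ r, σ.s0 (p r) = p r) (h : Zr G p a Z) : Zr G p a (σ.dm Z) := by
  refine ⟨h.1, σ.pl.surjective.forall.2 fun P hP => ?_⟩
  have e : (σ.s0 : k →+* k).comp (sb p) = sb p :=
    MvPolynomial.ringHom_ext' (RingHom.ext_int _ _) fun r => by simp [sb, hp]
  have h1 := congrArg (σ.s0 : k →+* k) (h.2 P (by simpa using hP))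
  rwa [hom_eval₂, e, map_zero, RingHom.coe_coe, ← σ.ev_pl, ha] at h1

end

theorem p_ULB (hUL1 : S_UL1) (hUL2 : S_UL2) (hUCP : S_UCP) (hGCS : S_GCS) :
    S_ULB := by
  intro k E _ _ _ _ _ k' E' _ _ _ _ _ _ 𝒰 ι p σ a T F _ _ _ X t A D A' D' B' hT ha ht hj hσ hA hD
    b0 b1 ⟨D0, h0⟩ hu S hS
  subst hT
  obtain ⟨-, -, l3, l4, l5⟩ := hUL1 k E k' E' 𝒰
  have l6 := fun D D' h => ((hUL2 k E k' E' 𝒰).1 D D' h).2.2.2.1
  have l7 := fun D D' h => (hUCP k E k' E' 𝒰 a ha D D' h).2 ι p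
  have l8 := (hGCS _ F k' E' X t ht).1
  rw [hj] at l8
  obtain ⟨B, hB⟩ := l3 B'
  obtain ⟨Z, hZ⟩ := l3 (X.up D0)
  obtain ⟨G, hG⟩ := (l7 Z _ hZ).1 fun Q hQ => by
    obtain ⟨c, hc⟩ := (l8 _).2 ⟨D0, rfl⟩ Q hQ
    exact hc ▸ c.2
  obtain ⟨N, hN⟩ := (l4 Z _ hZ).2
  obtain ⟨B1, hB1⟩ := l5 B B' σ hB
  obtain ⟨Z1, hZ1⟩ := l5 Z _ σ hZ
  have c0 := hB.nonneg.1 b0
  have c1 := (hB.le_iff hD).1 b1
  have c2 := (l6 _ _ ((hA.add hB).sub hZ)).1 h0
  obtain ⟨D1, rfl⟩ := (l8 Z1).1 fun Q hQ => ⟨⟨_, (l7 _ _ hZ1).2 G (hG.mono fun i h =>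
    ulb_zr (σ i) (hσ i).1 (hσ i).2.1 h) Q hQ⟩, rfl⟩
  have c3 := (l6 _ _ ((hA.add hB1).sub hZ1)).2 (c2.mono fun i h => by
    simpa only [map_sub, map_add, (hσ i).2.2.1] using h.dm (σ i))
  have c4 := (hB1.eq_iff hB).1 (hu B1
    (hB1.nonneg.2 (c0.mono fun i h => by simpa only [map_zero] using ulb_le (σ i) h))
    ((hB1.le_iff hD).2 (c1.mono fun i h => (ulb_le (σ i) h).trans_eq (hσ i).2.2.2))
    (by simpa only [add_sub_add_left_eq_sub] using Ex.Cst.sub ⟨D0, h0⟩ ⟨D1, c3⟩))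
  filter_upwards [c0, c1, c2, c4, hG, hN, hS G, uu_ge N] with i d0 d1 d2 d4 d5 d6 d7 d8 h
  exact h G d7 _ _ d4 d0 d1 d5 (fun P => (d6 P).trans (by exact_mod_cast d8)) d2

end

section

open WithZero Module Finset Polynomial Filter
open Pool.Agent.P.MP_6f117a_ag (Place FF)
open Pool.Agent.P.MP_ab3ecb_nt.Inv
open Pool.Agent.P.MP_9344a7_nt.R (Eff J ef)
open Pool.Agent.P.MP_9344a7_nt.Hy (LD GB FB IsL)
open Pool.Agent.P.MP_9344a7_nt.Od (GD)
open Pool.Agent.P.MP_9344a7_nt.Gt (pt lS Pr Can Bd Ch G12 Cv Kb)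
open scoped Classical IntermediateField Polynomial.Bivariate

theorem p_LIM (hTHG : S_THG) (hUL1 : S_UL1) (hUL2 : S_UL2) (hUCP0 : S_UCP0) (hUCP : S_UCP) (hUAV : S_UAV) (hGCS : S_GCS) (hUK : S_UK) (hGUQ : S_GUQ) (hGCH : S_GCH) (hULB : S_ULB) :
    S_LIM := by
  intro n d hn
  by_contra hcon
  obtain ⟨S, hS⟩ := uu_exh (MvPolynomial (Fin n) (Pz (Ix (Bool ⊕ Fin (n + 2)))))
  obtain ⟨S', hS'⟩ := uu_exh (Pz (Ix (Bool ⊕ Fin (n + 2))))[X]
  have H := fun i => not_exists.1 (not_exists.1 (not_exists.1 (not_exists.1 hcon (S i)) (S' i)) i) i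
  simp only [not_forall, not_exists, not_not] at H
  choose k E _ _ _ _ _ σ W a b Ψ A1 M0 A2 D D' hch hmo hsr hav using H
  obtain ⟨k', E', _, _, _, _, _, _, 𝒰, W', hW, hK⟩ := hUK k E n d W a b Ψ hch hmo
  obtain ⟨-, l2, -, l4, -⟩ := hUL1 k E k' E' 𝒰
  have lim : ∀ (Z : ∀ i, Dv (k i) (E i)) (m : ℕ), (∀ i, 0 ≤ Z i ∧ deg (Z i) = m) →
      ∃ Z', 𝒰.Lm Z Z' ∧ 0 ≤ Z' ∧ deg Z' = m := fun Z m h => by
    obtain ⟨Z', h'⟩ := l2 Z m (.of_forall fun i => ⟨(h i).1, (h i).2.le⟩)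
    obtain ⟨i, hi⟩ := (l4 Z Z' h').1.exists
    exact ⟨Z', h', h'.nonneg.2 (.of_forall fun i => (h i).1), hi.1.symm.trans (h i).2⟩
  have pr : ∀ {Z Z'}, 𝒰.Lm Z Z' → (∀ i, Pr (Z i)) → Pr Z' := fun h h' =>
    ((hUL2 k E k' E' 𝒰).1 _ _ h).2.2.2.1.2 (.of_forall h')
  have ha : a ∈ Bs k E := ⟨d, .of_forall fun i => (hmo i).ba⟩
  have cf := fun Z Z' h => (hUCP k E k' E' 𝒰 a ha Z Z' h).1
  obtain ⟨A1', a1, a1p, a1d⟩ := lim A1 (n + 1) fun i => ⟨(hsr i).p1, (hsr i).d1⟩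
  obtain ⟨M0', m0, m0p, -⟩ := lim M0 (n + 2) fun i => ⟨(hsr i).m0.1, (hsr i).m0.2.2⟩
  choose A2' a2 a2p _ using fun l =>
    lim (fun i => A2 i l) (n + 1) fun i => ⟨((hsr i).a2 l).1, ((hsr i).a2 l).2.2⟩
  obtain ⟨p, hp⟩ : ∃ p : ℕ → ∀ i, Ix (Bool ⊕ Fin (n + 2)) → k i,
      p = fun l i => pm (Ψ i) (a i) (lv (W i) (M0 i) (A2 i) l) := ⟨_, rfl⟩
  obtain ⟨l, m1, m2, x, hx, x1, x2⟩ := hGCH k' (n + 2) (fun l => Set.range (𝒰.lp (p l)))
    (A1'.support.image fun Q => ev Q (𝒰.fn a))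
    (fun l => (A2' l).support.image fun Q => ev Q (𝒰.fn a))
    (by
      have := Gt.card_support_le a1p
      have := card_image_le (s := A1'.support) (f := fun Q => ev Q (𝒰.fn a))
      omega)
    (by
      rintro l _ ⟨r | ⟨c | l', m⟩, rfl⟩
      · exact subset_acl _ ⟨.inl r, by rw [hp]; rfl⟩
      · exact subset_acl _ ⟨.inr (.inl c, m), by rw [hp]; rfl⟩
      by_cases e : l'.1 < l
      · exact subset_acl _ ⟨.inr (.inr l', m), by simp [hp, U0.lp, pm, lv, e, e.le]⟩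
      · have : 𝒰.lp (p l) (.inr (.inr l', m)) = if m = 0 then 1 else 0 := by
          split_ifs with e' <;> simp only [hp, U0.lp, pm, lv, Sum.elim_inr, e, cp, if_false,
            Finsupp.prod_zero_index, coeff_one, e', if_true]
          exacts [map_one _, map_zero _]
        rw [this]
        split_ifs
        exacts [one_mem _, zero_mem _])
    (fun l c hc => by
      obtain ⟨Q, hQ, rfl⟩ := mem_image.1 hc
      obtain ⟨c1, c2, -⟩ := (hUCP0 k' E' (𝒰.fn a)).1 (A2' l)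
      exact root_mem_acl c1.ne_zero (fun m => subset_acl _ ⟨.inr (.inr l, m), by
        simp [cf _ _ (a2 l), hp, U0.lp, pm, lv]⟩) ((c2 (a2p l)).2 Q hQ))
  obtain ⟨F, _, _, _, C, X, hj, hW'⟩ := hK _ (fun i => lv (W i) (M0 i) (A2 i) l) (.inl true)
    (Set.range (𝒰.lp (p l))) (fun _ => rfl) (by rw [hp])
  obtain ⟨D1, d1, d1p, d1d⟩ :=
    lim (fun i => D i l) n fun i => ⟨((hsr i).d l).1, ((hsr i).d l).2.2⟩
  obtain ⟨D2, d2, d2p, -⟩ :=
    lim (fun i => D' i l) n fun i => ⟨((hsr i).d' l).1, ((hsr i).d' l).2.2⟩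
  obtain ⟨-, g2, g3⟩ := hGCS _ F k' E' X C.t C.ht
  obtain ⟨φ, gen, rfl⟩ := g3 n D1 d1p d1d (by
    have := hUAV k E k' E' 𝒰.toU0 _ _ (p l) (fun i => cc n (a i) (D i l)) S hS
      (.of_forall fun i => hp ▸ (hav i l).1)
    rwa [show (𝒰.lp fun i => cc n (a i) (D i l)) = cc n (X.j C.t) D1 from
      funext fun m => by rw [hj]; exact (cf _ _ d1 m).symm] at this)
  obtain ⟨M, rfl⟩ := g2 M0' m0p fun m => ⟨⟨_, subset_acl _ ⟨.inr (.inl false, m), rfl⟩⟩, by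
    rw [hj, cf _ _ m0, hp]
    rfl⟩
  have w : Pr (X.gs φ + D2 - X.up C.W) := hW' ▸ pr ((d1.add d2).sub hW) fun i => (hsr i).w l
  have rt : ∀ (A : Dv k' E') T, (∀ c ∈ A.support.image fun Q => ev Q (𝒰.fn a), c ∈ acl _ T) →
      X.Rt C.t T A := fun A T h y hy =>
    h _ (mem_image.2 ⟨_, Finsupp.mem_support_iff.2 hy, by rw [← hj, X.cl.ev_pl]⟩)
  have fx : ∀ i r, (σ i).s0 (p l i r) = p l i r := by
    rw [hp]
    rintro i (r | ⟨z, m⟩)
    · exact (hsr i).sΨ _ _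
    refine ((hUCP0 _ _ (a i)).1 _).2.2 _ (hsr i).sa ?_ m
    rcases z with (_ | _) | l'
    · exact dm_of_eff (hsr i).m0
    · exact (hsr i).sW
    · simp only [lv, Sum.elim_inr]
      split_ifs
      exacts [dm_of_eff ((hsr i).a2 _), map_zero _]
  obtain ⟨B, ⟨b1, b2, b3⟩ | ⟨b1, b2, b3⟩⟩ := hTHG n _ F k' E' C X hn φ D2 A1' (A2' l) _ _ x gen d2p
    w hx (rt _ _ x1) (rt _ _ x2) (by
      convert (Ex.cst_of_pr (pr (((d1.add m0).sub a1).sub (a2 l)) fun i => (hsr i).r l)).sub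
        (Ex.cst_up M) using 1
      abel)
  · obtain ⟨i, hi⟩ := (hULB k E k' E' 𝒰 _ (p l) σ a _ F X C.t (fun i => -A2 i l) (fun i => D i l)
      _ _ B rfl ha C.ht hj (fun i => ⟨(hsr i).sa, fx i, by rw [map_neg, dm_of_eff ((hsr i).a2 l)],
        dm_of_eff ((hsr i).d l)⟩) (a2 l).neg d1 b1 b2
      (by rw [← sub_eq_neg_add, ← neg_sub]; exact b3.neg)
      (fun B' c1 c2 => hGUQ n _ F k' E' C X hn φ D2 _ B B' gen d2p w (.inl rfl) b1 b2 c1 c2)
      S' hS').exists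
    exact hi (hp ▸ (hav i l).2.1)
  · obtain ⟨i, hi⟩ := (hULB k E k' E' 𝒰 _ (p l) σ a _ F X C.t (fun i => A2 i l) (fun i => D' i l)
      _ _ B rfl ha C.ht hj (fun i => ⟨(hsr i).sa, fx i, dm_of_eff ((hsr i).a2 l),
        dm_of_eff ((hsr i).d' l)⟩) (a2 l) d2 b1 b2 b3
      (fun B' c1 c2 => hGUQ n _ F k' E' C X hn φ D2 _ B B' gen d2p w (.inr rfl) b1 b2 c1 c2)
      S' hS').exists
    exact hi (hp ▸ (hav i l).2.2)

end

section

open WithZero Module Finset Polynomial Filter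
open Pool.Agent.P.MP_6f117a_ag (Place FF)
open Pool.Agent.P.MP_ab3ecb_nt.Inv
open Pool.Agent.P.MP_9344a7_nt.R (Eff J ef)
open Pool.Agent.P.MP_9344a7_nt.Hy (LD GB FB IsL)
open Pool.Agent.P.MP_9344a7_nt.Od (GD)
open Pool.Agent.P.MP_9344a7_nt.Gt (pt lS Pr Can Bd Ch G12 Cv Kb)
open scoped Classical IntermediateField Polynomial.Bivariate

theorem p_TBR :
    S_TBR := by
  intro k E _ _ _ _ _ K e n σ Q Λ _ gb fb il
  have h1 : ∀ (m : ℕ) (x : J σ), (Λ.W m).coeff x ≠ 0 ↔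
      ∃ A ∈ Eff σ.pl m, (A : Pic k E) = x.1 + m • e := fun m x => by
    rw [il.W, Nat.cast_ne_zero, card_ne_zero]
    simp only [Finset.Nonempty, mem_filter, fb.ef]
  refine ⟨h1, fun m x hm => ?_, fun z D B hD hz s b0 b1 => ?_⟩
  · have d : R.dg (x.1 + m • e) = m := by simp [il.e2, (R.mem_J.1 x.2).2]
    have a := fb.cnt m (x.1 + m • e) (by rw [map_add, map_nsmul, il.e1, (R.mem_J.1 x.2).1]) d
    have b := gb.rg (x.1 + m • e)
    rw [il.W, Nat.cast_ne_zero]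
    intro h
    rw [h, zero_mul, zero_add, eq_comm, Nat.pow_eq_one] at a
    have := fb.fr.1
    omega
  · obtain ⟨j, hj⟩ := Int.eq_ofNat_of_zero_le (deg_nonneg b0)
    have d := deg_mono b1
    have hn : j ≤ n := by rw [hD.2.2] at d; omega
    refine ⟨j, hn, ⟨_, R.sub_mem_J il.e1 il.e2 (x := B) (by rw [R.ph_mk, s])⟩, rfl,
      (h1 _ _).2 ⟨B, ⟨b0, R.dm_eq.1 s, hj⟩, by simp [hj]⟩, (h1 _ _).2 ⟨D - B, ⟨sub_nonneg.2 b1,
        R.dm_eq.1 (by rw [map_sub, s, dm_of_eff hD]), by rw [map_sub, hD.2.2, hj]; omega⟩, ?_⟩⟩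
    obtain ⟨i, rfl⟩ := Nat.exists_eq_add_of_le hn
    rw [QuotientAddGroup.mk_sub, hz, Nat.add_sub_cancel_left, add_nsmul]
    simp only [AddSubgroup.coe_sub, R.dg_mk, hj, natCast_zsmul]
    abel

end

section

open WithZero Module Finset Polynomial Filter
open Pool.Agent.P.MP_6f117a_ag (Place FF)
open Pool.Agent.P.MP_ab3ecb_nt.Inv
open Pool.Agent.P.MP_9344a7_nt.R (Eff J ef)
open Pool.Agent.P.MP_9344a7_nt.Hy (LD GB FB IsL)
open Pool.Agent.P.MP_9344a7_nt.Od (GD)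
open Pool.Agent.P.MP_9344a7_nt.Gt (pt lS Pr Can Bd Ch G12 Cv Kb)
open scoped Classical IntermediateField Polynomial.Bivariate

lemma tpop_bonf {α β : Type} (f : β → Finset α) (q C : ℕ) (M : Finset β)
    (h : ∀ t ∈ M, ∀ t' ∈ M, t ≠ t' → q * #(f t ∩ f t') ≤ C) :
    q * ∑ t ∈ M, #(f t) + #M * C ≤ q * #(M.biUnion f) + #M ^ 2 * C := by
  induction M using Finset.induction_on with
  | empty => simp
  | insert a M ha ih =>
    have h1 := ih fun t ht t' ht' => h t (mem_insert_of_mem ht) t' (mem_insert_of_mem ht')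
    have h2 := card_union_add_card_inter (f a) (M.biUnion f)
    have h3 : q * #(f a ∩ M.biUnion f) ≤ #M * C := by
      rw [inter_biUnion]
      refine (Nat.mul_le_mul_left q card_biUnion_le).trans ?_
      rw [mul_sum]
      refine (sum_le_card_nsmul _ _ C fun t ht => h a (mem_insert_self _ _) t
        (mem_insert_of_mem ht) fun e => ha (e ▸ ht)).trans_eq (smul_eq_mul _ _)
    rw [sum_insert ha, biUnion_insert, card_insert_of_notMem ha]
    have h4 := congrArg (q * ·) h2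
    simp only [mul_add] at h4
    nlinarith

theorem p_TPOP :
    S_TPOP := by
  intro α β X' f L Q q c u v hQ hq hX hf hi hc
  by_contra hL
  obtain ⟨M, hM, hm⟩ := exists_subset_card_eq (n := 2 * u * v + 1) (s := L) (by omega)
  have h1 := tpop_bonf f q (c * Q) M fun t ht t' ht' => hi t (hM ht) t' (hM ht')
  have h2 : #(M.biUnion f) ≤ u * Q :=
    (card_le_card (biUnion_subset.2 fun t ht => (hf t (hM ht)).1)).trans hX
  have h3 : #M * Q ≤ v * ∑ t ∈ M, #(f t) := by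
    rw [mul_sum]
    exact (smul_eq_mul _ _).symm.trans_le (card_nsmul_le_sum _ _ Q fun t ht => (hf t (hM ht)).2)
  rw [hm] at h1 h3
  obtain ⟨w, hw⟩ : ∃ w, w = u * v := ⟨_, rfl⟩
  rw [mul_assoc, ← hw] at h1 h3
  have h4 : q * ∑ t ∈ M, #(f t) ≤ q * (u * Q) + (2 * w + 1) * (2 * w) * (c * Q) := by
    have := Nat.mul_le_mul_left q h2
    nlinarith
  have h5 : Q * (q * (2 * w + 1)) ≤ Q * (q * w + (2 * w + 1) * (2 * w) * (c * v)) := by
    calc _ = q * ((2 * w + 1) * Q) := by ring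
      _ ≤ q * (v * ∑ t ∈ M, #(f t)) := Nat.mul_le_mul_left q h3
      _ = v * (q * ∑ t ∈ M, #(f t)) := by ring
      _ ≤ v * (q * (u * Q) + (2 * w + 1) * (2 * w) * (c * Q)) := Nat.mul_le_mul_left v h4
      _ = _ := by rw [hw]; ring
  have h6 := Nat.le_of_mul_le_mul_left h5 hQ
  have h7 : 9 * (c * v) * w ≤ q := hc.trans_eq' (by rw [hw]; ring)
  obtain ⟨d, hd⟩ : ∃ d, d = c * v := ⟨_, rfl⟩
  rw [← hd] at h6 h7
  rcases Nat.eq_zero_or_pos w with rfl | h0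
  · omega
  · have h8 : (2 * w + 1) * (2 * w) * d ≤ 3 * w * (2 * w) * d := by gcongr; omega
    have h9 := Nat.mul_le_mul_left w h7
    nlinarith

end

end Pool.Agent.P.MP_9344a7_nt.Ac
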