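import Pool.Agent.P.MP_9344a7_nt.Ac.IfaceU
import Pool.Agent.P.MP_9344a7_nt.Ac.Iface

/-! Steps TSTR, TBAD, TD1, TD. -/

set_option linter.unusedVariables false
set_option linter.unusedSectionVars false

namespace Pool.Agent.P.MP_9344a7_nt.Ac

section

open WithZero Module Finset Polynomial Filter
open Pool.Agent.P.MP_6f117a_ag (Place FF)
open Pool.Agent.P.MP_ab3ecb_nt.Inv
open Pool.Agent.P.MP_9344a7_nt.R (Eff J ef)
open Pool.Agent.P.MP_9344a7_nt.Hy (LD GB FB IsL)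
open Pool.Agent.P.MP_9344a7_nt.Od (GD)
open Pool.Agent.P.MP_9344a7_nt.Gt (pt lS Pr Can Bd Ch G12 Cv Kb)
open scoped Classical IntermediateField Polynomial.Bivariate

theorem p_TSTR :
    S_TSTR := by
  intro α β N γ X X' G B hG hB hγ h
  by_contra hc
  let d : α → Finset β := fun x => {y ∈ X' | (x, y) ∈ G}
  let St := X.sigma fun x => Fintype.piFinset fun _ : Fin (N + 1) => d x
  have m : ∀ s ∈ St, ∀ l, s.2 l ∈ X' ∧ (s.1, s.2 l) ∈ G := fun s hs l =>
    mem_filter.1 (Fintype.mem_piFinset.1 (mem_sigma.1 hs).2 l)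
  have a1 : #G ≤ ∑ x ∈ X, #(d x) := by
    rw [← card_sigma]
    exact card_le_card_of_injOn (fun p => ⟨p.1, p.2⟩) (fun p hp => mem_sigma.2
      ⟨(mem_product.1 (hG hp)).1, mem_filter.2 ⟨(mem_product.1 (hG hp)).2, hp⟩⟩)
      fun p _ p' _ e => by simpa [Prod.ext_iff] using e
  have a2 : #St = ∑ x ∈ X, #(d x) ^ (N + 1) := by simp [St]
  have a3 : ∀ l, #{s ∈ St | (s.1, s.2 l) ∈ B l s.2} ≤ γ * #X' ^ N := fun l => by
    rw [show #X' ^ N = #(Fintype.piFinset fun _ : Fin N => X') by simp]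
    refine card_le_mul_card_image_of_maps_to (f := fun s i => s.2 (l.succAbove i)) (fun s hs =>
      Fintype.mem_piFinset.2 fun i => (m s (mem_filter.1 hs).1 _).1) _ fun z _ => ?_
    rcases ({s ∈ {s ∈ St | (s.1, s.2 l) ∈ B l s.2} | (fun i => s.2 (l.succAbove i)) = z} :
      Finset _).eq_empty_or_nonempty with e | ⟨s0, h0⟩
    · exact (congrArg card e).trans_le (Nat.zero_le _)
    have b : ∀ s ∈ {s ∈ {s ∈ St | (s.1, s.2 l) ∈ B l s.2} | (fun i => s.2 (l.succAbove i)) = z},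
        ∀ l', l' ≠ l → s.2 l' = s0.2 l' := fun s hs l' e => by
      obtain ⟨i, rfl⟩ := Fin.exists_succAbove_eq e
      exact congrFun ((mem_filter.1 hs).2.trans (mem_filter.1 h0).2.symm) i
    refine le_trans (card_le_card_of_injOn (fun s => (s.1, s.2 l)) (fun s hs => ?_)
      fun s hs s' hs' e => ?_) (hγ l s0.2)
    · have := mem_filter.1 (mem_filter.1 hs).1
      exact mem_inter.2 ⟨hB l _ _ (b s hs) ▸ this.2, (m s this.1 l).2⟩
    · refine Sigma.ext (congrArg Prod.fst e) (heq_of_eq (funext fun l' => ?_))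
      rcases eq_or_ne l' l with rfl | e'
      exacts [congrArg Prod.snd e, (b s hs l' e').trans (b s' hs' l' e').symm]
  have a4 : #St ≤ (N + 1) * (γ * #X' ^ N) := by
    have := card_biUnion_le_card_mul univ (fun l => {s ∈ St | (s.1, s.2 l) ∈ B l s.2}) _
      fun l _ => a3 l
    rw [card_univ, Fintype.card_fin] at this
    refine (card_le_card fun s hs => ?_).trans this
    by_contra e
    exact hc ⟨s.1, s.2, fun l => ⟨(m s hs l).2, fun e' =>
      e (mem_biUnion.2 ⟨l, mem_univ _, mem_filter.2 ⟨hs, e'⟩⟩)⟩⟩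
  have a5 := (Nat.pow_le_pow_left a1 (N + 1)).trans
    ((pow_sum_le_card_mul_sum_pow (fun _ _ => Nat.zero_le _) N).trans
      (Nat.mul_le_mul_left _ (a2 ▸ a4)))
  exact h.not_ge (a5.trans_eq (by push_cast; ring))

end

section

open WithZero Module Finset Polynomial Filter
open Pool.Agent.P.MP_6f117a_ag (Place FF)
open Pool.Agent.P.MP_ab3ecb_nt.Inv
open Pool.Agent.P.MP_9344a7_nt.R (Eff J ef)
open Pool.Agent.P.MP_9344a7_nt.Hy (LD GB FB IsL)
open Pool.Agent.P.MP_9344a7_nt.Od (GD)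
open Pool.Agent.P.MP_9344a7_nt.Gt (pt lS Pr Can Bd Ch G12 Cv Kb)
open scoped Classical IntermediateField Polynomial.Bivariate

section

variable {q n c u j : ℕ} {A : Type} [AddCommGroup A] [Fintype A] {Λ : LD q n A}

lemma tbad_supp (h : GD Λ c) {i : ℕ} (hi : i ≤ n) {f : A → A} (hf : Function.Injective f) :
    #{a | (Λ.W i).coeff (f a) ≠ 0} ≤ c * q ^ i := by
  have : (#{a | (Λ.W i).coeff a ≠ 0} : ℤ) ≤ c * q ^ i := by
    refine le_trans ?_ (h.e0 i hi)
    rw [card_filter, Nat.cast_sum]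
    refine sum_le_sum fun a _ => ?_
    split_ifs with e
    · exact Int.add_one_le_of_lt (pow_pos (lt_of_le_of_ne (Λ.nn i a) e.symm) 2)
    · exact sq_nonneg _
  exact (card_le_card_of_injOn f (t := {a | (Λ.W i).coeff a ≠ 0}) (fun a ha => by simpa using ha)
    hf.injOn).trans (by exact_mod_cast this)

lemma tbad_one {X X' : Finset A} (h : GD Λ c) (hj : j < n) (hX : #X ≤ u * q ^ (n - j))
    (hX' : #X' ≤ u * q ^ j) {i : ℕ} (hi : i ≤ n) (e : i ≠ j) {f g : A → A}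
    (hf : Function.Injective f) (hg : Function.Injective g) :
    q * #{p ∈ X ×ˢ X' | (Λ.W i).coeff (f p.2) ≠ 0 ∧ (Λ.W (n - i)).coeff (g p.1) ≠ 0} ≤
      c * u * q ^ n := by
  rcases q.eq_zero_or_pos with rfl | q0
  · simp
  rcases e.lt_or_gt with e | e
  · refine (Nat.mul_le_mul_left _ ((card_le_card
      (t := X ×ˢ univ.filter fun a => (Λ.W i).coeff (f a) ≠ 0)
      fun p hp => ?_).trans ((card_product _ _).trans_le
        (Nat.mul_le_mul hX (tbad_supp h hi hf))))).trans ?_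
    · obtain ⟨a, b, -⟩ := mem_filter.1 hp
      exact mem_product.2 ⟨(mem_product.1 a).1, mem_filter.2 ⟨mem_univ _, b⟩⟩
    · calc _ = c * u * q ^ (n - j + i + 1) := by ring
        _ ≤ _ := Nat.mul_le_mul_left _ (Nat.pow_le_pow_right q0 (by omega))
  · refine (Nat.mul_le_mul_left _ ((card_le_card
      (t := (univ.filter fun a => (Λ.W (n - i)).coeff (g a) ≠ 0) ×ˢ X')
      fun p hp => ?_).trans ((card_product _ _).trans_le
        (Nat.mul_le_mul (tbad_supp h (Nat.sub_le _ _) hg) hX')))).trans ?_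
    · obtain ⟨a, -, b⟩ := mem_filter.1 hp
      exact mem_product.2 ⟨mem_filter.2 ⟨mem_univ _, b⟩, (mem_product.1 a).2⟩
    · calc _ = c * u * q ^ (n - i + j + 1) := by ring
        _ ≤ _ := Nat.mul_le_mul_left _ (Nat.pow_le_pow_right q0 (by omega))

end

theorem p_TBAD :
    S_TBAD := by
  intro q n c u j A _ _ Λ X X' t h _ hj hX hX'
  refine (Nat.mul_le_mul_left _ ((card_le_card (t := ((range (n + 1)).erase j).biUnion fun i =>
    {p ∈ X ×ˢ X' | (Λ.W i).coeff (p.2 - t) ≠ 0 ∧ (Λ.W (n - i)).coeff (p.1 + t) ≠ 0} ∪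
    {p ∈ X ×ˢ X' | (Λ.W i).coeff (t - p.2) ≠ 0 ∧ (Λ.W (n - i)).coeff (Λ.ω - t - p.1) ≠ 0})
      fun p hp => ?_).trans card_biUnion_le)).trans ?_
  · obtain ⟨a, i, b1, b2, b3⟩ := mem_filter.1 hp
    refine mem_biUnion.2 ⟨i, mem_erase.2 ⟨b2, mem_range.2 (by omega)⟩, mem_union.2 (b3.imp
      (fun b => mem_filter.2 ⟨a, b.1, ?_⟩) fun b => mem_filter.2 ⟨a, b.1, ?_⟩)⟩
    · convert b.2 using 2
      abel
    · convert b.2 using 2
      abel
  · rw [mul_sum]
    refine (sum_le_card_nsmul _ _ (2 * (c * u * q ^ n)) fun i hi => ?_).trans ?_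
    · obtain ⟨e, hi⟩ := mem_erase.1 hi
      have hi := Nat.lt_succ_iff.1 (mem_range.1 hi)
      have a := tbad_one h hj hX hX' hi e (sub_left_injective (b := t)) (add_left_injective t)
      have b := tbad_one h hj hX hX' hi e (sub_right_injective (b := t))
        (sub_right_injective (b := Λ.ω - t))
      refine (Nat.mul_le_mul_left _ (card_union_le _ _)).trans ?_
      rw [mul_add, two_mul]
      exact add_le_add a b
    · refine (Nat.mul_le_mul_right _ (card_erase_le.trans (card_range _).le)).trans_eq ?_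
      ring

end

section

open WithZero Module Finset Polynomial Filter
open Pool.Agent.P.MP_6f117a_ag (Place FF)
open Pool.Agent.P.MP_ab3ecb_nt.Inv
open Pool.Agent.P.MP_9344a7_nt.R (Eff J ef)
open Pool.Agent.P.MP_9344a7_nt.Hy (LD GB FB IsL)
open Pool.Agent.P.MP_9344a7_nt.Od (GD)
open Pool.Agent.P.MP_9344a7_nt.Gt (pt lS Pr Can Bd Ch G12 Cv Kb)
open scoped Classical IntermediateField Polynomial.Bivariate

section

variable {k E ι : Type} [Field k] [Field E] [Algebra k E] [IsAlgClosed k] [FF k E]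

lemma td1_cls {σ : SA k E} {e : Pic k E} (e2 : R.dg e = 1) (Z : Dv k E) (w : J σ) (m : ℤ)
    (h : (Z : Pic k E) = w.1 + m • e) : w.1 = (Z : Pic k E) - deg Z • e := by
  have : deg Z = m := by
    have := congrArg R.dg h
    simpa [e2, (R.mem_J.1 w.2).2] using this
  rw [this, h, add_sub_cancel_right]

/-- The classes of the divisors that are not in general position. -/
noncomputable def td1_Z (σ : SA k E) [Fintype (J σ)] (e : Pic k E) (n : ℕ)
    (S : Finset (MvPolynomial (Fin n) (Pz ι))) (a : E) (p : ι → k) : Finset (J σ) :=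
  {z | ∃ D ∈ ef σ n, (D : Pic k E) = z.1 + n • e ∧ ¬ Av S p (cc n a D)}

/-- The classes of small complexity. -/
noncomputable def td1_L (σ : SA k E) [Fintype (J σ)] (e : Pic k E) (N : ℕ)
    (S : Finset (Pz ι)[X]) (a : E) (p : ι → k) : Finset (J σ) :=
  {t | ∃ G ∈ S, ∃ Z : Dv k E, Zr G p a Z ∧ (∀ P, |Z P| ≤ N) ∧
    (t.1 = (Z : Pic k E) - deg Z • e ∨ (-t).1 = (Z : Pic k E) - deg Z • e)}

lemma td1_cZ (σ : SA k E) [Fintype (J σ)] (e : Pic k E) (n : ℕ)
    (S : Finset (MvPolynomial (Fin n) (Pz ι))) (a : E) (p : ι → k) :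
    #(td1_Z σ e n S a p) ≤ #{D ∈ ef σ n | ¬ Av S p (cc n a D)} := by
  refine le_trans (card_le_card_of_injOn (fun z : J σ => z.1 + n • e) (fun z hz => ?_)
    fun z _ z' _ h => Subtype.ext (add_right_cancel h))
    (card_image_le (f := fun D : Dv k E => (D : Pic k E)))
  obtain ⟨D, h1, h2, h3⟩ := (mem_filter.1 (mem_coe.1 hz)).2
  exact mem_coe.2 (mem_image.2 ⟨D, mem_filter.2 ⟨h1, h3⟩, h2⟩)

lemma td1_cL (σ : SA k E) [Fintype (J σ)] (e : Pic k E) (N β : ℕ)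
    (S : Finset (Pz ι)[X]) (a : E) (p : ι → k)
    (h : ∀ f : k[X], f ≠ 0 → f.natDegree ≤ S.sup natDegree → ∃ X' : Finset (Dv k E), #X' ≤ β ∧
      ∀ Z : Dv k E, (∀ P ∈ Z.support, f.IsRoot (ev P a)) → (∀ P, |Z P| ≤ N) → Z ∈ X') :
    #(td1_L σ e N S a p) ≤ 2 * (#S * β) := by
  have h1 : ∀ G : (Pz ι)[X], ∃ X' : Finset (Dv k E), G ∈ S → #X' ≤ β ∧
      ∀ Z : Dv k E, Zr G p a Z → (∀ P, |Z P| ≤ N) → Z ∈ X' := fun G => by
    by_cases hG : G ∈ S ∧ G.map (sb p) ≠ 0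
    · obtain ⟨X', h2, h3⟩ := h _ hG.2 (natDegree_map_le.trans (le_sup hG.1))
      exact ⟨X', fun _ => ⟨h2, fun Z hZ => h3 Z fun P hP => by
        rw [IsRoot, eval_map]; exact hZ.2 P hP⟩⟩
    · exact ⟨∅, fun hS => ⟨by simp, fun Z hZ => absurd ⟨hS, hZ.1⟩ hG⟩⟩
  choose X' hX using h1
  have h2 : #(S.biUnion X') ≤ #S * β := card_biUnion_le_card_mul _ _ _ fun G hG => (hX G hG).1
  let f : Dv k E → Pic k E := fun Z => (Z : Pic k E) - deg Z • e
  calc #(td1_L σ e N S a p) ≤ #((S.biUnion X').image f ∪ (S.biUnion X').image fun Z => -f Z) := by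
        refine card_le_card_of_injOn (fun z : J σ => z.1) (fun z hz => ?_)
          fun z _ z' _ h => Subtype.ext h
        obtain ⟨G, h3, Z, h4, h5, h6⟩ := (mem_filter.1 (mem_coe.1 hz)).2
        have h7 : Z ∈ S.biUnion X' := mem_biUnion.2 ⟨G, h3, (hX G h3).2 Z h4 h5⟩
        refine mem_coe.2 (mem_union.2 (h6.imp (fun h8 => mem_image.2 ⟨Z, h7, h8.symm⟩)
          fun h8 => mem_image.2 ⟨Z, h7, ?_⟩))
        exact neg_eq_iff_eq_neg.2 h8.symm
    _ ≤ _ := by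
        have h3 := card_image_le (s := S.biUnion X') (f := f)
        have h4 := card_image_le (s := S.biUnion X') (f := fun Z => -f Z)
        have := card_union_le ((S.biUnion X').image f) ((S.biUnion X').image fun Z => -f Z)
        omega

lemma td1_lv {N : ℕ} (W M0 : Dv k E) (A A' : Fin N → Dv k E) (l : Fin N)
    (h : ∀ l', l' ≠ l → A l' = A' l') : lv W M0 A l = lv W M0 A' l := by
  funext r
  rcases r with r | r
  · rfl
  · simp only [lv, Sum.elim_inr]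
    split_ifs with h1
    · exact h r fun e => by simp [e] at h1
    · rfl

end

theorem p_TD1 (hLIM : S_LIM) (hUZF : S_UZF) (hSZD : S_SZD) (hUMD : S_UMD) (hTBR : S_TBR) (hTST : S_TST) :
    S_TD1 := by
  intro n c hn
  obtain ⟨d, p1, hM⟩ := hUMD n (by omega)
  obtain ⟨S, S', N, p2, hL⟩ := hLIM n d hn
  obtain ⟨β1, h1⟩ := hSZD _ n d S
  obtain ⟨β2, h2⟩ := hUZF d (S'.sup natDegree) N
  obtain ⟨a0, b0, hT⟩ := hTST (n + 1)
  obtain ⟨u0, hT⟩ := hT n c (max β1 (2 * (#S' * β2)))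
  refine ⟨a0, b0, u0, max p1 p2, fun F _ _ C e Λ _ u hp hx hE hu hb => ?_⟩
  by_contra hTD
  obtain ⟨a, b, Ψ, hMo, ha, hΨ⟩ := hM F C (by omega) hx.pos hx.nh
  obtain ⟨t1, t2, t3⟩ := hTBR _ _ _ e n C.σ _ Λ hx.gb hx.fb hx.il
  choose rep hr1 hr2 using fun y : J C.σ => (t1 (n + 1) y).1 (t2 (n + 1) y (by omega))
  obtain ⟨M0, hM1, hM2⟩ := (t1 (n + 2) 0).1 (t2 _ 0 (by omega))
  obtain ⟨x, y, hxy⟩ := hT _ u _ Λ hE.gd hu hb hTD
    (fun l y => td1_Z C.σ e n S a (pm Ψ a (lv C.W M0 (fun l => rep (y l)) l)))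
    (fun l y => td1_L C.σ e N S' a (pm Ψ a (lv C.W M0 (fun l => rep (y l)) l)))
    (fun l y y' h => by
      rw [td1_lv C.W M0 (fun l => rep (y l)) (fun l => rep (y' l)) l fun l' hl => by rw [h l' hl]]
      exact ⟨rfl, rfl⟩)
    (fun l y => ⟨(Nat.mul_le_mul_left _ (td1_cZ _ _ _ _ _ _)).trans
      ((h1 F _ C a _ hx.fb ha hMo.tr hMo.ba).trans (Nat.mul_le_mul_right _ (le_max_left _ _))),
      (td1_cL _ _ _ _ _ _ _ fun f => h2 _ _ a f hMo.tr hMo.ba).trans (le_max_right _ _)⟩)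
  choose D hD1 hD2 using fun l => (t1 n (x + y l)).1 (hxy l).1
  choose D' hD1' hD2' using fun l => (t1 n (Λ.ω - (x + y l))).1 (by rw [hE.sym]; exact (hxy l).1)
  have hS : Sr n C.σ C.W a Ψ (rep x) M0 (fun l => rep (y l)) D D' :=
    { sa := ha, sΨ := hΨ, sW := C.inv, m0 := hM1, p1 := (hr1 x).1
      d1 := by rw [(hr1 x).2.2]; push_cast; rfl
      a2 := fun l => hr1 _, d := hD1, d' := hD1'
      w := fun l => R.mk_eq.1 (by
        rw [QuotientAddGroup.mk_add, hD2, hD2', AddSubgroup.coe_sub, hx.il.ω, two_mul, add_nsmul]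
        abel)
      r := fun l => R.mk_eq.1 (by
        rw [QuotientAddGroup.mk_sub, QuotientAddGroup.mk_add, hD2, hM2, hr2, hr2,
          AddSubgroup.coe_add, AddSubgroup.coe_zero]
        simp only [add_nsmul, one_nsmul, two_nsmul]
        abel) }
  obtain ⟨l, hl⟩ := hL _ _ C.σ C.W a b Ψ _ _ _ _ _ (Gt.ch_of_lt (by omega)) hMo hS
  obtain ⟨-, g1, g2⟩ := hxy l
  refine hl ⟨by_contra fun h => g1 (mem_filter.2 ⟨mem_univ _, D l, (hx.fb.ef _ _).2 (hD1 l),
    hD2 l, h⟩), fun G hG B Z s1 s2 s3 s4 s5 s6 => ?_, fun G hG B Z s1 s2 s3 s4 s5 s6 => ?_⟩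
  · obtain ⟨j, hj, w, w1, w2⟩ := t3 _ _ B (hD1 l) (hD2 l) s1 s2 s3
    refine (g2 (y l - w) (mem_filter.2 ⟨mem_univ _, G, hG, Z, s4, s5, .inr
      (td1_cls hx.il.e2 Z _ (deg B - (n + 1 : ℕ)) ?_)⟩) j hj).1 (by rwa [sub_sub_cancel])
    rw [← R.mk_eq.2 s6, QuotientAddGroup.mk_add, QuotientAddGroup.mk_neg, hr2, neg_sub,
      AddSubgroup.coe_sub, w1, sub_zsmul, natCast_zsmul]
    abel
  · obtain ⟨j, hj, w, w1, w2⟩ := t3 _ _ B (hD1' l) (hD2' l) s1 s2 s3
    refine (g2 (y l + w) (mem_filter.2 ⟨mem_univ _, G, hG, Z, s4, s5, .inl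
      (td1_cls hx.il.e2 Z _ (deg B + (n + 1 : ℕ)) ?_)⟩) j hj).2 (by rwa [add_sub_cancel_left])
    rw [← R.mk_eq.2 s6, QuotientAddGroup.mk_add, hr2, AddSubgroup.coe_add, w1, add_zsmul,
      natCast_zsmul]
    abel

end

section

open Polynomial Finset Module
open Pool.Agent.P.MP_6f117a_ag (Place FF)
open Pool.Agent.P.MP_ab3ecb_nt.Inv (Dv deg SA LS ev ord dv)
open Pool.Agent.P.MP_9344a7_nt.R
open Pool.Agent.P.MP_9344a7_nt.Hy hiding pt
open Pool.Agent.P.MP_9344a7_nt.Od (GD Kp Fe)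
open Pool.Agent.P.MP_9344a7_nt.Gt (pt lS Pr Can Bd Ch G12 Cv Kb)
open scoped Classical IntermediateField ComplexConjugate

theorem p_TD (hED : S_ED) (hUCX : S_UCX) (hTD1 : S_TD1) :
    S_TD := by
  intro n hn
  obtain ⟨c, p1, h1⟩ := hED n hn
  obtain ⟨a, b, u0, p2, h2⟩ := hTD1 n c hn
  refine ⟨a, b, u0, p1 + p2, fun F E _ _ _ _ _ K e σ Λ _ u hp gb fb il nh hu hq => ?_⟩
  obtain ⟨W, can, inv, cx⟩ := hUCX F E n K e σ Λ gb fb il nh
  exact h2 F ⟨E, σ, fb.fr, W, can, inv⟩ e Λ u (by omega) cx (h1 F E K e σ Λ (by omega) gb fb il nh)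
    hu hq

end

end Pool.Agent.P.MP_9344a7_nt.Ac
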