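import Pool.Agent.P.MP_9344a7_nt.Ac.IfaceU

/-! Steps UE2, TST. -/

set_option linter.unusedVariables false
set_option linter.unusedSectionVars false

namespace Pool.Agent.P.MP_9344a7_nt.Ac

section

open WithZero Module Finset Polynomial Filter
open Pool.Agent.P.MP_6f117a_ag (Place FF)
open Pool.Agent.P.MP_ab3ecb_nt.Inv
open Pool.Agent.P.MP_9344a7_nt.R (Eff J ef)
open Pool.Agent.P.MP_9344a7_nt.Hy (LD GB FB IsL)
open Pool.Agent.P.MP_9344a7_nt.Od (GD)
open Pool.Agent.P.MP_9344a7_nt.Gt (pt lS Pr Can Bd Ch G12 Cv Kb)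
open scoped Classical IntermediateField Polynomial.Bivariate

lemma ue2_dep {k E : Type} [Field k] [IsAlgClosed k] [Field E] [Algebra k E] [FF k E] {d : ℕ}
    {z : E} (hz : Bd k d z) {v : Fin (d + 1) → E} {M : Fin (d + 1) → ℕ}
    (hv : ∀ j, Bd k (M j) (v j)) :
    ¬ LinearIndependent k fun p : Fin (∑ j, M j + 2) × Fin (d + 1) => z ^ p.1.1 * v p.2 := by
  intro h
  obtain ⟨H, h0, h1, h2⟩ := hz
  choose H' a b c using hv
  have hm : ∀ p : Fin (∑ j, M j + 2) × Fin (d + 1),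
      z ^ p.1.1 * v p.2 ∈ LS ((∑ j, M j + 1) • H + ∑ j, H' j) := fun p =>
    Gt.mul_mem_LS (LS_mono (nsmul_le_nsmul_left h0 (Nat.lt_succ_iff.1 p.1.2))
      (Gt.pow_mem_LS h2 _)) (LS_mono (single_le_sum (fun j _ => a j) (mem_univ p.2)) (c p.2))
  have := R.rr_fd ((∑ j, M j + 1) • H + ∑ j, H' j)
  have h3 := (LinearIndependent.of_comp (LS _).subtype
    (v := fun p => (⟨_, hm p⟩ : LS ((∑ j, M j + 1) • H + ∑ j, H' j))) h).fintype_card_le_finrank
  have h4 := Gt.lS_le_deg (deg_nonneg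
    (add_nonneg (nsmul_nonneg h0 (∑ j, M j + 1)) (sum_nonneg fun j (_ : j ∈ univ) => a j)))
  have h5 : ∑ j, deg (H' j) ≤ ((∑ j, M j : ℕ) : ℤ) := by
    rw [Nat.cast_sum]; exact sum_le_sum fun j _ => b j
  rw [map_add, map_nsmul, map_sum, nsmul_eq_mul, lS] at h4
  rw [Fintype.card_prod, Fintype.card_fin, Fintype.card_fin] at h3
  generalize ∑ j, M j = S at *
  have h6 := mul_le_mul_of_nonneg_left h1 (Nat.cast_nonneg (S + 1) : (0 : ℤ) ≤ _)
  zify at h3
  push_cast at h4 h6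
  linarith [Int.natCast_nonneg d]

section

variable {k E : ℕ → Type} [∀ i, Field (k i)] [∀ i, IsAlgClosed (k i)] [∀ i, Field (E i)]
  [∀ i, Algebra (k i) (E i)] [∀ i, FF (k i) (E i)]
  {k' E' : Type} [Field k'] [Field E'] [Algebra k' E'] (𝒰 : U0 k E k' E')

lemma ue2_sum {ι : Type} (s : Finset ι) (c : ι → ∀ i, k i) {w : ι → ∀ i, E i}
    (hw : ∀ a, w a ∈ Bs k E) :
    ∑ a ∈ s, 𝒰.π (c a) • 𝒰.fn (w a) = 0 ↔ ∀ᶠ i in UU, ∑ a ∈ s, c a i • w a i = 0 := by
  have h := fun a => smul_mem_Bs (c a) (hw a)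
  simp only [← 𝒰.fn_smul _ (hw _)]
  rw [← 𝒰.fn_sum s h, 𝒰.fn_eq_zero (sum_mem fun a _ => h a)]
  simp only [Finset.sum_apply]

lemma ue2_lim {ι : Type} [Fintype ι] {w : ι → ∀ i, E i} (hw : ∀ a, w a ∈ Bs k E)
    (h : ∀ᶠ i in UU, ¬ LinearIndependent (k i) fun a => w a i) :
    ¬ LinearIndependent k' fun a => 𝒰.fn (w a) := by
  simp only [Fintype.not_linearIndependent_iff] at h ⊢
  obtain ⟨c, hc⟩ := Filter.skolem.1 h
  obtain ⟨a, ha⟩ := Ultrafilter.eventually_exists_iff.1 (hc.mono fun _ e => e.2)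
  exact ⟨fun a => 𝒰.π fun i => c i a, (ue2_sum 𝒰 _ _ hw).2 (hc.mono fun _ e => e.1), a,
    fun e => Ultrafilter.eventually_not.1 ha (𝒰.π_eq_zero.1 e)⟩

lemma ue2_one {z : ∀ i, E i} (hz : z ∈ Bs k E) {d : ℕ} (hd : ∀ᶠ i in UU, Bd (k i) d (z i))
    (ht : Transcendental k' (𝒰.fn z)) :
    FiniteDimensional k'⟮𝒰.fn z⟯ E' ∧ finrank k'⟮𝒰.fn z⟯ E' ≤ d := by
  have hr : Module.rank k'⟮𝒰.fn z⟯ E' ≤ d := by
    rw [← Cardinal.lt_natCast_add_one_iff, ← not_le, ← Nat.cast_succ, Module.le_rank_iff]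
    rintro ⟨w, hw⟩
    choose v hv e using fun j => 𝒰.fn_surj (w j)
    choose M hM using fun j => mem_Bs.1 (hv j)
    have hg : Transcendental k' (IntermediateField.AdjoinSimple.gen k' (𝒰.fn z)) :=
      (transcendental_algebraMap_iff (algebraMap k'⟮𝒰.fn z⟯ E').injective).1 ht
    have hp : LinearIndependent k' fun r : ℕ =>
        IntermediateField.AdjoinSimple.gen k' (𝒰.fn z) ^ r := by
      have := (basisMonomials k').linearIndependent.map'
        (aeval (IntermediateField.AdjoinSimple.gen k' (𝒰.fn z))).toLinearMap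
        (LinearMap.ker_eq_bot.2 (transcendental_iff_injective.1 hg))
      simpa [Function.comp_def] using this
    refine ue2_lim 𝒰 (w := fun p : Fin (∑ j, M j + 2) × Fin (d + 1) => z ^ p.1.1 * v p.2)
      (fun p => mul_mem (pow_mem hz _) (hv _))
      ((hd.and (eventually_all.2 hM)).mono fun i h => by
        simpa only [Pi.mul_apply, Pi.pow_apply] using ue2_dep h.1 h.2) ?_
    convert linearIndependent_smul (hp.comp _ Fin.val_injective) hw using 2 with p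
    rw [𝒰.fn_mul (pow_mem hz _) (hv _), 𝒰.fn_pow hz, e, Algebra.smul_def, Function.comp, map_pow,
      IntermediateField.AdjoinSimple.algebraMap_gen]
  exact ⟨Module.rank_lt_aleph0_iff.1 (hr.trans_lt Cardinal.natCast_lt_aleph0),
    Module.finrank_le_of_rank_le hr⟩

end

theorem p_UE2 :
    S_UE2 := by
  intro k E _ _ _ _ _ k' E' _ _ _ 𝒰
  refine ⟨fun z hz d => ue2_one 𝒰 hz, ⟨fun t ht => ?_⟩, fun z hz => ⟨fun ht => ?_, fun h => ?_⟩⟩
  · obtain ⟨z, hz, rfl⟩ := 𝒰.fn_surj t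
    obtain ⟨d, hd⟩ := mem_Bs.1 hz
    exact (ue2_one 𝒰 hz hd ht).1
  · by_contra h
    obtain ⟨c, hc⟩ := Filter.skolem.1 ((Ultrafilter.eventually_not.2 h).mono fun i e =>
      (MP_6f117a_ag.const_or_trans (L := k i) (z i)).resolve_right e)
    rw [← (𝒰.fn_inj (const_mem_Bs c) hz).2 hc, 𝒰.fn_const] at ht
    exact ht (isAlgebraic_algebraMap _)
  · rintro ⟨f, h0, hf⟩
    choose c hc using fun m => 𝒰.up.surj (f.coeff m)
    rw [aeval_eq_sum_range] at hf
    simp only [← hc, ← 𝒰.fn_pow hz] at hf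
    have h1 : ¬ ∀ᶠ i in UU, c f.natDegree i = 0 := fun e =>
      leadingCoeff_ne_zero.2 h0 ((hc _).symm.trans (𝒰.π_eq_zero.2 e))
    obtain ⟨i, a, b, e⟩ := (h.and (((ue2_sum 𝒰 _ _ fun m => pow_mem hz m).1 hf).and
      (Ultrafilter.eventually_not.2 h1))).exists
    refine a ⟨∑ m ∈ range (f.natDegree + 1), monomial m (c m i), fun e' => e ?_, ?_⟩
    · simpa [finsetSum_coeff, coeff_monomial] using congrArg (coeff · f.natDegree) e'
    · simpa only [map_sum, aeval_monomial, Algebra.smul_def, Pi.pow_apply] using b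

end

section

open WithZero Module Finset Polynomial Filter
open Pool.Agent.P.MP_6f117a_ag (Place FF)
open Pool.Agent.P.MP_ab3ecb_nt.Inv
open Pool.Agent.P.MP_9344a7_nt.R (Eff J ef)
open Pool.Agent.P.MP_9344a7_nt.Hy (LD GB FB IsL)
open Pool.Agent.P.MP_9344a7_nt.Od (GD)
open Pool.Agent.P.MP_9344a7_nt.Gt (pt lS Pr Can Bd Ch G12 Cv Kb)
open scoped Classical IntermediateField Polynomial.Bivariate

lemma tst_pop (h : S_TPOP) {q n c u v j : ℕ} {A : Type} [AddCommGroup A] [Fintype A]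
    {Λ : LD q n A} (g : GD Λ c) (hj : j ≤ n) (hq : 0 < q) (U : Finset A) (hY : #U ≤ u * q ^ j)
    (hv : 9 * c * u * v ^ 2 ≤ q) (e : A ≃+ A) :
    #{t : A | q ^ j ≤ v * #{y ∈ U | (Λ.W j).coeff (e (y - t)) ≠ 0}} ≤ 2 * u * v := by
  refine h A A U (fun t => {y ∈ U | (Λ.W j).coeff (e (y - t)) ≠ 0}) _ (q ^ j) q c u v
    (pow_pos hq j) hq hY (fun t ht => ⟨filter_subset _ _, (mem_filter.1 ht).2⟩)
    (fun t _ t' _ ne => ?_) hv
  have hb : e (t - t') ≠ 0 := fun z => ne (sub_eq_zero.1 (e.map_eq_zero_iff.1 z))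
  refine le_trans (Nat.mul_le_mul_left q ?_) (g.pair hj hb)
  refine card_le_card_of_injOn (fun y => e (y - t)) (fun y hy => ?_)
    fun y _ y' _ z => sub_left_injective (e.injective z)
  simp only [coe_inter, coe_filter, Set.mem_inter_iff, Set.mem_ofPred_eq, mem_univ,
    true_and] at hy ⊢
  refine ⟨hy.1.2, ?_⟩
  rw [← map_add, sub_add_sub_cancel]
  exact hy.2.2

lemma tst_ar {N n c β q u κ z l w Q : ℕ} (h2 : 2 ≤ u) (hb : 3 * β * (N + 1) ≤ u)
    (hc : 2 * (n + 1) * c + 1 ≤ u) (hq : u ^ (2 * (3 * (N + 1)) + 2) ≤ q) (hz : q * z ≤ β * Q)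
    (hl : l ≤ β) (hk : κ ≤ z + w) (hw : q * u ^ (3 * (N + 1)) * w ≤
      l * (u ^ (3 * (N + 1)) * (2 * (n + 1) * c * u * Q) + q * (2 * u * Q))) :
    κ * ((N + 1) * u ^ (3 * N + 1)) ≤ Q := by
  have hu : 0 < u := by omega
  have q0 : 0 < q := (pow_pos hu _).trans_le hq
  have e : u ^ (3 * (N + 1)) = u ^ (3 * N + 1) * u * u := by ring
  have h1 : u ^ (3 * (N + 1)) * u ≤ q := by
    rw [← pow_succ]
    exact (Nat.pow_le_pow_right hu (by omega)).trans hq
  generalize u ^ (3 * (N + 1)) = v at *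
  generalize u ^ (3 * N + 1) = r at *
  generalize 2 * (n + 1) * c = d at *
  have a1 : v * (d + 1) * u ≤ q * u :=
    Nat.mul_le_mul_right u ((Nat.mul_le_mul_left v hc).trans h1)
  have a2 : v + v * d * u ≤ q * u := by
    have : v ≤ v * u := Nat.le_mul_of_pos_right v hu
    nlinarith
  have a3 : q * v * κ ≤ q * (3 * β * u * Q) := calc
    q * v * κ ≤ v * (q * z) + q * v * w := by
      have := Nat.mul_le_mul_left (q * v) hk
      nlinarith
    _ ≤ v * (β * Q) + β * (v * (d * u * Q) + q * (2 * u * Q)) :=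
      Nat.add_le_add (Nat.mul_le_mul_left v hz) (hw.trans (Nat.mul_le_mul_right _ hl))
    _ = β * Q * (v + v * d * u) + q * (2 * β * u * Q) := by ring
    _ ≤ β * Q * (q * u) + q * (2 * β * u * Q) :=
      Nat.add_le_add_right (Nat.mul_le_mul_left _ a2) _
    _ = _ := by ring
  rw [mul_assoc] at a3
  have a4 := Nat.le_of_mul_le_mul_left a3 q0
  refine Nat.le_of_mul_le_mul_left (c := u * u) ?_ (Nat.mul_pos hu hu)
  calc u * u * (κ * ((N + 1) * r)) = (N + 1) * (v * κ) := by rw [e]; ring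
    _ ≤ (N + 1) * (3 * β * u * Q) := Nat.mul_le_mul_left _ a4
    _ = 3 * β * (N + 1) * (u * Q) := by ring
    _ ≤ u * (u * Q) := Nat.mul_le_mul_right _ hb
    _ = _ := by ring

lemma tst_fin {N q u x y g a b : ℕ} (hx : x ≤ u * q ^ a) (hy : y ≤ u * q ^ b)
    (hg : q ^ (a + b) < u * g) :
    (N + 1) * (q ^ (a + b) / ((N + 1) * u ^ (3 * N + 1))) * y ^ N * x ^ N < g ^ (N + 1) := by
  have h := Nat.div_mul_le_self (q ^ (a + b)) ((N + 1) * u ^ (3 * N + 1))
  generalize q ^ (a + b) / ((N + 1) * u ^ (3 * N + 1)) = γ at *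
  refine Nat.lt_of_mul_lt_mul_left (a := u ^ (N + 1)) ?_
  calc u ^ (N + 1) * ((N + 1) * γ * y ^ N * x ^ N)
      ≤ u ^ (N + 1) * ((N + 1) * γ * (u * q ^ b) ^ N * (u * q ^ a) ^ N) := by gcongr
    _ = γ * ((N + 1) * u ^ (3 * N + 1)) * (q ^ (a + b)) ^ N := by ring
    _ ≤ q ^ (a + b) * (q ^ (a + b)) ^ N := Nat.mul_le_mul_right _ h
    _ = (q ^ (a + b)) ^ (N + 1) := by ring
    _ < (u * g) ^ (N + 1) := Nat.pow_lt_pow_left hg (by omega)
    _ = _ := mul_pow _ _ _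

theorem p_TST (hTPOP : S_TPOP) (hTSTR : S_TSTR) (hTBAD : S_TBAD) :
    S_TST := by
  intro N
  refine ⟨3 * (N + 1) + 3, 2 * (3 * (N + 1)) + 2, fun n c β =>
    ⟨2 + 9 * c + 3 * β * (N + 1) + (2 * (n + 1) * c + 1), ?_⟩⟩
  intro q u A _ _ Λ g hu hq hT Z L hZL hβ
  have h2 : 2 ≤ u := by omega
  have u0 : 0 < u := by omega
  have q0 : 0 < q := (pow_pos u0 _).trans_le hq
  set v := u ^ (3 * (N + 1)) with hv
  have h9 : 9 * c * u * v ^ 2 ≤ q := by
    refine le_trans ?_ hq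
    calc 9 * c * u * v ^ 2 ≤ u * u * v ^ 2 := by gcongr; omega
      _ = _ := by rw [hv]; ring
  simp only [TD, not_forall, not_exists, not_and, not_or] at hT
  obtain ⟨j, j0, jn, V, U, hX, hY, hT⟩ := hT
  let f1 : A → Finset A := fun t => {y ∈ U | (Λ.W j).coeff (AddEquiv.refl A (y - t)) ≠ 0}
  let f2 : A → Finset A := fun t => {y ∈ U | (Λ.W j).coeff (AddEquiv.neg A (y - t)) ≠ 0}
  let L0 : Finset A := univ.filter (fun t => q ^ j ≤ v * #(f1 t)) ∪
    univ.filter fun t => q ^ j ≤ v * #(f2 t)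
  have hL : #L0 ≤ u ^ (3 * (N + 1) + 3) := by
    refine (card_union_le _ _).trans ((Nat.add_le_add
      (tst_pop hTPOP g jn.le q0 U hY h9 _) (tst_pop hTPOP g jn.le q0 U hY h9 _)).trans ?_)
    calc 2 * u * v + 2 * u * v = 2 * 2 * (u * v) := by ring
      _ ≤ u * u * (u * v) := by gcongr
      _ = _ := by rw [hv]; ring
  let S : ℕ → A → A × A → Prop := fun i t p =>
    Sb Λ n i (p.1 + p.2) (p.2 - t) ∨ Sb Λ n i (Λ.ω - (p.1 + p.2)) (t - p.2)
  let E : Finset (A × A) := {p ∈ V ×ˢ U | (Λ.W n).coeff (p.1 + p.2) ≠ 0 ∧ ∀ t ∈ L0, ¬ S j t p}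
  have hE : q ^ n < u * #(E.image fun p => p.1 + p.2) := by
    by_contra k
    obtain ⟨x, hx, y, hy, a1, a2, a3⟩ := hT _ L0 (not_lt.1 k) hL
    exact a1 (mem_image.2 ⟨(x, y), mem_filter.2 ⟨mem_product.2 ⟨hx, hy⟩, a2,
      fun t ht => not_or.2 (a3 t ht)⟩, rfl⟩)
  obtain ⟨G, GE, Gi, Ge⟩ := exists_subset_injOn_image_eq_of_surjOn (f := fun p : A × A => p.1 + p.2)
    (E : Set (A × A)) (E.image fun p => p.1 + p.2) (by rw [coe_image]; exact fun _ h => h)
  have GE' : ∀ p ∈ G, p ∈ V ×ˢ U ∧ (Λ.W n).coeff (p.1 + p.2) ≠ 0 ∧ ∀ t ∈ L0, ¬ S j t p :=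
    fun p hp => mem_filter.1 (GE hp)
  rw [← Ge, card_image_of_injOn Gi] at hE
  have en : n = n - j + j := by omega
  have ep : q ^ n = q ^ (n - j) * q ^ j := by rw [← pow_add, ← en]
  have hW : ∀ t, q * v * #{p ∈ G | ∃ i ≤ n, S i t p} ≤
      v * (2 * (n + 1) * c * u * q ^ n) + q * (2 * u * q ^ n) := by
    intro t
    have b1 := hTBAD q n c u j A Λ V U t g j0 jn hX hY
    have b2 : v * #{p ∈ G | S j t p} ≤ 2 * u * q ^ n := by
      by_cases ht : t ∈ L0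
      · rw [filter_eq_empty_iff.2 fun p hp => (GE' p hp).2.2 t ht]
        simp
      · simp only [L0, mem_union, mem_filter, mem_univ, true_and, not_or, not_le] at ht
        have : {p ∈ G | S j t p} ⊆ V ×ˢ (f1 t ∪ f2 t) := fun p hp => by
          obtain ⟨c1, c2⟩ := mem_filter.1 hp
          obtain ⟨c3, c4⟩ := mem_product.1 (GE' p c1).1
          refine mem_product.2 ⟨c3, mem_union.2 (c2.imp (fun k => mem_filter.2 ⟨c4, k.1⟩)
            fun k => mem_filter.2 ⟨c4, ?_⟩)⟩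
          rw [AddEquiv.neg_apply, neg_sub]
          exact k.1
        calc v * #{p ∈ G | S j t p} ≤ v * (#V * (#(f1 t) + #(f2 t))) := by
              refine Nat.mul_le_mul_left v ((card_le_card this).trans ?_)
              rw [card_product]
              exact Nat.mul_le_mul_left _ (card_union_le _ _)
          _ = #V * (v * #(f1 t) + v * #(f2 t)) := by ring
          _ ≤ u * q ^ (n - j) * (q ^ j + q ^ j) :=
            Nat.mul_le_mul hX (Nat.add_le_add ht.1.le ht.2.le)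
          _ = _ := by rw [ep]; ring
    have b3 : #{p ∈ G | ∃ i ≤ n, S i t p} ≤
        #{p ∈ V ×ˢ U | ∃ i ≤ n, i ≠ j ∧ S i t p} + #{p ∈ G | S j t p} := by
      refine le_trans (card_le_card fun p hp => ?_) (card_union_le _ _)
      obtain ⟨c1, i, c2, c3⟩ := mem_filter.1 hp
      by_cases e : i = j
      · exact mem_union_right _ (mem_filter.2 ⟨c1, e ▸ c3⟩)
      · exact mem_union_left _ (mem_filter.2 ⟨(GE' p c1).1, i, c2, e, c3⟩)
    calc _ ≤ q * v * (_ + _) := Nat.mul_le_mul_left _ b3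
      _ = v * (q * _) + q * (v * _) := by ring
      _ ≤ _ := Nat.add_le_add (Nat.mul_le_mul_left v b1) (Nat.mul_le_mul_left q b2)
  obtain ⟨x, y, hxy⟩ := hTSTR A A N (q ^ n / ((N + 1) * u ^ (3 * N + 1))) V U G
    (fun l y => {p | p.1 + p.2 ∈ Z l y ∨ ∃ t ∈ L l y, ∃ i ≤ n, S i t p})
    (fun p hp => (GE' p hp).1) (fun l y y' e => by simp only [(hZL l y y' e).1, (hZL l y y' e).2])
    (fun l y => by
      rw [Nat.le_div_iff_mul_le (by positivity)]
      refine tst_ar (n := n) (c := c) (w := ∑ t ∈ L l y, #{p ∈ G | ∃ i ≤ n, S i t p}) h2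
        (by omega) (by omega) hq (hβ l y).1 (hβ l y).2 ?_ ?_
      · refine le_trans (card_le_card (t := {p ∈ G | p.1 + p.2 ∈ Z l y} ∪
          (L l y).biUnion fun t => {p ∈ G | ∃ i ≤ n, S i t p}) fun p hp => ?_)
          ((card_union_le _ _).trans (Nat.add_le_add ?_ card_biUnion_le))
        · obtain ⟨c1, c2⟩ := mem_inter.1 hp
          exact mem_union.2 ((mem_filter.1 c1).2.imp (fun k => mem_filter.2 ⟨c2, k⟩)
            fun ⟨t, k1, k2⟩ => mem_biUnion.2 ⟨t, k1, mem_filter.2 ⟨c2, k2⟩⟩)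
        · exact card_le_card_of_injOn (fun p => p.1 + p.2) (fun p hp => (mem_filter.1 hp).2)
            (Gi.mono (by rw [coe_filter]; exact fun _ h => h.1))
      · rw [mul_sum]
        exact sum_le_card_nsmul _ _ _ fun t _ => hW t)
    (by rw [en] at hE ⊢; exact tst_fin hX hY hE)
  refine ⟨x, y, fun l => ?_⟩
  obtain ⟨c1, c2⟩ := hxy l
  simp only [mem_filter, mem_univ, true_and, not_or, not_exists, not_and, S] at c2
  exact ⟨(GE' _ c1).2.1, c2.1, c2.2⟩

end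

end Pool.Agent.P.MP_9344a7_nt.Ac
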