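import Pool.Agent.P.MP_9344a7_nt.Ac.IfaceU
import Pool.Agent.P.MP_9344a7_nt.Ac.IfaceG

/-! Steps LG0. -/

set_option linter.unusedVariables false
set_option linter.unusedSectionVars false

namespace Pool.Agent.P.MP_9344a7_nt.Ac

section

open WithZero Module Finset Polynomial Filter
open Pool.Agent.P.MP_6f117a_ag (Place FF)
open Pool.Agent.P.MP_ab3ecb_nt.Inv
open Pool.Agent.P.MP_9344a7_nt.R (Eff J ef)
open Pool.Agent.P.MP_9344a7_nt.Hy (LD GB FB IsL)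
open Pool.Agent.P.MP_9344a7_nt.Od (GD)
open Pool.Agent.P.MP_9344a7_nt.Gt (pt lS Pr Can Bd Ch G12 Cv Kb)
open scoped Classical IntermediateField Polynomial.Bivariate

theorem p_LG0 (hGSEC : S_GSEC) (hGGP : S_GGP) (hUL1 : S_UL1) (hUL2 : S_UL2) (hUAV : S_UAV) (hUK : S_UK) (hGXM : S_GXM) :
    S_LG0 := by
  intro n d hn
  obtain ⟨S, hS⟩ := uu_exh (MvPolynomial (Fin (n + 1) ⊕ Fin (n + 1))
    (Pz (Ix Unit ⊕ Fin (n + 1) × Fin (n + 1))))
  by_contra H
  simp only [not_exists, not_forall] at H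
  choose k E i1 i2 i3 i4 i5 W a b Ψ e ch mo em el ng using fun i => H _ (S i) i
  obtain ⟨k', E', _, _, _, _, _, _, 𝒰, W', hW, HK⟩ := hUK k E n d W a b Ψ ch mo
  obtain ⟨F, _, _, _, C, X, -, xW⟩ := HK Unit (fun i _ => W i) () _ (fun _ => rfl) rfl
  obtain ⟨-, -, -, u4, -⟩ := hUL1 k E k' E' 𝒰
  obtain ⟨v, v2, -⟩ := hUL2 k E k' E' 𝒰
  obtain ⟨s1, -⟩ := hGSEC n _ F k' E' C X hn
  have eB : ∀ m, (fun i => e i m) ∈ Bs k E := fun m =>
    (v _ _ hW).2.1 _ (.of_forall fun i => em i m)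
  choose M hM using fun m => (s1 _).1 (xW ▸ ((v _ _ hW).1 _ (eB m)).2 (.of_forall fun i => em i m))
  have uM : IsUnit (Matrix.of M) := Matrix.linearIndependent_rows_iff_isUnit.1
    (LinearIndependent.of_comp (X.sec C) (by
      rw [show X.sec C ∘ (Matrix.of M).row = fun m => 𝒰.fn fun i => e i m from funext hM]
      exact (v2 _ (fun m i => e i m) eB).2 (.of_forall el)))
  choose N hN using fun m m' => 𝒰.up.surj (M m m')
  choose x av ng using fun i =>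
    ng i (Sum.elim (pm (Ψ i) (a i) fun _ => W i) fun r => N r.1 r.2 i)
  have gp := hGGP n _ F k' E' C X hn _ (hGXM k' (n + 1) _ (Set.range (𝒰.lp fun i =>
    Sum.elim (pm (Ψ i) (a i) fun _ : Unit => W i) fun r : Fin (n + 1) × Fin (n + 1) => N r.1 r.2 i))
    (Matrix.of M) (𝒰.lp x)
    (by rintro _ ⟨r, rfl⟩; exact ⟨.inl r, rfl⟩) (fun m m' => ⟨.inr (m, m'), hN m m'⟩) uM
    (hUAV k E k' E' 𝒰.toU0 _ _ _ _ S hS (.of_forall av)))
  have sB : ∀ c : ∀ i, Fin (n + 1) → k i, (fun i => ∑ m, c i m • e i m) ∈ Bs k E ∧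
      X.sec C (Matrix.vecMul (𝒰.lp c) (Matrix.of M)) = 𝒰.fn fun i => ∑ m, c i m • e i m := by
    intro c
    have h1 := fun m => smul_mem_Bs (fun i => c i m) (eB m)
    rw [show (fun i => ∑ m, c i m • e i m) = ∑ m, fun i => c i m • e i m from
      funext fun i => (Finset.sum_apply i univ fun m i => c i m • e i m).symm]
    refine ⟨sum_mem fun m _ => h1 m, ?_⟩
    rw [𝒰.fn_sum _ h1, Matrix.vecMul_eq_sum, map_sum]
    exact sum_congr rfl fun m _ => by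
      rw [map_smul, 𝒰.fn_smul _ (eB m), ← hM]
      rfl
  obtain ⟨B1, e1⟩ := sB fun i => x i ∘ .inl
  obtain ⟨B2, e2⟩ := sB fun i => x i ∘ .inr
  replace gp : Gp n W' _ _ := xW ▸ e1 ▸ e2 ▸ gp
  simp only [Function.comp_apply] at B1 B2 gp
  generalize hz : (fun i => ∑ m, x i (.inl m) • e i m) = z at B1 gp
  generalize hw : (fun i => ∑ m, x i (.inr m) • e i m) = w at B2 gp
  have := 𝒰.ne
  have b1 := uu_all (p := fun i P => ¬ (P.v (z i) < exp (W i P) ∧ P.v (w i) < exp (W i P)))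
    fun P => by
      filter_upwards [(𝒰.lim P).v z B1, (𝒰.lim P).v w B2, hW P] with i a1 a2 a3
      rw [a1, a2, a3]
      exact gp.bpf _
  have b2 := uu_all (p := fun i (c : k i × k i) => c.1 ≠ 0 ∨ c.2 ≠ 0 → c.1 • z i + c.2 • w i ≠ 0 ∧
      2 * n ≤ #(dv (k i) (c.1 • z i + c.2 • w i) + W i).support + 1) fun c => by
    have a1 := smul_mem_Bs (fun i => (c i).1) B1
    have a2 := smul_mem_Bs (fun i => (c i).2) B2
    have a3 := add_mem a1 a2
    by_cases h : (𝒰.π fun i => (c i).1) ≠ 0 ∨ (𝒰.π fun i => (c i).2) ≠ 0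
    · obtain ⟨a4, a5⟩ := gp.sb _ _ h
      rw [← 𝒰.fn_smul _ B1, ← 𝒰.fn_smul _ B2, ← 𝒰.fn_add a1 a2] at a4 a5
      filter_upwards [Ultrafilter.eventually_not.2 (mt (𝒰.fn_eq_zero a3).2 a4),
        (u4 _ _ ((Uf.lm_dv a3).add hW)).1] with i a6 a7 _
      exact ⟨a6, a7.2 ▸ a5⟩
    · simp only [not_or, not_not, U0.π_eq_zero] at h
      filter_upwards [h.1, h.2] with i a4 a5 a6 using (a6.elim (· a4) (· a5)).elim
  obtain ⟨i, c1, c2⟩ := (b1.and b2).exists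
  subst hz hw
  exact ng i ⟨c1, fun a b => c2 (a, b)⟩

end

end Pool.Agent.P.MP_9344a7_nt.Ac
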