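import Pool.Agent.P.MP_9344a7_nt.Ac.MA1
import Pool.Agent.P.MP_9344a7_nt.Ac.MA2
import Pool.Agent.P.MP_9344a7_nt.Ac.MA3
import Pool.Agent.P.MP_9344a7_nt.Ac.MA4
import Pool.Agent.P.MP_9344a7_nt.Ac.MA5
import Pool.Agent.P.MP_9344a7_nt.Ac.MA6
import Pool.Agent.P.MP_9344a7_nt.Ac.MC1
import Pool.Agent.P.MP_9344a7_nt.Ac.MC2
import Pool.Agent.P.MP_9344a7_nt.Ac.MC3
import Pool.Agent.P.MP_9344a7_nt.Ac.MC4
import Pool.Agent.P.MP_9344a7_nt.Ac.MC5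
import Pool.Agent.P.MP_9344a7_nt.Ac.MC6
import Pool.Agent.P.MP_9344a7_nt.Ac.MC7
import Pool.Agent.P.MP_9344a7_nt.Ac.MG1
import Pool.Agent.P.MP_9344a7_nt.Ac.MG2
import Pool.Agent.P.MP_9344a7_nt.Ac.MG3
import Pool.Agent.P.MP_9344a7_nt.Ac.MG4
import Pool.Agent.P.MP_9344a7_nt.Ac.MG5
import Pool.Agent.P.MP_9344a7_nt.Ac.MG6
import Pool.Agent.P.MP_9344a7_nt.Ac.MG7
import Pool.Agent.P.MP_9344a7_nt.Ac.MU1
import Pool.Agent.P.MP_9344a7_nt.Ac.MU2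
import Pool.Agent.P.MP_9344a7_nt.Ac.MU3
import Pool.Agent.P.MP_9344a7_nt.Ac.MU4
import Pool.Agent.P.MP_9344a7_nt.Ac.MA7
import Pool.Agent.P.MP_9344a7_nt.Ac.MC8
import Pool.Agent.P.MP_9344a7_nt.Ac.MG8
import Pool.Agent.P.MP_9344a7_nt.Ac.MU5
import Pool.Agent.P.MP_9344a7_nt.Ac.MG9
import Pool.Agent.P.MP_9344a7_nt.Ac.MU6

/-! The assembly of the steps. -/

namespace Pool.Agent.P.MP_9344a7_nt.Ac

theorem a_PK3 : S_PK3 := p_PK3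
theorem a_PAR2 : S_PAR2 := p_PAR2
theorem a_TDP : S_TDP := p_TDP
theorem a_ZERO : S_ZERO := p_ZERO a_TDP
theorem a_DEG : S_DEG := p_DEG a_PK3 a_PAR2 a_ZERO
theorem a_MSF : S_MSF := p_MSF
theorem a_SPL : S_SPL := p_SPL a_PAR2
theorem a_RL1 : S_RL1 := p_RL1 a_ZERO
theorem a_EDG : S_EDG := p_EDG a_TDP a_RL1
theorem a_FT : S_FT := p_FT a_EDG
theorem a_SUB2 : S_SUB2 := p_SUB2
theorem a_RDG : S_RDG := p_RDG a_MSF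
theorem a_RDI : S_RDI := p_RDI
theorem a_RDL : S_RDL := p_RDL
theorem a_RDS : S_RDS := p_RDS
theorem a_RED2 : S_RED2 := p_RED2 a_DEG a_SPL a_FT a_SUB2 a_RDG a_RDI a_RDL a_RDS
theorem a_ADD1 : S_ADD1 := p_ADD1 a_PK3 a_DEG a_MSF a_RED2
theorem a_JMP : S_JMP := p_JMP
theorem a_LB2 : S_LB2 := p_LB2
theorem a_LB3 : S_LB3 := p_LB3 a_TDP
theorem a_LAB : S_LAB := p_LAB a_RL1 a_JMP a_LB2 a_LB3
theorem a_TU1 : S_TU1 := p_TU1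
theorem a_TUW : S_TUW := p_TUW
theorem a_TUA : S_TUA := p_TUA
theorem a_TUP : S_TUP := p_TUP a_TU1 a_TUW a_TUA
theorem a_PT1 : S_PT1 := p_PT1
theorem a_PAT : S_PAT := p_PAT a_PT1
theorem a_SGN : S_SGN := p_SGN a_PAT
theorem a_AP2 : S_AP2 := p_AP2 a_TDP
theorem a_AP3 : S_AP3 := p_AP3
theorem a_AP : S_AP := p_AP a_RL1 a_JMP a_AP2 a_AP3
theorem a_BND : S_BND := p_BND
theorem a_BOOT : S_BOOT := p_BOOT
theorem a_MM1 : S_MM1 := p_MM1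
theorem a_MOM : S_MOM := p_MOM a_MM1
theorem a_ADD2 : S_ADD2 := p_ADD2 a_PK3 a_SPL a_LAB a_TUP a_SGN a_AP a_BND a_BOOT a_MOM
theorem a_TPA : S_TPA := p_TPA
theorem a_ED1 : S_ED1 := p_ED1
theorem a_NHG : S_NHG := p_NHG a_ED1
theorem a_CLF : S_CLF := p_CLF
theorem a_ED2 : S_ED2 := p_ED2 a_CLF
theorem a_RP : S_RP := p_RP
theorem a_ED : S_ED := p_ED a_ED1 a_ED2 a_RP
theorem a_DIC : S_DIC := p_DIC
theorem a_CYC : S_CYC := p_CYC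
theorem a_GORF : S_GORF := p_GORF
theorem a_GBC : S_GBC := p_GBC a_GORF
theorem a_GBC2 : S_GBC2 := p_GBC2 a_GORF a_GBC
theorem a_GDU : S_GDU := p_GDU
theorem a_GSEC : S_GSEC := p_GSEC a_GBC
theorem a_GDS : S_GDS := p_GDS a_GSEC
theorem a_GBR : S_GBR := p_GBR
theorem a_GSB : S_GSB := p_GSB a_GDU a_GBC2 a_GSEC a_GDS a_GBR
theorem a_GNS : S_GNS := p_GNS a_GBC2 a_GSEC
theorem a_GBPF : S_GBPF := p_GBPF a_GORF a_GDU a_GBC2 a_GSEC a_GNS a_GDS a_GSB a_GBR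
theorem a_GGR : S_GGR := p_GGR a_GBC2 a_GSB a_GBR a_GBPF
theorem a_UL1 : S_UL1 := p_UL1
theorem a_UL2 : S_UL2 := p_UL2 a_UL1
theorem a_UPA : S_UPA := p_UPA
theorem a_UCP : S_UCP := p_UCP a_UL1 a_UPA
theorem a_UAV : S_UAV := p_UAV a_UPA
theorem a_GRK : S_GRK := p_GRK
theorem a_UCP0 : S_UCP0 := p_UCP0
theorem a_GCS : S_GCS := p_GCS a_GORF a_GRK a_UCP0
theorem a_UE1 : S_UE1 := p_UE1
theorem a_UE2 : S_UE2 := p_UE2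
theorem a_UE3 : S_UE3 := p_UE3
theorem a_BDF : S_BDF := p_BDF
theorem a_UE4 : S_UE4 := p_UE4 a_BDF a_UE2
theorem a_UMO : S_UMO := p_UMO a_BDF a_UE2 a_UL1 a_UL2
theorem a_GEX : S_GEX := p_GEX
theorem a_GLF : S_GLF := p_GLF
theorem a_DSC1 : S_DSC1 := p_DSC1 a_GEX a_GLF
theorem a_DSC : S_DSC := p_DSC a_GBC a_GCS a_DSC1
theorem a_UK : S_UK := p_UK a_UE1 a_UE2 a_UE3 a_UE4 a_UCP a_UMO a_DSC
theorem a_LG : S_LG := p_LG a_GGR a_UL1 a_UL2 a_UCP a_UAV a_GCS a_UK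
theorem a_USZ : S_USZ := p_USZ
theorem a_UZF : S_UZF := p_UZF
theorem a_SZD : S_SZD := p_SZD a_UCP0 a_USZ a_UZF
theorem a_UMD : S_UMD := p_UMD
theorem a_GEN : S_GEN := p_GEN a_LG a_SZD a_UMD
theorem a_MIXA : S_MIXA := p_MIXA
theorem a_XT : S_XT := p_XT
theorem a_SEP : S_SEP := p_SEP
theorem a_EMB : S_EMB := p_EMB a_SEP
theorem a_FRE : S_FRE := p_FRE a_EMB
theorem a_CHV : S_CHV := p_CHV
theorem a_RST : S_RST := p_RST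
theorem a_MON : S_MON := p_MON a_SEP a_XT
theorem a_COL : S_COL := p_COL a_CHV a_RST a_EMB a_MON
theorem a_SWP : S_SWP := p_SWP a_RST a_XT
theorem a_SUR : S_SUR := p_SUR a_SEP a_EMB
theorem a_GOU : S_GOU := p_GOU
theorem a_GRP : S_GRP := p_GRP a_COL a_SWP a_SEP a_RST a_SUR a_MON a_FRE a_GOU
theorem a_RFB : S_RFB := p_RFB a_BDF
theorem a_VEX : S_VEX := p_VEX
theorem a_DGM : S_DGM := p_DGM a_SEP
theorem a_BDX : S_BDX := p_BDX a_BDF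
theorem a_TWB : S_TWB := p_TWB
theorem a_PEL : S_PEL := p_PEL a_SEP
theorem a_PM0 : S_PM0 := p_PM0
theorem a_PMI : S_PMI := p_PMI
theorem a_PM : S_PM := p_PM a_PM0 a_PMI
theorem a_COR1 : S_COR1 := p_COR1 a_BDF a_BDX a_TWB a_PEL a_PM
theorem a_CORE : S_CORE := p_CORE a_VEX a_DGM a_COR1
theorem a_CHG : S_CHG := p_CHG a_SUR a_RFB a_CORE
theorem a_CH2 : S_CH2 := p_CH2 a_XT a_EMB a_FRE a_GRP a_CHG
theorem a_PEN : S_PEN := p_PEN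
theorem a_PNR : S_PNR := p_PNR a_PEN
theorem a_CH3 : S_CH3 := p_CH3 a_CH2 a_PNR
theorem a_MX1 : S_MX1 := p_MX1 a_CH3
theorem a_MX : S_MX := p_MX a_GEN a_MIXA a_MX1
theorem a_GOOD : S_GOOD := p_GOOD a_GEN
theorem a_MAR1 : S_MAR1 := p_MAR1
theorem a_MAR : S_MAR := p_MAR a_MAR1
theorem a_GGP : S_GGP := p_GGP a_GDU a_GRK a_GBC a_GBC2 a_GSEC a_GDS a_GBR
theorem a_GXM : S_GXM := p_GXM a_GRK
theorem a_LG0 : S_LG0 := p_LG0 a_GSEC a_GGP a_UL1 a_UL2 a_UAV a_UK a_GXM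
theorem a_GEN0 : S_GEN0 := p_GEN0 a_LG0 a_USZ a_UMD
theorem a_CH1 : S_CH1 := p_CH1 a_XT a_EMB a_MON a_FRE a_CHG
theorem a_CH0A : S_CH0A := p_CH0A a_CH1 a_PEN
theorem a_CH0B : S_CH0B := p_CH0B a_GEN0 a_CH0A
theorem a_CH0 : S_CH0 := p_CH0 a_DIC a_CYC a_GOOD a_MAR a_CH0B
theorem a_CD : S_CD := p_CD a_DIC a_CYC a_MX a_GOOD a_CH0
theorem a_UCX : S_UCX := p_UCX
theorem a_GRHO : S_GRHO := p_GRHO a_GBC2
theorem a_GABL : S_GABL := p_GABL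
theorem a_GKIL : S_GKIL := p_GKIL a_GORF a_GBC2 a_GNS a_GABL
theorem a_GRSI : S_GRSI := p_GRSI a_GSEC
theorem a_GS4 : S_GS4 := p_GS4 a_GORF a_GDU a_GBC2 a_GSEC a_GNS a_GABL a_GKIL a_GDS a_GRSI
theorem a_GLA : S_GLA := p_GLA
theorem a_GLB : S_GLB := p_GLB
theorem a_GS5 : S_GS5 := p_GS5 a_GSEC a_GLA a_GLB
theorem a_GSPX : S_GSPX := p_GSPX a_RST
theorem a_GRD : S_GRD := p_GRD
theorem a_GPEN : S_GPEN := p_GPEN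
theorem a_GRDD : S_GRDD := p_GRDD a_GRD
theorem a_GSP1 : S_GSP1 := p_GSP1 a_GBC a_GRD
theorem a_GSP2 : S_GSP2 := p_GSP2 a_GBC a_GBC2 a_GRD a_GRDD a_GSP1 a_GPEN
theorem a_GSPC : S_GSPC := p_GSPC a_GBC a_GBC2 a_GRD a_GPEN a_GSP2
theorem a_GCOL : S_GCOL := p_GCOL a_COL a_PEN a_GEX a_GLF a_GBC a_GBC2 a_GSEC a_GNS a_GBPF a_GGR
theorem a_GS6 : S_GS6 := p_GS6 a_GSEC a_GSB a_GBR a_GSPX a_GSPC a_GCOL
theorem a_GVT : S_GVT := p_GVT a_GRK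
theorem a_GS7 : S_GS7 := p_GS7 a_GRK a_GABL a_GKIL a_GBPF a_GVT a_GSPX a_GSPC
theorem a_GAN : S_GAN := p_GAN
theorem a_GS8 : S_GS8 := p_GS8 a_GDU a_GRK a_GDS a_GAN a_GVT
theorem a_GSWP : S_GSWP := p_GSWP a_SWP a_SEP a_RST a_GEX a_GLF a_GVT
theorem a_GS8B : S_GS8B := p_GS8B a_GSEC a_GDS a_GSWP
theorem a_GS9 : S_GS9 := p_GS9 a_GSEC a_GABL a_GKIL
theorem a_GST : S_GST := p_GST a_GDU a_GRK a_GBC2 a_GSEC a_GRHO a_GKIL a_GSB a_GBR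
theorem a_THG : S_THG := p_THG a_GRHO a_GS4 a_GS5 a_GS6 a_GS7 a_GS8 a_GS8B a_GS9 a_GST
theorem a_GUQ : S_GUQ := p_GUQ a_GORF a_GBC2 a_GNS a_GRHO a_GABL a_GSB a_GBR
theorem a_GCH : S_GCH := p_GCH a_GRK
theorem a_ULB : S_ULB := p_ULB a_UL1 a_UL2 a_UCP a_GCS
theorem a_LIM : S_LIM := p_LIM a_THG a_UL1 a_UL2 a_UCP0 a_UCP a_UAV a_GCS a_UK a_GUQ a_GCH a_ULB
theorem a_TBR : S_TBR := p_TBR
theorem a_TPOP : S_TPOP := p_TPOP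
theorem a_TSTR : S_TSTR := p_TSTR
theorem a_TBAD : S_TBAD := p_TBAD
theorem a_TST : S_TST := p_TST a_TPOP a_TSTR a_TBAD
theorem a_TD1 : S_TD1 := p_TD1 a_LIM a_UZF a_SZD a_UMD a_TBR a_TST
theorem a_TD : S_TD := p_TD a_ED a_UCX a_TD1
theorem a_ALL : S_ALL := p_ALL a_ADD1 a_ADD2 a_TPA a_NHG a_ED a_CD a_TD

end Pool.Agent.P.MP_9344a7_nt.Ac
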