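import Pool.Agent.P.MP_9344a7_nt.Od.All

/-! The data of a curve that is not hyperelliptic, read in its group of rational classes. -/

namespace Pool.Agent.P.MP_9344a7_nt.Ac

open Polynomial Finset
open Pool.Agent.P.MP_9344a7_nt.R
open Pool.Agent.P.MP_9344a7_nt.Hy
open Pool.Agent.P.MP_9344a7_nt.Od (GD Kp Fe)
open scoped Classical

set_option linter.unusedSectionVars false

variable {q n : ℕ} {A : Type} [AddCommGroup A] [Fintype A] (Λ : LD q n A)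

/-- `b` is the class of a part of degree `j` of an effective divisor in the class `x` of degree
`m`. -/
def Sb (m j : ℕ) (x b : A) : Prop := (Λ.W j).coeff b ≠ 0 ∧ (Λ.W (m - j)).coeff (x - b) ≠ 0

/-- The class contains one effective divisor, which is prime. -/
def Pm (m : ℕ) (x : A) : Prop :=
  (Λ.W m).coeff x = 1 ∧ ∀ j, 0 < j → j < m → ∀ b, ¬ Sb Λ m j x b

/-- The class contains one effective divisor, which is a sum of distinct rational points. -/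
def Sp (m : ℕ) (x : A) : Prop :=
  (Λ.W m).coeff x = 1 ∧ ∃ U ⊆ Λ.S, #U = m ∧ ∑ s ∈ U, s = x

/-- The elementary data. -/
structure ED (c : ℕ) : Prop where
  gd : GD Λ c
  nh : Λ.NH
  sym : ∀ x, (Λ.W n).coeff (Λ.ω - x) = (Λ.W n).coeff x
  pw : ∀ j a, (Λ.W j).coeff a ≤ 1 ∨ q ≤ (Λ.W j).coeff a
  mul : ∀ i j b, (Λ.W i * Λ.W j).coeff b ≤ 2 ^ (i + j) * (Λ.W (i + j)).coeff b
  mono : ∀ m a, ∀ s ∈ Λ.S, (Λ.W m).coeff a ≤ (Λ.W (m + 1)).coeff (a + s)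
  uf : ∀ m j x b, (Λ.W (m + 1)).coeff x = 1 → j ≤ m + 1 → Sb Λ (m + 1) j x b → ∀ s ∈ Λ.S,
    (Λ.W m).coeff (x - s) ≠ 0 →
      (0 < j ∧ Sb Λ m (j - 1) (x - s) (b - s)) ∨ (j ≤ m ∧ Sb Λ m j (x - s) b)
  clf : ∀ j, 0 < j → j < n → ∀ s,
    q * ∑ a, (Λ.W j).coeff a * (Λ.W j).coeff (s - a) ≤ c * q ^ j
  exc : ∀ m < n, ∀ s, (m = 0 → s ≠ Λ.ω) →
    q * ∑ a, (Λ.W m).coeff a * (Λ.W (2 * n - m)).coeff (a + s) ≤ c * q ^ n
  eg : ∑ a, (Λ.W (n + 1)).coeff a ^ 2 ≤ c * q ^ (n + 1)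
  rp : q ^ (n - 1) ≤ c * #{r | Pm Λ (n - 1) r}

/-- The equidistribution data, with precision `1 / M`. -/
structure CD (c M : ℕ) : Prop where
  card : M * |(#Λ.S : ℤ) - q| ≤ q
  mxp : ∀ U ⊆ Λ.S, ∀ V : Finset A, (∀ r ∈ V, (Λ.W (n - 1)).coeff r = 1) →
    M * |(n * #{p ∈ U ×ˢ V | Pm Λ n (Λ.ω - p.1 - p.2)} : ℤ) - #U * #V| ≤ q ^ n
  mxs : ∀ U ⊆ Λ.S, ∀ V : Finset A, (∀ r ∈ V, (Λ.W (n - 1)).coeff r = 1) →
    M * |(n.factorial * #{p ∈ U ×ˢ V | Sp Λ n (Λ.ω - p.1 - p.2)} : ℤ) - #U * #V| ≤ q ^ n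
  good : ∃ B : Finset A, M * #B ≤ q ^ (n - 1) ∧ ∀ r ∉ B, (Λ.W (n - 1)).coeff r = 1 →
    ∀ s ∈ Λ.S, (Λ.W n).coeff (r + s) = 1
  ch0 : q ^ n ≤ c * #{x | Pm Λ n x ∧ Pm Λ n (Λ.ω - x)}

/-- The theta divisor meets a sum of two small sets only in the obvious ways. -/
def TD (u a : ℕ) : Prop := ∀ j, 0 < j → j < n → ∀ X Y : Finset A, #X ≤ u * q ^ (n - j) →
  #Y ≤ u * q ^ j → ∃ Z L : Finset A, u * #Z ≤ q ^ n ∧ #L ≤ u ^ a ∧ ∀ x ∈ X, ∀ y ∈ Y,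
    x + y ∉ Z → (Λ.W n).coeff (x + y) ≠ 0 →
      ∃ t ∈ L, Sb Λ n j (x + y) (y - t) ∨ Sb Λ n j (Λ.ω - (x + y)) (t - y)

/-- All the data. -/
structure AD (c M u a : ℕ) : Prop where
  ed : ED Λ c
  cd : CD Λ c M
  td : TD Λ u a

variable (A) in
/-- The scale `u` is large with respect to `om A` and small with respect to `q`. -/
structure Sc (q u K : ℕ) : Prop where
  lo : K * om A ^ K ≤ u
  hi : u ^ K ≤ q

/-- The product of the factors `1 - [g]`, with `s` the sum of the elements `g`. -/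
structure Pk (P : ZA A) (s : A) : Prop where
  kp : Kp P
  val : ∀ b, P.coeff b = 0 ∨ P.coeff b = 1 ∨ P.coeff b = -1
  card : sz P = om A
  sym : ∃ ε : ℤ, (ε = 1 ∨ ε = -1) ∧ ∀ b, P.coeff (s - b) = ε * P.coeff b
  half : ∀ d, d ≠ 0 → 2 * #{b | P.coeff b ≠ 0 ∧ P.coeff (b + d) ≠ 0} ≤ om A
  fac : ∀ l : ℕ, l.Prime → l ∣ Nat.card A → ∃ (g : A) (P' : ZA A), addOrderOf g = l ∧
    P = (1 - .single g 1) * P' ∧ sz P' ≤ om A ∧ ∀ b, P'.coeff b ≠ 0 → ∃ a, b = l • a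

/-- The small multiples of `θ` avoid the support of `P`. -/
def Gap (P : ZA A) (θ : A) (C : ℕ) : Prop := θ = 0 ∨ ∀ k : ℤ, k ≠ 0 → |k| ≤ C →
  ∀ b1 b2 b3 b4, P.coeff b1 ≠ 0 → P.coeff b2 ≠ 0 → P.coeff b3 ≠ 0 → P.coeff b4 ≠ 0 →
    k • θ ≠ b1 - b2 + (b3 - b4)

/-- The mixed terms. -/
noncomputable def Phi (f : ℕ → ZA A) : ZA A := ∑ k ∈ Ioo 0 n, Λ.W (n - k) * f k

/-- The parity identity of a factor of degree `n`. -/
structure SD (P : ZA A) (s : A) (f : ℕ → ZA A) (u : ℕ) : Prop where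
  sz : ∀ k, sz (f k) ≤ u * q ^ k
  par : ∃ X : Finset A, u * #X ≤ q ^ n ∧ ∀ y ∉ X, Even ((P * Λ.W n).coeff y + (f n).coeff y +
    (f n).coeff (Λ.ω + s - y) + (Phi Λ f).coeff y)
  odd : #{y | Odd ((f n).coeff y)} ≤ om A * q ^ n

/-- The canonical tuples of rational points in general position. -/
noncomputable def Tu : Finset (Fin (2 * n) → A) :=
  {T | Function.Injective T ∧ (∀ i, T i ∈ Λ.S) ∧ ∑ i, T i = Λ.ω ∧
    ∀ I : Finset (Fin (2 * n)), #I = n → (Λ.W n).coeff (∑ i ∈ I, T i) = 1}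

variable {Λ} {c c' M M' u K K' : ℕ}

lemma gd_mono (h : GD Λ c) (e : c ≤ c') : GD Λ c' := by
  have e' : (c : ℤ) ≤ c' := by exact_mod_cast e
  obtain ⟨T, a, b, d⟩ := h.pr
  exact ⟨fun j hj => (h.e0 j hj).trans (by gcongr), fun j hj b hb => (h.e1 j hj b hb).trans
    (by gcongr), ⟨T, a.trans (by gcongr), b, fun j h1 h2 a h3 => (d j h1 h2 a h3).trans
    (by gcongr)⟩, h.nw, h.ms⟩

lemma ED.up (h : ED Λ c) (e : c ≤ c') : ED Λ c' := by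
  have e' : (c : ℤ) ≤ c' := by exact_mod_cast e
  exact ⟨gd_mono h.gd e, h.nh, h.sym, h.pw, h.mul, h.mono, h.uf, fun j a b s =>
    (h.clf j a b s).trans (by gcongr), fun m a s b => (h.exc m a s b).trans (by gcongr),
    h.eg.trans (by gcongr), h.rp.trans (by gcongr)⟩

lemma CD.up (h : CD Λ c M) (e : c ≤ c') (e' : M' ≤ M) : CD Λ c' M' := by
  have e2 : (M' : ℤ) ≤ M := by exact_mod_cast e'
  obtain ⟨B, a, b⟩ := h.good
  exact ⟨le_trans (by gcongr) h.card, fun U a V b => le_trans (by gcongr) (h.mxp U a V b),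
    fun U a V b => le_trans (by gcongr) (h.mxs U a V b), ⟨B, le_trans (by gcongr) a, b⟩,
    h.ch0.trans (by gcongr)⟩

lemma AD.up {a : ℕ} (h : AD Λ c M u a) (e' : M' ≤ M) : AD Λ c M' u a :=
  ⟨h.ed, h.cd.up le_rfl e', h.td⟩

lemma one_le_om : 1 ≤ om A := Nat.one_le_two_pow

lemma Sc.down (h : Sc A q u K) (e : K' ≤ K) : Sc A q u K' := by
  refine ⟨le_trans (Nat.mul_le_mul e (Nat.pow_le_pow_right one_le_om e)) h.lo, ?_⟩
  rcases K.eq_zero_or_pos with rfl | h0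
  · exact Nat.le_zero.1 e ▸ h.hi
  · exact le_trans (Nat.pow_le_pow_right (le_trans (Nat.mul_pos h0 (Nat.pow_pos one_le_om)) h.lo)
      e) h.hi

lemma big_down {N N' : ℕ} (h : Big A c q n N) (e : N' ≤ N) : Big A c q n N' :=
  ⟨h.cyc, h.nt, h.le, fun l a b => lt_of_le_of_lt e (h.pr l a b)⟩

end Pool.Agent.P.MP_9344a7_nt.Ac
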