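import Pool.Agent.P.MP_9344a7_nt.Ac.Base

/-! Definitions and small tools for the additive part. -/

namespace Pool.Agent.P.MP_9344a7_nt.Ac

open Polynomial Finset
open Pool.Agent.P.MP_9344a7_nt.R
open Pool.Agent.P.MP_9344a7_nt.Hy
open Pool.Agent.P.MP_9344a7_nt.Od (GD Kp Fe)
open scoped Classical

set_option linter.unusedSectionVars false

variable {q n : ℕ} {A : Type} [AddCommGroup A] [Fintype A] (Λ Λ' : LD q n A)

/-- An edge: a point, a prime of degree `n - 1`, and a prime residual divisor. -/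
def Eg (p r : A) : Prop := p ∈ Λ.S ∧ Pm Λ (n - 1) r ∧ p ≠ r ∧ Pm Λ n (Λ.ω - p - r)

/-- The degrees of the stable factors. -/
def Dgs : Prop := ∀ χ ∈ Fa A, ∀ (M : ℂ[X]) (μ : ℕ), Zc χ M → M ∣ Λ.L χ → Fe q μ M →
  μ = 0 ∨ μ = n ∨ μ = 2 * n

/-- A lift of the coefficients of `M` with small supports. -/
structure Lf (χ : AddChar A ℂ) (M : ℂ[X]) (G : ℕ → ZA A) (q K : ℕ) : Prop where
  c0 : G 0 = 1
  ev : ∀ j, ev χ (G j) = M.coeff j
  sz : ∀ j, sz (G j) ≤ K * om A * q ^ j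

/-- Two curves with a common factor of degree `n`. -/
structure Dx (P : ZA A) (s : A) (f : ℕ → ZA A) (c M u a : ℕ) : Prop where
  ad : AD Λ c M u a
  ad' : AD Λ' c M u a
  pk : Pk P s
  sd : SD Λ P s f u
  sd' : SD Λ' P s f u

/-- `τ` is a small multiple of `θ`. -/
def Nr (θ : A) (C : ℕ) (τ : A) : Prop := ∃ k : ℤ, |k| ≤ C ∧ τ = k • θ

/-- The support of `P`, moved by the small multiples of `θ`. -/
noncomputable def Rg (P : ZA A) (θ : A) (C : ℕ) : Finset A :=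
  (P.coeff.support ×ˢ Icc (-C : ℤ) C).image fun x => x.1 + x.2 • θ

/-- The point `p` has no label in `L`. -/
def Ul (L : Finset A) (p : A) : Prop := ∀ t ∈ L, p - t ∉ Λ'.S ∧ t - p ∉ Λ'.S

/-- Two entries of a canonical tuple are almost independent. -/
def Mx (M : ℕ) : Prop := ∀ i j : Fin (2 * n), i ≠ j → ∀ U ⊆ Λ.S, ∀ U' ⊆ Λ.S,
  M * |(#{T ∈ Tu Λ | T i ∈ U ∧ T j ∈ U'} : ℤ) - #U * #U' * q ^ (n - 2)| ≤ q ^ n

/-- `x` is a sum of `m` points of `U`, and `τ` is the sum of their labels. -/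
def Ms (U : Finset A) (t : A → A) (m : ℕ) (x τ : A) : Prop :=
  ∃ V : Multiset A, V.card = m ∧ (∀ p ∈ V, p ∈ U) ∧ V.sum = x ∧ (V.map t).sum = τ

/-- The points of `U` carry the sign `ε` and the labels `t`. -/
structure Lab (U : Finset A) (ε : ℤ) (t : A → A) (u a : ℕ) : Prop where
  sub : U ⊆ Λ.S
  sg : ε = 1 ∨ ε = -1
  mem : ∀ p ∈ U, ε • (p - t p) ∈ Λ'.S
  few : #(U.image t) ≤ u ^ a
  pat : u * #{T ∈ Tu Λ | (∀ i, T i ∈ U) ∧ ∑ i, t (T i) ≠ Λ.ω - ε • Λ'.ω} ≤ q ^ n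

/-- The shift attached to a sign. -/
def kap (ε : ℤ) : A := if ε = 1 then 0 else Λ'.ω

variable {Λ Λ'} {c M u a K x e : ℕ} {P : ZA A} {θ s : A}

/-! ### Scales -/

lemma Sc.om (h : Sc A q u K) (hx : x ≤ K) (he : e ≤ K) : x * om A ^ e ≤ u :=
  (Nat.mul_le_mul hx (Nat.pow_le_pow_right one_le_om he)).trans h.lo

lemma Sc.le (h : Sc A q u K) (hx : x ≤ K) : x ≤ u := by
  simpa using h.om hx (Nat.zero_le _)

lemma Sc.om1 (h : Sc A q u K) (hx : x ≤ K) (h0 : 0 < K) : x * Hy.om A ≤ u := by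
  simpa using h.om hx h0

lemma Sc.pos (h : Sc A q u K) (h0 : 0 < K) : 0 < u := h.le h0

lemma Sc.pow (h : Sc A q u K) (h0 : 0 < K) (he : e ≤ K) : u ^ e ≤ q :=
  (Nat.pow_le_pow_right (h.pos h0) he).trans h.hi

lemma Sc.uq (h : Sc A q u K) (h0 : 0 < K) : u ≤ q := by simpa using h.pow h0 h0

lemma Sc.leq (h : Sc A q u K) (hx : x ≤ K) (h0 : 0 < K) : x ≤ q := (h.le hx).trans (h.uq h0)

/-- A tiny quantity is small. -/
lemma Sc.tiny (h : Sc A q u K) (he : e < K) {y z : ℕ} (hy : q * y ≤ u ^ e * z) : u * y ≤ z := by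
  have h0 : 0 < K := by omega
  refine Nat.le_of_mul_le_mul_left ?_ (h.leq h0 h0)
  calc q * (u * y) = u * (q * y) := by ring
    _ ≤ u * (u ^ e * z) := Nat.mul_le_mul_left _ hy
    _ = u ^ (e + 1) * z := by ring
    _ ≤ q * z := Nat.mul_le_mul_right _ (h.pow h0 he)

/-- A small quantity is less than a fixed fraction. -/
lemma small_le {y z m : ℕ} (h0 : 0 < u) (hy : u * y ≤ x * z) (hm : m * x ≤ u) : m * y ≤ z := by
  refine Nat.le_of_mul_le_mul_left ?_ h0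
  calc u * (m * y) = m * (u * y) := by ring
    _ ≤ m * (x * z) := Nat.mul_le_mul_left _ hy
    _ = m * x * z := by ring
    _ ≤ u * z := Nat.mul_le_mul_right _ hm

lemma mul_card_biUnion {ι B : Type} [DecidableEq B] {I : Finset ι} {Z : ι → Finset B} {m y : ℕ}
    (hI : #I ≤ m) (h : ∀ i ∈ I, u * #(Z i) ≤ y) : u * #(I.biUnion Z) ≤ m * y := by
  refine (Nat.mul_le_mul_left _ card_biUnion_le).trans ?_
  rw [mul_sum]
  exact (sum_le_card_nsmul _ _ _ h).trans (Nat.mul_le_mul_right _ hI)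

lemma mul_card_union {B : Type} [DecidableEq B] {Z Z' : Finset B} {y y' : ℕ} (h : u * #Z ≤ y)
    (h' : u * #Z' ≤ y') : u * #(Z ∪ Z') ≤ y + y' :=
  (Nat.mul_le_mul_left _ (card_union_le _ _)).trans ((mul_add _ _ _).trans_le (add_le_add h h'))

/-! ### Characters -/

lemma fa_tr {χ ψ : AddChar A ℂ} (hχ : χ ∈ Fa A) (hψ : ψ ∈ Fa A) {y z : ZA A}
    (h : ev χ y = ev χ z) : ev ψ y = ev ψ z := by
  have := ((Hy.a_KER A χ hχ).1 ψ hψ).1 (y - z) (by rw [map_sub, h, sub_self])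
  rwa [map_sub, sub_eq_zero] at this

lemma kp_eq (hP : Kp P) {χ : AddChar A ℂ} (hχ : χ ∈ Fa A) {y z : ZA A} (h : ev χ y = ev χ z) :
    P * y = P * z := hP.eq fun _ hψ => fa_tr hχ hψ h

lemma Lf.zc {χ : AddChar A ℂ} {F : ℂ[X]} {G : ℕ → ZA A} (h : Lf χ F G q K) : Zc χ F :=
  zc_iff.2 fun i => ⟨G i, h.ev i⟩

lemma lf_ex (c n : ℕ) : ∃ K : ℕ, ∀ (q : ℕ) (A : Type) [AddCommGroup A] [Fintype A] (Λ : LD q n A),
    Big A c q n 0 → om A ≤ q → GD Λ c → ∀ χ ∈ Fa A, ∀ F : ℂ[X], Zc χ F → F.coeff 0 = 1 →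
    F ∣ Λ.L χ → ∃ G, Lf χ F G q K := by
  obtain ⟨K, h⟩ := Od.a_LF2 c n
  refine ⟨K, fun q A _ _ Λ a b d χ hχ F z f0 hF => ?_⟩
  obtain ⟨G, g0, g1, g2⟩ := h q A Λ a b d χ hχ F z f0 hF
  exact ⟨G, g0, g1, g2⟩

lemma coeff_bar (y : ZA A) (b : A) : (pu (-AddMonoidHom.id A) y).coeff b = y.coeff (-b) :=
  Od.orda_coeff y b

/-! ### Small multiples -/

lemma mem_Rg {C : ℕ} {t : A} :
    t ∈ Rg P θ C ↔ ∃ b, P.coeff b ≠ 0 ∧ ∃ k : ℤ, |k| ≤ C ∧ t = b + k • θ := by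
  simp only [Rg, mem_image, mem_product, Finsupp.mem_support_iff, mem_Icc, Prod.exists, ← abs_le]
  exact ⟨fun ⟨b, k, ⟨h1, h2⟩, h3⟩ => ⟨b, h1, k, h2, h3.symm⟩,
    fun ⟨b, h1, k, h2, h3⟩ => ⟨b, k, ⟨h1, h2⟩, h3.symm⟩⟩

lemma card_Rg (hP : Kp P) (θ : A) (C : ℕ) : #(Rg P θ C) ≤ (2 * C + 1) * om A := by
  refine card_image_le.trans ?_
  rw [card_product, mul_comm, Int.card_Icc]
  exact Nat.mul_le_mul (by omega) hP.sz

lemma Gap.down {C C' : ℕ} (h : Gap P θ C) (e : C' ≤ C) : Gap P θ C' :=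
  h.imp id fun h k h0 hk => h k h0 (hk.trans (by exact_mod_cast e))

lemma Nr.up {C C' : ℕ} {τ : A} (h : Nr θ C τ) (e : C ≤ C') : Nr θ C' τ :=
  h.imp fun _ h => ⟨h.1.trans (by exact_mod_cast e), h.2⟩

lemma Nr.add {C C' : ℕ} {τ τ' : A} (h : Nr θ C τ) (h' : Nr θ C' τ') : Nr θ (C + C') (τ + τ') := by
  obtain ⟨k, a, rfl⟩ := h
  obtain ⟨k', a', rfl⟩ := h'
  exact ⟨k + k', (abs_add_le _ _).trans (by push_cast; omega), (add_zsmul _ _ _).symm⟩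

lemma Nr.neg {C : ℕ} {τ : A} (h : Nr θ C τ) : Nr θ C (-τ) := by
  obtain ⟨k, a, rfl⟩ := h
  exact ⟨-k, by rwa [abs_neg], (neg_zsmul _ _).symm⟩

lemma Nr.sum {ι : Type} {I : Finset ι} {C : ℕ} {τ : ι → A} (h : ∀ i ∈ I, Nr θ C (τ i)) :
    Nr θ (#I * C) (∑ i ∈ I, τ i) := by
  induction I using Finset.induction_on with
  | empty => exact ⟨0, by simp, by simp⟩
  | insert i I hi ih =>
    rw [sum_insert hi, card_insert_of_notMem hi, add_mul, one_mul, add_comm (_ * _)]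
    exact (h i (mem_insert_self _ _)).add (ih fun j hj => h j (mem_insert_of_mem hj))

lemma Mx.down {M' : ℕ} (h : Mx Λ M) (e : M' ≤ M) : Mx Λ M' := fun i j a U b U' d =>
  le_trans (mul_le_mul_of_nonneg_right (by exact_mod_cast e) (abs_nonneg _)) (h i j a U b U' d)

lemma Dx.down {f : ℕ → ZA A} {M' : ℕ} (h : Dx Λ Λ' P s f c M u a) (e : M' ≤ M) :
    Dx Λ Λ' P s f c M' u a := ⟨h.ad.up e, h.ad'.up e, h.pk, h.sd, h.sd'⟩

lemma mem_Tu {T : Fin (2 * n) → A} : T ∈ Tu Λ ↔ Function.Injective T ∧ (∀ i, T i ∈ Λ.S) ∧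
    ∑ i, T i = Λ.ω ∧ ∀ I : Finset (Fin (2 * n)), #I = n → (Λ.W n).coeff (∑ i ∈ I, T i) = 1 := by
  simp [Tu]

lemma card_S (Λ : LD q n A) (h : 4 ≤ q) : #Λ.S ≤ 2 * q := by
  have := Λ.hi
  omega

end Pool.Agent.P.MP_9344a7_nt.Ac
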