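import Pool.Agent.P.MP_9344a7_nt.Ac.Base

/-! Specialisations, simple branching and good pencils. -/

namespace Pool.Agent.P.MP_9344a7_nt.Ac

open WithZero Module Finset
open Pool.Agent.P.MP_6f117a_ag (Place FF)
open Pool.Agent.P.MP_ab3ecb_nt.Inv
open Pool.Agent.P.MP_9344a7_nt.Gt (pt lS Pr Can Bd Ch G12)
open scoped Classical

/-- A valuation ring with an embedding of its residue field. -/
structure Sv (Ω : Type) [Field Ω] where
  O : ValuationSubring Ω
  π : O →+* Ω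
  ker : ∀ c : O, π c = 0 ↔ O.valuation c < 1

namespace Sv

variable {Ω : Type} [Field Ω] (V : Sv Ω) {a b : Ω}

/-- The residue map. -/
noncomputable def r (c : Ω) : Ω := if h : c ∈ V.O then V.π ⟨c, h⟩ else 0

lemma r_eq (h : a ∈ V.O) : V.r a = V.π ⟨a, h⟩ := dif_pos h

@[simp] lemma r_coe (c : V.O) : V.r c = V.π c := dif_pos c.2

@[simp] lemma r_zero : V.r 0 = 0 := (V.r_coe 0).trans (map_zero _)

@[simp] lemma r_one : V.r 1 = 1 := (V.r_coe 1).trans (map_one _)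

variable {V}

lemma r_add (h : a ∈ V.O) (h' : b ∈ V.O) : V.r (a + b) = V.r a + V.r b := by
  rw [V.r_eq h, V.r_eq h', ← map_add]
  exact V.r_coe (⟨a, h⟩ + ⟨b, h'⟩)

lemma r_mul (h : a ∈ V.O) (h' : b ∈ V.O) : V.r (a * b) = V.r a * V.r b := by
  rw [V.r_eq h, V.r_eq h', ← map_mul]
  exact V.r_coe (⟨a, h⟩ * ⟨b, h'⟩)

lemma r_sub (h : a ∈ V.O) (h' : b ∈ V.O) : V.r (a - b) = V.r a - V.r b := by
  rw [V.r_eq h, V.r_eq h', ← map_sub]
  exact V.r_coe (⟨a, h⟩ - ⟨b, h'⟩)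

lemma r_sum {ι : Type} (s : Finset ι) {f : ι → Ω} (h : ∀ i, f i ∈ V.O) :
    V.r (∑ i ∈ s, f i) = ∑ i ∈ s, V.r (f i) := by
  induction s using Finset.induction_on with
  | empty => simp
  | insert i s hi ih =>
    rw [sum_insert hi, sum_insert hi, r_add (h i) (sum_mem fun i _ => h i), ih]

lemma r_eq_zero (h : a ∈ V.O) : V.r a = 0 ↔ V.O.valuation a < 1 := by
  rw [V.r_eq h, V.ker]

lemma inv_mem (h : a ∈ V.O) (h0 : V.r a ≠ 0) : a⁻¹ ∈ V.O := by
  have h1 := (V.O.valuation_le_one_iff a).2 h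
  rw [← V.O.valuation_le_one_iff, map_inv₀, le_antisymm h1 (not_lt.1 (mt (r_eq_zero h).2 h0)),
    inv_one]

lemma r_inv (h : a ∈ V.O) (h0 : V.r a ≠ 0) : V.r a⁻¹ = (V.r a)⁻¹ := by
  refine eq_inv_of_mul_eq_one_left ?_
  rw [← r_mul (inv_mem h h0) h, inv_mul_cancel₀ (by rintro rfl; exact h0 V.r_zero), r_one]

lemma inv_of_not_mem (h : a ∉ V.O) : a⁻¹ ∈ V.O ∧ V.r a⁻¹ = 0 := by
  have h1 := (V.O.mem_or_inv_mem a).resolve_left h
  exact ⟨h1, by_contra fun e => h (inv_inv a ▸ inv_mem h1 e)⟩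

end Sv

section

variable (k : Type) {E : Type} [Field k] [Field E] [Algebra k E]

/-- Every fibre of `t` has at least `d - 1` points. -/
def SBr (t : E) (d : ℕ) : Prop :=
  (∀ c : k, ∃ Z : Finset (Place k E), d ≤ #Z + 1 ∧ ∀ P ∈ Z, P.v (t - algebraMap k E c) < 1) ∧
    ∃ Z : Finset (Place k E), d ≤ #Z + 1 ∧ ∀ P ∈ Z, 1 < P.v t

variable {k}

/-- The pencil of the canonical divisors through `R` has no base point and simple branching, and
its member through `P0` is reduced. -/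
structure Gr (n : ℕ) (W R : Dv k E) (P0 : Place k E) : Prop where
  bpf : ∀ P, lS (R + pt P) = 1
  sb : ∀ H, R ≤ H → Pr (H - W) → 2 * n ≤ #H.support + 1 ∧ (H P0 ≠ 0 → 2 * n ≤ #H.support)

/-- The pencil spanned by two canonical sections has no base point and simple branching. -/
structure Gp (n : ℕ) (W : Dv k E) (x y : E) : Prop where
  bpf : ∀ P : Place k E, ¬ (P.v x < exp (W P) ∧ P.v y < exp (W P))
  sb : ∀ a b : k, a ≠ 0 ∨ b ≠ 0 → a • x + b • y ≠ 0 ∧
    2 * n ≤ #(dv k (a • x + b • y) + W).support + 1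

end

end Pool.Agent.P.MP_9344a7_nt.Ac
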