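import Pool.Agent.P.MP_9344a7_nt.Ac.BaseG
import Pool.Agent.P.MP_ab3ecb_nt.Inv.J.Wa
import Pool.Agent.P.MP_ab3ecb_nt.Inv.J.Domc
import Pool.Agent.P.MP_ab3ecb_nt.Inv.J.Base
import Pool.Agent.P.MP_ab3ecb_nt.Inv.J.Cedeg
import Pool.Agent.P.MP_ab3ecb_nt.Inv.J.Cl
import Pool.Agent.P.MP_ab3ecb_nt.Inv.J.Exta
import Pool.Agent.P.MP_ab3ecb_nt.Inv.J.Extb
import Pool.Agent.P.MP_ab3ecb_nt.Inv.J.Der
import Pool.Agent.P.MP_ab3ecb_nt.Inv.J.Dalg
import Pool.Agent.P.MP_ab3ecb_nt.Inv.J.Locd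
import Pool.Agent.P.MP_ab3ecb_nt.Inv.J.Rig
import Pool.Agent.P.MP_ab3ecb_nt.Inv.J.Orb
import Pool.Agent.P.MP_ab3ecb_nt.Inv.J.Ns
import Pool.Agent.P.MP_ab3ecb_nt.Inv.J.Trd
import Pool.Agent.P.MP_ab3ecb_nt.Inv.J.Fixe
import Pool.Agent.P.MP_ab3ecb_nt.Inv.J.Desc
import Pool.Agent.P.MP_ab3ecb_nt.Inv.J.Prin
import Pool.Agent.P.MP_ab3ecb_nt.Inv.J.Aut

/-! Generic points of a curve in characteristic zero, their velocities and specialisations. -/

namespace Pool.Agent.P.MP_9344a7_nt.Ac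

open WithZero Module Finset
open Pool.Agent.P.MP_6f117a_ag (Place FF)
open Pool.Agent.P.MP_ab3ecb_nt.Inv
open Pool.Agent.P.MP_9344a7_nt.Gt (pt lS Pr Can Bd Ch G12)
open scoped Classical

set_option linter.unusedSectionVars false

theorem j_WA : S_WA := p_WA p_RR
theorem j_EXTA : S_EXTA := p_EXTA p_CEDEG
theorem j_EXTB : S_EXTB := p_EXTB p_CEDEG
theorem j_CL : S_CL := p_CL j_EXTA j_EXTB
theorem j_LOCD : S_LOCD := p_LOCD p_DALG
theorem j_RIG : S_RIG := p_RIG p_DER j_LOCD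
theorem j_NS : S_NS := p_NS p_ORB
theorem j_FIXE : S_FIXE := p_FIXE p_DESC
theorem j_PRIN : S_PRIN := p_PRIN j_FIXE p_ORB

section acl

variable (K : Type) {k : Type} [Field K] [Field k] [Algebra K k]

/-- The elements that are algebraic over the field generated by `T`. -/
noncomputable def acl (T : Set k) : IntermediateField K k :=
  (algebraicClosure (IntermediateField.adjoin K T) k).restrictScalars K

variable {K} {T T' : Set k} {c : k}

lemma mem_acl : c ∈ acl K T ↔ IsAlgebraic (IntermediateField.adjoin K T) c :=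
  (IntermediateField.mem_restrictScalars K).trans mem_algebraicClosure_iff

instance [IsAlgClosed k] (T : Set k) : IsAlgClosed (acl K T) :=
  (algebraicClosure.isAlgClosure (IntermediateField.adjoin K T) k).isAlgClosed

lemma subset_acl (T : Set k) : T ⊆ acl K T := fun c hc =>
  mem_acl.2 (isAlgebraic_algebraMap (⟨c, IntermediateField.subset_adjoin K T hc⟩ :
    IntermediateField.adjoin K T))

lemma mem_acl_of_alg (h : IsAlgebraic (acl K T) c) : c ∈ acl K T :=
  mem_acl.2 (IsAlgebraic.restrictScalars (IntermediateField.adjoin K T)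
    (S := algebraicClosure (IntermediateField.adjoin K T) k) (A := k) (a := c) h)

lemma acl_le (h : T ⊆ acl K T') : acl K T ≤ acl K T' := fun _ hc =>
  mem_acl_of_alg ((mem_acl.1 hc).ringHom_of_comp_eq
    (IntermediateField.inclusion (IntermediateField.adjoin_le_iff.2 h)) (RingHom.id k)
    (RingHom.injective _) rfl)

lemma acl_mono (h : T ⊆ T') : acl K T ≤ acl K T' := acl_le (h.trans (subset_acl T'))

/-- The algebraic matroid. -/
noncomputable abbrev Mt (K k : Type) [Field K] [Field k] [Algebra K k] : Matroid k :=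
  AlgebraicIndependent.matroid K k

lemma acl_eq (T : Set k) : (acl K T : Set k) = (Mt K k).closure T := by
  ext c
  rw [AlgebraicIndependent.matroid_closure_eq, SetLike.mem_coe, SetLike.mem_coe, mem_acl,
    Subalgebra.mem_algebraicClosure, IntermediateField.isAlgebraic_adjoin_iff]

lemma mt_indep {ι : Type} {x : ι → k} :
    AlgebraicIndependent K x ↔ Function.Injective x ∧ (Mt K k).Indep (Set.range x) :=
  ⟨fun h => ⟨h.injective, h.to_subtype_range⟩, fun h => .of_subtype_range h.1 h.2⟩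

/-- A derivation kills the closure of a set that it kills. -/
lemma der_acl [CharZero K] (δ : Derivation K k k) (h : ∀ x ∈ T, δ x = 0) (hc : c ∈ acl K T) :
    δ c = 0 := (p_DALG K k T c).2 (mem_acl.1 hc) δ h

lemma mem_acl_of_der [CharZero K] (h : ∀ δ : Derivation K k k, (∀ x ∈ T, δ x = 0) → δ c = 0) :
    c ∈ acl K T := mem_acl.2 ((p_DALG K k T c).1 h)

/-- The values of an embedding are algebraic over one of them. -/
lemma emb_mem_acl {F : Type} [Field F] [Algebra K F] [FF K F] {t : F} (ht : Transcendental K t)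
    (y : F →ₐ[K] k) (h : y t ∈ acl K T) (w : F) : y w ∈ acl K T := by
  refine acl_le (T := {y t}) (Set.singleton_subset_iff.2 h) (mem_acl.2 ?_)
  have := FF.fin t ht
  have m : ∀ x : IntermediateField.adjoin K {t}, ((y : F →+* k).comp (algebraMap _ F)) x ∈
      IntermediateField.adjoin K {y t} := fun x => by
    rw [← Set.image_singleton, ← IntermediateField.adjoin_map]
    exact ⟨x, x.2, rfl⟩
  exact (Algebra.IsAlgebraic.isAlgebraic (R := IntermediateField.adjoin K {t}) w).ringHom_of_comp_eq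
    (RingHom.codRestrict _ _ m) (y : F →+* k) (RingHom.injective _) rfl

end acl

section geo

variable (n : ℕ) (K F k E : Type) [Field K] [Field F] [Algebra K F] [Field k] [Algebra K k]
  [Field E] [Algebra k E]

/-- A curve of genus `n + 1` that is not hyperelliptic, with a basis of canonical sections. -/
structure Cd where
  t : F
  W : Dv K F
  e : Fin (n + 1) → F
  ht : Transcendental K t
  can : Can (n + 1) W
  nh : ¬ G12 K F
  mem : ∀ m, e m ∈ LS W
  li : LinearIndependent K e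

/-- An extension of the constants. -/
structure Ex where
  j : F →+* E
  act : (k ≃ₐ[K] k) →* RingAut E
  ce : CE j act
  ext : Place K F → Place k E
  pl : (F →ₐ[K] k) → Place k E
  cl : Cl ce ext pl

variable {n K F k E} (C : Cd n K F) (X : Ex K F k E)

/-- The canonical coordinates of a generic point. -/
def Cd.co (y : F →ₐ[K] k) : Fin (n + 1) → k := fun m => y (C.e m)

namespace Ex

/-- Constant divisors. -/
noncomputable def up : Dv K F →+ Dv k E := Finsupp.mapDomain.addMonoidHom X.ext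

lemma up_eq (D : Dv K F) : X.up D = D.mapDomain X.ext := rfl

@[simp] lemma up_pt (P : Place K F) : X.up (pt P) = pt (X.ext P) := Finsupp.mapDomain_single

@[simp] lemma deg_up (D : Dv K F) : deg (X.up D) = deg D := deg_map _ _

@[simp] lemma up_ext (D : Dv K F) (P : Place K F) : X.up D (X.ext P) = D P := X.cl.map_ext D P

@[simp] lemma up_pl (D : Dv K F) (y : F →ₐ[K] k) : X.up D (X.pl y) = 0 := X.cl.map_pl D y

/-- The divisor is equivalent to a constant divisor. -/
def Cst (Z : Dv k E) : Prop := ∃ D : Dv K F, Pr (Z - X.up D)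

section

variable {X} [IsAlgClosed k] [FF k E] {Z Z' : Dv k E}

lemma Cst.add (h : X.Cst Z) (h' : X.Cst Z') : X.Cst (Z + Z') :=
  let ⟨D, a⟩ := h; let ⟨D', a'⟩ := h'
  ⟨D + D', by rw [map_add, add_sub_add_comm]; exact a.add a'⟩

lemma Cst.neg (h : X.Cst Z) : X.Cst (-Z) :=
  let ⟨D, a⟩ := h; ⟨-D, by rw [map_neg, ← neg_sub']; exact a.neg⟩

lemma Cst.sub (h : X.Cst Z) (h' : X.Cst Z') : X.Cst (Z - Z') := by
  rw [sub_eq_add_neg]
  exact h.add h'.neg

lemma cst_up (D : Dv K F) : X.Cst (X.up D) := ⟨D, by rw [sub_self]; exact R.Prin.zero⟩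

lemma cst_of_pr (h : Pr Z) : X.Cst Z := ⟨0, by rwa [map_zero, sub_zero]⟩

end

/-- The divisor of a finite family of generic points. -/
noncomputable def gs {ι : Type} [Fintype ι] (y : ι → F →ₐ[K] k) : Dv k E := ∑ i, pt (X.pl (y i))

/-- The canonical section with coordinates `c`. -/
noncomputable def sec : (Fin (n + 1) → k) →ₗ[k] E := Fintype.linearCombination k (X.j ∘ C.e)

lemma sec_eq (c : Fin (n + 1) → k) : X.sec C c = ∑ m, c m • X.j (C.e m) := rfl

/-- The divisor of a canonical section. -/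
noncomputable def zd (c : Fin (n + 1) → k) : Dv k E := dv k (X.sec C c) + X.up C.W

/-- The divisor minus its generic points. -/
noncomputable def br (H : Dv k E) : Dv k E :=
  H - ∑ Q ∈ H.support with Q ∈ Set.range X.pl, pt Q

/-- The local parameter at a generic point. -/
def lp (t : F) (y : F →ₐ[K] k) : E := X.j t - algebraMap k E (y t)

/-- The derivative of a section at one of its zeros. -/
noncomputable def wt (c : Fin (n + 1) → k) (y : F →ₐ[K] k) : k :=
  ev (X.pl y) (X.sec C c / X.lp C.t y)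

/-- The points of `A` are algebraic over `T`. -/
def Rt (t : F) (T : Set k) (A : Dv k E) : Prop := ∀ y, A (X.pl y) ≠ 0 → y t ∈ acl K T

/-- The residue theorem at generic points. -/
structure Rho (ρ : (F →ₐ[K] k) → k) : Prop where
  ne : ∀ y, ρ y ≠ 0
  eqv : ∀ (τ : k ≃ₐ[K] k) y, ρ ((τ : k →ₐ[K] k).comp y) = τ (ρ y)
  res : ∀ (ι : Type) [Fintype ι] (y : ι → F →ₐ[K] k), Function.Injective y →
    ∀ z ∈ LS (X.up C.W + X.gs y), ∑ i, ρ (y i) * ev (X.pl (y i)) (z * X.lp C.t (y i)) = 0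

/-- The velocity of a divisor. -/
noncomputable def vel (ρ : (F →ₐ[K] k) → k) (δ : Derivation K k k) :
    Dv k E →+ (Fin (n + 1) → k) :=
  Finsupp.liftAddHom fun Q => zmultiplesHom _ (if h : ∃ y, X.pl y = Q then
    (δ (h.choose C.t) * ρ h.choose) • C.co h.choose else 0)

variable (ρ : (F →ₐ[K] k) → k) (δ : Derivation K k k)

lemma vel_pl (y : F →ₐ[K] k) (a : ℤ) :
    X.vel C ρ δ (Finsupp.single (X.pl y) a) = (a * δ (y C.t) * ρ y) • C.co y := by
  have h : ∃ y', X.pl y' = X.pl y := ⟨y, rfl⟩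
  rw [vel, Finsupp.liftAddHom_apply_single, dif_pos h, X.cl.pl_inj h.choose_spec,
    zmultiplesHom_apply, ← Int.cast_smul_eq_zsmul k, smul_smul, mul_assoc]

lemma vel_ext (P : Place K F) (a : ℤ) : X.vel C ρ δ (Finsupp.single (X.ext P) a) = 0 := by
  rw [vel, Finsupp.liftAddHom_apply_single, dif_neg fun ⟨y, h⟩ => X.cl.ne P y h.symm]
  simp

@[simp] lemma vel_up (D : Dv K F) : X.vel C ρ δ (X.up D) = 0 := by
  induction D using Finsupp.induction_linear with
  | zero => simp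
  | add a b ha hb => rw [map_add, map_add, ha, hb, add_zero]
  | single P a => rw [up_eq, Finsupp.mapDomain_single, vel_ext]

lemma vel_gs {ι : Type} [Fintype ι] (y : ι → F →ₐ[K] k) :
    X.vel C ρ δ (X.gs y) = ∑ i, (δ (y i C.t) * ρ (y i)) • C.co (y i) := by
  simp [gs, vel_pl]

/-- A derivation that kills the points of a divisor does not move it. -/
lemma vel_eq_zero {A : Dv k E} (h : ∀ y, A (X.pl y) ≠ 0 → δ (y C.t) = 0) :
    X.vel C ρ δ A = 0 := by
  rw [← A.sum_single, Finsupp.sum, map_sum]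
  refine sum_eq_zero fun Q hQ => ?_
  rcases X.cl.all Q with ⟨P, rfl⟩ | ⟨y, rfl⟩
  · exact X.vel_ext C ρ δ P _
  · rw [vel_pl, h y (Finsupp.mem_support_iff.1 hQ), mul_zero, zero_mul, zero_smul]

lemma vel_add_der (δ' : Derivation K k k) (A : Dv k E) :
    X.vel C ρ (δ + δ') A = X.vel C ρ δ A + X.vel C ρ δ' A := by
  induction A using Finsupp.induction_linear with
  | zero => simp
  | add a b ha hb => rw [map_add, map_add, map_add, ha, hb, add_add_add_comm]
  | single Q a =>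
    rcases X.cl.all Q with ⟨P, rfl⟩ | ⟨y, rfl⟩
    · simp only [vel_ext, add_zero]
    · simp only [vel_pl, Derivation.add_apply, mul_add, add_mul, add_smul]

lemma vel_smul_der (b : k) (A : Dv k E) : X.vel C ρ (b • δ) A = b • X.vel C ρ δ A := by
  induction A using Finsupp.induction_linear with
  | zero => simp
  | add a b ha hb => rw [map_add, map_add, ha, hb, smul_add]
  | single Q a =>
    rcases X.cl.all Q with ⟨P, rfl⟩ | ⟨y, rfl⟩
    · simp only [vel_ext, smul_zero]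
    · simp only [vel_pl, Derivation.smul_apply, smul_smul, smul_eq_mul]
      congr 1
      ring

variable (V : Sv k)

/-- `Q'` is the specialisation of `Q`. -/
def Spz (Q Q' : Place k E) : Prop := ∀ w, Q'.v (X.j w) ≤ 1 →
  Q.v (X.j w) ≤ 1 ∧ ev Q (X.j w) ∈ V.O ∧ V.r (ev Q (X.j w)) = ev Q' (X.j w)

/-- The specialisation map. -/
structure Spm (sp : Place k E → Place k E) : Prop where
  spz : ∀ Q, X.Spz V Q (sp Q)
  uniq : ∀ Q Q', X.Spz V Q Q' → Q' = sp Q
  ext : ∀ P, sp (X.ext P) = X.ext P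
  pl : ∀ y : F →ₐ[K] k, (∀ w, y w ∈ V.O) → ∃ y', sp (X.pl y) = X.pl y'
  pl' : ∀ y y', sp (X.pl y) = X.pl y' → ∀ w, y w ∈ V.O ∧ V.r (y w) = y' w

/-- `z'` is the reduction of `z`. -/
def Rd (z z' : E) : Prop := ∃ f : F →₀ k, (∀ w, f w ∈ V.O) ∧ z = f.sum (fun w c => c • X.j w) ∧
  z' = f.sum fun w c => V.r c • X.j w

/-- The reductions of a space of functions. -/
def Red (U : Submodule k E) : Submodule k E := Submodule.span k {z' | ∃ z ∈ U, X.Rd V z z'}

end Ex

/-- The residue map is the identity on `T`. -/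
def Sv.Fx (V : Sv k) (T : Set k) : Prop := ∀ c ∈ T, c ∈ V.O ∧ V.r c = c

/-- A generic canonical divisor, half of which is the sum of two independent divisors. -/
structure St where
  y : Fin n ⊕ Fin n → F →ₐ[K] k
  c : Fin (n + 1) → k
  n1 : ℕ
  n2 : ℕ
  x : Fin n1 ⊕ Fin n2 → k
  δ : Fin n1 ⊕ Fin n2 → Derivation K k k
  A1 : Dv k E
  A2 : Dv k E
  inj : Function.Injective y
  gen : Gen C.t (y ∘ .inl)
  c0 : c ≠ 0
  div : X.zd C c = X.gs y
  ind : AlgebraicIndependent K x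
  dual : ∀ s s', δ s (x s') = if s = s' then 1 else 0
  p1 : 0 ≤ A1
  p2 : 0 ≤ A2
  l1 : lS A1 = 1
  l2 : lS A2 = 1
  r1 : X.Rt C.t (Set.range (x ∘ .inl)) A1
  r2 : X.Rt C.t (Set.range (x ∘ .inr)) A2
  g1 : ∀ s, ∃ y, A1 (X.pl y) ≠ 0 ∧ y C.t = x (.inl s)
  g2 : ∀ s, ∃ y, A2 (X.pl y) ≠ 0 ∧ y C.t = x (.inr s)
  rel : X.Cst (X.gs (y ∘ .inl) - A1 - A2)

namespace St

variable {C X} (S : St C X) (ρ : (F →ₐ[K] k) → k)

/-- Exchange of the two summands. -/
def swap : St C X :=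
  { S with
    n1 := S.n2, n2 := S.n1, x := S.x ∘ Sum.swap, δ := S.δ ∘ Sum.swap, A1 := S.A2, A2 := S.A1
    ind := S.ind.comp _ Sum.swap_leftInverse.injective
    dual := fun s s' => (S.dual _ _).trans (if_congr Sum.swap_leftInverse.injective.eq_iff rfl rfl)
    p1 := S.p2, p2 := S.p1, l1 := S.l2, l2 := S.l1, r1 := S.r2, r2 := S.r1, g1 := S.g2, g2 := S.g1
    rel := by rw [sub_right_comm]; exact S.rel }

/-- The first field. -/
noncomputable def k1 : IntermediateField K k := acl K (Set.range (S.x ∘ .inl))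

/-- The second field. -/
noncomputable def k2 : IntermediateField K k := acl K (Set.range (S.x ∘ .inr))

/-- The canonical images of the points. -/
def Φ (i : Fin n ⊕ Fin n) : Fin (n + 1) → k := ρ (S.y i) • C.co (S.y i)

/-- The weights. -/
noncomputable def w (i : Fin n ⊕ Fin n) : k := ρ (S.y i) * X.wt C S.c (S.y i)

/-- The velocities of the first points. -/
def ξ (s : Fin S.n1 ⊕ Fin S.n2) (i : Fin n) : k := S.δ s (S.y (.inl i) C.t)

/-- The velocities of the divisor. -/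
noncomputable def lam (s : Fin S.n1 ⊕ Fin S.n2) : Fin (n + 1) → k := ∑ i, S.ξ s i • S.Φ ρ (.inl i)

/-- The first tangent space. -/
noncomputable def L1 : Submodule k (Fin (n + 1) → k) :=
  Submodule.span k (Set.range (S.lam ρ ∘ .inl))

/-- The second tangent space. -/
noncomputable def L2 : Submodule k (Fin (n + 1) → k) :=
  Submodule.span k (Set.range (S.lam ρ ∘ .inr))

lemma swap_L1 : S.swap.L1 ρ = S.L2 ρ := rfl

lemma swap_L2 : S.swap.L2 ρ = S.L1 ρ := rfl

lemma swap_k1 : S.swap.k1 = S.k2 := rfl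

lemma swap_Φ : S.swap.Φ ρ = S.Φ ρ := rfl

/-- First and second order relations. -/
structure So : Prop where
  w0 : ∀ i, S.w ρ i ≠ 0
  rsi : ∀ m m', ∑ i, (S.w ρ i)⁻¹ * S.Φ ρ i m * S.Φ ρ i m' = 0
  il : LinearIndependent k (S.Φ ρ ∘ .inl)
  ir : LinearIndependent k (S.Φ ρ ∘ .inr)
  perp : ∀ i, S.c ⬝ᵥ S.Φ ρ i = 0
  v1 : ∀ s, X.vel C ρ (S.δ (.inl s)) S.A1 = S.lam ρ (.inl s)
  v2 : ∀ s, X.vel C ρ (S.δ (.inr s)) S.A2 = S.lam ρ (.inr s)
  mem : ∀ s m, S.lam ρ (.inl s) m ∈ S.k1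
  orth : ∀ s s', ∑ i, S.w ρ (.inl i) * S.ξ (.inl s) i * S.ξ (.inr s') i = 0
  int : ∀ s s', ∃ N : Fin (n + 1) → k, (∀ m, N m ∈ S.k1) ∧
    ∑ i, S.w ρ (.inl i) * S.ξ (.inl s) i * S.ξ (.inl s') i = S.c ⬝ᵥ N
  top : Submodule.span k (Set.range S.ξ) = ⊤
  li : LinearIndependent k S.ξ
  card : S.n1 + S.n2 = n
  a1 : ∀ i, S.y i C.t ∈ acl K (Set.range S.x)
  a2 : ∀ s, S.x s ∈ acl K (Set.range fun i => S.y (.inl i) C.t)

/-- An automorphism over the first field that exchanges two points. -/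
def Sw (P Q : Fin n) : Prop := ∃ (τ : k ≃ₐ[K] k) (a : k), (∀ z ∈ S.k1, τ z = z) ∧ a ≠ 0 ∧
  (∀ m, τ (a * S.c m) = a * S.c m) ∧ (τ : k →ₐ[K] k).comp (S.y (.inl P)) = S.y (.inr Q) ∧
    ∀ i, i ≠ P → (τ : k →ₐ[K] k).comp (S.y (.inl i)) = S.y (.inl i)

/-- A specialisation that identifies two points and nothing else. -/
structure Co (V : Sv k) (P Q : Fin n) : Prop where
  fx : V.Fx (acl K {c | ∃ i, i ≠ P ∧ c = S.y (.inl i) C.t})
  mem : ∀ i w, S.y i w ∈ V.O
  eq : ∀ w, V.r (S.y (.inl P) w) = V.r (S.y (.inr Q) w)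
  ne : ∀ i i', (∀ w, V.r (S.y i w) = V.r (S.y i' w)) →
    i = i' ∨ (i = .inl P ∧ i' = .inr Q) ∨ (i = .inr Q ∧ i' = .inl P)

/-- The pencil in which two points are exchanged. -/
structure Pe (V : Sv k) (P Q : Fin n) (T : Set k) (a s : k) (c1 c2 : Fin (n + 1) → k) : Prop where
  le : S.k1 ≤ acl K T
  sub : ∀ z ∈ acl K T, z ∈ V.O
  a0 : a ≠ 0
  eq : a • S.c = c1 + s • c2
  m1 : ∀ m, c1 m ∈ acl K T
  m2 : ∀ m, c2 m ∈ acl K T
  tr : s ∉ acl K T
  nP : c2 ⬝ᵥ C.co (S.y (.inl P)) ≠ 0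
  nQ : c2 ⬝ᵥ C.co (S.y (.inr Q)) ≠ 0

end St

end geo

end Pool.Agent.P.MP_9344a7_nt.Ac
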