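import Pool.Agent.P.MP_9344a7_nt.Ac.BaseT
import Pool.Agent.P.MP_9344a7_nt.Ac.BaseC

/-! Limits of function fields of bounded genus along an ultrafilter. -/

namespace Pool.Agent.P.MP_9344a7_nt.Ac

open WithZero Module Finset Polynomial Filter
open Pool.Agent.P.MP_6f117a_ag (Place FF)
open Pool.Agent.P.MP_ab3ecb_nt.Inv
open Pool.Agent.P.MP_9344a7_nt.R (Eff)
open Pool.Agent.P.MP_9344a7_nt.Tor (IsUP)
open Pool.Agent.P.MP_9344a7_nt.Gt (pt lS Pr Can Bd Ch G12)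
open scoped Classical IntermediateField Polynomial.Bivariate

set_option linter.unusedSectionVars false

/-! ### Models, coordinates and general position -/

/-- Integer polynomials in the parameters. -/
abbrev Pz (ι : Type) : Type := MvPolynomial ι ℤ

instance cnt_mv (κ R : Type) [Countable κ] [CommRing R] [Countable R] :
    Countable (MvPolynomial κ R) :=
  (AddMonoidAlgebra.coeffEquiv (R := R) (M := κ →₀ ℕ)).injective.countable

instance cnt_poly (R : Type) [CommRing R] [Countable R] : Countable R[X] :=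
  ((AddMonoidAlgebra.coeffEquiv (R := R) (M := ℕ)).injective.comp toFinsupp_injective).countable

/-- The names of the parameters. -/
abbrev Ix (μ : Type) : Type := ℕ × ℕ ⊕ μ × ℕ

lemma root_mem_acl {K k : Type} [Field K] [Field k] [Algebra K k] {T : Set k} {f : k[X]} {c : k}
    (h0 : f ≠ 0) (h : ∀ m, f.coeff m ∈ acl K T) (hc : f.IsRoot c) : c ∈ acl K T := by
  obtain ⟨g, rfl⟩ := (lifts_iff_coeff_lifts (f := algebraMap (acl K T) k) f).2 fun m =>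
    ⟨⟨_, h m⟩, rfl⟩
  exact mem_acl_of_alg ⟨g, fun e => h0 (by simp [e]), by simpa [aeval_def, eval_map] using hc⟩

section fin

variable {k E ι κ μ : Type} [Field k] [Field E] [Algebra k E]

/-- Substitution of the parameters. -/
noncomputable def sb (p : ι → k) : Pz ι →+* k := MvPolynomial.eval₂Hom (Int.castRingHom k) p

/-- `x` satisfies none of the relations of `S`. -/
def Av (S : Finset (MvPolynomial κ (Pz ι))) (p : ι → k) (x : κ → k) : Prop :=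
  ∀ G ∈ S, MvPolynomial.map (sb p) G ≠ 0 → MvPolynomial.eval₂ (sb p) x G ≠ 0

/-- The polynomial whose roots are the values of `a` on `D`. -/
noncomputable def cp (a : E) (D : Dv k E) : k[X] := D.prod fun P c => (X - C (ev P a)) ^ c.toNat

/-- The coordinates of a divisor of degree `m`. -/
noncomputable def cc (m : ℕ) (a : E) (D : Dv k E) : Fin m → k := fun i => (cp a D).coeff i

/-- The values of `a` on `D` are roots of `G`. -/
def Zr (G : (Pz ι)[X]) (p : ι → k) (a : E) (D : Dv k E) : Prop :=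
  G.map (sb p) ≠ 0 ∧ ∀ P ∈ D.support, G.eval₂ (sb p) (ev P a) = 0

/-- The parameters of a plane model and of a family of divisors. -/
noncomputable def pm (Ψ : k[X][Y]) (a : E) (Z : μ → Dv k E) : Ix μ → k :=
  Sum.elim (fun r => (Ψ.coeff r.1).coeff r.2) fun r => (cp a (Z r.1)).coeff r.2

/-- A curve that is not hyperelliptic, with a plane model of bounded degree. -/
structure Mo (n d : ℕ) (W : Dv k E) (a b : E) (Ψ : k[X][Y]) : Prop where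
  can : Can (n + 1) W
  pos : 0 ≤ W
  nh : ¬ G12 k E
  tr : Transcendental k a
  ba : Bd k d a
  bb : Bd k d b
  mon : Ψ.Monic
  dg : Ψ.natDegree ≤ d
  cf : ∀ i, (Ψ.coeff i).natDegree ≤ d
  eq : aevalAeval a b Ψ = 0
  top : k⟮a, b⟯ = ⊤

/-- A star of decompositions. -/
structure Sr (n : ℕ) (σ : SA k E) (W : Dv k E) (a : E) (Ψ : k[X][Y]) (A1 M0 : Dv k E)
    (A2 D D' : Fin (n + 2) → Dv k E) : Prop where
  sa : σ.s a = a
  sΨ : ∀ r s, σ.s0 ((Ψ.coeff r).coeff s) = (Ψ.coeff r).coeff s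
  sW : σ.dm W = W
  m0 : M0 ∈ Eff σ.pl (n + 2)
  p1 : 0 ≤ A1
  d1 : deg A1 = n + 1
  a2 : ∀ l, A2 l ∈ Eff σ.pl (n + 1)
  d : ∀ l, D l ∈ Eff σ.pl n
  d' : ∀ l, D' l ∈ Eff σ.pl n
  w : ∀ l, Pr (D l + D' l - W)
  r : ∀ l, Pr (D l + M0 - A1 - A2 l)

/-- The divisors that are known at level `l`. -/
noncomputable def lv {N : ℕ} (W M0 : Dv k E) (A2 : Fin N → Dv k E) (l : ℕ) :
    Bool ⊕ Fin N → Dv k E :=
  Sum.elim (fun b => if b then W else M0) fun l' => if l'.1 < l then A2 l' else 0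

/-- No invariant part `B` of `D` has `A + B` in a class of small complexity. -/
def Nl (σ : SA k E) (S : Finset (Pz ι)[X]) (N : ℕ) (p : ι → k) (a : E) (A D : Dv k E) : Prop :=
  ∀ G ∈ S, ∀ B Z : Dv k E, σ.dm B = B → 0 ≤ B → B ≤ D → Zr G p a Z → (∀ P, |Z P| ≤ N) →
    ¬ Pr (A + B - Z)

/-- An effective divisor is a sum of points. -/
lemma eff_sum (m : ℕ) : ∀ D : Dv k E, 0 ≤ D → deg D = m →
    ∃ Q : Fin m → Place k E, D = ∑ i, pt (Q i) := by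
  induction m with
  | zero => exact fun D h e => ⟨Fin.elim0, by simpa using eq_zero_of_deg h e⟩
  | succ m ih =>
    intro D h e
    obtain ⟨P, hP⟩ : D.support.Nonempty :=
      Finsupp.support_nonempty_iff.2 (by rintro rfl; simp at e; omega)
    obtain ⟨Q, hQ⟩ := ih (D - pt P) (sub_nonneg.2 fun Q => by
      rcases eq_or_ne Q P with rfl | e'
      · simpa using Int.add_one_le_of_lt (lt_of_le_of_ne (h Q) (Finsupp.mem_support_iff.1 hP).symm)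
      · exact (Gt.pt_ne e').trans_le (h Q)) (by simp [e])
    exact ⟨Fin.cons P Q, by simp [Fin.sum_univ_succ, ← hQ]⟩

lemma dm_of_eff [IsAlgClosed k] [FF k E] {σ : SA k E} {m : ℕ} {A : Dv k E} (h : A ∈ Eff σ.pl m) :
    σ.dm A = A :=
  R.dm_eq.2 h.2.1

end fin

/-! ### The ultrafilter -/

/-- The ultrafilter. -/
noncomputable abbrev UU : Ultrafilter ℕ := hyperfilter ℕ

lemma uu_ge (m : ℕ) : ∀ᶠ i in UU, m ≤ i := Nat.hyperfilter_le_atTop (eventually_ge_atTop m)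

lemma uu_exh (α : Type) [Countable α] : ∃ S : ℕ → Finset α, ∀ G, ∀ᶠ i in UU, G ∈ S i := by
  obtain ⟨f, hf⟩ := exists_injective_nat α
  refine ⟨fun i => ((Set.finite_Iic i).preimage hf.injOn).toFinset, fun G => ?_⟩
  filter_upwards [uu_ge (f G)] with i hi using by simpa using hi

lemma uu_all {α : ℕ → Type} [∀ i, Nonempty (α i)] {p : ∀ i, α i → Prop}
    (h : ∀ x : ∀ i, α i, ∀ᶠ i in UU, p i (x i)) : ∀ᶠ i in UU, ∀ x, p i x := by
  by_contra e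
  obtain ⟨x, hx⟩ := Filter.skolem.1 ((Ultrafilter.eventually_not.2 e).mono fun _ => not_forall.1)
  exact Ultrafilter.eventually_not.1 hx (h x)

lemma uu_fin {α : Type} {S : Finset α} {f : ℕ → α} (h : ∀ᶠ i in UU, f i ∈ S) :
    ∃ c ∈ S, ∀ᶠ i in UU, f i = c :=
  (Ultrafilter.eventually_exists_mem_iff S.finite_toSet (P := fun c i => f i = c)).1
    (h.mono fun _ hi => ⟨_, hi, rfl⟩)

lemma uu_le {f : ℕ → ℕ} {N : ℕ} (h : ∀ᶠ i in UU, f i ≤ N) : ∃ c ≤ N, ∀ᶠ i in UU, f i = c := by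
  simpa using uu_fin (S := Iic N) (h.mono fun _ => mem_Iic.2)

section lim

variable (k E : ℕ → Type) [∀ i, Field (k i)] [∀ i, Field (E i)] [∀ i, Algebra (k i) (E i)]
  (k' E' : Type) [Field k'] [Field E'] [Algebra k' E']

/-- Sequences of functions of bounded degree. -/
def Bs : Subring (∀ i, E i) where
  carrier := {z | ∃ N, ∀ᶠ i in UU, Bd (k i) N (z i)}
  mul_mem' := fun ⟨_, h⟩ ⟨_, h'⟩ => ⟨_, (h.and h').mono fun _ e => e.1.mul e.2⟩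
  add_mem' := fun ⟨_, h⟩ ⟨_, h'⟩ => ⟨_, (h.and h').mono fun _ e => e.1.add e.2⟩
  neg_mem' := fun ⟨_, h⟩ => ⟨_, h.mono fun _ e => e.neg⟩
  one_mem' := ⟨0, .of_forall fun i => by simpa using Bd.const (E := E i) 0 (1 : k i)⟩
  zero_mem' := ⟨0, .of_forall fun i => by simpa using Bd.const (E := E i) 0 (0 : k i)⟩

/-- The limit field. -/
structure U0 where
  π : (∀ i, k i) →+* k'
  up : IsUP UU π
  fh : Bs k E →+* E'
  ker : ∀ z, fh z = 0 ↔ ∀ᶠ i in UU, z.1 i = 0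
  surj : Function.Surjective fh
  const : ∀ c h, fh ⟨fun i => algebraMap (k i) (E i) (c i), h⟩ = algebraMap k' E' (π c)

variable {k E k' E'}

lemma mem_Bs {z : ∀ i, E i} : z ∈ Bs k E ↔ ∃ N, ∀ᶠ i in UU, Bd (k i) N (z i) := Iff.rfl

lemma const_mem_Bs (c : ∀ i, k i) : (fun i => algebraMap (k i) (E i) (c i)) ∈ Bs k E :=
  ⟨0, .of_forall fun _ => Bd.const 0 _⟩

lemma smul_mem_Bs (c : ∀ i, k i) {z : ∀ i, E i} (h : z ∈ Bs k E) :
    (fun i => c i • z i) ∈ Bs k E := by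
  simp only [Algebra.smul_def]
  exact mul_mem (const_mem_Bs c) h

namespace U0

variable (𝒰 : U0 k E k' E') {z z' : ∀ i, E i} {c c' : ∀ i, k i}

/-- The limit of a sequence of functions. -/
noncomputable def fn (z : ∀ i, E i) : E' := if h : z ∈ Bs k E then 𝒰.fh ⟨z, h⟩ else 0

/-- The limit of a sequence of tuples of constants. -/
def lp {ι : Type} (p : ∀ i, ι → k i) : ι → k' := fun r => 𝒰.π fun i => p i r

/-- `Q` is the limit of the places `P i`. -/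
structure Pl (P : ∀ i, Place (k i) (E i)) (Q : Place k' E') : Prop where
  v : ∀ z ∈ Bs k E, ∀ᶠ i in UU, (P i).v (z i) = Q.v (𝒰.fn z)
  ev : ∀ z ∈ Bs k E, ev Q (𝒰.fn z) = 𝒰.π fun i => ev (P i) (z i)

lemma fn_eq (h : z ∈ Bs k E) : 𝒰.fn z = 𝒰.fh ⟨z, h⟩ := dif_pos h

@[simp] lemma fn_coe (z : Bs k E) : 𝒰.fn z = 𝒰.fh z := dif_pos z.2

lemma π_eq_zero : 𝒰.π c = 0 ↔ ∀ᶠ i in UU, c i = 0 := 𝒰.up.ker c

lemma π_eq : 𝒰.π c = 𝒰.π c' ↔ ∀ᶠ i in UU, c i = c' i := by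
  rw [← sub_eq_zero, ← map_sub, π_eq_zero]
  simp only [Pi.sub_apply, sub_eq_zero]

lemma sb_lp {ι : Type} (p : ∀ i, ι → k i) (G : Pz ι) :
    sb (𝒰.lp p) G = 𝒰.π fun i => sb (p i) G :=
  DFunLike.congr_fun (MvPolynomial.ringHom_ext' (f := sb (𝒰.lp p))
    (g := 𝒰.π.comp (RingHom.pi fun i => sb (p i))) (RingHom.ext_int _ _) fun r => by
      simp only [sb, MvPolynomial.eval₂Hom_X', RingHom.comp_apply]
      exact congrArg 𝒰.π (funext fun i => (MvPolynomial.eval₂Hom_X' _ _ _).symm)) G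

lemma fn_const (c : ∀ i, k i) :
    𝒰.fn (fun i => algebraMap (k i) (E i) (c i)) = algebraMap k' E' (𝒰.π c) :=
  (𝒰.fn_eq (const_mem_Bs c)).trans (𝒰.const c _)

lemma fn_surj (w : E') : ∃ z ∈ Bs k E, 𝒰.fn z = w :=
  let ⟨z, h⟩ := 𝒰.surj w; ⟨z, z.2, (𝒰.fn_coe z).trans h⟩

@[simp] lemma fn_zero : 𝒰.fn 0 = 0 := (𝒰.fn_coe 0).trans (map_zero _)

@[simp] lemma fn_one : 𝒰.fn 1 = 1 := (𝒰.fn_coe 1).trans (map_one _)

lemma fn_add (h : z ∈ Bs k E) (h' : z' ∈ Bs k E) : 𝒰.fn (z + z') = 𝒰.fn z + 𝒰.fn z' := by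
  rw [𝒰.fn_eq h, 𝒰.fn_eq h', ← map_add]
  exact 𝒰.fn_coe (⟨z, h⟩ + ⟨z', h'⟩)

lemma fn_mul (h : z ∈ Bs k E) (h' : z' ∈ Bs k E) : 𝒰.fn (z * z') = 𝒰.fn z * 𝒰.fn z' := by
  rw [𝒰.fn_eq h, 𝒰.fn_eq h', ← map_mul]
  exact 𝒰.fn_coe (⟨z, h⟩ * ⟨z', h'⟩)

lemma fn_sub (h : z ∈ Bs k E) (h' : z' ∈ Bs k E) : 𝒰.fn (z - z') = 𝒰.fn z - 𝒰.fn z' := by
  rw [𝒰.fn_eq h, 𝒰.fn_eq h', ← map_sub]
  exact 𝒰.fn_coe (⟨z, h⟩ - ⟨z', h'⟩)

lemma fn_pow (h : z ∈ Bs k E) (m : ℕ) : 𝒰.fn (z ^ m) = 𝒰.fn z ^ m := by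
  rw [𝒰.fn_eq h, ← map_pow]
  exact 𝒰.fn_coe (⟨z, h⟩ ^ m)

lemma fn_smul (c : ∀ i, k i) (h : z ∈ Bs k E) : 𝒰.fn (fun i => c i • z i) = 𝒰.π c • 𝒰.fn z := by
  simp only [Algebra.smul_def]
  rw [← 𝒰.fn_const]
  exact 𝒰.fn_mul (const_mem_Bs c) h

lemma fn_sum {ι : Type} (s : Finset ι) {f : ι → ∀ i, E i} (h : ∀ a, f a ∈ Bs k E) :
    𝒰.fn (∑ a ∈ s, f a) = ∑ a ∈ s, 𝒰.fn (f a) := by
  induction s using Finset.induction_on with
  | empty => simp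
  | insert a s ha ih =>
    rw [sum_insert ha, sum_insert ha, 𝒰.fn_add (h a) (sum_mem fun a _ => h a), ih]

lemma fn_eq_zero (h : z ∈ Bs k E) : 𝒰.fn z = 0 ↔ ∀ᶠ i in UU, z i = 0 := by
  rw [𝒰.fn_eq h, 𝒰.ker]

lemma fn_inj (h : z ∈ Bs k E) (h' : z' ∈ Bs k E) :
    𝒰.fn z = 𝒰.fn z' ↔ ∀ᶠ i in UU, z i = z' i := by
  rw [← sub_eq_zero, ← 𝒰.fn_sub h h', 𝒰.fn_eq_zero (sub_mem h h')]
  simp only [Pi.sub_apply, sub_eq_zero]

end U0

variable (k E k' E') in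
/-- The limit field with its places. -/
structure Uf extends U0 k E k' E' where
  ne : ∀ i, Nonempty (Place (k i) (E i))
  pl : (∀ i, Place (k i) (E i)) → Place k' E'
  lim : ∀ P, toU0.Pl P (pl P)
  inj : ∀ P Q, pl P = pl Q → ∀ᶠ i in UU, P i = Q i
  all : Function.Surjective pl

namespace Uf

variable (𝒰 : Uf k E k' E') {z : ∀ i, E i} {P Q : ∀ i, Place (k i) (E i)}
  {D D1 : ∀ i, Dv (k i) (E i)} {D' D1' : Dv k' E'}

/-- `D'` is the limit of the divisors `D i`. -/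
def Lm (D : ∀ i, Dv (k i) (E i)) (D' : Dv k' E') : Prop :=
  ∀ P : ∀ i, Place (k i) (E i), ∀ᶠ i in UU, D i (P i) = D' (𝒰.pl P)

lemma ord_fn (h : z ∈ Bs k E) (P) : ∀ᶠ i in UU, ord (P i) (z i) = ord (𝒰.pl P) (𝒰.fn z) :=
  ((𝒰.lim P).v z h).mono fun _ e => by rw [ord, e, ord]

lemma pl_eq : 𝒰.pl P = 𝒰.pl Q ↔ ∀ᶠ i in UU, P i = Q i :=
  ⟨𝒰.inj P Q, fun h => place_ext fun w _ => by
    obtain ⟨z, hz, rfl⟩ := 𝒰.fn_surj w
    obtain ⟨i, a, b, c⟩ := (h.and ((𝒰.ord_fn hz P).and (𝒰.ord_fn hz Q))).exists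
    rw [← b, ← c, a]⟩

lemma lm_pt (P) : 𝒰.Lm (fun i => pt (P i)) (pt (𝒰.pl P)) := fun Q => by
  by_cases h : 𝒰.pl Q = 𝒰.pl P
  · filter_upwards [𝒰.pl_eq.1 h] with i e using by simp [h, e]
  · filter_upwards [Ultrafilter.eventually_not.2 (mt 𝒰.pl_eq.2 h)] with i e
    rw [Gt.pt_ne e, Gt.pt_ne h]

lemma lm_zero : 𝒰.Lm (fun _ => 0) 0 := fun _ => .of_forall fun _ => rfl

variable {𝒰}

lemma Lm.add (h : 𝒰.Lm D D') (h' : 𝒰.Lm D1 D1') : 𝒰.Lm (fun i => D i + D1 i) (D' + D1') :=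
  fun P => ((h P).and (h' P)).mono fun _ e => by rw [Finsupp.add_apply, e.1, e.2]; rfl

lemma Lm.neg (h : 𝒰.Lm D D') : 𝒰.Lm (fun i => -D i) (-D') :=
  fun P => (h P).mono fun _ e => by rw [Finsupp.neg_apply, e]; rfl

lemma Lm.sub (h : 𝒰.Lm D D') (h' : 𝒰.Lm D1 D1') : 𝒰.Lm (fun i => D i - D1 i) (D' - D1') :=
  fun P => ((h P).and (h' P)).mono fun _ e => by rw [Finsupp.sub_apply, e.1, e.2]; rfl

lemma Lm.zsmul (h : 𝒰.Lm D D') (c : ℤ) : 𝒰.Lm (fun i => c • D i) (c • D') :=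
  fun P => (h P).mono fun _ e => by rw [Finsupp.smul_apply, e]; rfl

lemma Lm.congr (h : 𝒰.Lm D D') (e : ∀ᶠ i in UU, D i = D1 i) : 𝒰.Lm D1 D' :=
  fun P => ((h P).and e).mono fun _ e => e.2 ▸ e.1

lemma lm_sum {ι : Type} (s : Finset ι) {D : ι → ∀ i, Dv (k i) (E i)} {D' : ι → Dv k' E'}
    (h : ∀ a, 𝒰.Lm (D a) (D' a)) : 𝒰.Lm (fun i => ∑ a ∈ s, D a i) (∑ a ∈ s, D' a) := by
  induction s using Finset.induction_on with
  | empty => exact 𝒰.lm_zero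
  | insert a s ha ih => simpa only [sum_insert ha] using (h a).add ih

lemma Lm.le_iff (h : 𝒰.Lm D D') (h' : 𝒰.Lm D1 D1') : D' ≤ D1' ↔ ∀ᶠ i in UU, D i ≤ D1 i := by
  have := 𝒰.ne
  refine ⟨fun e => uu_all (p := fun i P => D i P ≤ D1 i P) fun P =>
    ((h P).and (h' P)).mono fun _ a => a.1 ▸ a.2 ▸ e _, fun e => 𝒰.all.forall.2 fun P => ?_⟩
  obtain ⟨i, a, b, c⟩ := (e.and ((h P).and (h' P))).exists
  exact b ▸ c ▸ a _

lemma Lm.eq_iff (h : 𝒰.Lm D D') (h' : 𝒰.Lm D1 D1') : D' = D1' ↔ ∀ᶠ i in UU, D i = D1 i := by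
  simp only [le_antisymm_iff, h.le_iff h', h'.le_iff h, eventually_and]

lemma Lm.nonneg (h : 𝒰.Lm D D') : 0 ≤ D' ↔ ∀ᶠ i in UU, 0 ≤ D i := 𝒰.lm_zero.le_iff h

variable [∀ i, IsAlgClosed (k i)] [∀ i, FF (k i) (E i)] [IsAlgClosed k'] [FF k' E']

lemma lm_dv (h : z ∈ Bs k E) : 𝒰.Lm (fun i => dv (k i) (z i)) (dv k' (𝒰.fn z)) := fun P => by
  simpa only [dv_apply] using 𝒰.ord_fn h P

end Uf

end lim

end Pool.Agent.P.MP_9344a7_nt.Ac
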