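import Pool.Agent.P.MP_9344a7_nt.Ac.BaseA

/-! The steps of the additive part. -/

namespace Pool.Agent.P.MP_9344a7_nt.Ac

open Polynomial Finset
open Pool.Agent.P.MP_9344a7_nt.R
open Pool.Agent.P.MP_9344a7_nt.Hy
open Pool.Agent.P.MP_9344a7_nt.Od (GD Kp Fe)
open scoped Classical

/-! ### Parity -/

-- deps:
def S_PK3 : Prop := ∀ C : ℕ, ∃ N : ℕ, ∀ (A : Type) [AddCommGroup A] [Fintype A], IsAddCyclic A →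
  (∀ l, l.Prime → l ∣ Nat.card A → N < l) → ∀ θ : A, ∃ (P : ZA A) (s : A), Pk P s ∧ Gap P θ C

-- deps:
def S_PAR2 : Prop := ∀ (q n K : ℕ) (A : Type) [AddCommGroup A] [Fintype A] (Λ : LD q n A)
  (P : ZA A) (F B : ℂ[X]) (G G' : ℕ → ZA A), 0 < q → 0 < n → Kp P → ∀ χ ∈ Fa A, Λ.L χ = F * B →
  Lf χ F G q K → Lf χ B G' q K → ∃ X : Finset A, q * #X ≤ n * K ^ 2 * om A ^ 3 * q ^ n ∧
    ∀ y ∉ X, Even ((P * Λ.W n).coeff y + (P * G n).coeff y + (P * G' n).coeff y +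
      (Phi Λ fun k => P * G k).coeff y)

-- imports: Pool.Agent.P.MP_9344a7_nt.Ac.BaseB
-- deps:
def S_TDP : Prop := ∀ (q n c u a : ℕ) (A : Type) [AddCommGroup A] [Fintype A] (Λ Λ' : LD q n A)
  (f : ℕ → ZA A) (w : A) (η : ℤ), c ≤ u → ED Λ c → TD Λ u a → GD Λ' c →
  (∀ k, sz (f k) ≤ u * q ^ k) → (η = 1 ∨ η = -1) → ∃ Z L : Finset A, u * #Z ≤ n * q ^ n ∧
    #L ≤ n * u ^ a ∧ ∀ x ∉ Z, Pm Λ n (Λ.ω - x) → ∀ k, 0 < k → k < n → ∀ b,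
      (Λ'.W (n - k)).coeff b ≠ 0 → (f k).coeff (w + η • x - b) ≠ 0 →
        ∃ t ∈ L, Sb Λ n k x (x - η • (b - t))

-- imports: Pool.Agent.P.MP_9344a7_nt.Ac.BaseB
-- deps: TDP
def S_ZERO : Prop := ∀ c n a : ℕ, ∃ K : ℕ, ∀ (q u : ℕ) (A : Type) [AddCommGroup A] [Fintype A]
  (Λ : LD q n A) (f : ℕ → ZA A) (w : A), Sc A q u K → ED Λ c → TD Λ u a →
  (∀ k, sz (f k) ≤ u * q ^ k) →
    u * #{x | Pm Λ n (Λ.ω - x) ∧ (Phi Λ f).coeff (w - x) ≠ 0} ≤ K * q ^ n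

-- imports: Pool.Agent.P.MP_9344a7_nt.Ac.BaseB
-- deps: ZERO
def S_RL1 : Prop := ∀ c n a : ℕ, ∃ K : ℕ, ∀ (q u : ℕ) (A : Type) [AddCommGroup A] [Fintype A]
  (Λ : LD q n A) (P : ZA A) (s : A) (f : ℕ → ZA A) (t : A), Sc A q u K → ED Λ c → TD Λ u a →
  Pk P s → SD Λ P s f u → ∃ Z : Finset A, u * #Z ≤ K * q ^ n ∧ ∀ x ∉ Z, Pm Λ n (Λ.ω - x) →
    Even ((Phi Λ f).coeff (x + t)) ∧
      Even ((f n).coeff (x + t) + (f n).coeff (Λ.ω + s - (x + t)) + P.coeff t)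

-- imports: Pool.Agent.P.MP_9344a7_nt.Ac.BaseB
-- deps: TDP RL1
def S_EDG : Prop := ∀ c n a : ℕ, 2 ≤ n → ∃ K : ℕ, ∀ (q u : ℕ) (A : Type) [AddCommGroup A]
  [Fintype A] (Λ : LD q n A) (P : ZA A) (s : A) (f : ℕ → ZA A) (t : A), Sc A q u K → ED Λ c →
  TD Λ u a → Pk P s → SD Λ P s f u → ∃ Z : Finset A, u * #Z ≤ K * q ^ n ∧ ∀ p r, Eg Λ p r →
    p + r ∉ Z → Even ((f 1).coeff (p + t) + (f (n - 1)).coeff (r + t))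

-- imports: Pool.Agent.P.MP_9344a7_nt.Ac.BaseB
-- deps: PK3 PAR2 ZERO
def S_DEG : Prop := ∀ c n a : ℕ, 2 ≤ n → ∃ N K : ℕ, ∀ (q u M : ℕ) (A : Type) [AddCommGroup A]
  [Fintype A] (Λ : LD q n A), Big A c q n N → Sc A q u K → AD Λ c M u a → Dgs Λ

-- deps: PAR2
def S_SPL : Prop := ∀ c n K0 : ℕ, 0 < n → ∃ K : ℕ, ∀ (q u : ℕ) (A : Type) [AddCommGroup A]
  [Fintype A] (Λ : LD q n A) (P : ZA A) (s : A) (F : ℂ[X]) (G : ℕ → ZA A), Big A c q n 0 →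
  Sc A q u K → GD Λ c → Pk P s → ∀ χ ∈ Fa A, Fe q n F → F ∣ Λ.L χ → Lf χ F G q K0 →
    SD Λ P s (fun k => P * G k) u

/-! ### The second character is faithful -/

-- imports: Pool.Agent.P.MP_9344a7_nt.Ac.BaseB
-- deps: EDG
def S_FT : Prop := ∀ c n a E : ℕ, 2 ≤ n → ∃ M K : ℕ, ∀ (q u : ℕ) (A : Type) [AddCommGroup A]
  [Fintype A] (Λ : LD q n A) (P : ZA A) (s : A) (f : ℕ → ZA A), Sc A q u K → AD Λ c M u a →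
  Pk P s → SD Λ P s f u → ∃ S0 ⊆ Λ.S, E * #(Λ.S \ S0) ≤ q ∧ ∀ t, ∃ e : ℤ,
    u * #{p ∈ S0 | Odd ((f 1).coeff (p + t) + e)} ≤ K * q

-- imports: Pool.Agent.P.MP_9344a7_nt.Ac.BaseB
-- deps:
def S_SUB2 : Prop := ∀ c n E : ℕ, ∃ N : ℕ, ∀ (q : ℕ) (A : Type) [AddCommGroup A] [Fintype A]
  (Λ : LD q n A) (l : ℕ) (z : A), Big A c q n N → ED Λ c → l.Prime → l ∣ Nat.card A →
    E * #{p ∈ Λ.S | ∃ a, p = z + l • a} ≤ q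

-- deps:
def S_MSF : Prop := (∀ (q μ : ℕ) (G : ℂ[X]), 0 < q → Fe q μ G → Sg q G) ∧
  ∀ (q n : ℕ) (A : Type) [AddCommGroup A] [Fintype A] (Λ : LD q n A), 0 < q → 0 < n → Dgs Λ →
  ∀ χ ∈ Fa A, ∀ (F G : ℂ[X]) (α : ℂ), Zc χ F → Fe q n F → F ∣ Λ.L χ → Zc χ G → Sg q G →
    F.eval α = 0 → G.eval α = 0 → F ∣ G

-- deps: MSF
def S_RDG : Prop := ∀ (q n l : ℕ) (A : Type) [AddCommGroup A] [Fintype A] (Λ : LD q n A)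
  (F : ℂ[X]) (G : ℕ → ZA A) (H : (ZA A)[X]), IsAddCyclic A → 0 < q → 0 < n → Dgs Λ → l.Prime →
  l ∣ Nat.card A → ∀ χ ∈ Fa A, Fe q n F → F ∣ Λ.L χ → (∀ j, ev χ (G j) = F.coeff j) →
  (∀ i b, (H.coeff i).coeff b ≠ 0 → ∃ a, b = l • a) → H.map (ev χ) ≠ 0 →
  (H.map (ev χ)).natDegree ≤ 2 * n → F ∣ H.map (ev χ) →
    #{a : A | l • a = 0} = l ∧ ∃ Δ : Finset (A ≃+ A), l ≤ 2 * #Δ + 1 ∧ AddEquiv.refl A ∈ Δ ∧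
      (∀ δ ∈ Δ, ∀ a, δ (l • a) = l • a) ∧
      (∀ δ ∈ Δ, ∀ δ' ∈ Δ, ∀ y, (¬ ∃ a : A, y = l • a) → δ y = δ' y → δ = δ') ∧
      ∀ δ ∈ Δ, ev χ (pu (δ : A →+ A) (G 1)) = ev χ (G 1)

-- deps:
def S_RDI : Prop := ∀ (A : Type) [AddCommGroup A] [Fintype A] (l : ℕ) (g : A) (P' x : ZA A)
  (δ : A ≃+ A), addOrderOf g = l → #{a : A | l • a = 0} = l → (∀ a, δ (l • a) = l • a) →
  (∀ b, P'.coeff b ≠ 0 → ∃ a, b = l • a) →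
  (1 - .single g 1) * P' * pu (δ : A →+ A) x = (1 - .single g 1) * P' * x →
    ∀ y, (P' * x).coeff (δ y) = (P' * x).coeff y

-- deps:
def S_RDL : Prop := ∀ (A : Type) [AddCommGroup A] [Fintype A] (l : ℕ) (S T : Finset A)
  (Δ : Finset (A ≃+ A)) (F : ZA A), Sid S → 2 ≤ l → #{a : A | l • a = 0} = l → l ≤ 2 * #Δ + 1 →
  (∀ δ ∈ Δ, ∀ a, δ (l • a) = l • a) →
  (∀ δ ∈ Δ, ∀ δ' ∈ Δ, ∀ y, (¬ ∃ a : A, y = l • a) → δ y = δ' y → δ = δ') →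
  (∀ δ ∈ Δ, ∀ y, F.coeff (δ y) = F.coeff y) → T ⊆ S →
  (∀ p ∈ T, ∃ y, l • (y - p) = 0 ∧ (¬ ∃ a : A, y = l • a) ∧ F.coeff y ≠ 0) →
    l * #T ^ 2 ≤ 27 * sz F ^ 2

-- deps:
def S_RDS : Prop := ∀ (A : Type) [AddCommGroup A] [Fintype A] (l : ℕ) (g p p' : A) (δ : A ≃+ A)
  (F e : A → ℤ), l.Prime → addOrderOf g = l → #{a : A | l • a = 0} = l →
  (∀ a, δ (l • a) = l • a) → (∀ y, F (δ y) = F y) → Odd (e 0) →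
  (∀ t, l • t = 0 → Even (F (p + t) - F (p + t - g) + e t)) →
  (∀ t, l • t = 0 → Even (F (p' + t) - F (p' + t - g) + e t)) → δ (p - p') = p - p'

-- deps: DEG SPL FT SUB2 RDG RDI RDL RDS
def S_RED2 : Prop := ∀ c n a K0 : ℕ, 2 ≤ n → ∃ M N K : ℕ, ∀ (q u l : ℕ) (A : Type)
  [AddCommGroup A] [Fintype A] (Λ : LD q n A) (P : ZA A) (s : A) (F : ℂ[X]) (G : ℕ → ZA A)
  (H : (ZA A)[X]), Big A c q n N → Sc A q u K → AD Λ c M u a → Pk P s → l.Prime →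
  l ∣ Nat.card A → ∀ χ ∈ Fa A, Fe q n F → F ∣ Λ.L χ → Lf χ F G q K0 →
  q ≤ 4 * #{p ∈ Λ.S | Odd ((P * G 1).coeff p)} →
  (∀ i b, (H.coeff i).coeff b ≠ 0 → ∃ a, b = l • a) → H.map (ev χ) ≠ 0 →
  (H.map (ev χ)).natDegree ≤ 2 * n → ¬ F ∣ H.map (ev χ)

-- redeps: ADD1 PK3 DEG MSF RED2

/-! ### Labels -/

-- deps:
def S_JMP : Prop := ∀ c n C K0 : ℕ, ∃ K : ℕ, ∀ (q u : ℕ) (A : Type) [AddCommGroup A] [Fintype A]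
  (Λ : LD q n A) (P : ZA A) (s θ w : A) (z : A → ℤ) (Z : A → Finset A) (X : Finset A),
  Sc A q u K → GD Λ c → Pk P s → Gap P θ (2 * C + 2) → #{y | Odd (z y)} ≤ om A * q ^ n →
  (∀ t, u * #(Z t) ≤ K0 * om A * q ^ n) →
  (∀ x ∈ X, (Λ.W n).coeff x ≠ 0 ∧ ∃ Q : A → ℤ,
    (Q = 0 ∨ ∃ τ, ¬ Nr θ (C + 1) τ ∧ ∀ t, Q t = P.coeff (t + τ)) ∧
      ∀ t ∈ Rg P θ (C + 1), x ∉ Z t → Even (z (x + t) + z (w - (x + t)) + P.coeff t) ∧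
        Even (z (x + t) + z (w - θ - (x + t)) + Q t)) → C * #X ≤ 4 * q ^ n

-- imports: Pool.Agent.P.MP_9344a7_nt.Ac.BaseB
-- deps:
def S_LB2 : Prop := ∀ (q n c u a : ℕ) (A : Type) [AddCommGroup A] [Fintype A] (Λ Λ' : LD q n A)
  (P : ZA A) (t : A), 2 ≤ n → 4 ≤ q → 2 ≤ u → c ≤ u → GD Λ c → TD Λ' u a → Kp P →
  ∃ Z L : Finset A, u * #Z ≤ om A * q ^ n ∧ #L ≤ om A * u ^ a ∧ ∀ p r, Eg Λ p r → p + r ∉ Z →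
    Ul Λ' L p → (P * Λ'.W n).coeff (p + r + t) = 0

-- imports: Pool.Agent.P.MP_9344a7_nt.Ac.BaseB
-- deps: TDP
def S_LB3 : Prop := ∀ c n a : ℕ, 2 ≤ n → ∃ K : ℕ, ∀ (q u M : ℕ) (A : Type) [AddCommGroup A]
  [Fintype A] (Λ Λ' : LD q n A) (P : ZA A) (s : A) (f : ℕ → ZA A) (t : A), Sc A q u K →
  Dx Λ Λ' P s f c M u a → ∃ Z L : Finset A, u * #Z ≤ K * q ^ n ∧ #L ≤ K * u ^ a ∧
    ∀ p r, Eg Λ p r → p + r ∉ Z → Ul Λ' L p → Even ((Phi Λ' f).coeff (p + r + t))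

-- imports: Pool.Agent.P.MP_9344a7_nt.Ac.BaseB
-- deps: RL1 JMP LB2 LB3
def S_LAB : Prop := ∀ c n a E : ℕ, 2 ≤ n → ∃ C M K : ℕ, ∀ (q u : ℕ) (A : Type) [AddCommGroup A]
  [Fintype A] (Λ Λ' : LD q n A) (P : ZA A) (s : A) (f : ℕ → ZA A), Sc A q u K →
  Dx Λ Λ' P s f c M u a → Gap P (Λ.ω - Λ'.ω) C →
    ∃ L : Finset A, #L ≤ u ^ (a + 1) ∧ E * #{p ∈ Λ.S | Ul Λ' L p} ≤ q

/-! ### Canonical tuples -/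

-- imports: Pool.Agent.P.MP_9344a7_nt.Ac.BaseB
-- deps:
def S_TU1 : Prop := ∀ (q n c : ℕ) (A ι : Type) [AddCommGroup A] [Fintype A] [Fintype ι]
  (Λ : LD q n A) (x : A) (E : Finset (ι → A)), ED Λ c → Fintype.card ι = n →
  (∀ T, T ∈ E ↔ Function.Injective T ∧ (∀ i, T i ∈ Λ.S) ∧ ∑ i, T i = x ∧ (Λ.W n).coeff x = 1) →
    #E = if Sp Λ n x then n.factorial else 0

-- imports: Pool.Agent.P.MP_9344a7_nt.Ac.BaseB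
-- deps:
def S_TUW : Prop := ∀ c n E : ℕ, 2 ≤ n → ∃ M : ℕ, ∀ (q : ℕ) (A : Type) [AddCommGroup A]
  [Fintype A] (Λ : LD q n A), M ≤ q → ED Λ c → CD Λ c M → ∀ U ⊆ Λ.S, ∀ U' ⊆ Λ.S,
    E * |(n.factorial * #{T ∈ U ×ˢ U' ×ˢ Fintype.piFinset fun _ : Fin (n - 2) => Λ.S |
      Sp Λ n (Λ.ω - T.1 - (T.2.1 + ∑ i, T.2.2 i))} : ℤ) - #U * #U' * q ^ (n - 2)| ≤ q ^ n

-- imports: Pool.Agent.P.MP_9344a7_nt.Ac.BaseB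
-- deps:
def S_TUA : Prop := ∀ c n E : ℕ, 2 ≤ n → ∃ M : ℕ, ∀ (q : ℕ) (A : Type) [AddCommGroup A]
  [Fintype A] (Λ : LD q n A), M ≤ q → ED Λ c → CD Λ c M →
    E * #{T : Fin (2 * n) → A | (∀ i, T i ∈ Λ.S) ∧ ∑ i, T i = Λ.ω ∧
      (∃ I : Finset (Fin (2 * n)), #I = n ∧ (Λ.W n).coeff (∑ i ∈ I, T i) = 1) ∧ T ∉ Tu Λ} ≤ q ^ n

-- imports: Pool.Agent.P.MP_9344a7_nt.Ac.BaseB
-- deps: TU1 TUW TUA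
def S_TUP : Prop := ∀ c n E : ℕ, 2 ≤ n → ∃ M : ℕ, ∀ (q : ℕ) (A : Type) [AddCommGroup A]
  [Fintype A] (Λ : LD q n A), M ≤ q → ED Λ c → CD Λ c M → Mx Λ E

-- imports: Pool.Agent.P.MP_9344a7_nt.Ac.BaseB
-- deps:
def S_PT1 : Prop := ∀ c n : ℕ, 2 ≤ n → ∃ K : ℕ, ∀ (q : ℕ) (A : Type) [AddCommGroup A]
  [Fintype A] (Λ Λ' : LD q n A) (I : Finset (Fin (2 * n))) (t : Fin (2 * n) → A), 0 < q →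
  ED Λ c → ED Λ' c → (I = univ → ∑ i, t i ≠ Λ.ω - Λ'.ω) → (I = ∅ → ∑ i, t i ≠ Λ.ω + Λ'.ω) →
    q * #{T ∈ Tu Λ | (∀ i ∈ I, T i - t i ∈ Λ'.S) ∧ ∀ i ∉ I, t i - T i ∈ Λ'.S} ≤ K * q ^ n

-- deps: PT1
def S_PAT : Prop := ∀ c n a : ℕ, 2 ≤ n → ∃ K : ℕ, ∀ (q u : ℕ) (A : Type) [AddCommGroup A]
  [Fintype A] (Λ Λ' : LD q n A) (L U V : Finset A) (t : A → A), Sc A q u K → ED Λ c → ED Λ' c →
  #L ≤ u ^ a → (∀ p ∈ U, t p ∈ L ∧ p - t p ∈ Λ'.S) →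
  (∀ p ∈ V, t p ∈ L ∧ t p - p ∈ Λ'.S) → u * #{T ∈ Tu Λ | (∀ i, T i ∈ U ∪ V) ∧
    ¬ ((∀ i, T i ∈ U) ∧ ∑ i, t (T i) = Λ.ω - Λ'.ω) ∧
    ¬ ((∀ i, T i ∈ V) ∧ ∑ i, t (T i) = Λ.ω + Λ'.ω)} ≤ q ^ n

-- deps: PAT
def S_SGN : Prop := ∀ c n a E : ℕ, 2 ≤ n → ∃ M K : ℕ, ∀ (q u : ℕ) (A : Type) [AddCommGroup A]
  [Fintype A] (Λ Λ' : LD q n A) (L : Finset A), Sc A q u K → ED Λ c → ED Λ' c → Mx Λ M →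
  #L ≤ u ^ a → M * #{p ∈ Λ.S | Ul Λ' L p} ≤ q →
    ∃ (U : Finset A) (ε : ℤ) (t : A → A), Lab Λ Λ' U ε t u a ∧ E * #(Λ.S \ U) ≤ q

/-! ### The labels are almost constant -/

-- imports: Pool.Agent.P.MP_9344a7_nt.Ac.BaseB
-- deps: TDP
def S_AP2 : Prop := ∀ c n a b : ℕ, ∃ K : ℕ, ∀ (q u M : ℕ) (A : Type) [AddCommGroup A]
  [Fintype A] (Λ Λ' : LD q n A) (P : ZA A) (s : A) (f : ℕ → ZA A) (U : Finset A) (ε : ℤ)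
  (t : A → A) (w : A), Sc A q u K → Dx Λ Λ' P s f c M u a → Lab Λ Λ' U ε t u b →
  ∃ Z : Finset A, u * #Z ≤ K * q ^ n ∧ ∀ x ∉ Z, Pm Λ n (Λ.ω - x) → ∀ τ, Ms U t n x τ →
    Even ((Phi Λ' f).coeff (x + w))

-- imports: Pool.Agent.P.MP_9344a7_nt.Ac.BaseB
-- deps:
def S_AP3 : Prop := ∀ c n b : ℕ, ∃ K : ℕ, ∀ (q u : ℕ) (A : Type) [AddCommGroup A]
  [Fintype A] (Λ Λ' : LD q n A) (P : ZA A) (U : Finset A) (ε : ℤ) (t : A → A) (w : A),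
  Sc A q u K → ED Λ' c → Kp P → Lab Λ Λ' U ε t u b →
  ∃ Z : Finset A, u * #Z ≤ q ^ n ∧ ∀ x ∉ Z, ∀ τ, Ms U t n x τ →
    (P * Λ'.W n).coeff (x + w) = P.coeff (w + (τ - kap Λ' ε))

-- imports: Pool.Agent.P.MP_9344a7_nt.Ac.BaseB
-- deps: RL1 JMP AP2 AP3
def S_AP : Prop := ∀ c n a b C : ℕ, ∃ K : ℕ, ∀ (q u M : ℕ) (A : Type) [AddCommGroup A]
  [Fintype A] (Λ Λ' : LD q n A) (P : ZA A) (s : A) (f : ℕ → ZA A) (U : Finset A) (ε : ℤ)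
  (t : A → A), Sc A q u K → Dx Λ Λ' P s f c M u a → Lab Λ Λ' U ε t u b →
  Gap P (Λ.ω - Λ'.ω) (2 * C + 2) → C * #{x | Pm Λ n (Λ.ω - x) ∧
    ∃ τ, Ms U t n x τ ∧ ¬ Nr (Λ.ω - Λ'.ω) (C + 1) (τ - kap Λ' ε)} ≤ 4 * q ^ n

-- imports: Pool.Agent.P.MP_9344a7_nt.Ac.BaseB
-- deps:
def S_BND : Prop := ∀ c n E : ℕ, 2 ≤ n → ∃ C M : ℕ, ∀ (q : ℕ) (A : Type) [AddCommGroup A]
  [Fintype A] (Λ : LD q n A) (U : Finset A) (t : A → A) (θ κ : A), M ≤ q → ED Λ c → CD Λ c M →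
  U ⊆ Λ.S → q ≤ 2 * #U →
  C * #{x | Pm Λ n (Λ.ω - x) ∧ ∃ τ, Ms U t n x τ ∧ ¬ Nr θ (C + 1) (τ - κ)} ≤ 4 * q ^ n →
    ∃ w, E * #{p ∈ U | ¬ Nr θ (3 * (C + 1)) (t p - w)} ≤ q

-- deps:
def S_BOOT : Prop := ∀ n E : ℕ, 2 ≤ n → ∃ M : ℕ, ∀ (q u b D : ℕ) (A : Type) [AddCommGroup A]
  [Fintype A] (Λ Λ' : LD q n A) (U : Finset A) (ε : ℤ) (t : A → A) (θ w : A), 0 < q → M ≤ u →
  Mx Λ M → Lab Λ Λ' U ε t u b → 16 * n * #{p ∈ Λ.S | ¬ (p ∈ U ∧ Nr θ D (t p - w))} ≤ q →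
    ∃ w', E * #{p ∈ U | ¬ Nr θ (2 * n * D) (t p - w')} ≤ q

-- deps:
def S_MM1 : Prop := ∀ n E D : ℕ, 2 ≤ n → ∃ M : ℕ, ∀ (q : ℕ) (A : Type) [AddCommGroup A]
  [Fintype A] (Λ : LD q n A) (k : A → ℤ) (σ : ℤ), 4 ≤ q → Mx Λ M → (∀ p, |k p| ≤ D) →
  |σ| ≤ 2 * n * D → M * #{T ∈ Tu Λ | ∑ i, k (T i) ≠ σ} ≤ q ^ n →
    ∃ k0, E * #{p ∈ Λ.S | k p ≠ k0} ≤ q

-- deps: MM1
def S_MOM : Prop := ∀ n E D : ℕ, 2 ≤ n → ∃ M N : ℕ, ∀ (q u b : ℕ) (A : Type) [AddCommGroup A]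
  [Fintype A] (Λ Λ' : LD q n A) (U : Finset A) (ε : ℤ) (t : A → A) (θ w : A), 4 ≤ q → M ≤ u →
  (∀ l, l.Prime → l ∣ Nat.card A → N < l) → Mx Λ M → Lab Λ Λ' U ε t u b →
  M * #{p ∈ Λ.S | ¬ (p ∈ U ∧ Nr θ D (t p - w))} ≤ q →
    ∃ w', E * #{p ∈ Λ.S | ¬ (p ∈ U ∧ t p = w')} ≤ q

-- redeps: ADD2 PK3 SPL LAB TUP SGN AP BND BOOT MOM

end Pool.Agent.P.MP_9344a7_nt.Ac
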