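import Pool.Agent.P.MP_9344a7_nt.Ac.BaseU
import Pool.Agent.P.MP_9344a7_nt.Ac.IfaceG

/-! From characteristic zero to finite fields of large characteristic. -/

namespace Pool.Agent.P.MP_9344a7_nt.Ac

open WithZero Module Finset Polynomial Filter
open Pool.Agent.P.MP_6f117a_ag (Place FF)
open Pool.Agent.P.MP_ab3ecb_nt.Inv
open Pool.Agent.P.MP_9344a7_nt.R (Eff J ef)
open Pool.Agent.P.MP_9344a7_nt.Hy (LD GB FB IsL)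
open Pool.Agent.P.MP_9344a7_nt.Od (GD)
open Pool.Agent.P.MP_9344a7_nt.Gt (pt lS Pr Can Bd Ch G12 Cv Kb)
open scoped Classical IntermediateField Polynomial.Bivariate

set_option linter.unusedVariables false

-- redeps: TD ED UCX TD1
-- redeps: GEN LG SZD UMD
-- redeps: GEN0 LG0 USZ UMD

/-! ### The limit field -/

-- deps:
def S_UE1 : Prop := ∀
  (k E : ℕ → Type) [∀ i, Field (k i)] [∀ i, IsAlgClosed (k i)] [∀ i, Field (E i)]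
  [∀ i, Algebra (k i) (E i)] [∀ i, FF (k i) (E i)], (∀ i, Ch (k i) i) →
    ∃ (k' E' : Type) (_ : Field k') (_ : IsAlgClosed k') (_ : CharZero k') (_ : Field E')
      (_ : Algebra k' E'), Nonempty (U0 k E k' E')

-- deps:
def S_UE2 : Prop := ∀
  (k E : ℕ → Type) [∀ i, Field (k i)] [∀ i, IsAlgClosed (k i)] [∀ i, Field (E i)]
  [∀ i, Algebra (k i) (E i)] [∀ i, FF (k i) (E i)]
  (k' E' : Type) [Field k'] [Field E'] [Algebra k' E'] (𝒰 : U0 k E k' E'),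
  (∀ z ∈ Bs k E, ∀ d : ℕ, (∀ᶠ i in UU, Bd (k i) d (z i)) → Transcendental k' (𝒰.fn z) →
    FiniteDimensional k'⟮𝒰.fn z⟯ E' ∧ finrank k'⟮𝒰.fn z⟯ E' ≤ d) ∧ FF k' E' ∧
  ∀ z ∈ Bs k E, Transcendental k' (𝒰.fn z) ↔ ∀ᶠ i in UU, Transcendental (k i) (z i)

-- deps:
def S_UE3 : Prop := ∀
  (k E : ℕ → Type) [∀ i, Field (k i)] [∀ i, IsAlgClosed (k i)] [∀ i, Field (E i)]
  [∀ i, Algebra (k i) (E i)] [∀ i, FF (k i) (E i)]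
  (k' E' : Type) [Field k'] [Field E'] [Algebra k' E'] (𝒰 : U0 k E k' E')
  (g : ℕ) (W : ∀ i, Dv (k i) (E i)), (∀ i, Can g (W i)) → ∀ P, ∃ Q, 𝒰.Pl P Q

-- deps: BDF UE2
def S_UE4 : Prop := ∀
  (k E : ℕ → Type) [∀ i, Field (k i)] [∀ i, IsAlgClosed (k i)] [∀ i, Field (E i)]
  [∀ i, Algebra (k i) (E i)] [∀ i, FF (k i) (E i)]
  (k' E' : Type) [Field k'] [IsAlgClosed k'] [CharZero k'] [Field E'] [Algebra k' E'] [FF k' E']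
  (𝒰 : U0 k E k' E') (g : ℕ) (W : ∀ i, Dv (k i) (E i))
  (pl : (∀ i, Place (k i) (E i)) → Place k' E'), (∀ i, Can g (W i)) →
  (∀ i, Nonempty (Place (k i) (E i))) → (∀ P, 𝒰.Pl P (pl P)) →
    (∀ P Q, pl P = pl Q → ∀ᶠ i in UU, P i = Q i) ∧ Function.Surjective pl

-- deps:
def S_UL1 : Prop := ∀
  (k E : ℕ → Type) [∀ i, Field (k i)] [∀ i, IsAlgClosed (k i)] [∀ i, Field (E i)]
  [∀ i, Algebra (k i) (E i)] [∀ i, FF (k i) (E i)]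
  (k' E' : Type) [Field k'] [IsAlgClosed k'] [CharZero k'] [Field E'] [Algebra k' E'] [FF k' E']
  (𝒰 : Uf k E k' E'),
  (∀ D D', 𝒰.Lm D D' → ∃ P : D'.support → ∀ i, Place (k i) (E i), (∀ a, 𝒰.pl (P a) = a) ∧
    ∀ᶠ i in UU, Function.Injective (fun a => P a i) ∧ D i = ∑ a, Finsupp.single (P a i) (D' a)) ∧
  (∀ (D : ∀ i, Dv (k i) (E i)) (N : ℕ), (∀ᶠ i in UU, 0 ≤ D i ∧ deg (D i) ≤ N) →
    ∃ D', 𝒰.Lm D D') ∧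
  (∀ D', ∃ D, 𝒰.Lm D D') ∧
  (∀ D D', 𝒰.Lm D D' → (∀ᶠ i in UU, deg (D i) = deg D' ∧ #(D i).support = #D'.support) ∧
    ∃ N : ℕ, ∀ᶠ i in UU, ∀ P, |D i P| ≤ N) ∧
  ∀ D D' (σ : ∀ i, SA (k i) (E i)), 𝒰.Lm D D' → ∃ D'', 𝒰.Lm (fun i => (σ i).dm (D i)) D''

-- deps: UL1
def S_UL2 : Prop := ∀
  (k E : ℕ → Type) [∀ i, Field (k i)] [∀ i, IsAlgClosed (k i)] [∀ i, Field (E i)]
  [∀ i, Algebra (k i) (E i)] [∀ i, FF (k i) (E i)]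
  (k' E' : Type) [Field k'] [IsAlgClosed k'] [CharZero k'] [Field E'] [Algebra k' E'] [FF k' E']
  (𝒰 : Uf k E k' E'),
  (∀ D D', 𝒰.Lm D D' → (∀ z ∈ Bs k E, 𝒰.fn z ∈ LS D' ↔ ∀ᶠ i in UU, z i ∈ LS (D i)) ∧
    (∀ z : ∀ i, E i, (∀ᶠ i in UU, z i ∈ LS (D i)) → z ∈ Bs k E) ∧
    (∀ᶠ i in UU, lS (D i) = lS D') ∧ (Pr D' ↔ ∀ᶠ i in UU, Pr (D i)) ∧
    ∀ g, (∀ᶠ i in UU, Can g (D i)) → Can g D') ∧
  (∀ (ι : Type) [Fintype ι] (z : ι → ∀ i, E i), (∀ a, z a ∈ Bs k E) →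
    (LinearIndependent k' (fun a => 𝒰.fn (z a)) ↔
      ∀ᶠ i in UU, LinearIndependent (k i) fun a => z a i)) ∧
  ((∀ᶠ i in UU, ¬ G12 (k i) (E i)) → ¬ G12 k' E') ∧
  ∀ z ∈ Bs k E, ∀ d, (∀ᶠ i in UU, Bd (k i) d (z i)) → Bd k' d (𝒰.fn z)

-- deps:
def S_UCP0 : Prop := ∀ (k E : Type) [Field k] [IsAlgClosed k] [Field E] [Algebra k E] [FF k E]
  (a : E), (∀ D : Dv k E, (cp a D).Monic ∧ (0 ≤ D → (cp a D).natDegree = deg D ∧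
    ∀ P ∈ D.support, (cp a D).IsRoot (ev P a)) ∧
    ∀ σ : SA k E, σ.s a = a → σ.dm D = D → ∀ m, σ.s0 ((cp a D).coeff m) = (cp a D).coeff m) ∧
  ∀ (ι : Type) [Fintype ι] (Q : ι → Place k E), cp a (∑ i, pt (Q i)) = ∏ i, (X - C (ev (Q i) a))

-- deps:
def S_UPA : Prop := ∀ (k ι : Type) [Field k] [CharZero k] (p : ι → k),
  (∀ c, c ∈ acl ℚ (Set.range p) ↔ ∃ G : (Pz ι)[X], G.map (sb p) ≠ 0 ∧ G.eval₂ (sb p) c = 0) ∧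
  ∀ (κ : Type) (x : κ → k), (∀ G : MvPolynomial κ (Pz ι), MvPolynomial.map (sb p) G ≠ 0 →
    MvPolynomial.eval₂ (sb p) x G ≠ 0) → AlgebraicIndependent (acl ℚ (Set.range p)) x

-- deps: UL1 UPA
def S_UCP : Prop := ∀
  (k E : ℕ → Type) [∀ i, Field (k i)] [∀ i, IsAlgClosed (k i)] [∀ i, Field (E i)]
  [∀ i, Algebra (k i) (E i)] [∀ i, FF (k i) (E i)]
  (k' E' : Type) [Field k'] [IsAlgClosed k'] [CharZero k'] [Field E'] [Algebra k' E'] [FF k' E']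
  (𝒰 : Uf k E k' E'), ∀ a ∈ Bs k E, ∀ D D', 𝒰.Lm D D' →
  (∀ m, (cp (𝒰.fn a) D').coeff m = 𝒰.π fun i => (cp (a i) (D i)).coeff m) ∧
  ∀ (ι : Type) (p : ∀ i, ι → k i),
    ((∀ Q ∈ D'.support, ev Q (𝒰.fn a) ∈ acl ℚ (Set.range (𝒰.lp p))) →
      ∃ G : (Pz ι)[X], ∀ᶠ i in UU, Zr G (p i) (a i) (D i)) ∧
    ∀ G : (Pz ι)[X], (∀ᶠ i in UU, Zr G (p i) (a i) (D i)) →
      ∀ Q ∈ D'.support, ev Q (𝒰.fn a) ∈ acl ℚ (Set.range (𝒰.lp p))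

-- deps: UPA
def S_UAV : Prop := ∀ (k E : ℕ → Type) [∀ i, Field (k i)] [∀ i, Field (E i)]
  [∀ i, Algebra (k i) (E i)] (k' E' : Type) [Field k'] [CharZero k'] [Field E'] [Algebra k' E']
  (𝒰 : U0 k E k' E') (ι κ : Type) (p : ∀ i, ι → k i) (x : ∀ i, κ → k i)
  (S : ℕ → Finset (MvPolynomial κ (Pz ι))), (∀ G, ∀ᶠ i in UU, G ∈ S i) →
  (∀ᶠ i in UU, Av (S i) (p i) (x i)) → AlgebraicIndependent (acl ℚ (Set.range (𝒰.lp p))) (𝒰.lp x)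

-- deps: BDF UE2 UL1 UL2
def S_UMO : Prop := ∀
  (k E : ℕ → Type) [∀ i, Field (k i)] [∀ i, IsAlgClosed (k i)] [∀ i, Field (E i)]
  [∀ i, Algebra (k i) (E i)] [∀ i, FF (k i) (E i)]
  (k' E' : Type) [Field k'] [IsAlgClosed k'] [CharZero k'] [Field E'] [Algebra k' E'] [FF k' E']
  (𝒰 : Uf k E k' E') (n d : ℕ) (W : ∀ i, Dv (k i) (E i)) (a b : ∀ i, E i) (Ψ : ∀ i, (k i)[X][Y]),
  (∀ i, Mo n d (W i) (a i) (b i) (Ψ i)) → ∃ W' Ψ', 𝒰.Lm W W' ∧ Mo n d W' (𝒰.fn a) (𝒰.fn b) Ψ' ∧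
    ∀ r s, (Ψ'.coeff r).coeff s = 𝒰.π fun i => ((Ψ i).coeff r).coeff s

/-! ### Descent -/

-- deps: GORF GRK UCP0
def S_GCS : Prop := ∀ (K F k E : Type) [Field K] [IsAlgClosed K] [CharZero K] [Field F]
  [Algebra K F] [FF K F] [Field k] [IsAlgClosed k] [Algebra K k] [Field E] [Algebra k E] [FF k E]
  (X : Ex K F k E) (t : F), Transcendental K t →
  (∀ D : Dv k E, (∀ Q ∈ D.support, ev Q (X.j t) ∈ Set.range (algebraMap K k)) ↔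
    ∃ D0, X.up D0 = D) ∧
  (∀ D : Dv k E, 0 ≤ D → (∀ m, (cp (X.j t) D).coeff m ∈ Set.range (algebraMap K k)) →
    ∃ D0, X.up D0 = D) ∧
  ∀ (m : ℕ) (D : Dv k E), 0 ≤ D → deg D = m → AlgebraicIndependent K (cc m (X.j t) D) →
    ∃ φ : Fin m → F →ₐ[K] k, Gen t φ ∧ X.gs φ = D

-- deps: GEX GLF
def S_DSC1 : Prop := ∀ (K k E : Type) [Field K] [IsAlgClosed K] [CharZero K] [Field k]
  [IsAlgClosed k] [Algebra K k] [Field E] [Algebra k E] [FF k E] (a b : E) (Ψ : k[X][Y]),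
  Transcendental k a → Ψ.Monic → aevalAeval a b Ψ = 0 → k⟮a, b⟯ = ⊤ →
  (∀ r s, (Ψ.coeff r).coeff s ∈ Set.range (algebraMap K k)) →
    ∃ (F : Type) (_ : Field F) (_ : Algebra K F) (_ : FF K F) (X : Ex K F k E) (t : F),
      Transcendental K t ∧ X.j t = a

-- deps: GBC GCS DSC1
def S_DSC : Prop := ∀ (n d : ℕ) (K k E : Type) [Field K] [IsAlgClosed K] [CharZero K] [Field k]
  [IsAlgClosed k] [Algebra K k] [Field E] [Algebra k E] [FF k E] (W : Dv k E) (a b : E)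
  (Ψ : k[X][Y]), Mo n d W a b Ψ → (∀ r s, (Ψ.coeff r).coeff s ∈ Set.range (algebraMap K k)) →
  (∀ m, (cp a W).coeff m ∈ Set.range (algebraMap K k)) →
    ∃ (F : Type) (_ : Field F) (_ : Algebra K F) (_ : FF K F) (C : Cd n K F) (X : Ex K F k E),
      X.j C.t = a ∧ X.up C.W = W

-- deps: UE1 UE2 UE3 UE4 UCP UMO DSC
def S_UK : Prop := ∀
  (k E : ℕ → Type) [∀ i, Field (k i)] [∀ i, IsAlgClosed (k i)] [∀ i, Field (E i)]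
  [∀ i, Algebra (k i) (E i)] [∀ i, FF (k i) (E i)]
  (n d : ℕ) (W : ∀ i, Dv (k i) (E i)) (a b : ∀ i, E i) (Ψ : ∀ i, (k i)[X][Y]),
  (∀ i, Ch (k i) i) → (∀ i, Mo n d (W i) (a i) (b i) (Ψ i)) →
    ∃ (k' E' : Type) (_ : Field k') (_ : IsAlgClosed k') (_ : CharZero k') (_ : Field E')
      (_ : Algebra k' E') (_ : FF k' E') (𝒰 : Uf k E k' E') (W' : Dv k' E'), 𝒰.Lm W W' ∧
      ∀ (μ : Type) (Z : ∀ i, μ → Dv (k i) (E i)) (m0 : μ) (T : Set k'), (∀ i, Z i m0 = W i) →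
        T = Set.range (𝒰.lp fun i => pm (Ψ i) (a i) (Z i)) →
        ∃ (F : Type) (_ : Field F) (_ : Algebra (acl ℚ T) F) (_ : FF (acl ℚ T) F)
          (C : Cd n (acl ℚ T) F) (X : Ex (acl ℚ T) F k' E'), X.j C.t = 𝒰.fn a ∧ X.up C.W = W'

-- deps: GORF GBC2 GNS GRHO GABL GSB GBR
def S_GUQ : Prop := ∀ (n : ℕ) (K F k E : Type) [Field K] [IsAlgClosed K] [CharZero K] [Field F]
  [Algebra K F] [FF K F] [Field k] [IsAlgClosed k] [Algebra K k] [Field E] [Algebra k E] [FF k E]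
  (C : Cd n K F) (X : Ex K F k E), 2 ≤ n →
  ∀ (φ : Fin n → F →ₐ[K] k) (D' D0 B B' : Dv k E), Gen C.t φ → 0 ≤ D' →
  Pr (X.gs φ + D' - X.up C.W) → D0 = X.gs φ ∨ D0 = D' → 0 ≤ B → B ≤ D0 → 0 ≤ B' → B' ≤ D0 →
  X.Cst (B - B') → B' = B

-- deps: GRK
def S_GXM : Prop := ∀ (k : Type) [Field k] [IsAlgClosed k] [CharZero k] (N : ℕ) (T T' : Set k)
  (M : Matrix (Fin N) (Fin N) k) (x : Fin N ⊕ Fin N → k), T ⊆ T' → (∀ i j, M i j ∈ T') →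
  IsUnit M → AlgebraicIndependent (acl ℚ T') x → AlgebraicIndependent (acl ℚ T)
    (Sum.elim (Matrix.vecMul (x ∘ .inl) M) (Matrix.vecMul (x ∘ .inr) M))

-- deps: GRK
def S_GCH : Prop := ∀ (k : Type) [Field k] [IsAlgClosed k] [CharZero k] (N : ℕ) (T : ℕ → Set k)
  (S1 : Finset k) (S2 : Fin N → Finset k), #S1 < N → (∀ l, T l ⊆ acl ℚ (T (l + 1))) →
  (∀ l, ∀ c ∈ S2 l, c ∈ acl ℚ (T (l + 1))) →
    ∃ (l : Fin N) (m1 m2 : ℕ) (x : Fin m1 ⊕ Fin m2 → k), AlgebraicIndependent (acl ℚ (T l)) x ∧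
      (∀ c ∈ S1, c ∈ acl (acl ℚ (T l)) (Set.range (x ∘ .inl))) ∧
      ∀ c ∈ S2 l, c ∈ acl (acl ℚ (T l)) (Set.range (x ∘ .inr))

/-! ### Uniform statements -/

-- deps: UL1 UL2 UCP GCS
def S_ULB : Prop := ∀
  (k E : ℕ → Type) [∀ i, Field (k i)] [∀ i, IsAlgClosed (k i)] [∀ i, Field (E i)]
  [∀ i, Algebra (k i) (E i)] [∀ i, FF (k i) (E i)]
  (k' E' : Type) [Field k'] [IsAlgClosed k'] [CharZero k'] [Field E'] [Algebra k' E'] [FF k' E']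
  (𝒰 : Uf k E k' E') (ι : Type) (p : ∀ i, ι → k i) (σ : ∀ i, SA (k i) (E i)) (a : ∀ i, E i)
  (T : Set k') (F : Type) [Field F] [Algebra (acl ℚ T) F] [FF (acl ℚ T) F]
  (X : Ex (acl ℚ T) F k' E') (t : F) (A D : ∀ i, Dv (k i) (E i)) (A' D' B' : Dv k' E'),
  T = Set.range (𝒰.lp p) → a ∈ Bs k E → Transcendental (acl ℚ T) t → X.j t = 𝒰.fn a →
  (∀ i, (σ i).s (a i) = a i ∧ (∀ r, (σ i).s0 (p i r) = p i r) ∧ (σ i).dm (A i) = A i ∧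
    (σ i).dm (D i) = D i) → 𝒰.Lm A A' → 𝒰.Lm D D' → 0 ≤ B' → B' ≤ D' → X.Cst (A' + B') →
  (∀ B'', 0 ≤ B'' → B'' ≤ D' → X.Cst (B' - B'') → B'' = B') →
  ∀ S : ℕ → Finset (Pz ι)[X], (∀ G, ∀ᶠ i in UU, G ∈ S i) →
    ∀ᶠ i in UU, ¬ Nl (σ i) (S i) i (p i) (a i) (A i) (D i)

-- deps: THG UL1 UL2 UCP0 UCP UAV GCS UK GUQ GCH ULB
def S_LIM : Prop := ∀ n d : ℕ, 2 ≤ n →
  ∃ (S : Finset (MvPolynomial (Fin n) (Pz (Ix (Bool ⊕ Fin (n + 2))))))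
    (S' : Finset (Pz (Ix (Bool ⊕ Fin (n + 2))))[X]) (N p0 : ℕ),
  ∀ (k E : Type) [Field k] [IsAlgClosed k] [Field E] [Algebra k E] [FF k E]
    (σ : SA k E) (W : Dv k E) (a b : E) (Ψ : k[X][Y]) (A1 M0 : Dv k E)
    (A2 D D' : Fin (n + 2) → Dv k E), Ch k p0 → Mo n d W a b Ψ → Sr n σ W a Ψ A1 M0 A2 D D' →
    ∃ l : Fin (n + 2), ¬ (Av S (pm Ψ a (lv W M0 A2 l)) (cc n a (D l)) ∧
      Nl σ S' N (pm Ψ a (lv W M0 A2 l)) a (-A2 l) (D l) ∧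
      Nl σ S' N (pm Ψ a (lv W M0 A2 l)) a (A2 l) (D' l))

-- deps: GGR UL1 UL2 UCP UAV GCS UK
def S_LG : Prop := ∀ n d : ℕ, 2 ≤ n →
  ∃ (S : Finset (MvPolynomial (Fin (n - 1)) (Pz (Ix Bool)))) (p0 : ℕ),
  ∀ (k E : Type) [Field k] [IsAlgClosed k] [Field E] [Algebra k E] [FF k E]
    (W : Dv k E) (a b : E) (Ψ : k[X][Y]) (P0 : Place k E) (R : Dv k E), Ch k p0 →
    Mo n d W a b Ψ → 0 ≤ R → deg R = (n - 1 : ℕ) →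
    Av S (pm Ψ a fun c => if c then W else pt P0) (cc (n - 1) a R) → Gr n W R P0

-- deps: GSEC GGP UL1 UL2 UAV UK GXM
def S_LG0 : Prop := ∀ n d : ℕ, 2 ≤ n →
  ∃ (ι : Type) (S : Finset (MvPolynomial (Fin (n + 1) ⊕ Fin (n + 1)) (Pz ι))) (p0 : ℕ),
  ∀ (k E : Type) [Field k] [IsAlgClosed k] [Field E] [Algebra k E] [FF k E]
    (W : Dv k E) (a b : E) (Ψ : k[X][Y]) (e : Fin (n + 1) → E), Ch k p0 → Mo n d W a b Ψ →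
    (∀ m, e m ∈ LS W) → LinearIndependent k e → ∃ p : ι → k, ∀ x, Av S p x →
      Gp n W (∑ m, x (.inl m) • e m) (∑ m, x (.inr m) • e m)

/-! ### Counting -/

-- deps:
def S_USZ : Prop := ∀ (ι κ : Type) [Fintype κ] (S : Finset (MvPolynomial κ (Pz ι))), ∃ β : ℕ,
  ∀ (F k : Type) [Field F] [Fintype F] [Field k] [Algebra F k] (p : ι → k),
    Fintype.card F * #{x : κ → F | ¬ Av S p (algebraMap F k ∘ x)} ≤
      β * Fintype.card F ^ Fintype.card κ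

-- deps:
def S_UZF : Prop := ∀ d s N : ℕ, ∃ β : ℕ,
  ∀ (k E : Type) [Field k] [IsAlgClosed k] [Field E] [Algebra k E] [FF k E]
    (a : E) (f : k[X]), Transcendental k a → Bd k d a → f ≠ 0 → f.natDegree ≤ s →
    ∃ X' : Finset (Dv k E), #X' ≤ β ∧
      ∀ Z : Dv k E, (∀ P ∈ Z.support, f.IsRoot (ev P a)) → (∀ P, |Z P| ≤ N) → Z ∈ X'

-- deps: UCP0 USZ UZF
def S_SZD : Prop := ∀ (ι : Type) (m d : ℕ) (S : Finset (MvPolynomial (Fin m) (Pz ι))), ∃ β : ℕ,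
  ∀ (F : Type) [Field F] [Fintype F] (g : ℕ) (C : Cv F g) (a : C.E) (p : ι → Kb F),
    FB C.σ (Fintype.card F) → a ∈ C.E0 → Transcendental (Kb F) a → Bd (Kb F) d a →
      Fintype.card F * #{D ∈ ef C.σ m | ¬ Av S p (cc m a D)} ≤ β * Fintype.card F ^ m

-- deps:
def S_UMD : Prop := ∀ n : ℕ, 0 < n → ∃ d p0 : ℕ, ∀ (F : Type) [Field F] [Fintype F]
  (C : Cv F (n + 1)), p0 < ringChar F → 0 ≤ C.W → ¬ G12 (Kb F) C.E →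
    ∃ a b Ψ, Mo n d C.W a b Ψ ∧ a ∈ C.E0 ∧
      ∀ r s, C.σ.s0 ((Ψ.coeff r).coeff s) = (Ψ.coeff r).coeff s

-- deps:
def S_UCX : Prop := ∀ (F E : Type) [Field F] [Fintype F] [Field E] [Algebra (Kb F) E]
  [FF (Kb F) E] (n : ℕ) (K e : Pic (Kb F) E) (σ : SA (Kb F) E) (Λ : LD (Fintype.card F) n (J σ)),
  GB K (n + 1) → (h : FB σ (Fintype.card F)) → IsL σ K e Λ → ¬ G12 (Kb F) E →
    ∃ (W : Dv (Kb F) E) (h1 : Can (n + 1) W) (h2 : σ.dm W = W),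
      Cx (⟨E, σ, h.fr, W, h1, h2⟩ : Cv F (n + 1)) e Λ

-- deps:
def S_TBR : Prop := ∀ (k E : Type) [Field k] [IsAlgClosed k] [Field E] [Algebra k E] [FF k E]
  (K e : Pic k E) (n : ℕ) (σ : SA k E) (Q : ℕ) (Λ : LD Q n (J σ)) [Fintype (J σ)],
  GB K (n + 1) → FB σ Q → IsL σ K e Λ →
  (∀ (m : ℕ) (x : J σ), (Λ.W m).coeff x ≠ 0 ↔ ∃ A ∈ Eff σ.pl m, (A : Pic k E) = x.1 + m • e) ∧
  (∀ (m : ℕ) (x : J σ), n < m → (Λ.W m).coeff x ≠ 0) ∧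
  ∀ (z : J σ) (D B : Dv k E), D ∈ Eff σ.pl n → (D : Pic k E) = z.1 + n • e → σ.dm B = B → 0 ≤ B →
    B ≤ D → ∃ j ≤ n, ∃ b : J σ, b.1 = (B : Pic k E) - deg B • e ∧ Sb Λ n j z b

-- deps:
def S_TPOP : Prop := ∀ (α β : Type) (X' : Finset α) (f : β → Finset α) (L : Finset β)
  (Q q c u v : ℕ), 0 < Q → 0 < q → #X' ≤ u * Q → (∀ t ∈ L, f t ⊆ X' ∧ Q ≤ v * #(f t)) →
  (∀ t ∈ L, ∀ t' ∈ L, t ≠ t' → q * #(f t ∩ f t') ≤ c * Q) → 9 * c * u * v ^ 2 ≤ q →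
    #L ≤ 2 * u * v

-- deps:
def S_TSTR : Prop := ∀ (α β : Type) (N γ : ℕ) (X : Finset α) (X' : Finset β) (G : Finset (α × β))
  (B : Fin (N + 1) → (Fin (N + 1) → β) → Finset (α × β)), G ⊆ X ×ˢ X' →
  (∀ l y y', (∀ l', l' ≠ l → y l' = y' l') → B l y = B l y') → (∀ l y, #(B l y ∩ G) ≤ γ) →
  (N + 1) * γ * #X' ^ N * #X ^ N < #G ^ (N + 1) → ∃ x y, ∀ l, (x, y l) ∈ G ∧ (x, y l) ∉ B l y

-- deps:
def S_TBAD : Prop := ∀ (q n c u j : ℕ) (A : Type) [AddCommGroup A] [Fintype A] (Λ : LD q n A)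
  (X X' : Finset A) (t : A), GD Λ c → 0 < j → j < n → #X ≤ u * q ^ (n - j) → #X' ≤ u * q ^ j →
    q * #{p ∈ X ×ˢ X' | ∃ j' ≤ n, j' ≠ j ∧ (Sb Λ n j' (p.1 + p.2) (p.2 - t) ∨
      Sb Λ n j' (Λ.ω - (p.1 + p.2)) (t - p.2))} ≤ 2 * (n + 1) * c * u * q ^ n

-- deps: TPOP TSTR TBAD
def S_TST : Prop := ∀ N : ℕ, ∃ a b : ℕ, ∀ n c β : ℕ, ∃ u0 : ℕ, ∀ (q u : ℕ) (A : Type)
  [AddCommGroup A] [Fintype A] (Λ : LD q n A), GD Λ c → u0 ≤ u → u ^ b ≤ q → ¬ TD Λ u a →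
  ∀ Z L : Fin (N + 1) → (Fin (N + 1) → A) → Finset A,
  (∀ l y y', (∀ l', l' ≠ l → y l' = y' l') → Z l y = Z l y' ∧ L l y = L l y') →
  (∀ l y, q * #(Z l y) ≤ β * q ^ n ∧ #(L l y) ≤ β) → ∃ (x : A) (y : Fin (N + 1) → A), ∀ l,
    (Λ.W n).coeff (x + y l) ≠ 0 ∧ x + y l ∉ Z l y ∧ ∀ t ∈ L l y, ∀ j ≤ n,
      ¬ Sb Λ n j (x + y l) (y l - t) ∧ ¬ Sb Λ n j (Λ.ω - (x + y l)) (t - y l)

-- deps: LIM UZF SZD UMD TBR TST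
def S_TD1 : Prop := ∀ n c : ℕ, 2 ≤ n → ∃ a b u0 p0 : ℕ, ∀ (F : Type) [Field F] [Fintype F]
  (C : Cv F (n + 1)) (e : Pic (Kb F) C.E) (Λ : LD (Fintype.card F) n (J C.σ)) [Fintype (J C.σ)]
  (u : ℕ), p0 < ringChar F → Cx C e Λ → ED Λ c → u0 ≤ u → u ^ b ≤ Fintype.card F → TD Λ u a

end Pool.Agent.P.MP_9344a7_nt.Ac
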