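import Pool.Agent.P.MP_9344a7_nt.Ac.IfaceA
import Pool.Agent.P.MP_9344a7_nt.Ac.BaseB

/-! Steps PK3, PAR2, TDP, ZERO, DEG. -/

set_option linter.unusedVariables false
set_option linter.unusedSectionVars false

namespace Pool.Agent.P.MP_9344a7_nt.Ac

section

open Polynomial Finset
open Pool.Agent.P.MP_9344a7_nt.R
open Pool.Agent.P.MP_9344a7_nt.Hy
open Pool.Agent.P.MP_9344a7_nt.Od (GD Kp Fe)
open scoped Classical

lemma apk3_co {A : Type} [AddCommGroup A] (g : A) (Q : ZA A) (b : A) :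
    ((1 - .single g 1) * Q).coeff b = Q.coeff b - Q.coeff (b - g) := by
  rw [sub_mul, one_mul, AddMonoidAlgebra.coeff_sub, Finsupp.sub_apply, coeff_single_mul, one_mul]

lemma apk3_or {A : Type} [AddCommGroup A] {g : A} {Q : ZA A} {b : A}
    (h : ((1 - .single g 1) * Q).coeff b ≠ 0) : Q.coeff b ≠ 0 ∨ Q.coeff (b - g) ≠ 0 := by
  by_contra e
  rw [not_or, not_not, not_not] at e
  exact h (by rw [apk3_co, e.1, e.2, sub_zero])

lemma apk3_sh {A : Type} [AddCommGroup A] [Fintype A] (g : A) (p : A → Prop) [DecidablePred p] :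
    #{b | p (b - g)} = #{b | p b} :=
  card_equiv (Equiv.subRight g) fun b => by simp

lemma apk3_prod {A : Type} [AddCommGroup A] [Fintype A] (g : ℕ → A) (s : Finset ℕ)
    (h : ∀ l ∈ s, l.Prime ∧ addOrderOf (g l) = l) (h2 : ∀ l ∈ s, 2 < l) (P : ZA A)
    (hP : P = ∏ l ∈ s, (1 - .single (g l) 1)) :
    (∀ b, P.coeff b = 0 ∨ P.coeff b = 1 ∨ P.coeff b = -1) ∧ #{b | P.coeff b ≠ 0} = 2 ^ #s ∧
    (∃ ε : ℤ, (ε = 1 ∨ ε = -1) ∧ ∀ b, P.coeff (∑ l ∈ s, g l - b) = ε * P.coeff b) ∧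
    ∀ d, d ≠ 0 → 2 * #{b | P.coeff b ≠ 0 ∧ P.coeff (b + d) ≠ 0} ≤ 2 ^ #s := by
  induction s using Finset.induction_on generalizing P with
  | empty =>
    have e : ∀ b, P.coeff b = if b = 0 then 1 else 0 := fun b => by
      simp [hP, AddMonoidAlgebra.one_def, Finsupp.single_apply, eq_comm]
    refine ⟨fun b => ?_, ?_, ⟨1, Or.inl rfl, fun b => by simp [e]⟩, fun d hd => ?_⟩
    · rw [e]; split_ifs <;> simp
    · rw [card_empty, pow_zero, card_eq_one]
      exact ⟨0, by ext b; simp [e]⟩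
    · rw [filter_false_of_mem]
      · simp
      · intro b _ hb
        simp only [e, ne_eq, ite_eq_right_iff, one_ne_zero, imp_false, not_not] at hb
        exact hd (by simpa [hb.1] using hb.2)
  | insert l s hl ih =>
    obtain ⟨h3, h4, ⟨ε, h5, h6⟩, h7⟩ := ih (fun x hx => h x (mem_insert_of_mem hx))
      (fun x hx => h2 x (mem_insert_of_mem hx)) _ rfl
    obtain ⟨-, -, h8⟩ := pk_prod g s fun x hx => h x (mem_insert_of_mem hx)
    obtain ⟨hp, ho⟩ := h l (mem_insert_self l s)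
    have hl2 := h2 l (mem_insert_self l s)
    rw [prod_insert hl] at hP
    rw [sum_insert hl, card_insert_of_notMem hl]
    set Q : ZA A := ∏ l ∈ s, (1 - .single (g l) 1)
    set M := ∏ l ∈ s, l
    have hM : ¬ l ∣ M := fun e => by
      obtain ⟨x, hx, h5⟩ := (hp.prime.dvd_finsetProd_iff _).1 e
      exact hl ((Nat.prime_dvd_prime_iff_eq hp (h x (mem_insert_of_mem hx)).1).1 h5 ▸ hx)
    have n2 : M • g l + M • g l ≠ 0 := fun e => by
      rw [← two_nsmul, ← mul_nsmul', ← addOrderOf_dvd_iff_nsmul_eq_zero, ho, hp.dvd_mul] at e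
      exact e.elim (fun e => (Nat.le_of_dvd two_pos e).not_gt hl2) hM
    have n1 : M • g l ≠ 0 := fun e => n2 (by rw [e, add_zero])
    have h9 : ∀ b, Q.coeff (b - g l) ≠ 0 → M • b = M • g l := fun b hb => by
      have := h8 _ hb
      rwa [smul_sub, sub_eq_zero] at this
    have dj : ∀ b, Q.coeff b = 0 ∨ Q.coeff (b - g l) = 0 := fun b => by
      by_contra e
      rw [not_or] at e
      exact n1 ((h9 b e.2).symm.trans (h8 b e.1))
    have hc : ∀ b, P.coeff b = Q.coeff b - Q.coeff (b - g l) := fun b => hP ▸ apk3_co _ _ b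
    have ho : ∀ b, P.coeff b ≠ 0 → Q.coeff b ≠ 0 ∨ Q.coeff (b - g l) ≠ 0 := fun b hb =>
      apk3_or (hP ▸ hb)
    refine ⟨fun b => ?_, ?_, ⟨-ε, by omega, fun b => ?_⟩, fun d hd => ?_⟩
    · have := h3 b
      have := h3 (b - g l)
      have := dj b
      have := hc b
      omega
    · rw [pow_succ, mul_two]
      nth_rw 2 [← h4]
      rw [← apk3_sh (g l) fun b => Q.coeff b ≠ 0, ← h4, ← card_union_of_disjoint]
      · congr 1
        ext b
        have := dj b
        have := hc b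
        simp only [mem_filter, mem_union, mem_univ, true_and]
        omega
      · rw [disjoint_filter]
        intro b _ a c
        exact (dj b).elim a c
    · rw [hc, hc, show g l + ∑ l ∈ s, g l - b = ∑ l ∈ s, g l - (b - g l) by abel, h6,
        show ∑ l ∈ s, g l - (b - g l) - g l = ∑ l ∈ s, g l - b by abel, h6]
      ring
    · rw [pow_succ']
      refine Nat.mul_le_mul_left 2 ?_
      by_cases e : M • d = 0
      · refine le_trans ?_ (h7 d hd)
        rw [two_mul]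
        nth_rw 2 [← apk3_sh (g l) fun b => Q.coeff b ≠ 0 ∧ Q.coeff (b + d) ≠ 0]
        refine le_trans (card_le_card fun b hb => ?_) (card_union_le _ _)
        simp only [mem_filter, mem_union, mem_univ, true_and] at hb ⊢
        rcases ho _ hb.1 with a | a <;> rcases ho _ hb.2 with c | c
        · exact Or.inl ⟨a, c⟩
        · exact absurd (by rw [← h9 _ c, smul_add, h8 _ a, e, add_zero]) n1
        · exact absurd (by rw [← h9 _ a, ← h8 _ c, smul_add, e, add_zero]) n1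
        · exact Or.inr ⟨a, by rwa [sub_add_eq_add_sub]⟩
      · by_cases e' : M • d = M • g l
        · rw [← h4]
          refine card_le_card fun b hb => ?_
          simp only [mem_filter, mem_univ, true_and] at hb ⊢
          rcases ho _ hb.1 with a | a <;> rcases ho _ hb.2 with c | c
          · exact a
          · exact a
          · exact absurd (by rw [← h8 _ c, smul_add, h9 _ a, e']) n2
          · exact absurd (by have := h9 _ c; rwa [smul_add, h9 _ a, add_eq_left] at this) e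
        · rw [← h4, ← apk3_sh (g l) fun b => Q.coeff b ≠ 0]
          refine card_le_card fun b hb => ?_
          simp only [mem_filter, mem_univ, true_and] at hb ⊢
          rcases ho _ hb.1 with a | a <;> rcases ho _ hb.2 with c | c
          · exact absurd (by have := h8 _ c; rwa [smul_add, h8 _ a, zero_add] at this) e
          · exact absurd (by have := h9 _ c; rwa [smul_add, h8 _ a, zero_add] at this) e'
          · exact a
          · exact a

lemma apk3_ord {A : Type} [AddCommGroup A] [Fintype A] {g : A}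
    (hg : ∀ x, x ∈ AddSubgroup.zmultiples g) :
    ∀ l ∈ (Nat.card A).primeFactors, addOrderOf ((Nat.card A / l) • g) = l := fun l hl => by
  have ho := addOrderOf_eq_card_of_forall_mem_zmultiples hg
  have h0 : 0 < Nat.card A := Nat.card_pos
  have hd := Nat.dvd_of_mem_primeFactors hl
  rw [← ho] at hd ⊢
  exact addOrderOf_nsmul_addOrderOf_sub (by omega) hd

lemma apk3_G {A : Type} [AddCommGroup A] [Fintype A] {g : A}
    (hg : ∀ x, x ∈ AddSubgroup.zmultiples g) {κ : ℕ → ℕ}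
    (hκ : ∀ l ∈ (Nat.card A).primeFactors, ¬ l ∣ κ l) : ∀ l ∈ (Nat.card A).primeFactors,
      l.Prime ∧ addOrderOf (κ l • (Nat.card A / l) • g) = l := fun l hl => by
  have hp := Nat.prime_of_mem_primeFactors hl
  have := apk3_ord hg l hl
  refine ⟨hp, (Nat.Coprime.addOrderOf_nsmul ?_).trans this⟩
  rw [this]
  exact hp.coprime_iff_not_dvd.2 (hκ l hl)

lemma apk3_cop {s : Finset ℕ} {l : ℕ} (h : ∀ x ∈ s, x.Prime) (hl : l.Prime) :
    (∏ x ∈ s.erase l, x).Coprime l := Nat.Coprime.prod_left fun x hx =>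
  (Nat.coprime_primes (h x (mem_of_mem_erase hx)) hl).2 (ne_of_mem_erase hx)

lemma apk3_pk {A : Type} [AddCommGroup A] [Fintype A] {g : A}
    (hg : ∀ x, x ∈ AddSubgroup.zmultiples g) {κ : ℕ → ℕ}
    (hκ : ∀ l ∈ (Nat.card A).primeFactors, ¬ l ∣ κ l)
    (h2 : ∀ l ∈ (Nat.card A).primeFactors, 2 < l) :
    Pk (∏ l ∈ (Nat.card A).primeFactors, (1 - .single (κ l • (Nat.card A / l) • g) 1) : ZA A)
      (∑ l ∈ (Nat.card A).primeFactors, κ l • (Nat.card A / l) • g) := by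
  have ho := addOrderOf_eq_card_of_forall_mem_zmultiples hg
  have h0 : 0 < Nat.card A := Nat.card_pos
  have hG := apk3_G hg hκ
  obtain ⟨h1, h3, -⟩ := pk_prod (fun l => κ l • (Nat.card A / l) • g) _ hG
  obtain ⟨h4, h5, h6, h7⟩ := apk3_prod (fun l => κ l • (Nat.card A / l) • g) _ hG h2 _ rfl
  refine ⟨⟨h1, h3, fun x hx => pk_zero fun ψ => ?_, fun ψ hψ => ?_⟩, h4, ?_, h6, h7,
    fun l hl hd => ?_⟩
  · rw [map_mul]
    by_cases hψ : ψ ∈ Fa A
    · rw [hx ψ hψ, mul_zero]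
    have hd : orderOf (ψ g) ∣ Nat.card A := orderOf_dvd_of_pow_eq_one (by
      rw [← AddChar.map_nsmul_eq_pow, card_nsmul_eq_zero', AddChar.map_zero_eq_one])
    obtain ⟨m, hm⟩ := hd
    have hm1 : m ≠ 1 := by
      rintro rfl
      refine hψ (mem_Fa.2 (AddChar.injective_iff.2 fun a ha => ?_))
      obtain ⟨i, rfl⟩ := mem_multiples_iff_mem_zmultiples.2 (hg a)
      simp only at ha ⊢
      rw [AddChar.map_nsmul_eq_pow, ← orderOf_dvd_iff_pow_eq_one, ← mul_one (orderOf _),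
        ← hm] at ha
      rwa [← addOrderOf_dvd_iff_nsmul_eq_zero, ho]
    obtain ⟨l, hl, r, rfl⟩ := Nat.exists_prime_and_dvd hm1
    rw [map_prod, prod_eq_zero (i := l) (Nat.mem_primeFactors.2
      ⟨hl, ⟨orderOf (ψ g) * r, by rw [hm]; ring⟩, h0.ne'⟩), zero_mul]
    rw [map_sub, map_one, ev_single, AddChar.map_nsmul_eq_pow, AddChar.map_nsmul_eq_pow, hm,
      mul_left_comm, Nat.mul_div_cancel_left _ hl.pos, pow_mul, pow_orderOf_eq_one]
    simp
  · rw [map_prod, prod_ne_zero_iff]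
    intro l hl e
    obtain ⟨hp, hol⟩ := hG l hl
    rw [map_sub, map_one, ev_single, sub_eq_zero, Int.cast_one, one_mul] at e
    have := AddChar.injective_iff.1 (mem_Fa.1 hψ) e.symm
    rw [this, addOrderOf_zero] at hol
    exact hp.one_lt.ne hol
  · refine Eq.trans ?_ h5
    unfold sz
    congr 1
    ext b
    simp
  · have hm : l ∈ (Nat.card A).primeFactors := Nat.mem_primeFactors.2 ⟨hl, hd, h0.ne'⟩
    obtain ⟨-, h8, h9⟩ := pk_prod (fun l => κ l • (Nat.card A / l) • g)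
      ((Nat.card A).primeFactors.erase l) fun x hx => hG x (mem_of_mem_erase hx)
    exact ⟨_, _, (hG l hm).2, (mul_prod_erase _ _ hm).symm, h8.trans
      (Nat.pow_le_pow_right two_pos card_erase_le), fun b hb =>
      Od.opk2_div (apk3_cop (fun x hx => (hG x hx).1) hl) hl.one_lt (h9 b hb)⟩

lemma apk3_ch {A : Type} [AddCommGroup A] {γ : A} (θ : A) {l m C : ℕ} (hl : l.Prime)
    (ho : addOrderOf γ = l) (hm : m.Coprime l) (hC : 10 * C + 7 < l) :
    ∃ k0 : ℕ, ¬ l ∣ k0 ∧ ∀ k ε : ℤ, |k| ≤ C → |ε| ≤ 2 → ε ≠ 0 → k • θ ≠ ε • m • k0 • γ := by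
  by_contra! h
  choose! k ε h1 h2 h3 h4 using h
  have hn : ∀ x ∈ Ico 1 l, ¬ l ∣ x := fun x hx e =>
    (Nat.le_of_dvd (mem_Ico.1 hx).1 e).not_gt (mem_Ico.1 hx).2
  have := card_le_card_of_injOn (s := Ico 1 l) (t := Icc (-C : ℤ) C ×ˢ Icc (-2 : ℤ) 2)
    (fun x => (k x, ε x)) (fun x hx => by
      exact mem_product.2 ⟨mem_Icc.2 (abs_le.1 (h1 x (hn x hx))),
        mem_Icc.2 (abs_le.1 (h2 x (hn x hx)))⟩) fun x hx y hy e => by
      have e1 : k x = k y := congrArg Prod.fst e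
      have e2 : ε x = ε y := congrArg Prod.snd e
      have a := h4 x (hn x hx)
      rw [e1, h4 y (hn y hy), e2, ← sub_eq_zero, ← smul_sub, ← smul_sub, ← natCast_zsmul,
        ← natCast_zsmul, ← natCast_zsmul, ← sub_smul, smul_smul, smul_smul,
        ← addOrderOf_dvd_iff_zsmul_eq_zero, ho] at a
      have hp := Nat.prime_iff_prime_int.1 hl
      have hx' := mem_Ico.1 hx
      have hy' := mem_Ico.1 hy
      rcases hp.dvd_or_dvd a with a | a
      · rcases hp.dvd_or_dvd a with a | a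
        · have := Int.le_of_dvd (abs_pos.2 (h3 y (hn y hy))) ((dvd_abs _ _).2 a)
          have := h2 y (hn y hy)
          omega
        · exact absurd (Int.natCast_dvd_natCast.1 a) (hl.coprime_iff_not_dvd.1 hm.symm)
      · have := Int.eq_zero_of_abs_lt_dvd a (by rw [abs_lt]; omega)
        omega
  rw [Nat.card_Ico, card_product, Int.card_Icc, Int.card_Icc,
    show (2 + 1 - -2 : ℤ).toNat = 5 from rfl] at this
  omega

theorem p_PK3 :
    S_PK3 := by
  intro C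
  refine ⟨10 * C + 7, fun A _ _ hA hN θ => ?_⟩
  obtain ⟨g, hg⟩ := IsAddCyclic.exists_generator (α := A)
  have h0 : 0 < Nat.card A := Nat.card_pos
  have hN' : ∀ l ∈ (Nat.card A).primeFactors, 10 * C + 7 < l := fun l hl =>
    hN l (Nat.prime_of_mem_primeFactors hl) (Nat.dvd_of_mem_primeFactors hl)
  have h2 : ∀ l ∈ (Nat.card A).primeFactors, 2 < l := fun l hl => by have := hN' l hl; omega
  have h1 : ∀ l ∈ (Nat.card A).primeFactors, ¬ l ∣ 1 := fun l hl =>
    (Nat.prime_of_mem_primeFactors hl).not_dvd_one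
  by_cases hθ : θ = 0
  · exact ⟨_, _, apk3_pk hg (κ := fun _ => 1) h1 h2, Or.inl hθ⟩
  obtain ⟨l, hl, hd⟩ := Nat.exists_prime_and_dvd (mt AddMonoid.addOrderOf_eq_one_iff.1 hθ)
  have hm : l ∈ (Nat.card A).primeFactors :=
    Nat.mem_primeFactors.2 ⟨hl, hd.trans (addOrderOf_dvd_natCard θ), h0.ne'⟩
  have hc := apk3_cop (fun x hx => Nat.prime_of_mem_primeFactors (n := Nat.card A) hx) hl
  set m := ∏ x ∈ (Nat.card A).primeFactors.erase l, x with hmd
  obtain ⟨k0, h3, h4⟩ := apk3_ch (m • θ) hl (apk3_ord hg l hm) hc (hN' l hm)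
  have hκ : ∀ x ∈ (Nat.card A).primeFactors, ¬ x ∣ (if x = l then k0 else 1) := fun x hx => by
    split_ifs with e
    · exact e ▸ h3
    · exact h1 x hx
  refine ⟨_, _, apk3_pk hg hκ h2, Or.inr fun k hk hkC b1 b2 b3 b4 a1 a2 a3 a4 e => ?_⟩
  obtain ⟨-, -, h9⟩ := pk_prod (fun x => (if x = l then k0 else 1) • (Nat.card A / x) • g)
    ((Nat.card A).primeFactors.erase l) fun x hx => apk3_G hg hκ x (mem_of_mem_erase hx)
  have key : ∀ b, (∏ x ∈ (Nat.card A).primeFactors, (1 - .single ((if x = l then k0 else 1) •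
      (Nat.card A / x) • g) 1) : ZA A).coeff b ≠ 0 →
      ∃ u : ℤ, 0 ≤ u ∧ u ≤ 1 ∧ m • b = u • m • k0 • (Nat.card A / l) • g := fun b hb => by
    rw [← mul_prod_erase _ _ hm] at hb
    rcases apk3_or hb with a | a
    · exact ⟨0, le_rfl, zero_le_one, by rw [zero_smul]; exact h9 b a⟩
    · have := h9 _ a
      rw [if_pos rfl, smul_sub, sub_eq_zero] at this
      exact ⟨1, zero_le_one, le_rfl, by rw [one_smul]; exact this⟩
  obtain ⟨u1, _, _, c1⟩ := key b1 a1
  obtain ⟨u2, _, _, c2⟩ := key b2 a2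
  obtain ⟨u3, _, _, c3⟩ := key b3 a3
  obtain ⟨u4, _, _, c4⟩ := key b4 a4
  have f : k • m • θ = (u1 - u2 + (u3 - u4)) • m • k0 • (Nat.card A / l) • g := by
    rw [smul_comm, e, smul_add, smul_sub, smul_sub, c1, c2, c3, c4, add_smul, sub_smul, sub_smul]
  by_cases z : u1 - u2 + (u3 - u4) = 0
  · rw [z, zero_smul, ← natCast_zsmul, smul_smul, ← addOrderOf_dvd_iff_zsmul_eq_zero] at f
    rcases (Nat.prime_iff_prime_int.1 hl).dvd_or_dvd ((Int.natCast_dvd_natCast.2 hd).trans f)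
      with a | a
    · have := Int.le_of_dvd (abs_pos.2 hk) ((dvd_abs _ _).2 a)
      have := hN' l hm
      omega
    · exact hl.coprime_iff_not_dvd.1 hc.symm (Int.natCast_dvd_natCast.1 a)
  · exact h4 k _ hkC (by rw [abs_le]; omega) z f

end

section

open Polynomial Finset
open Pool.Agent.P.MP_9344a7_nt.R
open Pool.Agent.P.MP_9344a7_nt.Hy
open Pool.Agent.P.MP_9344a7_nt.Od (GD Kp Fe)
open scoped Classical

theorem p_PAR2 :
    S_PAR2 := by
  intro q n K A _ _ Λ P F B G G' hq hn hP χ hχ hL lf lb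
  have p1 := hP.sz
  have g1 := lf.sz
  have g2 := lb.sz
  have cv := Od.opar_conv P Λ.W G G' n fun k hk => kp_eq hP hχ (by
    rw [← Λ.coeff_L χ (by omega), hL, Polynomial.coeff_mul,
      Nat.sum_antidiagonal_eq_sum_range_succ_mk, map_sum]
    exact sum_congr rfl fun i _ => by rw [map_mul, lf.ev, lb.ev])
  generalize om A = R at *
  have sq : ∀ m, ∃ z v, ∑ i ∈ range (m + 1 + 1), G i * G (m + 1 - i) = 2 * z + v ∧
      sz v ≤ K * R * q ^ m := fun m => by
    obtain ⟨z, v, e, rfl | ⟨i, a, rfl⟩⟩ := Od.opar_mid (m + 1) G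
    · exact ⟨z, 0, e, by simp [sz]⟩
    · obtain ⟨w, hw⟩ := Od.opar_sq (G i)
      exact ⟨z + w, _, by rw [e, hw]; ring, (sz_pu _ _).trans ((g1 i).trans
        (Nat.mul_le_mul_left _ (Nat.pow_le_pow_right (by omega) (by omega))))⟩
  choose z v e1 e2 using sq
  let V := ∑ j ∈ range n, P * G' j * v (n - j - 1)
  refine ⟨V.coeff.support, ?_, fun y hy => ?_⟩
  · refine (Nat.mul_le_mul_left _ (sz_sum _ _)).trans ?_
    rw [mul_sum]
    refine (sum_le_card_nsmul _ _ (R * (K * R) * (K * R) * q ^ n) fun j hj => ?_).trans_eq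
      (by rw [card_range, smul_eq_mul]; ring)
    have j1 := mem_range.1 hj
    refine (Nat.mul_le_mul_left _ ((sz_mul _ _).trans (Nat.mul_le_mul ((sz_mul _ _).trans
      (Nat.mul_le_mul p1 (g2 j))) (e2 _)))).trans_eq ?_
    obtain ⟨m, rfl⟩ : ∃ m, n = j + m + 1 := ⟨n - j - 1, by omega⟩
    rw [show j + m + 1 - j - 1 = m by omega]
    ring
  have c3 : ∑ j ∈ range n, P * G' j * ∑ i ∈ range (n - j + 1), G i * G (n - j - i) =
      2 • ∑ j ∈ range n, P * G' j * z (n - j - 1) + V := by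
    rw [two_nsmul, ← sum_add_distrib, ← sum_add_distrib]
    refine sum_congr rfl fun j hj => ?_
    have := e1 (n - j - 1)
    rw [show n - j - 1 + 1 = n - j by have := mem_range.1 hj; omega] at this
    rw [this]
    ring
  have c4 : ∑ k ∈ range n, P * G k * Λ.W (n - k) = P * Λ.W n + Phi Λ fun k => P * G k := by
    rw [range_eq_Ico, ← Ioo_insert_left hn, sum_insert (by simp), lf.c0, mul_one, Nat.sub_zero, Phi]
    exact congrArg _ (sum_congr rfl fun k _ => mul_comm _ _)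
  rw [sum_range_succ, sum_range_succ, c3, c4, Nat.sub_self, Λ.w0, sum_range_one, lf.c0] at cv
  simp only [mul_one] at cv
  have z1 := congrArg (fun x : ZA A => x.coeff y) cv
  simp only [two_nsmul, AddMonoidAlgebra.coeff_add, Finsupp.add_apply,
    Finsupp.notMem_support_iff.1 hy] at z1
  exact ⟨(∑ j ∈ range n, P * G' j * z (n - j - 1)).coeff y + (P * G' n).coeff y, by omega⟩

end

section

open Polynomial Finset
open Pool.Agent.P.MP_9344a7_nt.R
open Pool.Agent.P.MP_9344a7_nt.Hy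
open Pool.Agent.P.MP_9344a7_nt.Od (GD Kp Fe)
open scoped Classical

theorem p_TDP :
    S_TDP := by
  intro q n c u a A _ _ Λ Λ' f w η hc hE hT hG hf hη
  have H : ∀ k, ∃ Z L : Finset A, k ∈ Ioo 0 n → u * #Z ≤ q ^ n ∧ #L ≤ u ^ a ∧
      ∀ x ∉ Z, Pm Λ n (Λ.ω - x) → ∀ b, (Λ'.W (n - k)).coeff b ≠ 0 →
        (f k).coeff (w + η • x - b) ≠ 0 → ∃ t ∈ L, Sb Λ n k x (x - η • (b - t)) := fun k => by
    by_cases hk : k ∈ Ioo 0 n
    swap
    · exact ⟨∅, ∅, fun h => absurd h hk⟩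
    obtain ⟨k0, k1⟩ := mem_Ioo.1 hk
    obtain ⟨Z, L, a1, a2, a3⟩ := hT k k0 k1
      (({b | (Λ'.W (n - k)).coeff b ≠ 0} : Finset A).image fun b => η • (b - w))
      ((f k).coeff.support.image fun y => η • y)
      (card_image_le.trans ((gd_supp hG (Nat.sub_le _ _)).trans (Nat.mul_le_mul_right _ hc)))
      (card_image_le.trans (hf k))
    refine ⟨Z, L.image fun t => w - η • t, fun _ => ⟨a1, card_image_le.trans a2,
      fun x hx hp b hb hy => ?_⟩⟩
    have e : η • (b - w) + η • (w + η • x - b) = x := by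
      rcases hη with rfl | rfl <;> simp only [one_smul, neg_smul] <;> abel
    obtain ⟨t, ht, h⟩ := a3 _ (mem_image_of_mem _ (mem_filter.2 ⟨mem_univ _, hb⟩)) _
      (mem_image_of_mem _ (Finsupp.mem_support_iff.2 hy)) (e.symm ▸ hx)
      (by rw [e, hE.res_one hp]; exact one_ne_zero)
    rw [e] at h
    refine ⟨_, mem_image_of_mem _ ht, ?_⟩
    have e' : x - η • (b - (w - η • t)) = η • (w + η • x - b) - t := by
      rcases hη with rfl | rfl <;> simp only [one_smul, neg_smul] <;> abel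
    rw [e']
    exact h.resolve_right (hp.2 k k0 k1 _)
  choose Z L H using H
  have hI : #(Ioo 0 n) ≤ n := by simp
  refine ⟨(Ioo 0 n).biUnion Z, (Ioo 0 n).biUnion L, mul_card_biUnion hI fun k hk => (H k hk).1,
    ?_, fun x hx hp k k0 k1 b hb hy => ?_⟩
  · simpa using mul_card_biUnion (u := 1) hI fun k hk => (one_mul _).trans_le (H k hk).2.1
  · have hk := mem_Ioo.2 ⟨k0, k1⟩
    obtain ⟨t, ht, h⟩ := (H k hk).2.2 x (fun e => hx (mem_biUnion.2 ⟨k, hk, e⟩)) hp b hb hy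
    exact ⟨t, mem_biUnion.2 ⟨k, hk, ht⟩, h⟩

end

section

open Polynomial Finset
open Pool.Agent.P.MP_9344a7_nt.R
open Pool.Agent.P.MP_9344a7_nt.Hy
open Pool.Agent.P.MP_9344a7_nt.Od (GD Kp Fe)
open scoped Classical

theorem p_ZERO (hTDP : S_TDP) :
    S_ZERO := by
  intro c n a
  refine ⟨n ^ 2 * c ^ 2 + c + n + a + 3, fun q u A _ _ Λ f w hS hE hT hf => ?_⟩
  obtain ⟨Z, L, a1, a2, a3⟩ := hTDP q n c u a A Λ Λ f w (-1) (hS.le (by omega)) hE hT hE.gd hf
    (.inr rfl)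
  have h1 : q * #((Ioo 0 n ×ˢ L).biUnion fun z => ({x | ∃ b ∈ ({b | (Λ.W (n - z.1)).coeff b ≠ 0 ∧
      (Λ.W (n - z.1)).coeff (z.2 - b) ≠ 0} : Finset A), (Λ.W z.1).coeff (x - (z.2 - b)) ≠ 0} :
        Finset A)) ≤ n * (n * u ^ a) * (c * c * q ^ n) := by
    refine mul_card_biUnion ((card_product _ _).trans_le (Nat.mul_le_mul (by simp) a2))
      fun z hz => ?_
    obtain ⟨k0, k1⟩ := mem_Ioo.1 (mem_product.1 hz).1
    refine (gd_add hE.gd k1.le (hE.clf' (j := n - z.1) (by omega) (by omega) z.2)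
      (fun b => z.2 - b) fun x hx => (mem_filter.1 hx).2).trans_eq ?_
    rw [mul_mul_mul_comm, ← pow_add, Nat.sub_add_cancel k1.le]
  have h2 := hS.tiny (e := a + 1) (z := q ^ n) (by omega) (h1.trans (by
    calc _ = n ^ 2 * c ^ 2 * (u ^ a * q ^ n) := by ring
      _ ≤ u * (u ^ a * q ^ n) := Nat.mul_le_mul_right _ (hS.le (by omega))
      _ = _ := by ring))
  refine le_trans (Nat.mul_le_mul_left _ (card_le_card fun x hx => ?_))
    ((mul_card_union a1 h2).trans (by nlinarith [Nat.zero_le (q ^ n), Nat.zero_le (n ^ 2 * c ^ 2)]))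
  obtain ⟨hp, hx⟩ := (mem_filter.1 hx).2
  refine mem_union.2 (or_iff_not_imp_left.2 fun hZ => ?_)
  obtain ⟨k, k0, k1, b, hb, hy⟩ := phi_ne hx
  obtain ⟨t, ht, h3, h4⟩ := a3 x hZ hp k k0 k1 b hb
    (by rwa [neg_smul, one_smul, ← sub_eq_add_neg])
  refine mem_biUnion.2 ⟨(k, t), mem_product.2 ⟨mem_Ioo.2 ⟨k0, k1⟩, ht⟩, mem_filter.2
    ⟨mem_univ _, b, mem_filter.2 ⟨mem_univ _, hb, ?_⟩, ?_⟩⟩
  · simpa using h4
  · simpa using h3

end

section

open Polynomial Finset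
open Pool.Agent.P.MP_9344a7_nt.R
open Pool.Agent.P.MP_9344a7_nt.Hy
open Pool.Agent.P.MP_9344a7_nt.Od (GD Kp Fe)
open scoped Classical

lemma adeg_top {q n μ ν K : ℕ} {A : Type} [AddCommGroup A] [Fintype A] {χ : AddChar A ℂ} {w : A}
    {F B : ℂ[X]} {G G' : ℕ → ZA A} (hq : 0 < q) (g : Lf χ F G q K) (g' : Lf χ B G' q K)
    (fF : Fe q μ F) (fB : Fe q ν B) (hs : μ + ν = 2 * n) (h1 : μ ≤ n)
    (top : F.coeff μ * B.coeff ν = q ^ n * χ w) : ev χ (G' n) = ev χ (.single w 1 *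
      pu (-AddMonoidHom.id A) (G' (n - μ)) * pu (-AddMonoidHom.id A) (G μ)) := by
  have hZ := fF.eq 0 μ (zero_add μ)
  rw [fF.c0, mul_one] at hZ
  have hq' : ((q : ℂ) ^ n) ≠ 0 := pow_ne_zero _ (Nat.cast_ne_zero.2 hq.ne')
  have e1 := fB.eq n (n - μ) (by omega)
  have e2 : (q : ℂ) ^ n = q ^ μ * q ^ (n - μ) := by rw [← pow_add, Nat.add_sub_cancel' h1]
  rw [map_mul, map_mul, ← conj_ev, ← conj_ev, g.ev, g'.ev, g'.ev, ev_single]
  apply mul_left_cancel₀ hq'
  push_cast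
  linear_combination (B.coeff n) * e2 + q ^ μ * e1 +
    B.coeff ν * (starRingEnd ℂ) (B.coeff (n - μ)) * hZ +
    (starRingEnd ℂ) (F.coeff μ) * (starRingEnd ℂ) (B.coeff (n - μ)) * top

lemma adeg_key (hPAR2 : S_PAR2) {q n c u a M K K0 Kz μ ν : ℕ} {A : Type} [AddCommGroup A]
    [Fintype A] {Λ : LD q n A} {P : ZA A} (hP : Kp P) {χ : AddChar A ℂ} (hχ : χ ∈ Fa A)
    (sc : Sc A q u K) (ad : AD Λ c M u a) (k1 : n * K0 ^ 2 + K0 + c + 3 + 2 * c * (Kz + 3) ≤ K)
    (zero : ∀ f : ℕ → ZA A, (∀ k, sz (f k) ≤ u * q ^ k) →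
      u * #{x | Pm Λ n (Λ.ω - x) ∧ (Phi Λ f).coeff (Λ.ω - x) ≠ 0} ≤ Kz * q ^ n)
    {F B : ℂ[X]} {G G' : ℕ → ZA A} (hL : Λ.L χ = F * B) (g : Lf χ F G q K0) (g' : Lf χ B G' q K0)
    (fF : Fe q μ F) (fB : Fe q ν B) (hs : μ + ν = 2 * n) (h0 : 0 < μ) (h1 : μ < n)
    (top : F.coeff μ * B.coeff ν = q ^ n * χ Λ.ω) : False := by
  have hK : 1 < K := by omega
  have hq : 0 < q := sc.leq hK.le (by omega)
  have s2 : ∀ {y : ZA A} {k : ℕ}, sz y ≤ K0 * om A * q ^ k → sz (P * y) ≤ u * q ^ k :=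
    fun {y k} h => (sz_mul _ _).trans ((Nat.mul_le_mul hP.sz h).trans (le_trans (by ring_nf; rfl)
      (Nat.mul_le_mul_right _ (sc.om (x := K0) (e := 2) (by omega) (by omega)))))
  obtain ⟨X, x1, x2⟩ := hPAR2 q n K0 A Λ P F B G G' hq (by omega) hP χ hχ hL g g'
  have x3 : u * #X ≤ q ^ n := sc.tiny hK (x1.trans (Nat.mul_le_mul_right _
    ((sc.om (by omega) (by omega)).trans_eq (pow_one u).symm)))
  have w1 := sc.tiny hK ((gd_pwt ad.ed.gd hP 0).trans (by
    rw [← mul_assoc, mul_comm (om A), pow_one]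
    exact Nat.mul_le_mul_right (q ^ n) (sc.om1 (by omega) (by omega))))
  have z1 := (Nat.mul_le_mul_left u (card_image_le (f := (Λ.ω - ·)))).trans
    (zero (fun k => P * G k) fun k => s2 (g.sz k))
  obtain ⟨Z, L, t1, -, t2⟩ := ad.td μ h0 h1
    (P * (.single Λ.ω 1 * pu (-AddMonoidHom.id A) (G' (n - μ)))).coeff.support
    (pu (-AddMonoidHom.id A) (G μ)).coeff.support
    (s2 ((sz_mul _ _).trans ((Nat.mul_le_mul (sz_single _ _) ((sz_pu _ _).trans
      (g'.sz _))).trans_eq (one_mul _))))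
    ((sz_pu _ _).trans ((g.sz μ).trans (Nat.mul_le_mul_right _ (sc.om1 (by omega) (by omega)))))
  have tot := small_le (x := Kz + 3) (z := q ^ n) (m := 2 * c) (sc.pos (by omega))
    ((mul_card_union (mul_card_union x3 w1) (mul_card_union z1 t1)).trans_eq (by ring))
    (sc.le (by omega))
  rw [two_mul, add_mul] at tot
  obtain ⟨y, y1, y2⟩ := exists_mem_notMem_of_card_lt_card (Nat.lt_of_mul_lt_mul_left
    ((lt_of_not_ge fun e => (Nat.pow_pos (n := n) hq).ne' (Nat.le_zero.1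
      (Nat.le_of_add_le_add_left ((add_le_add e e).trans tot)))).trans_le ad.cd.ch0))
  obtain ⟨p1, p2⟩ := (mem_filter.1 y1).2
  simp only [mem_union, not_or] at y2
  obtain ⟨⟨n1, n2⟩, n3, n4⟩ := y2
  have c1 : (P * Λ.W n).coeff y = 1 := by
    by_contra e
    exact n2 (mem_filter.2 ⟨mem_univ _, p1.1, by rwa [add_zero, hP.c0]⟩)
  have c2 : P * G n = 0 := by
    rw [kp_eq hP hχ (z := 0) (by
      rw [g.ev, map_zero, coeff_eq_zero_of_natDegree_lt (fF.deg ▸ h1)]), mul_zero]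
  have c3 : (P * G' n).coeff y = 0 := by
    by_contra e
    rw [kp_eq hP hχ (adeg_top hq g g' fF fB hs h1.le top), ← mul_assoc] at e
    obtain ⟨b, b1, b2⟩ := Od.mul_ne e
    have := t2 b (Finsupp.mem_support_iff.2 b1) _ (Finsupp.mem_support_iff.2 b2)
    rw [add_sub_cancel] at this
    obtain ⟨t, -, h | h⟩ := this n4 (p1.1 ▸ one_ne_zero)
    · exact p1.2 μ h0 h1 _ h
    · exact p2.2 μ h0 h1 _ h
  have c4 : (Phi Λ fun k => P * G k).coeff y = 0 := by
    by_contra e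
    exact n3 (mem_image.2 ⟨Λ.ω - y, mem_filter.2 ⟨mem_univ _, by
      rw [sub_sub_cancel]; exact ⟨p1, e⟩⟩, sub_sub_cancel _ _⟩)
  have := x2 y n1
  rw [c1, c2, c3, c4] at this
  simp at this

theorem p_DEG (hPK3 : S_PK3) (hPAR2 : S_PAR2) (hZERO : S_ZERO) :
    S_DEG := by
  intro c n a hn
  obtain ⟨N, hN⟩ := hPK3 0
  obtain ⟨K0, h0⟩ := lf_ex c n
  obtain ⟨Kz, hz⟩ := hZERO c n a
  refine ⟨N, n * K0 ^ 2 + K0 + c + 3 + 2 * c * (Kz + 3) + Kz,
    fun q u M A _ _ Λ big sc ad χ hχ F μ zF ⟨B, hL⟩ fF => ?_⟩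
  obtain ⟨P, s, hP, -⟩ := hN A big.cyc big.pr 0
  have hq : 0 < q := sc.leq (x := 1) (by omega) (by omega)
  have hom : om A ≤ q := ((one_mul _).symm.trans_le (sc.om1 (x := 1) (by omega) (by omega))).trans
    (sc.uq (by omega))
  have := big.nt
  obtain ⟨fL, top⟩ := Od.a_FEB.1 q n A Λ hq χ (Fa_ne hχ)
  have zB : Zc χ B := zF.of_mul fF.c0 ⟨Λ.LZ, hL⟩
  rw [hL] at fL top
  obtain ⟨a1, fB, a2⟩ := Od.a_FEB.2 q (2 * n) μ F B hq fL fF
  rw [a2] at top
  have lf := h0 q A Λ (big_down big (Nat.zero_le _)) hom ad.ed.gd χ hχ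
  obtain ⟨G, g⟩ := lf F zF fF.c0 ⟨B, hL⟩
  obtain ⟨G', g'⟩ := lf B zB fB.c0 ⟨F, hL.trans (mul_comm _ _)⟩
  have z := fun f => hz q u A Λ f Λ.ω (sc.down (Nat.le_add_left _ _)) ad.ed ad.td
  by_contra hc
  rcases le_total μ n with h | h
  · exact adeg_key hPAR2 hP.kp hχ sc ad (Nat.le_add_right _ _) z hL g g' fF fB (by omega)
      (by omega) (by omega) top
  · exact adeg_key hPAR2 hP.kp hχ sc ad (Nat.le_add_right _ _) z (hL.trans (mul_comm _ _)) g' g fB
      fF (by omega) (by omega) (by omega) ((mul_comm _ _).trans top)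

end

end Pool.Agent.P.MP_9344a7_nt.Ac
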