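import Pool.Agent.P.MP_9344a7_nt.Ac.IfaceC

/-! Steps PMI, PM, COR1, CORE, CHG, CH2, PEN, PNR. -/

set_option linter.unusedVariables false
set_option linter.unusedSectionVars false

namespace Pool.Agent.P.MP_9344a7_nt.Ac

section

open Finset Module WithZero
open Pool.Agent.P.MP_6f117a_ag (Place FF)
open Pool.Agent.P.MP_ab3ecb_nt.Inv (Dv deg SA LS ev ord dv)
open Pool.Agent.P.MP_9344a7_nt.R
open Pool.Agent.P.MP_9344a7_nt.Hy hiding pt ev
open Pool.Agent.P.MP_9344a7_nt.Gt (pt lS Pr Can Bd Ch G12 Cv Kb)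
open scoped Classical IntermediateField

open Pool.Agent.P.MP_ab3ecb_nt.Inv in
lemma cpmi_prod {k M : Type} [Field k] [IsAlgClosed k] [Field M] [Algebra k M] [FF k M] {a : M}
    {n : ℕ} (h : Bd k n a) (Z : Finset k) : Bd k (#Z * n) (∏ z ∈ Z, (a - algebraMap k M z)) ∧
      ∀ P : Place k M, P.v a ≤ 1 → P.v (∏ z ∈ Z, (a - algebraMap k M z)) ≤ 1 ∧
        ev P (∏ z ∈ Z, (a - algebraMap k M z)) = ∏ z ∈ Z, (ev P a - z) := by
  induction Z using Finset.induction_on with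
  | empty => exact ⟨by simpa using Bd.const (E := M) 0 (1 : k), by simp⟩
  | insert z Z hz ih =>
    rw [prod_insert hz, card_insert_of_notMem hz, add_mul, one_mul, add_comm]
    refine ⟨(h.sub_const z).mul ih.1, fun P hP => ?_⟩
    have e := P.v.map_sub_le hP (P.triv z)
    rw [map_mul, ev_mul e (ih.2 P hP).1, ev_sub hP (P.triv z), ev_const, prod_insert hz,
      (ih.2 P hP).2]
    exact ⟨mul_le_one' e (ih.2 P hP).1, rfl⟩

open Pool.Agent.P.MP_ab3ecb_nt.Inv in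
theorem p_PMI :
    S_PMI := by
  intro k M _ _ _ _ _ θ a b n ha hb tr ba ⟨H, h0, h1, h2⟩
  have su : ∀ P : Place k M, 1 < P.v b → P ∈ H.support := fun P e => by_contra fun e' =>
    e.not_ge (Gt.le_one_of_LS h2 (Finsupp.notMem_support_iff.1 e').le)
  obtain ⟨Z, cZ, hZ⟩ : ∃ Z : Finset k, #Z ≤ n ∧
      ∀ z, z ∈ Z ↔ ∃ P : Place k M, P.v a ≤ 1 ∧ 1 < P.v b ∧ ev P a = z := by
    refine ⟨{P ∈ H.support | P.v a ≤ 1 ∧ 1 < P.v b}.image (ev · a), ?_, fun z => ?_⟩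
    · have := (Gt.card_support_le h0).trans h1
      exact card_image_le.trans ((card_filter_le _ _).trans (by exact_mod_cast this))
    · simp only [mem_image, mem_filter]
      exact ⟨fun ⟨P, x, y⟩ => ⟨P, x.2.1, x.2.2, y⟩, fun ⟨P, x, y, w⟩ => ⟨P, ⟨su P y, x, y⟩, w⟩⟩
  have hm : Z.image θ.s0 = Z := eq_of_subset_of_card_le (image_subset_iff.2 fun z hz => by
    obtain ⟨P, x, y, rfl⟩ := (hZ z).1 hz
    refine (hZ _).2 ⟨θ.pl P, ?_, ?_, ?_⟩
    · rwa [← ha, θ.pl_v]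
    · rwa [← hb, θ.pl_v]
    · rw [← θ.ev_pl, ha]) (card_image_of_injective _ θ.s0.injective).ge
  obtain ⟨p1, p2⟩ := cpmi_prod ba Z
  refine ⟨(∏ z ∈ Z, (a - algebraMap k M z)) ^ n, pow_ne_zero _ (prod_ne_zero_iff.2 fun z _ e =>
    tr (sub_eq_zero.1 e ▸ isAlgebraic_algebraMap z)), ?_, pow_mem (prod_mem fun z _ => sub_mem
      (IntermediateField.mem_adjoin_simple_self k a) (IntermediateField.algebraMap_mem _ z)) n,
    (p1.pow n).mono (by rw [mul_assoc]; gcongr), fun P hP => ?_, fun P Q hP hQ e => ?_⟩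
  · rw [map_pow, map_prod]
    conv_rhs => rw [← hm, prod_image θ.s0.injective.injOn]
    simp only [map_sub, ha, θ.h]
  · have e1 : P.v ((∏ z ∈ Z, (a - algebraMap k M z)) ^ n) ≤ 1 := by
      rw [map_pow]
      exact pow_le_one' (p2 P hP).1 n
    refine ⟨e1, ?_⟩
    rw [map_mul]
    rcases le_or_gt (P.v b) 1 with e | e
    · exact mul_le_one' e1 e
    have e2 : P.v (∏ z ∈ Z, (a - algebraMap k M z)) ≤ exp (-1) := by
      rw [← mul_prod_erase Z _ ((hZ _).2 ⟨P, hP, e, rfl⟩), map_mul, ← mul_one (exp _), ← zero_sub]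
      exact mul_le_mul' (Gt.lt_exp_iff_le.1 (ev_spec hP)) ((cpmi_prod ba _).2 P hP).1
    have e3 : H P ≤ n := le_trans (single_le_sum (fun Q _ => h0 Q) (su P e)) h1
    rw [map_pow]
    refine (mul_le_mul' (pow_le_pow_left' e2 n) (mem_LS.1 h2 P)).trans ?_
    rw [← exp_nsmul, ← exp_add, ← exp_zero, exp_le_exp]
    simp only [smul_neg, nsmul_eq_mul, mul_one]
    omega
  · rw [ev_pow (p2 P hP).1, ev_pow (p2 Q hQ).1, (p2 P hP).2, (p2 Q hQ).2, e]

end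

section

open Finset Module WithZero
open Pool.Agent.P.MP_6f117a_ag (Place FF)
open Pool.Agent.P.MP_ab3ecb_nt.Inv (Dv deg SA LS ev ord dv)
open Pool.Agent.P.MP_9344a7_nt.R
open Pool.Agent.P.MP_9344a7_nt.Hy hiding pt ev
open Pool.Agent.P.MP_9344a7_nt.Gt (pt lS Pr Can Bd Ch G12 Cv Kb)
open scoped Classical IntermediateField

theorem p_PM (hPM0 : S_PM0) (hPMI : S_PMI) :
    S_PM := by
  intro n N
  obtain ⟨p0, h0⟩ := hPM0 (n * n * n + n) (N + 1)
  refine ⟨max p0 ((N + 1) * ((N + 2) * n)), fun F M _ _ _ _ _ θ a b hp hθ ha hb ht ba bb top => ?_⟩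
  obtain ⟨c, c0, c1, c2, c3, c4, c5⟩ := hPMI _ M θ a b n ha hb ht ba bb
  have ma : a ∈ (Kb F)⟮a, c * b⟯ := IntermediateField.subset_adjoin _ _ (by simp)
  have mb : c * b ∈ (Kb F)⟮a, c * b⟯ := IntermediateField.subset_adjoin _ _ (by simp)
  obtain ⟨X, x1, x2, x3⟩ := h0 F M θ a (c * b) ((le_max_left _ _).trans_lt hp) hθ ha
    (by rw [map_mul, c1, hb]) ht (ba.mono (by omega)) (c3.mul bb)
    (top_le_iff.1 (top ▸ IntermediateField.adjoin_le_iff.2 (by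
      rintro z (rfl | rfl)
      · exact ma
      · have := mul_mem (inv_mem (IntermediateField.adjoin_simple_le_iff.2 ma c2)) mb
        rwa [inv_mul_cancel_left₀ c0] at this))) fun P h => (c4 P h).2
  obtain ⟨Z, z1, z2⟩ := bb.poles
  have hm : ∀ P ∈ X \ Z, θ.pl P = P ∧ P.v a ≤ 1 ∧ P.v b ≤ 1 := fun P hP =>
    ⟨(x2 P (mem_sdiff.1 hP).1).1, (x2 P (mem_sdiff.1 hP).1).2.1, z2 P (mem_sdiff.1 hP).2⟩
  refine ⟨X \ Z, Nh.plo_num x1 (c := n) ?_
    (((le_max_right _ _).trans hp.le).trans Gt.char_le), hm, fun P hP Q hQ e e' => ?_⟩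
  · have := le_card_sdiff Z X
    omega
  · obtain ⟨-, p1, p2⟩ := hm P hP
    obtain ⟨-, q1, q2⟩ := hm Q hQ
    refine x3 P (mem_sdiff.1 hP).1 Q (mem_sdiff.1 hQ).1 e ?_
    rw [MP_ab3ecb_nt.Inv.ev_mul (c4 P p1).1 p2, MP_ab3ecb_nt.Inv.ev_mul (c4 Q q1).1 q2, e',
      c5 P Q p1 q1 e]

end

section

open Finset Module WithZero
open Pool.Agent.P.MP_6f117a_ag (Place FF)
open Pool.Agent.P.MP_ab3ecb_nt.Inv (Dv deg SA LS ev ord dv)
open Pool.Agent.P.MP_9344a7_nt.R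
open Pool.Agent.P.MP_9344a7_nt.Hy hiding pt ev
open Pool.Agent.P.MP_9344a7_nt.Gt (pt lS Pr Can Bd Ch G12 Cv Kb)
open scoped Classical IntermediateField

lemma ccor1_sum {k M κ : Type} [Field k] [Field M] [Algebra k M] {n : ℕ} {z : κ → M}
    (h : ∀ j, Bd k n (z j)) (c : κ → k) (s : Finset κ) : Bd k (#s * n) (∑ j ∈ s, c j • z j) := by
  induction s using Finset.induction_on with
  | empty => simpa using Bd.const (E := M) 0 (0 : k)
  | insert i s hi ih =>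
    rw [sum_insert hi, card_insert_of_notMem hi, add_one_mul, add_comm _ n, Algebra.smul_def]
    exact ((h i).cmul _).add ih

open MP_ab3ecb_nt.Inv (ev_eq ev_spec ev_mul ev_const) in
theorem p_COR1 (hBDF : S_BDF) (hBDX : S_BDX) (hTWB : S_TWB) (hPEL : S_PEL) (hPM : S_PM) :
    S_COR1 := by
  intro g D m N hg
  obtain ⟨p1, h1⟩ := Gt.mdl_gen Gt.a_BPF Gt.a_PRIM Gt.a_AVF Gt.a_DES Gt.a_AVD hg
  set β := m * 2 * (D * (6 * g)) with hβ
  obtain ⟨p2, h2⟩ := hPM (D + β) (N + 1)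
  refine ⟨p1 + p2 + D + D * D + (N + 1) * ((N + 2) * β),
    fun F M ι _ _ _ _ _ _ C θ φ π f i0 hp hm tw top hf fa => ?_⟩
  obtain ⟨x, y, x0, y0, -, bx, by', -, gen⟩ := h1 F C (by omega)
  have q := Gt.char_le (F := F)
  let w : Bool → C.E := fun b => cond b x y
  have w0 : ∀ b, C.σ.s (w b) = w b := fun b => by cases b <;> assumption
  let z : ι × Bool → M := fun j => φ j.1 (w j.2)
  have bz : ∀ j, Bd (Kb F) (D * (6 * g)) (z j) := fun j =>
    hBDX _ _ _ (φ j.1) (f j.1) _ D _ (hf _).1 (hf _).2 (by cases j.2 <;> assumption)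
  have zt : IntermediateField.adjoin (Kb F) (Set.range z) = ⊤ := by
    rw [eq_top_iff, ← top]
    refine iSup_le fun i => ?_
    rw [AlgHom.fieldRange_eq_map, ← gen, IntermediateField.adjoin_map]
    refine IntermediateField.adjoin.mono _ _ _ ?_
    rintro _ ⟨_, rfl | rfl, rfl⟩
    exacts [⟨(i, true), rfl⟩, ⟨(i, false), rfl⟩]
  have s0 : ∀ c, θ.s0 c = c ^ Fintype.card F := fun c => (algebraMap _ M).injective (by
    rw [← θ.h, tw.const i0, C.fr.2.2])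
  have ta : Transcendental (Kb F) (φ i0 (f i0)) := fun h =>
    (hf i0).1 ((isAlgebraic_algHom_iff _ (φ i0).injective).1 h)
  obtain ⟨Δ, d1, d2, d3⟩ := hPEL _ M _ _ z D ta (hf i0).2 (Gt.ch_of_lt (by omega)) zt
  obtain ⟨c, c1, c2⟩ := hTWB F _ _ (π.prodCongr (.refl Bool)) Δ (by omega) d2
  have cd : Fintype.card (ι × Bool) * (D * (6 * g)) ≤ β :=
    Nat.mul_le_mul_right _ (by simpa using hm)
  obtain ⟨X, x1, x2, x3⟩ := h2 F M θ _ (∑ j, c j • z j) (by omega) s0 fa (by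
      rw [map_sum, ← Equiv.sum_comp (π.prodCongr (.refl Bool)) fun j => c j • z j]
      refine sum_congr rfl fun j _ => ?_
      rw [c1, Algebra.smul_def, Algebra.smul_def, map_mul, θ.h, s0, tw, w0]
      rfl) ta (((hBDF _ _ _ D ta).2 (hf i0).2).mono (by omega))
    ((ccor1_sum bz c univ).mono (cd.trans (by omega))) (d3 c c2)
  choose U u1 u2 using fun j => (bz j).poles
  have u3 := (card_biUnion_le_card_mul univ U _ fun j _ => u1 j).trans cd
  refine ⟨X \ univ.biUnion U, Nh.plo_num x1 (card_le_card_sdiff_add_card.trans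
    (Nat.add_le_add_left u3 _)) (by omega), fun Q hQ => (x2 Q (mem_sdiff.1 hQ).1).1,
    fun Q hQ Q' hQ' e => ?_⟩
  simp only [mem_sdiff, mem_biUnion, mem_univ, true_and, not_exists] at hQ hQ'
  have key : ∀ i u, Q.v (φ i u) ≤ 1 → ev Q (φ i u) = ev Q' (φ i u) := fun i u h => by
    have := (e i (u - algebraMap _ _ (ev Q (φ i u)))).1 (by
      rw [map_sub, AlgHom.commutes]
      exact ev_spec h)
    rw [map_sub, AlgHom.commutes] at this
    exact (ev_eq this).symm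
  have sm : ∀ P : Place (Kb F) M, (∀ j, P ∉ U j) →
      ev P (∑ j, c j • z j) = ∑ j, c j * ev P (z j) := fun P hP => by
    simp only [Algebra.smul_def]
    rw [Gt.prim_sum _ fun j _ => by
      rw [map_mul]
      exact mul_le_one' (P.triv _) (u2 j P (hP j))]
    exact sum_congr rfl fun j _ => by rw [ev_mul (P.triv _) (u2 j P (hP j)), ev_const]
  refine x3 Q hQ.1 Q' hQ'.1 (key _ _ (x2 Q hQ.1).2.1) ?_
  rw [sm Q hQ.2, sm Q' hQ'.2]
  exact sum_congr rfl fun j _ => congrArg _ (key _ _ (u2 j Q (hQ.2 j)))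

end

section

open Finset Module WithZero
open Pool.Agent.P.MP_6f117a_ag (Place FF)
open Pool.Agent.P.MP_ab3ecb_nt.Inv (Dv deg SA LS ev ord dv)
open Pool.Agent.P.MP_9344a7_nt.R
open Pool.Agent.P.MP_9344a7_nt.Hy hiding pt ev
open Pool.Agent.P.MP_9344a7_nt.Gt (pt lS Pr Can Bd Ch G12 Cv Kb)
open scoped Classical IntermediateField

lemma ccore_map {k E Ω ι : Type} [Field k] [Field E] [Algebra k E] [Field Ω] [Algebra k Ω]
    {φ : ι → E →ₐ[k] Ω} {θ : Ω ≃+* Ω} (i0 : ι) (h : ∀ i w, ∃ j w', θ (φ i w) = φ j w') :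
    ∀ y ∈ ⨆ i, (φ i).fieldRange, θ y ∈ ⨆ i, (φ i).fieldRange := by
  have h1 : ∀ i w, θ (φ i w) ∈ ⨆ i, (φ i).fieldRange := fun i w => by
    obtain ⟨j, w', e⟩ := h i w
    exact le_iSup (fun i => (φ i).fieldRange) j ⟨w', e.symm⟩
  exact iSup_le (a := ((⨆ i, (φ i).fieldRange).toSubfield.comap (θ : Ω →+* Ω)).toIntermediateField
    fun c => (φ i0).commutes c ▸ h1 i0 _) fun i _ ⟨w, e⟩ => e ▸ h1 i w

theorem p_CORE (hVEX : S_VEX) (hDGM : S_DGM) (hCOR1 : S_COR1) :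
    S_CORE := by
  intro g d m N hg
  obtain ⟨p1, H⟩ := hCOR1 g (d ^ (m + 1)) m N hg
  refine ⟨p1 + d, fun F Ω ι _ _ _ _ _ C θ φ π f i0 hp hm hT hf h0 => ?_⟩
  have h1 := ccore_map i0 fun i w => ⟨_, _, hT i w⟩
  have h2 := ccore_map (φ := φ) (θ := θ.symm) i0 fun i w => ⟨π.symm i, C.σ.s.symm w, by
    rw [RingEquiv.symm_apply_eq, hT, Equiv.apply_symm_apply, RingEquiv.apply_symm_apply]⟩
  have h3 : ∀ i w, φ i w ∈ ⨆ i, (φ i).fieldRange := fun i w =>
    le_iSup (fun i => (φ i).fieldRange) i ⟨w, rfl⟩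
  generalize hM : ⨆ i, (φ i).fieldRange = M at h1 h2 h3
  obtain ⟨_, h4⟩ := hDGM _ _ _ _ φ f i0 d M (Gt.ch_of_lt (by omega)) hf hM.symm
  let θ' : SA (Kb F) M := ⟨⟨⟨fun y => ⟨θ y, h1 _ y.2⟩, fun y => ⟨θ.symm y, h2 _ y.2⟩,
    fun y => Subtype.ext (θ.symm_apply_apply y), fun y => Subtype.ext (θ.apply_symm_apply y)⟩,
    fun x y => Subtype.ext (map_mul θ x.1 y.1), fun x y => Subtype.ext (map_add θ x.1 y.1)⟩,
    C.σ.s0, fun c => Subtype.ext (hT.const i0 c)⟩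
  let φ' : ι → C.E →ₐ[Kb F] M := fun i => (φ i).codRestrict M.toSubalgebra (h3 i)
  have h5 : Tw C.σ θ'.s φ' π := fun i w => Subtype.ext (hT i w)
  have h6 : ⨆ i, (φ' i).fieldRange = ⊤ := IntermediateField.map_injective M.val (by
    rw [IntermediateField.map_iSup, ← AlgHom.fieldRange_eq_map, IntermediateField.fieldRange_val]
    simp only [AlgHom.map_fieldRange]
    exact hM)
  have h7 : 0 < d := by
    have := FF.fin _ (hf i0).1.tr
    exact (hf i0).1.rk ▸ finrank_pos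
  obtain ⟨X, x1, x2, x3⟩ := H F M ι C θ' φ' π f i0 (by omega) hm h5 h6 (fun i => ⟨(hf i).1.tr,
    (h4 i _ rfl).trans (Nat.pow_le_pow_right h7 (by omega))⟩) (Subtype.ext h0)
  choose T t1 using fun Q i => MP_ab3ecb_nt.Inv.PL.exists_restrict (φ' i) (hf i).1.tr Q
  refine ⟨X.image T, ?_, fun T' h => ?_⟩
  · rwa [card_image_of_injOn fun Q a Q' b e => x3 Q a Q' b fun i w => by rw [t1, t1, e]]
  obtain ⟨Q, a, rfl⟩ := mem_image.1 h
  obtain ⟨O, hO⟩ := hVEX _ _ _ M.val Q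
  refine ⟨fun i => MP_ab3ecb_nt.Inv.PL.uniq _ _ fun u => ?_, O, fun i =>
    rs_of_lt fun w => (hO.lt (φ' i w)).trans (t1 Q i w)⟩
  obtain ⟨w, rfl⟩ := C.σ.s.surjective u
  rw [SA.pl_v, ← t1, ← t1, ← h5, ← θ'.pl_v Q, x2 Q a]

end

section

open Finset Module WithZero
open Pool.Agent.P.MP_6f117a_ag (Place FF)
open Pool.Agent.P.MP_ab3ecb_nt.Inv (Dv deg SA LS ev ord dv)
open Pool.Agent.P.MP_9344a7_nt.R
open Pool.Agent.P.MP_9344a7_nt.Hy hiding pt ev
open Pool.Agent.P.MP_9344a7_nt.Gt (pt lS Pr Can Bd Ch G12 Cv Kb)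
open scoped Classical IntermediateField

theorem p_CHG (hSUR : S_SUR) (hRFB : S_RFB) (hCORE : S_CORE) :
    S_CHG := by
  intro g d m N hg
  obtain ⟨c, d0, h1⟩ := hRFB g d
  obtain ⟨p1, h2⟩ := hCORE g d (m * d) (N + 1) hg
  refine ⟨p1 + d0 + d + (N + 1) * ((N + 2) * (d ^ (m * d) * (m * c))), ?_⟩
  intro F Ω κ ι _ _ _ _ _ _ _ C θ φ π f a0 i0 hp hm hd hf h
  have dg := fun a => (h a).1
  have em := fun a => (h a).2.1
  have e0 := fun a => (h a).2.2.1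
  have tw := fun a => (h a).2.2.2
  have d1 : 1 ≤ d := hd ▸ Fintype.card_pos_iff.2 ⟨i0⟩
  have hk : Fintype.card (κ × ι) ≤ m * d := by
    rw [Fintype.card_prod, hd]
    exact Nat.mul_le_mul_right _ hm
  obtain ⟨X0, hX, hT⟩ := h2 F Ω (κ × ι) C θ (fun x => φ x.1 x.2) (Equiv.prodCongrRight π)
    (fun x => f x.1) (a0, i0) (by omega) hk (fun x w => tw x.1 x.2 w)
    (fun x => ⟨dg x.1, ((em x.1).eq x.2 i0).trans (by rw [e0])⟩)
    (by rw [tw a0, Gt.Cv.mem_E0.1 hf]; exact (em a0).eq _ _)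
  have r := fun a => h1 (Kb F) C.E C.W (f a) C.can (Gt.ch_of_lt (by omega)) (dg a)
  choose B b1 b2 using fun a => (r a).1
  have key : ∀ T ∈ X0, ∀ a, T (a, i0) = T (a0, i0) ∧
      (∀ i, Fb (f a) (T (a, i)) (T (a0, i0))) ∧
      (Rd (f a) d (T (a0, i0)) → Function.Injective fun i => T (a, i)) := by
    intro T hT' a
    obtain ⟨-, O, hO⟩ := hT T hT'
    have e : T (a, i0) = T (a0, i0) := (hO (a, i0)).uniq (by
      have := hO (a0, i0)
      simp only at this ⊢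
      rwa [e0])
    obtain ⟨s1, -, s3⟩ := hSUR (Kb F) C.E Ω ι (f a) (φ a) O (fun i => T (a, i)) (hd ▸ dg a)
      (Gt.ch_of_lt (by omega)) (em a) fun i => hO (a, i)
    exact ⟨e, fun i => e ▸ s1 i i0, fun hr => s3 i0 (by rw [hd, e]; exact hr)⟩
  have hB : #(univ.biUnion B) ≤ m * c :=
    card_biUnion_le.trans ((sum_le_card_nsmul _ _ _ fun a _ => b1 a).trans
      (Nat.mul_le_mul_right _ hm))
  have bad : #{T ∈ X0 | T (a0, i0) ∈ univ.biUnion B} ≤ d ^ (m * d) * (m * c) := by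
    refine (card_le_mul_card_image_of_maps_to (f := fun T : κ × ι → C.Pl => T (a0, i0))
      (fun T hT' => (mem_filter.1 hT').2) _ fun P _ => ?_).trans (Nat.mul_le_mul_left _ hB)
    refine (card_le_card (t := Fintype.piFinset fun x : κ × ι =>
      {Q ∈ X0.biUnion fun T => univ.image T | Fb (f x.1) Q P}) fun T hT' => ?_).trans ?_
    · obtain ⟨a1, rfl⟩ := mem_filter.1 hT'
      have a2 := (mem_filter.1 a1).1
      exact Fintype.mem_piFinset.2 fun x => mem_filter.2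
        ⟨mem_biUnion.2 ⟨T, a2, mem_image_of_mem _ (mem_univ _)⟩, (key T a2 x.1).2.1 x.2⟩
    · rw [Fintype.card_piFinset]
      exact (prod_le_pow_card _ _ d fun x _ => (r x.1).2 P _ fun Q hQ => (mem_filter.1 hQ).2).trans
        (Nat.pow_le_pow_right d1 hk)
  refine ⟨{T ∈ X0 | T (a0, i0) ∉ univ.biUnion B}.image Function.curry, ?_, ?_⟩
  · rw [card_image_of_injective _ Function.curry_injective]
    refine Nh.plo_num hX (c := d ^ (m * d) * (m * c)) ?_ (le_trans (by omega) Gt.char_le)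
    have := card_filter_add_card_filter_not (s := X0) fun T => T (a0, i0) ∈ univ.biUnion B
    omega
  · intro T' hT' a
    obtain ⟨T, a1, rfl⟩ := mem_image.1 hT'
    obtain ⟨a2, a3⟩ := mem_filter.1 a1
    obtain ⟨k1, k2, k3⟩ := key T a2 a
    obtain ⟨v1, v2⟩ := b2 a _ fun e => a3 (mem_biUnion.2 ⟨a, mem_univ _, e⟩)
    exact ⟨k1, ⟨k3 v2, fun i => (hT T a2).1 (a, i)⟩, _, fun i =>
      (k2 i).lt (MP_ab3ecb_nt.Inv.ev_spec v1)⟩

end

section

open Finset Module WithZero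
open Pool.Agent.P.MP_6f117a_ag (Place FF)
open Pool.Agent.P.MP_ab3ecb_nt.Inv (Dv deg SA LS ev ord dv)
open Pool.Agent.P.MP_9344a7_nt.R
open Pool.Agent.P.MP_9344a7_nt.Hy hiding pt ev
open Pool.Agent.P.MP_9344a7_nt.Gt (pt lS Pr Can Bd Ch G12 Cv Kb)
open scoped Classical IntermediateField

lemma cch2_tw {k E Ω ι : Type} [Field k] [Field E] [Algebra k E] [Field Ω] [Algebra k Ω]
    {σ : SA k E} {θ : Ω ≃+* Ω} {φ : ι → E →ₐ[k] Ω} {ρ π : Equiv.Perm ι} {τ : Ω ≃ₐ[k] Ω}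
    (h : Tw σ θ φ ρ) (h' : ∀ i w, τ (φ i w) = φ ((π * ρ⁻¹) i) w) :
    Tw σ (θ.trans τ.toRingEquiv) φ π := fun i w => by
  rw [RingEquiv.trans_apply, h]
  simpa using h' (ρ i) (σ.s w)

theorem p_CH2 (hXT : S_XT) (hEMB : S_EMB) (hFRE : S_FRE) (hGRP : S_GRP) (hCHG : S_CHG) :
    S_CH2 := by
  intro g n N hg hn
  obtain ⟨p0, hp⟩ := hCHG g (n + 1) 2 N hg
  refine ⟨max p0 (n + 1), fun F _ _ C f hF f0 fd fs => ?_⟩
  have ch : Ch (Kb F) (n + 1) := Gt.ch_of_lt ((le_max_right _ _).trans_lt hF)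
  have cd : Fintype.card (Option (Fin n)) = n + 1 := by simp
  let Ω := AlgebraicClosure C.E
  let φ0 : C.E →ₐ[Kb F] Ω := IsScalarTower.toAlgHom _ _ _
  obtain ⟨θ, hθ⟩ := hXT C.E Ω φ0 C.σ.s
  have hθ' : ∀ w, θ (φ0 w) = φ0 (C.σ.s w) := hθ
  have key : ∀ f ∈ C.E0, Dg (Kb F) f (n + 1) → ∃ (φ : Option (Fin n) → C.E →ₐ[Kb F] Ω)
      (ρ : Equiv.Perm (Option (Fin n))), Em f φ ∧ φ none = φ0 ∧ Tw C.σ θ φ ρ ∧ ρ none = none :=
    fun f f0 fd => by
      obtain ⟨φ, e1, e2⟩ := (hEMB _ C.E Ω (Option (Fin n)) f (cd ▸ fd) (cd ▸ ch)).1 φ0 none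
      obtain ⟨ρ, r1, r2⟩ := hFRE _ C.E Ω _ f φ C.σ θ none (cd ▸ fd) (cd ▸ ch) e1 f0
        (fun c => by rw [← φ0.commutes, hθ', C.σ.h, φ0.commutes])
        (by rw [e2, hθ', (C.mem_E0).1 f0])
      exact ⟨φ, ρ, e1, e2, r1, r2 _ _ (e2 ▸ hθ')⟩
  obtain ⟨φ, ρ, e1, e2, r1, r2⟩ := key f f0 fd
  obtain ⟨P0, hP⟩ := hGRP _ C.E Ω n f φ hn ch fd fs e1
  refine ⟨P0, fun f' f0' fd' fs' rd α β => ?_⟩
  obtain ⟨ψ, ρ', e1', e2', r1', r2'⟩ := key f' f0' fd'
  have fx : ∀ (ρ : Equiv.Perm (Option (Fin n))) (α : Equiv.Perm (Fin n)), ρ none = none →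
      (α.optionCongr * ρ⁻¹ :) none = none := fun ρ α h => by
    rw [Equiv.Perm.mul_apply, Equiv.Perm.inv_eq_iff_eq.2 h.symm]
    rfl
  obtain ⟨τ, t1, t2⟩ := hP f' ψ fd' fs' e1' (e2'.trans e2.symm) rd _ _ (fx ρ α r2) (fx ρ' β r2')
  obtain ⟨X, x1, x2⟩ := hp F Ω Bool (Option (Fin n)) C (θ.trans τ.toRingEquiv)
    (fun a => cond a ψ φ) (fun a => cond a β.optionCongr α.optionCongr) (fun a => cond a f' f)
    false none ((le_max_left _ _).trans_lt hF) (by simp) cd f0 (by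
      rintro (_ | _)
      exacts [⟨fd, e1, rfl, cch2_tw r1 t1⟩, ⟨fd', e1', e2'.trans e2.symm, cch2_tw r1' t2⟩])
  refine ⟨X.image fun T => (T false, T true), ?_, fun T hT => ?_⟩
  · rwa [card_image_of_injective _ fun T T' e => funext fun a => by
      cases a
      exacts [congrArg Prod.fst e, congrArg Prod.snd e]]
  · obtain ⟨T, h, rfl⟩ := mem_image.1 hT
    exact ⟨(x2 T h true).1, (x2 T h false).2, (x2 T h true).2⟩

end

section

open Finset Module WithZero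
open Pool.Agent.P.MP_6f117a_ag (Place FF)
open Pool.Agent.P.MP_ab3ecb_nt.Inv (Dv deg SA LS ev ord dv)
open Pool.Agent.P.MP_9344a7_nt.R
open Pool.Agent.P.MP_9344a7_nt.Hy hiding pt ev
open Pool.Agent.P.MP_9344a7_nt.Gt (pt lS Pr Can Bd Ch G12 Cv Kb)
open scoped Classical IntermediateField

open Pool.Agent.P.MP_ab3ecb_nt.Inv in
lemma pen_a {k E : Type} [Field k] [IsAlgClosed k] [Field E] [Algebra k E] [FF k E] {D : Dv k E}
    {u y : E} (u0 : u ≠ 0) (y0 : y ≠ 0) (hu : u ∈ LS D) (hy : y ∈ LS D) {P : Place k E}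
    (h : ¬ (P.v u < exp (D P) ∧ P.v y < exp (D P))) :
    (P ∈ (dv k u + D).support ↔ P.v (u / y) < 1) ∧ (P ∈ (dv k y + D).support ↔ 1 < P.v (u / y)) ∧
      (1 < P.v (u / y) → log (P.v (u / y)) = (dv k y + D) P) := by
  have h1 := (le_exp_iff u0).1 (mem_LS.1 hu P)
  have h2 := (le_exp_iff y0).1 (mem_LS.1 hy P)
  have h3 := ord_div P u0 y0
  rw [lt_exp_iff u0, lt_exp_iff y0] at h
  rw [← neg_neg (log _), ← ord, ← not_le (a := P.v (u / y)), le_one_iff (div_ne_zero u0 y0),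
    lt_one_iff (div_ne_zero u0 y0)]
  simp only [Finsupp.mem_support_iff, Finsupp.add_apply, dv_apply]
  omega

open Pool.Agent.P.MP_ab3ecb_nt.Inv in
theorem p_PEN :
    S_PEN := by
  intro k E _ _ _ _ _ D x y d d0 hd hx hy bp li
  have y0 : y ≠ 0 := by simpa using li 0 1 (.inr one_ne_zero)
  have u0 : ∀ c : k, x - c • y ≠ 0 := fun c => by
    simpa [sub_eq_add_neg] using li 1 (-c) (.inl one_ne_zero)
  have x0 : x ≠ 0 := by simpa using u0 0
  have um : ∀ c : k, x - c • y ∈ LS D := fun c => sub_mem hx (Submodule.smul_mem _ c hy)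
  have h1 : ∀ (c : k) P,
      P ∈ (dv k (x - c • y) + D).support ↔ P.v (x / y - algebraMap k E c) < 1 := fun c P => by
    rw [show x / y - algebraMap k E c = (x - c • y) / y by rw [Algebra.smul_def]; field_simp]
    refine (pen_a (u0 c) y0 (um c) hy fun h => bp P ⟨?_, h.2⟩).1
    rw [← sub_add_cancel x (c • y)]
    refine P.v.map_add_lt h.1 (lt_of_le_of_lt ?_ h.2)
    rw [Algebra.smul_def, map_mul]
    exact mul_le_of_le_one_left' (P.triv c)
  have h2 := fun P => (pen_a x0 y0 hx hy (bp P)).2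
  have dy : deg (dv k y + D) = d := by rw [map_add, deg_dv, zero_add, hd]
  have ht : Transcendental k (x / y) := by
    obtain ⟨P, hP⟩ := Finsupp.support_nonempty_iff.2 fun e : dv k y + D = 0 => by
      rw [e, map_zero] at dy
      omega
    exact Gt.trans_of_ord (P := P) fun e =>
      ((h2 P).1.1 hP).ne' ((eq_one_iff (div_ne_zero x0 y0)).2 e)
  refine ⟨⟨ht, ?_⟩, h1, fun P => (h2 P).1, fun ι _ T c hc hT h => ?_⟩
  · obtain ⟨Z, a, b⟩ := PL.exists_poles ht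
    rw [sum_congr rfl fun P hP => (h2 P).2 ((a P).1 hP),
      ← deg_eq_of_subset fun P hP => (a P).2 ((h2 P).1.1 hP), dy] at b
    exact_mod_cast b.symm
  · have p := (mem_LS' (u0 c)).1 (um c)
    refine sub_eq_zero.1 (eq_zero_of_deg (sub_nonneg.2 fun P => ?_) ?_)
    · by_cases e : ∃ i, T i = P
      · obtain ⟨i, rfl⟩ := e
        rw [Gt.sum_pt_self hT]
        exact lt_of_le_of_ne (p _) (Finsupp.mem_support_iff.1 ((h1 c _).2 (h i))).symm
      · rw [Gt.sum_pt_ne fun i _ e' => e ⟨i, e'⟩]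
        exact p P
    · rw [map_sub, map_add, deg_dv, Gt.deg_sum_pt, card_univ, hc, hd, zero_add, sub_self]

end

section

open Finset Module WithZero
open Pool.Agent.P.MP_6f117a_ag (Place FF)
open Pool.Agent.P.MP_ab3ecb_nt.Inv (Dv deg SA LS ev ord dv)
open Pool.Agent.P.MP_9344a7_nt.R
open Pool.Agent.P.MP_9344a7_nt.Hy hiding pt ev
open Pool.Agent.P.MP_9344a7_nt.Gt (pt lS Pr Can Bd Ch G12 Cv Kb)
open scoped Classical IntermediateField

open Pool.Agent.P.MP_ab3ecb_nt.Inv in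
theorem p_PNR (hPEN : S_PEN) :
    S_PNR := by
  intro F _ _ n C R P0 hn ⟨R0, R1, R2⟩ hG
  have hD : C.W - R ∈ C.D0 := sub_mem Cv.W_mem (dm_eq.2 R1)
  have dD : deg (C.W - R) = (n + 1 : ℕ) := by
    rw [map_sub, C.can.deg_W, R2]
    omega
  have l1 : lS R = 1 := by
    have a := Gt.lS_mono (le_add_of_nonneg_right (a := R) (Gt.pt_nonneg P0))
    have b := Gt.lS_pos R0
    have := hG.bpf P0
    omega
  have l2 : lS (C.W - R) = 2 := by
    have := C.can R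
    omega
  have l3 : ∀ P, lS (C.W - R - pt P) = 1 := fun P => by
    have := C.can (R + pt P)
    rw [hG.bpf, map_add, deg_single, ← sub_sub] at this
    omega
  have hb := Gt.a_DES F _ C _ hD
  rw [l2] at hb
  obtain ⟨b, b1, b2, b3, -⟩ := hb
  have bpf : ∀ P : C.Pl, ¬ (P.v (b 0) < exp ((C.W - R) P) ∧ P.v (b 1) < exp ((C.W - R) P)) :=
    fun P h => by
      have := MP_9344a7_nt.R.rr_fd (C.W - R - pt P)
      have h1 : lS (C.W - R) ≤ lS (C.W - R - pt P) := Submodule.finrank_mono fun z hz => by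
        obtain ⟨c, rfl⟩ := b3 z hz
        rw [Fin.sum_univ_two]
        exact add_mem (Submodule.smul_mem _ _ (Gt.mem_LS_sub_pt.2 ⟨(b1 0).2, h.1⟩))
          (Submodule.smul_mem _ _ (Gt.mem_LS_sub_pt.2 ⟨(b1 1).2, h.2⟩))
      rw [l2, l3] at h1
      omega
  have ind : ∀ a c : Kb F, a ≠ 0 ∨ c ≠ 0 → a • b 0 + c • b 1 ≠ 0 := fun a c h e => by
    have := Fintype.linearIndependent_iff.1 b2 ![a, c] (by rw [Fin.sum_univ_two]; exact e)
    exact h.elim (· (this 0)) (· (this 1))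
  obtain ⟨p1, p2, p3, p4⟩ := hPEN _ _ _ _ _ (n + 1) n.succ_pos dD (b1 0).2 (b1 1).2 bpf ind
  have key : ∀ z ∈ LS (C.W - R), z ≠ 0 → n ≤ #(dv (Kb F) z + (C.W - R)).support ∧
      (P0 ∈ (dv (Kb F) z + (C.W - R)).support → n + 1 ≤ #(dv (Kb F) z + (C.W - R)).support) :=
    fun z hz z0 => by
      have h0 := (mem_LS' z0).1 hz
      obtain ⟨a1, a2⟩ := hG.sb (dv (Kb F) z + (C.W - R) + R) (le_add_of_nonneg_left h0)
        ⟨z, z0, by abel⟩
      have a3 := (card_le_card (Finsupp.support_add (g₁ := dv (Kb F) z + (C.W - R))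
        (g₂ := R))).trans (card_union_le _ _)
      have a4 := Gt.card_support_le R0
      refine ⟨by omega, fun h => ?_⟩
      have := a2 (by
        have c1 : (0 : ℤ) ≤ (dv (Kb F) z + (C.W - R)) P0 := h0 P0
        have c2 : (0 : ℤ) ≤ R P0 := R0 P0
        have := Finsupp.mem_support_iff.1 h
        rw [Finsupp.add_apply]
        omega)
      omega
  have m1 : ∀ c : Kb F, b 0 - c • b 1 ∈ LS (C.W - R) := fun c =>
    sub_mem (b1 0).2 (Submodule.smul_mem _ _ (b1 1).2)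
  have n1 : ∀ c : Kb F, b 0 - c • b 1 ≠ 0 := fun c => by
    simpa [sub_eq_add_neg] using ind 1 (-c) (.inl one_ne_zero)
  have n2 : b 1 ≠ 0 := by simpa using ind 0 1 (.inr one_ne_zero)
  refine ⟨b 0 / b 1, div_mem (b1 0).1 (b1 1).1, p1,
    ⟨fun c => ⟨_, Nat.succ_le_succ (key _ (m1 c) (n1 c)).1, fun P => (p2 c P).1⟩,
      _, Nat.succ_le_succ (key _ (b1 1).2 n2).1, fun P => (p3 P).1⟩, ?_, fun α T hT => ?_⟩
  · rcases le_or_gt (P0.v (b 0 / b 1)) 1 with e | e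
    · exact ⟨_, (key _ (m1 _) (n1 _)).2 ((p2 _ _).2 (ev_spec e)), fun Q hQ =>
        .inl ⟨_, (p2 _ _).1 hQ, ev_spec e⟩⟩
    · exact ⟨_, (key _ (b1 1).2 n2).2 ((p3 _).2 e), fun Q hQ => .inr ⟨(p3 _).1 hQ, e⟩⟩
  · obtain ⟨c, hc⟩ := hT.fb
    have h := p4 _ T c (by simp) hT.inj hc
    rw [Fintype.sum_option] at h
    exact ⟨hT.fr none, ⟨hT.inj.comp (Option.some_injective _), fun i => hT.fr (some i)⟩,
      _, n1 c, by rw [← h]; abel⟩

end

end Pool.Agent.P.MP_9344a7_nt.Ac
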