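import Pool.Agent.P.MP_9344a7_nt.Ac.IfaceU
import Pool.Agent.P.MP_9344a7_nt.Ac.IfaceC
import Pool.Agent.P.MP_9344a7_nt.Ac.IfaceG

/-! Steps UE3, UE4, UMO, DSC1, DSC, UK, LG, USZ. -/

set_option linter.unusedVariables false
set_option linter.unusedSectionVars false

namespace Pool.Agent.P.MP_9344a7_nt.Ac

section

open WithZero Module Finset Polynomial Filter
open Pool.Agent.P.MP_6f117a_ag (Place FF)
open Pool.Agent.P.MP_ab3ecb_nt.Inv
open Pool.Agent.P.MP_9344a7_nt.R (Eff J ef)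
open Pool.Agent.P.MP_9344a7_nt.Hy (LD GB FB IsL)
open Pool.Agent.P.MP_9344a7_nt.Od (GD)
open Pool.Agent.P.MP_9344a7_nt.Gt (pt lS Pr Can Bd Ch G12 Cv Kb)
open scoped Classical IntermediateField Polynomial.Bivariate

section

variable {k E : Type} [Field k] [IsAlgClosed k] [Field E] [Algebra k E] [FF k E]

lemma ue3_le {N : ℕ} {z : E} (h : Bd k N z) (P : Place k E) : P.v z ≤ exp (N : ℤ) := by
  obtain ⟨H, a, b, c⟩ := h
  refine (mem_LS.1 c P).trans (exp_le_exp.2 (le_trans ?_ b))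
  rw [deg_eq_of_subset (subset_insert P _)]
  exact single_le_sum (fun Q _ => a Q) (mem_insert_self _ _)

lemma ue3_mem {N : ℕ} {z : E} (h : Bd k N z) (P : Place k E) :
    P.v z ∈ insert 0 ((Icc (-N : ℤ) N).image exp) := by
  rcases eq_or_ne z 0 with rfl | e
  · simp
  have h1 := (le_exp_iff e).1 (ue3_le h P)
  have h2 := (le_exp_iff (inv_ne_zero e)).1 (ue3_le h.inv P)
  rw [ord_inv] at h2
  exact mem_insert_of_mem (mem_image.2 ⟨_, mem_Icc.2 ⟨h2, by omega⟩, (v_eq P e).symm⟩)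

lemma ue3_pole {g m : ℕ} {W : Dv k E} (h : Can g W) (hm : 2 * g ≤ m) (P : Place k E) :
    ∃ x, Bd k m x ∧ P.v x = exp (m : ℤ) := by
  have h1 := h.big (D := .single P m) (by rw [deg_single]; omega)
  have h2 := h.big (D := .single P m - pt P) (by rw [map_sub, deg_single, deg_single]; omega)
  rw [map_sub, deg_single, deg_single] at h2
  rw [deg_single] at h1
  obtain ⟨x, a, b⟩ := Gt.exists_of_lS_lt (D := .single P m - pt P) (D' := .single P m) (by omega)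
  refine ⟨x, ⟨_, Finsupp.single_nonneg.2 (Nat.cast_nonneg m), by simp, a⟩, ?_⟩
  rw [← Finsupp.single_eq_same (a := P) (b := (m : ℤ))]
  exact le_antisymm (mem_LS.1 a P) (not_lt.1 fun e => b (Gt.mem_LS_sub_pt.2 ⟨a, e⟩))

lemma ue3_unif {g : ℕ} {W : Dv k E} (h : Can g W) (P : Place k E) :
    ∃ x, Bd k (2 * g + 1 + 2 * g) x ∧ P.v x = exp 1 := by
  obtain ⟨x, a, b⟩ := ue3_pole h (Nat.le_succ _) P
  obtain ⟨y, c, d⟩ := ue3_pole h le_rfl P
  exact ⟨_, a.div c, by rw [map_div₀, b, d, ← exp_sub]; simp⟩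

end

theorem p_UE3 :
    S_UE3 := by
  intro k E _ _ _ _ _ k' E' _ _ _ 𝒰 g W hW P
  have key : ∀ w : E', ∃ c, ∀ z ∈ Bs k E, 𝒰.fn z = w → ∀ᶠ i in UU, (P i).v (z i) = c := fun w => by
    obtain ⟨z, hz, rfl⟩ := 𝒰.fn_surj w
    obtain ⟨N, hN⟩ := id hz
    obtain ⟨c, -, hc⟩ := uu_fin (hN.mono fun i h => ue3_mem h (P i))
    exact ⟨c, fun z' hz' e => (hc.and ((𝒰.fn_inj hz' hz).1 e)).mono fun i a => a.2 ▸ a.1⟩
  choose V hV using key
  replace hV := fun z hz => hV _ z hz rfl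
  let v : Valuation E' ℤᵐ⁰ :=
    { toFun := V
      map_zero' := by simpa [eq_comm] using (hV 0 (zero_mem _)).exists
      map_one' := by simpa [eq_comm] using (hV 1 (one_mem _)).exists
      map_mul' := fun x y => by
        obtain ⟨x, hx, rfl⟩ := 𝒰.fn_surj x
        obtain ⟨y, hy, rfl⟩ := 𝒰.fn_surj y
        obtain ⟨i, a, b, c⟩ := ((hV x hx).and ((hV y hy).and (hV _ (mul_mem hx hy)))).exists
        rw [← 𝒰.fn_mul hx hy, ← a, ← b, ← c]
        exact map_mul _ _ _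
      map_add_le_max' := fun x y => by
        obtain ⟨x, hx, rfl⟩ := 𝒰.fn_surj x
        obtain ⟨y, hy, rfl⟩ := 𝒰.fn_surj y
        obtain ⟨i, a, b, c⟩ := ((hV x hx).and ((hV y hy).and (hV _ (add_mem hx hy)))).exists
        change V _ ≤ max (V _) (V _)
        rw [← 𝒰.fn_add hx hy, ← a, ← b, ← c]
        exact (P i).v.map_add _ _ }
  replace hV : ∀ z ∈ Bs k E, ∀ᶠ i in UU, (P i).v (z i) = v (𝒰.fn z) := hV
  refine ⟨⟨v, fun c => ?_, fun c => ?_⟩, hV, fun z hz => ?_⟩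
  · choose x a b using fun i => ue3_unif (hW i) (P i)
    obtain ⟨i, hi⟩ := (hV x ⟨_, .of_forall a⟩).exists
    rcases eq_or_ne c 0 with rfl | e
    · exact ⟨0, map_zero _⟩
    · exact ⟨𝒰.fn x ^ log c, by rw [map_zpow₀, ← hi, b, ← exp_zsmul, smul_eq_mul, mul_one, exp_log e]⟩
  · obtain ⟨c, rfl⟩ := 𝒰.up.surj c
    obtain ⟨i, hi⟩ := (hV _ (const_mem_Bs c)).exists
    rw [← 𝒰.fn_const, ← hi]
    exact (P i).triv _
  · rcases le_or_gt (v (𝒰.fn z)) 1 with e | e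
    · obtain ⟨i, a, b⟩ := ((hV z hz).and
        (hV _ (sub_mem hz (const_mem_Bs fun i => ev (P i) (z i))))).exists
      rw [𝒰.fn_sub hz (const_mem_Bs _), 𝒰.fn_const] at b
      exact ev_eq (b.ge.trans_lt (ev_spec (a.le.trans e)))
    · rw [ev, dif_neg fun ⟨_, h⟩ => e.not_ge (le_one_of_sub h), eq_comm, 𝒰.π_eq_zero]
      exact (hV z hz).mono fun i a => dif_neg fun ⟨_, h⟩ => (a ▸ e).not_ge (le_one_of_sub h)

end

section

open WithZero Module Finset Polynomial Filter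
open Pool.Agent.P.MP_6f117a_ag (Place FF)
open Pool.Agent.P.MP_ab3ecb_nt.Inv
open Pool.Agent.P.MP_9344a7_nt.R (Eff J ef)
open Pool.Agent.P.MP_9344a7_nt.Hy (LD GB FB IsL)
open Pool.Agent.P.MP_9344a7_nt.Od (GD)
open Pool.Agent.P.MP_9344a7_nt.Gt (pt lS Pr Can Bd Ch G12 Cv Kb)
open scoped Classical IntermediateField Polynomial.Bivariate

section

variable {k E : Type} [Field k] [IsAlgClosed k] [Field E] [Algebra k E] [FF k E]

lemma ue4_pole {g : ℕ} {W : Dv k E} (h : Can g W) (P : Place k E) :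
    ∃ z : E, Bd k (2 * g + 1) z ∧ 1 < P.v z ∧ ∀ Q : Place k E, Q ≠ P → Q.v z ≤ 1 := by
  have hd : ∀ m : ℕ, deg (m • pt P) = m := fun m => by rw [map_nsmul, deg_single, nsmul_one]
  have h1 := h.big (D := (2 * g) • pt P) (by rw [hd]; omega)
  have h2 := h.big (D := (2 * g + 1) • pt P) (by rw [hd]; omega)
  rw [hd] at h1 h2
  obtain ⟨z, a, b⟩ := Gt.exists_of_lS_lt (D := (2 * g) • pt P) (D' := (2 * g + 1) • pt P)
    (by omega)
  have c : ∀ Q : Place k E, Q ≠ P → Q.v z ≤ 1 := fun Q e =>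
    Gt.le_one_of_LS a (by rw [Finsupp.smul_apply, Gt.pt_ne e, smul_zero])
  refine ⟨z, Bd.of_mem (nsmul_nonneg (Gt.pt_nonneg P) _) (hd _).le a, not_le.1 fun e => b ?_, c⟩
  refine LS_mono (nsmul_nonneg (Gt.pt_nonneg P) _) (mem_LS.2 fun Q => ?_)
  rcases eq_or_ne Q P with rfl | e'
  · exact e
  · exact c Q e'

lemma ue4_zd {t : E} (ht : Transcendental k t) : ∃ D : Dv k E, deg D = finrank k⟮t⟯ E ∧
    ∀ P, D P = max (ord P t) 0 := by
  obtain ⟨Z, h1, h2⟩ := (PL.model ht).fund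
  have h0 : t ≠ 0 := fun e => ht (e ▸ isAlgebraic_zero)
  have h3 : ∀ P, (dv k t ⊔ 0) P = max (ord P t) 0 := fun P => by
    rw [Finsupp.sup_apply, dv_apply]; rfl
  refine ⟨dv k t ⊔ 0, ?_, h3⟩
  rw [deg_eq_of_subset (S := Z) fun P hP => by
    have := Finsupp.mem_support_iff.1 hP
    rw [h3] at this
    rw [h1, lt_one_iff h0]
    omega, ← h2]
  exact sum_congr rfl fun P hP => by
    rw [h3, max_eq_left ((lt_one_iff h0).1 ((h1 P).1 hP)).le, ord]

end

theorem p_UE4 (hBDF : S_BDF) (hUE2 : S_UE2) :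
    S_UE4 := by
  intro k E _ _ _ _ _ k' E' _ _ _ _ _ _ 𝒰 g W pl hW hne hpl
  have inj : ∀ P Q, pl P = pl Q → ∀ᶠ i in UU, P i = Q i := fun P Q e => by
    choose z z1 z2 z3 using fun i => ue4_pole (hW i) (P i)
    have hz : z ∈ Bs k E := ⟨_, .of_forall z1⟩
    filter_upwards [(hpl P).v z hz, (hpl Q).v z hz] with i a b
    by_contra c
    exact (z2 i).not_ge (by rw [a, e, ← b]; exact z3 i _ (Ne.symm c))
  refine ⟨inj, fun Q => ?_⟩
  obtain ⟨u1, -, u3⟩ := hUE2 k E k' E' 𝒰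
  obtain ⟨z, hz, ez⟩ := 𝒰.fn_surj Q.π
  have ht : Transcendental k' (𝒰.fn z) := ez ▸ Q.π_trans
  have h1 := (u3 z hz).1 ht
  obtain ⟨N, hN⟩ := id hz
  obtain ⟨d, -, hd⟩ := uu_le (f := fun i => finrank (k i)⟮z i⟯ (E i)) (N := N)
    ((h1.and hN).mono fun i e => (hBDF _ _ _ _ e.1).1 e.2)
  have h2 := (u1 z hz d ((h1.and hd).mono fun i e => (hBDF _ _ _ _ e.1).2 e.2.le) ht).2
  obtain ⟨P, hP⟩ : ∃ P : ∀ i, Fin d → Place (k i) (E i), ∀ᶠ i in UU,
      ∀ R, (∑ a, pt (P i a)) R = max (ord R (z i)) 0 := by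
    refine (Filter.skolem (P := fun i (P : Fin d → Place (k i) (E i)) =>
      ∀ R, (∑ a, pt (P a)) R = max (ord R (z i)) 0)).1 ((h1.and hd).mono fun i e => ?_)
    obtain ⟨D, a, b⟩ := ue4_zd e.1
    obtain ⟨R, hR⟩ := eff_sum d D (fun R => by rw [b]; exact le_max_right _ _) (by rw [a, e.2])
    exact ⟨R, hR ▸ b⟩
  obtain ⟨T, T1, T2⟩ := ue4_zd ht
  have h3 : ∑ a, pt (pl fun i => P i a) ≤ T := fun R => by
    by_cases e : ∀ a, (pl fun i => P i a) ≠ R
    · rw [Gt.sum_pt_eq_zero.2 e, T2]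
      exact le_max_right _ _
    obtain ⟨a, rfl⟩ : ∃ a, (pl fun i => P i a) = R := by simpa using e
    have h4 : ∀ b, ∀ᶠ i in UU,
        pt (pl fun i => P i b) (pl fun i => P i a) ≤ pt (P i b) (P i a) := fun b => by
      by_cases e' : (pl fun i => P i a) = pl fun i => P i b
      · filter_upwards [inj _ _ e'] with i hi using by simp [e', hi]
      · exact .of_forall fun i => by rw [Gt.pt_ne e']; exact Gt.pt_nonneg _ _
    obtain ⟨i, a1, a2, a3⟩ :=
      (hP.and ((eventually_all.2 h4).and ((hpl fun i => P i a).v z hz))).exists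
    rw [T2, ord, ← a3, ← ord, ← a1, Finsupp.finsetSum_apply, Finsupp.finsetSum_apply]
    exact sum_le_sum fun b _ => a2 b
  have h5 := eq_zero_of_deg (sub_nonneg.2 h3) (le_antisymm (by
    rw [map_sub, T1, Gt.deg_sum_pt, card_univ, Fintype.card_fin]
    omega) (deg_nonneg (sub_nonneg.2 h3)))
  by_contra e
  have h6 := T2 Q
  rw [sub_eq_zero.1 h5, Gt.sum_pt_eq_zero.2 fun a c => e ⟨_, c⟩, ez, ord_π] at h6
  simp at h6

end

section

open WithZero Module Finset Polynomial Filter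
open Pool.Agent.P.MP_6f117a_ag (Place FF)
open Pool.Agent.P.MP_ab3ecb_nt.Inv
open Pool.Agent.P.MP_9344a7_nt.R (Eff J ef)
open Pool.Agent.P.MP_9344a7_nt.Hy (LD GB FB IsL)
open Pool.Agent.P.MP_9344a7_nt.Od (GD)
open Pool.Agent.P.MP_9344a7_nt.Gt (pt lS Pr Can Bd Ch G12 Cv Kb)
open scoped Classical IntermediateField Polynomial.Bivariate

open scoped IntermediateField.algebraAdjoinAdjoin in
lemma umo_li {k E : Type} [Field k] [Field E] [Algebra k E] {a : E} (ha : Transcendental k a)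
    {m : ℕ} (v : Fin m → E) : LinearIndependent k⟮a⟯ v ↔
      ∀ g : Fin m → k[X], ∑ r, aeval a (g r) * v r = 0 → ∀ r, g r = 0 := by
  rw [← LinearIndependent.iff_fractionRing (Algebra.adjoin k {a}) k⟮a⟯,
    Fintype.linearIndependent_iff]
  refine ⟨fun h g e r => transcendental_iff.1 ha _ (congrArg Subtype.val
    (h (fun r => ⟨aeval a (g r), aeval_mem_adjoin_singleton k a⟩) e r)), fun h c e r => ?_⟩
  choose g hg using fun r => (Algebra.adjoin_singleton_eq_range_aeval k a).le (c r).2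
  have hg : ∀ r, aeval a (g r) = (c r).1 := hg
  refine Subtype.ext ((hg r).symm.trans ?_)
  rw [h g (by simp only [hg]; exact e) r, map_zero]
  rfl

lemma umo_mk {R : Type} [Semiring R] (d : ℕ) (c : ℕ → R) (h : ∀ s, d < s → c s = 0) :
    ∃ G : R[X], ∀ s, G.coeff s = c s := by
  refine ⟨∑ s ∈ range (d + 1), monomial s (c s), fun s => ?_⟩
  simp only [finsetSum_coeff, coeff_monomial, sum_ite_eq', mem_range]
  split_ifs with e
  exacts [rfl, (h s (by omega)).symm]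

lemma umo_biv {k E : Type} [Field k] [Field E] [Algebra k E] (a b : E) {Ψ : k[X][Y]} {d : ℕ}
    (h : Ψ.natDegree ≤ d) :
    aevalAeval a b Ψ = ∑ r : Fin (d + 1), aeval a (Ψ.coeff r) * b ^ (r : ℕ) := by
  conv_lhs => rw [Ψ.as_sum_range' (d + 1) (by omega), map_sum, sum_range]
  simp only [← C_mul_X_pow_eq_monomial, map_mul, map_pow, aevalAeval_C, aevalAeval_Y]

section

variable {k E : ℕ → Type} [∀ i, Field (k i)] [∀ i, Field (E i)] [∀ i, Algebra (k i) (E i)]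
  {k' E' : Type} [Field k'] [Field E'] [Algebra k' E'] (𝒰 : U0 k E k' E') {a b : ∀ i, E i}

lemma umo_eq {G H : (∀ i, k i)[X]}
    (h : ∀ᶠ i in UU, G.map (Pi.evalRingHom k i) = H.map (Pi.evalRingHom k i)) :
    G.map 𝒰.π = H.map 𝒰.π := by
  ext s
  rw [coeff_map, coeff_map, 𝒰.π_eq]
  filter_upwards [h] with i e using by simpa using congrArg (coeff · s) e

lemma umo_ev (ha : a ∈ Bs k E) (G : (∀ i, k i)[X]) :
    (fun i => aeval (a i) (G.map (Pi.evalRingHom k i))) ∈ Bs k E ∧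
    𝒰.fn (fun i => aeval (a i) (G.map (Pi.evalRingHom k i))) = aeval (𝒰.fn a) (G.map 𝒰.π) := by
  induction G using Polynomial.induction_on' with
  | add p q hp hq =>
    simp only [Polynomial.map_add, map_add]
    exact ⟨add_mem hp.1 hq.1, (𝒰.fn_add hp.1 hq.1).trans (by rw [hp.2, hq.2])⟩
  | monomial s c =>
    simp only [Polynomial.map_monomial, aeval_monomial, ← Algebra.smul_def, Pi.evalRingHom_apply]
    exact ⟨smul_mem_Bs c (pow_mem ha s),
      (𝒰.fn_smul c (pow_mem ha s)).trans (by rw [𝒰.fn_pow ha])⟩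

lemma umo_sum (ha : a ∈ Bs k E) (hb : b ∈ Bs k E) {m : ℕ} (G : Fin m → (∀ i, k i)[X]) :
    ∑ r, aeval (𝒰.fn a) ((G r).map 𝒰.π) * 𝒰.fn b ^ (r : ℕ) = 0 ↔ ∀ᶠ i in UU,
      ∑ r, aeval (a i) ((G r).map (Pi.evalRingHom k i)) * b i ^ (r : ℕ) = 0 := by
  have h := fun r : Fin m => mul_mem (umo_ev 𝒰 ha (G r)).1 (pow_mem hb r)
  have := 𝒰.fn_eq_zero (sum_mem (t := univ) fun r _ => h r)
  rw [𝒰.fn_sum _ h] at this
  simpa only [𝒰.fn_mul (umo_ev 𝒰 ha _).1 (pow_mem hb _), (umo_ev 𝒰 ha _).2, 𝒰.fn_pow hb,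
    Finset.sum_apply, Pi.mul_apply, Pi.pow_apply] using this

end

theorem p_UMO (hBDF : S_BDF) (hUE2 : S_UE2) (hUL1 : S_UL1) (hUL2 : S_UL2) :
    S_UMO := by
  intro k E _ _ _ _ _ k' E' _ _ _ _ _ _ 𝒰 n d W a b Ψ h
  obtain ⟨W', hW⟩ := (hUL1 k E k' E' 𝒰).2.1 W (2 * n) (.of_forall fun i => ⟨(h i).pos, by
    rw [(h i).can.deg_W]; push_cast; omega⟩)
  obtain ⟨l1, -, l3, l4⟩ := hUL2 k E k' E' 𝒰
  obtain ⟨u1, -, u3⟩ := hUE2 k E k' E' 𝒰.toU0
  have ha : a ∈ Bs k E := ⟨d, .of_forall fun i => (h i).ba⟩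
  have hb : b ∈ Bs k E := ⟨d, .of_forall fun i => (h i).bb⟩
  have tr := (u3 a ha).2 (.of_forall fun i => (h i).tr)
  choose G hG using fun r => umo_mk d (fun s i => ((Ψ i).coeff r).coeff s) fun s hs =>
    funext fun i => coeff_eq_zero_of_natDegree_lt (((h i).cf r).trans_lt hs)
  have e1 : ∀ r i, (G r).map (Pi.evalRingHom k i) = (Ψ i).coeff r := fun r i => by
    ext s
    rw [coeff_map, hG]
    rfl
  obtain ⟨m, hm, hm'⟩ := uu_le (f := fun i => (Ψ i).natDegree) (.of_forall fun i => (h i).dg)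
  obtain ⟨Ψ', hΨ⟩ := umo_mk m (fun r => (G r).map 𝒰.π) fun r hr =>
    (umo_eq 𝒰.toU0 (hm'.mono fun i e => by
      rw [e1, coeff_eq_zero_of_natDegree_lt (e.trans_lt hr), Polynomial.map_zero])).trans
      (Polynomial.map_zero _)
  have dg : Ψ'.natDegree ≤ m := natDegree_le_iff_coeff_eq_zero.2 fun r hr => (hΨ r).trans
    ((umo_eq 𝒰.toU0 (hm'.mono fun i e => by
      rw [e1, coeff_eq_zero_of_natDegree_lt (e.trans_lt hr), Polynomial.map_zero])).trans
      (Polynomial.map_zero _))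
  refine ⟨W', Ψ', hW, ⟨(l1 W W' hW).2.2.2.2 _ (.of_forall fun i => (h i).can),
    hW.nonneg.2 (.of_forall fun i => (h i).pos), l3 (.of_forall fun i => (h i).nh), tr,
    l4 a ha d (.of_forall fun i => (h i).ba), l4 b hb d (.of_forall fun i => (h i).bb),
    monic_of_natDegree_le_of_coeff_eq_one m dg ((hΨ m).trans ((umo_eq 𝒰.toU0 (hm'.mono
      fun i e => ?_)).trans (Polynomial.map_one _))), dg.trans hm, fun r => ?_, ?_, ?_⟩,
    fun r s => by rw [hΨ, coeff_map, hG]⟩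
  · rw [e1, Polynomial.map_one, ← e]
    exact (h i).mon
  · refine natDegree_le_iff_coeff_eq_zero.2 fun s hs => ?_
    rw [hΨ, coeff_map, hG, 𝒰.π_eq_zero]
    exact .of_forall fun i => coeff_eq_zero_of_natDegree_lt (((h i).cf r).trans_lt hs)
  · rw [umo_biv _ _ (dg.trans hm)]
    simp only [hΨ]
    refine (umo_sum 𝒰.toU0 ha hb _).2 (.of_forall fun i => ?_)
    simp only [e1]
    exact (umo_biv _ _ (h i).dg).symm.trans (h i).eq
  obtain ⟨c, -, hc⟩ := uu_le (f := fun i => finrank (k i)⟮a i⟯ (E i)) (.of_forall fun i =>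
    (hBDF _ _ _ _ (h i).tr).1 (h i).ba)
  obtain ⟨fd, rk⟩ := u1 a ha c (hc.mono fun i e => (hBDF _ _ _ _ (h i).tr).2 e.le) tr
  have li : LinearIndependent k'⟮𝒰.fn a⟯ fun r : Fin c => 𝒰.fn b ^ (r : ℕ) := by
    refine (umo_li tr _).2 fun g e r => ?_
    choose H hH using fun r => Polynomial.map_surjective 𝒰.π 𝒰.up.surj (g r)
    rw [← hH]
    refine (umo_eq 𝒰.toU0 ?_).trans (Polynomial.map_zero _)
    filter_upwards [hc, (umo_sum 𝒰.toU0 ha hb H).1 (by simpa only [hH] using e)] with i e1 e2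
    have := FF.fin _ (h i).tr
    have t := (h i).top
    rw [← IntermediateField.adjoin_simple_adjoin_simple,
      IntermediateField.restrictScalars_eq_top_iff,
      Field.primitive_element_iff_minpoly_natDegree_eq, e1] at t
    subst t
    rw [(umo_li (h i).tr _).1 (linearIndependent_pow (b i)) _ e2 r, Polynomial.map_zero]
  rw [← IntermediateField.adjoin_simple_adjoin_simple, IntermediateField.restrictScalars_eq_top_iff,
    eq_top_iff]
  intro w _
  have hw : w ∈ Submodule.span _ _ := (li.span_eq_top_of_card_eq_finrank'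
    (li.fintype_card_le_finrank.antisymm (by simpa using rk))).ge trivial
  exact Submodule.span_le.2 (show _ ⊆ ((k'⟮𝒰.fn a⟯⟮𝒰.fn b⟯).toSubalgebra.toSubmodule : Set E') from
    Set.range_subset_iff.2 fun r : Fin c =>
      pow_mem (IntermediateField.mem_adjoin_simple_self _ _) r.1) hw

end

section

open WithZero Module Finset Polynomial Filter
open Pool.Agent.P.MP_6f117a_ag (Place FF)
open Pool.Agent.P.MP_ab3ecb_nt.Inv
open Pool.Agent.P.MP_9344a7_nt.R (Eff J ef)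
open Pool.Agent.P.MP_9344a7_nt.Hy (LD GB FB IsL)
open Pool.Agent.P.MP_9344a7_nt.Od (GD)
open Pool.Agent.P.MP_9344a7_nt.Gt (pt lS Pr Can Bd Ch G12 Cv Kb)
open scoped Classical IntermediateField Polynomial.Bivariate

theorem dsc1_ev {k E : Type} [Field k] [Field E] [Algebra k E] (a b : E) (Ψ : k[X][Y]) :
    aevalAeval a b Ψ = (Ψ.map (aeval a : k[X] →ₐ[k] E).toRingHom).eval b := by
  induction Ψ using Polynomial.induction_on' with
  | add p q hp hq => rw [map_add, Polynomial.map_add, eval_add, hp, hq]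
  | monomial n p =>
    rw [← C_mul_X_pow_eq_monomial, map_mul, map_pow, aevalAeval_C, aevalAeval_Y]
    simp

theorem dsc1_int {K k E : Type} [Field K] [Field k] [Algebra K k] [Field E] [Algebra k E]
    [Algebra K E] [IsScalarTower K k E] (a b : E) (Ψ : k[X][Y]) (hm : Ψ.Monic)
    (h0 : aevalAeval a b Ψ = 0) (hc : ∀ r s, (Ψ.coeff r).coeff s ∈ Set.range (algebraMap K k)) :
    IsIntegral K⟮a⟯ b := by
  have h1 : Ψ.map (aeval a : k[X] →ₐ[k] E).toRingHom ∈ lifts (algebraMap K⟮a⟯ E) := by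
    rw [lifts_iff_coeff_lifts]
    intro r
    have h2 : aeval a (Ψ.coeff r) ∈ K⟮a⟯ := by
      rw [aeval_eq_sum_range]
      refine sum_mem fun s _ => ?_
      obtain ⟨c, hc⟩ := hc r s
      rw [← hc, algebraMap_smul]
      exact IntermediateField.smul_mem _ (pow_mem (IntermediateField.mem_adjoin_simple_self K a) s)
    exact ⟨⟨_, h2⟩, by rw [coeff_map]; rfl⟩
  obtain ⟨q, h2, -, h3⟩ := lifts_and_natDegree_eq_and_monic h1 (hm.map _)
  exact ⟨q, h3, by rw [eval₂_eq_eval_map, h2, ← dsc1_ev, h0]⟩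

theorem dsc1_ff {K E : Type} [Field K] [Field E] [Algebra K E] (a b : E)
    (h : IsIntegral K⟮a⟯ b) : FF K K⟮a⟯⟮b⟯ := by
  have := IntermediateField.adjoin.finiteDimensional h
  have h1 : ∀ S : IntermediateField K K⟮a⟯, S = ⊤ → FiniteDimensional S K⟮a⟯ := by
    rintro _ rfl
    exact Module.finite_of_finrank_eq_succ (n := 0) IntermediateField.finrank_top
  have := h1 K⟮(⟨a, IntermediateField.mem_adjoin_simple_self K a⟩ : K⟮a⟯)⟯
    (IntermediateField.lift_injective _ (by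
      rw [IntermediateField.lift_adjoin_simple, IntermediateField.lift_top]))
  exact (PL.ff_of_finite K K⟮a⟯ K⟮a⟯⟮b⟯ ⟨a, IntermediateField.mem_adjoin_simple_self K a⟩).2

/-- Transport of a constant field extension along an isomorphism. -/
theorem dsc1_ce {K F k E E' : Type} [Field K] [Field F] [Algebra K F] [Field k] [Algebra K k]
    [Field E] [Algebra k E] [Field E'] [Algebra k E'] {j : F →+* E}
    {act : (k ≃ₐ[K] k) →* RingAut E} (h : CE j act) (e : E ≃ₐ[k] E') :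
    ∃ act' : (k ≃ₐ[K] k) →* RingAut E', CE ((e : E →+* E').comp j) act' := by
  let act' : (k ≃ₐ[K] k) →* RingAut E' := MonoidHom.mk'
    (fun τ => (e.symm.toRingEquiv.trans (act τ)).trans e.toRingEquiv) fun σ τ => by
      ext z
      simp [RingAut.mul_apply]
  have ha : ∀ τ z, act' τ (e z) = e (act τ z) := fun τ z => by simp [act']
  have hs : ∀ z ∈ Submodule.span k (Set.range j),
      e z ∈ Submodule.span k (Set.range ((e : E →+* E').comp j)) := fun z hz => by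
    have := Submodule.mem_map_of_mem (f := e.toLinearMap) hz
    rw [Submodule.map_span, ← Set.range_comp] at this
    exact this
  refine ⟨act', fun c => ?_, fun τ c => ?_, fun τ z => ?_, fun ι b hb => ?_, fun z => ?_⟩
  · simp [h.comm]
  · rw [← e.commutes c, ha, h.semi, e.commutes]
  · exact (ha τ (j z)).trans (by rw [h.fixF]; rfl)
  · exact (h.lin ι b hb).map' e.toLinearMap (LinearMap.ker_eq_bot.2 e.injective)
  · obtain ⟨b, h1, h2, h3⟩ := h.frac (e.symm z)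
    exact ⟨e b, hs b h1, (map_ne_zero e).2 h2, by simpa using hs _ h3⟩

theorem p_DSC1 (hGEX : S_GEX) (hGLF : S_GLF) :
    S_DSC1 := by
  intro K k E _ _ _ _ _ _ _ _ _ a b Ψ ha hm h0 ht hc
  let : Algebra K E := ((algebraMap k E).comp (algebraMap K k)).toAlgebra
  have : IsScalarTower K k E := .of_algebraMap_eq fun _ => rfl
  have := dsc1_ff a b (dsc1_int (K := K) a b Ψ hm h0 hc)
  have h1 : a ∈ K⟮a⟯⟮b⟯ := (K⟮a⟯⟮b⟯).algebraMap_mem ⟨a, IntermediateField.mem_adjoin_simple_self K a⟩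
  have h2 : b ∈ K⟮a⟯⟮b⟯ := IntermediateField.mem_adjoin_simple_self _ b
  let y : K⟮a⟯⟮b⟯ →ₐ[K] E := (K⟮a⟯⟮b⟯).val.restrictScalars K
  have h3 : Transcendental K (⟨a, h1⟩ : K⟮a⟯⟮b⟯) := fun h =>
    ha ((h.algHom y).extendScalars (algebraMap K k).injective)
  obtain ⟨E0, _, _, _, ⟨X⟩⟩ := hGEX K K⟮a⟯⟮b⟯ k _ h3
  obtain ⟨y', h4, -⟩ := hGLF K K⟮a⟯⟮b⟯ k E0 E X.j X.act _ y X.ce h3 ha
  have h5 : Function.Surjective y' := by
    have : k⟮a, b⟯ ≤ y'.fieldRange := IntermediateField.adjoin_le_iff.2 (by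
      rintro z (rfl | rfl)
      · exact ⟨_, h4 ⟨_, h1⟩⟩
      · exact ⟨_, h4 ⟨_, h2⟩⟩)
    intro z
    exact this (ht ▸ IntermediateField.mem_top)
  obtain ⟨act', h6⟩ := dsc1_ce X.ce (AlgEquiv.ofBijective y' ⟨y'.injective, h5⟩)
  obtain ⟨ext, pl, h7⟩ := j_CL K K⟮a⟯⟮b⟯ k E _ act' h6 ⟨_, h3⟩
  exact ⟨K⟮a⟯⟮b⟯, inferInstance, inferInstance, inferInstance, ⟨_, act', h6, ext, pl, h7⟩,
    ⟨a, h1⟩, h3, h4 ⟨a, h1⟩⟩

end

section

open WithZero Module Finset Polynomial Filter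
open Pool.Agent.P.MP_6f117a_ag (Place FF)
open Pool.Agent.P.MP_ab3ecb_nt.Inv
open Pool.Agent.P.MP_9344a7_nt.R (Eff J ef)
open Pool.Agent.P.MP_9344a7_nt.Hy (LD GB FB IsL)
open Pool.Agent.P.MP_9344a7_nt.Od (GD)
open Pool.Agent.P.MP_9344a7_nt.Gt (pt lS Pr Can Bd Ch G12 Cv Kb)
open scoped Classical IntermediateField Polynomial.Bivariate

theorem p_DSC (hGBC : S_GBC) (hGCS : S_GCS) (hDSC1 : S_DSC1) :
    S_DSC := by
  intro n d K k E _ _ _ _ _ _ _ _ _ W a b Ψ h h1 h2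
  obtain ⟨F, _, _, _, X, t, ht, rfl⟩ := hDSC1 K k E a b Ψ h.tr h.mon h.eq h.top h1
  obtain ⟨W0, rfl⟩ := (hGCS K F k E X t ht).2.1 W h.pos h2
  have l := fun D => (hGBC K F k E X t ht D).2
  have c : Can (n + 1) W0 := fun D => by rw [← l, ← l, map_sub, h.can, X.deg_up]
  have := R.rr_fd W0
  let e := finBasisOfFinrankEq K (LS W0) c.lS_W
  refine ⟨F, _, _, ‹_›, ⟨t, W0, fun m => e m, ht, c, fun ⟨P, Q, e⟩ => h.nh ⟨X.ext P, X.ext Q, ?_⟩,
    fun m => (e m).2, e.linearIndependent.map' (LS W0).subtype (Submodule.ker_subtype _)⟩, X,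
    rfl, rfl⟩
  rwa [← X.up_pt, ← X.up_pt, ← map_add, l]

end

section

open WithZero Module Finset Polynomial Filter
open Pool.Agent.P.MP_6f117a_ag (Place FF)
open Pool.Agent.P.MP_ab3ecb_nt.Inv
open Pool.Agent.P.MP_9344a7_nt.R (Eff J ef)
open Pool.Agent.P.MP_9344a7_nt.Hy (LD GB FB IsL)
open Pool.Agent.P.MP_9344a7_nt.Od (GD)
open Pool.Agent.P.MP_9344a7_nt.Gt (pt lS Pr Can Bd Ch G12 Cv Kb)
open scoped Classical IntermediateField Polynomial.Bivariate

theorem p_UK (hUE1 : S_UE1) (hUE2 : S_UE2) (hUE3 : S_UE3) (hUE4 : S_UE4) (hUCP : S_UCP) (hUMO : S_UMO) (hDSC : S_DSC) :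
    S_UK := by
  intro k E _ _ _ _ _ n d W a b Ψ hc h
  obtain ⟨k', E', _, _, _, _, _, ⟨U⟩⟩ := hUE1 k E hc
  have := (hUE2 k E k' E' U).2.1
  choose pl hp using hUE3 k E k' E' U _ W fun i => (h i).can
  have ne : ∀ i, Nonempty (Place (k i) (E i)) := fun i => (PL.exists_pole (h i).tr).nonempty
  obtain ⟨i1, i2⟩ := hUE4 k E k' E' U _ W pl (fun i => (h i).can) ne hp
  let V : Uf k E k' E' := ⟨U, ne, pl, hp, i1, i2⟩
  obtain ⟨W', Ψ', l, m, c⟩ := hUMO k E k' E' V n d W a b Ψ h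
  have mem : ∀ (T : Set k') (x : k'), x ∈ T → x ∈ Set.range (algebraMap (acl ℚ T) k') :=
    fun T x e => ⟨⟨x, subset_acl T e⟩, rfl⟩
  refine ⟨k', E', _, ‹_›, ‹_›, _, _, ‹_›, V, W', l, fun μ Z m0 T hZ hT =>
    hDSC n d (acl ℚ T) k' E' W' _ _ Ψ' m (fun r s => mem T _ ?_) fun j => mem T _ ?_⟩
  · exact hT ▸ ⟨.inl (r, s), (c r s).symm⟩
  · rw [(hUCP k E k' E' V a ⟨d, .of_forall fun i => (h i).ba⟩ W W' l).1, hT]
    simp only [← hZ]
    exact ⟨.inr (m0, j), rfl⟩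

end

section

open WithZero Module Finset Polynomial Filter
open Pool.Agent.P.MP_6f117a_ag (Place FF)
open Pool.Agent.P.MP_ab3ecb_nt.Inv
open Pool.Agent.P.MP_9344a7_nt.R (Eff J ef)
open Pool.Agent.P.MP_9344a7_nt.Hy (LD GB FB IsL)
open Pool.Agent.P.MP_9344a7_nt.Od (GD)
open Pool.Agent.P.MP_9344a7_nt.Gt (pt lS Pr Can Bd Ch G12 Cv Kb)
open scoped Classical IntermediateField Polynomial.Bivariate

theorem p_LG (hGGR : S_GGR) (hUL1 : S_UL1) (hUL2 : S_UL2) (hUCP : S_UCP) (hUAV : S_UAV) (hGCS : S_GCS) (hUK : S_UK) :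
    S_LG := by
  intro n d hn
  obtain ⟨S, hS⟩ := uu_exh (MvPolynomial (Fin (n - 1)) (Pz (Ix Bool)))
  by_contra H
  simp only [not_exists, not_forall] at H
  choose k E i1 i2 i3 i4 i5 W a b Ψ P0 R ch mo r0 rd av ng using fun i => H (S i) i
  obtain ⟨k', E', _, _, _, _, _, _, 𝒰, W', hW, HK⟩ := hUK k E n d W a b Ψ ch mo
  obtain ⟨F, _, _, _, C, X, xt, xW⟩ :=
    HK Bool (fun i c => if c then W i else pt (P0 i)) true _ (fun _ => rfl) rfl
  have ha : a ∈ Bs k E := ⟨d, .of_forall fun i => (mo i).ba⟩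
  obtain ⟨-, u2, -, u4, -⟩ := hUL1 k E k' E' 𝒰
  have v := (hUL2 k E k' E' 𝒰).1
  have cp1 := fun D D' h => (hUCP k E k' E' 𝒰 a ha D D' h).1
  obtain ⟨-, g2, g3⟩ := hGCS _ F k' E' X C.t C.ht
  rw [xt] at g2 g3
  obtain ⟨R', hR⟩ := u2 R (n - 1) (.of_forall fun i => ⟨r0 i, (rd i).le⟩)
  obtain ⟨i, hi, -⟩ := (u4 R R' hR).1.exists
  obtain ⟨φ, gen, hφ⟩ := g3 (n - 1) R' (hR.nonneg.2 (.of_forall r0)) (hi ▸ rd i) (by
    rw [show cc (n - 1) (𝒰.fn a) R' = 𝒰.lp fun i => cc (n - 1) (a i) (R i) from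
      funext fun m => cp1 R R' hR m]
    exact hUAV k E k' E' 𝒰.toU0 _ _ _ _ S hS (.of_forall av))
  obtain ⟨D0, h0⟩ := g2 _ (Gt.pt_nonneg (𝒰.pl P0)) fun m =>
    ⟨⟨_, subset_acl _ ⟨.inr (false, m), rfl⟩⟩, (cp1 _ _ (𝒰.lm_pt P0) m).symm⟩
  obtain ⟨P, hP⟩ := (X.cl.all (𝒰.pl P0)).resolve_right fun ⟨y, hy⟩ => by
    simpa [h0, hy] using X.up_pl D0 y
  have gr := hGGR n _ F k' E' C X hn _ φ gen (by rw [Fintype.card_fin]; omega) P
  rw [xW, hφ, ← hP] at gr
  have := 𝒰.ne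
  have b1 := uu_all (p := fun i P => lS (R i + pt P) = 1) fun P =>
    (v _ _ (hR.add (𝒰.lm_pt P))).2.2.1.mono fun i e => e.trans (gr.bpf _)
  have b2 := uu_all (p := fun i H => R i ≤ H → Pr (H - W i) →
      2 * n ≤ #H.support + 1 ∧ (H (P0 i) ≠ 0 → 2 * n ≤ #H.support)) fun H => by
    by_cases h : ∀ᶠ i in UU, R i ≤ H i ∧ Pr (H i - W i)
    · obtain ⟨H', hH⟩ := u2 H (2 * n) (h.mono fun i e => ⟨(r0 i).trans e.1, by
        have := (mo i).can.deg_W
        have := e.2.deg_eq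
        omega⟩)
      have := gr.sb H' ((hR.le_iff hH).2 (h.mono fun _ e => e.1))
        ((v _ _ (hH.sub hW)).2.2.2.1.2 (h.mono fun _ e => e.2))
      filter_upwards [(u4 H H' hH).1, hH P0] with i e e' _ _
      rwa [e.2, e']
    · exact (Ultrafilter.eventually_not.2 h).mono fun i e x y => absurd ⟨x, y⟩ e
  obtain ⟨i, c1, c2⟩ := (b1.and b2).exists
  exact ng i ⟨c1, c2⟩

end

section

open WithZero Module Finset Polynomial Filter
open Pool.Agent.P.MP_6f117a_ag (Place FF)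
open Pool.Agent.P.MP_ab3ecb_nt.Inv
open Pool.Agent.P.MP_9344a7_nt.R (Eff J ef)
open Pool.Agent.P.MP_9344a7_nt.Hy (LD GB FB IsL)
open Pool.Agent.P.MP_9344a7_nt.Od (GD)
open Pool.Agent.P.MP_9344a7_nt.Gt (pt lS Pr Can Bd Ch G12 Cv Kb)
open scoped Classical IntermediateField Polynomial.Bivariate

lemma usz_one {κ F k : Type} [Fintype κ] [Field F] [Fintype F] [Field k] [Algebra F k]
    {G : MvPolynomial κ k} (h : G ≠ 0) :
    Fintype.card F * #{x : κ → F | MvPolynomial.eval (algebraMap F k ∘ x) G = 0} ≤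
      G.totalDegree * Fintype.card F ^ Fintype.card κ := by
  let e := Fintype.equivFin κ
  have h1 := MvPolynomial.schwartz_zippel_totalDegree (p := MvPolynomial.rename e G)
    (fun a => h (MvPolynomial.rename_injective _ e.injective (a.trans (map_zero _).symm)))
    (univ.image (algebraMap F k))
  have h0 : (0 : ℚ≥0) < Fintype.card F := Nat.cast_pos.2 Fintype.card_pos
  rw [card_image_of_injective _ (algebraMap F k).injective, card_univ,
    div_le_div_iff₀ (pow_pos h0 _) h0, mul_comm] at h1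
  norm_cast at h1
  refine (Nat.mul_le_mul_left _ (card_le_card_of_injOn (fun x => algebraMap F k ∘ x ∘ e.symm)
    (fun x hx => mem_filter.2 ⟨Fintype.mem_piFinset.2 fun i => mem_image_of_mem _ (mem_univ _), ?_⟩)
    fun x _ y _ a => funext fun i => (algebraMap F k).injective ?_)).trans
    (h1.trans (Nat.mul_le_mul_right _ (MvPolynomial.totalDegree_rename_le _ _)))
  · rw [MvPolynomial.eval_rename, ← (mem_filter.1 hx).2]
    congr 2
    ext i
    simp
  · simpa using congrFun a (e i)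

theorem p_USZ :
    S_USZ := by
  refine fun ι κ _ S => ⟨∑ G ∈ S, G.totalDegree, fun F k _ _ _ _ p => ?_⟩
  refine (Nat.mul_le_mul_left _ ((card_le_card (t := (S.filter fun G =>
    MvPolynomial.map (sb p) G ≠ 0).biUnion fun G => {x : κ → F |
      MvPolynomial.eval (algebraMap F k ∘ x) (MvPolynomial.map (sb p) G) = 0}) fun x hx => ?_).trans
    card_biUnion_le)).trans ?_
  · have := (mem_filter.1 hx).2
    simp only [Av, not_forall, not_not] at this
    obtain ⟨G, a, b, c⟩ := this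
    exact mem_biUnion.2 ⟨G, mem_filter.2 ⟨a, b⟩, mem_filter.2 ⟨mem_univ _, by
      rwa [MvPolynomial.eval_map]⟩⟩
  rw [mul_sum, sum_mul]
  exact (sum_le_sum fun G hG => (usz_one (mem_filter.1 hG).2).trans (Nat.mul_le_mul_right _
    (sup_mono (MvPolynomial.support_map_subset _ _)))).trans
    (sum_le_sum_of_subset (filter_subset _ _))

end

end Pool.Agent.P.MP_9344a7_nt.Ac
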